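import Pool.Agent.S3.Cl.Edge
import Pool.Agent.S3.CritCfg
import Pool.Agent.S3.Edg

/-!
# Stage 3: closed ends: the fields `far` and `near` of `Cfg.Edg` at the edges with a closed end
-/

namespace Pool.Agent.S3.Cl

open Complex Pool.Agent.S3
open Pool.Agent.H63.VC7 (inc)
open Pool.Agent.H25.RK (gdv gdv_re_lt gdv_hasDerivAt)
open Pool.Agent.S3.E (Zr uu qe qo bw xx th)

/-- the conditions on the contour at a neighbour of a closed end -/
structure VOK (a : ℕ) (b v1 lam : ℝ) : Prop where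
  a3 : 3 ≤ a
  v0 : 0 < v1
  vh : v1 ≤ 1 / 3
  va : 2 ≤ v1 * (2 * a + 1)
  hl : LamOK a b v1 lam

variable {m : ℕ} {a : Fin (m + 1) → ℕ} {σ : Fin (m + 1) → ℤ} {z : Fin (m + 1) → ℂ}

/-- The choice `8/25 ≤ v1 ≤ 1/3`, `lam = b/a`. -/
theorem vok {i k : Fin (m + 1)} (h : Zr (fun i => (a i : ℝ)) chL chR 1 z)
    (hik : chL i = some k ∨ chR i = some k) (ha : 3 ≤ a i) {v1 : ℝ} (h1 : 8 / 25 ≤ v1)
    (h2 : v1 ≤ 1 / 3) : VOK (a i) (bw (z i) (z k)) v1 (bw (z i) (z k) / a i) := by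
  have ha3 : (3 : ℝ) ≤ (a i : ℝ) := by exact_mod_cast ha
  have hb0 := h.bw_pos hik
  have hle : bw (z i) (z k) ≤ (a i : ℝ) := by
    have hsum := h.sum_bwo i
    have hn : ∀ o, (chL i = o ∨ chR i = o) → 0 ≤ E.bwo z i o := by
      intro o ho
      cases o with
      | none => exact le_rfl
      | some l => exact (h.bw_pos ho).le
    have p1 := hn _ (Or.inl rfl)
    have p2 := hn _ (Or.inr rfl)
    rcases hik with e | e
    · rw [e] at hsum
      have e2 : E.bwo z i (some k) = bw (z i) (z k) := rfl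
      rw [e2] at hsum
      linarith
    · rw [e] at hsum
      have e2 : E.bwo z i (some k) = bw (z i) (z k) := rfl
      rw [e2] at hsum
      linarith
  have ha0 : (0 : ℝ) < (a i : ℝ) := by linarith
  set b := bw (z i) (z k) with hb
  have ht0 : 0 ≤ b / (a i : ℝ) := div_nonneg hb0.le ha0.le
  have ht1 : b / (a i : ℝ) ≤ 1 := (div_le_one ha0).2 hle
  have hta : b / (a i : ℝ) * (a i : ℝ) = b := div_mul_cancel₀ _ ha0.ne'
  set t := b / (a i : ℝ) with ht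
  have key : 1 - (a i : ℝ) * v1 ≤ 1 / 25 := by nlinarith
  have k2 : 2 * t * (1 - (a i : ℝ) * v1) ≤ 2 / 25 := by nlinarith
  refine ⟨ha, by linarith, h2, by nlinarith, ?_, ?_⟩
  · linarith
  · -- `2 t (1 + a v1) = 2 t (1 - a v1) + 4 b v1`
    have e : 2 * t * (1 + (a i : ℝ) * v1) = 2 * t * (1 - (a i : ℝ) * v1)
        + 4 * (t * (a i : ℝ)) * v1 := by ring
    rw [e, hta]
    linarith

theorem sv_op {i : Fin (m + 1)} (h : ¬ clo a i) (v : ℂ) : (cfgOf a σ z).sv i v = .op v := by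
  unfold Cfg.sv
  rw [if_pos (mem_Op.2 h)]

theorem sv_cl {i : Fin (m + 1)} (h : clo a i) (v : ℂ) : (cfgOf a σ z).sv i v = .cl (σ i) := by
  unfold Cfg.sv
  rw [if_neg (fun h1 => mem_Op.1 h1 h)]
  rfl

theorem lw_cl {i : Fin (m + 1)} (h : clo a i) (v1 : Fin (m + 1) → ℝ)
    (lam : Fin m → Fin (m + 1) → ℝ) (j : Fin m) (v : ℂ) : (cfgOf a σ z).lw v1 lam j i v = 0 := by
  unfold Cfg.lw
  rw [if_neg (fun h1 => mem_Op.1 h1 h)]

theorem lw_op {i : Fin (m + 1)} (h : ¬ clo a i) (v1 : Fin (m + 1) → ℝ)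
    (lam : Fin m → Fin (m + 1) → ℝ) (j : Fin m)
    (hev : ev ((cfgOf a σ z).yc j) ((cfgOf a σ z).vc i) = -2 * Qv σ z j i) (F : ℝ) (v : ℂ) :
    F + (cfgOf a σ z).lw v1 lam j i v = Lsh F ((cfgOf a σ z).vc i) (Qv σ z j i)
      ((cfgOf a σ z).β j i) ((cfgOf a σ z).θ i) (v1 i) ((cfgOf a σ z).r i) (lam j i) v := by
  have e : -ev ((cfgOf a σ z).yc j) ((cfgOf a σ z).vc i) / 2 = Qv σ z j i := by
    rw [hev]; ring
  unfold Cfg.lw Cfg.lv
  rw [if_pos (mem_Op.2 h), if_pos (mem_Op.2 h), e]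
  rfl

theorem vc_neg {i : Fin (m + 1)} (h : σ i = -1) : (cfgOf a σ z).vc i = gdv (uu (z i)) := by
  unfold Cfg.vc
  rw [uc_neg h]

theorem vc_pos {i : Fin (m + 1)} (hu : |(uu (z i)).im| < Real.pi / 2) (h : σ i = 1) :
    (cfgOf a σ z).vc i = mir (gdv (uu (z i))) := by
  unfold Cfg.vc
  rw [uc_pos h, gdv_neg (by rwa [conj_im, abs_neg]), gdv_conj hu]
  rfl

theorem r_neg {i : Fin (m + 1)} (h : σ i = -1) : (cfgOf a σ z).r i = -((a i : ℝ) / 2) := by
  show (σ i : ℝ) * a i / 2 = _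
  rw [h]; push_cast; ring

theorem r_pos {i : Fin (m + 1)} (h : σ i = 1) : (cfgOf a σ z).r i = (a i : ℝ) / 2 := by
  show (σ i : ℝ) * a i / 2 = _
  rw [h]; push_cast; ring

theorem uu_im (h : Zr (fun i => (a i : ℝ)) chL chR 1 z) (i : Fin (m + 1)) :
    |(uu (z i)).im| < Real.pi / 2 := by
  rw [uu, UU_im]
  exact E.abs_th_lt (h.pos i).1 (h.pos i).2.1 (h.pos i).2.2

section

variable {v1 : Fin (m + 1) → ℝ} {lam : Fin m → Fin (m + 1) → ℝ}

/-- the right end of the edge is closed -/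
theorem far_left (h : Zr (fun i => (a i : ℝ)) chL chR 1 z) (ha : ∀ i, 2 ≤ a i)
    (hσ : ∀ i, σ i = 1 ∨ σ i = -1) (hs : ∀ j : Fin m, σ j.succ = -σ j.castSucc)
    (h2 : ∀ j : Fin m, ¬ (clo a j.castSucc ∧ clo a j.succ)) {j : Fin m}
    (c2 : clo a j.succ)
    (hV : VOK (a j.castSucc) (bw (z j.castSucc) (z j.succ)) (v1 j.castSucc) (lam j j.castSucc))
    {v w : ℂ} (hv : v ∈ G0 ((cfgOf a σ z).θ j.castSucc) (v1 j.castSucc))
    (hne : v ≠ (cfgOf a σ z).vc j.castSucc) :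
    EdgeOK ((cfgOf a σ z).sv j.castSucc v) ((cfgOf a σ z).sv j.succ w)
      ((cfgOf a σ z).Lw v1 lam j v w) := by
  have c1 : ¬ clo a j.castSucc := fun c1 => h2 j ⟨c1, c2⟩
  have hE := edC h ha hσ hs h2 j
  have ha3 : (3 : ℝ) ≤ (fun i => (a i : ℝ)) j.castSucc := by
    show (3 : ℝ) ≤ (a j.castSucc : ℝ)
    exact_mod_cast hV.a3
  have hL : (cfgOf a σ z).Lw v1 lam j v w = Lsh ((cfgOf a σ z).Fc j) ((cfgOf a σ z).vc j.castSucc)
      (Qv σ z j j.castSucc) ((cfgOf a σ z).β j j.castSucc) ((cfgOf a σ z).θ j.castSucc)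
      (v1 j.castSucc) ((cfgOf a σ z).r j.castSucc) (lam j j.castSucc) v := by
    unfold Cfg.Lw
    rw [lw_cl c2, add_zero, lw_op c1 v1 lam j (hE.ev1 c1)]
  rw [hL, sv_op c1, sv_cl c2]
  unfold Cfg.Fc
  rw [slc_op c1, slc_cl c2]
  rcases hσ j.castSucc with s1 | s1
  · -- `c > 0` at the open vertex
    have s2 : σ j.succ = -1 := by rw [hs, s1]
    have hv' := vc_pos (a := a) (uu_im h j.castSucc) s1
    rw [hv'] at hne ⊢
    have ey0 : (cfgOf a σ z).yc j =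
        (starRingEnd ℂ) (yy (E.uu (z j.castSucc)) ((starRingEnd ℂ) (E.uu (z j.succ)))) := by
      rw [Pool.Agent.S3.yc_eq, if_neg (by rw [s1]; decide),
        ← yy_conj (h.reg_edge (Or.inr (chR_castSucc j))), conj_conj, yy_comm]
    have q1 : Qv σ z j j.castSucc = -((starRingEnd ℂ) (qe (z j.castSucc) (z j.succ))) := by
      rw [Qv_pos s1, if_pos rfl]
    have b1 : (cfgOf a σ z).β j j.castSucc = 2 * Real.pi * bw (z j.castSucc) (z j.succ) := by
      rw [β_cs, s1]; norm_num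
    rw [ey0, q1, b1, r_pos s1, s2]
    exact edge_p h (end_right c2) ha3 hV.v0 hV.vh hV.va hV.hl hv hne
  · have s2 : σ j.succ = 1 := by rw [hs, s1]; rfl
    have hv' := vc_neg (a := a) (z := z) s1
    rw [hv'] at hne ⊢
    have ey0 : (cfgOf a σ z).yc j =
        yy (E.uu (z j.castSucc)) ((starRingEnd ℂ) (E.uu (z j.succ))) := by
      rw [Pool.Agent.S3.yc_eq, if_pos s1]
    have q1 : Qv σ z j j.castSucc = qe (z j.castSucc) (z j.succ) := by
      rw [Qv_neg s1, if_pos rfl]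
    have b1 : (cfgOf a σ z).β j j.castSucc = -(2 * Real.pi * bw (z j.castSucc) (z j.succ)) := by
      rw [β_cs, s1]; push_cast; ring
    rw [ey0, q1, b1, r_neg s1, s2]
    exact edge_n h (end_right c2) ha3 hV.v0 hV.vh hV.va hV.hl hv hne

/-- the left end of the edge is closed -/
theorem far_right (h : Zr (fun i => (a i : ℝ)) chL chR 1 z) (ha : ∀ i, 2 ≤ a i)
    (hσ : ∀ i, σ i = 1 ∨ σ i = -1) (hs : ∀ j : Fin m, σ j.succ = -σ j.castSucc)
    (h2 : ∀ j : Fin m, ¬ (clo a j.castSucc ∧ clo a j.succ)) {j : Fin m}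
    (c1 : clo a j.castSucc)
    (hV : VOK (a j.succ) (bw (z j.succ) (z j.castSucc)) (v1 j.succ) (lam j j.succ))
    {v w : ℂ} (hw : w ∈ G0 ((cfgOf a σ z).θ j.succ) (v1 j.succ))
    (hne : w ≠ (cfgOf a σ z).vc j.succ) :
    EdgeOK ((cfgOf a σ z).sv j.castSucc v) ((cfgOf a σ z).sv j.succ w)
      ((cfgOf a σ z).Lw v1 lam j v w) := by
  have c2 : ¬ clo a j.succ := fun c2 => h2 j ⟨c1, c2⟩
  have hE := edC h ha hσ hs h2 j
  have ha3 : (3 : ℝ) ≤ (fun i => (a i : ℝ)) j.succ := by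
    show (3 : ℝ) ≤ (a j.succ : ℝ)
    exact_mod_cast hV.a3
  have hL : (cfgOf a σ z).Lw v1 lam j v w = Lsh ((cfgOf a σ z).Fc j) ((cfgOf a σ z).vc j.succ)
      (Qv σ z j j.succ) ((cfgOf a σ z).β j j.succ) ((cfgOf a σ z).θ j.succ)
      (v1 j.succ) ((cfgOf a σ z).r j.succ) (lam j j.succ) w := by
    unfold Cfg.Lw
    rw [lw_cl c1, add_zero, lw_op c2 v1 lam j (hE.ev2 c2)]
  rw [hL, sv_op c2, sv_cl c1]
  unfold Cfg.Fc
  rw [slc_op c2, slc_cl c1]
  apply EdgeOK.symm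
  have hsym : EE (.cl (σ j.castSucc)) (.op ((cfgOf a σ z).vc j.succ)) ((cfgOf a σ z).yc j)
      = EE (.op ((cfgOf a σ z).vc j.succ)) (.cl (σ j.castSucc)) ((cfgOf a σ z).yc j) := by
    rw [EE, EE, add_comm]
  rw [hsym]
  rcases hσ j.castSucc with s1 | s1
  · have s2 : σ j.succ = -1 := by rw [hs, s1]
    have hv' := vc_neg (a := a) (z := z) s2
    rw [hv'] at hne ⊢
    have ey0 : (cfgOf a σ z).yc j =
        yy (E.uu (z j.succ)) ((starRingEnd ℂ) (E.uu (z j.castSucc))) := by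
      rw [Pool.Agent.S3.yc_eq, if_neg (by rw [s1]; decide)]
    have q1 : Qv σ z j j.succ = qe (z j.succ) (z j.castSucc) := by
      rw [Qv_neg s2, if_neg (ne_cs j)]
    have b1 : (cfgOf a σ z).β j j.succ = -(2 * Real.pi * bw (z j.succ) (z j.castSucc)) := by
      rw [β_su, s2]; push_cast; ring
    rw [ey0, q1, b1, r_neg s2, s1]
    exact edge_n h (end_left c1) ha3 hV.v0 hV.vh hV.va hV.hl hw hne
  · have s2 : σ j.succ = 1 := by rw [hs, s1]; rfl
    have hv' := vc_pos (a := a) (uu_im h j.succ) s2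
    rw [hv'] at hne ⊢
    have ey0 : (cfgOf a σ z).yc j =
        (starRingEnd ℂ) (yy (E.uu (z j.succ)) ((starRingEnd ℂ) (E.uu (z j.castSucc)))) := by
      rw [Pool.Agent.S3.yc_eq, if_pos s1, ← yy_conj (h.reg_edge (Or.inl (chL_succ j))), conj_conj,
        yy_comm]
    have q1 : Qv σ z j j.succ = -((starRingEnd ℂ) (qe (z j.succ) (z j.castSucc))) := by
      rw [Qv_pos s2, if_neg (ne_cs j)]
    have b1 : (cfgOf a σ z).β j j.succ = 2 * Real.pi * bw (z j.succ) (z j.castSucc) := by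
      rw [β_su, s2]; norm_num
    rw [ey0, q1, b1, r_pos s2, s1]
    exact edge_p h (end_left c1) ha3 hV.v0 hV.vh hV.va hV.hl hw hne

/-- the critical point of an edge whose right end is closed -/
theorem near_left (h : Zr (fun i => (a i : ℝ)) chL chR 1 z)
    (hσ : ∀ i, σ i = 1 ∨ σ i = -1) (hs : ∀ j : Fin m, σ j.succ = -σ j.castSucc)
    (h2 : ∀ j : Fin m, ¬ (clo a j.castSucc ∧ clo a j.succ)) {j : Fin m}
    (c2 : clo a j.succ) (ha3' : 3 ≤ a j.castSucc) :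
    EdgeC ((cfgOf a σ z).slc j.castSucc) ((cfgOf a σ z).slc j.succ) ((cfgOf a σ z).yc j)
      ((cfgOf a σ z).Fc j) := by
  have c1 : ¬ clo a j.castSucc := fun c1 => h2 j ⟨c1, c2⟩
  have ha3 : (3 : ℝ) ≤ (fun i => (a i : ℝ)) j.castSucc := by
    show (3 : ℝ) ≤ (a j.castSucc : ℝ)
    exact_mod_cast ha3'
  unfold Cfg.Fc
  rw [slc_op c1, slc_cl c2]
  rcases hσ j.castSucc with s1 | s1
  · have s2 : σ j.succ = -1 := by rw [hs, s1]
    have ey0 : (cfgOf a σ z).yc j =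
        (starRingEnd ℂ) (yy (E.uu (z j.castSucc)) ((starRingEnd ℂ) (E.uu (z j.succ)))) := by
      rw [Pool.Agent.S3.yc_eq, if_neg (by rw [s1]; decide),
        ← yy_conj (h.reg_edge (Or.inr (chR_castSucc j))), conj_conj, yy_comm]
    rw [vc_pos (a := a) (uu_im h j.castSucc) s1, ey0, s2]
    exact near_p h (end_right c2) ha3
  · have s2 : σ j.succ = 1 := by rw [hs, s1]; rfl
    have ey0 : (cfgOf a σ z).yc j =
        yy (E.uu (z j.castSucc)) ((starRingEnd ℂ) (E.uu (z j.succ))) := by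
      rw [Pool.Agent.S3.yc_eq, if_pos s1]
    rw [vc_neg (a := a) (z := z) s1, ey0, s2]
    exact near_n h (end_right c2) ha3

/-- the critical point of an edge whose left end is closed -/
theorem near_right (h : Zr (fun i => (a i : ℝ)) chL chR 1 z)
    (hσ : ∀ i, σ i = 1 ∨ σ i = -1) (hs : ∀ j : Fin m, σ j.succ = -σ j.castSucc)
    (h2 : ∀ j : Fin m, ¬ (clo a j.castSucc ∧ clo a j.succ)) {j : Fin m}
    (c1 : clo a j.castSucc) (ha3' : 3 ≤ a j.succ) :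
    EdgeC ((cfgOf a σ z).slc j.castSucc) ((cfgOf a σ z).slc j.succ) ((cfgOf a σ z).yc j)
      ((cfgOf a σ z).Fc j) := by
  have c2 : ¬ clo a j.succ := fun c2 => h2 j ⟨c1, c2⟩
  have ha3 : (3 : ℝ) ≤ (fun i => (a i : ℝ)) j.succ := by
    show (3 : ℝ) ≤ (a j.succ : ℝ)
    exact_mod_cast ha3'
  unfold Cfg.Fc
  rw [slc_op c2, slc_cl c1]
  have hsym : EE (.cl (σ j.castSucc)) (.op ((cfgOf a σ z).vc j.succ)) ((cfgOf a σ z).yc j)
      = EE (.op ((cfgOf a σ z).vc j.succ)) (.cl (σ j.castSucc)) ((cfgOf a σ z).yc j) := by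
    rw [EE, EE, add_comm]
  rw [hsym]
  apply EdgeC.symm
  rcases hσ j.castSucc with s1 | s1
  · have s2 : σ j.succ = -1 := by rw [hs, s1]
    have ey0 : (cfgOf a σ z).yc j =
        yy (E.uu (z j.succ)) ((starRingEnd ℂ) (E.uu (z j.castSucc))) := by
      rw [Pool.Agent.S3.yc_eq, if_neg (by rw [s1]; decide)]
    rw [vc_neg (a := a) (z := z) s2, ey0, s1]
    exact near_n h (end_left c1) ha3
  · have s2 : σ j.succ = 1 := by rw [hs, s1]; rfl
    have ey0 : (cfgOf a σ z).yc j =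
        (starRingEnd ℂ) (yy (E.uu (z j.succ)) ((starRingEnd ℂ) (E.uu (z j.castSucc)))) := by
      rw [Pool.Agent.S3.yc_eq, if_pos s1, ← yy_conj (h.reg_edge (Or.inl (chL_succ j))), conj_conj,
        yy_comm]
    rw [vc_pos (a := a) (uu_im h j.succ) s2, ey0, s1]
    exact near_p h (end_left c1) ha3

/-- **The field `far` at the edges with a closed end.** -/
theorem far (h : Zr (fun i => (a i : ℝ)) chL chR 1 z) (ha : ∀ i, 2 ≤ a i)
    (hσ : ∀ i, σ i = 1 ∨ σ i = -1) (hs : ∀ j : Fin m, σ j.succ = -σ j.castSucc)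
    (h2 : ∀ j : Fin m, ¬ (clo a j.castSucc ∧ clo a j.succ)) {j : Fin m}
    (hc : clo a j.castSucc ∨ clo a j.succ)
    (hl : ¬ clo a j.castSucc →
      VOK (a j.castSucc) (bw (z j.castSucc) (z j.succ)) (v1 j.castSucc) (lam j j.castSucc))
    (hr : ¬ clo a j.succ →
      VOK (a j.succ) (bw (z j.succ) (z j.castSucc)) (v1 j.succ) (lam j j.succ))
    (v w : ℂ)
    (hv : j.castSucc ∈ (cfgOf a σ z).Op → v ∈ G0 ((cfgOf a σ z).θ j.castSucc) (v1 j.castSucc))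
    (hw : j.succ ∈ (cfgOf a σ z).Op → w ∈ G0 ((cfgOf a σ z).θ j.succ) (v1 j.succ))
    (hne : (j.castSucc ∈ (cfgOf a σ z).Op ∧ v ≠ (cfgOf a σ z).vc j.castSucc) ∨
      (j.succ ∈ (cfgOf a σ z).Op ∧ w ≠ (cfgOf a σ z).vc j.succ)) :
    EdgeOK ((cfgOf a σ z).sv j.castSucc v) ((cfgOf a σ z).sv j.succ w)
      ((cfgOf a σ z).Lw v1 lam j v w) := by
  rcases hc with c | c
  · have c2 : ¬ clo a j.succ := fun c2 => h2 j ⟨c, c2⟩
    rcases hne with ⟨h3, _⟩ | ⟨h3, h4⟩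
    · exact absurd c (mem_Op.1 h3)
    · exact far_right h ha hσ hs h2 c (hr c2) (hw h3) h4
  · have c1 : ¬ clo a j.castSucc := fun c1 => h2 j ⟨c1, c⟩
    rcases hne with ⟨h3, h4⟩ | ⟨h3, _⟩
    · exact far_left h ha hσ hs h2 c (hl c1) (hv h3) h4
    · exact absurd c (mem_Op.1 h3)

/-- **The field `near` at the edges with a closed end.** -/
theorem near (h : Zr (fun i => (a i : ℝ)) chL chR 1 z)
    (hσ : ∀ i, σ i = 1 ∨ σ i = -1) (hs : ∀ j : Fin m, σ j.succ = -σ j.castSucc)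
    (h2 : ∀ j : Fin m, ¬ (clo a j.castSucc ∧ clo a j.succ)) {j : Fin m}
    (hc : clo a j.castSucc ∨ clo a j.succ)
    (hl : ¬ clo a j.castSucc → 3 ≤ a j.castSucc) (hr : ¬ clo a j.succ → 3 ≤ a j.succ) :
    EdgeC ((cfgOf a σ z).slc j.castSucc) ((cfgOf a σ z).slc j.succ) ((cfgOf a σ z).yc j)
      ((cfgOf a σ z).Fc j) := by
  rcases hc with c | c
  · exact near_right h hσ hs h2 c (hr fun c2 => h2 j ⟨c, c2⟩)
  · exact near_left h hσ hs h2 c (hl fun c1 => h2 j ⟨c1, c⟩)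

end

end Pool.Agent.S3.Cl
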