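import Pool.Agent.S3.Cl.Num

/-!
# Stage 3: closed ends next to an inner `2`: the mean of the other edge (real inequalities)
-/

set_option autoImplicit false

namespace Pool.Agent.S3.Cl

theorem pb_ch6 {x : ℝ} (h0 : 0 ≤ x) (h1 : x ≤ 1) :
    Real.cosh x ≤ 1 + x ^ 2 / 2 + x ^ 4 / 24 + 7 / 4320 * x ^ 6 := by
  have e1 := Real.exp_bound (x := x) (by rw [abs_of_nonneg h0]; exact h1) (n := 6) (by norm_num)
  have e2 := Real.exp_bound (x := -x) (by rw [abs_neg, abs_of_nonneg h0]; exact h1) (n := 6)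
    (by norm_num)
  rw [abs_neg] at e2
  rw [abs_of_nonneg h0] at e1 e2
  have f1 := (abs_le.1 e1).2
  have f2 := (abs_le.1 e2).2
  norm_num [Finset.sum_range_succ, Nat.factorial] at f1 f2
  rw [Real.cosh_eq]
  linarith

theorem pb_atanh {y : ℝ} (h : 0 ≤ y) : Real.tanh y + Real.tanh y ^ 3 / 3 ≤ y := by
  have hd : ∀ x : ℝ, HasDerivAt (fun x => x - (Real.tanh x + Real.tanh x ^ 3 / 3))
      (Real.tanh x ^ 4) x := by
    intro x
    have h1 : HasDerivAt Real.tanh (1 - Real.tanh x ^ 2) x := by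
      have h2 := (Real.hasDerivAt_sinh x).div (Real.hasDerivAt_cosh x) (Real.cosh_pos x).ne'
      have e : (fun x => Real.sinh x / Real.cosh x) = Real.tanh := by
        funext x; exact (Real.tanh_eq_sinh_div_cosh x).symm
      have h3 : HasDerivAt Real.tanh
          ((Real.cosh x * Real.cosh x - Real.sinh x * Real.sinh x) / Real.cosh x ^ 2) x := by
        rw [← e]; exact h2
      convert h3 using 1
      rw [Real.tanh_eq_sinh_div_cosh]
      have hc := (Real.cosh_pos x).ne'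
      field_simp
    have h4 : HasDerivAt (fun x => x - (Real.tanh x + Real.tanh x ^ 3 / 3))
        (1 - ((1 - Real.tanh x ^ 2) + 3 * Real.tanh x ^ 2 * (1 - Real.tanh x ^ 2) / 3)) x := by
      have h5 := (h1.pow 3).div_const 3
      norm_num at h5
      exact (hasDerivAt_id' x).sub (h1.add h5)
    convert h4 using 1
    ring
  have hm : Monotone (fun x => x - (Real.tanh x + Real.tanh x ^ 3 / 3)) := by
    apply monotone_of_deriv_nonneg
    · exact fun x => (hd x).differentiableAt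
    · intro x
      rw [(hd x).deriv]
      positivity
  have := hm h
  simp only [Real.tanh_zero] at this
  norm_num at this
  linarith

section

variable {R I x θ : ℝ}

/-- the line below `R` at `x = 39/50` -/
theorem pb_R (hR1 : R < Real.pi / 2) (hR0 : 0 < R)
    (hS : Real.sin R * Real.cos θ = Real.sinh x * Real.cos R) (hx : 39 / 50 ≤ x)
    (h0 : 1 / 3 ≤ θ) (h1 : θ ≤ 17 / 25) :
    Real.pi / 4 + (-(47 / 10000) + 143 / 500 * (θ - 13 / 25)) ≤ R := by
  have hpi := Real.pi_gt_d4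
  have hpi' := Real.pi_lt_d4
  obtain ⟨u, hu⟩ : ∃ u, u = -(47 / 10000) + 143 / 500 * (θ - 13 / 25) := ⟨_, rfl⟩
  rw [← hu]
  have u0 : -(581 / 10000) ≤ u := by rw [hu]; linarith
  have u1 : u ≤ 411 / 10000 := by rw [hu]; linarith
  have hua : |u| ≤ 581 / 10000 := abs_le.2 ⟨u0, by linarith⟩
  have hu4 : |u| ^ 4 ≤ (581 / 10000) ^ 4 := pow_le_pow_left₀ (abs_nonneg _) hua 4
  have hu5 : |u| ^ 5 ≤ (581 / 10000) ^ 5 := pow_le_pow_left₀ (abs_nonneg _) hua 5
  norm_num at hu4 hu5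
  have s1 := abs_le.1 (Real.sin_bound (x := u) (by linarith))
  have c1 := abs_le.1 (Real.cos_bound (x := u) (by linarith))
  have u3 : -(2 / 10000) ≤ u ^ 3 ∧ u ^ 3 ≤ 1 / 10000 := by
    constructor
    · nlinarith [sq_nonneg u, sq_nonneg (u + 581 / 10000)]
    · nlinarith [sq_nonneg u, sq_nonneg (u - 411 / 10000)]
  have sl : u - 2 / 100000 ≤ Real.sin u := by linarith [s1.1, u3.2]
  have su : Real.sin u ≤ u + 4 / 100000 := by linarith [s1.2, u3.1]
  have cl : 1 - u ^ 2 / 2 - 1 / 1000000 ≤ Real.cos u := by linarith [c1.1]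
  have cu : Real.cos u ≤ 1 - u ^ 2 / 2 + 1 / 1000000 := by linarith [c1.2]
  have hcθ : 0 < Real.cos θ := Real.cos_pos_of_mem_Ioo ⟨by linarith, by linarith⟩
  have hc4 := n_c4 (x := θ) (by linarith)
  -- the key inequality
  have key : (Real.cos u + Real.sin u) * Real.cos θ < 8614 / 10000 * (Real.cos u - Real.sin u) := by
    have k1 : Real.cos u + Real.sin u ≤ 1 + u - u ^ 2 / 2 + 5 / 100000 := by linarith
    have k2 : 1 - u - u ^ 2 / 2 - 5 / 100000 ≤ Real.cos u - Real.sin u := by linarith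
    have k3 : 0 ≤ 1 + u - u ^ 2 / 2 + 5 / 100000 := by nlinarith
    have k4 : (Real.cos u + Real.sin u) * Real.cos θ
        ≤ (1 + u - u ^ 2 / 2 + 5 / 100000) * (1 - θ ^ 2 / 2 + θ ^ 4 / 24) :=
      (mul_le_mul_of_nonneg_right k1 hcθ.le).trans (mul_le_mul_of_nonneg_left hc4 k3)
    have k5 : (1 + u - u ^ 2 / 2 + 5 / 100000) * (1 - θ ^ 2 / 2 + θ ^ 4 / 24)
        < 8614 / 10000 * (1 - u - u ^ 2 / 2 - 5 / 100000) := by
      obtain ⟨r, hr⟩ : ∃ r, r = θ - 1 / 3 := ⟨_, rfl⟩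
      have e : θ = r + 1 / 3 := by rw [hr]; ring
      have r0 : 0 ≤ r := by rw [hr]; linarith
      have r1 : r ≤ 26 / 75 := by rw [hr]; linarith
      rw [hu, e]
      have r2 := mul_nonneg r0 (sub_nonneg.2 r1)
      have r3 := mul_nonneg r0 r0
      have r4 := mul_nonneg r3 (sub_nonneg.2 r1)
      have r5 := mul_nonneg (mul_nonneg r3 r0) (sub_nonneg.2 r1)
      nlinarith [sq_nonneg (r - 187 / 1000), mul_nonneg r0 (sq_nonneg (r - 187 / 1000))]
    linarith [mul_le_mul_of_nonneg_left k2 (show (0 : ℝ) ≤ 8614 / 10000 by norm_num)]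
  have hsh : 8614 / 10000 ≤ Real.sinh x := by
    have a1 := n_sh5 (x := 39 / 50) (by norm_num)
    have a2 := Real.sinh_le_sinh.2 hx
    norm_num at a1
    linarith
  by_contra hc
  push Not at hc
  have hL : Real.pi / 4 + u < Real.pi / 2 := by linarith
  have b1 : Real.sin R < Real.sin (Real.pi / 4 + u) :=
    Real.sin_lt_sin_of_lt_of_le_pi_div_two (by linarith) hL.le hc
  have b2 : Real.cos (Real.pi / 4 + u) < Real.cos R :=
    Real.cos_lt_cos_of_nonneg_of_le_pi hR0.le (by linarith) hc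
  have e1 : Real.sin (Real.pi / 4 + u) = √2 / 2 * (Real.cos u + Real.sin u) := by
    rw [Real.sin_add, Real.sin_pi_div_four, Real.cos_pi_div_four]; ring
  have e2 : Real.cos (Real.pi / 4 + u) = √2 / 2 * (Real.cos u - Real.sin u) := by
    rw [Real.cos_add, Real.sin_pi_div_four, Real.cos_pi_div_four]; ring
  have h2 : 0 < √2 / 2 := by positivity
  have hcR : 0 < Real.cos R := Real.cos_pos_of_mem_Ioo ⟨by linarith, hR1⟩
  have b3 : Real.sin (Real.pi / 4 + u) * Real.cos θ
      < 8614 / 10000 * Real.cos (Real.pi / 4 + u) := by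
    rw [e1, e2]
    calc √2 / 2 * (Real.cos u + Real.sin u) * Real.cos θ
        = √2 / 2 * ((Real.cos u + Real.sin u) * Real.cos θ) := by ring
      _ < √2 / 2 * (8614 / 10000 * (Real.cos u - Real.sin u)) := mul_lt_mul_of_pos_left key h2
      _ = _ := by ring
  have b4 : Real.sin R * Real.cos θ < Real.sin (Real.pi / 4 + u) * Real.cos θ :=
    mul_lt_mul_of_pos_right b1 hcθ
  have b5 : 8614 / 10000 * Real.cos R ≤ Real.sinh x * Real.cos R :=
    mul_le_mul_of_nonneg_right hsh hcR.le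
  linarith [mul_le_mul_of_nonneg_left b2.le (show (0 : ℝ) ≤ 8614 / 10000 by norm_num)]

/-- the line above `I` at `x = 39/50` -/
theorem pb_I (hI0 : 0 < I) (hY : Real.sin θ * Real.cosh I = Real.sinh I * Real.cosh x)
    (hx : 39 / 50 ≤ x) (h0 : 1 / 3 ≤ θ) (h1 : θ ≤ 17 / 25) :
    I ≤ 1529 / 2000 * θ - 1 / 1000 := by
  obtain ⟨y, hy⟩ : ∃ y, y = 1529 / 2000 * θ - 1 / 1000 := ⟨_, rfl⟩
  rw [← hy]
  have y0 : 0 ≤ y := by rw [hy]; linarith
  have y1 : y ≤ 1 := by rw [hy]; linarith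
  have s1 := n_s5 (x := θ) (by linarith)
  have c1 := pb_ch6 y0 y1
  have h5 := n_sh5 y0
  have hch : 13199 / 10000 ≤ Real.cosh x := by
    have a1 := n_ch4 (x := 39 / 50) (by norm_num)
    have a2 : Real.cosh (39 / 50) ≤ Real.cosh x := by
      apply Real.cosh_le_cosh.2
      rw [abs_of_pos (by norm_num : (0 : ℝ) < 39 / 50), abs_of_pos (by linarith)]
      exact hx
    have a3 : 13199 / 10000 ≤ Real.cosh (39 / 50) := by
      have b1 := Real.cosh_sq (39 / 50 : ℝ)
      have b2 := n_sh5 (x := 39 / 50) (by norm_num)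
      norm_num at a1 b2
      by_contra hc
      push Not at hc
      have b3 : Real.cosh (39 / 50) ^ 2 < (13199 / 10000) ^ 2 :=
        pow_lt_pow_left₀ hc (by linarith [Real.cosh_pos (39 / 50 : ℝ)]) two_ne_zero
      nlinarith
    linarith
  have hsθ : 0 ≤ Real.sin θ :=
    Real.sin_nonneg_of_nonneg_of_le_pi (by linarith) (by linarith [Real.pi_gt_three])
  -- the key inequality
  have key : Real.sin θ * Real.cosh y < 13199 / 10000 * Real.sinh y := by
    have k1 : Real.sin θ * Real.cosh y ≤ (θ - θ ^ 3 / 6 + θ ^ 5 / 120) *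
        (1 + y ^ 2 / 2 + y ^ 4 / 24 + 7 / 4320 * y ^ 6) :=
      mul_le_mul s1 c1 (Real.cosh_pos y).le (hsθ.trans s1)
    have k2 : (θ - θ ^ 3 / 6 + θ ^ 5 / 120) *
        (1 + y ^ 2 / 2 + y ^ 4 / 24 + 7 / 4320 * y ^ 6)
        < 13199 / 10000 * (y + y ^ 3 / 6 + y ^ 5 / 120) := by
      obtain ⟨r, hr⟩ : ∃ r, r = θ - 1 / 3 := ⟨_, rfl⟩
      have e : θ = r + 1 / 3 := by rw [hr]; ring
      have r0 : 0 ≤ r := by rw [hr]; linarith
      have r1 : r ≤ 26 / 75 := by rw [hr]; linarith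
      rw [hy, e]
      have r2 := mul_nonneg r0 (sub_nonneg.2 r1)
      have r3 := mul_nonneg r0 r0
      have r4 := mul_nonneg r3 (sub_nonneg.2 r1)
      have r5 := mul_nonneg (mul_nonneg r3 r0) (sub_nonneg.2 r1)
      have r6 := mul_nonneg (mul_nonneg r3 r3) (sub_nonneg.2 r1)
      have r7 := mul_nonneg (mul_nonneg (mul_nonneg r3 r3) r0) (sub_nonneg.2 r1)
      have r8 := mul_nonneg (mul_nonneg (mul_nonneg r3 r3) r3) (sub_nonneg.2 r1)
      have r9 := mul_nonneg (mul_nonneg (mul_nonneg (mul_nonneg r3 r3) r3) r0) (sub_nonneg.2 r1)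
      have r10 := mul_nonneg (mul_nonneg (mul_nonneg (mul_nonneg r3 r3) r3) r3) (sub_nonneg.2 r1)
      have r11 := mul_nonneg (mul_nonneg (mul_nonneg (mul_nonneg (mul_nonneg r3 r3) r3) r3) r0)
        (sub_nonneg.2 r1)
      nlinarith
    linarith [mul_le_mul_of_nonneg_left h5 (show (0 : ℝ) ≤ 13199 / 10000 by norm_num)]
  by_contra hc
  push Not at hc
  have hs : 0 < Real.sinh (I - y) := Real.sinh_pos_iff.2 (by linarith)
  rw [Real.sinh_sub] at hs
  have hcI := Real.cosh_pos I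
  have hcx := Real.cosh_pos x
  have a1 : Real.sin θ * Real.cosh y * Real.cosh I = Real.sinh I * Real.cosh y * Real.cosh x := by
    linear_combination (Real.cosh y) * hY
  have a2 : Real.cosh I * Real.sinh y * Real.cosh x < Real.sinh I * Real.cosh y * Real.cosh x :=
    mul_lt_mul_of_pos_right (by linarith) hcx
  have a3 : 13199 / 10000 * Real.sinh y * Real.cosh I ≤ Real.cosh I * Real.sinh y * Real.cosh x := by
    have : 0 ≤ Real.cosh I * Real.sinh y := mul_nonneg hcI.le (Real.sinh_nonneg_iff.2 y0)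
    nlinarith
  have a4 : Real.sin θ * Real.cosh y * Real.cosh I < 13199 / 10000 * Real.sinh y * Real.cosh I :=
    mul_lt_mul_of_pos_right key hcI
  linarith

/-- lower bound of the mean -/
theorem pb_low (hR1 : R < Real.pi / 2) (hR0 : 0 < R) (hI0 : 0 < I)
    (hS : Real.sin R * Real.cos θ = Real.sinh x * Real.cos R)
    (hY : Real.sin θ * Real.cosh I = Real.sinh I * Real.cosh x) (hx : 39 / 50 ≤ x)
    (h0 : 1 / 3 ≤ θ) (h1 : θ ≤ 17 / 25) :
    -(9 / 25) * (5 * I - x) ≤ x * R + θ * I - Real.pi * I ∧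
      (127 / 200 ≤ θ → -(71 / 200) * (5 * I - x) ≤ x * R + θ * I - Real.pi * I) := by
  have hpi := Real.pi_gt_d4
  have hpi' := Real.pi_lt_d4
  have a1 := pb_R hR1 hR0 hS hx h0 h1
  have a2 := pb_I hI0 hY hx h0 h1
  constructor
  · have b1 : 39 / 50 * (Real.pi / 4 + (-(47 / 10000) + 143 / 500 * (θ - 13 / 25)) - 9 / 25)
        ≤ x * (R - 9 / 25) := by
      apply mul_le_mul hx (by linarith) (by linarith) (by linarith)
    have b2 : I * (Real.pi - 9 / 5 - θ) ≤ (1529 / 2000 * θ - 1 / 1000) * (Real.pi - 9 / 5 - θ) :=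
      mul_le_mul_of_nonneg_right a2 (by linarith)
    have b3 : (1529 / 2000 * θ - 1 / 1000) * (Real.pi - 9 / 5 - θ)
        ≤ 39 / 50 * (Real.pi / 4 + (-(47 / 10000) + 143 / 500 * (θ - 13 / 25)) - 9 / 25) := by
      nlinarith [sq_nonneg (θ - 53 / 100)]
    nlinarith
  · intro h3
    have b1 : 39 / 50 * (Real.pi / 4 + (-(47 / 10000) + 143 / 500 * (θ - 13 / 25)) - 71 / 200)
        ≤ x * (R - 71 / 200) := by
      apply mul_le_mul hx (by linarith) (by linarith) (by linarith)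
    have b2 : I * (Real.pi - 71 / 40 - θ) ≤ (1529 / 2000 * θ - 1 / 1000) * (Real.pi - 71 / 40 - θ) :=
      mul_le_mul_of_nonneg_right a2 (by linarith)
    have b3 : (1529 / 2000 * θ - 1 / 1000) * (Real.pi - 71 / 40 - θ)
        ≤ 39 / 50 * (Real.pi / 4 + (-(47 / 10000) + 143 / 500 * (θ - 13 / 25)) - 71 / 200) := by
      nlinarith [sq_nonneg (θ - 53 / 100)]
    nlinarith

/-- upper bound of the mean -/
theorem pb_up (hR1 : R < Real.pi / 2) (hR0 : 0 < R) (hI0 : 0 < I)
    (hS : Real.sin R * Real.cos θ = Real.sinh x * Real.cos R)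
    (hY : Real.sin θ * Real.cosh I = Real.sinh I * Real.cosh x) (hx0 : 0 < x)
    (hx : x ≤ 193 / 200) (hx1 : Real.sinh x ≤ 11223 / 10000) (hx2 : Real.cosh x ≤ 15032 / 10000)
    (h0 : 2 / 5 ≤ θ) (h1 : θ ≤ 17 / 25) (hR : R ≤ 31 / 100 * Real.pi) :
    x * R + θ * I - Real.pi * I ≤ 9 / 20 * (5 * I - x) := by
  have hpi := Real.pi_gt_d4
  have hpi' := Real.pi_lt_d4
  have s3 := n_s3 (x := θ) (by linarith)
  have hcx := Real.cosh_pos x
  -- `I ≥ .68 (θ - θ³/6)`
  have ht : Real.tanh I = Real.sin θ / Real.cosh x := by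
    rw [Real.tanh_eq_sinh_div_cosh, div_eq_div_iff (Real.cosh_pos I).ne' hcx.ne']
    linarith
  have hs0 : 389 / 1000 ≤ θ - θ ^ 3 / 6 := by
    nlinarith [mul_nonneg (sub_nonneg.2 h0) (sub_nonneg.2 h1),
      mul_nonneg (mul_nonneg (sub_nonneg.2 h0) (sub_nonneg.2 h1)) (sub_nonneg.2 h0)]
  have ht1 : (θ - θ ^ 3 / 6) * (10000 / 15032) ≤ Real.tanh I := by
    rw [ht, le_div_iff₀ hcx]
    have : (θ - θ ^ 3 / 6) * (10000 / 15032) * Real.cosh x
        ≤ (θ - θ ^ 3 / 6) * (10000 / 15032) * (15032 / 10000) :=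
      mul_le_mul_of_nonneg_left hx2 (by linarith)
    linarith
  have hI1 := pb_atanh hI0.le
  have hI2 : 68 / 100 * (θ - θ ^ 3 / 6) ≤ I := by
    obtain ⟨t, htd⟩ : ∃ t, t = Real.tanh I := ⟨_, rfl⟩
    rw [← htd] at hI1 ht1
    have h5 : 2587 / 10000 ≤ t := by linarith
    have h6 : (2587 / 10000) ^ 2 ≤ t ^ 2 := pow_le_pow_left₀ (by norm_num) h5 2
    nlinarith
  rcases le_total θ (43 / 100) with hc | hc
  · -- small `θ`
    have hcθ : 9089 / 10000 ≤ Real.cos θ := by
      have c6 := n_c6 (x := 43 / 100) (by norm_num)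
      have a2 := Real.cos_le_cos_of_nonneg_of_le_pi (x := θ) (y := 43 / 100) (by linarith)
        (by linarith) hc
      norm_num at c6
      linarith
    have hcR : 0 < Real.cos R := Real.cos_pos_of_mem_Ioo ⟨by linarith, hR1⟩
    have hR2 : R ≤ 895 / 1000 := by
      by_contra hcon
      push Not at hcon
      have k := n_tan_ge (R := R) (R0 := 895 / 1000) (t := 1238 / 1000) (by norm_num) hcon.le
        (by linarith) (by norm_num) (by norm_num)
      have k2 : 1238 / 1000 * Real.cos R * (9089 / 10000) ≤ Real.sin R * Real.cos θ :=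
        mul_le_mul k hcθ (by norm_num) (by linarith [mul_pos (show (0 : ℝ) < 1238 / 1000 by norm_num) hcR])
      rw [hS] at k2
      have k3 : Real.sinh x * Real.cos R ≤ 11223 / 10000 * Real.cos R :=
        mul_le_mul_of_nonneg_right hx1 hcR.le
      nlinarith
    have b1 : x * (R + 9 / 20) ≤ 193 / 200 * (895 / 1000 + 9 / 20) :=
      mul_le_mul hx (by linarith) (by linarith) (by norm_num)
    have b2 : 68 / 100 * (389 / 1000) * (31415 / 10000 + 9 / 4 - 43 / 100)
        ≤ I * (Real.pi + 9 / 4 - θ) :=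
      mul_le_mul (by linarith) (by linarith) (by norm_num) hI0.le
    nlinarith
  · have b1 : x * (R + 9 / 20) ≤ 193 / 200 * (31 / 100 * (31416 / 10000) + 9 / 20) :=
      mul_le_mul hx (by linarith) (by linarith) (by norm_num)
    have b2 : 68 / 100 * (θ - θ ^ 3 / 6) * (31415 / 10000 + 9 / 4 - θ)
        ≤ I * (Real.pi + 9 / 4 - θ) :=
      mul_le_mul hI2 (by linarith) (by linarith) hI0.le
    have b3 : 193 / 200 * (31 / 100 * (31416 / 10000) + 9 / 20)
        ≤ 68 / 100 * (θ - θ ^ 3 / 6) * (31415 / 10000 + 9 / 4 - θ) := by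
      obtain ⟨r, hr⟩ : ∃ r, r = θ - 43 / 100 := ⟨_, rfl⟩
      have e : θ = r + 43 / 100 := by rw [hr]; ring
      have r0 : 0 ≤ r := by rw [hr]; linarith
      have r1 : r ≤ 1 / 4 := by rw [hr]; linarith
      rw [e]
      have r2 := mul_nonneg r0 (sub_nonneg.2 r1)
      have r3 := mul_nonneg r0 r0
      have r4 := mul_nonneg r3 (sub_nonneg.2 r1)
      nlinarith [mul_nonneg r3 r3]
    nlinarith

/-- the weight of the closed edge is at least `33/100` -/
theorem pb_b {K : ℝ} (hI0 : 0 < I) (hx0 : 0 < x) (hK : 0 < K) (hK1 : K ^ 2 ≤ 68857 / 100000)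
    (hI2 : Real.cosh I ^ 2 = K ^ 2 * Real.cosh x ^ 2) (hI : I ≤ 4918 / 10000) :
    166 / 100 * I ≤ x := by
  have hcI := Real.cosh_pos I
  have hcx := Real.cosh_pos x
  have h1 : Real.cosh I = K * Real.cosh x := by
    have e : (Real.cosh I - K * Real.cosh x) * (Real.cosh I + K * Real.cosh x) = 0 := by
      linear_combination hI2
    rcases mul_eq_zero.1 e with e | e
    · linarith
    · have := mul_pos hK hcx
      linarith
  have hK2 : K ≤ 8299 / 10000 := by
    by_contra hc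
    push Not at hc
    have : (8299 / 10000) ^ 2 < K ^ 2 := pow_lt_pow_left₀ hc (by norm_num) two_ne_zero
    norm_num at this
    linarith
  have h2 := pb_ch6 (x := 166 / 100 * I) (by positivity) (by linarith)
  have h3 := n_ch4 hI0.le
  obtain ⟨u, hu⟩ : ∃ u, u = I ^ 2 := ⟨_, rfl⟩
  have u0 : 0 ≤ u := by rw [hu]; positivity
  have u1 : u ≤ 24187 / 100000 := by rw [hu]; nlinarith
  have h4 : 8299 / 10000 * (1 + (166 / 100 * I) ^ 2 / 2 + (166 / 100 * I) ^ 4 / 24
      + 7 / 4320 * (166 / 100 * I) ^ 6) ≤ 1 + I ^ 2 / 2 + I ^ 4 / 24 := by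
    have e4 : I ^ 4 = u ^ 2 := by rw [hu]; ring
    have e6 : I ^ 6 = u ^ 3 := by rw [hu]; ring
    rw [mul_pow, mul_pow, mul_pow, e4, e6, ← hu]
    nlinarith [mul_nonneg u0 (sub_nonneg.2 u1), mul_nonneg (mul_nonneg u0 u0) (sub_nonneg.2 u1)]
  have h5 : Real.cosh (166 / 100 * I) ≤ Real.cosh x := by
    have a1 : K * Real.cosh (166 / 100 * I) ≤ 8299 / 10000 * Real.cosh (166 / 100 * I) :=
      mul_le_mul_of_nonneg_right hK2 (Real.cosh_pos _).le
    have a2 : K * Real.cosh (166 / 100 * I) ≤ K * Real.cosh x := by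
      rw [← h1]; linarith
    exact le_of_mul_le_mul_left a2 hK
  have h6 := Real.cosh_le_cosh.1 h5
  rwa [abs_of_pos (by positivity), abs_of_pos hx0] at h6

end

end Pool.Agent.S3.Cl
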