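import Mathlib

/-!
# Stage 3: closed ends: numerical inequalities

`z = R + i I = gd (x + i θ)`, `7 R + θ ≤ 2 π`, `7 I ≤ x + 2 σ`, `sinh² σ ≤ sinh² x + sin² θ`.
-/

namespace Pool.Agent.S3.Cl

private theorem nPos {f f' : ℝ → ℝ} (hd : ∀ x, HasDerivAt f (f' x) x) (h0 : f 0 = 0)
    (hp : ∀ x, 0 ≤ x → 0 ≤ f' x) {x : ℝ} (hx : 0 ≤ x) : 0 ≤ f x := by
  have hm : MonotoneOn f (Set.Ici 0) := by
    apply monotoneOn_of_deriv_nonneg (convex_Ici 0)
    · exact fun y _ => (hd y).continuousAt.continuousWithinAt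
    · exact fun y _ => (hd y).differentiableAt.differentiableWithinAt
    · intro y hy
      rw [(hd y).deriv]
      exact hp y (interior_subset hy)
  have := hm (Set.mem_Ici.2 le_rfl) (Set.mem_Ici.2 hx) hx
  rwa [h0] at this

theorem n_s3 {x : ℝ} (hx : 0 ≤ x) : x - x ^ 3 / 6 ≤ Real.sin x := by
  have h := nPos (f := fun x => Real.sin x - (x - x ^ 3 / 6))
    (f' := fun x => Real.cos x - (1 - x ^ 2 / 2))
    (fun x => by
      have h1 := (Real.hasDerivAt_sin x).sub ((hasDerivAt_id' x).sub ((hasDerivAt_pow 3 x).div_const 6))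
      refine h1.congr_deriv ?_
      norm_num
      try ring)
    (by simp) (fun x hx => by linarith [Real.one_sub_sq_div_two_le_cos (x := x)]) hx
  linarith

theorem n_c4 {x : ℝ} (hx : 0 ≤ x) : Real.cos x ≤ 1 - x ^ 2 / 2 + x ^ 4 / 24 := by
  have h := nPos (f := fun x => 1 - x ^ 2 / 2 + x ^ 4 / 24 - Real.cos x)
    (f' := fun x => Real.sin x - (x - x ^ 3 / 6))
    (fun x => by
      have h1 := (((hasDerivAt_const x (1 : ℝ)).sub ((hasDerivAt_pow 2 x).div_const 2)).add
        ((hasDerivAt_pow 4 x).div_const 24)).sub (Real.hasDerivAt_cos x)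
      refine h1.congr_deriv ?_
      norm_num
      try ring)
    (by simp) (fun x hx => by linarith [n_s3 hx]) hx
  linarith

theorem n_s5 {x : ℝ} (hx : 0 ≤ x) : Real.sin x ≤ x - x ^ 3 / 6 + x ^ 5 / 120 := by
  have h := nPos (f := fun x => x - x ^ 3 / 6 + x ^ 5 / 120 - Real.sin x)
    (f' := fun x => 1 - x ^ 2 / 2 + x ^ 4 / 24 - Real.cos x)
    (fun x => by
      have h1 := (((hasDerivAt_id' x).sub ((hasDerivAt_pow 3 x).div_const 6)).add
        ((hasDerivAt_pow 5 x).div_const 120)).sub (Real.hasDerivAt_sin x)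
      refine h1.congr_deriv ?_
      norm_num
      try ring)
    (by simp) (fun x hx => by linarith [n_c4 hx]) hx
  linarith

theorem n_c6 {x : ℝ} (hx : 0 ≤ x) :
    1 - x ^ 2 / 2 + x ^ 4 / 24 - x ^ 6 / 720 ≤ Real.cos x := by
  have h := nPos (f := fun x => Real.cos x - (1 - x ^ 2 / 2 + x ^ 4 / 24 - x ^ 6 / 720))
    (f' := fun x => x - x ^ 3 / 6 + x ^ 5 / 120 - Real.sin x)
    (fun x => by
      have h1 := (Real.hasDerivAt_cos x).sub ((((hasDerivAt_const x (1 : ℝ)).sub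
        ((hasDerivAt_pow 2 x).div_const 2)).add
        ((hasDerivAt_pow 4 x).div_const 24)).sub ((hasDerivAt_pow 6 x).div_const 720))
      refine h1.congr_deriv ?_
      norm_num
      try ring)
    (by simp) (fun x hx => by linarith [n_s5 hx]) hx
  linarith

theorem n_ch2 {x : ℝ} (hx : 0 ≤ x) : 1 + x ^ 2 / 2 ≤ Real.cosh x := by
  have h := nPos (f := fun x => Real.cosh x - (1 + x ^ 2 / 2))
    (f' := fun x => Real.sinh x - x)
    (fun x => by
      have h1 := (Real.hasDerivAt_cosh x).sub ((hasDerivAt_const x (1 : ℝ)).add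
        ((hasDerivAt_pow 2 x).div_const 2))
      refine h1.congr_deriv ?_
      norm_num
      try ring)
    (by simp) (fun x hx => by linarith [Real.self_le_sinh_iff.2 hx]) hx
  linarith

theorem n_sh3 {x : ℝ} (hx : 0 ≤ x) : x + x ^ 3 / 6 ≤ Real.sinh x := by
  have h := nPos (f := fun x => Real.sinh x - (x + x ^ 3 / 6))
    (f' := fun x => Real.cosh x - (1 + x ^ 2 / 2))
    (fun x => by
      have h1 := (Real.hasDerivAt_sinh x).sub ((hasDerivAt_id' x).add
        ((hasDerivAt_pow 3 x).div_const 6))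
      refine h1.congr_deriv ?_
      norm_num
      try ring)
    (by simp) (fun x hx => by linarith [n_ch2 hx]) hx
  linarith

theorem n_ch4 {x : ℝ} (hx : 0 ≤ x) : 1 + x ^ 2 / 2 + x ^ 4 / 24 ≤ Real.cosh x := by
  have h := nPos (f := fun x => Real.cosh x - (1 + x ^ 2 / 2 + x ^ 4 / 24))
    (f' := fun x => Real.sinh x - (x + x ^ 3 / 6))
    (fun x => by
      have h1 := (Real.hasDerivAt_cosh x).sub (((hasDerivAt_const x (1 : ℝ)).add
        ((hasDerivAt_pow 2 x).div_const 2)).add ((hasDerivAt_pow 4 x).div_const 24))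
      refine h1.congr_deriv ?_
      norm_num
      try ring)
    (by simp) (fun x hx => by linarith [n_sh3 hx]) hx
  linarith

theorem n_sh5 {x : ℝ} (hx : 0 ≤ x) : x + x ^ 3 / 6 + x ^ 5 / 120 ≤ Real.sinh x := by
  have h := nPos (f := fun x => Real.sinh x - (x + x ^ 3 / 6 + x ^ 5 / 120))
    (f' := fun x => Real.cosh x - (1 + x ^ 2 / 2 + x ^ 4 / 24))
    (fun x => by
      have h1 := (Real.hasDerivAt_sinh x).sub (((hasDerivAt_id' x).add
        ((hasDerivAt_pow 3 x).div_const 6)).add ((hasDerivAt_pow 5 x).div_const 120))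
      refine h1.congr_deriv ?_
      norm_num
      try ring)
    (by simp) (fun x hx => by linarith [n_ch4 hx]) hx
  linarith

/-- `sinh y ≤ y cosh y` -/
theorem n_sh_le {x : ℝ} (hx : 0 ≤ x) : Real.sinh x ≤ x * Real.cosh x := by
  have h := nPos (f := fun x => x * Real.cosh x - Real.sinh x)
    (f' := fun x => x * Real.sinh x)
    (fun x => by
      have h1 := ((hasDerivAt_id' x).mul (Real.hasDerivAt_cosh x)).sub (Real.hasDerivAt_sinh x)
      refine h1.congr_deriv ?_
      ring)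
    (by simp) (fun x hx => mul_nonneg hx (Real.sinh_nonneg_iff.2 hx)) hx
  linarith

/-- `sinh x - sinh³ x/6 ≤ x` -/
theorem n_arsinh {x : ℝ} (hx : 0 ≤ x) : Real.sinh x - Real.sinh x ^ 3 / 6 ≤ x := by
  have h := nPos (f := fun x => x - (Real.sinh x - Real.sinh x ^ 3 / 6))
    (f' := fun x => 1 - (Real.cosh x - 3 * Real.sinh x ^ 2 * Real.cosh x / 6))
    (fun x => by
      have h1 := (hasDerivAt_id' x).sub ((Real.hasDerivAt_sinh x).sub
        (((Real.hasDerivAt_sinh x).pow 3).div_const 6))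
      refine h1.congr_deriv ?_
      norm_num
      try ring)
    (by simp) (fun x hx => by
      have h1 := Real.one_le_cosh x
      have h2 := Real.cosh_sq x
      have h3 : Real.sinh x ^ 2 = Real.cosh x ^ 2 - 1 := by linarith
      rw [h3]
      have h4 : 0 ≤ (Real.cosh x - 1) ^ 2 * (Real.cosh x + 2) := by positivity
      nlinarith) hx
  linarith

/-- upper bound of the tangent -/
theorem n_tan_le {R R0 t : ℝ} (h0 : 0 ≤ R) (h1 : R ≤ R0) (h2 : R0 ≤ 3 / 2) (ht : 0 ≤ t)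
    (h : R0 - R0 ^ 3 / 6 + R0 ^ 5 / 120 ≤ t * (1 - R0 ^ 2 / 2 + R0 ^ 4 / 24 - R0 ^ 6 / 720)) :
    Real.sin R ≤ t * Real.cos R := by
  have hpi := Real.pi_gt_three
  have a1 : Real.sin R ≤ Real.sin R0 :=
    Real.sin_le_sin_of_le_of_le_pi_div_two (by linarith) (by linarith) h1
  have a2 : Real.cos R0 ≤ Real.cos R :=
    Real.cos_le_cos_of_nonneg_of_le_pi h0 (by linarith) h1
  have a3 := n_s5 (h0.trans h1)
  have a4 := n_c6 (h0.trans h1)
  have a5 := mul_le_mul_of_nonneg_left (a4.trans a2) ht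
  linarith

/-- lower bound of the tangent -/
theorem n_tan_ge {R R0 t : ℝ} (h0 : 0 ≤ R0) (h1 : R0 ≤ R) (h2 : R ≤ 3 / 2) (ht : 0 ≤ t)
    (h : t * (1 - R0 ^ 2 / 2 + R0 ^ 4 / 24) ≤ R0 - R0 ^ 3 / 6) :
    t * Real.cos R ≤ Real.sin R := by
  have hpi := Real.pi_gt_three
  have a1 : Real.sin R0 ≤ Real.sin R :=
    Real.sin_le_sin_of_le_of_le_pi_div_two (by linarith) (by linarith) h1
  have a2 : Real.cos R ≤ Real.cos R0 :=
    Real.cos_le_cos_of_nonneg_of_le_pi h0 (by linarith) h1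
  have a3 := n_s3 h0
  have a4 := n_c4 h0
  have a5 := mul_le_mul_of_nonneg_left (a2.trans a4) ht
  linarith

theorem n_le_of_sinh {x x0 y : ℝ} (h0 : 0 ≤ x0) (h : Real.sinh x ≤ y)
    (hy : y ≤ x0 + x0 ^ 3 / 6 + x0 ^ 5 / 120) : x ≤ x0 :=
  Real.sinh_le_sinh.1 ((h.trans hy).trans (n_sh5 h0))

/-- the constraints -/
structure Reg0 (R J θ x σ : ℝ) : Prop where
  R0 : 0 < R
  R1 : R < Real.pi / 2
  J0 : 0 < J
  θ0 : 0 < θ
  θ1 : θ ≤ Real.pi / 4
  x0 : 0 < x
  g1 : Real.sinh x * Real.cos R = Real.sin R * Real.cos θ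
  g2 : Real.sin θ * Real.cosh J = Real.sinh J * Real.cosh x
  c1 : 7 * R + θ ≤ 2 * Real.pi
  c2 : 7 * J ≤ x + 2 * σ
  hσ : Real.sinh σ ^ 2 ≤ Real.sinh x ^ 2 + Real.sin θ ^ 2

variable {R J θ x σ : ℝ}

namespace Reg0

theorem cR (H : Reg0 R J θ x σ) : 0 < Real.cos R := by
  apply Real.cos_pos_of_mem_Ioo
  constructor <;> linarith [H.R0, H.R1, Real.pi_pos]

theorem cθ (H : Reg0 R J θ x σ) : 0 < Real.cos θ := by
  apply Real.cos_pos_of_mem_Ioo
  constructor <;> linarith [H.θ0, H.θ1, Real.pi_pos]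

theorem sθ (H : Reg0 R J θ x σ) : 0 < Real.sin θ := by
  apply Real.sin_pos_of_pos_of_lt_pi <;> linarith [H.θ0, H.θ1, Real.pi_pos]

/-- `sinh x ≤ t cos θ` -/
theorem shx (H : Reg0 R J θ x σ) {t : ℝ} (h : Real.sin R ≤ t * Real.cos R) :
    Real.sinh x ≤ t * Real.cos θ := by
  have h1 := mul_le_mul_of_nonneg_right h H.cθ.le
  rw [← H.g1] at h1
  have h2 : Real.sinh x * Real.cos R ≤ (t * Real.cos θ) * Real.cos R := by linarith
  exact le_of_mul_le_mul_right h2 H.cR

theorem shx_ge (H : Reg0 R J θ x σ) {t : ℝ} (h : t * Real.cos R ≤ Real.sin R) :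
    t * Real.cos θ ≤ Real.sinh x := by
  have h1 := mul_le_mul_of_nonneg_right h H.cθ.le
  rw [← H.g1] at h1
  have h2 : (t * Real.cos θ) * Real.cos R ≤ Real.sinh x * Real.cos R := by linarith
  exact le_of_mul_le_mul_right h2 H.cR

theorem shx0 (H : Reg0 R J θ x σ) : 0 < Real.sinh x := Real.sinh_pos_iff.2 H.x0

/-- bound of `σ` -/
theorem sσ (H : Reg0 R J θ x σ) {t s : ℝ} (ht : 0 ≤ t) (h : Real.sinh x ≤ t * Real.cos θ)
    (hs : 0 ≤ s) (h2 : 1 + (t ^ 2 - 1) * Real.cos θ ^ 2 ≤ s ^ 2) : Real.sinh σ ≤ s := by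
  have h3 : Real.sinh x ^ 2 ≤ (t * Real.cos θ) ^ 2 := pow_le_pow_left₀ H.shx0.le h 2
  have h4 := Real.sin_sq_add_cos_sq θ
  have h5 := H.hσ
  have h6 : Real.sinh σ ^ 2 ≤ s ^ 2 := by nlinarith
  exact le_of_abs_le ((sq_le_sq.1 h6).trans_eq (abs_of_nonneg hs))

/-- `sin θ ≤ J cosh x` -/
theorem sin_le (H : Reg0 R J θ x σ) : Real.sin θ ≤ J * Real.cosh x := by
  have h1 := n_sh_le H.J0.le
  have h2 := mul_le_mul_of_nonneg_right h1 (Real.cosh_pos x).le
  rw [← H.g2] at h2
  have h3 : Real.sin θ * Real.cosh J ≤ (J * Real.cosh x) * Real.cosh J := by linarith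
  exact le_of_mul_le_mul_right h3 (Real.cosh_pos J)

theorem pi7 : 2 * Real.pi ≤ 62832 / 10000 := by
  have := Real.pi_lt_d4
  norm_num at this ⊢
  linarith

theorem R_le (H : Reg0 R J θ x σ) : R ≤ 8977 / 10000 := by
  have := pi7
  have := H.c1
  have := H.θ0
  linarith

theorem tan_le (H : Reg0 R J θ x σ) : Real.sin R ≤ 12555 / 10000 * Real.cos R :=
  n_tan_le (R0 := 8977 / 10000) H.R0.le H.R_le (by norm_num) (by norm_num) (by norm_num)

theorem cosh_le (_H : Reg0 R J θ x σ) {y c : ℝ} (h0 : 0 ≤ Real.sinh x) (h : Real.sinh x ≤ y)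
    (hc : 0 ≤ c) (h2 : 1 + y ^ 2 ≤ c ^ 2) : Real.cosh x ≤ c := by
  have h3 := Real.cosh_sq x
  have h4 : Real.sinh x ^ 2 ≤ y ^ 2 := pow_le_pow_left₀ h0 h 2
  have h5 : Real.cosh x ^ 2 ≤ c ^ 2 := by linarith
  exact le_of_abs_le ((sq_le_sq.1 h5).trans_eq (abs_of_nonneg hc))

/-- `J ≤ .4522` -/
theorem J_le (H : Reg0 R J θ x σ) : J ≤ 4522 / 10000 := by
  have hc1 := Real.cos_le_one θ
  have hc0 := H.cθ
  have h1 := H.shx H.tan_le
  have h2 : Real.sinh x ≤ 12555 / 10000 := by nlinarith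
  have h3 : x ≤ 1055 / 1000 := n_le_of_sinh (by norm_num) h2 (by norm_num)
  have h4 := H.sσ (s := 12555 / 10000) (by norm_num) h1 (by norm_num) (by nlinarith)
  have h5 : σ ≤ 1055 / 1000 := n_le_of_sinh (by norm_num) h4 (by norm_num)
  have := H.c2
  linarith

/-- `θ < .56` -/
theorem θ_lt (H : Reg0 R J θ x σ) : θ < 56 / 100 := by
  by_contra hθ
  push Not at hθ
  have hpi := Real.pi_gt_three
  have hpi4 := Real.pi_lt_d4
  have hθ1 := H.θ1
  have hc0 := H.cθ
  have hR : R ≤ 8176 / 10000 := by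
    have := pi7
    have := H.c1
    linarith
  have t1 : Real.sin R ≤ 10672 / 10000 * Real.cos R :=
    n_tan_le (R0 := 8176 / 10000) H.R0.le hR (by norm_num) (by norm_num) (by norm_num)
  have c1 : Real.cos θ ≤ 8473 / 10000 := by
    have a1 : Real.cos θ ≤ Real.cos (56 / 100) :=
      Real.cos_le_cos_of_nonneg_of_le_pi (by norm_num) (by linarith) hθ
    have a2 := n_c4 (x := 56 / 100) (by norm_num)
    norm_num at a1 a2 ⊢
    linarith
  have s1 : 5307 / 10000 ≤ Real.sin θ := by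
    have a1 : Real.sin (56 / 100) ≤ Real.sin θ :=
      Real.sin_le_sin_of_le_of_le_pi_div_two (by linarith) (by linarith) hθ
    have a2 := n_s3 (x := 56 / 100) (by norm_num)
    norm_num at a1 a2 ⊢
    linarith
  have h1 := H.shx t1
  have h2 : Real.sinh x ≤ 9043 / 10000 := by linarith
  have h3 : x ≤ 815 / 1000 := n_le_of_sinh (by norm_num) h2 (by norm_num)
  have h4 := H.sσ (s := 10488 / 10000) (by norm_num) h1 (by norm_num) (by
    have : Real.cos θ ^ 2 ≤ (8473 / 10000) ^ 2 := pow_le_pow_left₀ hc0.le c1 2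
    norm_num at this ⊢
    linarith)
  have h5 : σ ≤ 916 / 1000 := n_le_of_sinh (by norm_num) h4 (by norm_num)
  have h6 : J ≤ 3782 / 10000 := by
    have := H.c2
    linarith
  have h7 := H.cosh_le (c := 13483 / 10000) H.shx0.le h2 (by norm_num) (by norm_num)
  have h8 := H.sin_le
  have h9 : J * Real.cosh x ≤ 3782 / 10000 * (13483 / 10000) :=
    mul_le_mul h6 h7 (Real.cosh_pos x).le (by norm_num)
  norm_num at h9
  linarith

/-- `θ ≤ 27/50` -/
theorem θ_le (H : Reg0 R J θ x σ) : θ ≤ 27 / 50 := by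
  by_contra hθ
  push Not at hθ
  have hpi := Real.pi_gt_three
  have hpi4 := Real.pi_lt_d4
  have hθ1 := H.θ1
  have hc0 := H.cθ
  have hR : R ≤ 8206 / 10000 := by
    have := pi7
    have := H.c1
    linarith
  have t1 : Real.sin R ≤ 10732 / 10000 * Real.cos R :=
    n_tan_le (R0 := 8206 / 10000) H.R0.le hR (by norm_num) (by norm_num) (by norm_num)
  have c1 : Real.cos θ ≤ 8578 / 10000 := by
    have a1 : Real.cos θ ≤ Real.cos (54 / 100) :=
      Real.cos_le_cos_of_nonneg_of_le_pi (by norm_num) (by linarith) (by linarith)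
    have a2 := n_c4 (x := 54 / 100) (by norm_num)
    norm_num at a1 a2 ⊢
    linarith
  have s1 : 5137 / 10000 ≤ Real.sin θ := by
    have a1 : Real.sin (54 / 100) ≤ Real.sin θ :=
      Real.sin_le_sin_of_le_of_le_pi_div_two (by linarith) (by linarith) (by linarith)
    have a2 := n_s3 (x := 54 / 100) (by norm_num)
    norm_num at a1 a2 ⊢
    linarith
  have h1 := H.shx t1
  have h2 : Real.sinh x ≤ 9206 / 10000 := by linarith
  have h3 : x ≤ 8245 / 10000 := n_le_of_sinh (by norm_num) h2 (by norm_num)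
  have h4 := H.sσ (s := 10544 / 10000) (by norm_num) h1 (by norm_num) (by
    have : Real.cos θ ^ 2 ≤ (8578 / 10000) ^ 2 := pow_le_pow_left₀ hc0.le c1 2
    norm_num at this ⊢
    linarith)
  have h5 : σ ≤ 9195 / 10000 := n_le_of_sinh (by norm_num) h4 (by norm_num)
  have h6 : 2 * J ≤ 761 / 1000 := by
    have := H.c2
    linarith
  have h7 := H.cosh_le (c := 13593 / 10000) H.shx0.le h2 (by norm_num) (by norm_num)
  have hE : Real.exp (2 * J) ≤ 21406 / 10000 := by
    have a1 := Real.exp_le_exp.2 h6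
    have a2 := Real.exp_bound' (x := 761 / 1000) (by norm_num) (by norm_num) (n := 6) (by norm_num)
    norm_num [Finset.sum_range_succ, Nat.factorial] at a2
    linarith
  -- `sin θ (E + 1) = (E - 1) cosh x`
  have h8 : Real.sin θ * (Real.exp (2 * J) + 1) = (Real.exp (2 * J) - 1) * Real.cosh x := by
    have e := H.g2
    rw [Real.cosh_eq J, Real.sinh_eq J] at e
    have e1 : Real.exp (2 * J) = Real.exp J * Real.exp J := by rw [← Real.exp_add]; congr 1; ring
    have e2 : Real.exp J * Real.exp (-J) = 1 := by rw [← Real.exp_add]; simp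
    have e3 : Real.exp J ≠ 0 := (Real.exp_pos J).ne'
    rw [e1]
    linear_combination (2 * Real.exp J) * e + (-Real.sin θ - Real.cosh x) * e2
  have hE1 : 1 ≤ Real.exp (2 * J) := Real.one_le_exp (by linarith [H.J0])
  have h9 : (Real.exp (2 * J) - 1) * Real.cosh x
      ≤ (Real.exp (2 * J) - 1) * (13593 / 10000) :=
    mul_le_mul_of_nonneg_left h7 (by linarith)
  have h10 : 5137 / 10000 * (Real.exp (2 * J) + 1) ≤ Real.sin θ * (Real.exp (2 * J) + 1) :=
    mul_le_mul_of_nonneg_right s1 (by linarith)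
  linarith

theorem cosθ_ge (H : Reg0 R J θ x σ) : 8472 / 10000 ≤ Real.cos θ := by
  have a1 : Real.cos (56 / 100) ≤ Real.cos θ :=
    Real.cos_le_cos_of_nonneg_of_le_pi H.θ0.le (by linarith [Real.pi_gt_three]) H.θ_lt.le
  have a2 := n_c6 (x := 56 / 100) (by norm_num)
  norm_num at a1 a2 ⊢
  linarith

theorem sinθ_le (H : Reg0 R J θ x σ) : Real.sin θ ≤ 5312 / 10000 := by
  have a1 : Real.sin θ ≤ Real.sin (56 / 100) :=
    Real.sin_le_sin_of_le_of_le_pi_div_two (by linarith [Real.pi_gt_three, H.θ0])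
      (by linarith [Real.pi_gt_three]) H.θ_lt.le
  have a2 := n_s5 (x := 56 / 100) (by norm_num)
  norm_num at a1 a2 ⊢
  linarith

/-- the small case -/
theorem small (H : Reg0 R J θ x σ) (hR : R ≤ 1 / 2) : J ≤ 2762 / 10000 ∧
    Real.sin θ ≤ 3148 / 10000 := by
  have hc1 := Real.cos_le_one θ
  have hc0 := H.cθ
  have t1 : Real.sin R ≤ 5464 / 10000 * Real.cos R :=
    n_tan_le (R0 := 1 / 2) H.R0.le hR (by norm_num) (by norm_num) (by norm_num)
  have h1 := H.shx t1
  have h2 : Real.sinh x ≤ 5464 / 10000 := by nlinarith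
  have h3 : x ≤ 523 / 1000 := n_le_of_sinh (by norm_num) h2 (by norm_num)
  have s0 := H.sθ
  have s1 := H.sinθ_le
  have hs : Real.sinh σ ≤ 7621 / 10000 := by
    have a1 : Real.sinh x ^ 2 ≤ (5464 / 10000) ^ 2 := pow_le_pow_left₀ H.shx0.le h2 2
    have a2 : Real.sin θ ^ 2 ≤ (5312 / 10000) ^ 2 := pow_le_pow_left₀ s0.le s1 2
    have a3 := H.hσ
    have a4 : Real.sinh σ ^ 2 ≤ (7621 / 10000) ^ 2 := by
      norm_num at a1 a2 ⊢
      linarith
    exact le_of_abs_le ((sq_le_sq.1 a4).trans_eq (abs_of_nonneg (by norm_num)))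
  have h5 : σ ≤ 705 / 1000 := n_le_of_sinh (by norm_num) hs (by norm_num)
  have h6 : J ≤ 2762 / 10000 := by
    have := H.c2
    linarith
  refine ⟨h6, ?_⟩
  have h7 := H.cosh_le (c := 11396 / 10000) H.shx0.le h2 (by norm_num) (by norm_num)
  have h8 := H.sin_le
  have h9 : J * Real.cosh x ≤ 2762 / 10000 * (11396 / 10000) :=
    mul_le_mul h6 h7 (Real.cosh_pos x).le (by norm_num)
  norm_num at h9
  linarith

/-- `tan θ ≤ t` gives the bounds of `Y0` and `Y1` -/
theorem Y0_le (H : Reg0 R J θ x σ) {t Y y : ℝ} (ht : Real.sin θ ≤ t * Real.cos θ)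
    (hY : Real.sinh Y * Real.cos θ = Real.sin θ) (hy : 0 ≤ y)
    (h : t ≤ y + y ^ 3 / 6 + y ^ 5 / 120) : Y ≤ y := by
  apply n_le_of_sinh hy _ h
  rw [← hY] at ht
  exact le_of_mul_le_mul_right ht H.cθ

theorem Y1_le (H : Reg0 R J θ x σ) {t Y : ℝ} (ht : Real.sin θ ≤ t * Real.cos θ)
    (hY : 2 * Real.sinh Y * Real.cos θ = Real.sin θ) (h0 : 0 ≤ Y) : Y ≤ t / 2 := by
  rw [← hY] at ht
  have h1 : 2 * Real.sinh Y ≤ t := le_of_mul_le_mul_right ht H.cθ
  have h2 := Real.self_le_sinh_iff.2 h0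
  linarith

/-- the two inequalities -/
theorem main (H : Reg0 R J θ x σ) {Y0 Y1 : ℝ} (h0 : Real.sinh Y0 * Real.cos θ = Real.sin θ)
    (h1 : 2 * Real.sinh Y1 * Real.cos θ = Real.sin θ) :
    Y0 * (Real.pi - θ - R) < 1215 / 1000 - θ * Y1 + x * (Real.pi / 3 - R) ∧
      J * (Real.pi - θ - R) < 1215 / 1000 - θ * Y1 := by
  have hθ := H.θ_lt
  have hθ0 := H.θ0
  have hR := H.R_le
  have hR0 := H.R0
  have hJ0 := H.J0
  have hx0 := H.x0
  have p1 := Real.pi_gt_d4
  have p2 := Real.pi_lt_d4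
  norm_num at p1 p2
  have s0 := H.sθ
  have c0 := H.cθ
  have hY00 : 0 < Y0 := by
    rw [← h0] at s0
    exact Real.sinh_pos_iff.1 (pos_of_mul_pos_left s0 c0.le)
  have hY10 : 0 < Y1 := by
    have : 0 < 2 * Real.sinh Y1 * Real.cos θ := by rw [h1]; exact H.sθ
    have := pos_of_mul_pos_left this c0.le
    exact Real.sinh_pos_iff.1 (by linarith)
  have T : Real.sin θ ≤ 6271 / 10000 * Real.cos θ := by
    apply n_tan_le (R0 := 56 / 100) hθ0.le hθ.le <;> norm_num
  have hY1 : Y1 ≤ 3136 / 10000 := by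
    have := H.Y1_le T h1 hY10.le
    linarith
  have hw : 0 < Real.pi - θ - R := by linarith
  have hd : 0 < Real.pi / 3 - R := by linarith
  have hJY : J * (Real.pi - θ - R) ≤ J * (Real.pi - R) - J * θ := by linarith
  rcases le_total R (1 / 2) with hs | hs
  · obtain ⟨b1, b2⟩ := H.small hs
    have T2 : Real.sin θ ≤ 3317 / 10000 * Real.cos θ := by
      have a1 := Real.sin_sq_add_cos_sq θ
      have a2 : Real.sin θ ^ 2 ≤ (3148 / 10000) ^ 2 := pow_le_pow_left₀ s0.le b2 2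
      have a3 : 9491 / 10000 ≤ Real.cos θ := by
        have : (9491 / 10000 : ℝ) ^ 2 ≤ Real.cos θ ^ 2 := by
          norm_num at a2 ⊢
          linarith
        exact (abs_le_of_sq_le_sq' this c0.le).2
      linarith
    have hY0 := H.Y0_le (y := 326 / 1000) T2 h0 (by norm_num) (by norm_num)
    have a1 : Y0 * (Real.pi - θ - R) ≤ 326 / 1000 * (31416 / 10000) :=
      mul_le_mul hY0 (by linarith) hw.le (by norm_num)
    have a2 : J * (Real.pi - θ - R) ≤ 2762 / 10000 * (31416 / 10000) :=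
      mul_le_mul b1 (by linarith) hw.le (by norm_num)
    have a3 : θ * Y1 ≤ 56 / 100 * (1659 / 10000) := by
      have := H.Y1_le T2 h1 hY10.le
      exact mul_le_mul hθ.le (by linarith) hY10.le (by norm_num)
    have a4 := mul_pos hx0 hd
    norm_num at a1 a2 a3
    constructor <;> linarith
  · have hJ := H.J_le
    have a3 : θ * Y1 ≤ θ * (3136 / 10000) := mul_le_mul_of_nonneg_left hY1 hθ0.le
    constructor
    · -- lower bound of `x`
      have hx : 445 / 1000 ≤ x := by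
        have t1 : 5459 / 10000 * Real.cos R ≤ Real.sin R :=
          n_tan_ge (R0 := 1 / 2) (by norm_num) hs (by linarith) (by norm_num) (by norm_num)
        have t2 := H.shx_ge t1
        have t3 := H.cosθ_ge
        have t4 : 4624 / 10000 ≤ Real.sinh x := by linarith
        have t5 : 4624 / 10000 ≤ Real.sinh x := t4
        have t6 : Real.arsinh (4624 / 10000) ≤ x := by
          rw [← Real.sinh_le_sinh, Real.sinh_arsinh]
          exact t5
        have t7 := n_arsinh (x := Real.arsinh (4624 / 10000))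
          (Real.arsinh_nonneg_iff.2 (by norm_num))
        rw [Real.sinh_arsinh] at t7
        norm_num at t7 ⊢
        linarith
      have a4 : 445 / 1000 * (Real.pi / 3 - R) ≤ x * (Real.pi / 3 - R) :=
        mul_le_mul_of_nonneg_right hx hd.le
      rcases le_total θ (1 / 2) with hq | hq
      · have T2 : Real.sin θ ≤ 5464 / 10000 * Real.cos θ :=
          n_tan_le (R0 := 1 / 2) hθ0.le hq (by norm_num) (by norm_num) (by norm_num)
        have hY0 := H.Y0_le (y := 523 / 1000) T2 h0 (by norm_num) (by norm_num)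
        have a5 : Y0 * (Real.pi - θ - R) ≤ 523 / 1000 * (Real.pi - θ - R) :=
          mul_le_mul_of_nonneg_right hY0 hw.le
        linarith
      · have hY0 := H.Y0_le (y := 593 / 1000) T h0 (by norm_num) (by norm_num)
        have a5 : Y0 * (Real.pi - θ - R) ≤ 593 / 1000 * (Real.pi - θ - R) :=
          mul_le_mul_of_nonneg_right hY0 hw.le
        linarith
    · have a5 : J * (Real.pi - θ - R) ≤ 4522 / 10000 * (Real.pi - θ - R) :=
        mul_le_mul_of_nonneg_right hJ hw.le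
      linarith

end Reg0

end Pool.Agent.S3.Cl
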