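import Pool.Agent.S3.Cl.Ineq
import Pool.Agent.S3.Cl.Num

/-!
# Stage 3: closed ends: the hypotheses of the main inequality
-/

namespace Pool.Agent.S3.Cl

open Complex Pool.Agent.S3 Set
open Pool.Agent.H25.RK (gdv gdv_re_lt gdv_hasDerivAt)

variable {Φ : ℂ → ℂ} {θ xc b v1 σ : ℝ}

theorem g2_ge {x : ℝ} (hx : 0 ≤ x) (h : Real.cosh x = 2) : 1215 / 1000 ≤ g2 x := by
  have hs : Real.sinh x ^ 2 = 3 := by
    have := Real.cosh_sq x
    rw [h] at this
    linarith
  have hs0 : 0 ≤ Real.sinh x := Real.sinh_nonneg_iff.2 hx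
  have e1 : Real.exp (-x) = 2 - Real.sinh x := by rw [← h, Real.cosh_sub_sinh]
  have e2 : Real.exp x = 2 + Real.sinh x := by rw [← h, Real.cosh_add_sinh]
  have s1 : 1732 / 1000 ≤ Real.sinh x := by nlinarith
  have s2 : Real.sinh x ≤ 17321 / 10000 := by nlinarith
  have b1 : 131 / 100 ≤ x := by
    by_contra hc
    push Not at hc
    have h1 : Real.exp x < Real.exp (131 / 100) := Real.exp_lt_exp.2 hc
    have h2 : Real.exp (131 / 100) = Real.exp 1 * Real.exp (31 / 100) := by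
      rw [← Real.exp_add]; norm_num
    have h3 := Real.exp_one_lt_d9
    have h4 := Real.exp_bound' (x := 31 / 100) (by norm_num) (by norm_num) (n := 4) (by norm_num)
    norm_num [Finset.sum_range_succ, Nat.factorial] at h4
    have h5 : Real.exp 1 * Real.exp (31 / 100) ≤ 2.7182818286 * (13636 / 10000) := by
      apply mul_le_mul h3.le _ (Real.exp_pos _).le (by norm_num)
      linarith
    rw [h2] at h1
    norm_num at h5
    linarith
  have b2 : x ≤ 14 / 10 := by
    by_contra hc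
    push Not at hc
    have h1 : Real.exp (14 / 10) < Real.exp x := Real.exp_lt_exp.2 hc
    have h2 := Real.sum_le_exp_of_nonneg (x := 14 / 10) (by norm_num) 4
    have h3 : (383 / 100 : ℝ) ≤ ∑ i ∈ Finset.range 4, (14 / 10 : ℝ) ^ i / (Nat.factorial i : ℝ) := by
      norm_num [Finset.sum_range_succ, Nat.factorial]
    linarith [h3.trans h2]
  have e3 : Real.exp (-(3 * x)) = (2 - Real.sinh x) ^ 3 := by
    rw [← e1, ← Real.exp_nat_mul]
    congr 1
    push_cast
    ring
  rw [g2, e3, e1]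
  set E := 2 - Real.sinh x with hE
  have E1 : 2679 / 10000 ≤ E := by linarith
  have E2 : E ≤ 268 / 1000 := by linarith
  have h1 : 2 * (131 / 100 + 1) * (2679 / 10000) ≤ 2 * (x + 1) * E :=
    mul_le_mul (by linarith) E1 (by norm_num) (by linarith)
  have h2 : E ^ 3 ≤ (268 / 1000) ^ 3 := pow_le_pow_left₀ (by linarith) E2 3
  have h3 : 2 / 9 * (3 * x + 1) * E ^ 3 ≤ 2 / 9 * (3 * (14 / 10) + 1) * (268 / 1000) ^ 3 :=
    mul_le_mul (by linarith) h2 (by positivity) (by norm_num)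
  norm_num at h1 h3
  linarith

theorem third_lt : |(1 / 3 : ℝ)| < 1 / 2 := by norm_num

/-- lower bound of `V` at the abscissa `1/3` -/
theorem VV_third (hΦ : IsPhi1 Φ) (h0 : Φ 0 = Fc 0) (θ0 : 0 ≤ θ) (θ1 : θ < Real.pi / 2) {x : ℝ}
    (hR : Ra x θ = Real.pi / 3) : 1215 / 1000 - θ * Ya x θ ≤ VV Φ x θ := by
  have hpi := Real.pi_pos
  obtain ⟨x0, t0, a1, a2, a3, a4, a5, a6⟩ :=
    coord (v := ((1 / 3 : ℝ) : ℂ)) (by rw [ofReal_re]; exact third_lt)
  rw [ofReal_re] at a3 a5
  rw [ofReal_im, mul_zero] at a4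
  have hx0 : 0 ≤ x0 := a5 (by norm_num)
  have ht0 : t0 = 0 := by
    have c := curve (x := x0) a1
    rw [a4, Real.sinh_zero, zero_mul] at c
    have h2 := cos_Ra_pos (x := x0) a1
    have h3 : Real.sin t0 = 0 := by
      rcases mul_eq_zero.1 c.symm with h | h
      · exact h
      · exact absurd h h2.ne'
    have h4 := abs_lt.1 a1
    exact (Real.sin_eq_zero_iff_of_lt_of_lt (by linarith) (by linarith)).1 h3
  subst ht0
  have hcosh : Real.cosh x0 = 2 := by
    have h1 := cos_Ra x0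
    rw [a3, show Real.pi * (1 / 3) = Real.pi / 3 by ring, Real.cos_pi_div_three] at h1
    have := (Real.cosh_pos x0).ne'
    field_simp at h1
    linarith
  have hA := (g2_ge hx0 hcosh).trans (VV_zero_ge hΦ h0 hx0)
  have hY := Ya_nonneg (x := x) θ0 θ1
  have hRr : |Real.pi / 3| < Real.pi / 2 := by
    rw [abs_of_pos (by positivity)]
    linarith
  have m := vert_mono hΦ hRr (a := 0) (b := Ya x θ) (mem_Ici.2 le_rfl) (mem_Ici.2 hY) hY
  simp only [mul_zero, sub_zero] at m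
  have g1 : gd (UU x θ) = UU (Real.pi / 3) (Ya x θ) := by
    rw [gd_eta, hR]; rfl
  have g2' : gd (UU x0 0) = UU (Real.pi / 3) 0 := by
    rw [gd_eta, a3, a4, show Real.pi * (1 / 3) = Real.pi / 3 by ring]; rfl
  rw [VV, g2', a4, mul_zero, sub_zero] at hA
  rw [VV, g1, hR]
  linarith

/-- `V (x, t) + c Ra (x, t)` is decreasing for `x ≥ c` -/
theorem VV_anti_c' (hΦ : IsPhi1 Φ) {c t : ℝ} (h0 : |t| < Real.pi / 2) :
    AntitoneOn (fun x => VV Φ x t + c * Ra x t) (Set.Ici c) := by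
  have hd : ∀ x : ℝ, HasDerivAt (fun x => VV Φ x t + c * Ra x t)
      (-((x - c) * (1 / cosh (UU x t)).re)) x := by
    intro x
    exact ((VV_dx hΦ h0).add ((Ra_dx h0).const_mul c)).congr_deriv (by ring)
  apply antitoneOn_of_deriv_nonpos (convex_Ici _)
  · exact fun x _ => (hd x).continuousAt.continuousWithinAt
  · exact fun x _ => (hd x).differentiableAt.differentiableWithinAt
  · intro x hx
    rw [interior_Ici] at hx
    rw [(hd x).deriv]
    have := mul_nonneg (sub_nonneg.2 (le_of_lt (show c < x from hx))) (Ra_dx_pos (x := x) h0).le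
    linarith

theorem Ra_zero_x {t : ℝ} (ht : |t| < Real.pi / 2) : Ra 0 t = 0 := by
  have h1 := RaS (x := 0) ht
  rw [Real.sinh_zero, zero_mul] at h1
  have hc := cos_pos' ht
  have h2 : Real.sin (Ra 0 t) = 0 := by
    rcases mul_eq_zero.1 h1 with h | h
    · exact h
    · exact absurd h hc.ne'
  have h3 := abs_lt.1 (Ra_lt (x := 0) ht)
  exact (Real.sin_eq_zero_iff_of_lt_of_lt (by linarith [Real.pi_pos]) (by linarith [Real.pi_pos])).1 h2

/-- all hypotheses of a closed edge from the location of the critical point -/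
theorem clH (hΦ : IsPhi1 Φ) (h0 : Φ 0 = Fc 0) (b0 : 0 < b)
    (hQ : (qcl (UU xc θ)).re = b * (gd (UU xc θ)).im) (v0 : 0 < v1) (vh : v1 ≤ 1 / 3)
    (hR : Ra xc θ < Real.pi * v1) (H : Reg0 (Ra xc θ) (Ya xc θ) θ xc σ) :
    ClH Φ θ xc b v1 := by
  have hpi := Real.pi_pos
  have θ0 := H.θ0
  have θ1 := H.θ1
  have θ2 : θ < Real.pi / 2 := by linarith
  have hθ : |θ| < Real.pi / 2 := by rwa [abs_of_pos θ0]
  have hvpi : Real.pi * v1 ≤ Real.pi / 3 := by nlinarith
  have hvpi0 : 0 < Real.pi * v1 := by positivity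
  -- the point `x1` with `Ra x1 θ = π/3`
  have r1 : (((1 / 3 : ℝ) : ℂ) + (bl θ (1 / 3) : ℝ) * I).re = 1 / 3 := by simp
  have r2 : (((1 / 3 : ℝ) : ℂ) + (bl θ (1 / 3) : ℝ) * I).im = bl θ (1 / 3) := by simp
  have hv : |(((1 / 3 : ℝ) : ℂ) + (bl θ (1 / 3) : ℝ) * I).re| < 1 / 2 := by
    rw [r1]; exact third_lt
  have hbl : 0 ≤ bl θ (1 / 3) := by
    rw [bl]
    apply div_nonneg _ hpi.le
    rw [Real.arsinh_nonneg_iff]
    apply mul_nonneg (tan_nonneg' θ0.le θ2)
    apply Real.cos_nonneg_of_mem_Icc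
    constructor <;> linarith
  obtain ⟨x1, t1, a1, -, a3, a4, a5, -⟩ := coord hv
  have ht1 : t1 = θ := (t_le θ0 θ2 hv (by rw [r2]; exact hbl) a1 a3 a4).2.2 (by rw [r1, r2])
  rw [r1] at a3
  rw [r2] at a4
  have hx1 : 0 ≤ x1 := a5 (by rw [r1]; norm_num)
  rw [ht1] at a3 a4
  have hR1 : Ra x1 θ = Real.pi / 3 := by rw [a3]; ring
  have hV1 := VV_third hΦ h0 θ0.le θ2 hR1
  have mono := Ra_mono hθ
  have xlt : xc < x1 := by
    by_contra hc
    push Not at hc
    have h2 : Ra x1 θ ≤ Ra xc θ := mono.monotone hc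
    linarith
  -- the heights
  have k0 : Real.sinh (Ya 0 θ) * Real.cos θ = Real.sin θ := by
    rw [curve hθ, Ra_zero_x hθ, Real.cos_zero, mul_one]
  have k1 : 2 * Real.sinh (Ya x1 θ) * Real.cos θ = Real.sin θ := by
    have := curve (x := x1) hθ
    rw [hR1, Real.cos_pi_div_three] at this
    linarith
  obtain ⟨m1, m2⟩ := H.main k0 k1
  have hc : VV Φ x1 θ + xc * Ra x1 θ ≤ VV Φ xc θ + xc * Ra xc θ :=
    VV_anti_c' hΦ (c := xc) hθ (a := xc) (b := x1) (mem_Ici.2 le_rfl) (mem_Ici.2 xlt.le) xlt.le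
  rw [hR1] at hc
  refine ⟨hΦ, h0, θ0, θ1, H.x0, b0, hQ, v0, by linarith, ?_, ?_, hR, by linarith, ?_⟩
  · have h1 : Real.sin (Real.pi * v1) ≤ Real.sin (Real.pi / 3) :=
      Real.sin_le_sin_of_le_of_le_pi_div_two (by linarith) (by linarith) hvpi
    have h2 : 0 ≤ Real.sin (Real.pi * v1) :=
      Real.sin_nonneg_of_nonneg_of_le_pi hvpi0.le (by linarith)
    have h3 : Real.sin (Real.pi / 3) ^ 2 = 3 / 4 := by
      rw [Real.sin_pi_div_three, div_pow, Real.sq_sqrt (by norm_num)]; norm_num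
    have h4 := pow_le_pow_left₀ h2 h1 2
    linarith
  · have h1 : Real.tan (Real.pi * v1) ≤ Real.tan (Real.pi / 3) :=
      Real.strictMonoOn_tan.monotoneOn ⟨by linarith, by linarith⟩ ⟨by linarith, by linarith⟩ hvpi
    rw [Real.tan_pi_div_three] at h1
    have h2 : √3 ≤ 2 := by
      rw [Real.sqrt_le_left (by norm_num)]; norm_num
    have h3 := Real.sin_le_one (2 * θ)
    have h4 : 0 ≤ Real.sin (2 * θ) := Real.sin_nonneg_of_nonneg_of_le_pi (by linarith) (by linarith)
    have h5 : 0 ≤ Real.tan (Real.pi * v1) := tan_nonneg' hvpi0.le (by linarith)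
    calc Real.tan (Real.pi * v1) * Real.sin (2 * θ) ≤ 2 * 1 :=
          mul_le_mul (by linarith) h3 h4 (by norm_num)
      _ = 2 := by norm_num
  · intro x hx
    have h1 : x ≤ x1 := by
      by_contra hc
      push Not at hc
      have := mono hc
      simp only at this
      rw [hR1, hx] at this
      linarith
    have h2 : xc ≤ x := by
      by_contra hc
      push Not at hc
      have := mono hc
      simp only at this
      rw [hx] at this
      linarith
    have h3 : VV Φ x1 θ ≤ VV Φ x θ := (VV_anti_x hΦ hθ).antitoneOn (a := x) (b := x1)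
      (mem_Ici.2 (H.x0.le.trans h2)) (mem_Ici.2 hx1) h1
    linarith

end Pool.Agent.S3.Cl
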