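import Pool.Agent.S3.Cl.Mir
import Pool.Agent.S3.Cl.Hyp
import Pool.Agent.S3.W.Pair

/-!
# Stage 3: closed ends: the low part
-/

namespace Pool.Agent.S3.Cl

open Complex Pool.Agent.S3 Set
open Pool.Agent.H25.RK (gdv gdv_re_lt gdv_hasDerivAt)

variable {Φ : ℂ → ℂ} {θ : ℝ}

theorem zero_lt : |(0 : ℝ)| < Real.pi / 2 := by rw [abs_zero]; linarith [Real.pi_pos]

theorem gd_zero' : gd (UU 0 0) = 0 := by
  rw [gd_eta, Ra_zero_x zero_lt, Ya_zero]
  simp

theorem gdv_zero' : gdv (UU 0 0) = 0 := by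
  have h1 := gd_eq (u := UU 0 0) (by rw [UU_im]; exact zero_lt)
  rw [gd_zero'] at h1
  rcases mul_eq_zero.1 h1.symm with h | h
  · exact absurd h pi_ne
  · exact h

theorem UH_zero : UH 0 0 := by
  have hpi := Real.pi_pos
  refine ⟨le_rfl, by rw [abs_zero]; linarith, ?_, ?_⟩
  · rw [gdv_zero', zero_re, mul_zero, Real.sin_zero]
    norm_num
  · rw [Real.sinh_zero, zero_mul]
    exact zero_le_one

theorem VV_zero (Φ : ℂ → ℂ) : VV Φ 0 0 = Real.pi * (Φ 0).re := by
  rw [VV, gd_zero', Ya_zero, zero_div, mul_zero, sub_zero]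

/-- `16/9 ≤ π Re Φ 0` -/
theorem Phi_zero_ge (hΦ : IsPhi1 Φ) (h0 : Φ 0 = Fc 0) : 16 / 9 ≤ Real.pi * (Φ 0).re := by
  have h := VV_zero_ge hΦ h0 (x := 0) le_rfl
  rw [VV_zero] at h
  have e : g2 0 = 16 / 9 := by
    rw [g2]; norm_num
  linarith

/-- The kernel of a closed edge at a real `v`. -/
theorem low_C1 (hΦ : IsPhi1 Φ) (h0 : Φ 0 = Fc 0) {s : ℤ} (hs : s = 1 ∨ s = -1) {v L : ℝ}
    (hv : |v| ≤ 1 / 2) (hL : (Φ 0).re < L) : EdgeOK (.op (v : ℂ)) (.cl s) L := by
  have hpi := Real.pi_pos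
  have key : ∀ v : ℝ, |v| ≤ 1 / 2 → EdgeOK (.op (v : ℂ)) (.cl 1) L := by
    intro v hv
    have hL0 : 0 < L := by
      have h1 := Phi_zero_ge hΦ h0
      have h2 : 0 < (Φ 0).re := by
        by_contra hc
        push Not at hc
        have := mul_nonpos_of_nonneg_of_nonpos hpi.le hc
        linarith
      linarith
    have hm : ‖sin (Real.pi * (v : ℂ))‖ ^ 2 ≤ 1 := by
      rw [sin_norm, ofReal_im, ofReal_re, mul_zero, Real.sinh_zero]
      have := Real.sin_sq_add_cos_sq (Real.pi * v)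
      have := sq_nonneg (Real.cos (Real.pi * v))
      linarith
    apply ok_of UH_zero (by rw [ofReal_re]; exact hv) (by rw [ofReal_im]) hm
    · intro y h0 h1
      rw [gdv_zero']
      have k : EE (.cl 1) (.op ((|v| : ℝ) : ℂ)) y ≤ EE (.cl 1) (.op ((0 : ℝ) : ℂ)) y := by
        have := real_anti (a := 0) (b := |v|) (t := y.re) (η := y.im) le_rfl (abs_nonneg v) hv h0 h1
        rwa [re_add_im] at this
      rw [ofReal_zero] at k
      rcases abs_choice v with h2 | h2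
      · rwa [h2] at k
      · rw [h2, ofReal_neg, se_cl_neg] at k
        exact k
    · rw [← bridge_cl hΦ h0 le_rfl UH_zero.ht, gd_zero', zero_div]
      exact hL
    · rw [gdv_zero', zero_im, abs_zero, mul_zero]
      exact hL0
    · rw [ofReal_im, mul_zero]
      exact hL0
  rcases hs with h | h
  · rw [h]
    exact key v hv
  · have h1 := (key (-v) (by rwa [abs_neg])).mir_cl
    rw [mir_ofReal, neg_neg] at h1
    rw [h]
    exact h1

/-- the value at `1/4` -/
theorem VV_quarter (hΦ : IsPhi1 Φ) {x : ℝ} (hx : 0 ≤ x) (h : Ra x 0 = Real.pi / 4) :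
    VV Φ 0 0 ≤ VV Φ x 0 + 405 / 1000 := by
  have hcosh : Real.cosh x ^ 2 = 2 := by
    have h1 := cos_Ra x
    rw [h, Real.cos_pi_div_four] at h1
    have h2 := (Real.cosh_pos x).ne'
    have h3 : √2 * Real.cosh x = 2 := by
      field_simp at h1
      linarith
    have h4 : √2 ^ 2 = (2 : ℝ) := Real.sq_sqrt (by norm_num)
    have h5 : (√2 * Real.cosh x) ^ 2 = 4 := by rw [h3]; norm_num
    rw [mul_pow, h4] at h5
    linarith
  have hx9 : x ≤ 9 / 10 := by
    by_contra hc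
    push Not at hc
    have h1 := n_ch4 (x := 9 / 10) (by norm_num)
    have h2 : Real.cosh (9 / 10) ≤ Real.cosh x := by
      rw [Real.cosh_le_cosh, abs_of_nonneg (by norm_num), abs_of_nonneg hx]
      exact hc.le
    have h3 : (143 / 100 : ℝ) ≤ 1 + (9 / 10 : ℝ) ^ 2 / 2 + (9 / 10) ^ 4 / 24 := by norm_num
    have h4 : (143 / 100 : ℝ) ≤ Real.cosh x := (h3.trans h1).trans h2
    nlinarith
  have hd : ∀ y : ℝ, HasDerivAt (fun y => VV Φ y 0 + y ^ 2 / 2)
      (-(y * (1 / cosh (UU y 0)).re) + y) y := by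
    intro y
    have h1 := (VV_dx hΦ (x := y) abs_zero_lt).add ((hasDerivAt_pow 2 y).div_const 2)
    refine h1.congr_deriv ?_
    norm_num
  have hm : MonotoneOn (fun y => VV Φ y 0 + y ^ 2 / 2) (Set.Ici 0) := by
    apply monotoneOn_of_deriv_nonneg (convex_Ici _)
    · exact fun y _ => (hd y).continuousAt.continuousWithinAt
    · exact fun y _ => (hd y).differentiableAt.differentiableWithinAt
    · intro y hy
      rw [interior_Ici] at hy
      rw [(hd y).deriv, inv_cosh_re_zero]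
      have h1 : 1 / Real.cosh y ≤ 1 := by
        rw [div_le_one (Real.cosh_pos y)]
        exact Real.one_le_cosh y
      have h2 := mul_le_mul_of_nonneg_left h1 (le_of_lt (show (0 : ℝ) < y from hy))
      linarith
  have h2 := hm (mem_Ici.2 le_rfl) (mem_Ici.2 hx) hx
  simp only at h2
  have h3 : x ^ 2 ≤ (9 / 10) ^ 2 := pow_le_pow_left₀ hx hx9 2
  norm_num at h2 h3
  linarith

theorem quarter_lt : |(1 / 4 : ℝ)| < 1 / 2 := by norm_num

/-- the test point -/
theorem Phi_tp (hΦ : IsPhi1 Φ) (h : Ht θ) :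
    Real.pi * (Φ 0).re - 405 / 1000 + Real.pi / 4 * (Real.pi * bl θ (1 / 4))
      ≤ Real.pi * (Φ (((1 / 4 : ℝ) : ℂ) + (bl θ (1 / 4) : ℝ) * I)).re := by
  have hpi := Real.pi_pos
  obtain ⟨x0, t0, a1, a2, a3, a4, a5, a6⟩ :=
    coord (v := ((1 / 4 : ℝ) : ℂ)) (by rw [ofReal_re]; exact quarter_lt)
  rw [ofReal_re] at a3 a5
  rw [ofReal_im, mul_zero] at a4
  have hx0 : 0 ≤ x0 := a5 (by norm_num)
  have ht0 : t0 = 0 := by
    have c := curve (x := x0) a1
    rw [a4, Real.sinh_zero, zero_mul] at c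
    have h2 := cos_Ra_pos (x := x0) a1
    have h3 : Real.sin t0 = 0 := by
      rcases mul_eq_zero.1 c.symm with h | h
      · exact h
      · exact absurd h h2.ne'
    have h4 := abs_lt.1 a1
    exact (Real.sin_eq_zero_iff_of_lt_of_lt (by linarith) (by linarith)).1 h3
  subst ht0
  have hq := VV_quarter hΦ hx0 (by rw [a3]; ring)
  have hb : 0 ≤ bl θ (1 / 4) := by
    rw [bl]
    apply div_nonneg _ hpi.le
    rw [Real.arsinh_nonneg_iff]
    apply mul_nonneg (tan_nonneg' h.pos.le h.lt)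
    apply Real.cos_nonneg_of_mem_Icc
    constructor <;> linarith
  have hRr : |Real.pi / 4| < Real.pi / 2 := by
    rw [abs_of_pos (by positivity)]
    linarith
  have m := vert_mono hΦ hRr (a := 0) (b := Real.pi * bl θ (1 / 4)) (mem_Ici.2 le_rfl)
    (mem_Ici.2 (by positivity)) (by positivity)
  simp only [mul_zero, sub_zero] at m
  have g1 : UU (Real.pi / 4) (Real.pi * bl θ (1 / 4)) / (Real.pi : ℂ)
      = ((1 / 4 : ℝ) : ℂ) + (bl θ (1 / 4) : ℝ) * I := by
    rw [UU]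
    push_cast
    have := pi_ne
    field_simp
  have g2' : gd (UU x0 0) = UU (Real.pi / 4) 0 := by
    rw [gd_eta, a3, a4, show Real.pi * (1 / 4) = Real.pi / 4 by ring]; rfl
  rw [g1] at m
  have hV : VV Φ x0 0 = Real.pi * (Φ (UU (Real.pi / 4) 0 / (Real.pi : ℂ))).re := by
    rw [VV, g2', a4, mul_zero, sub_zero]
  rw [VV_zero, hV] at hq
  linarith

theorem bl_le (h : Ht θ) : Real.pi * bl θ (1 / 4) ≤ 61 / 100 := by
  have hpi := Real.pi_pos
  have e := sinh_bl θ (1 / 4)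
  have h0 := tan_nonneg' h.pos.le h.lt
  have h1 : Real.tan θ ≤ 61 / 100 := by
    have := h.tan
    nlinarith
  have h2 := Real.cos_le_one (Real.pi * (1 / 4))
  have h3 : 0 ≤ Real.cos (Real.pi * (1 / 4)) := by
    apply Real.cos_nonneg_of_mem_Icc
    constructor <;> linarith
  have h4 : Real.sinh (Real.pi * bl θ (1 / 4)) ≤ 61 / 100 := by
    rw [e]; nlinarith
  have h5 : 0 ≤ Real.pi * bl θ (1 / 4) := by
    rw [← Real.sinh_nonneg_iff, e]
    exact mul_nonneg h0 h3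
  exact (Real.self_le_sinh_iff.2 h5).trans h4

theorem low_C2 (hΦ : IsPhi1 Φ) (h0 : Φ 0 = Fc 0) (h : Ht θ) :
    6 / 25 + Real.pi / 2 * bl θ (1 / 4)
      < (Φ (((1 / 4 : ℝ) : ℂ) + (bl θ (1 / 4) : ℝ) * I)).re := by
  have hpi := Real.pi_pos
  have p1 := Real.pi_lt_d4
  have h1 := Phi_tp hΦ h
  have h2 := Phi_zero_ge hΦ h0
  have h3 := bl_le h
  norm_num at p1
  apply lt_of_mul_lt_mul_left _ hpi.le
  have h4 : Real.pi / 4 * (Real.pi * bl θ (1 / 4)) ≤ Real.pi / 4 * (61 / 100) :=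
    mul_le_mul_of_nonneg_left h3 (by positivity)
  linarith

theorem low_C3 (hΦ : IsPhi1 Φ) (h : Ht θ) :
    (Φ 0).re < (Φ (((1 / 4 : ℝ) : ℂ) + (bl θ (1 / 4) : ℝ) * I)).re + 6 / 25 := by
  have hpi := Real.pi_pos
  have p1 := Real.pi_gt_three
  have h1 := Phi_tp hΦ h
  have h3 : 0 ≤ Real.pi / 4 * (Real.pi * bl θ (1 / 4)) := by
    apply mul_nonneg (by positivity)
    rw [← Real.sinh_nonneg_iff, sinh_bl]
    apply mul_nonneg (tan_nonneg' h.pos.le h.lt)
    apply Real.cos_nonneg_of_mem_Icc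
    constructor <;> linarith
  apply lt_of_mul_lt_mul_left _ hpi.le
  linarith

end Pool.Agent.S3.Cl
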