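import Pool.Agent.S3.Cl.Vert

/-!
# Stage 3: closed ends: the segment `[-1/10, 0]`
-/

namespace Pool.Agent.S3.Cl

open Complex Pool.Agent.S3 Set

theorem mid_facts {v : ℂ} (hs : ‖sin (Real.pi * v)‖ ^ 2 ≤ 1) {y : ℝ} (h0 : -(1 / 10) ≤ y)
    (h1 : y ≤ 0) :
    9 / 5 ≤ ‖1 + zz ((y : ℂ) + ((0 : ℝ) : ℂ) * I)‖ ∧
    ‖(1 + zz ((y : ℂ) + ((0 : ℝ) : ℂ) * I)) ^ 2 - 4 * zz ((y : ℂ) + ((0 : ℝ) : ℂ) * I) *
      cos (Real.pi * v) ^ 2‖ ≤ 22 / 5 := by
  have hpi := Real.pi_pos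
  have hpi2 := Real.pi_lt_d2
  set w : ℂ := (y : ℂ) + ((0 : ℝ) : ℂ) * I with hw
  have hwim : w.im = 0 := by simp [hw]
  have hw' : w = (y : ℂ) := by simp [hw]
  have hs0 : |Real.sin (Real.pi * y)| ≤ 315 / 1000 := by
    have e1 : |Real.sin (Real.pi * y)| ≤ |Real.pi * y| := Real.abs_sin_le_abs
    have e2 : |Real.pi * y| ≤ 315 / 1000 := by
      rw [abs_mul, abs_of_pos hpi, abs_of_nonpos h1]
      nlinarith
    linarith
  have hs2 : Real.sin (Real.pi * y) ^ 2 ≤ 1 / 10 := by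
    rw [← sq_abs]
    nlinarith [abs_nonneg (Real.sin (Real.pi * y))]
  have hc2 : 9 / 10 ≤ Real.cos (Real.pi * y) ^ 2 := by
    have := Real.sin_sq_add_cos_sq (Real.pi * y)
    linarith
  constructor
  · have e := num_norm w
    rw [hwim, mul_zero, Real.exp_zero, mul_one] at e
    rw [← e, hw']
    have e2 : 2 * sin (Real.pi * ((y : ℂ) + 1 / 2)) = ((2 * Real.cos (Real.pi * y) : ℝ) : ℂ) := by
      rw [mul_add, show (Real.pi : ℂ) * (1 / 2) = Real.pi / 2 by ring, Complex.sin_add_pi_div_two]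
      push_cast
      ring
    rw [e2, norm_real, Real.norm_eq_abs, abs_mul, abs_two]
    have : 9 / 10 ≤ |Real.cos (Real.pi * y)| := by
      rw [← sq_abs] at hc2
      nlinarith [abs_nonneg (Real.cos (Real.pi * y))]
    linarith
  · have e := den_eq v w
    have hz : ‖zz w‖ = 1 := by
      rw [zz_norm, hwim]; simp
    have e1 : ‖(1 + zz w) ^ 2 - 4 * zz w * cos (Real.pi * v) ^ 2‖
        = ‖(2 * sin (Real.pi * (w - v))) * (2 * sin (Real.pi * (w + v)))‖ := by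
      rw [← norm_neg, ← e, norm_mul, hz, mul_one]
    have e2 : (2 * sin (Real.pi * (w - v))) * (2 * sin (Real.pi * (w + v)))
        = 4 * (sin (Real.pi * w) ^ 2 - sin (Real.pi * v) ^ 2) := by
      have q1 : (Real.pi : ℂ) * (w - v) = Real.pi * w - Real.pi * v := mul_sub _ _ _
      have q2 : (Real.pi : ℂ) * (w + v) = Real.pi * w + Real.pi * v := mul_add _ _ _
      rw [q1, q2, Complex.sin_sub, Complex.sin_add]
      have s1 := Complex.sin_sq_add_cos_sq (Real.pi * w)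
      have s2 := Complex.sin_sq_add_cos_sq (Real.pi * v)
      linear_combination 4 * sin (Real.pi * w) ^ 2 * s2 - 4 * sin (Real.pi * v) ^ 2 * s1
    rw [e1, e2, norm_mul]
    have e3 : ‖sin (Real.pi * w) ^ 2 - sin (Real.pi * v) ^ 2‖ ≤ 1 / 10 + 1 := by
      refine (norm_sub_le _ _).trans ?_
      have e4 : ‖sin (Real.pi * w) ^ 2‖ = Real.sin (Real.pi * y) ^ 2 := by
        rw [hw', ← ofReal_mul, ← ofReal_sin, ← ofReal_pow, norm_real, Real.norm_eq_abs,
          abs_of_nonneg (sq_nonneg _)]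
      rw [e4, norm_pow]
      exact add_le_add hs2 hs
    have e5 : ‖(4 : ℂ)‖ = 4 := by simp
    rw [e5]
    linarith

theorem mid_mono {v : ℂ} (hv : |v.re| ≤ 1 / 2) (hs : ‖sin (Real.pi * v)‖ ^ 2 ≤ 1) :
    StrictMonoOn (fun t : ℝ => EE (.cl 1) (.op v) ((t : ℂ) + ((0 : ℝ) : ℂ) * I))
      (Icc (-(1 / 10)) 0) := by
  have hv' := abs_le.1 hv
  have hc : Continuous (fun t : ℝ => EE (.cl 1) (.op v) ((t : ℂ) + ((0 : ℝ) : ℂ) * I)) :=
    (EE_continuous v).comp (by fun_prop)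
  apply mono_exc (s := -|v.re|) hc
  intro t ht hne
  obtain ⟨f1, f2⟩ := mid_facts hs ht.1.le ht.2.le
  set z := zz ((t : ℂ) + ((0 : ℝ) : ℂ) * I) with hz
  have n1 : 1 + z ≠ 0 := by
    intro h0
    rw [h0, norm_zero] at f1
    linarith
  have n2 : (1 + z) ^ 2 - 4 * z * cos (Real.pi * v) ^ 2 ≠ 0 := by
    intro hd
    apply hne
    have e := den_eq v ((t : ℂ) + ((0 : ℝ) : ℂ) * I)
    rw [← hz, hd, neg_zero] at e
    have hz0 : z ≠ 0 := exp_ne_zero _
    have fin : ∀ w : ℂ, w.re = v.re ∨ w.re = -v.re →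
        sin (Real.pi * ((t : ℂ) + ((0 : ℝ) : ℂ) * I - w)) = 0 → t = w.re := by
      intro w hw h4
      obtain ⟨n, hn⟩ := sin_pi_int h4
      have h5 := congrArg Complex.re hn
      simp at h5
      have hw1 : -(1 / 2) ≤ w.re ∧ w.re ≤ 1 / 2 := by
        rcases hw with h | h <;> rw [h] <;> constructor <;> linarith
      have h6 : (n : ℝ) < 1 := by linarith [ht.2]
      have h7 : (-1 : ℝ) < n := by linarith [ht.1]
      have h8 : n < 1 := by exact_mod_cast h6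
      have h9 : -1 < n := by exact_mod_cast h7
      have h10 : n = 0 := by omega
      rw [h10] at h5
      push_cast at h5
      linarith
    rcases mul_eq_zero.1 e with h2 | h2
    · rcases mul_eq_zero.1 h2 with h3 | h3
      · rcases mul_eq_zero.1 h3 with h4 | h4
        · norm_num at h4
        · have := fin v (Or.inl rfl) h4
          rw [abs_of_neg (by linarith [ht.2])]
          linarith
      · rcases mul_eq_zero.1 h3 with h4 | h4
        · norm_num at h4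
        · have := fin (-v) (Or.inr (neg_re v)) (by rw [sub_neg_eq_add]; exact h4)
          rw [neg_re] at this
          rw [abs_of_pos (by linarith [ht.2])]
          linarith
    · exact absurd h2 hz0
  refine ⟨_, (log_cmp n1 n2).1 ?_, flat_deriv n1 n2⟩
  rw [normSq_eq_norm_sq, normSq_eq_norm_sq]
  have a1 : ‖(1 + z) ^ 2 - 4 * z * cos (Real.pi * v) ^ 2‖ ^ 2 ≤ (22 / 5) ^ 2 :=
    pow_le_pow_left₀ (norm_nonneg _) f2 2
  have a2 : (9 / 5 : ℝ) ^ 6 ≤ (‖1 + z‖ ^ 2) ^ 3 := by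
    rw [← pow_mul]
    exact pow_le_pow_left₀ (by norm_num) f1 6
  have : (22 / 5 : ℝ) ^ 2 < (9 / 5) ^ 6 := by norm_num
  linarith

theorem mid_le {v : ℂ} (hv : |v.re| ≤ 1 / 2) (hs : ‖sin (Real.pi * v)‖ ^ 2 ≤ 1) {y : ℝ}
    (h0 : -(1 / 10) ≤ y) (h1 : y ≤ 0) :
    EE (.cl 1) (.op v) (y : ℂ) ≤ Real.pi * |v.im| := by
  have m := (mid_mono hv hs).monotoneOn (a := y) (b := 0) ⟨h0, h1⟩ ⟨by norm_num, le_rfl⟩ h1
  have l := left_le hv (η := 0) le_rfl
  have e : ∀ t : ℝ, (t : ℂ) + ((0 : ℝ) : ℂ) * I = (t : ℂ) := fun t => by simp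
  simp only [e] at m l
  linarith

end Pool.Agent.S3.Cl
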