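import Pool.Agent.S3.Cl.Main
import Pool.Agent.S3.Quad

/-!
# Stage 3: closed ends: the mirror image
-/

namespace Pool.Agent.S3

open Complex

/-! ### `EdgeOK` and `EdgeC` under the reflection of everything, with a closed slot -/

theorem EE_cl_mir (y v : ℂ) (s : ℤ) :
    EE (.op (mir v)) (.cl (-s)) ((starRingEnd ℂ) y) = EE (.op v) (.cl s) y := by
  rw [EE, EE, se_mir_conj, se_cl_conj]

theorem se_cl_real (y : ℝ) (s : ℤ) : se y (.cl (-s)) = se y (.cl s) := by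
  have := se_cl_conj y s
  rwa [conj_ofReal] at this

theorem conj_pt (x Y : ℝ) : (x : ℂ) + ((-Y : ℝ) : ℂ) * I = (starRingEnd ℂ) ((x : ℂ) + Y * I) := by
  rw [map_add, map_mul, conj_ofReal, conj_ofReal, conj_I]
  push_cast
  ring

theorem EdgeOK.mir_cl {v : ℂ} {s : ℤ} {L : ℝ} (H : EdgeOK (.op v) (.cl s) L) :
    EdgeOK (.op (mir v)) (.cl (-s)) L := by
  obtain ⟨h1, h2, n, t, h, h3, h4⟩ := H
  refine ⟨?_, fun y hy => ?_, n, t, fun i => -h i,
    h3.map (f := fun x => -x) (fun x => by rw [abs_neg]), ?_⟩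
  · simpa [B0] using h1
  · have e : EE (.op (mir v)) (.cl (-s)) y = EE (.op v) (.cl s) y := by
      rw [EE, EE, se_mir_real, se_cl_real]
    rw [e]
    exact h2 y hy
  · refine h4.map (f := fun x => -x) continuous_neg (by simp) (fun x Y hP => ?_)
    show EE (.op (mir v)) (.cl (-s)) ((x : ℂ) + ((-Y : ℝ) : ℂ) * I) < L
    rw [conj_pt, EE_cl_mir]
    exact hP

theorem EdgeC.mir_cl {v yc : ℂ} {s : ℤ} {L : ℝ} (H : EdgeC (.op v) (.cl s) yc L) :
    EdgeC (.op (mir v)) (.cl (-s)) ((starRingEnd ℂ) yc) L := by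
  obtain ⟨h1, h2, h0, n, t, h, h3, h4, i, hi, a1, a2, a3⟩ := H
  refine ⟨?_, fun y hy => ?_, ?_, n, t, fun i => -h i,
    h3.map (f := fun x => -x) (fun x => by rw [abs_neg]), ?_, i, hi, by rwa [conj_re],
    by rwa [conj_re], by rw [conj_im, a3]⟩
  · simpa [B0] using h1
  · have e : EE (.op (mir v)) (.cl (-s)) y = EE (.op v) (.cl s) y := by
      rw [EE, EE, se_mir_real, se_cl_real]
    rw [e]
    exact h2 y hy
  · rw [EE_cl_mir]; exact h0
  · refine h4.map (f := fun x => -x) continuous_neg (by simp) (fun x Y hP => ?_)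
    show EE (.op (mir v)) (.cl (-s)) ((x : ℂ) + ((-Y : ℝ) : ℂ) * I) < L ∨
      (x : ℂ) + ((-Y : ℝ) : ℂ) * I = (starRingEnd ℂ) yc
    rw [conj_pt, EE_cl_mir]
    rcases hP with hP | hP
    · exact Or.inl hP
    · exact Or.inr (by rw [hP])

theorem EdgeC.symm {σ τ : Sl} {yc : ℂ} {L : ℝ} (H : EdgeC σ τ yc L) : EdgeC τ σ yc L := by
  have e : ∀ y, EE τ σ y = EE σ τ y := fun y => by rw [EE, EE, add_comm]
  obtain ⟨h1, h2, h0, H⟩ := H
  refine ⟨by rwa [add_comm], fun y hy => by rw [e]; exact h2 y hy, by rw [e]; exact h0, ?_⟩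
  simpa only [e] using H

/-! ### the share -/

theorem mir_pl (θ v1 : ℝ) (h : 0 < v1) (v : ℂ) : pl θ v1 (mir v) = mir (pl θ v1 v) := by
  unfold pl
  rw [mir_re]
  have e : max (-v1) (min v1 (-v.re)) = -max (-v1) (min v1 v.re) := by
    rcases le_total v.re v1 with h1 | h1
    · rcases le_total (-v1) v.re with h2 | h2
      · rw [min_eq_right h1, max_eq_right h2, min_eq_right (by linarith), max_eq_right (by linarith)]
      · rw [min_eq_right h1, max_eq_left h2, min_eq_left (by linarith), max_eq_right (by linarith),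
          neg_neg]
    · have h3 : -v.re ≤ v1 := by linarith
      have h4 : -v.re ≤ -v1 := by linarith
      have h5 : -v1 ≤ v1 := by linarith
      rw [min_eq_left h1, max_eq_right h5, min_eq_right h3, max_eq_left h4]
  rw [e]
  have e2 : bl θ (-max (-v1) (min v1 v.re)) = bl θ (max (-v1) (min v1 v.re)) := by
    unfold bl
    rw [mul_neg, Real.cos_neg]
  rw [e2, mir, map_add, map_mul, conj_ofReal, conj_ofReal, conj_I]
  push_cast
  ring

theorem wr_mir (r : ℝ) (v : ℂ) : (wr (-r) (mir v)).re = (wr r v).re := by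
  have e : wr (-r) (mir v) = (starRingEnd ℂ) (wr r v) := by
    unfold wr mir
    simp only [map_mul, map_add, map_pow, conj_ofReal, conj_I, Complex.conj_ofNat]
    push_cast
    ring
  rw [e, conj_re]

theorem ell_mir_mir (vc Q : ℂ) (β : ℝ) (v : ℂ) :
    ell (mir vc) (-((starRingEnd ℂ) Q)) (-β) (mir v) = ell vc Q β v := by
  unfold ell
  have e : (2 * (-((starRingEnd ℂ) Q)) * (mir v - mir vc)
      + I * ((-β : ℝ) : ℂ) / 2 * (mir v - mir vc) ^ 2)
      = (starRingEnd ℂ) (2 * Q * (v - vc) + I * β / 2 * (v - vc) ^ 2) := by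
    unfold mir
    simp only [map_mul, map_add, map_sub, map_pow, map_div₀, conj_ofReal, conj_I,
      Complex.conj_ofNat]
    push_cast
    ring
  rw [e, conj_re]

theorem G0_mir {θ v1 : ℝ} {v : ℂ} (h : v ∈ G0 θ v1) : mir v ∈ G0 θ v1 := by
  have e : bl θ (-v.re) = bl θ v.re := by
    unfold bl
    rw [mul_neg, Real.cos_neg]
  unfold G0 at h ⊢
  simp only [Set.mem_ofPred_eq, mir_re, mir_im, abs_neg, e] at h ⊢
  exact h

namespace Cl

open Pool.Agent.H25.RK (gdv gdv_re_lt gdv_hasDerivAt)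

variable {Φ : ℂ → ℂ} {θ xc b v1 r lam : ℝ}

/-- the bound of an edge with one closed end, `vc` the critical point of the open vertex -/
noncomputable def Lsh (F : ℝ) (vc Q : ℂ) (β θ v1 r lam : ℝ) (v : ℂ) : ℝ :=
  F + (ell vc Q β (pl θ v1 v) + lam * ((wr r (pl θ v1 v)).re - (wr r v).re))

theorem Lsh_mir (F : ℝ) (vc Q : ℂ) (β θ r lam : ℝ) (h : 0 < v1) (v : ℂ) :
    Lsh F (mir vc) (-((starRingEnd ℂ) Q)) (-β) θ v1 (-r) lam (mir v) = Lsh F vc Q β θ v1 r lam v := by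
  rw [Lsh, Lsh, mir_pl _ _ h, ell_mir_mir, wr_mir, wr_mir]

theorem W1n (H : ClH Φ θ xc b v1) (P1 : 2 * lam * (1 + 2 * r * v1) ≤ v1)
    (P2 : 2 * lam * (1 - 2 * r * v1) ≤ (4 * b + 1) * v1) {v : ℂ} (hv : v ∈ G0 θ v1)
    (hne : v ≠ gdv (UU xc θ)) :
    EdgeOK (.op v) (.cl 1) (Lsh (EE (.op (gdv (UU xc θ))) (.cl 1) (yc (UU xc θ)))
      (gdv (UU xc θ)) (qcl (UU xc θ)) (-(2 * Real.pi * b)) θ v1 r lam v) :=
  W1c H P1 P2 hv hne

/-- the mirror image of `W1c` -/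
theorem W1p (H : ClH Φ θ xc b v1) (P1 : 2 * lam * (1 - 2 * r * v1) ≤ v1)
    (P2 : 2 * lam * (1 + 2 * r * v1) ≤ (4 * b + 1) * v1) {v : ℂ} (hv : v ∈ G0 θ v1)
    (hne : v ≠ mir (gdv (UU xc θ))) :
    EdgeOK (.op v) (.cl (-1)) (Lsh (EE (.op (mir (gdv (UU xc θ)))) (.cl (-1))
        ((starRingEnd ℂ) (yc (UU xc θ))))
      (mir (gdv (UU xc θ))) (-((starRingEnd ℂ) (qcl (UU xc θ)))) (2 * Real.pi * b) θ v1 r lam v) := by
  have h1 : mir v ≠ gdv (UU xc θ) := by
    intro h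
    apply hne
    rw [← h, mir_mir]
  have h2 := (W1n (r := -r) (lam := lam) H (by linarith) (by linarith) (G0_mir hv) h1).mir_cl
  rw [mir_mir] at h2
  have e := Lsh_mir (EE (.op (gdv (UU xc θ))) (.cl 1) (yc (UU xc θ)))
      (gdv (UU xc θ)) (qcl (UU xc θ)) (-(2 * Real.pi * b)) θ (-r) lam H.v0 (mir v)
  rw [mir_mir, neg_neg, neg_neg] at e
  rw [EE_cl_mir, e]
  exact h2

theorem W2p (H : ClH Φ θ xc b v1) :
    EdgeC (.op (mir (gdv (UU xc θ)))) (.cl (-1)) ((starRingEnd ℂ) (yc (UU xc θ)))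
      (EE (.op (mir (gdv (UU xc θ)))) (.cl (-1)) ((starRingEnd ℂ) (yc (UU xc θ)))) := by
  have h := (W2c H).mir_cl
  rwa [← EE_cl_mir] at h

end Cl

end Pool.Agent.S3
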