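import Mathlib

/-!
# Closed end edges: the algebraic inequality behind the flat contour

`N = |1 + z|²`, `m = |1 + z*|²`, `1 + z* = p + i q`, `Y = 2 im z`, `|z|² = |z*|² = 1 + δ`.
-/

set_option autoImplicit false

namespace Pool.Agent.S3.Cl

variable {p q Y N m δ : ℝ}

/-- the quadratic part -/
noncomputable def F0 (N m δ r : ℝ) : ℝ := N ^ 2 + N * m + m ^ 2 - N - m + r * (2 + δ)

theorem p_sq_le (hm : m = p ^ 2 + q ^ 2) (H1 : m ^ 2 ≤ 8 * (q ^ 2 - p ^ 2)) :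
    16 * p ^ 2 ≤ 8 * m - m ^ 2 := by
  linarith only [hm, H1]

theorem p_le_one (hm : m = p ^ 2 + q ^ 2) (H1 : m ^ 2 ≤ 8 * (q ^ 2 - p ^ 2)) : |p| ≤ 1 := by
  rw [← sq_le_one_iff_abs_le_one]
  linarith only [p_sq_le hm H1, sq_nonneg (m - 4)]

theorem m_pos (hm : m = p ^ 2 + q ^ 2) (hq : 0 < q) : 0 < m := by
  rw [hm]
  positivity

theorem m_le (hm : m = p ^ 2 + q ^ 2) (hq : 0 < q) (H1 : m ^ 2 ≤ 8 * (q ^ 2 - p ^ 2)) :
    m ≤ 8 := by
  have h0 := m_pos hm hq
  have := p_sq_le hm H1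
  by_contra h
  push Not at h
  nlinarith only [this, h]

/-- In the case `δ < 0`. -/
theorem d_le (hm : m = p ^ 2 + q ^ 2) (hδ : δ = m - 2 * p) (hq : 0 < q)
    (H1 : m ^ 2 ≤ 8 * (q ^ 2 - p ^ 2))
    (H3 : p ^ 2 ≤ 8853 / 10000 * (m - 4589 / 10000)) : -(36 / 100) ≤ δ := by
  have h0 := m_pos hm hq
  have h1 := p_sq_le hm H1
  have key : (2 * p) ^ 2 ≤ (m + 36 / 100) ^ 2 := by
    rcases le_total m (92 / 100) with h | h
    · nlinarith only [hm, H1, H3]
    · nlinarith only [h1, h]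
  have h2 : 2 * p ≤ m + 36 / 100 := by
    by_contra h
    push Not at h
    nlinarith only [h1, key, h]
  linarith

/-- `F0` is positive when `p ≤ 0` or `δ ≤ 0`. -/
theorem F0_pos (hm : m = p ^ 2 + q ^ 2) (hδ : δ = m - 2 * p) (hq : 0 < q) (hN : 0 ≤ N)
    (H1 : m ^ 2 ≤ 8 * (q ^ 2 - p ^ 2))
    (H3 : p ^ 2 ≤ 8853 / 10000 * (m - 4589 / 10000)) (hc : p ≤ 0 ∨ δ ≤ 0) :
    0 < F0 N m δ (q ^ 2 - p ^ 2) := by
  have h0 := m_pos hm hq
  have hg : 8125 / 10000 - 7706 / 10000 * m ≤ q ^ 2 - p ^ 2 := by linarith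
  have hg0 : 0 < q ^ 2 - p ^ 2 := by
    by_contra h
    push Not at h
    linarith only [sq_pos_of_pos h0, H1, h]
  have hm0 : 4589 / 10000 ≤ m := by linarith only [sq_nonneg p, H3]
  have hlow : 164 / 100 ≤ 2 + δ := by
    rcases hc with hc | hc
    · rw [hδ]
      linarith
    · have := d_le hm hδ hq H1 H3
      linarith
  have h2 : 164 / 100 * (q ^ 2 - p ^ 2) ≤ (q ^ 2 - p ^ 2) * (2 + δ) := by
    nlinarith only [hg0, hlow]
  unfold F0
  rcases le_total 1 m with h | h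
  · nlinarith only [hN, H1, h2, h]
  · rcases le_total (8125 / 10000) (7706 / 10000 * m) with h3 | h3
    · linarith
    · nlinarith only [sq_nonneg (N - (1 - m) / 2), hg, h2, h]

/-- `F0` for large `N + m`. -/
theorem F0_ge (hg0 : 0 ≤ (q ^ 2 - p ^ 2) * (2 + δ)) :
    3 / 4 * (N + m) ^ 2 - (N + m) ≤ F0 N m δ (q ^ 2 - p ^ 2) := by
  unfold F0
  linarith only [sq_nonneg (N - m), hg0]

/-- The case `0 < p`, `0 < δ`. -/
theorem G1_pos (hm : m = p ^ 2 + q ^ 2) (hδ : δ = m - 2 * p) (hq : 0 < q) (hN : 0 ≤ N)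
    (H1 : m ^ 2 ≤ 8 * (q ^ 2 - p ^ 2)) (hm0 : 4589 / 10000 ≤ m) (hp : 0 < p) (hd : 0 < δ) :
    0 < F0 N m δ (q ^ 2 - p ^ 2) - p * δ * (4 + 2 * δ - N - m) := by
  have h0 := m_pos hm hq
  have hp1 : p ≤ 1 := (le_abs_self p).trans (p_le_one hm H1)
  have e : F0 N m δ (q ^ 2 - p ^ 2) - p * δ * (4 + 2 * δ - N - m) =
      N ^ 2 + N * (m - 1) + m + N * (p * δ) + δ * (2 * m - 2 * p - p * δ) := by
    unfold F0
    rw [show q ^ 2 - p ^ 2 = m - 2 * p ^ 2 by rw [hm]; ring, hδ]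
    ring
  rw [e]
  have h1 : 0 ≤ N * (p * δ) := by positivity
  have h2 : 0 ≤ 2 * m - 2 * p - p * δ := by nlinarith only [hδ, hd, h0, hp1]
  have h3 : 0 ≤ δ * (2 * m - 2 * p - p * δ) := mul_nonneg hd.le h2
  have h4 : 0 < N ^ 2 + N * (m - 1) + m := by
    rcases le_total 1 m with h | h
    · have : 0 ≤ N * (m - 1) := mul_nonneg hN (by linarith)
      linarith only [sq_nonneg N, h, this]
    · nlinarith only [hN, hm0]
  linarith

/-- **The key inequality.** -/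
theorem B_pos (hm : m = p ^ 2 + q ^ 2) (hδ : δ = m - 2 * p) (hq : 0 < q) (hY : 0 ≤ Y)
    (hN : 0 ≤ N) (hN2 : N ≤ 4 + 2 * δ) (H1 : m ^ 2 ≤ 8 * (q ^ 2 - p ^ 2))
    (H3 : p ^ 2 ≤ 8853 / 10000 * (m - 4589 / 10000)) :
    0 < F0 N m δ (q ^ 2 - p ^ 2) * (Y + 2 * q) - 2 * p * q * δ * (4 + 2 * δ - N - m) := by
  have h0 := m_pos hm hq
  have hm8 := m_le hm hq H1
  have hp1 := p_le_one hm H1
  have hm0 : 4589 / 10000 ≤ m := by linarith only [sq_nonneg p, H3]
  have hg0 : 0 < q ^ 2 - p ^ 2 := by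
    by_contra h
    push Not at h
    linarith only [sq_pos_of_pos h0, H1, h]
  set F := F0 N m δ (q ^ 2 - p ^ 2) with hF
  -- it is enough: `0 < F` and `p δ X < F`
  suffices h : 0 ≤ F ∧ p * δ * (4 + 2 * δ - N - m) < F by
    linarith only [mul_nonneg h.1 hY, mul_pos hq (sub_pos.mpr h.2)]
  rcases lt_trichotomy p 0 with hp | hp | hp
  · -- p < 0
    have hd : 0 < δ := by rw [hδ]; linarith
    have hF0 : 0 < F := F0_pos hm hδ hq hN H1 H3 (Or.inl hp.le)
    refine ⟨hF0.le, ?_⟩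
    rcases le_total 0 (4 + 2 * δ - N - m) with hX | hX
    · have : p * δ * (4 + 2 * δ - N - m) ≤ 0 := by
        have : p * δ ≤ 0 := mul_nonpos_of_nonpos_of_nonneg hp.le hd.le
        exact mul_nonpos_of_nonpos_of_nonneg this hX
      linarith
    · have hX2 : -m ≤ 4 + 2 * δ - N - m := by linarith
      have h1 := F0_ge (N := N) (m := m) (p := p) (q := q) (δ := δ)
        (mul_nonneg hg0.le (by linarith))
      rw [← hF] at h1
      have h2 : -p ≤ 1 := by linarith [(neg_abs_le p)]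
      have h3 : p * δ * (4 + 2 * δ - N - m) ≤ 8 * δ := by
        have e : p * δ * (4 + 2 * δ - N - m) = (-p) * (δ * -(4 + 2 * δ - N - m)) := by ring
        rw [e]
        have h5 : 0 ≤ δ * -(4 + 2 * δ - N - m) := mul_nonneg hd.le (by linarith)
        have h6 : δ * -(4 + 2 * δ - N - m) ≤ δ * 8 :=
          mul_le_mul_of_nonneg_left (by linarith) hd.le
        nlinarith only [h2, h5, h6]
      have h4 : 4 + 2 * δ ≤ N + m := by linarith
      nlinarith only [hF0, hX, h1, h3]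
  · subst hp
    have hd : 0 < δ := by rw [hδ]; linarith
    have hF0 : 0 < F := F0_pos hm hδ hq hN H1 H3 (Or.inl le_rfl)
    exact ⟨hF0.le, by simpa using hF0⟩
  · rcases le_or_gt δ 0 with hd | hd
    · have hF0 : 0 < F := F0_pos hm hδ hq hN H1 H3 (Or.inr hd)
      have hd2 := d_le hm hδ hq H1 H3
      refine ⟨hF0.le, ?_⟩
      rcases le_total 0 (4 + 2 * δ - N - m) with hX | hX
      · have : p * δ * (4 + 2 * δ - N - m) ≤ 0 := by
          have : p * δ ≤ 0 := mul_nonpos_of_nonneg_of_nonpos hp.le hd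
          exact mul_nonpos_of_nonpos_of_nonneg this hX
        linarith
      · have h1 := F0_ge (N := N) (m := m) (p := p) (q := q) (δ := δ)
          (mul_nonneg hg0.le (by linarith))
        rw [← hF] at h1
        have h2 : p ≤ 1 := (le_abs_self p).trans hp1
        have h4 : 328 / 100 ≤ N + m := by linarith
        have h5 : p * δ * (4 + 2 * δ - N - m) ≤ 36 / 100 * m := by
          have e : p * δ * (4 + 2 * δ - N - m) = p * ((-δ) * -(4 + 2 * δ - N - m)) := by ring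
          rw [e]
          have h6 : (-δ) * -(4 + 2 * δ - N - m) ≤ 36 / 100 * m := by
            apply mul_le_mul (by linarith) (by linarith) (by linarith) (by norm_num)
          have h7 : 0 ≤ (-δ) * -(4 + 2 * δ - N - m) := mul_nonneg (by linarith) (by linarith)
          nlinarith only [h2, h6, h7]
        nlinarith only [hm8, h1, h4, h5]
    · have hG := G1_pos hm hδ hq hN H1 hm0 hp hd
      rw [← hF] at hG
      rcases le_total 0 (4 + 2 * δ - N - m) with hX | hX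
      · have : 0 ≤ p * δ * (4 + 2 * δ - N - m) := by positivity
        exact ⟨by linarith, by linarith⟩
      · have h1 := F0_ge (N := N) (m := m) (p := p) (q := q) (δ := δ)
          (mul_nonneg hg0.le (by linarith))
        rw [← hF] at h1
        have h4 : 4 + 2 * δ ≤ N + m := by linarith
        refine ⟨by nlinarith only [hd, hX, h1], by linarith⟩

/-- The function whose sign decides the growth along the flat. -/
noncomputable def Gam (N Y m δ r s : ℝ) : ℝ :=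
  N ^ 2 - N ^ 3 + (1 + δ) * m ^ 2 - r * ((2 + δ) * N - δ ^ 2) + s * δ * Y

theorem Gam_eq (hm : m = p ^ 2 + q ^ 2) (hδ : δ = m - 2 * p)
    (hY2 : Y ^ 2 = 4 * (1 + δ) - (N - 2 - δ) ^ 2) :
    Gam N Y m δ (q ^ 2 - p ^ 2) (2 * p * q) * (Y + 2 * q) =
      (m - N) * (F0 N m δ (q ^ 2 - p ^ 2) * (Y + 2 * q) -
        2 * p * q * δ * (4 + 2 * δ - N - m)) := by
  unfold Gam F0
  subst hδ hm
  linear_combination (2 * p * q * (p ^ 2 + q ^ 2 - 2 * p)) * hY2

theorem Gam_sign (hm : m = p ^ 2 + q ^ 2) (hδ : δ = m - 2 * p) (hq : 0 < q) (hY : 0 ≤ Y)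
    (hY2 : Y ^ 2 = 4 * (1 + δ) - (N - 2 - δ) ^ 2)
    (hN : 0 ≤ N) (hN2 : N ≤ 4 + 2 * δ) (H1 : m ^ 2 ≤ 8 * (q ^ 2 - p ^ 2))
    (H3 : p ^ 2 ≤ 8853 / 10000 * (m - 4589 / 10000)) :
    (N < m → 0 < Gam N Y m δ (q ^ 2 - p ^ 2) (2 * p * q)) ∧
    (m < N → Gam N Y m δ (q ^ 2 - p ^ 2) (2 * p * q) < 0) := by
  have hB := B_pos hm hδ hq hY hN hN2 H1 H3
  have e := Gam_eq (Y := Y) (N := N) hm hδ hY2
  have hY0 : 0 < Y + 2 * q := by linarith
  constructor
  · intro h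
    have h1 : 0 < Gam N Y m δ (q ^ 2 - p ^ 2) (2 * p * q) * (Y + 2 * q) := by
      rw [e]
      exact mul_pos (by linarith) hB
    exact pos_of_mul_pos_left h1 hY0.le
  · intro h
    have h1 : Gam N Y m δ (q ^ 2 - p ^ 2) (2 * p * q) * (Y + 2 * q) < 0 := by
      rw [e]
      exact mul_neg_of_neg_of_pos (by linarith) hB
    by_contra h2
    push Not at h2
    have := mul_nonneg h2 hY0.le
    linarith

end Pool.Agent.S3.Cl
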