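import Pool.Agent.S3.Cl.Alg

/-!
# Closed end edges: the algebraic inequality behind the flat contour, second version

For a vertex with `a = 2`: `sin² ≤ 9/10...` and `tan² t ≤ 63/100`; the height of the flat may have
either sign.
-/

set_option autoImplicit false

namespace Pool.Agent.S3.Cl

variable {p q Y N m δ : ℝ}

theorem d_le2 (hδ : δ = m - 2 * p) (hm0 : 0 < m)
    (H3 : p ^ 2 ≤ 9046 / 10000 * (m - 3818 / 10000))
    (H4 : p ^ 2 ≤ 3866 / 10000 * m * (1 - m / (652 / 100))) : -(311 / 1000) ≤ δ := by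
  have key : (2 * p) ^ 2 ≤ (m + 311 / 1000) ^ 2 := by
    rcases le_total m (6225 / 10000) with h | h
    · nlinarith
    · nlinarith
  have h2 : 2 * p ≤ m + 311 / 1000 := by
    by_contra h
    push Not at h
    nlinarith
  linarith

/-- `F0` is positive when `p ≤ 0` or `δ ≤ 0`. -/
theorem F0_pos2 (hm : m = p ^ 2 + q ^ 2) (hδ : δ = m - 2 * p) (hq : 0 < q) (hN : 0 ≤ N)
    (H3 : p ^ 2 ≤ 9046 / 10000 * (m - 3818 / 10000))
    (H4 : p ^ 2 ≤ 3866 / 10000 * m * (1 - m / (652 / 100))) :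
    0 < F0 N m δ (q ^ 2 - p ^ 2) := by
  have h0 := m_pos hm hq
  have hd := d_le2 hδ h0 H3 H4
  have hg1 : 6907 / 10000 - 8092 / 10000 * m ≤ q ^ 2 - p ^ 2 := by linarith
  have hg2 : 2268 / 10000 * m + 1185 / 10000 * m ^ 2 ≤ q ^ 2 - p ^ 2 := by nlinarith
  have hg0 : 0 < q ^ 2 - p ^ 2 := by nlinarith [sq_nonneg m]
  have h2 : 1689 / 1000 * (q ^ 2 - p ^ 2) ≤ (q ^ 2 - p ^ 2) * (2 + δ) := by
    nlinarith
  unfold F0
  rcases le_total 1 m with h | h
  · nlinarith
  · rcases le_total m (6225 / 10000) with h3 | h3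
    · nlinarith [sq_nonneg (N - (1 - m) / 2)]
    · nlinarith [sq_nonneg (N - (1 - m) / 2)]

theorem p_le_one2 (hm0 : 0 < m) (H4 : p ^ 2 ≤ 3866 / 10000 * m * (1 - m / (652 / 100))) :
    |p| ≤ 1 ∧ m ≤ 8 := by
  constructor
  · rw [← sq_le_one_iff_abs_le_one]
    nlinarith [sq_nonneg (m - 326 / 100)]
  · by_contra h
    push Not at h
    nlinarith [sq_nonneg p]

/-- The case `0 < p`, `0 < δ`. -/
theorem G1_pos2 (hm : m = p ^ 2 + q ^ 2) (hδ : δ = m - 2 * p) (hN : 0 ≤ N)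
    (hm0 : 3818 / 10000 ≤ m) (hp : 0 < p) (hp1 : p ≤ 1) (hd : 0 < δ) :
    0 < F0 N m δ (q ^ 2 - p ^ 2) - p * δ * (4 + 2 * δ - N - m) := by
  have e : F0 N m δ (q ^ 2 - p ^ 2) - p * δ * (4 + 2 * δ - N - m) =
      N ^ 2 + N * (m - 1) + m + N * (p * δ) + δ * (2 * m - 2 * p - p * δ) := by
    unfold F0
    rw [show q ^ 2 - p ^ 2 = m - 2 * p ^ 2 by rw [hm]; ring, hδ]
    ring
  rw [e]
  have h1 : 0 ≤ N * (p * δ) := by positivity
  have h2 : 0 ≤ 2 * m - 2 * p - p * δ := by nlinarith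
  have h3 : 0 ≤ δ * (2 * m - 2 * p - p * δ) := mul_nonneg hd.le h2
  have h4 : 0 < N ^ 2 + N * (m - 1) + m := by
    rcases le_total 1 m with h | h
    · have : 0 ≤ N * (m - 1) := mul_nonneg hN (by linarith)
      nlinarith [sq_nonneg N]
    · nlinarith [sq_nonneg (N - (1 - m) / 2)]
  linarith

/-- **The key inequality.** -/
theorem B_pos2 (hm : m = p ^ 2 + q ^ 2) (hδ : δ = m - 2 * p) (hq : 0 < q) (hY : 0 ≤ Y)
    (hN : 0 ≤ N) (hN2 : N ≤ 4 + 2 * δ)
    (H3 : p ^ 2 ≤ 9046 / 10000 * (m - 3818 / 10000))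
    (H4 : p ^ 2 ≤ 3866 / 10000 * m * (1 - m / (652 / 100))) :
    0 < F0 N m δ (q ^ 2 - p ^ 2) * (Y + 2 * q) - 2 * p * q * δ * (4 + 2 * δ - N - m) := by
  have h0 := m_pos hm hq
  obtain ⟨hp1, hm8⟩ := p_le_one2 h0 H4
  have hm0 : 3818 / 10000 ≤ m := by nlinarith [sq_nonneg p]
  have hd2 := d_le2 hδ h0 H3 H4
  have hF0 : 0 < F0 N m δ (q ^ 2 - p ^ 2) := F0_pos2 hm hδ hq hN H3 H4
  have hg0 : 0 < q ^ 2 - p ^ 2 := by nlinarith [sq_nonneg m]
  set F := F0 N m δ (q ^ 2 - p ^ 2) with hF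
  suffices h : p * δ * (4 + 2 * δ - N - m) < F by
    nlinarith [mul_nonneg hF0.le hY, mul_pos hq (sub_pos.mpr h)]
  rcases lt_trichotomy p 0 with hp | hp | hp
  · -- p < 0
    have hd : 0 < δ := by rw [hδ]; linarith
    rcases le_total 0 (4 + 2 * δ - N - m) with hX | hX
    · have : p * δ * (4 + 2 * δ - N - m) ≤ 0 := by
        have : p * δ ≤ 0 := mul_nonpos_of_nonpos_of_nonneg hp.le hd.le
        exact mul_nonpos_of_nonpos_of_nonneg this hX
      linarith
    · have h1 := F0_ge (N := N) (m := m) (p := p) (q := q) (δ := δ)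
        (mul_nonneg hg0.le (by linarith))
      rw [← hF] at h1
      have h2 : -p ≤ 1 := by linarith [(neg_abs_le p)]
      have h3 : p * δ * (4 + 2 * δ - N - m) ≤ 8 * δ := by
        have e : p * δ * (4 + 2 * δ - N - m) = (-p) * (δ * -(4 + 2 * δ - N - m)) := by ring
        rw [e]
        have h5 : 0 ≤ δ * -(4 + 2 * δ - N - m) := mul_nonneg hd.le (by linarith)
        have h6 : δ * -(4 + 2 * δ - N - m) ≤ δ * 8 :=
          mul_le_mul_of_nonneg_left (by linarith) hd.le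
        nlinarith
      have h4 : 4 + 2 * δ ≤ N + m := by linarith
      nlinarith
  · subst hp
    simpa using hF0
  · rcases le_or_gt δ 0 with hd | hd
    · rcases le_total 0 (4 + 2 * δ - N - m) with hX | hX
      · have : p * δ * (4 + 2 * δ - N - m) ≤ 0 := by
          have : p * δ ≤ 0 := mul_nonpos_of_nonneg_of_nonpos hp.le hd
          exact mul_nonpos_of_nonpos_of_nonneg this hX
        linarith
      · have h1 := F0_ge (N := N) (m := m) (p := p) (q := q) (δ := δ)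
          (mul_nonneg hg0.le (by linarith))
        rw [← hF] at h1
        have h2 : p ≤ 1 := (le_abs_self p).trans hp1
        have h4 : 328 / 100 ≤ N + m := by linarith
        have h5 : p * δ * (4 + 2 * δ - N - m) ≤ 36 / 100 * m := by
          have e : p * δ * (4 + 2 * δ - N - m) = p * ((-δ) * -(4 + 2 * δ - N - m)) := by ring
          rw [e]
          have h6 : (-δ) * -(4 + 2 * δ - N - m) ≤ 36 / 100 * m := by
            apply mul_le_mul (by linarith) (by linarith) (by linarith) (by norm_num)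
          have h7 : 0 ≤ (-δ) * -(4 + 2 * δ - N - m) := mul_nonneg (by linarith) (by linarith)
          nlinarith
        nlinarith
    · have hG := G1_pos2 hm hδ hN hm0 hp ((le_abs_self p).trans hp1) hd
      rw [← hF] at hG
      linarith

theorem Gam_sign2 (hm : m = p ^ 2 + q ^ 2) (hδ : δ = m - 2 * p) (hq : 0 < q) (hY : 0 ≤ Y)
    (hY2 : Y ^ 2 = 4 * (1 + δ) - (N - 2 - δ) ^ 2)
    (hN : 0 ≤ N) (hN2 : N ≤ 4 + 2 * δ)
    (H3 : p ^ 2 ≤ 9046 / 10000 * (m - 3818 / 10000))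
    (H4 : p ^ 2 ≤ 3866 / 10000 * m * (1 - m / (652 / 100))) :
    (N < m → 0 < Gam N Y m δ (q ^ 2 - p ^ 2) (2 * p * q)) ∧
    (m < N → Gam N Y m δ (q ^ 2 - p ^ 2) (2 * p * q) < 0) := by
  have hB := B_pos2 hm hδ hq hY hN hN2 H3 H4
  have e := Gam_eq (Y := Y) (N := N) hm hδ hY2
  have hY0 : 0 < Y + 2 * q := by linarith
  constructor
  · intro h
    have h1 : 0 < Gam N Y m δ (q ^ 2 - p ^ 2) (2 * p * q) * (Y + 2 * q) := by
      rw [e]
      exact mul_pos (by linarith) hB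
    exact pos_of_mul_pos_left h1 hY0.le
  · intro h
    have h1 : Gam N Y m δ (q ^ 2 - p ^ 2) (2 * p * q) * (Y + 2 * q) < 0 := by
      rw [e]
      exact mul_neg_of_neg_of_pos (by linarith) hB
    by_contra h2
    push Not at h2
    have := mul_nonneg h2 hY0.le
    linarith

end Pool.Agent.S3.Cl
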