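import Pool.Agent.S3.Cl.Ysc
import Pool.Agent.S3.PhiEx

/-!
# Stage 3: closed ends: the potential at the critical point in `y`

`exists_Phi1`: the potential of a closed edge; `bridge_cl`: its real part is the growth of the edge at
the critical point in `y`, for `Re u ≥ 0`, `|Im u| ≤ π/4`.
-/

namespace Pool.Agent.S3.Cl

open Complex Pool.Agent.S3
open Pool.Agent.H63.VC3 (hh ff ff_hasDerivAt ff_conj)
open Pool.Agent.H25.RK (gdv gdv_re_lt gdv_hasDerivAt)

theorem hasDerivAt_L2 {u : ℂ} (h : |u.im| < Real.pi / 2) :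
    HasDerivAt L2 (sinh u / (cosh u - 2 * I)) u :=
  ((Complex.hasDerivAt_cosh u).sub_const (2 * I)).clog (c2_mem h)

theorem yc_curve {u : ℝ → ℂ} {u' : ℂ} {s : ℝ} (h : |(u s).im| < Real.pi / 2)
    (hu : HasDerivAt u u' s) : ∃ y' : ℂ, HasDerivAt (fun s => yc (u s)) y' s := by
  have e1 := HasDerivAt.scomp (g₁ := Lc) (h := u) s (hasDerivAt_Lc h) hu
  have e2 := HasDerivAt.scomp (g₁ := L2) (h := u) s (hasDerivAt_L2 h) hu
  exact ⟨_, ((e2.sub e1).div_const (2 * Real.pi * I)).const_add (1 / 2)⟩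

/-! ### imaginary parts of the logarithms -/

theorem Mc_im (u : ℂ) : (Mc u).im
    = -(3 / 2) * (Lc u).im - (L2 u).im / 2 + (log (exp (-u) - I)).im := by
  have e : (lc u).im = -((Lc u).im + (L2 u).im) / 2 := by
    rw [lc, show (2 : ℂ) = ((2 : ℝ) : ℂ) by norm_num, div_ofReal_im, neg_im, add_im]
  rw [Mc, add_im, sub_im, add_im, ofReal_im, e]
  ring

theorem Mc_im_gt {u : ℂ} (h : |u.im| < Real.pi / 2) : -(3 * Real.pi / 2) < (Mc u).im := by
  have h' : |(-u).im| < Real.pi / 2 := by rwa [neg_im, abs_neg]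
  rw [Mc_im]
  have h1 := abs_lt.1 (L2_im h)
  have h2 := abs_lt.1 (Lc_im_lt h)
  have h3 := abs_lt.1 (eI_im h')
  linarith only [h3.1, h2.2, h1.2]

theorem Lc_im_eq (x t : ℝ) (h : |t| < Real.pi / 2) : (Lc (UU x t)).im = aa x t := Lc_im x t h

theorem exp_neg_UU_im (x t : ℝ) : (exp (-UU x t)).im = -(Real.exp (-x) * Real.sin t) := by
  rw [exp_im, neg_re, neg_im, UU_re, UU_im, Real.sin_neg]
  ring

/-- first quadrant -/
theorem Mc_im_lt₁ {x t : ℝ} (hx : 0 ≤ x) (h0 : 0 ≤ t) (h1 : t < Real.pi / 2) :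
    (Mc (UU x t)).im < Real.pi / 2 := by
  have h : |(UU x t).im| < Real.pi / 2 := by rw [UU_im, abs_of_nonneg h0]; exact h1
  have h' : |(-UU x t).im| < Real.pi / 2 := by rwa [neg_im, abs_neg]
  have hpi := Real.pi_pos
  have a0 : 0 ≤ (Lc (UU x t)).im := by
    rw [Lc_im_eq _ _ (by rw [abs_of_nonneg h0]; exact h1)]
    exact aa_nonneg hx h0 h1
  have a1 := abs_lt.1 (L2_im h)
  have a2 : (log (exp (-UU x t) - I)).im ≤ 0 := by
    rw [log_im]
    have : (exp (-UU x t) - I).im < 0 := by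
      rw [sub_im, I_im, exp_neg_UU_im]
      have := mul_nonneg (Real.exp_pos (-x)).le (Real.sin_nonneg_of_nonneg_of_le_pi h0 (by linarith only [h1,
                                                                                             h0]))
      linarith only [this]
    exact (arg_neg_iff.2 this).le
  rw [Mc_im]
  linarith only [a2, a1.1, a0, h1, h0]

/-- fourth quadrant -/
theorem Mc_im_lt₄ {x t : ℝ} (hx : 0 ≤ x) (h0 : 0 ≤ t) (h1 : t ≤ Real.pi / 4) :
    |(Mc (UU x (-t))).im| < Real.pi / 2 := by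
  have hpi := Real.pi_pos
  have ht : |(-t)| < Real.pi / 2 := by rw [abs_neg, abs_of_nonneg h0]; linarith only [hpi, h1]
  have h : |(UU x (-t)).im| < Real.pi / 2 := by rwa [UU_im]
  have h' : |(-UU x (-t)).im| < Real.pi / 2 := by rwa [neg_im, abs_neg]
  have b1 := abs_lt.1 (L2_im h)
  have b2 : (L2 (UU x (-t))).im ≤ 0 := by
    rw [L2, log_im]
    have : (cosh (UU x (-t)) - 2 * I).im < 0 := by
      have e : (cosh (UU x (-t)) - 2 * I).im = (cosh (UU x (-t))).im - 2 := by simp
      rw [e, cosh_im', UU_re, UU_im, Real.sin_neg]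
      have := mul_nonneg (Real.sinh_nonneg_iff.2 hx)
        (Real.sin_nonneg_of_nonneg_of_le_pi h0 (by linarith only [h1, h0]))
      linarith only [this]
    exact (arg_neg_iff.2 this).le
  have b3 : (Lc (UU x (-t))).im ≤ 0 := by
    rw [Lc_im_eq _ _ ht, aa_neg_right]
    have := aa_nonneg hx h0 (show t < Real.pi / 2 by linarith only [hpi, h1])
    linarith only [this]
  have b4 : -t ≤ (Lc (UU x (-t))).im := by
    rw [Lc_im_eq _ _ ht, aa_neg_right]
    have := aa_le_self x h0 (show t < Real.pi / 2 by linarith only [hpi, h1])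
    linarith only [this]
  have b5 := abs_lt.1 (eI_im h')
  have b6 : (log (exp (-UU x (-t)) - I)).im ≤ -(Real.pi / 4 - t / 2) := by
    set w := exp (-UU x (-t)) - I with hw
    have hw0 : w ≠ 0 := eI_ne h'
    by_contra hcon
    push Not at hcon
    have s1 : 0 < Real.sin ((log w).im + (Real.pi / 4 - t / 2)) :=
      Real.sin_pos_of_pos_of_lt_pi (by linarith only [hcon]) (by linarith only [b5.2, hpi, h0])
    have s2 : (w * exp (((Real.pi / 4 - t / 2 : ℝ) : ℂ) * I)).im ≤ 0 := by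
      have e1 : (exp (((Real.pi / 4 - t / 2 : ℝ) : ℂ) * I)).re = Real.cos (Real.pi / 4 - t / 2) := by
        rw [exp_ofReal_mul_I_re]
      have e2 : (exp (((Real.pi / 4 - t / 2 : ℝ) : ℂ) * I)).im = Real.sin (Real.pi / 4 - t / 2) := by
        rw [exp_ofReal_mul_I_im]
      have e3 : w.re = Real.exp (-x) * Real.cos t := by
        rw [hw, sub_re, I_re, sub_zero, exp_re, neg_re, neg_im, UU_re, UU_im, neg_neg]
      have e4 : w.im = Real.exp (-x) * Real.sin t - 1 := by
        rw [hw, sub_im, I_im, exp_im, neg_re, neg_im, UU_re, UU_im, neg_neg]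
      rw [mul_im, e1, e2, e3, e4]
      have e5 : Real.cos (Real.pi / 4 - t / 2) = Real.sin (Real.pi / 4 + t / 2) := by
        rw [← Real.sin_pi_div_two_sub]
        congr 1
        ring
      have e6 : Real.sin (Real.pi / 4 + t / 2)
          = Real.sin t * Real.cos (Real.pi / 4 - t / 2)
            + Real.cos t * Real.sin (Real.pi / 4 - t / 2) := by
        rw [← Real.sin_add]
        congr 1
        ring
      have e7 : 0 < Real.sin (Real.pi / 4 + t / 2) :=
        Real.sin_pos_of_pos_of_lt_pi (by linarith only [hpi, h0]) (by linarith only [hpi, h1])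
      have e8 : Real.exp (-x) ≤ 1 := Real.exp_le_one_iff.2 (by linarith only [hx])
      have e9 : Real.exp (-x) * Real.cos t * Real.sin (Real.pi / 4 - t / 2)
          + (Real.exp (-x) * Real.sin t - 1) * Real.cos (Real.pi / 4 - t / 2)
          = (Real.exp (-x) - 1) * Real.sin (Real.pi / 4 + t / 2) := by
        linear_combination (-(Real.exp (-x))) * e6 - e5
      rw [e9]
      exact mul_nonpos_of_nonpos_of_nonneg (by linarith only [e8]) e7.le
    have s3 : w * exp (((Real.pi / 4 - t / 2 : ℝ) : ℂ) * I)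
        = exp (log w + ((Real.pi / 4 - t / 2 : ℝ) : ℂ) * I) := by
      rw [exp_add, exp_log hw0]
    rw [s3, exp_im, add_im, im_ofReal_mul, I_im, mul_one] at s2
    have := mul_pos (Real.exp_pos (log w + ((Real.pi / 4 - t / 2 : ℝ) : ℂ) * I).re) s1
    linarith only [this, s2]
  rw [Mc_im, abs_lt]
  constructor <;> linarith

/-! ### the derivatives of the branches -/

theorem sub_re_gt {u : ℂ} (h : |u.im| < Real.pi / 2) : -1 / 2 < (yc u - gdv u).re ∧
    (yc u - gdv u).re < 1 := by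
  have h1 := yc_re_pos h
  have h2 := yc_re_lt h
  have h3 := abs_lt.1 (gd_re_lt h)
  have hpi := Real.pi_pos
  rw [gd_eq h, re_ofReal_mul] at h3
  have h4 : (gdv u).re < 1 / 2 := by (refine lt_of_not_ge fun hng => ?_; linarith only [h3.2,
                                       mul_nonneg (sub_nonneg.2 hng) (sub_nonneg.2 h3.2.le),
                                       mul_nonneg (sub_nonneg.2 hng) (sub_nonneg.2 h3.1.le)])
  have h5 : -(1 / 2) < (gdv u).re := by (refine lt_of_not_ge fun hng => ?_; linarith only [h3.1,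
                                          mul_nonneg (sub_nonneg.2 hng) (sub_nonneg.2 h3.2.le),
                                          mul_nonneg (sub_nonneg.2 hng) (sub_nonneg.2 h3.1.le)])
  rw [sub_re]
  constructor <;> linarith

theorem gdv_re_nonneg {x t : ℝ} (hx : 0 ≤ x) (ht : |t| < Real.pi / 2) : 0 ≤ (gdv (UU x t)).re := by
  have h : |(UU x t).im| < Real.pi / 2 := by rwa [UU_im]
  have h1 : 0 ≤ (gd (UU x t)).re := by
    rcases hx.eq_or_lt with h0 | h0
    · rw [← h0]
      have e : (starRingEnd ℂ) (UU 0 t) = -UU 0 t := by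
        apply Complex.ext <;> simp
      have e2 := gd_conj (u := UU 0 t) (by simpa using ht)
      rw [e, gd_neg (by simpa using ht)] at e2
      have := congrArg Complex.re e2
      rw [neg_re, conj_re] at this
      linarith only [this]
    · exact (gd_re_pos h0 ht).le
  rw [gd_eq h, re_ofReal_mul] at h1
  exact nonneg_of_mul_nonneg_right h1 Real.pi_pos

theorem fL_at {x t : ℝ} (hx : 0 ≤ x) (ht : |t| ≤ Real.pi / 4) :
    domL (yc (UU x t) - gdv (UU x t)) ∧ hL (yc (UU x t) - gdv (UU x t)) = Mc (UU x t) := by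
  have hpi := Real.pi_pos
  have ht2 : |t| < Real.pi / 2 := by linarith only [hpi, ht]
  have h : |(UU x t).im| < Real.pi / 2 := by rwa [UU_im]
  obtain ⟨r0, r1⟩ := sub_re_gt h
  apply hL_of_log (exp_Mc h) (Mc_im_gt h) _ r0 r1
  rcases le_total 0 t with h0 | h0
  · exact Mc_im_lt₁ hx h0 (by rw [abs_of_nonneg h0] at ht2; exact ht2)
  · have := Mc_im_lt₄ (x := x) (t := -t) hx (by linarith only [h0]) (by rw [abs_of_nonpos h0] at ht; exact ht)
    rw [neg_neg] at this
    exact (abs_lt.1 this).2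

theorem add_strip {x t : ℝ} (hx : 0 ≤ x) (ht : |t| < Real.pi / 2) :
    0 < (yc (UU x t) + gdv (UU x t)).re ∧ (yc (UU x t) + gdv (UU x t)).re < 1 := by
  have h : |(UU x t).im| < Real.pi / 2 := by rwa [UU_im]
  have h1 := yc_re_pos h
  have h2 := yc_re_lt h
  have h3 := gdv_re_nonneg hx ht
  have h4 := abs_lt.1 (gd_re_lt h)
  have hpi := Real.pi_pos
  rw [gd_eq h, re_ofReal_mul] at h4
  rw [add_re]
  constructor
  · linarith only [h3, h1]
  · (refine lt_of_not_ge fun hng => ?_; linarith only [h4.2,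
      mul_pos (sub_pos.2 h2) (sub_pos.2 h4.2), mul_pos (sub_pos.2 h2) (sub_pos.2 h4.1),
      mul_nonneg (sub_nonneg.2 hng) (sub_nonneg.2 h4.2.le),
      mul_nonneg (sub_nonneg.2 hng) (sub_nonneg.2 h4.1.le)])

theorem hh_Pc {x t : ℝ} (hx : 0 ≤ x) (ht : |t| < Real.pi / 2) :
    hh (yc (UU x t) + gdv (UU x t)) = Pc (UU x t) := by
  have hpi := Real.pi_pos
  have h : |(UU x t).im| < Real.pi / 2 := by rwa [UU_im]
  obtain ⟨a0, a1⟩ := add_strip hx ht
  have hf : fdom (yc (UU x t) + gdv (UU x t)) := Or.inr ⟨a0, a1⟩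
  have e1 : exp (hh (yc (UU x t) + gdv (UU x t))) = exp (Pc (UU x t)) := by
    rw [exp_Pc h, ← he_eq_hh a0 a1, exp_he hf]
  have hre : 0 < (2 * sin (Real.pi * (yc (UU x t) + gdv (UU x t)))).re := by
    rw [sin_pi_re]
    have : 0 < Real.sin (Real.pi * (yc (UU x t) + gdv (UU x t)).re) := by
      apply Real.sin_pos_of_pos_of_lt_pi
      · exact mul_pos hpi a0
      · linarith only [mul_pos (sub_pos.2 hpi) (sub_pos.2 a1)]
    have := Real.cosh_pos (Real.pi * (yc (UU x t) + gdv (UU x t)).im)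
    positivity
  have h2 : |(hh (yc (UU x t) + gdv (UU x t))).im| < Real.pi / 2 := by
    rw [hh, log_im]
    exact abs_arg_lt_pi_div_two_iff.2 (Or.inl hre)
  have h3 : (Pc (UU x t)).im = (lc (UU x t)).im - (Lc (UU x t)).im
      + (log (exp (UU x t) - I)).im := by
    rw [Pc, add_im, sub_im, add_im, ofReal_im, zero_add]
  have h4 := abs_lt.1 (lc_im h)
  have h5 := abs_lt.1 (Lc_im_lt h)
  have h6 := abs_lt.1 (eI_im h)
  have h7 := abs_lt.1 h2
  apply log_unique e1
  rw [h3, abs_lt]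
  constructor <;> linarith

/-- the potential at the critical point -/
noncomputable def Fc (u : ℂ) : ℂ :=
  3 * ff (yc u + 1 / 2) - Real.pi * I * (yc u - yc u ^ 2 / 2 - 7 / 8) - fL (yc u - gdv u)
    - ff (yc u + gdv u)

theorem Fc_curve {u : ℝ → ℂ} {u' : ℂ} {s : ℝ} (h0 : 0 ≤ (u s).re) (h1 : |(u s).im| ≤ Real.pi / 4)
    (hu : HasDerivAt u u' s) :
    HasDerivAt (fun s => Fc (u s)) (-2 * qcl (u s) * u' / ((Real.pi : ℂ) * cosh (u s))) s := by
  have hpi := Real.pi_pos
  have h : |(u s).im| < Real.pi / 2 := by linarith only [hpi, h1]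
  obtain ⟨y', hy⟩ := yc_curve h hu
  have k1 := HasDerivAt.scomp (g₁ := gdv) (h := u) s (gdv_hasDerivAt h) hu
  have e : UU (u s).re (u s).im = u s := UU_eta _
  obtain ⟨d1, d2⟩ := fL_at h0 h1
  obtain ⟨a0, a1⟩ := add_strip h0 h
  have d3 := hh_Pc h0 h
  rw [e] at d1 d2 a0 a1 d3
  have l0 : HasDerivAt ff (hh (yc (u s) + 1 / 2)) (yc (u s) + 1 / 2) := by
    have y0 := yc_re_pos h
    have y1 := yc_re_lt h
    apply ff_hasDerivAt
    · rw [add_re]; norm_num; linarith only [y0, a1, a0]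
    · rw [add_re]; norm_num; linarith only [y1]
  have m0 := (HasDerivAt.scomp (g₁ := ff) (h := fun s => yc (u s) + 1 / 2) s l0
    (hy.add_const (1 / 2))).const_mul 3
  have m1 := ((hy.sub ((hy.pow 2).div_const 2)).sub_const (7 / 8)).const_mul (Real.pi * I)
  have m2 := HasDerivAt.scomp (g₁ := fL) (h := fun s => yc (u s) - gdv (u s)) s (fL_hasDerivAt d1)
    (hy.sub k1)
  have m3 := HasDerivAt.scomp (g₁ := ff) (h := fun s => yc (u s) + gdv (u s)) s
    (ff_hasDerivAt _ a0 a1) (hy.add k1)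
  refine (((m0.sub m1).sub m2).sub m3).congr_deriv ?_
  rw [d2, d3, hh_half h]
  have c1 := crit_eq h
  have c2 := log_sub_eI h
  have hu0 := cosh_ne h
  have hpi0 := pi_ne
  simp only [smul_eq_mul]
  push_cast
  have e3 : u' * (1 / ((Real.pi : ℂ) * cosh (u s))) = u' / ((Real.pi : ℂ) * cosh (u s)) := by ring
  rw [e3]
  have e4 : -2 * qcl (u s) * u' / ((Real.pi : ℂ) * cosh (u s))
      = -2 * qcl (u s) * (u' / ((Real.pi : ℂ) * cosh (u s))) := by ring
  rw [e4]
  generalize u' / ((Real.pi : ℂ) * cosh (u s)) = v'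
  linear_combination y' * c1 + v' * c2

/-! ### existence of the potential -/

theorem hasDerivAt_qcl {u : ℂ} (h : |u.im| < Real.pi / 2) :
    HasDerivAt qcl (1 / 2 + I / 2 * (1 / cosh u)) u :=
  ((hasDerivAt_id u).div_const 2).add ((hasDerivAt_gd h).const_mul (I / 2))

theorem hasDerivAt_g {u : ℂ} (h : |u.im| < Real.pi / 2) :
    ∃ g' : ℂ, HasDerivAt (fun u => -2 * qcl u / ((Real.pi : ℂ) * cosh u)) g' u :=
  ⟨_, ((hasDerivAt_qcl h).const_mul (-2)).div ((Complex.hasDerivAt_cosh u).const_mul (Real.pi : ℂ))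
    (mul_ne_zero pi_ne (cosh_ne h))⟩

theorem exists_prim1 : ∃ f : ℂ → ℂ, ∀ u : ℂ, |u.im| < Real.pi / 2 →
    HasDerivAt f (-2 * qcl u / ((Real.pi : ℂ) * cosh u)) u := by
  have hconv : Convex ℝ {u : ℂ | |u.im| < Real.pi / 2} := by
    have : {u : ℂ | |u.im| < Real.pi / 2} = Complex.imLm ⁻¹' (Set.Ioo (-(Real.pi / 2)) (Real.pi / 2)) := by
      ext u
      simp [abs_lt]
    rw [this]
    exact (convex_Ioo _ _).linear_preimage _
  have hopen : IsOpen {u : ℂ | |u.im| < Real.pi / 2} :=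
    isOpen_lt (by fun_prop) continuous_const
  obtain ⟨f, hf⟩ := Convex.exists_forall_hasFDerivAt_of_fderiv_symmetric (𝕜 := ℂ)
    (ω := fun u : ℂ => (-2 * qcl u / ((Real.pi : ℂ) * cosh u)) • (ContinuousLinearMap.id ℂ ℂ))
    hconv hopen (by
      intro u hu
      obtain ⟨g', hg⟩ := hasDerivAt_g hu
      exact (hg.hasFDerivAt.restrictScalars ℝ).differentiableAt.differentiableWithinAt.smul_const _)
    (by
      intro u hu x y
      obtain ⟨g', hg⟩ := hasDerivAt_g hu
      have h1 := (hg.hasFDerivAt.restrictScalars ℝ).smul_const (ContinuousLinearMap.id ℂ ℂ)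
      rw [h1.fderiv]
      simp
      ring)
  refine ⟨f, fun u hu => ?_⟩
  have h1 := (hf u hu).hasDerivAt
  simpa using h1

theorem exists_Phi1 (c0 : ℂ) : ∃ Φ : ℂ → ℂ, IsPhi1 Φ ∧ Φ 0 = c0 := by
  obtain ⟨f, hf⟩ := exists_prim1
  have hpi := pi_ne
  have e : ∀ u : ℂ, |u.im| < Real.pi / 2 → igd ((Real.pi : ℂ) * (gd u / (Real.pi : ℂ))) = u := by
    intro u hu
    rw [mul_div_cancel₀ _ hpi, igd_gd hu]
  refine ⟨fun v => f (igd ((Real.pi : ℂ) * v)) - f 0 + c0, ⟨?_, ?_⟩, ?_⟩
  · intro u u' s hr hu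
    have h1 := ((HasDerivAt.scomp (g₁ := f) (h := u) s (hf _ hr) hu).sub_const (f 0)).add_const c0
    have n1 : ∀ᶠ t in nhds s, |(u t).im| < Real.pi / 2 := by
      have hc : ContinuousAt (fun t => |(u t).im|) s :=
        (Complex.continuous_im.continuousAt.comp hu.continuousAt).abs
      exact hc.eventually_lt_const hr
    have h2 := h1.congr_of_eventuallyEq (f₁ := fun t => f (igd ((Real.pi : ℂ) *
      (gd (u t) / (Real.pi : ℂ)))) - f 0 + c0)
      (by
        filter_upwards [n1] with t h3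
        rw [e _ h3]
        rfl)
    refine h2.congr_deriv ?_
    rw [smul_eq_mul]
    ring
  · intro u hu
    have hn : |(-u).im| < Real.pi / 2 := by rwa [neg_im, abs_neg]
    rw [e _ hn, e _ hu]
    have k := const_of_ray (g := fun s : ℝ => f (-((s : ℂ) * u)) - f ((s : ℂ) * u)) (by
      intro s hs
      have hs1 : |((s : ℂ) * u).im| < Real.pi / 2 := by
        rw [im_ofReal_mul, abs_mul, abs_of_nonneg hs.1]
        have := mul_le_mul_of_nonneg_right hs.2 (abs_nonneg u.im)
        linarith only [this, hu]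
      have hs2 : |(-((s : ℂ) * u)).im| < Real.pi / 2 := by rwa [neg_im, abs_neg]
      have d1 := HasDerivAt.scomp (g₁ := f) (h := fun s : ℝ => (s : ℂ) * u) s (hf _ hs1)
        (hasDerivAt_ray u s)
      have d2 := HasDerivAt.scomp (g₁ := f) (h := fun s : ℝ => -((s : ℂ) * u)) s (hf _ hs2)
        (hasDerivAt_ray u s).neg
      refine (d2.sub d1).congr_deriv ?_
      rw [smul_eq_mul, smul_eq_mul, qcl, qcl, gd_neg hs1, cosh_neg]
      ring)
    simp only [ofReal_one, one_mul, ofReal_zero, zero_mul, neg_zero, sub_self] at k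
    have : f (-u) = f u := sub_eq_zero.1 k
    rw [this]
  · simp only [mul_zero]
    have : igd 0 = 0 := by
      have := igd_gd (u := 0) (by simp; exact Real.pi_pos)
      rwa [gd_zero] at this
    rw [this]
    ring

/-! ### the bridge -/

theorem Phi_eq_Fc {Φ : ℂ → ℂ} (hΦ : IsPhi1 Φ) (h0 : Φ 0 = Fc 0) {u : ℂ} (hx : 0 ≤ u.re)
    (ht : |u.im| ≤ Real.pi / 4) : Φ (gd u / (Real.pi : ℂ)) = Fc u := by
  have hpi := Real.pi_pos
  have k := const_of_ray (g := fun s : ℝ => Φ (gd ((s : ℂ) * u) / (Real.pi : ℂ)) - Fc ((s : ℂ) * u))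
    (by
      intro s hs
      have hs1 : |((s : ℂ) * u).im| ≤ Real.pi / 4 := by
        rw [im_ofReal_mul, abs_mul, abs_of_nonneg hs.1]
        have := mul_le_mul_of_nonneg_right hs.2 (abs_nonneg u.im)
        linarith only [this, ht]
      have hs0 : 0 ≤ ((s : ℂ) * u).re := by
        rw [re_ofReal_mul]
        exact mul_nonneg hs.1 hx
      have d1 := hΦ.deriv (fun s : ℝ => (s : ℂ) * u) u s (by linarith only [hs1, hpi]) (hasDerivAt_ray u s)
      have d2 := Fc_curve (u := fun s : ℝ => (s : ℂ) * u) hs0 hs1 (hasDerivAt_ray u s)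
      exact (d1.sub d2).congr_deriv (sub_self _))
  simp only [ofReal_one, one_mul, ofReal_zero, zero_mul, gd_zero, zero_div] at k
  rw [h0, sub_self] at k
  exact sub_eq_zero.1 k

end Pool.Agent.S3.Cl
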