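import Pool.Agent.S3.Cl.BridgeC

/-!
# Stage 3: closed ends: the real part of the potential is the growth at the critical point
-/

namespace Pool.Agent.S3.Cl

open Complex Pool.Agent.S3
open Pool.Agent.H63.VC3 (hh ff ff_hasDerivAt ff_conj)
open Pool.Agent.H25.RK (gdv gdv_re_lt gdv_hasDerivAt)

theorem Fc_re {u : ℂ} (h : |u.im| < Real.pi / 2) (hd : domL (yc u - gdv u))
    (hs : 0 < (yc u + gdv u).re ∧ (yc u + gdv u).re < 1)
    (hno : ¬((yc u - gdv u).re < 0 ∧ 0 < (yc u - gdv u).im)) :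
    (Fc u).re = EE (.cl 1) (.op (gdv u)) (yc u) := by
  have y0 := yc_re_pos h
  have y1 := yc_re_lt h
  have e1 : Rf (yc u + 1 / 2) = (ff (yc u + 1 / 2)).re :=
    Rf_eq_ff (by rw [add_re]; norm_num; linarith) (by rw [add_re]; norm_num; linarith)
  have e2 : Rf (yc u + gdv u) = (ff (yc u + gdv u)).re := Rf_eq_ff hs.1 hs.2
  have e3 := fL_re hd
  rw [if_neg hno, add_zero] at e3
  have e4 : ((Real.pi : ℂ) * I * (yc u - yc u ^ 2 / 2 - 7 / 8)).re
      = -(Real.pi * ((yc u).im * (1 - (yc u).re))) := by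
    have : (Real.pi : ℂ) * I * (yc u - yc u ^ 2 / 2 - 7 / 8)
        = (Real.pi : ℂ) * (I * (yc u - yc u ^ 2 / 2 - 7 / 8)) := by ring
    rw [this, re_ofReal_mul, I_mul_re, sub_im, sub_im, show (2 : ℂ) = ((2 : ℝ) : ℂ) by norm_num,
      div_ofReal_im, sq, mul_im]
    norm_num
    ring
  rw [Fc, sub_re, sub_re, sub_re, e3, e4, EE, se, se, e1, e2]
  have : ((3 : ℂ) * ff (yc u + 1 / 2)).re = 3 * (ff (yc u + 1 / 2)).re := by
    rw [show (3 : ℂ) = ((3 : ℝ) : ℂ) by norm_num, re_ofReal_mul]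
  rw [this]
  push_cast
  ring

theorem sub_re_pos₄ {x t : ℝ} (hx : 0 ≤ x) (h0 : 0 ≤ t) (h1 : t ≤ Real.pi / 4) :
    0 < (yc (UU x (-t)) - gdv (UU x (-t))).re := by
  have hpi := Real.pi_pos
  have h : |(UU x (-t)).im| < Real.pi / 2 := by
    rw [UU_im, abs_neg, abs_of_nonneg h0]; linarith
  have hM := Mc_im_lt₄ hx h0 h1
  have e := congrArg Complex.re (exp_Mc h)
  rw [exp_re, sin_pi_re] at e
  have h2 : 0 < Real.cos (Mc (UU x (-t))).im := cos_pos' hM
  have h3 := mul_pos (Real.exp_pos (Mc (UU x (-t))).re) h2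
  rw [e] at h3
  have h4 : 0 < Real.sin (Real.pi * (yc (UU x (-t)) - gdv (UU x (-t))).re) := by
    have h5 : 0 < Real.sin (Real.pi * (yc (UU x (-t)) - gdv (UU x (-t))).re) *
      Real.cosh (Real.pi * (yc (UU x (-t)) - gdv (UU x (-t))).im) := by linarith
    exact (pos_iff_pos_of_mul_pos h5).2 (Real.cosh_pos _)
  obtain ⟨r0, r1⟩ := sub_re_gt h
  by_contra hc
  push Not at hc
  have : Real.sin (Real.pi * (yc (UU x (-t)) - gdv (UU x (-t))).re) ≤ 0 := by
    apply Real.sin_nonpos_of_nonpos_of_neg_pi_le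
    · exact mul_nonpos_of_nonneg_of_nonpos hpi.le hc
    · nlinarith
  linarith

theorem gdv_im_eq {x t : ℝ} (h : |t| < Real.pi / 2) : (gdv (UU x t)).im =
    Real.log ((Real.cosh x + Real.sin t) / (Real.cosh x - Real.sin t)) / (2 * Real.pi) := by
  have h' : |(UU x t).im| < Real.pi / 2 := by rwa [UU_im]
  have e := gd_im (x := x) h
  rw [gd_eq h', im_ofReal_mul] at e
  have hpi := Real.pi_pos
  field_simp
  linarith

theorem yc_im_eq {x t : ℝ} (h : |t| < Real.pi / 2) : (yc (UU x t)).im =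
    -(Real.log (normSq (cosh (UU x t) - 2 * I)) - Real.log (normSq (cosh (UU x t)))) /
      (4 * Real.pi) := by
  have h' : |(UU x t).im| < Real.pi / 2 := by rwa [UU_im]
  have hpi := Real.pi_pos
  rw [yc_im, sub_re, L2, Lc, log_re, log_re, normSq_eq_norm_sq, normSq_eq_norm_sq, Real.log_pow,
    Real.log_pow]
  push_cast
  field_simp
  ring

theorem normSq_c {x t : ℝ} : normSq (cosh (UU x t))
    = (Real.cosh x - Real.sin t) * (Real.cosh x + Real.sin t) := by
  rw [normSq_cosh', UU_re, UU_im]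
  have h1 := Real.sin_sq_add_cos_sq t
  have h3 := Real.cosh_sq x
  linarith

theorem normSq_c2 {x t : ℝ} : normSq (cosh (UU x t) - 2 * I)
    = Real.cosh x ^ 2 - Real.sin t ^ 2 + 4 - 4 * (Real.sinh x * Real.sin t) := by
  have h := normSq_c (x := x) (t := t)
  have e : normSq (cosh (UU x t) - 2 * I) = normSq (cosh (UU x t)) - 4 * (cosh (UU x t)).im + 4 := by
    simp only [normSq_apply, sub_re, sub_im, mul_re, mul_im, I_re, I_im]
    norm_num
    ring
  rw [e, h, cosh_im', UU_re, UU_im]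
  ring

theorem sub_im_nonpos {x t : ℝ} (h0 : 0 ≤ t) (h1 : t ≤ Real.pi / 4) :
    (yc (UU x t) - gdv (UU x t)).im ≤ 0 := by
  have hpi := Real.pi_pos
  have ht : |t| < Real.pi / 2 := by rw [abs_of_nonneg h0]; linarith
  have h' : |(UU x t).im| < Real.pi / 2 := by rwa [UU_im]
  have s0 : 0 ≤ Real.sin t := Real.sin_nonneg_of_nonneg_of_le_pi h0 (by linarith)
  have s1 : Real.sin t ^ 2 ≤ 1 / 2 := by
    have : Real.sin t ≤ Real.sin (Real.pi / 4) :=
      Real.sin_le_sin_of_le_of_le_pi_div_two (by linarith) (by linarith) h1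
    rw [Real.sin_pi_div_four] at this
    have h2 : Real.sqrt 2 ^ 2 = 2 := Real.sq_sqrt (by norm_num)
    have h3 : 0 ≤ Real.sqrt 2 := Real.sqrt_nonneg 2
    nlinarith
  have hC := Real.one_le_cosh x
  have hS : Real.sinh x ≤ Real.cosh x := (Real.sinh_lt_cosh x).le
  have s2 : Real.sin t < 1 := by nlinarith
  set C := Real.cosh x with hCd
  set s := Real.sin t with hsd
  have hCs : 0 < C - s := by linarith
  have hCs' : 0 < C + s := by linarith
  have key : (C - s) ^ 3 ≤ (C ^ 2 - s ^ 2 + 4 - 4 * (Real.sinh x * s)) * (C + s) := by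
    have h3 : (C ^ 2 - s ^ 2 + 4 - 4 * (C * s)) * (C + s) ≤
        (C ^ 2 - s ^ 2 + 4 - 4 * (Real.sinh x * s)) * (C + s) := by
      apply mul_le_mul_of_nonneg_right _ hCs'.le
      have := mul_le_mul_of_nonneg_right hS s0
      linarith
    have h4 : (C - s) ^ 3 ≤ (C ^ 2 - s ^ 2 + 4 - 4 * (C * s)) * (C + s) := by
      have : (C ^ 2 - s ^ 2 + 4 - 4 * (C * s)) * (C + s) - (C - s) ^ 3
          = 4 * C * (1 - 2 * s ^ 2) + 4 * s := by ring
      have h5 : 0 ≤ 4 * C * (1 - 2 * s ^ 2) := by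
        apply mul_nonneg
        · linarith
        · linarith
      linarith
    linarith
  have n1 : 0 < normSq (cosh (UU x t)) := normSq_pos.2 (cosh_ne h')
  have n2 : 0 < normSq (cosh (UU x t) - 2 * I) := normSq_pos.2 (c2_ne h')
  have hlog : Real.log (normSq (cosh (UU x t))) - Real.log (normSq (cosh (UU x t) - 2 * I))
      ≤ 2 * Real.log ((C + s) / (C - s)) := by
    have e1 : 2 * Real.log ((C + s) / (C - s)) = Real.log (((C + s) / (C - s)) ^ 2) := by
      rw [Real.log_pow]; push_cast; ring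
    rw [e1, ← Real.log_div n1.ne' n2.ne']
    apply Real.log_le_log (div_pos n1 n2)
    rw [div_pow, div_le_div_iff₀ n2 (by positivity), normSq_c, normSq_c2, ← hCd, ← hsd]
    have := mul_le_mul_of_nonneg_right key hCs'.le
    nlinarith
  rw [sub_im, yc_im_eq ht, gdv_im_eq ht]
  have e : -(Real.log (normSq (cosh (UU x t) - 2 * I)) - Real.log (normSq (cosh (UU x t)))) /
      (4 * Real.pi) - Real.log ((C + s) / (C - s)) / (2 * Real.pi)
      = (Real.log (normSq (cosh (UU x t))) - Real.log (normSq (cosh (UU x t) - 2 * I))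
        - 2 * Real.log ((C + s) / (C - s))) / (4 * Real.pi) := by
    field_simp
    ring
  rw [e]
  apply div_nonpos_of_nonpos_of_nonneg
  · linarith
  · positivity

/-- the bridge: in the right half plane -/
theorem Fc_re_eq {x t : ℝ} (hx : 0 ≤ x) (ht : |t| ≤ Real.pi / 4) :
    (Fc (UU x t)).re = EE (.cl 1) (.op (gdv (UU x t))) (yc (UU x t)) := by
  have hpi := Real.pi_pos
  have ht2 : |t| < Real.pi / 2 := by linarith
  apply Fc_re (by rwa [UU_im]) (fL_at hx ht).1 (add_strip hx ht2)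
  rintro ⟨h1, h2⟩
  rcases le_total 0 t with h0 | h0
  · rw [abs_of_nonneg h0] at ht
    have := sub_im_nonpos (x := x) h0 ht
    linarith
  · rw [abs_of_nonpos h0] at ht
    have := sub_re_pos₄ (x := x) (t := -t) hx (by linarith) ht
    rw [neg_neg] at this
    linarith

theorem bridge_cl {Φ : ℂ → ℂ} (hΦ : IsPhi1 Φ) (h0 : Φ 0 = Fc 0) {x t : ℝ} (hx : 0 ≤ x)
    (ht : |t| ≤ Real.pi / 4) :
    (Φ (gd (UU x t) / (Real.pi : ℂ))).re = EE (.cl 1) (.op (gdv (UU x t))) (yc (UU x t)) := by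
  rw [Phi_eq_Fc hΦ h0 (by rwa [UU_re]) (by rwa [UU_im]), Fc_re_eq hx ht]

end Pool.Agent.S3.Cl
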