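import Pool.Agent.S3.Cl.J7T
import Pool.Agent.S3.NIF

/-!
# Stage 3: branch and bound in two variables at an inner `2` next to a closed end

Variables: `x`, `I`; then `sin θ = tanh I cosh x`, `|cos z|² = (sinh² x + cos² θ)⁻¹`.
-/

set_option autoImplicit false

namespace Pool.Agent.S3.Cl.CB

open NI E.J6 J7

/-! ### Functions -/

def pm (P E : N) : N := ⟨Nat.sub P.lo E.hi, Nat.add P.hi E.hi⟩
def e8 (A4 : N) : N := N.mul (cst 9 322560) (N.sq A4)
def sh' (A A2 A4 : N) : N := pm (N.mul A (N.add one (N.add (A2.dv 6) (N.add (A4.dv 120)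
  ((N.mul A2 A4).dv 5040))))) (e8 A4)
def ch' (A2 A4 : N) : N := pm (N.add one (N.add (A2.dv 2) (N.add (A4.dv 24)
  ((N.mul A2 A4).dv 720)))) (e8 A4)

def nw (a u : ℕ) : ℕ := Nat.succ (Nat.div (Nat.add u (Nat.div (Nat.mul a 1073741824) u)) 2)
def ru' (a u : ℕ) : ℕ :=
  bif Nat.ble (Nat.mul a 1073741824) (Nat.mul u u) then u else Nat.add a 1073741824
def ru (a : ℕ) : ℕ := ru' a (nw a (nw a (nw a (nw a 1073741824))))
def rl (a : ℕ) : ℕ := Nat.div (Nat.mul a 1073741824) (ru a)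
/-- square root -/
def rt (A : N) : N := ⟨rl A.lo, ru A.hi⟩

/-- upper bound for `arsinh` at a point -/
def as' (A A2 : N) : N := N.sub (N.add A (N.mul (cst 3 40) (N.mul A A2.sq))) ((N.mul A A2).dv 6)
def as (A : N) : N := as' ⟨A.hi, A.hi⟩ (N.sq ⟨A.hi, A.hi⟩)

section

variable {x y : ℝ} {A B : N}

theorem mem_pm {p e : ℝ} {P E : N} (hP : Mem p P) (hE : Mem e E) (y0 : 0 ≤ y) (h1 : p - e ≤ y)
    (h2 : y ≤ p + e) : Mem y (pm P E) := by
  constructor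
  · refine nsub_le ?_ (by positivity)
    linarith [hP.1, hE.2]
  · show _ ≤ ((Nat.add P.hi E.hi : ℕ) : ℝ)
    rw [cast_add']
    linarith [hP.2, hE.2]

theorem exp8 {x : ℝ} (h0 : 0 ≤ x) (h1 : x ≤ 1) :
    |Real.exp x - (1 + x + x ^ 2 / 2 + x ^ 3 / 6 + x ^ 4 / 24 + x ^ 5 / 120 + x ^ 6 / 720 +
      x ^ 7 / 5040)| ≤ 9 / 322560 * x ^ 8 ∧
    |Real.exp (-x) - (1 - x + x ^ 2 / 2 - x ^ 3 / 6 + x ^ 4 / 24 - x ^ 5 / 120 + x ^ 6 / 720 -
      x ^ 7 / 5040)| ≤ 9 / 322560 * x ^ 8 := by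
  have e1 := Real.exp_bound (x := x) (by rw [abs_of_nonneg h0]; exact h1) (n := 8) (by norm_num)
  have e2 := Real.exp_bound (x := -x) (by rw [abs_neg, abs_of_nonneg h0]; exact h1) (n := 8)
    (by norm_num)
  rw [abs_neg] at e2
  rw [abs_of_nonneg h0] at e1 e2
  norm_num [Finset.sum_range_succ, Nat.factorial] at e1 e2
  constructor
  · refine le_trans (le_of_eq ?_) (e1.trans (le_of_eq (by ring)))
    congr 1
  · refine le_trans (le_of_eq ?_) (e2.trans (le_of_eq (by ring)))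
    congr 1
    ring

theorem mem_sh (h : Mem x A) (x1 : x ≤ 1) : Mem (Real.sinh x) (sh' A A.sq A.sq.sq) := by
  have x0 := h.nonneg
  obtain ⟨e1, e2⟩ := exp8 x0 x1
  rw [abs_le] at e1 e2
  have m4 := h.sq.sq
  have hP : Mem (x * (1 + (x ^ 2 / (6 : ℕ) + ((x ^ 2) ^ 2 / (120 : ℕ) +
      x ^ 2 * (x ^ 2) ^ 2 / (5040 : ℕ))))) _ :=
    h.mul (mem_one.add ((h.sq.dv (by norm_num)).add ((m4.dv (by norm_num)).add
      ((h.sq.mul m4).dv (by norm_num)))))
  have hE : Mem (9 / 322560 * ((x ^ 2) ^ 2) ^ 2) (e8 A.sq.sq) :=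
    (mem_nat (by norm_num) (by norm_num)).mul m4.sq
  refine mem_pm hP hE (Real.sinh_nonneg_iff.2 x0) ?_ ?_
  · rw [Real.sinh_eq]
    push_cast
    nlinarith [e1.1, e2.2]
  · rw [Real.sinh_eq]
    push_cast
    nlinarith [e1.2, e2.1]

theorem mem_ch (h : Mem x A) (x1 : x ≤ 1) : Mem (Real.cosh x) (ch' A.sq A.sq.sq) := by
  have x0 := h.nonneg
  obtain ⟨e1, e2⟩ := exp8 x0 x1
  rw [abs_le] at e1 e2
  have m4 := h.sq.sq
  have hP : Mem (1 + (x ^ 2 / (2 : ℕ) + ((x ^ 2) ^ 2 / (24 : ℕ) +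
      x ^ 2 * (x ^ 2) ^ 2 / (720 : ℕ)))) _ :=
    mem_one.add ((h.sq.dv (by norm_num)).add ((m4.dv (by norm_num)).add
      ((h.sq.mul m4).dv (by norm_num))))
  have hE : Mem (9 / 322560 * ((x ^ 2) ^ 2) ^ 2) (e8 A.sq.sq) :=
    (mem_nat (by norm_num) (by norm_num)).mul m4.sq
  refine mem_pm hP hE (Real.cosh_pos x).le ?_ ?_
  · rw [Real.cosh_eq]
    push_cast
    nlinarith [e1.1, e2.1]
  · rw [Real.cosh_eq]
    push_cast
    nlinarith [e1.2, e2.2]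

theorem le_ru {a : ℕ} {y : ℝ} (y0 : 0 ≤ y) (h : y * 1073741824 ≤ a) :
    √y * 1073741824 ≤ (ru a : ℝ) := by
  unfold ru
  generalize nw a (nw a (nw a (nw a 1073741824))) = u
  unfold ru'
  rcases hu : Nat.ble (Nat.mul a 1073741824) (Nat.mul u u) with _ | _
  · rw [cond_false, cast_add']
    have h1 : √y ≤ 1 + y := by
      rw [Real.sqrt_le_left (by linarith)]
      nlinarith
    push_cast
    nlinarith
  · rw [cond_true]
    rw [Nat.ble_eq] at hu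
    have h1 : ((Nat.mul a 1073741824 : ℕ) : ℝ) ≤ ((Nat.mul u u : ℕ) : ℝ) := by exact_mod_cast hu
    rw [cast_mul', cast_mul'] at h1
    push_cast at h1
    have h2 : (√y * 1073741824) ^ 2 ≤ (u : ℝ) ^ 2 := by
      rw [mul_pow, Real.sq_sqrt y0]
      nlinarith
    exact le_of_sq_le_sq h2 u.cast_nonneg
where
  le_of_sq_le_sq {a b : ℝ} (h : a ^ 2 ≤ b ^ 2) (hb : 0 ≤ b) : a ≤ b := by
    by_contra hc
    push Not at hc
    nlinarith

theorem rl_le {a : ℕ} {y : ℝ} (h : (a : ℝ) ≤ y * 1073741824) :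
    (rl a : ℝ) ≤ √y * 1073741824 := by
  have ha : (0 : ℝ) ≤ a := a.cast_nonneg
  have h1 := le_ru (a := a) (y := a / 1073741824) (by positivity) (by
    rw [div_mul_cancel₀ _ (by norm_num)])
  have h2 : √((a : ℝ) / 1073741824) ≤ √y := Real.sqrt_le_sqrt (by
    rw [div_le_iff₀ (by norm_num)]; exact h)
  have h3 := nat_div_le (Nat.mul a 1073741824) (ru a)
  rw [cast_mul'] at h3
  have h4 := Real.sqrt_nonneg ((a : ℝ) / 1073741824)
  have h5 := Real.sq_sqrt (show (0 : ℝ) ≤ (a : ℝ) / 1073741824 by positivity)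
  show ((Nat.div (Nat.mul a 1073741824) (ru a) : ℕ) : ℝ) ≤ _
  refine h3.trans ?_
  rcases (Nat.cast_nonneg (α := ℝ) (ru a)).eq_or_lt with e | e
  · rw [← e, div_zero]
    exact mul_nonneg (Real.sqrt_nonneg _) (by norm_num)
  · rw [div_le_iff₀ e]
    have h6 : (a : ℝ) * 1073741824 =
        (√((a : ℝ) / 1073741824) * 1073741824) * (√((a : ℝ) / 1073741824) * 1073741824) := by
      have : (√((a : ℝ) / 1073741824) * 1073741824) * (√((a : ℝ) / 1073741824) * 1073741824) =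
          √((a : ℝ) / 1073741824) ^ 2 * 1073741824 ^ 2 := by ring
      rw [this, h5]
      ring
    push_cast
    rw [h6]
    exact mul_le_mul (mul_le_mul_of_nonneg_right h2 (by norm_num)) h1 (by positivity)
      (mul_nonneg (Real.sqrt_nonneg _) (by norm_num))

theorem mem_rt (h : Mem y A) : Mem √y (rt A) := ⟨rl_le h.1, le_ru h.nonneg h.2⟩

/-- `η ≤ sinh η - sinh³ η / 6 + (3/40) sinh⁵ η` -/
theorem le_as {η : ℝ} (h : 0 ≤ η) :
    η ≤ Real.sinh η + 3 / 40 * (Real.sinh η * (Real.sinh η ^ 2) ^ 2)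
      - Real.sinh η * Real.sinh η ^ 2 / 6 := by
  have h := le_of_der (f := fun u : ℝ => Real.sinh u + 3 / 40 * Real.sinh u ^ 5 -
      Real.sinh u ^ 3 / 6 - u)
    (f' := fun u => Real.cosh u * (1 + 3 / 8 * Real.sinh u ^ 4 - Real.sinh u ^ 2 / 2) - 1)
    (a := 0) (x := η) ?_ ?_ h
  · simp only [Real.sinh_zero] at h
    norm_num at h
    nlinarith
  · intro x hx
    have h1 := Real.hasDerivAt_sinh x
    refine (((h1.add ((h1.pow 5).const_mul (3 / 40))).sub ((h1.pow 3).div_const 6)).sub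
      (hasDerivAt_id' x)).congr_deriv ?_
    norm_num
    ring
  · intro x hx
    have hc := Real.cosh_sq x
    have hc0 := Real.cosh_pos x
    obtain ⟨w, hw⟩ : ∃ w, w = Real.sinh x ^ 2 := ⟨_, rfl⟩
    have w0 : 0 ≤ w := by rw [hw]; positivity
    have e4 : Real.sinh x ^ 4 = w ^ 2 := by rw [hw]; ring
    rw [e4, ← hw]
    rw [← hw] at hc
    have hp : 0 < 1 + 3 / 8 * w ^ 2 - w / 2 := by nlinarith [sq_nonneg (w - 2 / 3)]
    have hm : 1 ≤ (Real.cosh x * (1 + 3 / 8 * w ^ 2 - w / 2)) ^ 2 := by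
      rw [mul_pow, hc]
      have : (w + 1) * (1 + 3 / 8 * w ^ 2 - w / 2) ^ 2 = 1 + w ^ 3 * (5 / 8 - 15 / 64 * w +
        9 / 64 * w ^ 2) := by ring
      rw [this]
      have : 0 ≤ 5 / 8 - 15 / 64 * w + 9 / 64 * w ^ 2 := by nlinarith [sq_nonneg (w - 5 / 6)]
      have := mul_nonneg (pow_nonneg w0 3) this
      linarith
    have hm0 := mul_pos hc0 hp
    by_contra hcon
    push Not at hcon
    nlinarith

/-- an upper bound for `arsinh`. -/
theorem le_asN {η s : ℝ} (h : Mem s A) (hη : Real.sinh η ≤ s) :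
    ∃ u : ℝ, Mem u (as A) ∧ η ≤ u := by
  have hA := h.2
  obtain ⟨v, hv⟩ : ∃ v : ℝ, v = (A.hi : ℝ) / 1073741824 := ⟨_, rfl⟩
  have mv : Mem v (⟨A.hi, A.hi⟩ : N) := by
    rw [hv]
    constructor <;> rw [div_mul_cancel₀ _ (by norm_num)]
  have v0 := mv.nonneg
  have hsv : s ≤ v := by
    rw [hv, le_div_iff₀ (by norm_num)]
    exact hA
  obtain ⟨ζ, hζ⟩ : ∃ ζ, ζ = Real.arsinh v := ⟨_, rfl⟩
  have hζ' : Real.sinh ζ = v := by rw [hζ]; exact Real.sinh_arsinh v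
  have hζ0 : 0 ≤ ζ := Real.sinh_nonneg_iff.1 (by rw [hζ']; exact v0)
  have e1 : η ≤ ζ := Real.sinh_le_sinh.1 (by rw [hζ']; linarith)
  have e2 := le_as hζ0
  rw [hζ'] at e2
  have hsub : v * v ^ 2 / (6 : ℕ) ≤ v + 3 / 40 * (v * (v ^ 2) ^ 2) := by
    push_cast
    nlinarith [mul_nonneg v0 (sq_nonneg (v ^ 2 - 10 / 9)), mul_nonneg v0 (sq_nonneg (v ^ 2))]
  have m1 : Mem (v + 3 / 40 * (v * (v ^ 2) ^ 2) - v * v ^ 2 / (6 : ℕ)) (as A) :=
    (mv.add ((mem_nat (by norm_num) (by norm_num)).mul (mv.mul mv.sq.sq))).sub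
      ((mv.mul mv.sq).dv (by norm_num)) hsub
  refine ⟨_, m1, ?_⟩
  push_cast
  linarith

end

/-! ### The region -/

def r4 (obj : N → N → N → N → N → Bool) (kl fl : Bool) (κ A0 B0 : N) (x I S s c q P Bm Bp K : N) :
    Bool :=
  one.lt K || (kl && K.lt κ) ||
  (fl && (N.mul (N.mul (cst 1 8) (N.sub q P)) (N.sub Bp Bm).sq).lt
    (N.mul (N.mul A0 K) (N.sub B0 K))) || obj x I S s c

def r3 (obj : N → N → N → N → N → Bool) (kl fl : Bool) (κ A0 B0 : N) (x I S s c q q2 P : N) :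
    Bool :=
  (N.add q2 (N.add (N.mul two P) q)).lt
    (N.add one (N.add (N.mul (cst 4 1) P.sq) (N.mul two (N.mul q P)))) ||
  r4 obj kl fl κ A0 B0 x I S s c q P
    (N.add one (N.add (N.mul (cst 4 1) P.sq) (N.mul two (N.mul q P))))
    (N.add q2 (N.add (N.mul two P) q))
    (N.mul (N.mul (cst 1 4) q) (N.sub (N.add (N.mul (cst 4 1) P.sq) (N.add q2.sq one))
      (N.add (N.mul (N.mul two P) (N.add q2 one)) q2)))

def r2 (obj : N → N → N → N → N → Bool) (kl fl : Bool) (κ A0 B0 : N) (x I S s c q2 : N) : Bool :=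
  r3 obj kl fl κ A0 B0 x I S s c (rt q2) q2 (N.mul (N.mul (cst 1 2) q2) (N.mul S s))

def r1 (obj : N → N → N → N → N → Bool) (kl fl : Bool) (κ A0 B0 : N) (x I S s c2 : N) : Bool :=
  c2.ps && (N.add S.sq c2).ps && (rt c2).ps &&
  r2 obj kl fl κ A0 B0 x I S s (rt c2) (N.mul (cst 4 1) (N.add S.sq c2).inv)

def r0 (obj : N → N → N → N → N → Bool) (kl fl : Bool) (κ A0 B0 : N) (x I S s : N) : Bool :=
  r1 obj kl fl κ A0 B0 x I S s (N.sub one s.sq)

def rT' (obj : N → N → N → N → N → Bool) (kl fl : Bool) (κ A0 B0 : N) (x I x2 x4 I2 I4 : N) :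
    Bool :=
  (ch' I2 I4).ps && r0 obj kl fl κ A0 B0 x I (sh' x x2 x4)
    (N.mul (N.mul (sh' I I2 I4) (ch' I2 I4).inv) (ch' x2 x4))

def rT (obj : N → N → N → N → N → Bool) (kl fl : Bool) (κ A0 B0 : N) (x I _C _D : N) : Bool :=
  rT' obj kl fl κ A0 B0 x I x.sq x.sq.sq I.sq I.sq.sq

/-- The facts. -/
structure FC (kl fl : Bool) (κ A0 B0 x I S s c q P K : ℝ) : Prop where
  x0 : 0 ≤ x
  x1 : x ≤ 1
  I0 : 0 ≤ I
  I1 : I ≤ 1
  hS : S = Real.sinh x
  hs : s = Real.sinh I * (Real.cosh I)⁻¹ * Real.cosh x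
  s1 : s ^ 2 ≤ 1
  c0 : 0 ≤ c
  hc : c ^ 2 = 1 - s ^ 2
  hK : 4 * (S ^ 2 + (1 - s ^ 2))⁻¹ = q ^ 2
  q0 : 0 < q
  Pq : P ≤ q
  hP : P = 1 / 2 * q ^ 2 * (S * s)
  hB : 1 + (4 * P ^ 2 + 2 * (q * P)) ≤ q ^ 2 + (2 * P + q)
  K0 : 0 ≤ K
  K1 : K ≤ 1
  B0K : K ≤ B0
  hK4 : K = 1 / 4 * q * ((4 * P ^ 2 + ((q ^ 2) ^ 2 + 1)) - (2 * P * (q ^ 2 + 1) + q ^ 2))
  hκ : kl = true → κ ≤ K
  hfl : fl = true → A0 * K * (B0 - K) ≤
    1 / 8 * (q - P) * (q ^ 2 + (2 * P + q) - (1 + (4 * P ^ 2 + 2 * (q * P)))) ^ 2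

theorem FC.rT {obj : N → N → N → N → N → Bool} {kl fl : Bool} {κ A0 B0 x I S s c q P K : ℝ}
    (H : FC kl fl κ A0 B0 x I S s c q P K) {Q : Prop}
    {κN A0N B0N xN IN CN DN : N} (hκ : Mem κ κN) (hA : Mem A0 A0N) (hB : Mem B0 B0N)
    (hx : Mem x xN) (hI : Mem I IN)
    (ho : ∀ SN sN cN : N, Mem S SN → Mem s sN → Mem c cN → cN.ps = true →
      obj xN IN SN sN cN = true → Q)
    (h : rT obj kl fl κN A0N B0N xN IN CN DN = true) : Q := by
  unfold CB.rT CB.rT' at h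
  rw [Bool.and_eq_true] at h
  obtain ⟨h1, h⟩ := h
  have mS := mem_sh hx H.x1
  rw [← H.hS] at mS
  have ms := ((mem_sh hI H.I1).mul ((mem_ch hI H.I1).inv h1)).mul (mem_ch hx H.x1)
  rw [← H.hs] at ms
  revert h
  generalize sh' xN xN.sq xN.sq.sq = SN at mS
  generalize N.mul (N.mul (sh' IN IN.sq IN.sq.sq) (ch' IN.sq IN.sq.sq).inv)
    (ch' xN.sq xN.sq.sq) = sN at ms
  intro h
  unfold r0 at h
  have mc2 := mem_one.sub ms.sq H.s1
  rw [← H.hc] at mc2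
  have mc := mem_rt mc2
  rw [Real.sqrt_sq H.c0] at mc
  revert h
  generalize N.sub one sN.sq = c2N at mc2 mc
  intro h
  unfold r1 at h
  rw [Bool.and_eq_true, Bool.and_eq_true, Bool.and_eq_true] at h
  obtain ⟨⟨⟨h2, h3⟩, h4⟩, h⟩ := h
  have m4 : Mem 4 (cst 4 1) := mem_nat (by norm_num) (by norm_num)
  have m2 := mem_two
  have mq2 := m4.mul ((mS.sq.add mc2).inv h3)
  rw [H.hc, H.hK] at mq2
  revert h
  generalize N.mul (cst 4 1) (N.add SN.sq c2N).inv = q2N at mq2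
  generalize rt c2N = cN at mc h4
  intro h
  unfold r2 at h
  have mq := mem_rt mq2
  rw [Real.sqrt_sq H.q0.le] at mq
  have mh : Mem (1 / 2 : ℝ) (cst 1 2) := mem_nat (by norm_num) (by norm_num)
  have mP := (mh.mul mq2).mul (mS.mul ms)
  rw [← H.hP] at mP
  revert h
  generalize N.mul (N.mul (cst 1 2) q2N) (N.mul SN sN) = PN at mP
  generalize rt q2N = qN at mq
  intro h
  unfold r3 at h
  rw [Bool.or_eq_true] at h
  have mBm := mem_one.add ((m4.mul mP.sq).add (m2.mul (mq.mul mP)))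
  have mBp := mq2.add ((m2.mul mP).add mq)
  rcases h with h | h
  · have := mBp.lt mBm h
    linarith [H.hB]
  have m14 : Mem (1 / 4 : ℝ) (cst 1 4) := mem_nat (by norm_num) (by norm_num)
  have m18 : Mem (1 / 8 : ℝ) (cst 1 8) := mem_nat (by norm_num) (by norm_num)
  have hle : 2 * P * (q ^ 2 + 1) + q ^ 2 ≤ 4 * P ^ 2 + ((q ^ 2) ^ 2 + 1) := by
    have e1 := H.K0
    rw [H.hK4] at e1
    have q0 := H.q0
    by_contra hc
    push Not at hc
    nlinarith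
  have mK := (m14.mul mq).mul (((m4.mul mP.sq).add (mq2.sq.add mem_one)).sub
    (((m2.mul mP).mul (mq2.add mem_one)).add mq2) hle)
  rw [← H.hK4] at mK
  revert h
  generalize N.mul (N.mul (cst 1 4) qN) (N.sub (N.add (N.mul (cst 4 1) PN.sq) (N.add q2N.sq one))
      (N.add (N.mul (N.mul two PN) (N.add q2N one)) q2N)) = KN at mK
  generalize N.add one (N.add (N.mul (cst 4 1) PN.sq) (N.mul two (N.mul qN PN))) = BmN at mBm
  generalize N.add q2N (N.add (N.mul two PN) qN) = BpN at mBp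
  intro h
  unfold r4 at h
  rw [Bool.or_eq_true, Bool.or_eq_true, Bool.or_eq_true, Bool.and_eq_true, Bool.and_eq_true] at h
  rcases h with ((h | ⟨h5, h⟩) | ⟨h5, h⟩) | h
  · have := mem_one.lt mK h
    linarith [H.K1]
  · have := mK.lt hκ h
    linarith [H.hκ h5]
  · have mv := (m18.mul (mq.sub mP H.Pq)).mul (mBp.sub mBm H.hB).sq
    have mt := (hA.mul mK).mul (hB.sub mK H.B0K)
    have := mv.lt mt h
    linarith [H.hfl h5]
  · exact ho _ _ _ mS ms mc h4 h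

/-! ### (E3) -/

/-- the test for (E3) -/
def e3b (G b e : N) : Bool := (N.mul b G).le e
def e3a (ρ e x I t1 t0 X : N) : Bool :=
  e3b (N.sub (t1.dv 5) (N.mul (cst 62388 100000) (N.mul (N.sub ρ ⟨0, atanUp X.hi⟩) (N.sub I t0))))
    (N.sub (cst 5 2) (N.mul x (N.mul two I).inv)) e
def e3' (ρ cρ e x I τ X : N) : Bool :=
  e3a ρ e x I (as (N.mul τ (cst 30902 100000))) (as (N.mul τ cρ)) X
def e3 (ρ cρ e x I S s c : N) : Bool :=
  (N.mul two I).ps && e3' ρ cρ e x I (N.mul s c.inv) (N.mul S c.inv)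

theorem e3_sound {x I S s c τ X R b ρ0 cρ e ρ η0 η1 : ℝ} {xN IN SN sN cN ρN cρN eN : N}
    (hx : Mem x xN) (hI : Mem I IN) (hS : Mem S SN) (hs : Mem s sN) (hc : Mem c cN)
    (hcp : cN.ps = true) (hρ0 : Mem ρ0 ρN) (hcρ : Mem cρ cρN) (he : Mem e eN)
    (hτ : τ = s * c⁻¹) (hX : X = S * c⁻¹) (hR : R = Real.arctan X) (I0 : 0 < I)
    (hb : 2 * I * b = 5 * I - x) (b0 : 0 ≤ b) (η0I : η0 ≤ I)
    (h1 : Real.sinh η1 = τ * Real.cos (2 / 5 * Real.pi))
    (hc5 : Real.cos (2 / 5 * Real.pi) ≤ 30902 / 100000)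
    (h0 : Real.sinh η0 = τ * Real.cos ρ) (hρ : ρ0 ≤ ρ) (hρR : R ≤ ρ) (hcr : Real.cos ρ ≤ cρ)
    (h : e3 ρN cρN eN xN IN SN sN cN = true) :
    b * (η1 / 5 - 49 / 50 * (2 / Real.pi) * ((ρ - R) * (I - η0))) ≤ e := by
  have hpi := Real.pi_gt_d6
  have hpi2 := Real.pi_lt_d6
  unfold e3 at h
  rw [Bool.and_eq_true] at h
  obtain ⟨h2, h⟩ := h
  have mτ := hs.mul (hc.inv hcp)
  have mX := hS.mul (hc.inv hcp)
  rw [← hτ] at mτ
  rw [← hX] at mX
  have τ0 := mτ.nonneg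
  have X0 := mX.nonneg
  have R0 : 0 ≤ R := by rw [hR]; exact Real.arctan_nonneg.2 X0
  unfold e3' at h
  obtain ⟨u1, mu1, hu1⟩ := le_asN (mτ.mul (mem_nat (n := 30902) (d := 100000)
    (x := 30902 / 100000) (by norm_num) (by norm_num))) (η := η1) (by
      rw [h1]; exact mul_le_mul_of_nonneg_left hc5 τ0)
  obtain ⟨u0, mu0, hu0⟩ := le_asN (mτ.mul hcρ) (η := η0) (by
      rw [h0]; exact mul_le_mul_of_nonneg_left hcr τ0)
  have mR : Mem R (⟨0, atanUp (N.mul SN cN.inv).hi⟩ : N) := by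
    constructor
    · push_cast
      exact mul_nonneg R0 (by norm_num)
    · refine le_trans ?_ (le_atanUp _)
      rw [hR]
      refine mul_le_mul_of_nonneg_right (Real.arctan_strictMono.monotone ?_) (by norm_num)
      rw [le_div_iff₀ (by norm_num)]
      exact mX.2
  unfold e3a at h
  revert h
  generalize (⟨0, atanUp (N.mul SN cN.inv).hi⟩ : N) = RN at mR
  generalize as (N.mul (N.mul sN cN.inv) (cst 30902 100000)) = t1N at mu1
  generalize as (N.mul (N.mul sN cN.inv) cρN) = t0N at mu0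
  intro h
  have mκ : Mem (62388 / 100000 : ℝ) (cst 62388 100000) := mem_nat (by norm_num) (by norm_num)
  have mG := mem_max (mu1.dv (n := 5) (by norm_num)) (mκ.mul ((mem_max hρ0 mR).mul (mem_max hI mu0)))
  have m52 : Mem (5 / 2 : ℝ) (cst 5 2) := mem_nat (by norm_num) (by norm_num)
  have hb2 : b = 5 / 2 - x * (2 * I)⁻¹ := by
    rw [← div_eq_mul_inv]
    field_simp
    linarith
  have mb := m52.sub (hx.mul ((mem_two.mul hI).inv h2)) (by linarith)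
  rw [← hb2] at mb
  unfold e3b at h
  have k := (mb.mul mG).le he h
  obtain ⟨dr, hdr⟩ : ∃ dr, dr = max 0 (ρ0 - R) := ⟨_, rfl⟩
  obtain ⟨dI, hdI⟩ : ∃ dI, dI = max 0 (I - u0) := ⟨_, rfl⟩
  rw [← hdr, ← hdI] at k
  have dr0 : 0 ≤ dr := by rw [hdr]; exact le_max_left _ _
  have dI0 : 0 ≤ dI := by rw [hdI]; exact le_max_left _ _
  have dr1 : dr ≤ ρ - R := by rw [hdr]; exact max_le (by linarith) (by linarith)
  have dI1 : dI ≤ I - η0 := by rw [hdI]; exact max_le (by linarith) (by linarith)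
  have k4 : 62388 / 100000 ≤ 49 / 50 * (2 / Real.pi) := by
    have : 62388 / 196000 ≤ 1 / Real.pi := by
      rw [le_div_iff₀ (by linarith)]; linarith
    have e1 : 2 / Real.pi = 2 * (1 / Real.pi) := by ring
    rw [e1]; linarith
  have k5 := mul_le_mul dr1 dI1 dI0 (by linarith)
  have k6 := mul_le_mul k4 k5 (mul_nonneg dr0 dI0) (by linarith)
  have k7 : η1 / 5 - 49 / 50 * (2 / Real.pi) * ((ρ - R) * (I - η0)) ≤
      max 0 (u1 / (5 : ℕ) - 62388 / 100000 * (dr * dI)) := by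
    refine le_trans ?_ (le_max_right _ _)
    push_cast
    linarith
  exact (mul_le_mul_of_nonneg_left k7 b0).trans k

end Pool.Agent.S3.Cl.CB
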