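import Pool.Agent.S3.Cl.CB

/-!
# Stage 3: branch and bound at an inner `2` next to a closed end: (E3), evaluation
-/

set_option autoImplicit false

namespace Pool.Agent.S3.Cl.CB

open NI E.J6 J7

/-- The test; `ρ`, `c` in units of `10 ^ (-5)`, `e` in units of `10 ^ (-3)`. -/
def cert (fl : Bool) (ρ c e : ℕ) : Bool :=
  bb (rT (e3 (cst ρ 100000) (cst c 100000) (cst e 1000)) true fl (cst 28 100) (cst 611 10000)
    (cst 107 100)) (cyc 13 [0, 1]) (rng 780 965 1000) (rng 300 492 1000) (rng 0 0 1) (rng 0 0 1)

theorem c333 : cert false 104615 50091 62 = true := by decide +kernel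
theorem c338 : cert false 106185 48726 60 = true := by decide +kernel
theorem c346 : cert false 108699 46516 55 = true := by decide +kernel
theorem c351 : cert false 110269 45120 52 = true := by decide +kernel
theorem c372 : cert false 116867 39138 36 = true := by decide +kernel
theorem c375 : cert false 117809 38270 34 = true := by decide +kernel
theorem c333' : cert true 104615 50091 55 = true := by decide +kernel

end Pool.Agent.S3.Cl.CB
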