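import Pool.Agent.S3.Cl.J7T

/-!
# Stage 3: branch and bound at a vertex with at least three (four) twists, evaluation
-/

set_option autoImplicit false

namespace Pool.Agent.S3.Cl.J7

open NI E.J6

/-- The test with parameters in thousandths. -/
def cert (b : Bool) (f B tl tu : ℕ) : Bool :=
  bb (tst b (cst f 1000) (cst B 1000) (cst 51 100) (cst tl 1000) (cst tu 1000))
    (cyc 13 [1, 0, 2]) (rng 30 160 100) (rng 15 55 100) (rng 0 90 100) (rng 0 0 1)

theorem c3_a : cert true 359 850 250 370 = true := by decide +kernel
theorem c3_b : cert true 400 1000 250 370 = true := by decide +kernel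
theorem c4_a : cert false 370 850 103 160 = true := by decide +kernel
theorem c4_b : cert false 400 1000 103 160 = true := by decide +kernel
theorem c4_c : cert false 359 689 100 160 = true := by decide +kernel

end Pool.Agent.S3.Cl.J7
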