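import Pool.Agent.S3.Cl.J7T
import Pool.Agent.S3.E.J6Z

/-!
# Stage 3: the angle of a vertex with at least three twists next to an inner vertex with two twists
-/

set_option autoImplicit false

namespace Pool.Agent.S3.Cl

open Complex E

namespace J7

open E.J6

theorem tn_eq (b : Bool) (I : ℝ) :
    tnr b (Real.tanh I) = Real.tanh (bif b then 3 * I else 4 * I) := by
  have e2 : Real.tanh (2 * I) = (Real.tanh I + Real.tanh I) * (1 + Real.tanh I * Real.tanh I)⁻¹ := by
    rw [two_mul, E.J6.th_add]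
  obtain ⟨g, hg⟩ : ∃ g, g = Real.tanh I := ⟨_, rfl⟩
  rcases b with _ | _
  · rw [cond_false, show 4 * I = 2 * I + 2 * I by ring, E.J6.th_add, e2, ← hg]
    unfold tnr
    rw [cond_false]
    have a1 : (0 : ℝ) < 1 + g * g := by linarith [mul_self_nonneg g]
    have a2 : (0 : ℝ) < 1 + (g + g) * (1 + g * g)⁻¹ * ((g + g) * (1 + g * g)⁻¹) := by
      linarith [mul_self_nonneg ((g + g) * (1 + g * g)⁻¹)]
    have a3 : (0 : ℝ) < 1 + (6 * g ^ 2 + (g ^ 2) ^ 2) := by positivity
    have a4 : (0 : ℝ) < (1 + g ^ 2) ^ 2 + 4 * g ^ 2 := by positivity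
    field_simp
    ring
  · rw [cond_true, show 3 * I = 2 * I + I by ring, E.J6.th_add, e2, ← hg]
    unfold tnr
    rw [cond_true]
    have a1 : (0 : ℝ) < 1 + g * g := by linarith [mul_self_nonneg g]
    have a3 : (0 : ℝ) < 1 + 3 * g ^ 2 := by positivity
    have a2 : (1 + (g + g) * (1 + g * g)⁻¹ * g) = (1 + 3 * g ^ 2) * (1 + g * g)⁻¹ := by
      field_simp
      ring
    rw [a2]
    field_simp
    ring

/-- The sum of the two angles. -/
theorem sum_tan (b : Bool) {a R r₁ r₂ : ℝ} (R0 : 0 < R) (R1 : R < Real.pi / 2)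
    (ha : bif b then 3 ≤ a else 4 ≤ a) (h1 : 0 ≤ r₁) (h1' : r₁ < Real.pi / 2) (h2 : 0 ≤ r₂)
    (h2' : r₂ < Real.pi / 2) (hs : a * R + r₁ + r₂ = Real.pi) :
    (Real.tan r₁ + Real.tan r₂) * dnr b (Real.tan R) ≤
      nur b (Real.tan R) * (1 - Real.tan r₁ * Real.tan r₂) := by
  have c0 : 0 < Real.cos R := GeoX_cos_pos R0 R1
  have c1 : 0 < Real.cos r₁ := Real.cos_pos_of_mem_Ioo ⟨by linarith, h1'⟩
  have c2 : 0 < Real.cos r₂ := Real.cos_pos_of_mem_Ioo ⟨by linarith, h2'⟩
  have t0 := Real.tan_mul_cos c0.ne'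
  have t1 := Real.tan_mul_cos c1.ne'
  have t2 := Real.tan_mul_cos c2.ne'
  have sc := Real.sin_sq_add_cos_sq R
  obtain ⟨X, hX⟩ : ∃ X, X = Real.tan R := ⟨_, rfl⟩
  obtain ⟨V, hV⟩ : ∃ V, V = Real.tan r₁ := ⟨_, rfl⟩
  obtain ⟨W, hW⟩ : ∃ W, W = Real.tan r₂ := ⟨_, rfl⟩
  rw [← hX, ← hV, ← hW]
  rw [← hX] at t0
  rw [← hV] at t1
  rw [← hW] at t2
  have e1 : Real.sin (r₁ + r₂) = Real.cos r₁ * Real.cos r₂ * (V + W) := by
    rw [Real.sin_add, ← t1, ← t2]; ring
  have e2 : Real.cos (r₁ + r₂) = Real.cos r₁ * Real.cos r₂ * (1 - V * W) := by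
    rw [Real.cos_add, ← t1, ← t2]; ring
  have sc' : Real.cos R ^ 2 * (1 + X ^ 2) = 1 := by
    rw [← t0] at sc
    linear_combination sc
  rcases b with _ | _
  · rw [cond_false] at ha
    have e3 : Real.sin (4 * R) = Real.cos R ^ 4 * (4 * X * (1 - X ^ 2)) := by
      rw [show 4 * R = 2 * (2 * R) by ring, Real.sin_two_mul, Real.sin_two_mul, Real.cos_two_mul,
        ← t0]
      linear_combination (4 * X * Real.cos R ^ 2) * sc'
    have e4 : Real.cos (4 * R) = -(Real.cos R ^ 4 * (6 * X ^ 2 - (1 + (X ^ 2) ^ 2))) := by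
      rw [show 4 * R = 2 * (2 * R) by ring, Real.cos_two_mul, Real.cos_two_mul]
      have : Real.cos R ^ 2 * X ^ 2 = 1 - Real.cos R ^ 2 := by linarith
      have e5 : Real.cos R ^ 4 * (6 * X ^ 2 - (1 + (X ^ 2) ^ 2)) =
        6 * Real.cos R ^ 2 * (Real.cos R ^ 2 * X ^ 2) - Real.cos R ^ 4 -
          (Real.cos R ^ 2 * X ^ 2) ^ 2 := by ring
      rw [e5, this]
      ring
    have e6 : 0 ≤ Real.sin ((a - 4) * R) :=
      Real.sin_nonneg_of_nonneg_of_le_pi (mul_nonneg (by linarith) R0.le) (by linarith)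
    rw [show (a - 4) * R = Real.pi - (4 * R + (r₁ + r₂)) by linarith, Real.sin_pi_sub,
      Real.sin_add, e1, e2, e3, e4] at e6
    unfold dnr nur
    rw [cond_false, cond_false]
    have k : 0 < Real.cos r₁ * Real.cos r₂ * Real.cos R ^ 4 := by positivity
    by_contra hc
    push Not at hc
    have := mul_lt_mul_of_pos_left hc k
    linarith only [e6, this]
  · rw [cond_true] at ha
    have e3 : Real.sin (3 * R) = Real.cos R ^ 3 * (X * (3 - X ^ 2)) := by
      rw [Real.sin_three_mul, ← t0]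
      linear_combination (-(3 * X * Real.cos R)) * sc'
    have e4 : Real.cos (3 * R) = -(Real.cos R ^ 3 * (3 * X ^ 2 - 1)) := by
      rw [Real.cos_three_mul]
      linear_combination (3 * Real.cos R) * sc'
    have e6 : 0 ≤ Real.sin ((a - 3) * R) :=
      Real.sin_nonneg_of_nonneg_of_le_pi (mul_nonneg (by linarith) R0.le) (by linarith)
    rw [show (a - 3) * R = Real.pi - (3 * R + (r₁ + r₂)) by linarith, Real.sin_pi_sub,
      Real.sin_add, e1, e2, e3, e4] at e6
    unfold dnr nur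
    rw [cond_true, cond_true]
    have k : 0 < Real.cos r₁ * Real.cos r₂ * Real.cos R ^ 3 := by positivity
    by_contra hc
    push Not at hc
    have := mul_lt_mul_of_pos_left hc k
    linarith only [e6, this]

/-- The norm of a slot. -/
theorem slot_sum {q : ℂ} (h : 0 < Real.cos q.im) :
    Real.sinh q.re ^ 2 + Real.sin q.im ^ 2 = sHr (Real.tanh q.re) + sSr (Real.tan q.im) := by
  unfold sHr sSr
  rw [E.J6.th_sq_inv, E.J6.tan_sq_inv h.ne']
  have := Real.sin_sq_add_cos_sq q.im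
  linarith

end J7

open J7

namespace Zr

variable {ι : Type*} [Finite ι] {a : ι → ℝ} {nl nr : ι → Option ι} {z : ι → ℂ}

/-- `sinh² x`. -/
theorem sx_eq (h : E.Zr a nl nr 1 z) (i : ι) :
    Real.sinh (xx (z i).re (z i).im) ^ 2 = Real.tan (z i).re ^ 2 *
      (1 + E.J6.tR (Real.tan (z i).re) (Real.tanh (z i).im))⁻¹ := by
  obtain ⟨p1, p2, p3⟩ := h.pos i
  obtain ⟨t1, -, -⟩ := h.tR_eq i
  have c0 : 0 < Real.cos (th (z i).re (z i).im) :=
    Real.cos_pos_of_mem_Ioo ⟨by linarith [h.th_pos_i i], th_lt p1 p2 p3⟩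
  rw [t1, E.J6.tan_sq_inv c0.ne', tan_R_eq p1 p2 p3]
  field_simp

theorem le_sx (h : E.Zr a nl nr 1 z) {i j : ι} (hij : nl i = some j ∨ nr i = some j) :
    sHr (Real.tanh (qe (z i) (z j)).re) ≤ Real.tan (z i).re ^ 2 *
      (1 + E.J6.tR (Real.tan (z i).re) (Real.tanh (z i).im))⁻¹ := by
  obtain ⟨p1, p2, p3⟩ := h.pos i
  obtain ⟨o, r₁, p₂, r₂, -, -, hv⟩ := h.vx_first hij
  have e1 := hv.sl₁.le_xx p1 p2 p3 (h.ro_le_one _)
  rw [← sx_eq h i]
  unfold sHr
  rw [E.J6.th_sq_inv]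
  have e2 : Real.sinh (qe (z i) (z j)).re ≤ Real.sinh (xx (z i).re (z i).im) :=
    Real.sinh_le_sinh.2 e1
  have e3 : 0 ≤ Real.sinh (qe (z i) (z j)).re := Real.sinh_nonneg_iff.2 (h.qe_pos hij).1.le
  nlinarith only [e2, e3]

/-- **The facts at a vertex with at least three twists.** -/
theorem fu_of (h : E.Zr a nl nr 1 z) (b : Bool) {j i : ι} (ha : bif b then 3 ≤ a j else 4 ≤ a j)
    (hji : nl j = some i ∨ nr j = some i) {f B κ tl tu : ℝ}
    (hf : f ≤ Real.tan (z i).re * Real.tanh (z i).im) (hκ : κ ≤ k2 (z i).re (z i).im)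
    (hB : k2 (z i).re (z i).im ≤ B) (ht0 : tl ≤ Real.tan (th (z j).re (z j).im) ^ 2)
    (ht1 : Real.tan (th (z j).re (z j).im) ^ 2 ≤ tu) :
    ∃ P, FU b f B κ tl tu (Real.tan (z j).re) (Real.tanh (z j).im) P := by
  obtain ⟨p1, p2, p3⟩ := h.pos j
  obtain ⟨g1, g2, g3⟩ := h.pos i
  obtain ⟨t1, -, -⟩ := h.tR_eq j
  obtain ⟨u1, u2, u3⟩ := h.qe_pos hji
  have hpi := Real.pi_pos
  have ha3 : 3 ≤ a j := by
    rcases b with _ | _
    · rw [cond_false] at ha; linarith
    · rw [cond_true] at ha; exact ha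
  have X0 : 0 < Real.tan (z j).re := Real.tan_pos_of_pos_of_lt_pi_div_two p1 p2
  have h0 : 0 < Real.tanh (z j).im := E.J6.th_pos p3
  have h1 : Real.tanh (z j).im < 1 := Real.tanh_lt_one _
  obtain ⟨x0, y0, -⟩ := h.alg i
  have hff : ((starRingEnd ℂ) (cos (z i))).im / ((starRingEnd ℂ) (cos (z i))).re =
      Real.tan (z i).re * Real.tanh (z i).im := by
    rw [conj_re, conj_im, GeoC_cos_re, GeoC_cos_im, Real.tan_eq_sin_div_cos,
      Real.tanh_eq_sinh_div_cosh]
    have c0 := GeoX_cos_pos g1 g2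
    have c1 := Real.cosh_pos (z i).im
    field_simp
  have hK := E.J6.slot_K p1 p2 u2 u3 (h.sinh_qe j i)
  have hF := E.J6.slot_f p1 p2 p3 u1 u2 u3 (h.sinh_qe j i) x0
  rw [hff] at hF
  have hKi : normSq ((starRingEnd ℂ) (cos (z i))) = k2 (z i).re (z i).im := by
    rw [normSq_conj, normSq_eq_norm_sq, norm_cos_sq]
  have cu : 0 < Real.cos (qe (z j) (z i)).im := GeoX_cos_pos u2 u3
  rw [hKi, slot_sum cu] at hK
  have aR0 : 0 < E.J6.aR (Real.tan (z j).re) (Real.tanh (z j).im) := by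
    unfold E.J6.aR
    have : 0 < 1 - Real.tanh (z j).im ^ 2 := by nlinarith only [h0, h1]
    positivity
  have V0 : 0 < Real.tan (qe (z j) (z i)).im := Real.tan_pos_of_pos_of_lt_pi_div_two u2 u3
  have Q0 : 0 < Real.tanh (qe (z j) (z i)).re := E.J6.th_pos u1
  have haR : a j * (z j).re < Real.pi := h.aR_lt_i j
  have X1 : bif b then Real.tan (z j).re ^ 2 ≤ 3 else Real.tan (z j).re ^ 2 ≤ 1 := by
    rcases b with _ | _
    · rw [cond_false] at ha ⊢
      have e1 : (z j).re < Real.pi / 4 := by nlinarith only [hpi, haR, ha]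
      have e2 := Real.tan_lt_tan_of_nonneg_of_lt_pi_div_two p1.le (by linarith) e1
      rw [Real.tan_pi_div_four] at e2
      nlinarith only [X0, e2]
    · rw [cond_true]
      have e1 : (z j).re < Real.pi / 3 := by nlinarith only [hpi, ha3, haR]
      have e2 := Real.tan_lt_tan_of_nonneg_of_lt_pi_div_two p1.le (by linarith) e1
      rw [Real.tan_pi_div_three] at e2
      have e3 := Real.sq_sqrt (show (0 : ℝ) ≤ 3 by norm_num)
      nlinarith only [X0, e2, e3]
  have key : ∀ p₂ r₂ : ℝ, 0 ≤ p₂ → 0 ≤ r₂ → r₂ < Real.pi / 2 →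
      sHr (Real.tanh p₂) ≤ Real.tan (z j).re ^ 2 *
        (1 + E.J6.tR (Real.tan (z j).re) (Real.tanh (z j).im))⁻¹ →
      a j * (z j).im = (qe (z j) (z i)).re + p₂ →
      a j * (z j).re + (qe (z j) (z i)).im + r₂ = Real.pi →
      E.J6.aR (Real.tan (z j).re) (Real.tanh (z j).im) * Real.tanh p₂ ≤ Real.tan r₂ →
      ∃ P, FU b f B κ tl tu (Real.tan (z j).re) (Real.tanh (z j).im) P := by
    intro p₂ r₂ a1 a2 a3 a4 a5 a6 a7
    have P0 : 0 ≤ Real.tanh p₂ := by
      rcases a1.eq_or_lt with e | e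
      · rw [← e, Real.tanh_zero]
      · exact (E.J6.th_pos e).le
    refine ⟨Real.tanh p₂, X0, X1, h0, h1, P0, Real.tanh_lt_one _, by rw [t1]; exact ht0,
      by rw [t1]; exact ht1, a4, Real.tanh (qe (z j) (z i)).re, Real.tan (qe (z j) (z i)).im,
      Real.tan r₂, Q0, Real.tanh_lt_one _, V0,
      Real.tan_nonneg_of_nonneg_of_le_pi_div_two a2 a3.le, le_sx h hji, ?_, ?_, ?_, ?_, a7, ?_⟩
    · rw [tn_eq]
      have e1 : Real.tanh (bif b then 3 * (z j).im else 4 * (z j).im) ≤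
          Real.tanh ((qe (z j) (z i)).re + p₂) := by
        rw [← a5]
        have e2 : (bif b then 3 * (z j).im else 4 * (z j).im) ≤ a j * (z j).im := by
          rcases b with _ | _
          · rw [cond_false] at ha ⊢; nlinarith only [u1, a1, a5, ha]
          · rw [cond_true]; nlinarith only [p3, ha3]
        rcases e2.eq_or_lt with e | e
        · rw [e]
        · exact (E.J6.th_lt e).le
      rw [E.J6.th_add] at e1
      have e3 : 0 < 1 + Real.tanh (qe (z j) (z i)).re * Real.tanh p₂ := by positivity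
      rw [← div_eq_mul_inv, le_div_iff₀ e3] at e1
      exact e1
    · have e1 : 0 ≤ Real.tanh (qe (z j) (z i)).re +
          E.J6.aR (Real.tan (z j).re) (Real.tanh (z j).im) * Real.tan (qe (z j) (z i)).im := by
        positivity
      linarith only [mul_le_mul_of_nonneg_right hf e1, hF]
    · rw [← hK]; exact hκ
    · rw [← hK]; exact hB
    · intro _
      exact sum_tan b p1 p2 ha u2.le u3 a2 a3 a6
  have v1 := h.vertex_re j
  have v2 := h.vertex_im j
  have key2 : ∀ o : Option ι, (nl j = o ∨ nr j = o) →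
      a j * (z j).im = (qe (z j) (z i)).re + (qo z j o).re →
      a j * (z j).re + (qe (z j) (z i)).im + (qo z j o).im = Real.pi →
      ∃ P, FU b f B κ tl tu (Real.tan (z j).re) (Real.tanh (z j).im) P := by
    intro o ho b1 b2
    cases o with
    | none =>
      simp only [qo, zero_re, zero_im] at b1 b2
      refine key 0 0 le_rfl le_rfl (by linarith) ?_ b1 b2 ?_
      · unfold sHr
        rw [Real.tanh_zero]
        have : 0 < 1 + E.J6.tR (Real.tan (z j).re) (Real.tanh (z j).im) := by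
          rw [t1]; positivity
        norm_num
        positivity
      · rw [Real.tanh_zero, Real.tan_zero, mul_zero]
    | some k =>
      simp only [qo] at b1 b2
      obtain ⟨w1, w2, w3⟩ := h.qe_pos ho
      obtain ⟨xk, yk, -⟩ := h.alg k
      have hFk := E.J6.slot_f p1 p2 p3 w1 w2 w3 (h.sinh_qe j k) xk
      refine key _ _ w1.le w2.le w3 (le_sx h ho) b1 b2 ?_
      have e1 : 0 < Real.tan (qe (z j) (z k)).im := Real.tan_pos_of_pos_of_lt_pi_div_two w2 w3
      have e2 : 0 < Real.tanh (qe (z j) (z k)).re := E.J6.th_pos w1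
      have e3 : 0 ≤ ((starRingEnd ℂ) (cos (z k))).im / ((starRingEnd ℂ) (cos (z k))).re *
          (Real.tanh (qe (z j) (z k)).re +
            E.J6.aR (Real.tan (z j).re) (Real.tanh (z j).im) * Real.tan (qe (z j) (z k)).im) :=
        mul_nonneg (div_nonneg yk xk.le) (by positivity)
      linarith
  have hqo : qo z j (some i) = qe (z j) (z i) := rfl
  rcases hji with e | e
  · rw [e, hqo] at v1 v2
    exact key2 (nr j) (Or.inr rfl) v2 (by linarith)
  · rw [e, hqo] at v1 v2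
    exact key2 (nl j) (Or.inl rfl) (by linarith) (by linarith)

end Zr

end Pool.Agent.S3.Cl
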