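import Pool.Agent.S3.Cl.E1E
import Pool.Agent.S3.Cl.J7S
import Pool.Agent.S3.Cl.J7Z
import Pool.Agent.S3.E.J6H

/-!
# Stage 3: the angle of a vertex with at least three twists next to an inner vertex with two twists

If `j` has at least three twists and is next to an inner vertex with two twists, then
`tan² θ_j ≤ 1/4`, and `tan² θ_j ≤ 103/1000` if it has at least four twists.
-/

set_option autoImplicit false

namespace Pool.Agent.S3.Cl

open Complex E

namespace J7

open E.J6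

theorem FU.box {b : Bool} {f B κ tl tu X h P : ℝ} (H : FU b f B κ tl tu X h P)
    (htl : 1 / 10 ≤ tl) (htu : tu ≤ 37 / 100) (hX : X ≤ 16 / 10) :
    3 / 10 ≤ X ∧ 15 / 100 ≤ h ∧ h ≤ 55 / 100 ∧ P ≤ 9 / 10 := by
  have X0 := H.X0
  have h0 := H.h0
  have h1 := H.h1
  have t0 := H.t0
  have t1 := H.t1
  have P0 := H.P0
  have P1 := H.P1
  have hm : 0 < 1 - h ^ 2 := by nlinarith only [h0, h1]
  have et : tR X h * (1 - h ^ 2) = h ^ 2 * (1 + X ^ 2) := by
    unfold tR
    field_simp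
  have tp : 0 < 1 + tR X h := by linarith
  have hxs : X ^ 2 * (1 + tR X h)⁻¹ ≤ X ^ 2 * (1 + 1 / 10)⁻¹ :=
    mul_le_mul_of_nonneg_left (inv_anti₀ (by norm_num) (by linarith)) (sq_nonneg X)
  have hq : ∀ q : ℝ, 0 ≤ q → q < 1 → sHr q ≤ X ^ 2 * (1 + tR X h)⁻¹ →
      q ^ 2 ≤ X ^ 2 * (1 + 1 / 10)⁻¹ * (1 - q ^ 2) := by
    intro q q0 q1 hq
    have m : 0 < 1 - q ^ 2 := by nlinarith only [q0, q1]
    have e1 : sHr q * (1 - q ^ 2) = q ^ 2 := by
      unfold sHr
      field_simp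
      ring
    calc q ^ 2 = sHr q * (1 - q ^ 2) := e1.symm
      _ ≤ _ := mul_le_mul_of_nonneg_right (hq.trans hxs) m.le
  obtain ⟨Q, V, W, Q0, Q1, V0, W0, g1, g2, g3, g4, g5, g6, g7⟩ := H.ex
  have hQ := hq Q Q0.le Q1 g1
  have hP := hq P P0 P1 H.x2
  have hX3 : 3 / 10 ≤ X := by
    by_contra hc
    push Not at hc
    have e1 : X ^ 2 < 9 / 100 := by nlinarith only [X0, hc]
    have e2 : (289 / 1000) ^ 2 ≤ h ^ 2 := by nlinarith only [htl, t0, et, e1]
    have e3 : 289 / 1000 ≤ h := by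
      by_contra hc2
      push Not at hc2
      nlinarith only [h0, e2, hc2]
    have e4 : Q ≤ 3 / 10 := by
      by_contra hc2
      push Not at hc2
      nlinarith only [hQ, e1, hc2]
    have e5 : P ≤ 3 / 10 := by
      by_contra hc2
      push Not at hc2
      nlinarith only [hP, e1, hc2]
    have e6 : tnr b h ≤ 6 / 10 := by
      have e7 : 0 ≤ tnr b h := by
        rcases b with _ | _
        · unfold tnr
          rw [cond_false]
          positivity
        · unfold tnr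
          rw [cond_true]
          positivity
      linarith only [mul_nonneg e7 (mul_nonneg Q0.le P0), g2, e4, e5]
    rcases b with _ | _
    · unfold tnr at e6
      rw [cond_false, ← div_eq_mul_inv, div_le_iff₀ (by positivity)] at e6
      nlinarith only [hm, e3, e6]
    · unfold tnr at e6
      rw [cond_true, ← div_eq_mul_inv, div_le_iff₀ (by positivity)] at e6
      linarith only [mul_nonneg (sub_nonneg.2 e3) (sub_nonneg.2 h1.le), pow_pos h0 3, e3, e6]
  refine ⟨hX3, ?_, ?_, ?_⟩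
  · by_contra hc
    push Not at hc
    have e1 : h ^ 2 < 225 / 10000 := by nlinarith only [h0, hc]
    have e2 : X ^ 2 ≤ 256 / 100 := by nlinarith only [hX, X0]
    nlinarith only [htl, t0, et, e1, e2]
  · by_contra hc
    push Not at hc
    have e1 : (55 / 100) ^ 2 < h ^ 2 := by nlinarith only [hc]
    nlinarith only [htu, t1, hm, et, e1]
  · by_contra hc
    push Not at hc
    have e1 : (9 / 10) ^ 2 < P ^ 2 := by nlinarith only [hc]
    have e2 : X ^ 2 ≤ 256 / 100 := by nlinarith only [hX, X0]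
    nlinarith only [hP, e1, e2]

theorem no_of {b : Bool} {f B tl tu : ℕ} (hc : cert b f B tl tu = true) (htl : 100 ≤ tl)
    (htu : tu ≤ 370) {X h P : ℝ} (hX : X ≤ 16 / 10) :
    ¬ FU b ((f : ℝ) / 1000) ((B : ℝ) / 1000) (51 / 100) ((tl : ℝ) / 1000) ((tu : ℝ) / 1000) X h P := by
  intro H
  have a1 : (1 / 10 : ℝ) ≤ (tl : ℝ) / 1000 := by
    have : (100 : ℝ) ≤ tl := by exact_mod_cast htl
    linarith
  have a2 : (tu : ℝ) / 1000 ≤ 37 / 100 := by
    have : (tu : ℝ) ≤ 370 := by exact_mod_cast htu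
    linarith
  obtain ⟨b1, b2, b3, b4⟩ := H.box a1 a2 hX
  have m1 : NI.Mem ((f : ℝ) / 1000) (NI.cst f 1000) := by
    have := NI.mem_cst (n := f) (d := 1000) (by norm_num)
    exact_mod_cast this
  have m2 : NI.Mem ((B : ℝ) / 1000) (NI.cst B 1000) := by
    have := NI.mem_cst (n := B) (d := 1000) (by norm_num)
    exact_mod_cast this
  have m3 : NI.Mem (51 / 100 : ℝ) (NI.cst 51 100) := mem_nat (by norm_num) (by norm_num)
  have m4 : NI.Mem ((tl : ℝ) / 1000) (NI.cst tl 1000) := by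
    have := NI.mem_cst (n := tl) (d := 1000) (by norm_num)
    exact_mod_cast this
  have m5 : NI.Mem ((tu : ℝ) / 1000) (NI.cst tu 1000) := by
    have := NI.mem_cst (n := tu) (d := 1000) (by norm_num)
    exact_mod_cast this
  unfold cert at hc
  refine NI.bb_sound (P := fun X h P _ => ¬ FU b ((f : ℝ) / 1000) ((B : ℝ) / 1000) (51 / 100)
    ((tl : ℝ) / 1000) ((tu : ℝ) / 1000) X h P)
    (fun A B' C D hT X h P D' => tst_sound m1 m2 m3 m4 m5 A B' C D hT X h P D')
    _ _ _ _ _ hc X h P 0 ?_ ?_ ?_ ?_ H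
  · exact NI.mem_rng (by norm_num) (by push_cast; linarith) (by push_cast; linarith)
  · exact NI.mem_rng (by norm_num) (by push_cast; linarith) (by push_cast; linarith)
  · exact NI.mem_rng (by norm_num) (by push_cast; linarith [H.P0]) (by push_cast; linarith)
  · exact NI.mem_rng (by norm_num) (by norm_num) (by norm_num)

end J7

open J7

namespace Zr

variable {ι : Type*} [Finite ι] {a : ι → ℝ} {nl nr : ι → Option ι} {z : ι → ℂ}

theorem tanR_le (h : E.Zr a nl nr 1 z) {j : ι} (hj : 3 ≤ a j) : Real.tan (z j).re ≤ 16 / 10 := by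
  obtain ⟨p1, p2, p3⟩ := h.pos j
  have e1 := E.Zr.cos_ge p1.le (h.R3_lt hj).le
  have e2 := (h.tR_eq j).2.2
  have c0 := GeoX_cos_pos p1 p2
  have e3 : (1 + Real.tan (z j).re ^ 2) * Real.cos (z j).re ^ 2 = 1 := by
    rw [e2]
    exact inv_mul_cancel₀ (by positivity)
  have e4 : (53 / 100) ^ 2 ≤ Real.cos (z j).re ^ 2 := pow_le_pow_left₀ (by norm_num) e1 2
  by_contra hc
  push Not at hc
  nlinarith only [e3, e4, hc]

theorem t_lt_of (h : E.Zr a nl nr 1 z) (b : Bool) {j i : ι} (ha : bif b then 3 ≤ a j else 4 ≤ a j)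
    (hji : nl j = some i ∨ nr j = some i) {f B tl tu : ℕ} (hc : cert b f B tl tu = true)
    (htl : 100 ≤ tl) (htu : tu ≤ 370)
    (hf : (f : ℝ) / 1000 ≤ Real.tan (z i).re * Real.tanh (z i).im)
    (hκ : 51 / 100 ≤ k2 (z i).re (z i).im) (hB : k2 (z i).re (z i).im ≤ (B : ℝ) / 1000)
    (ht1 : Real.tan (th (z j).re (z j).im) ^ 2 ≤ (tu : ℝ) / 1000) :
    Real.tan (th (z j).re (z j).im) ^ 2 ≤ (tl : ℝ) / 1000 := by
  by_contra hcon
  push Not at hcon
  have ha3 : 3 ≤ a j := by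
    rcases b with _ | _
    · rw [cond_false] at ha; linarith
    · rw [cond_true] at ha; exact ha
  obtain ⟨P, H⟩ := fu_of h b ha hji hf hκ hB hcon.le ht1
  exact no_of hc htl htu (tanR_le h ha3) H

/-- The data of an inner vertex with two twists next to a vertex with at least three twists. -/
theorem two_data (h : E.Zr a nl nr 1 z) (h3 : ∀ i, 3 ≤ a i → a i = 3 ∨ 4 ≤ a i) {i j : ι}
    (hi : a i = 2) (hin : E.In2 nl nr i) (hij : nl i = some j ∨ nr i = some j) (hj : 3 ≤ a j) :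
    51 / 100 ≤ k2 (z i).re (z i).im ∧
    ((359 / 1000 ≤ Real.tan (z i).re * Real.tanh (z i).im ∧ k2 (z i).re (z i).im ≤ 689 / 1000) ∨
     (37 / 100 ≤ Real.tan (z i).re * Real.tanh (z i).im ∧ k2 (z i).re (z i).im ≤ 85 / 100) ∨
     (40 / 100 ≤ Real.tan (z i).re * Real.tanh (z i).im ∧ k2 (z i).re (z i).im ≤ 92 / 100) ∨
     (45 / 100 ≤ Real.tan (z i).re * Real.tanh (z i).im ∧ k2 (z i).re (z i).im ≤ 95 / 100) ∨
     (50 / 100 ≤ Real.tan (z i).re * Real.tanh (z i).im ∧ k2 (z i).re (z i).im ≤ 1)) := by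
  obtain ⟨l, r, hl, hr⟩ := hin
  have hin : E.In2 nl nr i := ⟨l, r, hl, hr⟩
  have key : ∀ k : ι, ((nl i = some j ∧ nr i = some k) ∨ (nl i = some k ∧ nr i = some j)) →
    51 / 100 ≤ k2 (z i).re (z i).im ∧
    ((359 / 1000 ≤ Real.tan (z i).re * Real.tanh (z i).im ∧ k2 (z i).re (z i).im ≤ 689 / 1000) ∨
     (37 / 100 ≤ Real.tan (z i).re * Real.tanh (z i).im ∧ k2 (z i).re (z i).im ≤ 85 / 100) ∨
     (40 / 100 ≤ Real.tan (z i).re * Real.tanh (z i).im ∧ k2 (z i).re (z i).im ≤ 92 / 100) ∨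
     (45 / 100 ≤ Real.tan (z i).re * Real.tanh (z i).im ∧ k2 (z i).re (z i).im ≤ 95 / 100) ∨
     (50 / 100 ≤ Real.tan (z i).re * Real.tanh (z i).im ∧ k2 (z i).re (z i).im ≤ 1)) := by
    intro k hk
    have hk1 : nl i = some k ∨ nr i = some k := by
      rcases hk with ⟨h1, h2⟩ | ⟨h1, h2⟩
      · exact Or.inr h2
      · exact Or.inl h1
    rcases h.nb_types hk1 with e | ⟨e, en⟩ | e
    · obtain ⟨-, -, e1⟩ := h.stage1 h3 hi hk (Or.inl hj) (Or.inl e)
      obtain ⟨-, e2⟩ := h.f_ge3 h3 hi hk hj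
      obtain ⟨f1, f2, f3⟩ := e2 e
      refine ⟨by linarith, Or.inr (Or.inr ?_)⟩
      rcases f2 with f2 | f2
      · exact Or.inl ⟨f1, by linarith⟩
      rcases f3 with f3 | f3
      · exact Or.inr (Or.inl ⟨f2, f3⟩)
      · exact Or.inr (Or.inr ⟨f3, h.k2_le i⟩)
    · obtain ⟨-, -, e1⟩ := h.stage1 h3 hi hk (Or.inl hj) (Or.inr ⟨e, en⟩)
      obtain ⟨e2, -⟩ := h.f_ge3 h3 hi hk hj
      obtain ⟨f1, f2, f3⟩ := e2 ⟨e, en⟩
      refine ⟨by linarith, Or.inr ?_⟩
      rcases f2 with f2 | f2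
      · exact Or.inl ⟨f1, f2⟩
      · exact Or.inr (Or.inl ⟨f2, f3⟩)
    · have hkj : j ≠ k := by
        intro hc
        rw [hc] at hj
        linarith [e.1]
      obtain ⟨-, -, e3, -, -, -, e7, -⟩ := two23_end2 h h3 e hi hin hij hkj hj
      have H := regQ h e hi hin
      have hq := H.q_le166
      have hk2 : k2 (z i).re (z i).im = ‖cos (z i)‖ ^ 2 := (norm_cos_sq _).symm
      have n0 := norm_nonneg (cos (z i))
      refine ⟨by rw [hk2]; nlinarith only [e3], Or.inl ⟨?_, by rw [hk2]; nlinarith only [hq, n0]⟩⟩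
      obtain ⟨g1, g2, g3⟩ := h.pos i
      obtain ⟨x0, y0, -⟩ := h.alg i
      have hff : ((starRingEnd ℂ) (cos (z i))).im =
          Real.tan (z i).re * Real.tanh (z i).im * ((starRingEnd ℂ) (cos (z i))).re := by
        rw [conj_re, conj_im, GeoC_cos_re, GeoC_cos_im, Real.tan_eq_sin_div_cos,
          Real.tanh_eq_sinh_div_cosh]
        have c0 := GeoX_cos_pos g1 g2
        have c1 := Real.cosh_pos (z i).im
        field_simp
      have hn : ‖cos (z i)‖ ^ 2 = ((starRingEnd ℂ) (cos (z i))).re ^ 2 +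
          ((starRingEnd ℂ) (cos (z i))).im ^ 2 := by
        rw [← normSq_eq_norm_sq, ← normSq_conj, normSq_apply]
        ring
      obtain ⟨F, hF⟩ : ∃ F, F = Real.tan (z i).re * Real.tanh (z i).im := ⟨_, rfl⟩
      obtain ⟨u, hu⟩ : ∃ u, u = ((starRingEnd ℂ) (cos (z i))).re := ⟨_, rfl⟩
      obtain ⟨v, hv⟩ : ∃ v, v = ((starRingEnd ℂ) (cos (z i))).im := ⟨_, rfl⟩
      rw [← hu, ← hv] at hn
      rw [← hF, ← hu, ← hv] at hff
      rw [← hF]
      rw [← hu] at x0
      rw [← hv] at y0 e7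
      by_contra hc
      push Not at hc
      have e8 : (338 / 1000 * ‖cos (z i)‖) ^ 2 ≤ v ^ 2 := pow_le_pow_left₀ (by positivity) e7 2
      have e9 : v < 359 / 1000 * u := by rw [hff]; exact mul_lt_mul_of_pos_right hc x0
      have e10 : v ^ 2 < (359 / 1000 * u) ^ 2 := by nlinarith only [y0, e9]
      linarith only [mul_pos x0 x0, hn, e8, e10]
  rcases hij with e | e
  · exact key r (Or.inl ⟨e, hr⟩)
  · exact key l (Or.inr ⟨hl, e⟩)

/-- **The angle of a vertex with at least three twists next to an inner vertex with two twists**: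
`tan² θ ≤ 1/4`. -/
theorem t3_nb2 (h : E.Zr a nl nr 1 z) (h3 : ∀ i, 3 ≤ a i → a i = 3 ∨ 4 ≤ a i) {i j : ι}
    (hj : 3 ≤ a j) (hji : nl j = some i ∨ nr j = some i) (hi : a i = 2) (hin : E.In2 nl nr i) :
    Real.tan (th (z j).re (z j).im) ^ 2 ≤ 1 / 4 := by
  obtain ⟨e1, e2⟩ := two_data h h3 hi hin (h.N.symm j i hji) hj
  have t1 : Real.tan (th (z j).re (z j).im) ^ 2 ≤ ((370 : ℕ) : ℝ) / 1000 := by
    have := tan_sq_le_of (h.th_pos_i j).le (h.th3_le hj)
    push_cast
    linarith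
  have key : ∀ {f B : ℕ}, cert true f B 250 370 = true →
      (f : ℝ) / 1000 ≤ Real.tan (z i).re * Real.tanh (z i).im →
      k2 (z i).re (z i).im ≤ (B : ℝ) / 1000 → Real.tan (th (z j).re (z j).im) ^ 2 ≤ 1 / 4 := by
    intro f B hc hf hB
    have := t_lt_of h true (by rw [cond_true]; exact hj) hji hc (by norm_num) (by norm_num) hf e1
      hB t1
    push_cast at this
    linarith
  rcases e2 with ⟨f1, f2⟩ | ⟨f1, f2⟩ | ⟨f1, f2⟩ | ⟨f1, f2⟩ | ⟨f1, f2⟩
  · exact key c3_a (by push_cast; linarith) (by push_cast; linarith)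
  · exact key c3_a (by push_cast; linarith) (by push_cast; linarith)
  · exact key c3_b (by push_cast; linarith) (by push_cast; linarith)
  · exact key c3_b (by push_cast; linarith) (by push_cast; linarith)
  · exact key c3_b (by push_cast; linarith) (by push_cast; linarith)

/-- **The angle of a vertex with at least four twists next to an inner vertex with two twists**:
`tan² θ ≤ 103/1000`. -/
theorem t4_nb2 (h : E.Zr a nl nr 1 z) (h3 : ∀ i, 3 ≤ a i → a i = 3 ∨ 4 ≤ a i) {i j : ι}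
    (hj : 4 ≤ a j) (hji : nl j = some i ∨ nr j = some i) (hi : a i = 2) (hin : E.In2 nl nr i) :
    Real.tan (th (z j).re (z j).im) ^ 2 ≤ 103 / 1000 := by
  obtain ⟨e1, e2⟩ := two_data h h3 hi hin (h.N.symm j i hji) (by linarith)
  have t1 : Real.tan (th (z j).re (z j).im) ^ 2 ≤ ((160 : ℕ) : ℝ) / 1000 := by
    obtain ⟨p1, p2, p3⟩ := h.pos j
    have a1 := n_tan_le (R := th (z j).re (z j).im) (R0 := 37 / 100) (t := 4 / 10)
      (h.th_pos_i j).le (h.th4_le hj) (by norm_num) (by norm_num) (by norm_num)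
    have c0 : 0 < Real.cos (th (z j).re (z j).im) :=
      Real.cos_pos_of_mem_Ioo ⟨by linarith [h.th_pos_i j], th_lt p1 p2 p3⟩
    have a2 : Real.tan (th (z j).re (z j).im) ≤ 4 / 10 := by
      rw [Real.tan_eq_sin_div_cos, div_le_iff₀ c0]; exact a1
    have a3 : 0 ≤ Real.tan (th (z j).re (z j).im) :=
      Real.tan_nonneg_of_nonneg_of_le_pi_div_two (h.th_pos_i j).le (th_lt p1 p2 p3).le
    push_cast
    nlinarith only [a2, a3]
  have key : ∀ {f B tl : ℕ}, cert false f B tl 160 = true → 100 ≤ tl → tl ≤ 103 →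
      (f : ℝ) / 1000 ≤ Real.tan (z i).re * Real.tanh (z i).im →
      k2 (z i).re (z i).im ≤ (B : ℝ) / 1000 → Real.tan (th (z j).re (z j).im) ^ 2 ≤ 103 / 1000 := by
    intro f B tl hc htl htl2 hf hB
    have := t_lt_of h false (by rw [cond_false]; exact hj) hji hc htl (by norm_num) hf e1
      hB t1
    have e5 : (tl : ℝ) ≤ 103 := by exact_mod_cast htl2
    linarith
  rcases e2 with ⟨f1, f2⟩ | ⟨f1, f2⟩ | ⟨f1, f2⟩ | ⟨f1, f2⟩ | ⟨f1, f2⟩
  · exact key c4_c (by norm_num) (by norm_num) (by push_cast; linarith) (by push_cast; linarith)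
  · exact key c4_a (by norm_num) (by norm_num) (by push_cast; linarith) (by push_cast; linarith)
  · exact key c4_b (by norm_num) (by norm_num) (by push_cast; linarith) (by push_cast; linarith)
  · exact key c4_b (by norm_num) (by norm_num) (by push_cast; linarith) (by push_cast; linarith)
  · exact key c4_b (by norm_num) (by norm_num) (by push_cast; linarith) (by push_cast; linarith)

end Zr

end Pool.Agent.S3.Cl
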