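import Pool.Agent.S3.Cl.J8S
import Pool.Agent.S3.Cl.J7U

/-!
# Stage 3: the angle of a vertex with three twists next to an inner vertex with two twists

If `j` has three twists and is next to an inner vertex with two twists then `tan² θ_j ≥ 7/100`.
-/

set_option autoImplicit false

namespace Pool.Agent.S3.Cl

open Complex E

namespace J8

open E.J6 J7

/-- The sum of the two angles. -/
theorem sum_tan_eq {R r₁ r₂ : ℝ} (R0 : 0 < R) (R1 : R < Real.pi / 2)
    (h1 : 0 ≤ r₁) (h1' : r₁ < Real.pi / 2) (h2 : 0 ≤ r₂)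
    (h2' : r₂ < Real.pi / 2) (hs : 3 * R + r₁ + r₂ = Real.pi) :
    (Real.tan r₁ + Real.tan r₂) * dnr true (Real.tan R) =
      nur true (Real.tan R) * (1 - Real.tan r₁ * Real.tan r₂) := by
  have c0 : 0 < Real.cos R := GeoX_cos_pos R0 R1
  have c1 : 0 < Real.cos r₁ := Real.cos_pos_of_mem_Ioo ⟨by linarith, h1'⟩
  have c2 : 0 < Real.cos r₂ := Real.cos_pos_of_mem_Ioo ⟨by linarith, h2'⟩
  have t0 := Real.tan_mul_cos c0.ne'
  have t1 := Real.tan_mul_cos c1.ne'
  have t2 := Real.tan_mul_cos c2.ne'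
  have sc := Real.sin_sq_add_cos_sq R
  obtain ⟨X, hX⟩ : ∃ X, X = Real.tan R := ⟨_, rfl⟩
  obtain ⟨V, hV⟩ : ∃ V, V = Real.tan r₁ := ⟨_, rfl⟩
  obtain ⟨W, hW⟩ : ∃ W, W = Real.tan r₂ := ⟨_, rfl⟩
  rw [← hX, ← hV, ← hW]
  rw [← hX] at t0
  rw [← hV] at t1
  rw [← hW] at t2
  have e1 : Real.sin (r₁ + r₂) = Real.cos r₁ * Real.cos r₂ * (V + W) := by
    rw [Real.sin_add, ← t1, ← t2]; ring
  have e2 : Real.cos (r₁ + r₂) = Real.cos r₁ * Real.cos r₂ * (1 - V * W) := by
    rw [Real.cos_add, ← t1, ← t2]; ring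
  have sc' : Real.cos R ^ 2 * (1 + X ^ 2) = 1 := by
    rw [← t0] at sc
    linear_combination sc
  have e3 : Real.sin (3 * R) = Real.cos R ^ 3 * (X * (3 - X ^ 2)) := by
    rw [Real.sin_three_mul, ← t0]
    linear_combination (-(3 * X * Real.cos R)) * sc'
  have e4 : Real.cos (3 * R) = -(Real.cos R ^ 3 * (3 * X ^ 2 - 1)) := by
    rw [Real.cos_three_mul]
    linear_combination (3 * Real.cos R) * sc'
  have e6 : Real.sin (3 * R + (r₁ + r₂)) = 0 := by
    rw [← add_assoc, hs, Real.sin_pi]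
  rw [Real.sin_add, e1, e2, e3, e4] at e6
  unfold dnr nur
  rw [cond_true, cond_true]
  have k : 0 < Real.cos r₁ * Real.cos r₂ * Real.cos R ^ 3 := by positivity
  apply mul_left_cancel₀ k.ne'
  linear_combination -e6

theorem FL.box {k : ℕ} {f0 κ1 κ G tl tu X h P : ℝ}
    (H : FL k f0 (685 / 1000) κ1 κ G tl tu X h P) (hκ1 : 51 / 100 ≤ κ1)
    (htu : tu ≤ 7 / 100) (hX0 : 45 / 100 ≤ X) (hX : X ≤ 16 / 10) :
    5 / 100 ≤ h ∧ h ≤ 30 / 100 ∧ P ≤ 9 / 10 := by
  have X0 := H.X0
  have h0 := H.h0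
  have h1 := H.h1
  have t1 := H.t1
  have P0 := H.P0
  have P1 := H.P1
  have PT := H.PT
  have x2 := H.x2
  have hm : 0 < 1 - h ^ 2 := by nlinarith only [h0, h1]
  have et : tR X h * (1 - h ^ 2) = h ^ 2 * (1 + X ^ 2) := by
    unfold tR
    field_simp
  have t0 : 0 ≤ tR X h := by
    unfold tR
    positivity
  refine ⟨?_, ?_, ?_⟩
  · by_contra hc
    push Not at hc
    obtain ⟨Q, V, W, g, Q0, Q1, V0, W0, q1, q2, q3, q4, q5, q6, -⟩ := H.ex
    have hT : tnr true h ≤ 3 * h := by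
      unfold tnr
      rw [cond_true, ← div_eq_mul_inv, div_le_iff₀ (by positivity)]
      linarith only [pow_pos h0 3]
    have T0 : 0 ≤ tnr true h := P0.trans PT
    have hQ : Q ≤ 15 / 100 := by
      have e1 : Q * (tnr true h * P) ≤ 1 * P := by
        have : tnr true h ≤ 1 := H.T1.le
        have e2 : Q * tnr true h ≤ 1 := by nlinarith only [Q1, T0, this]
        have := mul_le_mul_of_nonneg_right e2 P0
        linarith
      linarith only [hc, q2, hT, e1]
    have ha : aR X h ≤ 135 / 1000 := by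
      have e1 : h * (1 - h ^ 2)⁻¹ ≤ 502 / 10000 := by
        rw [← div_eq_mul_inv, div_le_iff₀ hm]
        nlinarith only [hc, hT, T0]
      have e2 : X + X⁻¹ ≤ 2673 / 1000 := by
        have e3 : X * X⁻¹ = 1 := mul_inv_cancel₀ X0.ne'
        have e4 : 0 < X⁻¹ := inv_pos.2 X0
        by_contra hcon
        push Not at hcon
        have := mul_lt_mul_of_pos_left hcon X0
        linarith only [mul_nonneg (sub_nonneg.2 hX0) (sub_nonneg.2 hX), hX0, e3, this]
      have e5 : 0 ≤ X + X⁻¹ := by positivity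
      unfold aR
      calc h * (1 - h ^ 2)⁻¹ * (X + X⁻¹) ≤ 502 / 10000 * (2673 / 1000) :=
            mul_le_mul e1 e2 e5 (by norm_num)
        _ ≤ _ := by norm_num
    have ha0 : 0 ≤ aR X h := by
      unfold aR
      positivity
    have hV : V ≤ 136 / 1000 := by
      by_contra hcon
      push Not at hcon
      have e1 : Q * (aR X h + 685 / 1000) ≤ 15 / 100 * (135 / 1000 + 685 / 1000) :=
        mul_le_mul hQ (by linarith) (by linarith) (by norm_num)
      have e2 : (136 / 1000 : ℝ) * (1 - 685 / 1000 * (135 / 1000)) ≤ V * (1 - 685 / 1000 * aR X h) :=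
        mul_le_mul hcon.le (by linarith) (by norm_num) V0.le
      norm_num at e1 e2
      linarith
    have s1 := sHr_mono Q0 hQ (by norm_num)
    have s2 := sSr_mono V0.le hV
    have s3 : sHr (15 / 100) ≤ 24 / 1000 := by norm_num [sHr]
    have s4 : sSr (136 / 1000) ≤ 19 / 1000 := by norm_num [sSr]
    have hi : iD X h ≤ 5 := by
      unfold iD
      rw [← div_eq_mul_inv, div_le_iff₀ (by positivity)]
      have e1 : (45 / 100) ^ 2 ≤ X ^ 2 := pow_le_pow_left₀ (by norm_num) hX0 2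
      have e2 : X ^ 2 ≤ (16 / 10) ^ 2 := pow_le_pow_left₀ X0.le hX 2
      nlinarith only [e1, e2]
    have hi0 : 0 ≤ iD X h := by
      unfold iD
      positivity
    have := mul_le_mul (show sHr Q + sSr V ≤ 43 / 1000 by linarith) hi hi0 (by norm_num)
    linarith
  · by_contra hc
    push Not at hc
    have e1 : (30 / 100) ^ 2 < h ^ 2 := by nlinarith only [hc]
    nlinarith only [htu, t1, et, t0, e1]
  · by_contra hc
    push Not at hc
    have m : 0 < 1 - P ^ 2 := by nlinarith only [P1, hc]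
    have e1 : sHr P * (1 - P ^ 2) = P ^ 2 := by
      unfold sHr
      field_simp
      ring
    have e2 : (1 + tR X h)⁻¹ ≤ 1 := inv_le_one_of_one_le₀ (by linarith)
    have e3 : X ^ 2 * (1 + tR X h)⁻¹ ≤ X ^ 2 * 1 := mul_le_mul_of_nonneg_left e2 (sq_nonneg X)
    have e4 := mul_le_mul_of_nonneg_right (x2.trans e3) m.le
    rw [e1] at e4
    have e5 : (9 / 10) ^ 2 < P ^ 2 := by nlinarith only [hc]
    have e6 : X ^ 2 ≤ 256 / 100 := by nlinarith only [hX, X0]
    nlinarith only [e4, e5, e6]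

theorem no_of {k κ G : ℕ} (hc : cert k κ G = true) {X h P : ℝ} (hX0 : 45 / 100 ≤ X)
    (hX : X ≤ 16 / 10) (hk : k = 0 → P = 0) :
    ¬ FL k (359 / 1000) (685 / 1000) (51 / 100) ((κ : ℝ) / 1000) ((G : ℝ) / 1000) 0 (7 / 100)
      X h P := by
  intro H
  obtain ⟨b2, b3, b4⟩ := H.box le_rfl le_rfl hX0 hX
  have m1 : NI.Mem (359 / 1000 : ℝ) (NI.cst 359 1000) := mem_nat (by norm_num) (by norm_num)
  have m2 : NI.Mem (685 / 1000 : ℝ) (NI.cst 685 1000) := mem_nat (by norm_num) (by norm_num)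
  have m3 : NI.Mem (51 / 100 : ℝ) (NI.cst 510 1000) := mem_nat (by norm_num) (by norm_num)
  have m4 : NI.Mem ((κ : ℝ) / 1000) (NI.cst κ 1000) := by
    have := NI.mem_cst (n := κ) (d := 1000) (by norm_num)
    exact_mod_cast this
  have m5 : NI.Mem ((G : ℝ) / 1000) (NI.cst G 1000) := by
    have := NI.mem_cst (n := G) (d := 1000) (by norm_num)
    exact_mod_cast this
  have m6 : NI.Mem (0 : ℝ) (NI.cst 0 1000) := mem_nat (by norm_num) (by norm_num)
  have m7 : NI.Mem (7 / 100 : ℝ) (NI.cst 70 1000) := mem_nat (by norm_num) (by norm_num)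
  unfold cert at hc
  refine NI.bb_sound (P := fun X h P _ => ¬ FL k (359 / 1000) (685 / 1000) (51 / 100)
    ((κ : ℝ) / 1000) ((G : ℝ) / 1000) 0 (7 / 100) X h P)
    (fun A B' C D hT X h P D' => tst_sound m1 m2 m3 m4 m5 m6 m7 A B' C D hT X h P D')
    _ _ _ _ _ hc X h P 0 ?_ ?_ ?_ ?_ H
  · exact NI.mem_rng (by norm_num) (by push_cast; linarith) (by push_cast; linarith)
  · exact NI.mem_rng (by norm_num) (by push_cast; linarith) (by push_cast; linarith)
  · refine NI.mem_rng (by norm_num) (by push_cast; linarith [H.P0]) ?_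
    rcases Nat.eq_zero_or_pos k with e | e
    · rw [hk e]
      positivity
    · have : Nat.beq k 0 = false := by
        rcases k with _ | k
        · exact absurd e (by norm_num)
        · rfl
      rw [this, cond_false]
      push_cast
      linarith
  · exact NI.mem_rng (by norm_num) (by norm_num) (by norm_num)

end J8

open J7 J8

namespace Zr

variable {ι : Type*} [Finite ι] {a : ι → ℝ} {nl nr : ι → Option ι} {z : ι → ℂ}

omit [Finite ι] in
theorem tan_ph_ident (h : E.Zr a nl nr 1 z) (i : ι) :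
    ((starRingEnd ℂ) (cos (z i))).im / ((starRingEnd ℂ) (cos (z i))).re =
      Real.tan (z i).re * Real.tanh (z i).im := by
  obtain ⟨g1, g2, g3⟩ := h.pos i
  rw [conj_re, conj_im, GeoC_cos_re, GeoC_cos_im, Real.tan_eq_sin_div_cos,
    Real.tanh_eq_sinh_div_cosh]
  have c0 := GeoX_cos_pos g1 g2
  have c1 := Real.cosh_pos (z i).im
  field_simp

omit [Finite ι] in
/-- `tan φ ≤ t` from `φ ≤ φ₀`. -/
theorem tanph_le (h : E.Zr a nl nr 1 z) (i : ι) {R0 t : ℝ} (h0 : ph (z i).re (z i).im ≤ R0)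
    (h2 : R0 ≤ 3 / 2) (ht : 0 ≤ t)
    (hn : R0 - R0 ^ 3 / 6 + R0 ^ 5 / 120 ≤ t * (1 - R0 ^ 2 / 2 + R0 ^ 4 / 24 - R0 ^ 6 / 720)) :
    Real.tan (z i).re * Real.tanh (z i).im ≤ t := by
  have hp := h.phpos i
  have e := n_tan_le hp.le h0 h2 ht hn
  have hpi := Real.pi_gt_three
  have c0 : 0 < Real.cos (ph (z i).re (z i).im) :=
    Real.cos_pos_of_mem_Ioo ⟨by linarith, by linarith⟩
  rw [← tan_ph, Real.tan_eq_sin_div_cos, div_le_iff₀ c0]
  exact e

omit [Finite ι] in
/-- The facts about the angle at an end vertex with two twists. -/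
theorem end_tan (h : E.Zr a nl nr 1 z) {j k : ι} (hk : Zr.IsEnd2 a nl nr k j) :
    0 ≤ Real.tan (z k).re * Real.tanh (z k).im ∧
    1 - Real.tan (z j).re * Real.tanh (z j).im ≤ Real.tan (z k).re * Real.tanh (z k).im ∧
    Real.tan (z k).re * Real.tanh (z k).im ≤ 1 + 1 / 2 * (Real.tan (z j).re * Real.tanh (z j).im) ^ 2
      - Real.tan (z j).re * Real.tanh (z j).im := by
  have e1 := h.ph_end hk.1 hk.2
  rw [E.Zr.be_one] at e1
  have hpk := h.phpos k
  have hpj := h.phpos j
  have hpi := Real.pi_pos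
  obtain ⟨g, hg⟩ : ∃ g, g = Real.tan (z j).re * Real.tanh (z j).im := ⟨_, rfl⟩
  obtain ⟨G, hG⟩ : ∃ G, G = Real.tan (z k).re * Real.tanh (z k).im := ⟨_, rfl⟩
  have hg' : Real.tan (ph (z j).re (z j).im) = g := by rw [tan_ph, hg]
  have hG' : Real.tan (ph (z k).re (z k).im) = G := by rw [tan_ph, hG]
  rw [← hg, ← hG]
  have hgp : 0 < g := by
    rw [← hg']
    exact Real.tan_pos_of_pos_of_lt_pi_div_two hpj (by linarith)
  have hGp : 0 < G := by
    rw [← hG']
    exact Real.tan_pos_of_pos_of_lt_pi_div_two hpk (by linarith)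
  have hG1 : G < 1 := by
    rw [← hG', ← Real.tan_pi_div_four]
    exact Real.tan_lt_tan_of_nonneg_of_lt_pi_div_two hpk.le (by linarith) (by linarith)
  have e2 : G ^ 2 + 2 * g * G = 1 := by
    have e3 : 2 * ph (z k).re (z k).im = Real.pi / 2 - ph (z j).re (z j).im := by linarith
    have e4 := congrArg Real.tan e3
    rw [Real.tan_two_mul, Real.tan_pi_div_two_sub, hg', hG'] at e4
    have e5 : 0 < 1 - G ^ 2 := by nlinarith only [hGp, hG1]
    field_simp at e4
    linarith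
  refine ⟨hGp.le, ?_, ?_⟩
  · by_contra hc
    push Not at hc
    nlinarith only [hGp, hG1, e2, hc]
  · by_contra hc
    push Not at hc
    have e3 : 1 + 1 / 2 * g ^ 2 < G + g := by linarith
    nlinarith only [e2, hc]

/-- **The facts at a vertex with three twists.** -/
theorem fl_of (h : E.Zr a nl nr 1 z) {j i : ι} (ha : a j = 3)
    (hji : nl j = some i ∨ nr j = some i) {f0 f1 κ1 tl tu : ℝ}
    (hf : f0 ≤ Real.tan (z i).re * Real.tanh (z i).im)
    (hf1 : Real.tan (z i).re * Real.tanh (z i).im ≤ f1) (hκ : κ1 ≤ k2 (z i).re (z i).im)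
    (ht0 : tl ≤ Real.tan (th (z j).re (z j).im) ^ 2)
    (ht1 : Real.tan (th (z j).re (z j).im) ^ 2 ≤ tu) :
    (FL 0 f0 f1 κ1 0 0 tl tu (Real.tan (z j).re) (Real.tanh (z j).im) 0) ∨
    (∃ k : ι, ∃ P, (nl j = some k ∨ nr j = some k) ∧ Zr.IsEnd2 a nl nr k j ∧
      FL 2 f0 f1 κ1 0 0 tl tu (Real.tan (z j).re) (Real.tanh (z j).im) P) ∨
    (∃ k : ι, ∃ P, (nl j = some k ∨ nr j = some k) ∧ ¬ Zr.IsEnd2 a nl nr k j ∧
      ∀ κ G, Real.tan (z k).re * Real.tanh (z k).im ≤ G → κ ≤ k2 (z k).re (z k).im →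
      FL 1 f0 f1 κ1 κ G tl tu (Real.tan (z j).re) (Real.tanh (z j).im) P) := by
  obtain ⟨p1, p2, p3⟩ := h.pos j
  obtain ⟨g1, g2, g3⟩ := h.pos i
  obtain ⟨t1, t2, -⟩ := h.tR_eq j
  obtain ⟨u1, u2, u3⟩ := h.qe_pos hji
  have hpi := Real.pi_pos
  have X0 : 0 < Real.tan (z j).re := Real.tan_pos_of_pos_of_lt_pi_div_two p1 p2
  have h0 : 0 < Real.tanh (z j).im := E.J6.th_pos p3
  have h1 : Real.tanh (z j).im < 1 := Real.tanh_lt_one _
  obtain ⟨x0, y0, -⟩ := h.alg i
  have hK := E.J6.slot_K p1 p2 u2 u3 (h.sinh_qe j i)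
  have hF := E.J6.slot_f p1 p2 p3 u1 u2 u3 (h.sinh_qe j i) x0
  rw [tan_ph_ident h i] at hF
  have hKn : ∀ i : ι, normSq ((starRingEnd ℂ) (cos (z i))) = k2 (z i).re (z i).im := by
    intro i
    rw [normSq_conj, normSq_eq_norm_sq, norm_cos_sq]
  have cu : 0 < Real.cos (qe (z j) (z i)).im := GeoX_cos_pos u2 u3
  rw [hKn, slot_sum cu] at hK
  have aR0 : 0 < E.J6.aR (Real.tan (z j).re) (Real.tanh (z j).im) := by
    unfold E.J6.aR
    have : 0 < 1 - Real.tanh (z j).im ^ 2 := by nlinarith only [h0, h1]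
    positivity
  have V0 : 0 < Real.tan (qe (z j) (z i)).im := Real.tan_pos_of_pos_of_lt_pi_div_two u2 u3
  have Q0 : 0 < Real.tanh (qe (z j) (z i)).re := E.J6.th_pos u1
  have haR : a j * (z j).re < Real.pi := h.aR_lt_i j
  rw [ha] at haR
  have X1 : Real.tan (z j).re ^ 2 ≤ 3 := by
    have e1 : (z j).re < Real.pi / 3 := by linarith
    have e2 := Real.tan_lt_tan_of_nonneg_of_lt_pi_div_two p1.le (by linarith) e1
    rw [Real.tan_pi_div_three] at e2
    have e3 := Real.sq_sqrt (show (0 : ℝ) ≤ 3 by norm_num)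
    nlinarith only [X0, e2, e3]
  have Xh : Real.tan (z j).re * Real.tanh (z j).im ≤ 1 := by
    have := tanph_le h j (R0 := 9 / 20) (t := 484 / 1000) (h.ph3_le ha.ge) (by norm_num)
      (by norm_num) (by norm_num)
    linarith
  have hT : tnr true (Real.tanh (z j).im) = Real.tanh (3 * (z j).im) := by
    rw [tn_eq, cond_true]
  have iD0 : 0 < E.J6.iD (Real.tan (z j).re) (Real.tanh (z j).im) := by
    unfold E.J6.iD
    positivity
  have key : ∀ (k : ℕ) (κ G p₂ r₂ g : ℝ), 0 ≤ p₂ → 0 ≤ r₂ → r₂ < Real.pi / 2 →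
      sHr (Real.tanh p₂) ≤ Real.tan (z j).re ^ 2 *
        (1 + E.J6.tR (Real.tan (z j).re) (Real.tanh (z j).im))⁻¹ →
      3 * (z j).im = (qe (z j) (z i)).re + p₂ →
      3 * (z j).re + (qe (z j) (z i)).im + r₂ = Real.pi →
      (sHr (Real.tanh p₂) + sSr (E.J6.aR (Real.tan (z j).re) (Real.tanh (z j).im) *
        Real.tanh p₂)) * E.J6.iD (Real.tan (z j).re) (Real.tanh (z j).im) ≤ 1 →
      (k = 0 → Real.tan r₂ = 0) →
      (k ≠ 0 → 0 ≤ g ∧ Real.tan r₂ * (1 - g * E.J6.aR (Real.tan (z j).re) (Real.tanh (z j).im)) =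
        Real.tanh p₂ * (E.J6.aR (Real.tan (z j).re) (Real.tanh (z j).im) + g)) →
      (k = 1 → g ≤ G ∧ κ ≤ (sHr (Real.tanh p₂) + sSr (Real.tan r₂)) *
        E.J6.iD (Real.tan (z j).re) (Real.tanh (z j).im)) →
      (2 ≤ k → 1 - Real.tan (z j).re * Real.tanh (z j).im ≤ g ∧
        g ≤ 1 + 1 / 2 * (Real.tan (z j).re * Real.tanh (z j).im) ^ 2 -
          Real.tan (z j).re * Real.tanh (z j).im ∧
        ((sHr (Real.tanh p₂) + sSr (Real.tan r₂)) *
          E.J6.iD (Real.tan (z j).re) (Real.tanh (z j).im)) ^ 2 =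
          1 / 4 * E.J6.kR (Real.tan (z j).re) (Real.tanh (z j).im)) →
      FL k f0 f1 κ1 κ G tl tu (Real.tan (z j).re) (Real.tanh (z j).im) (Real.tanh p₂) := by
    intro k κ G p₂ r₂ g a1 a2 a3 a4 a5 a6 a7 b0 b1 b2 b3
    have P0 : 0 ≤ Real.tanh p₂ := by
      rcases a1.eq_or_lt with e | e
      · rw [← e, Real.tanh_zero]
      · exact (E.J6.th_pos e).le
    refine ⟨X0, X1, h0, h1, Xh, P0, Real.tanh_lt_one _, by rw [t1]; exact ht0,
      by rw [t1]; exact ht1, a4, a7, ?_, by rw [hT]; exact Real.tanh_lt_one _,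
      Real.tanh (qe (z j) (z i)).re, Real.tan (qe (z j) (z i)).im,
      Real.tan r₂, g, Q0.le, Real.tanh_lt_one _, V0,
      Real.tan_nonneg_of_nonneg_of_le_pi_div_two a2 a3.le, le_sx h hji, ?_, ?_, ?_, ?_, ?_, b0, b1,
      b2, b3, ?_⟩
    · rw [hT]
      exact (E.J6.th_lt (by linarith)).le
    · rw [hT, a5, E.J6.th_add]
      have e3 : 0 < 1 + Real.tanh (qe (z j) (z i)).re * Real.tanh p₂ := by positivity
      field_simp
      ring
    · have e1 : 0 ≤ Real.tanh (qe (z j) (z i)).re +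
          E.J6.aR (Real.tan (z j).re) (Real.tanh (z j).im) * Real.tan (qe (z j) (z i)).im := by
        positivity
      linarith only [mul_le_mul_of_nonneg_right hf e1, hF]
    · have e1 : 0 ≤ Real.tanh (qe (z j) (z i)).re +
          E.J6.aR (Real.tan (z j).re) (Real.tanh (z j).im) * Real.tan (qe (z j) (z i)).im := by
        positivity
      linarith only [mul_le_mul_of_nonneg_right hf1 e1, hF]
    · rw [← hK]; exact hκ
    · rw [← hK]; exact h.k2_le i
    · exact sum_tan_eq p1 p2 u2.le u3 a2 a3 a6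
  have v1 := h.vertex_re j
  have v2 := h.vertex_im j
  rw [ha] at v1 v2
  have key2 : ∀ o : Option ι, (nl j = o ∨ nr j = o) →
      3 * (z j).im = (qe (z j) (z i)).re + (qo z j o).re →
      3 * (z j).re + (qe (z j) (z i)).im + (qo z j o).im = Real.pi →
      (FL 0 f0 f1 κ1 0 0 tl tu (Real.tan (z j).re) (Real.tanh (z j).im) 0) ∨
      (∃ k : ι, ∃ P, (nl j = some k ∨ nr j = some k) ∧ Zr.IsEnd2 a nl nr k j ∧
        FL 2 f0 f1 κ1 0 0 tl tu (Real.tan (z j).re) (Real.tanh (z j).im) P) ∨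
      (∃ k : ι, ∃ P, (nl j = some k ∨ nr j = some k) ∧ ¬ Zr.IsEnd2 a nl nr k j ∧
        ∀ κ G, Real.tan (z k).re * Real.tanh (z k).im ≤ G → κ ≤ k2 (z k).re (z k).im →
        FL 1 f0 f1 κ1 κ G tl tu (Real.tan (z j).re) (Real.tanh (z j).im) P) := by
    intro o ho b1 b2
    cases o with
    | none =>
      simp only [qo, zero_re, zero_im] at b1 b2
      left
      have e0 : 0 < 1 + E.J6.tR (Real.tan (z j).re) (Real.tanh (z j).im) := by
        rw [t1]; positivity
      have := key 0 0 0 0 0 0 le_rfl le_rfl (by linarith) (by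
        unfold sHr
        rw [Real.tanh_zero]
        norm_num
        positivity) b1 b2 (by
        rw [Real.tanh_zero, mul_zero]
        norm_num [sHr, sSr]) (fun _ => Real.tan_zero) (fun e => absurd rfl e)
        (fun e => absurd e (by norm_num)) (fun e => absurd e (by norm_num))
      rw [Real.tanh_zero] at this
      exact this
    | some k =>
      right
      simp only [qo] at b1 b2
      obtain ⟨w1, w2, w3⟩ := h.qe_pos ho
      obtain ⟨xk, yk, -⟩ := h.alg k
      have hKk := E.J6.slot_K p1 p2 w2 w3 (h.sinh_qe j k)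
      rw [hKn, slot_sum (GeoX_cos_pos w2 w3)] at hKk
      have hFk := E.J6.slot_f p1 p2 p3 w1 w2 w3 (h.sinh_qe j k) xk
      rw [tan_ph_ident h k] at hFk
      have W0 : 0 < Real.tan (qe (z j) (z k)).im := Real.tan_pos_of_pos_of_lt_pi_div_two w2 w3
      have P0 : 0 < Real.tanh (qe (z j) (z k)).re := E.J6.th_pos w1
      obtain ⟨q1, q2, q3⟩ := h.pos k
      have gk0 : 0 < Real.tan (z k).re * Real.tanh (z k).im :=
        mul_pos (Real.tan_pos_of_pos_of_lt_pi_div_two q1 q2) (E.J6.th_pos q3)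
      have e3 : 0 ≤ Real.tan (z k).re * Real.tanh (z k).im *
          (Real.tanh (qe (z j) (z k)).re + E.J6.aR (Real.tan (z j).re) (Real.tanh (z j).im) *
            Real.tan (qe (z j) (z k)).im) := by positivity
      have hn : (sHr (Real.tanh (qe (z j) (z k)).re) + sSr (E.J6.aR (Real.tan (z j).re)
          (Real.tanh (z j).im) * Real.tanh (qe (z j) (z k)).re)) *
          E.J6.iD (Real.tan (z j).re) (Real.tanh (z j).im) ≤ 1 := by
        have e4 := sSr_mono (p := E.J6.aR (Real.tan (z j).re) (Real.tanh (z j).im) *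
          Real.tanh (qe (z j) (z k)).re) (q := Real.tan (qe (z j) (z k)).im) (by positivity)
          (by linarith)
        have e5 := mul_le_mul_of_nonneg_right (add_le_add_right e4
          (sHr (Real.tanh (qe (z j) (z k)).re))) iD0.le
        have e6 := h.k2_le k
        linarith
      have hW : Real.tan (qe (z j) (z k)).im * (1 - Real.tan (z k).re * Real.tanh (z k).im *
          E.J6.aR (Real.tan (z j).re) (Real.tanh (z j).im)) = Real.tanh (qe (z j) (z k)).re *
          (E.J6.aR (Real.tan (z j).re) (Real.tanh (z j).im) +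
            Real.tan (z k).re * Real.tanh (z k).im) := by
        linear_combination -hFk
      by_cases hend : Zr.IsEnd2 a nl nr k j
      · left
        obtain ⟨y1, y2, y3⟩ := end_tan h hend
        refine ⟨k, _, ho, hend, key 2 0 0 _ _ (Real.tan (z k).re * Real.tanh (z k).im) w1.le w2.le
          w3 (le_sx h ho) b1 b2 hn (fun e => absurd e (by norm_num)) (fun _ => ⟨gk0.le, hW⟩)
          (fun e => absurd e (by norm_num)) (fun _ => ⟨y2, y3, ?_⟩)⟩
        rw [← hKk, h.end_k2 hend, t2, div_pow, Real.sq_sqrt (h.k2pos j).le]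
        ring
      · right
        refine ⟨k, _, ho, hend, fun κ G y1 y2 => key 1 κ G _ _ (Real.tan (z k).re * Real.tanh (z k).im)
          w1.le w2.le w3 (le_sx h ho) b1 b2 hn (fun e => absurd e (by norm_num))
          (fun _ => ⟨gk0.le, hW⟩) (fun _ => ⟨y1, ?_⟩) (fun e => absurd e (by norm_num))⟩
        rw [← hKk]
        exact y2
  have hqo : qo z j (some i) = qe (z j) (z i) := rfl
  rcases hji with e | e
  · rw [e, hqo] at v1 v2
    exact key2 (nr j) (Or.inr rfl) v2 (by linarith)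
  · rw [e, hqo] at v1 v2
    exact key2 (nl j) (Or.inl rfl) (by linarith) (by linarith)

/-- **The angle of a vertex with three twists next to an inner vertex with two twists**:
`tan² θ ≥ 7/100`. -/
theorem t3_ge_nb2 (h : E.Zr a nl nr 1 z) (h3 : ∀ i, 3 ≤ a i → a i = 3 ∨ 4 ≤ a i) {i j : ι}
    (hj : a j = 3) (hji : nl j = some i ∨ nr j = some i) (hi : a i = 2) (hin : E.In2 nl nr i) :
    7 / 100 ≤ Real.tan (th (z j).re (z j).im) ^ 2 := by
  by_contra hcon
  push Not at hcon
  obtain ⟨e1, e2⟩ := two_data h h3 hi hin (h.N.symm j i hji) hj.ge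
  have hf0 : 359 / 1000 ≤ Real.tan (z i).re * Real.tanh (z i).im := by
    rcases e2 with ⟨f1, -⟩ | ⟨f1, -⟩ | ⟨f1, -⟩ | ⟨f1, -⟩ | ⟨f1, -⟩ <;> linarith
  have hf1 : Real.tan (z i).re * Real.tanh (z i).im ≤ 685 / 1000 :=
    tanph_le h i (h.two_ph_le hi hin) (by norm_num) (by norm_num) (by norm_num)
  obtain ⟨p1, p2, p3⟩ := h.pos j
  have hX0 : 45 / 100 ≤ Real.tan (z j).re := by
    have c0 : 0 < Real.cos (th (z j).re (z j).im) :=
      Real.cos_pos_of_mem_Ioo ⟨by linarith [h.th_pos_i j], th_lt p1 p2 p3⟩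
    have x1 := h.xx3_ge hj
    have x2 : xx (z j).re (z j).im ≤ Real.sinh (xx (z j).re (z j).im) :=
      Real.self_le_sinh_iff.2 (h.xx_pos_i j).le
    rw [tan_R_eq p1 p2 p3, le_div_iff₀ c0]
    have := Real.cos_le_one (th (z j).re (z j).im)
    linarith only [x1, x2, this]
  have hX := tanR_le h hj.ge
  rcases fl_of h hj hji hf0 hf1 e1 (sq_nonneg _) hcon.le with H | ⟨k, P, -, hk, H⟩ |
    ⟨k, P, hk, hend, H⟩
  · refine J8.no_of c0 (h := Real.tanh (z j).im) hX0 hX (fun _ => rfl) ?_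
    push_cast
    rw [zero_div]
    exact H
  · refine J8.no_of c2 (h := Real.tanh (z j).im) hX0 hX (fun e => absurd e (by norm_num)) (P := P) ?_
    push_cast
    rw [zero_div]
    exact H
  · rcases h.nb_types hk with e | ⟨e, en⟩ | e
    · have a1 := tanph_le h k (R0 := 9 / 20) (t := 484 / 1000) (h.ph3_le e) (by norm_num)
        (by norm_num) (by norm_num)
      have a2 : 28 / 100 ≤ k2 (z k).re (z k).im := by
        rw [← norm_cos_sq]
        have := pow_le_pow_left₀ (by norm_num) (h.norm_cos3_ge e) 2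
        norm_num at this
        linarith
      refine J8.no_of c1b (h := Real.tanh (z j).im) hX0 hX (fun e => absurd e (by norm_num)) (P := P) ?_
      exact H _ _ (by push_cast; linarith) (by push_cast; linarith)
    · have a1 := tanph_le h k (R0 := 3 / 5) (t := 685 / 1000) (h.two_ph_le e en) (by norm_num)
        (by norm_num) (by norm_num)
      obtain ⟨a2, -⟩ := two_data h h3 e en (h.N.symm j k hk) hj.ge
      refine J8.no_of c1a (h := Real.tanh (z j).im) hX0 hX (fun e => absurd e (by norm_num)) (P := P) ?_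
      exact H _ _ (by push_cast; linarith) (by push_cast; linarith)
    · exact absurd e hend

end Zr

end Pool.Agent.S3.Cl
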