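import Pool.Agent.S3.Cl.CBS
import Pool.Agent.S3.Cl.J8U

/-!
# Stage 3: (E3) at an inner `2` between a closed end and a vertex with at least three twists
-/

set_option autoImplicit false

namespace Pool.Agent.S3.Cl

open Complex Pool.Agent.S3
open Pool.Agent.S3.E (Zr uu qe qo bw xx th k2 s2 bo ro be ph In2)

namespace CB

/-- `t ↦ t (1 + t - K) / (1 + t)²` is increasing. -/
theorem t_mono {K t t0 : ℝ} (h0 : 0 ≤ t0) (h : t0 ≤ t) (K0 : 0 ≤ K) (K1 : K ≤ 1) :
    t0 * (1 + t0 - K) / (1 + t0) ^ 2 ≤ t * (1 + t - K) / (1 + t) ^ 2 := by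
  have a0 : 0 < 1 + t0 := by linarith
  have a1 : 0 < 1 + t := by linarith
  rw [div_le_div_iff₀ (by positivity) (by positivity)]
  have e : t * (1 + t - K) * (1 + t0) ^ 2 - t0 * (1 + t0 - K) * (1 + t) ^ 2 =
      (t - t0) * ((1 + t) * (1 + t0) * (1 - K) + K * (t * (1 + t0) + (1 + t) * 1 + t0 * 0) -
        K * (t * (1 + t0) + (1 + t)) + K * (t + t0 + 2 * t * t0)) := by ring
  have e2 : 0 ≤ (1 + t) * (1 + t0) * (1 - K) + K * (t + t0 + 2 * t * t0) := by
    have : 0 ≤ 1 - K := by linarith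
    have ht : 0 ≤ t := h0.trans h
    positivity
  nlinarith [mul_nonneg (sub_nonneg.2 h) e2]

end CB

open CB

section

variable {ι : Type*} [Finite ι] {a : ι → ℝ} {nl nr : ι → Option ι} {z : ι → ℂ}

/-- The facts at an inner `2` next to a closed end. -/
theorem fc_of (h : Zr a nl nr 1 z) {i j k : ι}
    (hj : Zr.IsEnd2 a nl nr j i) (ha : a i = 2) (hin : In2 nl nr i)
    (hk : nl i = some k ∨ nr i = some k) (hkj : k ≠ j)
    (ho : (a k = 2 ∧ In2 nl nr k) ∨ a k = 3 ∨ 4 ≤ a k) {kl fl : Bool} {κ A0 B0 : ℝ}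
    (hκ : kl = true → κ ≤ ‖cos (z k)‖ ^ 2) (hB0 : 1 ≤ B0)
    (hfl : fl = true → A0 * ‖cos (z k)‖ ^ 2 * (B0 - ‖cos (z k)‖ ^ 2) ≤
      ((starRingEnd ℂ) (cos (z k))).im ^ 2) :
    FC kl fl κ A0 B0 (xx (z i).re (z i).im) (z i).im (Real.sinh (xx (z i).re (z i).im))
      (Real.sin (th (z i).re (z i).im)) (Real.cos (th (z i).re (z i).im)) (2 * ‖cos (z i)‖)
      (-2 * (cos (z i)).im) (‖cos (z k)‖ ^ 2) := by
  have D := endDat h hj ha hk hkj ho
  have H := regQ h hj ha hin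
  have hN := regQ_norm h hj ha hk hkj
  have hd := regQ_im h hj ha hk hkj
  obtain ⟨e1, e2, e3, e4⟩ := k_ids h i
  have hI := (im_le_end2 h hj ha hin).1
  have hsc := Real.sin_sq_add_cos_sq (th (z i).re (z i).im)
  have hch := Real.cosh_pos (z i).im
  have hn := h.norm_pos i
  have hk2 : ‖cos (z k)‖ ^ 2 ≤ 1 := by
    rw [E.norm_cos_sq]; exact h.k2_le k
  refine ⟨by linarith [D.x0], by linarith [D.x1], D.I0.le, by linarith, rfl, ?_, ?_,
    D.cosθ_pos.le, by linarith, ?_, by positivity, H.Pq, ?_, ?_, sq_nonneg _, hk2, by linarith,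
    ?_, hκ, ?_⟩
  · rw [← div_eq_mul_inv, div_mul_eq_mul_div, eq_div_iff hch.ne']
    exact D.hY
  · nlinarith [sq_nonneg (Real.cos (th (z i).re (z i).im))]
  · have : 0 < Real.sinh (xx (z i).re (z i).im) ^ 2 +
        (1 - Real.sin (th (z i).re (z i).im) ^ 2) := by
      have := D.cosθ_pos
      have : 0 < Real.cos (th (z i).re (z i).im) ^ 2 := by positivity
      nlinarith [sq_nonneg (Real.sinh (xx (z i).re (z i).im))]
    rw [← div_eq_mul_inv, div_eq_iff this.ne']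
    linear_combination (-4 : ℝ) * e3
  · rw [e4]; ring
  · linarith [H.hB]
  · linear_combination (1 / 4 : ℝ) * hN
  · intro hf
    refine (hfl hf).trans (le_of_eq ?_)
    rw [hd]
    ring

/-- `v_k² = K t (1 + t - K) / (1 + t)²` -/
theorem im_sq_t (h : Zr a nl nr 1 z) (k : ι) :
    ((starRingEnd ℂ) (cos (z k))).im ^ 2 = ‖cos (z k)‖ ^ 2 *
      (Real.tan (th (z k).re (z k).im) ^ 2 *
        (1 + Real.tan (th (z k).re (z k).im) ^ 2 - ‖cos (z k)‖ ^ 2) /
        (1 + Real.tan (th (z k).re (z k).im) ^ 2) ^ 2) := by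
  obtain ⟨-, -, -, hv, hK, c0, -, -⟩ := h.alg k
  rw [normSq_conj, normSq_eq_norm_sq] at hK
  rw [hv, hK]
  obtain ⟨t, ht⟩ : ∃ t, t = Real.tan (th (z k).re (z k).im) ^ 2 := ⟨_, rfl⟩
  have t0 : 0 < 1 + t := by rw [ht]; positivity
  rw [← ht]
  field_simp

/-- the lower bound used in the test if `tan² θ_k ≥ 7/100` -/
theorem im_ge_t7 (h : Zr a nl nr 1 z) {k : ι} (ht : 7 / 100 ≤ Real.tan (th (z k).re (z k).im) ^ 2) :
    611 / 10000 * ‖cos (z k)‖ ^ 2 * (107 / 100 - ‖cos (z k)‖ ^ 2) ≤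
      ((starRingEnd ℂ) (cos (z k))).im ^ 2 := by
  have hk2 : ‖cos (z k)‖ ^ 2 ≤ 1 := by
    rw [E.norm_cos_sq]; exact h.k2_le k
  have k0 := sq_nonneg ‖cos (z k)‖
  rw [im_sq_t h k]
  have e := t_mono (K := ‖cos (z k)‖ ^ 2) (by norm_num) ht k0 hk2
  have e2 := mul_le_mul_of_nonneg_left e k0
  refine le_trans ?_ e2
  have : (0 : ℝ) ≤ 107 / 100 - ‖cos (z k)‖ ^ 2 := by linarith
  have e3 : ‖cos (z k)‖ ^ 2 * (7 / 100 * (1 + 7 / 100 - ‖cos (z k)‖ ^ 2) / (1 + 7 / 100) ^ 2) =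
      700 / 11449 * (‖cos (z k)‖ ^ 2 * (107 / 100 - ‖cos (z k)‖ ^ 2)) := by
    field_simp
    ring
  rw [e3]
  nlinarith [mul_nonneg k0 this]

theorem e3_of_cert {fl : Bool} {ρc cc ec : ℕ} (hcert : cert fl ρc cc ec = true)
    (h : Zr a nl nr 1 z) (h3 : ∀ i, 3 ≤ a i → a i = 3 ∨ 4 ≤ a i) {i j k : ι}
    (hj : Zr.IsEnd2 a nl nr j i) (ha : a i = 2) (hin : In2 nl nr i)
    (hk : nl i = some k ∨ nr i = some k) (hkj : k ≠ j) (hk3 : 3 ≤ a k)
    (hfl : fl = true → a k = 3)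
    {ρ η0 η1 : ℝ} (h1 : Real.sinh η1 = Real.tan (th (z i).re (z i).im) * Real.cos (2 / 5 * Real.pi))
    (h0 : Real.sinh η0 = Real.tan (th (z i).re (z i).im) * Real.cos ρ)
    (hρ : ρ ≤ Real.pi / 2) (hρ0 : (ρc : ℝ) / 100000 ≤ ρ) (hρ1 : 95 / 100 ≤ (ρc : ℝ) / 100000)
    (hcc : Real.cos ((ρc : ℝ) / 100000) ≤ (cc : ℝ) / 100000) :
    bw (z i) (z k) * (η1 / 5 - 49 / 50 * (2 / Real.pi) * ((ρ - (z i).re) * ((z i).im - η0))) ≤
      (ec : ℝ) / 1000 := by
  have ho : (a k = 2 ∧ In2 nl nr k) ∨ a k = 3 ∨ 4 ≤ a k := Or.inr (h3 k hk3)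
  have D := endDat h hj ha hk hkj ho
  have hR := re_le30_end2 h h3 hj ha hin hk hkj ho
  have hI := (im_le_end2 h hj ha hin).1
  obtain ⟨-, -, -, -, -, -, -, hI0⟩ := two23_end2 h h3 hj ha hin hk hkj hk3
  have hpi := Real.pi_gt_d4
  have hpi2 := Real.pi_lt_d4
  have hN3 : 28 / 100 ≤ ‖cos (z k)‖ ^ 2 := by
    have := pow_le_pow_left₀ (by norm_num) (h.norm_cos3_ge hk3) 2
    norm_num at this
    linarith
  have F : FC true fl (28 / 100) (611 / 10000) (107 / 100) _ _ _ _ _ _ _ _ :=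
    fc_of h hj ha hin hk hkj ho (fun _ => hN3) (by norm_num) (fun e => im_ge_t7 h
      (Zr.t3_ge_nb2 h h3 (hfl e) (h.N.symm i k hk) ha hin))
  have hθ := D.cosθ_pos
  have t0 := D.tan_nn
  have hRρ : (z i).re ≤ ρ := by linarith
  have hcρ : 0 ≤ Real.cos ρ := Real.cos_nonneg_of_mem_Icc ⟨by linarith, hρ⟩
  have hcR : Real.cos ρ ≤ Real.cos (z i).re :=
    Real.cos_le_cos_of_nonneg_of_le_pi D.R0.le (by linarith) hRρ
  have e : Real.sinh (z i).im = Real.tan (th (z i).re (z i).im) * Real.cos (z i).re := by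
    rw [Real.tan_eq_sin_div_cos, div_mul_eq_mul_div, eq_div_iff hθ.ne']
    exact D.hC
  have hηI : η0 ≤ (z i).im := Real.sinh_le_sinh.1 (by
    rw [h0, e]; exact mul_le_mul_of_nonneg_left hcR t0)
  have hcρ2 : Real.cos ρ ≤ (cc : ℝ) / 100000 :=
    (Real.cos_le_cos_of_nonneg_of_le_pi (by linarith) (by linarith) hρ0).trans hcc
  have hX : Real.tan (z i).re = Real.sinh (xx (z i).re (z i).im) *
      (Real.cos (th (z i).re (z i).im))⁻¹ := by
    rw [← div_eq_mul_inv]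
    exact E.tan_R_eq D.R0 D.R1 D.I0
  have hτ : Real.tan (th (z i).re (z i).im) = Real.sin (th (z i).re (z i).im) *
      (Real.cos (th (z i).re (z i).im))⁻¹ := by
    rw [← div_eq_mul_inv, Real.tan_eq_sin_div_cos]
  have hRa : (z i).re = Real.arctan (Real.tan (z i).re) :=
    (Real.arctan_tan (by linarith [D.R0]) D.R1).symm
  unfold cert at hcert
  have key := NI.bb_sound (P := fun x I _ _ => ∀ S s c q P K : ℝ,
      FC true fl (28 / 100) (611 / 10000) (107 / 100) x I S s c q P K → 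
      ∀ τ X R b ρ η0 η1 : ℝ, τ = s * c⁻¹ → X = S * c⁻¹ → R = Real.arctan X → 0 < I →
      2 * I * b = 5 * I - x → 0 ≤ b → η0 ≤ I → 
      Real.sinh η1 = τ * Real.cos (2 / 5 * Real.pi) → Real.sinh η0 = τ * Real.cos ρ →
      (ρc : ℝ) / 100000 ≤ ρ → R ≤ ρ → Real.cos ρ ≤ (cc : ℝ) / 100000 →
      b * (η1 / 5 - 49 / 50 * (2 / Real.pi) * ((ρ - R) * (I - η0))) ≤ (ec : ℝ) / 1000)
    ?_ _ _ _ _ _ hcert (xx (z i).re (z i).im) (z i).im 0 0 ?_ ?_ ?_ ?_ _ _ _ _ _ _ F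
    _ _ _ (bw (z i) (z k)) ρ η0 η1 hτ hX hRa D.I0 D.hb D.b0.le hηI h1 h0 hρ0 hRρ hcρ2
  · exact key
  · intro A B C D' hT x I _ _ hx hI _ _ S s c q P K F τ X R b ρ η0 η1 a1 a2 a3 a4 a5 a6 a7 a8 a9
      a10 a11 a12
    have m1 : NI.Mem ((ρc : ℝ) / 100000) (NI.cst ρc 100000) := by
      have := NI.mem_cst (n := ρc) (d := 100000) (by norm_num)
      exact_mod_cast this
    have m2 : NI.Mem ((cc : ℝ) / 100000) (NI.cst cc 100000) := by
      have := NI.mem_cst (n := cc) (d := 100000) (by norm_num)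
      exact_mod_cast this
    have m3 : NI.Mem ((ec : ℝ) / 1000) (NI.cst ec 1000) := by
      have := NI.mem_cst (n := ec) (d := 1000) (by norm_num)
      exact_mod_cast this
    refine F.rT (E.J6.mem_nat (n := 28) (d := 100) (by norm_num) (by norm_num))
      (E.J6.mem_nat (n := 611) (d := 10000) (by norm_num) (by norm_num))
      (E.J6.mem_nat (n := 107) (d := 100) (by norm_num) (by norm_num)) hx hI ?_ hT
    intro SN sN cN mS ms mc mcp hobj
    exact e3_sound hx hI mS ms mc mcp m1 m2 m3 a1 a2 a3 a4 a5 a6 a7 a8 cos_two_fifth_le a9 a10 a11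
      a12 hobj
  · exact NI.mem_rng (by norm_num) (by push_cast; linarith [D.x0]) (by push_cast; linarith [D.x1])
  · exact NI.mem_rng (by norm_num) (by push_cast; linarith) (by push_cast; linarith)
  · exact NI.mem_rng (by norm_num) (by norm_num) (by norm_num)
  · exact NI.mem_rng (by norm_num) (by norm_num) (by norm_num)

/-- **(E3)** at an inner `2` between a closed end and a vertex `k` with at least three twists; `b`
is the weight towards `k`. -/
theorem e3_end23 (h : Zr a nl nr 1 z) (h3 : ∀ i, 3 ≤ a i → a i = 3 ∨ 4 ≤ a i) {i j k : ι}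
    (hj : Zr.IsEnd2 a nl nr j i) (ha : a i = 2) (hin : In2 nl nr i)
    (hk : nl i = some k ∨ nr i = some k) (hkj : k ≠ j) (hk3 : 3 ≤ a k) {ρ η0 η1 : ℝ}
    (h1 : Real.sinh η1 = Real.tan (th (z i).re (z i).im) * Real.cos (2 / 5 * Real.pi))
    (h0 : Real.sinh η0 = Real.tan (th (z i).re (z i).im) * Real.cos ρ)
    (hρ : ρ ≤ Real.pi / 2) :
    (333 / 1000 * Real.pi ≤ ρ → bw (z i) (z k) * (η1 / 5 - 49 / 50 * (2 / Real.pi) *
      ((ρ - (z i).re) * ((z i).im - η0))) ≤ 62 / 1000) ∧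
    (338 / 1000 * Real.pi ≤ ρ → bw (z i) (z k) * (η1 / 5 - 49 / 50 * (2 / Real.pi) *
      ((ρ - (z i).re) * ((z i).im - η0))) ≤ 60 / 1000) ∧
    (346 / 1000 * Real.pi ≤ ρ → bw (z i) (z k) * (η1 / 5 - 49 / 50 * (2 / Real.pi) *
      ((ρ - (z i).re) * ((z i).im - η0))) ≤ 55 / 1000) ∧
    (351 / 1000 * Real.pi ≤ ρ → bw (z i) (z k) * (η1 / 5 - 49 / 50 * (2 / Real.pi) *
      ((ρ - (z i).re) * ((z i).im - η0))) ≤ 52 / 1000) ∧
    (372 / 1000 * Real.pi ≤ ρ → bw (z i) (z k) * (η1 / 5 - 49 / 50 * (2 / Real.pi) *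
      ((ρ - (z i).re) * ((z i).im - η0))) ≤ 36 / 1000) ∧
    (375 / 1000 * Real.pi ≤ ρ → bw (z i) (z k) * (η1 / 5 - 49 / 50 * (2 / Real.pi) *
      ((ρ - (z i).re) * ((z i).im - η0))) ≤ 34 / 1000) ∧
    (a k = 3 → 333 / 1000 * Real.pi ≤ ρ → bw (z i) (z k) * (η1 / 5 - 49 / 50 * (2 / Real.pi) *
      ((ρ - (z i).re) * ((z i).im - η0))) ≤ 55 / 1000) := by
  have hpi := Real.pi_gt_d6
  have key : ∀ {fl : Bool} {ρc cc ec : ℕ}, cert fl ρc cc ec = true → (fl = true → a k = 3) →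
      95 / 100 ≤ (ρc : ℝ) / 100000 →
      1 - ((ρc : ℝ) / 100000) ^ 2 / 2 + ((ρc : ℝ) / 100000) ^ 4 / 24 -
        ((ρc : ℝ) / 100000) ^ 6 / 720 + ((ρc : ℝ) / 100000) ^ 8 / 40320 ≤ (cc : ℝ) / 100000 →
      (ρc : ℝ) / 100000 ≤ ρ → bw (z i) (z k) * (η1 / 5 - 49 / 50 * (2 / Real.pi) *
        ((ρ - (z i).re) * ((z i).im - η0))) ≤ (ec : ℝ) / 1000 := by
    intro fl ρc cc ec hc hfl a1 a2 a3
    exact e3_of_cert hc h h3 hj ha hin hk hkj hk3 hfl h1 h0 hρ a3 a1
      ((n_c8 (by linarith)).trans a2)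
  refine ⟨fun hr => ?_, fun hr => ?_, fun hr => ?_, fun hr => ?_, fun hr => ?_, fun hr => ?_,
    fun h3k hr => ?_⟩
  · have := key c333 (fun e => absurd e (by decide)) (by norm_num) (by norm_num)
      (by push_cast; linarith)
    push_cast at this; exact this
  · have := key c338 (fun e => absurd e (by decide)) (by norm_num) (by norm_num)
      (by push_cast; linarith)
    push_cast at this; exact this
  · have := key c346 (fun e => absurd e (by decide)) (by norm_num) (by norm_num)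
      (by push_cast; linarith)
    push_cast at this; exact this
  · have := key c351 (fun e => absurd e (by decide)) (by norm_num) (by norm_num)
      (by push_cast; linarith)
    push_cast at this; exact this
  · have := key c372 (fun e => absurd e (by decide)) (by norm_num) (by norm_num)
      (by push_cast; linarith)
    push_cast at this; exact this
  · have := key c375 (fun e => absurd e (by decide)) (by norm_num) (by norm_num)
      (by push_cast; linarith)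
    push_cast at this; exact this
  · have := key c333' (fun _ => h3k) (by norm_num) (by norm_num) (by push_cast; linarith)
    push_cast at this; exact this

end

end Pool.Agent.S3.Cl
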