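import Pool.Agent.S3.Cl.Ineq2

/-!
# Stage 3: closed ends next to an inner `2`: the numerical hypotheses

`θm`: `sin² θm = 63/163`; `xm = log (10/3)`.
-/

namespace Pool.Agent.S3.Cl

open Complex Pool.Agent.S3 Set
open Pool.Agent.H25.RK (gdv gdv_re_lt gdv_hasDerivAt)

variable {Φ : ℂ → ℂ} {θ xc b v1 : ℝ}

/-- `sin θ cosh Y = sinh Y cosh x` -/
theorem sin_ch {x t : ℝ} (h : |t| < Real.pi / 2) :
    Real.sin t * Real.cosh (Ya x t) = Real.sinh (Ya x t) * Real.cosh x := by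
  have g1 := (geo_cos (x := x) h).1
  have g2 := (geo_sin (x := x) h).2
  have hc := cos_Ra_pos (x := x) h
  have n := nc_pos (x := x) h
  apply mul_left_cancel₀ (mul_pos hc n).ne'
  have a1 : Real.cos (Ra x t) * Real.cosh (Ya x t) * normSq (cosh (UU x t))
      = Real.cosh x * Real.cos t := by
    rw [g1]; field_simp
  have a2 : Real.cos (Ra x t) * Real.sinh (Ya x t) * normSq (cosh (UU x t))
      = Real.sin t * Real.cos t := by
    rw [g2]; field_simp
  linear_combination (Real.sin t) * a1 - (Real.cosh x) * a2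

/-- `sinh² Y (cosh² x - sin² t) = sin² t` -/
theorem sh_Ya_sq {x t : ℝ} (h : |t| < Real.pi / 2) :
    Real.sinh (Ya x t) ^ 2 * (Real.cosh x ^ 2 - Real.sin t ^ 2) = Real.sin t ^ 2 := by
  have e := sin_ch (x := x) h
  have h2 := Real.cosh_sq (Ya x t)
  have e2 : (Real.sin t * Real.cosh (Ya x t)) ^ 2 = (Real.sinh (Ya x t) * Real.cosh x) ^ 2 := by
    rw [e]
  rw [mul_pow, mul_pow, h2] at e2
  linarith

/-! ### the largest height -/

/-- the largest height -/
noncomputable def θm : ℝ := Real.arcsin √(63 / 163)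

theorem sq63 : √(63 / 163 : ℝ) ^ 2 = 63 / 163 := Real.sq_sqrt (by norm_num)

theorem sq63_le : √(63 / 163 : ℝ) ≤ 6217 / 10000 := by
  rw [Real.sqrt_le_left (by norm_num)]; norm_num

theorem sq63_ge : 62169 / 100000 ≤ √(63 / 163 : ℝ) := by
  apply Real.le_sqrt_of_sq_le; norm_num

theorem sin_θm : Real.sin θm = √(63 / 163) :=
  Real.sin_arcsin (by linarith [Real.sqrt_nonneg (63 / 163 : ℝ)]) (by linarith [sq63_le])

theorem sin_θm_sq : Real.sin θm ^ 2 = 63 / 163 := by rw [sin_θm, sq63]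

theorem θm_ge : 67 / 100 ≤ θm := by
  have hpi := Real.pi_gt_three
  have h1 := n_s5 (x := 67 / 100) (by norm_num)
  have h2 : Real.sin (67 / 100) ≤ √(63 / 163) := by
    refine le_trans h1 (le_trans ?_ sq63_ge)
    norm_num
  rw [θm]
  exact (Real.le_arcsin_iff_sin_le' ⟨by linarith, by linarith⟩).2 h2

theorem θm_le : θm ≤ 68 / 100 := by
  have hpi := Real.pi_gt_three
  have h1 := n_s3 (x := 68 / 100) (by norm_num)
  have h2 : √(63 / 163) ≤ Real.sin (68 / 100) := by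
    refine le_trans sq63_le (le_trans ?_ h1)
    norm_num
  rw [θm]
  exact (Real.arcsin_le_iff_le_sin' ⟨by linarith, by linarith⟩).2 h2

theorem le_θm (h0 : 0 ≤ θ) (h1 : θ ≤ Real.pi / 4) (hT : 163 * Real.sin θ ^ 2 ≤ 63) : θ ≤ θm := by
  have hpi := Real.pi_pos
  rw [θm]
  apply (Real.le_arcsin_iff_sin_le' ⟨by linarith, by linarith⟩).2
  apply Real.le_sqrt_of_sq_le
  linarith

theorem abs_le_θm {t : ℝ} (h0 : 0 ≤ t) (h1 : t ≤ θm) : |t| < Real.pi / 2 := by
  have := θm_le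
  have := Real.pi_gt_three
  rw [abs_of_nonneg h0]
  linarith

theorem cos_θm_sq : Real.cos θm ^ 2 = 100 / 163 := by
  have := Real.sin_sq_add_cos_sq θm
  have := sin_θm_sq
  linarith

theorem sin_sq_le {t : ℝ} (h0 : 0 ≤ t) (h1 : t ≤ θm) : Real.sin t ^ 2 ≤ 63 / 163 := by
  have hpi := Real.pi_gt_three
  have := θm_le
  rw [← sin_θm_sq]
  apply pow_le_pow_left₀
  · exact Real.sin_nonneg_of_nonneg_of_le_pi h0 (by linarith)
  · exact Real.sin_le_sin_of_le_of_le_pi_div_two (by linarith) (by linarith) h1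

theorem tan_le {t : ℝ} (h0 : 0 ≤ t) (h1 : t ≤ θm) : Real.sin t ≤ 794 / 1000 * Real.cos t := by
  have hc := cos_pos' (abs_le_θm h0 h1)
  have h2 := sin_sq_le h0 h1
  have h3 := Real.sin_sq_add_cos_sq t
  by_contra hcon
  push Not at hcon
  have : (794 / 1000 * Real.cos t) ^ 2 < Real.sin t ^ 2 :=
    pow_lt_pow_left₀ hcon (by positivity) two_ne_zero
  nlinarith

theorem Ya0_le {t : ℝ} (h0 : 0 ≤ t) (h1 : t ≤ θm) : Ya 0 t ≤ 73 / 100 := by
  have ht := abs_le_θm h0 h1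
  have c := curve (x := 0) ht
  rw [Ra_zero_x ht, Real.cos_zero, mul_one] at c
  have hc := cos_pos' ht
  have h2 := tan_le h0 h1
  have h3 : Real.sinh (Ya 0 t) ≤ 794 / 1000 := by
    by_contra hcon
    push Not at hcon
    nlinarith
  exact n_le_of_sinh (by norm_num) h3 (by norm_num)

/-! ### `z1` -/

/-- the largest abscissa -/
noncomputable def xm : ℝ := Real.log (10 / 3)

theorem exp_xm : Real.exp xm = 10 / 3 := Real.exp_log (by norm_num)

theorem exp_neg_xm : Real.exp (-xm) = 3 / 10 := by rw [Real.exp_neg, exp_xm]; norm_num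

theorem cosh_xm : Real.cosh xm = 109 / 60 := by
  rw [Real.cosh_eq, exp_xm, exp_neg_xm]; norm_num

theorem sinh_xm : Real.sinh xm = 91 / 60 := by
  rw [Real.sinh_eq, exp_xm, exp_neg_xm]; norm_num

theorem xm_ge : 12 / 10 ≤ xm := by
  rw [xm, Real.le_log_iff_exp_le (by norm_num)]
  have h2 : Real.exp (12 / 10) = Real.exp 1 * Real.exp (2 / 10) := by
    rw [← Real.exp_add]; norm_num
  have h3 := Real.exp_one_lt_d9
  have h4 := Real.exp_bound' (x := 2 / 10) (by norm_num) (by norm_num) (n := 4) (by norm_num)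
  norm_num [Finset.sum_range_succ, Nat.factorial] at h4
  have h5 : Real.exp 1 * Real.exp (2 / 10) ≤ 2.7182818286 * (12215 / 10000) := by
    apply mul_le_mul h3.le _ (Real.exp_pos _).le (by norm_num)
    linarith
  rw [h2]
  norm_num at h5
  linarith

theorem g2_xm : g2 xm = 582 / 1000 * xm + 594 / 1000 := by
  have h3 : Real.exp (-(3 * xm)) = (3 / 10) ^ 3 := by
    rw [← exp_neg_xm, ← Real.exp_nat_mul]
    congr 1
    push_cast
    ring
  rw [g2, h3, exp_neg_xm]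
  ring

/-- the function of `t` -/
noncomputable def Hz (Φ : ℂ → ℂ) (t : ℝ) : ℝ :=
  VV Φ xm t - Ya 0 t * (Real.pi - t - Ra xm t)

theorem Hz_anti (hΦ : IsPhi1 Φ) : AntitoneOn (Hz Φ) (Icc 0 θm) := by
  have hd : ∀ t : ℝ, 0 ≤ t → t ≤ θm → HasDerivAt (Hz Φ)
      (-(xm * (I / cosh (UU xm t)).re + Ya xm t) -
        ((I / cosh (UU 0 t)).im * (Real.pi - t - Ra xm t) +
          Ya 0 t * (0 - 1 - (I / cosh (UU xm t)).re))) t := by
    intro t h0 h1
    have ht := abs_le_θm h0 h1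
    exact (VV_dt hΦ ht).sub ((Ya_dt (x := 0) ht).mul
      (((hasDerivAt_const t Real.pi).sub (hasDerivAt_id t)).sub (Ra_dt (x := xm) ht)))
  apply antitoneOn_of_deriv_nonpos (convex_Icc _ _)
  · exact fun t ht => (hd t ht.1 ht.2).continuousAt.continuousWithinAt
  · intro t ht
    rw [interior_Icc] at ht
    exact (hd t ht.1.le ht.2.le).differentiableAt.differentiableWithinAt
  · intro t ht
    rw [interior_Icc] at ht
    have h0 := ht.1.le
    have h1 := ht.2.le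
    have hat := abs_le_θm h0 h1
    have ht2 : t < Real.pi / 2 := by rwa [abs_of_nonneg h0] at hat
    rw [(hd t h0 h1).deriv]
    have hpi := Real.pi_gt_d2
    have hY := Ya_nonneg (x := xm) h0 ht2
    have hY0 := Ya0_le h0 h1
    have hY0n := Ya_nonneg (x := 0) h0 ht2
    have hxm := xm_ge
    have hR := Ra_dt_nonneg (x := xm) (by linarith) h0 ht2
    have hRl := (abs_lt.1 (Ra_lt (x := xm) hat)).2
    have hθ := θm_le
    have hk : 1 ≤ (I / cosh (UU 0 t)).im := by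
      have hc := cos_pos' hat
      have hs := Real.sin_sq_add_cos_sq t
      rw [I_div_im, inv_cosh_re, normSq_c, Real.cosh_zero, one_mul, le_div_iff₀]
      · nlinarith [Real.cos_le_one t]
      · nlinarith
    have a1 : 8 / 10 ≤ Real.pi - t - Ra xm t := by linarith
    have a2 : 8 / 10 ≤ (I / cosh (UU 0 t)).im * (Real.pi - t - Ra xm t) := by nlinarith
    have a3 : Ya 0 t * (I / cosh (UU xm t)).re ≤ xm * (I / cosh (UU xm t)).re :=
      mul_le_mul_of_nonneg_right (by linarith) hR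
    nlinarith

theorem Hz_θm (hΦ : IsPhi1 Φ) (h0 : Φ 0 = Fc 0) : 0 < Hz Φ θm := by
  have hpi := Real.pi_lt_d4
  have hθ1 := θm_ge
  have hθ2 := θm_le
  have hθ0 : 0 ≤ θm := by linarith
  have hat := abs_le_θm hθ0 le_rfl
  have ht2 : θm < Real.pi / 2 := by rwa [abs_of_nonneg hθ0] at hat
  have hxm := xm_ge
  have hx0 : 0 ≤ xm := by linarith
  have hV := VV_ge hΦ (x := xm) hθ0 ht2
  have hV0 := VV_zero_ge hΦ h0 hx0
  rw [g2_xm] at hV0
  have hs := sin_θm
  have hsl := sq63_le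
  have hsg := sq63_ge
  have hc := cos_θm_sq
  have hcp := cos_pos' hat
  have hc1 : 783 / 1000 ≤ Real.cos θm := by nlinarith
  -- `R`
  have hR1 : Ra xm θm ≤ 111 / 100 := by
    by_contra hcon
    push Not at hcon
    have hRl := (abs_lt.1 (Ra_lt (x := xm) hat)).2
    have hpi2 := Real.pi_gt_d2
    have h1 := n_tan_ge (R := min (Ra xm θm) (3 / 2)) (R0 := 111 / 100) (t := 195 / 100)
      (by norm_num) (le_min hcon.le (by norm_num)) (min_le_right _ _) (by norm_num) (by norm_num)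
    -- monotonicity of the tangent beyond `3/2`
    have hcR := cos_Ra_pos (x := xm) hat
    have h2 : 195 / 100 * Real.cos (Ra xm θm) ≤ Real.sin (Ra xm θm) := by
      rcases le_total (Ra xm θm) (3 / 2) with h3 | h3
      · rwa [min_eq_left h3] at h1
      · rw [min_eq_right h3] at h1
        have a1 : Real.sin (3 / 2) ≤ Real.sin (Ra xm θm) :=
          Real.sin_le_sin_of_le_of_le_pi_div_two (by linarith) (by linarith) h3
        have a2 : Real.cos (Ra xm θm) ≤ Real.cos (3 / 2) :=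
          Real.cos_le_cos_of_nonneg_of_le_pi (by norm_num) (by linarith) h3
        linarith
    have h3 := RaS (x := xm) hat
    rw [sinh_xm] at h3
    have h4 : 195 / 100 * Real.cos (Ra xm θm) * (783 / 1000) ≤ Real.sin (Ra xm θm) * Real.cos θm := by
      apply mul_le_mul h2 hc1 (by norm_num)
      linarith [mul_pos (show (0 : ℝ) < 195 / 100 by norm_num) hcR]
    rw [h3] at h4
    linarith
  -- `gd xm`
  have hG1 : 985 / 1000 ≤ Ra xm 0 := by
    by_contra hcon
    push Not at hcon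
    have h1 := cos_Ra xm
    rw [cosh_xm] at h1
    have h2 : Real.cos (985 / 1000) ≤ Real.cos (Ra xm 0) :=
      Real.cos_le_cos_of_nonneg_of_le_pi (Ra_nonneg hx0 abs_zero_lt)
        (by linarith [Real.pi_gt_three]) hcon.le
    have h3 := n_c6 (x := 985 / 1000) (by norm_num)
    rw [h1] at h2
    norm_num at h3 h2
    linarith
  have hY : Ya xm θm ≤ 365 / 1000 := by
    have h1 := sh_Ya_sq (x := xm) hat
    rw [cosh_xm, sin_θm_sq] at h1
    have h2 := Ya_nonneg (x := xm) hθ0 ht2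
    have h3 : Ya xm θm ≤ Real.sinh (Ya xm θm) := Real.self_le_sinh_iff.2 h2
    nlinarith
  have hYn := Ya_nonneg (x := xm) hθ0 ht2
  have ht : Real.tan (θm / 2) ≤ 35 / 100 := by
    have hc2 : 0 < Real.cos (θm / 2) := by
      apply cos_pos'
      rw [abs_div, abs_two]
      have := abs_nonneg θm
      linarith
    have e1 : Real.cos θm = 2 * Real.cos (θm / 2) ^ 2 - 1 := by
      rw [← Real.cos_two_mul]; congr 1; ring
    have e2 : Real.sin θm = 2 * Real.sin (θm / 2) * Real.cos (θm / 2) := by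
      rw [← Real.sin_two_mul]; congr 1; ring
    have e3 : Real.tan (θm / 2) * (1 + Real.cos θm) = Real.sin θm := by
      rw [Real.tan_eq_sin_div_cos, e1, e2]
      field_simp
      ring
    rw [hs] at e3
    nlinarith
  have htn : 0 ≤ Real.tan (θm / 2) := by
    apply Real.tan_nonneg_of_nonneg_of_le_pi_div_two (by linarith)
    linarith [Real.pi_pos]
  have hYt : Ya xm θm * Real.tan (θm / 2) ≤ 365 / 1000 * (35 / 100) :=
    mul_le_mul hY ht htn (by norm_num)
  have hY0 := Ya0_le hθ0 le_rfl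
  have hRn := Ra_nonneg hx0 hat
  have k1 : Ya 0 θm * (Real.pi - θm - Ra xm θm) ≤ 73 / 100 * (Real.pi - θm - Ra xm θm) := by
    apply mul_le_mul_of_nonneg_right hY0
    linarith [Real.pi_gt_three]
  unfold Hz
  nlinarith

/-- `z1` -/
theorem z1_of (hΦ : IsPhi1 Φ) (h0 : Φ 0 = Fc 0) (θ0 : 0 ≤ θ) (hθ : θ ≤ θm)
    (hx : 3 / 4 ≤ xc) (hx1 : xc ≤ xm) :
    Ya 0 θ * (Real.pi - θ - Ra xc θ) < VV Φ xc θ := by
  have hat := abs_le_θm θ0 hθ
  have h1 := Hz_anti hΦ (a := θ) (b := θm) ⟨θ0, hθ⟩ ⟨θ0.trans hθ, le_rfl⟩ hθ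
  have h2 := Hz_θm hΦ h0
  have hY0 := Ya0_le θ0 hθ
  have hc : VV Φ xm θ + Ya 0 θ * Ra xm θ ≤ VV Φ xc θ + Ya 0 θ * Ra xc θ :=
    VV_anti_c' hΦ (c := Ya 0 θ) hat (a := xc) (b := xm) (mem_Ici.2 (by linarith))
      (mem_Ici.2 (by linarith)) hx1
  unfold Hz at h1 h2
  nlinarith

/-! ### `z2` -/

theorem cos_two_fifth : Real.cos (2 * Real.pi / 5) = (√5 - 1) / 4 := by
  have a1 : Real.cos (2 * Real.pi / 5) = 2 * Real.cos (Real.pi / 5) ^ 2 - 1 := by
    rw [← Real.cos_two_mul]; congr 1; ring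
  rw [Real.cos_pi_div_five] at a1
  have a2 : (√5) ^ 2 = 5 := Real.sq_sqrt (by norm_num)
  rw [a1]; nlinarith

theorem sq5_ge : (22360 / 10000 : ℝ) ≤ √5 := by
  apply Real.le_sqrt_of_sq_le; norm_num

theorem sq5_le : √5 ≤ (22361 / 10000 : ℝ) := by
  rw [Real.sqrt_le_left (by norm_num)]; norm_num

theorem g2_ge2 {x : ℝ} (hx : 0 ≤ x) (h : Real.cosh x = √5 + 1) : 89 / 100 ≤ g2 x := by
  have q1 := sq5_ge
  have q2 := sq5_le
  have hs : Real.sinh x ^ 2 = (√5 + 1) ^ 2 - 1 := by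
    have := Real.cosh_sq x
    rw [h] at this
    linarith
  have hs0 : 0 ≤ Real.sinh x := Real.sinh_nonneg_iff.2 hx
  have e1 : Real.exp (-x) = (√5 + 1) - Real.sinh x := by rw [← h, Real.cosh_sub_sinh]
  have e2 : Real.exp x = (√5 + 1) + Real.sinh x := by rw [← h, Real.cosh_add_sinh]
  have s1 : 30775 / 10000 ≤ Real.sinh x := by nlinarith
  have s2 : Real.sinh x ≤ 30778 / 10000 := by nlinarith
  have ee : Real.exp (-x) * Real.exp x = 1 := by rw [← Real.exp_add]; simp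
  have E0 : 1583 / 10000 ≤ Real.exp (-x) := by
    have : Real.exp x ≤ 6314 / 1000 := by rw [e2]; linarith
    nlinarith [Real.exp_pos (-x)]
  have E2 : Real.exp (-x) ≤ 1585 / 10000 := by
    have : 63135 / 10000 ≤ Real.exp x := by rw [e2]; linarith
    nlinarith [Real.exp_pos (-x)]
  have b1 : 183 / 100 ≤ x := by
    by_contra hc
    push Not at hc
    have h1 : Real.exp x < Real.exp (183 / 100) := Real.exp_lt_exp.2 hc
    have h2 : Real.exp (183 / 100) = Real.exp 1 * Real.exp (83 / 100) := by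
      rw [← Real.exp_add]; norm_num
    have h3 := Real.exp_one_lt_d9
    have h4 := Real.exp_bound' (x := 83 / 100) (by norm_num) (by norm_num) (n := 6) (by norm_num)
    norm_num [Finset.sum_range_succ, Nat.factorial] at h4
    have h5 : Real.exp 1 * Real.exp (83 / 100) ≤ 2.7182818286 * (22940 / 10000) := by
      apply mul_le_mul h3.le _ (Real.exp_pos _).le (by norm_num)
      linarith
    rw [h2] at h1
    norm_num at h5
    linarith
  have b2 : x ≤ 19 / 10 := by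
    by_contra hc
    push Not at hc
    have h1 : Real.exp (19 / 10) < Real.exp x := Real.exp_lt_exp.2 hc
    have h2 := Real.sum_le_exp_of_nonneg (x := 19 / 10) (by norm_num) 7
    have h3 : (64 / 10 : ℝ) ≤ ∑ i ∈ Finset.range 7, (19 / 10 : ℝ) ^ i / (Nat.factorial i : ℝ) := by
      norm_num [Finset.sum_range_succ, Nat.factorial]
    linarith [h3.trans h2]
  have e3 : Real.exp (-(3 * x)) = Real.exp (-x) ^ 3 := by
    rw [← Real.exp_nat_mul]
    congr 1
    push_cast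
    ring
  rw [g2, e3]
  set E := Real.exp (-x) with hE
  have h1 : 2 * (183 / 100 + 1) * (1583 / 10000) ≤ 2 * (x + 1) * E :=
    mul_le_mul (by linarith) E0 (by norm_num) (by linarith)
  have h2 : E ^ 3 ≤ (1585 / 10000) ^ 3 := pow_le_pow_left₀ (by linarith) E2 3
  have h3 : 2 / 9 * (3 * x + 1) * E ^ 3 ≤ 2 / 9 * (3 * (19 / 10) + 1) * (1585 / 10000) ^ 3 :=
    mul_le_mul (by linarith) h2 (by positivity) (by norm_num)
  norm_num at h1 h3
  linarith

/-- lower bound of `V` at the abscissa `2/5` -/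
theorem VV_two_fifth (hΦ : IsPhi1 Φ) (h0 : Φ 0 = Fc 0) (θ0 : 0 ≤ θ) (θ1 : θ < Real.pi / 2) {x : ℝ}
    (hR : Ra x θ = 2 * Real.pi / 5) : 89 / 100 - θ * Ya x θ ≤ VV Φ x θ := by
  have hpi := Real.pi_pos
  obtain ⟨x0, t0, a1, a2, a3, a4, a5, a6⟩ :=
    coord (v := ((2 / 5 : ℝ) : ℂ)) (by rw [ofReal_re]; norm_num)
  rw [ofReal_re] at a3 a5
  rw [ofReal_im, mul_zero] at a4
  have hx0 : 0 ≤ x0 := a5 (by norm_num)
  have ht0 : t0 = 0 := by
    have c := curve (x := x0) a1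
    rw [a4, Real.sinh_zero, zero_mul] at c
    have h2 := cos_Ra_pos (x := x0) a1
    have h3 : Real.sin t0 = 0 := by
      rcases mul_eq_zero.1 c.symm with h | h
      · exact h
      · exact absurd h h2.ne'
    have h4 := abs_lt.1 a1
    exact (Real.sin_eq_zero_iff_of_lt_of_lt (by linarith) (by linarith)).1 h3
  subst ht0
  have hcosh : Real.cosh x0 = √5 + 1 := by
    have h1 := cos_Ra x0
    rw [a3, show Real.pi * (2 / 5) = 2 * Real.pi / 5 by ring, cos_two_fifth] at h1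
    have h2 := (Real.cosh_pos x0).ne'
    have h3 : (√5) ^ 2 = 5 := Real.sq_sqrt (by norm_num)
    have h4 := sq5_ge
    field_simp at h1
    have h5 : (√5 - 1) ≠ 0 := by
      intro h
      linarith
    apply mul_left_cancel₀ h5
    linarith
  have hA := (g2_ge2 hx0 hcosh).trans (VV_zero_ge hΦ h0 hx0)
  have hY := Ya_nonneg (x := x) θ0 θ1
  have hRr : |2 * Real.pi / 5| < Real.pi / 2 := by
    rw [abs_of_pos (by positivity)]
    linarith
  have m := vert_mono hΦ hRr (a := 0) (b := Ya x θ) (mem_Ici.2 le_rfl) (mem_Ici.2 hY) hY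
  simp only [mul_zero, sub_zero] at m
  have g1 : gd (UU x θ) = UU (2 * Real.pi / 5) (Ya x θ) := by
    rw [gd_eta, hR]; rfl
  have g2' : gd (UU x0 0) = UU (2 * Real.pi / 5) 0 := by
    rw [gd_eta, a3, a4, show Real.pi * (2 / 5) = 2 * Real.pi / 5 by ring]; rfl
  rw [VV, g2', a4, mul_zero, sub_zero] at hA
  rw [VV, g1, hR]
  linarith

theorem Kz_mono {x : ℝ} : MonotoneOn (fun t => Ya x t * (3 * Real.pi / 5 - t)) (Icc 0 θm) := by
  have hd : ∀ t : ℝ, 0 ≤ t → t ≤ θm → HasDerivAt (fun t => Ya x t * (3 * Real.pi / 5 - t))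
      ((I / cosh (UU x t)).im * (3 * Real.pi / 5 - t) + Ya x t * (0 - 1)) t := by
    intro t h0 h1
    have ht := abs_le_θm h0 h1
    exact (Ya_dt (x := x) ht).mul ((hasDerivAt_const t (3 * Real.pi / 5)).sub (hasDerivAt_id t))
  apply monotoneOn_of_deriv_nonneg (convex_Icc _ _)
  · exact fun t ht => (hd t ht.1 ht.2).continuousAt.continuousWithinAt
  · intro t ht
    rw [interior_Icc] at ht
    exact (hd t ht.1.le ht.2.le).differentiableAt.differentiableWithinAt
  · intro t ht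
    rw [interior_Icc] at ht
    have h0 := ht.1.le
    have h1 := ht.2.le
    have hat := abs_le_θm h0 h1
    have ht2 : t < Real.pi / 2 := by rwa [abs_of_nonneg h0] at hat
    rw [(hd t h0 h1).deriv]
    have hpi := Real.pi_gt_d2
    have hY := Ya_nonneg (x := x) h0 ht2
    have hk := Ya_le (x := x) h0 ht2
    have hc := cos_pos' hat
    have htan := tan_le h0 h1
    have hYt : 0 < (I / cosh (UU x t)).im := by rw [I_div_im]; exact Ra_dx_pos hat
    have hθ := θm_le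
    have h2 : Ya x t * Real.cos t ≤ (I / cosh (UU x t)).im * (794 / 1000) * Real.cos t := by
      calc _ ≤ (I / cosh (UU x t)).im * Real.sin t := hk
        _ ≤ (I / cosh (UU x t)).im * (794 / 1000 * Real.cos t) :=
          mul_le_mul_of_nonneg_left htan hYt.le
        _ = _ := by ring
    have h3 : Ya x t ≤ (I / cosh (UU x t)).im * (794 / 1000) := le_of_mul_le_mul_right h2 hc
    nlinarith

theorem Ya_34 : Ya (3 / 4) θm ≤ 5235 / 10000 := by
  have hθ1 := θm_ge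
  have hθ0 : 0 ≤ θm := by linarith
  have hat := abs_le_θm hθ0 le_rfl
  have ht2 : θm < Real.pi / 2 := by rwa [abs_of_nonneg hθ0] at hat
  have h1 := sh_Ya_sq (x := 3 / 4) hat
  rw [sin_θm_sq] at h1
  have h2 := n_ch4 (x := 3 / 4) (by norm_num)
  norm_num at h2
  have h3 : 16755 / 10000 ≤ Real.cosh (3 / 4) ^ 2 := by nlinarith
  have h4 := Ya_nonneg (x := 3 / 4) hθ0 ht2
  have h5 : 0 ≤ Real.sinh (Ya (3 / 4) θm) := Real.sinh_nonneg_iff.2 h4
  have h6 : Real.sinh (Ya (3 / 4) θm) ^ 2 ≤ 29988 / 100000 := by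
    have h7 : 12889 / 10000 ≤ Real.cosh (3 / 4) ^ 2 - 63 / 163 := by linarith
    nlinarith [sq_nonneg (Real.sinh (Ya (3 / 4) θm))]
  have h7 : Real.sinh (Ya (3 / 4) θm) ≤ 5477 / 10000 := by nlinarith
  exact n_le_of_sinh (by norm_num) h7 (by norm_num)

theorem Yc_le (θ0 : 0 ≤ θ) (hθ : θ ≤ θm) (hx : 3 / 4 ≤ xc) : Ya xc θ ≤ Ya (3 / 4) θ := by
  have hat := abs_le_θm θ0 hθ
  have ht2 : θ < Real.pi / 2 := by rwa [abs_of_nonneg θ0] at hat
  exact Ya_anti θ0 ht2 (mem_Ici.2 (by norm_num)) (mem_Ici.2 (by linarith)) hx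

theorem Kc_le (θ0 : 0 ≤ θ) (hθ : θ ≤ θm) (hx : 3 / 4 ≤ xc) :
    Ya xc θ * (3 * Real.pi / 5 - θ) ≤ 5235 / 10000 * (3 * Real.pi / 5 - θm) := by
  have hpi := Real.pi_gt_three
  have h1 := Yc_le θ0 hθ hx
  have h2 := Kz_mono (x := 3 / 4) (a := θ) (b := θm) ⟨θ0, hθ⟩ ⟨θ0.trans hθ, le_rfl⟩ hθ
  simp only at h2
  have h3 := θm_le
  have h4 : Ya xc θ * (3 * Real.pi / 5 - θ) ≤ Ya (3 / 4) θ * (3 * Real.pi / 5 - θ) :=
    mul_le_mul_of_nonneg_right h1 (by linarith)
  have h5 : Ya (3 / 4) θm * (3 * Real.pi / 5 - θm) ≤ 5235 / 10000 * (3 * Real.pi / 5 - θm) :=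
    mul_le_mul_of_nonneg_right Ya_34 (by linarith)
  linarith

theorem Yc_le' (θ0 : 0 ≤ θ) (hθ : θ ≤ θm) (hx : 3 / 4 ≤ xc) : Ya xc θ ≤ 5235 / 10000 := by
  have hpi := Real.pi_gt_three
  have h1 := Kc_le θ0 hθ hx
  have h3 := θm_le
  have h2 : 0 ≤ Ya xc θ := by
    have hat := abs_le_θm θ0 hθ
    rw [abs_of_nonneg θ0] at hat
    exact Ya_nonneg θ0 hat
  have h4 : 0 < 3 * Real.pi / 5 - θm := by linarith
  by_contra hc
  push Not at hc
  have h5 : 5235 / 10000 * (3 * Real.pi / 5 - θm) < Ya xc θ * (3 * Real.pi / 5 - θm) :=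
    mul_lt_mul_of_pos_right hc h4
  have h6 : Ya xc θ * (3 * Real.pi / 5 - θm) ≤ Ya xc θ * (3 * Real.pi / 5 - θ) :=
    mul_le_mul_of_nonneg_left (by linarith) h2
  linarith

/-- `z2` -/
theorem z2_of (hΦ : IsPhi1 Φ) (h0 : Φ 0 = Fc 0) (θ0 : 0 ≤ θ) (hθ : θ ≤ θm)
    (hx : 3 / 4 ≤ xc) {x : ℝ} (hR : Ra x θ = 2 * Real.pi / 5) :
    Ya xc θ * (Real.pi - θ - 2 * Real.pi / 5) + (Real.pi - 4 * Real.pi / 5) / 10 < VV Φ x θ := by
  have hpi := Real.pi_gt_three
  have hpi2 := Real.pi_lt_d4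
  have hat := abs_le_θm θ0 hθ
  have ht2 : θ < Real.pi / 2 := by rwa [abs_of_nonneg θ0] at hat
  have hV := VV_two_fifth hΦ h0 θ0 ht2 hR
  have hK := Kc_le θ0 hθ hx
  have h1 := θm_ge
  have h2 := θm_le
  have hY : Ya x θ ≤ 2454 / 10000 := by
    have c := curve (x := x) hat
    rw [hR, cos_two_fifth] at c
    have hc := cos_pos' hat
    have ht := tan_le θ0 hθ
    have q2 := sq5_le
    have q1 := sq5_ge
    have hYn := Ya_nonneg (x := x) θ0 ht2
    have h3 : Ya x θ ≤ Real.sinh (Ya x θ) := Real.self_le_sinh_iff.2 hYn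
    have h4 : Real.sinh (Ya x θ) * Real.cos θ ≤ 2454 / 10000 * Real.cos θ := by
      rw [c]
      have h5 : Real.sin θ * ((√5 - 1) / 4) ≤ 794 / 1000 * Real.cos θ * ((√5 - 1) / 4) :=
        mul_le_mul_of_nonneg_right ht (by linarith)
      nlinarith
    exact h3.trans (le_of_mul_le_mul_right h4 hc)
  have hYn := Ya_nonneg (x := x) θ0 ht2
  have h5 : θ * Ya x θ ≤ 68 / 100 * (2454 / 10000) :=
    mul_le_mul (by linarith) hY hYn (by norm_num)
  have e : Real.pi - θ - 2 * Real.pi / 5 = 3 * Real.pi / 5 - θ := by ring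
  rw [e]
  nlinarith

/-- all hypotheses from the location of the critical point -/
theorem clH2 (hΦ : IsPhi1 Φ) (h0 : Φ 0 = Fc 0) (b0 : 0 < b)
    (hQ : (qcl (UU xc θ)).re = b * (gd (UU xc θ)).im) (θ0 : 0 < θ) (θ1 : θ ≤ Real.pi / 4)
    (hT : 163 * Real.sin θ ^ 2 ≤ 63) (hx : 3 / 4 ≤ xc) (hx1 : xc ≤ xm) (v0 : 0 < v1)
    (v2 : v1 ≤ 2 / 5) (hR : Ra xc θ < Real.pi * v1) : ClH2 Φ θ xc b v1 := by
  have hθ := le_θm θ0.le θ1 hT
  refine ⟨hΦ, h0, θ0, θ1, hT, by linarith, b0, hQ, v0, v2, hR, ?_, ?_,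
    z1_of hΦ h0 θ0.le hθ hx hx1, fun x hx2 => z2_of hΦ h0 θ0.le hθ hx hx2⟩
  · have h1 : Real.sinh xc ≤ 91 / 60 := by
      rw [← sinh_xm]; exact Real.sinh_le_sinh.2 hx1
    have h2 : Real.sin θ ≤ 6217 / 10000 := by
      by_contra hc
      push Not at hc
      nlinarith
    have h3 : 0 ≤ Real.sin θ :=
      Real.sin_nonneg_of_nonneg_of_le_pi θ0.le (by linarith [Real.pi_pos])
    have h4 : Real.sinh xc * Real.sin θ ≤ 91 / 60 * (6217 / 10000) :=
      mul_le_mul h1 h2 h3 (by norm_num)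
    norm_num at h4
    linarith
  · have := Yc_le' θ0.le hθ hx
    linarith

end Pool.Agent.S3.Cl
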