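import Pool.Agent.S3.Cl.Ineq2
import Pool.Agent.S3.Cl.Mir

/-!
# Stage 3: closed ends: the estimate of an edge with a closed end next to an inner `2`
-/

namespace Pool.Agent.S3.Cl

open Complex Pool.Agent.S3 Set
open Pool.Agent.H25.RK (gdv gdv_re_lt gdv_hasDerivAt)

variable {Φ : ℂ → ℂ} {θ xc b v1 r lam : ℝ}

/-! ### assembling `EdgeOK` -/

theorem ok_of2 {v : ℂ} {x t L : ℝ} (U : UH2 x t) (hv : |v.re| ≤ 1 / 2) (hi : 0 ≤ v.im)
    (hm : ‖sin (Real.pi * v)‖ ^ 2 ≤ 1)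
    (hse : ∀ y : ℂ, 0 ≤ y.re → y.re ≤ 1 / 2 →
      EE (.cl 1) (.op v) y ≤ EE (.cl 1) (.op (gdv (UU x t))) y)
    (hE : EE (.cl 1) (.op (gdv (UU x t))) (yc (UU x t)) < L)
    (hB : Real.pi * |(gdv (UU x t)).im| < L) (hB' : Real.pi * v.im < L)
    (h3 : 1 < Real.sinh x * Real.sin t → 0 ≤ t ∧
      Real.pi * (gdv (UU x t)).im + 1 / 10 * (1 - 2 * (gdv (UU x t)).re) < L) :
    EdgeOK (.op v) (.cl 1) L := by
  refine ⟨?_, ?_, ?_⟩
  · simp only [B0]
    linarith
  · intro y hy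
    rw [EE_op_cl]
    have h := mid_le hv hm hy.1 hy.2
    rw [abs_of_nonneg hi] at h
    linarith
  · apply pol_lt2 U _ hE hB h3
    intro y h0 h1 h2
    rw [EE_op_cl]
    exact lt_of_le_of_lt (hse y h0 h1) h2

theorem FF_eq2 (H : ClH2 Φ θ xc b v1) : EE (.op (gdv (UU xc θ))) (.cl 1) (yc (UU xc θ))
    = (Φ (gd (UU xc θ) / (Real.pi : ℂ))).re := by
  rw [EE_op_cl, bridge_cl H.hΦ H.h0 H.xc0.le (by rw [abs_of_pos H.θ0]; exact H.θ1)]

/-- the line -/
theorem ok_line2 (H : ClH2 Φ θ xc b v1) {v : ℂ} (h : |v.re| ≤ v1) (hi : v.im = bl θ v.re)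
    (hne : v ≠ gdv (UU xc θ)) : EdgeOK (.op v) (.cl 1) (Lcl θ xc b v1 r lam v) := by
  have hpi := Real.pi_pos
  have hv : |v.re| < 1 / 2 := lt_of_le_of_lt h H.vh
  have hi0 : 0 ≤ v.im := by rw [hi]; exact bl_nonneg H.θ0 H.th2 hv.le
  obtain ⟨x, t, a1, a2, a3, a4, -, -⟩ := coord hv
  have ht : t = θ := (t_le H.θ0 H.th2 hv hi0 a1 a3 a4).2.2 hi
  subst ht
  have hx : x ≠ xc := fun h0 => hne (by rw [← a2, h0])
  have e1 : Real.pi * Lcl t xc b v1 r lam v = LL Φ t xc b (Real.pi * v.re) (Real.pi * v.im) := by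
    rw [Lcl, pl_of_le h hi, sub_self, mul_zero, add_zero, FF_eq2 H, ell_eq H.hQ H.at']
  have hD := H.D_lt hx
  rw [a3, a4, ← e1] at hD
  have hZ := H.Z_line (x := x) (by rw [a3, abs_mul, abs_of_pos hpi]
                                   exact mul_le_mul_of_nonneg_left h hpi.le)
  rw [a3, a4, ← e1] at hZ
  have hE : (Φ (gd (UU x t) / (Real.pi : ℂ))).re < Lcl t xc b v1 r lam v :=
    lt_of_mul_lt_mul_left hD hpi.le
  have hB : Real.pi * v.im < Lcl t xc b v1 r lam v := lt_of_mul_lt_mul_left hZ hpi.le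
  have hm := sin_norm_le H.θ0 H.θ1 hi0 hi.le
  have ha := abs_le.1 h
  rcases le_total 0 x with h0 | h0
  · have U := (H.uh_of h0 H.θ0.le le_rfl (by rw [a3]; exact mul_le_mul_of_nonneg_left ha.2 hpi.le)).1
    apply ok_of2 U hv.le hi0 hm
    · intro y _ _; rw [a2]
    · rw [← bridge_cl H.hΦ H.h0 h0 U.ht]; exact hE
    · rw [a2, abs_of_nonneg hi0]; exact hB
    · exact hB
    · intro hs
      refine ⟨H.θ0.le, ?_⟩
      have hxx : xc ≤ x := by
        by_contra hc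
        push Not at hc
        have h5 : Real.sinh x ≤ Real.sinh xc := Real.sinh_le_sinh.2 hc.le
        have h6 : 0 ≤ Real.sin t :=
          Real.sin_nonneg_of_nonneg_of_le_pi H.θ0.le (by linarith [H.th2])
        have h7 := mul_le_mul_of_nonneg_right h5 h6
        have h8 := H.hx
        linarith
      have hF := H.Z_far hxx (by rw [a3]; exact mul_le_mul_of_nonneg_left ha.2 hpi.le)
      rw [a3, a4, ← e1] at hF
      rw [a2]
      apply lt_of_mul_lt_mul_left _ hpi.le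
      linarith
  · have hR : Ra (-x) t = -Ra x t := H.Ra_neg x
    have U := (H.uh_of (x := -x) (by linarith) H.θ0.le le_rfl (by
      rw [hR, a3]; nlinarith [ha.1])).2
    have e2 : UU (-x) (-t) = -UU x t := by rw [UU_neg]
    have e3 : gdv (UU (-x) (-t)) = -v := by
      rw [e2, gdv_neg (by rwa [UU_im]), a2]
    apply ok_of2 U hv.le hi0 hm
    · intro y _ _; rw [e3, se_cl_neg]
    · rw [← bridge_cl H.hΦ H.h0 (by linarith) U.ht, e2, H.hΦ.even _ (by rwa [UU_im])]; exact hE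
    · rw [e3, neg_im, abs_neg, abs_of_nonneg hi0]; exact hB
    · exact hB
    · intro hs
      exfalso
      have h5 : 0 ≤ Real.sinh (-x) := Real.sinh_nonneg_iff.2 (by linarith)
      have h6 : 0 ≤ Real.sin t :=
        Real.sin_nonneg_of_nonneg_of_le_pi H.θ0.le (by linarith [H.th2])
      rw [Real.sin_neg] at hs
      have := mul_nonneg h5 h6
      linarith

/-- the data of the top of the vertical -/
theorem top2 (H : ClH2 Φ θ xc b v1) :
    Real.pi * (Φ (UU (Real.pi * v1) (Real.pi * bl θ v1) / (Real.pi : ℂ))).re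
      < LL Φ θ xc b (Real.pi * v1) (Real.pi * bl θ v1) ∧
    Real.pi * (Real.pi * bl θ v1) + (Real.pi - 2 * (Real.pi * v1)) / 10
      < LL Φ θ xc b (Real.pi * v1) (Real.pi * bl θ v1) := by
  have hpi := Real.pi_pos
  set v : ℂ := (v1 : ℂ) + (bl θ v1 : ℝ) * I with hvd
  have r1 : v.re = v1 := by simp [hvd]
  have r2 : v.im = bl θ v1 := by simp [hvd]
  have hv : |v.re| < 1 / 2 := by rw [r1, abs_of_pos H.v0]; exact H.vh
  have hi0 : 0 ≤ v.im := by
    rw [r2]; exact bl_nonneg H.θ0 H.th2 (by rw [abs_of_pos H.v0]; exact H.vh.le)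
  obtain ⟨x, t, a1, a2, a3, a4, -, a6⟩ := coord hv
  have ht : t = θ := (t_le H.θ0 H.th2 hv hi0 a1 a3 a4).2.2 (by rw [r1, r2])
  subst ht
  have hx : x ≠ xc := by
    intro h0
    have h1 := H.hR
    rw [← h0, a3, r1] at h1
    exact lt_irrefl _ h1
  have hD := H.D_lt hx
  have hxx : xc ≤ x := by
    by_contra hc
    push Not at hc
    have h1 := Ra_mono H.at' hc
    simp only at h1
    rw [a3, r1] at h1
    have h2 := H.hR
    linarith
  have hZ := H.Z_far (x := x) hxx (by rw [a3, r1])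
  have hg : gd (UU x t) = UU (Real.pi * v1) (Real.pi * bl t v1) := by
    rw [gd_eta, a3, a4, r1, r2]; rfl
  rw [a3, a4, r1, r2] at hD hZ
  rw [hg] at hD
  exact ⟨hD, hZ⟩

/-- everything below the top, right side -/
theorem below2 (H : ClH2 Φ θ xc b v1) {Y : ℝ} (h0 : 0 ≤ Y) (h1 : Y ≤ Real.pi * bl θ v1) :
    Real.pi * (Φ (UU (Real.pi * v1) Y / (Real.pi : ℂ))).re
      < LL Φ θ xc b (Real.pi * v1) (Real.pi * bl θ v1)
        - Real.pi * v1 * (Real.pi * bl θ v1 - Y) ∧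
    Real.pi * Y + (Real.pi - 2 * (Real.pi * v1)) / 10
      < LL Φ θ xc b (Real.pi * v1) (Real.pi * bl θ v1)
        - Real.pi * v1 * (Real.pi * bl θ v1 - Y) := by
  have hpi := Real.pi_pos
  obtain ⟨t1, t2⟩ := top2 H
  have hR : |Real.pi * v1| < Real.pi / 2 := by
    rw [abs_of_pos (mul_pos hpi H.v0)]; nlinarith [H.vh]
  have m := vert_mono H.hΦ hR (a := Y) (b := Real.pi * bl θ v1) h0 (h0.trans h1) h1
  simp only at m
  constructor
  · linarith
  · have h2 : Real.pi * v1 * (Real.pi * bl θ v1 - Y) ≤ Real.pi * (Real.pi * bl θ v1 - Y) := by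
      apply mul_le_mul_of_nonneg_right _ (by linarith)
      nlinarith [H.vh]
    linarith

/-- the bound beyond the line -/
theorem L_ge2 (H : ClH2 Φ θ xc b v1) (P1 : 2 * lam * (1 + 2 * r * v1) ≤ v1)
    (P2 : 2 * lam * (1 - 2 * r * v1) ≤ (4 * b + 1) * v1) {v : ℂ} (hv : v1 ≤ |v.re|)
    (h : |v.re| = v1 ∨ v.im = 0) (h0 : 0 ≤ v.im) (h1 : v.im ≤ bl θ v1) :
    LL Φ θ xc b (Real.pi * v1) (Real.pi * bl θ v1)
      - Real.pi * v1 * (Real.pi * bl θ v1 - Real.pi * v.im) ≤ Real.pi * Lcl θ xc b v1 r lam v := by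
  have hpi := Real.pi_pos
  have hY0 : 0 ≤ Real.pi * bl θ v1 - Real.pi * v.im := by
    have := mul_le_mul_of_nonneg_left h1 hpi.le
    linarith
  have hb0 : 0 ≤ bl θ v1 := h0.trans h1
  have e0 : Real.pi * Lcl θ xc b v1 r lam v
      = LL Φ θ xc b (Real.pi * (pl θ v1 v).re) (Real.pi * (pl θ v1 v).im)
        + lam * (Real.pi * (wr r (pl θ v1 v)).re - Real.pi * (wr r v).re) := by
    rw [← ell_eq H.hQ H.at', Lcl, FF_eq2 H]
    ring
  have hw : Real.pi * (wr r v).re = -(2 * Real.pi * (Real.pi * v.im) * (1 + 2 * r * v.re)) :=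
    wr_re' r v
  rcases le_total 0 v.re with hs | hs
  · rw [abs_of_nonneg hs] at hv h
    have ep := pl_of_ge (θ := θ) H.v0 hv
    have q1 : (pl θ v1 v).re = v1 := by rw [ep]; simp
    have q2 : (pl θ v1 v).im = bl θ v1 := by rw [ep]; simp
    have hw2 : Real.pi * (wr r v).re = -(2 * Real.pi * (Real.pi * v.im) * (1 + 2 * r * v1)) := by
      rcases h with h | h
      · rw [hw, h]
      · rw [hw, h]; ring
    rw [e0, wr_re', q1, q2, hw2]
    have k : lam * (-(2 * Real.pi * (Real.pi * bl θ v1) * (1 + 2 * r * v1))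
        - -(2 * Real.pi * (Real.pi * v.im) * (1 + 2 * r * v1)))
        = -(Real.pi * (2 * lam * (1 + 2 * r * v1)) * (Real.pi * bl θ v1 - Real.pi * v.im)) := by
      ring
    rw [k]
    have := mul_le_mul_of_nonneg_right (mul_le_mul_of_nonneg_left P1 hpi.le) hY0
    linarith
  · rw [abs_of_nonpos hs] at hv h
    have ep := pl_of_le_neg (θ := θ) H.v0 (v := v) (by linarith)
    have q1 : (pl θ v1 v).re = -v1 := by rw [ep]; simp
    have q2 : (pl θ v1 v).im = bl θ v1 := by rw [ep]; simp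
    have hw2 : Real.pi * (wr r v).re = -(2 * Real.pi * (Real.pi * v.im) * (1 - 2 * r * v1)) := by
      rcases h with h | h
      · have : v.re = -v1 := by linarith
        rw [hw, this]; ring
      · rw [hw, h]; ring
    rw [e0, wr_re', q1, q2, hw2]
    have k : lam * (-(2 * Real.pi * (Real.pi * bl θ v1) * (1 + 2 * r * -v1))
        - -(2 * Real.pi * (Real.pi * v.im) * (1 - 2 * r * v1)))
        = -(Real.pi * (2 * lam * (1 - 2 * r * v1)) * (Real.pi * bl θ v1 - Real.pi * v.im)) := by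
      ring
    rw [k]
    have k2 := mul_le_mul_of_nonneg_right (mul_le_mul_of_nonneg_left P2 hpi.le) hY0
    have k3 : 0 ≤ 4 * b * (Real.pi * v1) * (Real.pi * v.im) := by
      have := H.b0
      have := H.v0
      positivity
    have k4 : LL Φ θ xc b (Real.pi * -v1) (Real.pi * bl θ v1)
        = LL Φ θ xc b (Real.pi * v1) (Real.pi * bl θ v1)
          + 4 * b * (Real.pi * v1) * (Real.pi * bl θ v1) := by
      unfold LL; ring
    rw [k4]
    nlinarith

/-- a point of the vertical on the right side -/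
theorem ok_vert2 (H : ClH2 Φ θ xc b v1) {v : ℂ} {L : ℝ} (hr : |v.re| = v1) (h0 : 0 ≤ v.im)
    (h1 : v.im ≤ bl θ v1) (hL : LL Φ θ xc b (Real.pi * v1) (Real.pi * bl θ v1)
      - Real.pi * v1 * (Real.pi * bl θ v1 - Real.pi * v.im) ≤ Real.pi * L) :
    EdgeOK (.op v) (.cl 1) L := by
  have hpi := Real.pi_pos
  have hv : |v.re| < 1 / 2 := by rw [hr]; exact H.vh
  -- the point on the right side
  set w : ℂ := (v1 : ℂ) + (v.im : ℂ) * I with hw
  have r1 : w.re = v1 := by simp [hw]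
  have r2 : w.im = v.im := by simp [hw]
  have hwv : |w.re| < 1 / 2 := by rw [r1, abs_of_pos H.v0]; exact H.vh
  obtain ⟨x, t, a1, a2, a3, a4, a5, a6⟩ := coord hwv
  have hx : 0 ≤ x := a5 (by rw [r1]; exact H.v0.le)
  obtain ⟨t0, t1, -⟩ := t_le H.θ0 H.th2 hwv (by rw [r2]; exact h0) a1 a3 a4
  have t1' : t ≤ θ := t1 (by rw [r1, r2]; exact h1)
  obtain ⟨U1, U2⟩ := H.uh_of hx t0 t1' (by rw [a3, r1])
  have hY1 : Real.pi * v.im ≤ Real.pi * bl θ v1 := mul_le_mul_of_nonneg_left h1 hpi.le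
  obtain ⟨b1, b2⟩ := below2 H (Y := Real.pi * v.im) (by positivity) hY1
  have hg : gd (UU x t) = UU (Real.pi * v1) (Real.pi * v.im) := by
    rw [gd_eta, a3, a4, r1, r2]; rfl
  have hE : (Φ (gd (UU x t) / (Real.pi : ℂ))).re < L := by
    rw [hg]
    exact lt_of_mul_lt_mul_left (b1.trans_le hL) hpi.le
  have hB2 : Real.pi * v.im + 1 / 10 * (1 - 2 * v1) < L := by
    have h5 := b2.trans_le hL
    apply lt_of_mul_lt_mul_left _ hpi.le
    linarith
  have hB : Real.pi * v.im < L := by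
    have := H.vh
    linarith
  have hbl : bl θ v.re = bl θ v1 := by
    rcases abs_choice v.re with h | h
    · rw [← hr, h]
    · rw [← hr, h, bl_neg]
  have hm := sin_norm_le H.θ0 H.θ1 h0 (by rw [hbl]; exact h1)
  have ht4 : |t| ≤ Real.pi / 4 := U1.ht
  rcases le_total 0 v.re with hs | hs
  · have e : w = v := by
      rw [abs_of_nonneg hs] at hr
      apply Complex.ext
      · rw [r1, hr]
      · exact r2
    apply ok_of2 U1 hv.le h0 hm
    · intro y _ _; rw [a2, e]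
    · rw [← bridge_cl H.hΦ H.h0 hx U1.ht]; exact hE
    · rw [a2, e, abs_of_nonneg h0]; exact hB
    · exact hB
    · intro _
      refine ⟨t0, ?_⟩
      rw [a2, r1, r2]
      exact hB2
  · have e : (starRingEnd ℂ) w = -v := by
      rw [abs_of_nonpos hs] at hr
      apply Complex.ext
      · rw [conj_re, r1, neg_re, hr]
      · rw [conj_im, r2, neg_im]
    have e3 : gdv (UU x (-t)) = -v := by
      rw [← UU_conj, gdv_conj (by rwa [UU_im]), a2, e]
    have hΦ2 : (Φ (gd (UU x (-t)) / (Real.pi : ℂ))).re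
        ≤ (Φ (gd (UU x t) / (Real.pi : ℂ))).re := by
      rcases t0.eq_or_lt with h2 | h2
      · rw [← h2, neg_zero]
      · have h3 := Phi1_refl H.hΦ h2 (by linarith [H.th2]) hx
        have h4 := H.hΦ.even (UU (-x) t) (by rwa [UU_im])
        rw [UU_neg, neg_neg] at h4
        rw [h4]; exact h3
    apply ok_of2 U2 hv.le h0 hm
    · intro y _ _; rw [e3, se_cl_neg]
    · rw [← bridge_cl H.hΦ H.h0 hx U2.ht]; exact lt_of_le_of_lt hΦ2 hE
    · rw [e3, neg_im, abs_neg, abs_of_nonneg h0]; exact hB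
    · exact hB
    · intro hs
      exfalso
      have h5 : 0 ≤ Real.sinh x := Real.sinh_nonneg_iff.2 hx
      have h6 : 0 ≤ Real.sin t :=
        Real.sin_nonneg_of_nonneg_of_le_pi t0 (by linarith [H.th2])
      rw [Real.sin_neg] at hs
      have := mul_nonneg h5 h6
      linarith

/-- the real part of the contour -/
theorem ok_real2 (H : ClH2 Φ θ xc b v1) {v : ℂ} {L : ℝ} (hr : v1 ≤ |v.re|) (hr2 : |v.re| ≤ 1 / 2)
    (hi : v.im = 0) (hL : LL Φ θ xc b (Real.pi * v1) (Real.pi * bl θ v1)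
      - Real.pi * v1 * (Real.pi * bl θ v1 - Real.pi * v.im) ≤ Real.pi * L) :
    EdgeOK (.op v) (.cl 1) L := by
  have hpi := Real.pi_pos
  set w : ℂ := ((v1 : ℝ) : ℂ) with hw
  have r1 : w.re = v1 := by simp [hw]
  have r2 : w.im = 0 := by simp [hw]
  have hwv : |w.re| < 1 / 2 := by rw [r1, abs_of_pos H.v0]; exact H.vh
  have hb0 : 0 ≤ bl θ v1 :=
    bl_nonneg H.θ0 H.th2 (by rw [abs_of_pos H.v0]; exact H.vh.le)
  obtain ⟨x, t, a1, a2, a3, a4, a5, a6⟩ := coord hwv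
  have hx : 0 ≤ x := a5 (by rw [r1]; exact H.v0.le)
  obtain ⟨t0, t1, -⟩ := t_le H.θ0 H.th2 hwv (by rw [r2]) a1 a3 a4
  have t1' : t ≤ θ := t1 (by rw [r1, r2]; exact hb0)
  obtain ⟨U1, -⟩ := H.uh_of hx t0 t1' (by rw [a3, r1])
  obtain ⟨b1, b2⟩ := below2 H (Y := 0) le_rfl (by positivity)
  have hg : gd (UU x t) = UU (Real.pi * v1) 0 := by
    rw [gd_eta, a3, a4, r1, r2, mul_zero]; rfl
  rw [hi, mul_zero] at hL
  have hE : (Φ (gd (UU x t) / (Real.pi : ℂ))).re < L := by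
    rw [hg]
    exact lt_of_mul_lt_mul_left (b1.trans_le hL) hpi.le
  have hB2 : 1 / 10 * (1 - 2 * v1) < L := by
    have h5 := b2.trans_le hL
    apply lt_of_mul_lt_mul_left _ hpi.le
    linarith
  have hB : 0 < L := by
    have := H.vh
    linarith
  have hm : ‖sin (Real.pi * v)‖ ^ 2 ≤ 1 := by
    rw [sin_norm, hi, mul_zero, Real.sinh_zero]
    have := Real.sin_sq_add_cos_sq (Real.pi * v.re)
    have := sq_nonneg (Real.cos (Real.pi * v.re))
    linarith
  apply ok_of2 U1 hr2 hi.ge hm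
  · intro y h0 h1
    rw [a2]
    have key : EE (.cl 1) (.op ((|v.re| : ℝ) : ℂ)) y ≤ EE (.cl 1) (.op w) y := by
      have := real_anti (a := v1) (b := |v.re|) (t := y.re) (η := y.im) H.v0.le hr hr2 h0 h1
      rwa [re_add_im] at this
    rcases le_total 0 v.re with hs | hs
    · have e : ((|v.re| : ℝ) : ℂ) = v := by
        rw [abs_of_nonneg hs]
        apply Complex.ext
        · simp
        · simp [hi]
      rwa [e] at key
    · have e : ((|v.re| : ℝ) : ℂ) = -v := by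
        rw [abs_of_nonpos hs]
        apply Complex.ext
        · simp
        · simp [hi]
      rwa [e, se_cl_neg] at key
  · rw [← bridge_cl H.hΦ H.h0 hx U1.ht]; exact hE
  · rw [a2, r2, abs_zero, mul_zero]; exact hB
  · rw [hi, mul_zero]; exact hB
  · intro _
    refine ⟨t0, ?_⟩
    rw [a2, r1, r2, mul_zero, zero_add]
    exact hB2

/-- the estimate of a closed edge on the contour -/
theorem W1c2 (H : ClH2 Φ θ xc b v1) (P1 : 2 * lam * (1 + 2 * r * v1) ≤ v1)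
    (P2 : 2 * lam * (1 - 2 * r * v1) ≤ (4 * b + 1) * v1) {v : ℂ} (hv : v ∈ G0 θ v1)
    (hne : v ≠ gdv (UU xc θ)) : EdgeOK (.op v) (.cl 1) (Lcl θ xc b v1 r lam v) := by
  rcases hv with ⟨h1, h2⟩ | ⟨h1, h2, h3⟩ | ⟨h1, h2, h3⟩
  · exact ok_line2 H h1 h2 hne
  · exact ok_vert2 H h1 h2 h3 (L_ge2 H P1 P2 h1.ge (Or.inl h1) h2 h3)
  · have hb0 : 0 ≤ bl θ v1 :=
      bl_nonneg H.θ0 H.th2 (by rw [abs_of_pos H.v0]; exact H.vh.le)
    exact ok_real2 H h1 h2 h3 (L_ge2 H P1 P2 h1 (Or.inr h3) h3.ge (by rw [h3]; exact hb0))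

/-- the estimate at the critical point -/
theorem W2c2 (H : ClH2 Φ θ xc b v1) : EdgeC (.op (gdv (UU xc θ))) (.cl 1) (yc (UU xc θ))
    (EE (.op (gdv (UU xc θ))) (.cl 1) (yc (UU xc θ))) := by
  have hpi := Real.pi_pos
  have hθ := H.at'
  have him : |(UU xc θ).im| < Real.pi / 2 := by rwa [UU_im]
  have hY := Ya_eq (x := xc) hθ
  have hY0 : 0 < Ya xc θ := by rw [Ya]; exact gd_im_pos H.θ0 H.th2
  have hi0 : 0 < (gdv (UU xc θ)).im := by
    rw [hY] at hY0
    exact (pos_iff_pos_of_mul_pos hY0).1 hpi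
  have hR := Ra_eq (x := xc) hθ
  have hZ := H.Z_pos (x := xc) H.xc0.le H.hR.le
  have e1 : LL Φ θ xc b (Ra xc θ) (Ya xc θ)
      = Real.pi * EE (.op (gdv (UU xc θ))) (.cl 1) (yc (UU xc θ)) := by
    rw [FF_eq2 H, LL, VV]; ring
  rw [e1, hY] at hZ
  have hB := lt_of_mul_lt_mul_left hZ hpi.le
  have hvre := (gdv_re_lt him).le
  have hm := sin_norm_le H.θ0 H.θ1 hi0.le (im_eq_bl hθ xc).le
  obtain ⟨U, -⟩ := H.uh_of H.xc0.le H.θ0.le le_rfl H.hR.le
  refine ⟨?_, ?_, rfl, 1, _, _, pgn_one U.y1, ?_, 0, by norm_num, ?_, ?_, rfl⟩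
  · simp only [B0]; linarith
  · intro y hy
    rw [EE_op_cl]
    have h := mid_le hvre hm hy.1 hy.2
    rw [abs_of_pos hi0] at h
    linarith
  · apply pol_of2 (L := EE (.op (gdv (UU xc θ))) (.cl 1) (yc (UU xc θ))) U
    · intro y _ _ h
      left
      rw [EE_op_cl]; exact h
    · intro τ hτ
      by_cases h : τ = (yc (UU xc θ)).re
      · right
        rw [h]; exact re_add_im _
      · left
        rw [EE_op_cl, EE_op_cl]
        exact flat_lt2 U.hy hτ.1 hτ.2 h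
    · rw [EE_op_cl]
    · rw [abs_of_pos hi0]; exact hB
    · intro hs
      have := H.hx
      linarith
  · simpa using yc_re_pos him
  · simpa using yc_re_lt him

theorem W1n2 (H : ClH2 Φ θ xc b v1) (P1 : 2 * lam * (1 + 2 * r * v1) ≤ v1)
    (P2 : 2 * lam * (1 - 2 * r * v1) ≤ (4 * b + 1) * v1) {v : ℂ} (hv : v ∈ G0 θ v1)
    (hne : v ≠ gdv (UU xc θ)) :
    EdgeOK (.op v) (.cl 1) (Lsh (EE (.op (gdv (UU xc θ))) (.cl 1) (yc (UU xc θ)))
      (gdv (UU xc θ)) (qcl (UU xc θ)) (-(2 * Real.pi * b)) θ v1 r lam v) :=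
  W1c2 H P1 P2 hv hne

/-- the mirror image of `W1c2` -/
theorem W1p2 (H : ClH2 Φ θ xc b v1) (P1 : 2 * lam * (1 - 2 * r * v1) ≤ v1)
    (P2 : 2 * lam * (1 + 2 * r * v1) ≤ (4 * b + 1) * v1) {v : ℂ} (hv : v ∈ G0 θ v1)
    (hne : v ≠ mir (gdv (UU xc θ))) :
    EdgeOK (.op v) (.cl (-1)) (Lsh (EE (.op (mir (gdv (UU xc θ)))) (.cl (-1))
        ((starRingEnd ℂ) (yc (UU xc θ))))
      (mir (gdv (UU xc θ))) (-((starRingEnd ℂ) (qcl (UU xc θ)))) (2 * Real.pi * b) θ v1 r lam v) := by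
  have h1 : mir v ≠ gdv (UU xc θ) := by
    intro h
    apply hne
    rw [← h, mir_mir]
  have h2 := (W1n2 (r := -r) (lam := lam) H (by linarith) (by linarith) (G0_mir hv) h1).mir_cl
  rw [mir_mir] at h2
  have e := Lsh_mir (EE (.op (gdv (UU xc θ))) (.cl 1) (yc (UU xc θ)))
      (gdv (UU xc θ)) (qcl (UU xc θ)) (-(2 * Real.pi * b)) θ (-r) lam H.v0 (mir v)
  rw [mir_mir, neg_neg, neg_neg] at e
  rw [EE_cl_mir, e]
  exact h2

theorem W2p2 (H : ClH2 Φ θ xc b v1) :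
    EdgeC (.op (mir (gdv (UU xc θ)))) (.cl (-1)) ((starRingEnd ℂ) (yc (UU xc θ)))
      (EE (.op (mir (gdv (UU xc θ)))) (.cl (-1)) ((starRingEnd ℂ) (yc (UU xc θ)))) := by
  have h := (W2c2 H).mir_cl
  rwa [← EE_cl_mir] at h

end Pool.Agent.S3.Cl
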