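import Pool.Agent.S3.Cl.TwoReg

/-!
# Stage 3: closed ends next to an inner `2`: the relation of the three vertices
-/

set_option autoImplicit false

namespace Pool.Agent.S3.Cl

open Complex

/-- solving the quartic for `b₂` -/
theorem two_rel {κ b₁ b₂ : ℂ} (h1 : b₁ ^ 2 = I / 2 * κ)
    (hq : 4 * (κ ^ 2) ^ 2 - 4 * (b₁ * b₂) * κ ^ 2 + (b₁ + b₂) ^ 2 = 0) :
    b₂ = -(b₁ * (16 * b₁ ^ 4 - 4 * b₁ ^ 2 + 1)) ∨ b₂ = -(b₁ * (1 + 4 * b₁ ^ 2)) := by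
  have hκ : κ = -2 * I * b₁ ^ 2 := by
    rw [h1]
    linear_combination κ * I_sq
  have e : (b₂ + b₁ * (16 * b₁ ^ 4 - 4 * b₁ ^ 2 + 1)) * (b₂ + b₁ * (1 + 4 * b₁ ^ 2)) = 0 := by
    rw [hκ] at hq
    have h4 : I ^ 4 = 1 := by norm_num
    linear_combination hq + (-64 * b₁ ^ 8) * h4 + 16 * b₁ ^ 5 * b₂ * I_sq
  rcases mul_eq_zero.1 e with h | h
  · left; linear_combination h
  · right; linear_combination h

theorem regQ_real {u v c d : ℝ} (v0 : 0 < v) (uv : v ≤ u)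
    (hc : c = -(u * (16 * (u ^ 4 - 10 * u ^ 2 * v ^ 2 + 5 * v ^ 4) - 4 * (u ^ 2 - 3 * v ^ 2) + 1)))
    (hd : d = -(v * (16 * (5 * u ^ 4 - 10 * u ^ 2 * v ^ 2 + v ^ 4) - 4 * (3 * u ^ 2 - v ^ 2) + 1)))
    (d0 : 0 ≤ d) (dc : d ≤ c) (n1 : c ^ 2 + d ^ 2 ≤ 1) (n2 : 1 / 4 ≤ c ^ 2 + d ^ 2)
    (hk : 35 / 100 ≤ 4 * (u ^ 2 + v ^ 2) ^ 2) :
    RegQ (4 * (u ^ 2 - v ^ 2)) (4 * (u ^ 2 + v ^ 2)) := by
  have u0 : 0 < u := lt_of_lt_of_le v0 uv
  have huv : v ^ 2 ≤ u ^ 2 := pow_le_pow_left₀ v0.le uv 2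
  set P := 4 * (u ^ 2 - v ^ 2) with hP
  set q := 4 * (u ^ 2 + v ^ 2) with hq
  have hu2 : u ^ 2 = (q + P) / 8 := by rw [hP, hq]; ring
  have hv2 : v ^ 2 = (q - P) / 8 := by rw [hP, hq]; ring
  have hu4 : u ^ 4 = ((q + P) / 8) ^ 2 := by rw [← hu2]; ring
  have hv4 : v ^ 4 = ((q - P) / 8) ^ 2 := by rw [← hv2]; ring
  set A := 4 * P ^ 2 - 2 * q * P - q ^ 2 - 2 * P + q + 1 with hA
  set B := 4 * P ^ 2 + 2 * q * P - q ^ 2 - 2 * P - q + 1 with hB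
  have hc' : c = -(u * A) := by
    rw [hc, hu4, hv4, hu2, hv2, hA]; ring
  have hd' : d = -(v * B) := by
    rw [hd, hu4, hv4, hu2, hv2, hB]; ring
  have hn : c ^ 2 + d ^ 2
      = q / 4 * (4 * P ^ 2 - 2 * P * (q ^ 2 + 1) + q ^ 4 - q ^ 2 + 1) := by
    rw [hc', hd']
    have : (-(u * A)) ^ 2 + (-(v * B)) ^ 2 = u ^ 2 * A ^ 2 + v ^ 2 * B ^ 2 := by ring
    rw [this, hu2, hv2, hA, hB]
    ring
  have q0 : 0 < q := by rw [hq]; positivity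
  have P0 : 0 ≤ P := by rw [hP]; linarith
  have Pq : P ≤ q := by
    rw [hP, hq]
    have := sq_nonneg v
    linarith
  have B0 : B ≤ 0 := by
    by_contra h
    push Not at h
    have := mul_pos v0 h
    linarith
  refine ⟨P0, Pq, ?_, q0, B0, by linarith, by linarith, ?_⟩
  · have : q ^ 2 = 4 * (4 * (u ^ 2 + v ^ 2) ^ 2) := by rw [hq]; ring
    rw [this]; linarith
  · rcases le_total (1 / 2) P with h | h
    · exact Or.inr h
    · left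
      -- `u A ≤ v B`
      have k1 : u * A ≤ v * B := by linarith
      set E := q ^ 2 - 4 * P ^ 2 + 2 * P - 1 with hE
      have k2 : q * (1 - 2 * P) * (u + v) ≤ E * (u - v) := by
        have e1 : A = -(E + q * (2 * P - 1)) := by rw [hA, hE]; ring
        have e2 : B = -(E - q * (2 * P - 1)) := by rw [hB, hE]; ring
        rw [e1, e2] at k1
        linarith
      have k3 : q * (1 - 2 * P) * (u + v) * (u + v) ≤ E * (u - v) * (u + v) :=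
        mul_le_mul_of_nonneg_right k2 (by linarith)
      have k4 : E * (u - v) * (u + v) = E * P / 4 := by rw [hP]; ring
      have k5 : 2 * q ^ 2 - P ^ 2 ≤ 4 * q * (u + v) ^ 2 := by
        have e1 : q ^ 2 - P ^ 2 = 64 * (u * v) ^ 2 := by rw [hP, hq]; ring
        have e2 : (u + v) ^ 2 = q / 4 + 2 * (u * v) := by rw [hq]; ring
        have e3 : 8 * (u * v) ≤ q := by rw [hq]; nlinarith [sq_nonneg (u - v)]
        rw [e2]
        have e4 : 0 ≤ u * v := by positivity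
        nlinarith
      have k6 : (1 - 2 * P) * (2 * q ^ 2 - P ^ 2) ≤ (1 - 2 * P) * (4 * q * (u + v) ^ 2) :=
        mul_le_mul_of_nonneg_left k5 (by linarith)
      rw [k4] at k3
      nlinarith

theorem regQ_of {κ b₁ b₂ : ℂ} (h1 : b₁ ^ 2 = I / 2 * κ)
    (hq : 4 * (κ ^ 2) ^ 2 - 4 * (b₁ * b₂) * κ ^ 2 + (b₁ + b₂) ^ 2 = 0)
    (v0 : 0 < b₁.im) (uv : b₁.im ≤ b₁.re) (d0 : 0 ≤ b₂.im) (dc : b₂.im ≤ b₂.re)
    (n1 : ‖b₂‖ ≤ 1) (n2 : 1 / 2 ≤ ‖b₂‖) (hk : 35 / 100 ≤ ‖κ‖ ^ 2) :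
    RegQ (-2 * κ.im) (2 * ‖κ‖) := by
  have hκ : κ = -2 * I * b₁ ^ 2 := by
    rw [h1]
    linear_combination κ * I_sq
  set u := b₁.re with hu
  set v := b₁.im with hv
  have eb : b₁ = (u : ℂ) + v * I := (re_add_im b₁).symm
  have eκ : κ = ((4 * (u * v) : ℝ) : ℂ) + ((-2 * (u ^ 2 - v ^ 2) : ℝ) : ℂ) * I := by
    rw [hκ, eb]
    push_cast
    linear_combination (-4 * (u : ℂ) * v - 2 * v ^ 2 * I) * I_sq
  have kim : κ.im = -2 * (u ^ 2 - v ^ 2) := by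
    rw [eκ, add_im, ofReal_im, im_ofReal_mul, I_im, mul_one, zero_add]
  have knorm : ‖κ‖ = 2 * (u ^ 2 + v ^ 2) := by
    rw [hκ, norm_mul, norm_mul, norm_neg, norm_pow, norm_I]
    have : ‖b₁‖ ^ 2 = u ^ 2 + v ^ 2 := by
      rw [← normSq_eq_norm_sq, normSq_apply]; ring
    rw [this]
    norm_num
  have nb2 : ‖b₂‖ ^ 2 = b₂.re ^ 2 + b₂.im ^ 2 := by
    rw [← normSq_eq_norm_sq, normSq_apply]; ring
  rw [kim, knorm]
  have e1 : -2 * (-2 * (u ^ 2 - v ^ 2)) = 4 * (u ^ 2 - v ^ 2) := by ring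
  have e2 : 2 * (2 * (u ^ 2 + v ^ 2)) = 4 * (u ^ 2 + v ^ 2) := by ring
  rw [e1, e2]
  rcases two_rel h1 hq with h | h
  · have e5 : b₂ = ((-(u * (16 * (u ^ 4 - 10 * u ^ 2 * v ^ 2 + 5 * v ^ 4)
        - 4 * (u ^ 2 - 3 * v ^ 2) + 1)) : ℝ) : ℂ)
        + ((-(v * (16 * (5 * u ^ 4 - 10 * u ^ 2 * v ^ 2 + v ^ 4)
        - 4 * (3 * u ^ 2 - v ^ 2) + 1)) : ℝ) : ℂ) * I := by
      rw [h, eb]
      have i2 := I_sq
      have i3 : I ^ 3 = -I := by rw [pow_succ, I_sq]; ring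
      have i4 : I ^ 4 = 1 := by norm_num
      have i5 : I ^ 5 = I := by rw [pow_succ, i4]; ring
      push_cast
      ring_nf
      rw [i2, i3, i4, i5]
      ring
    have re5 := congrArg Complex.re e5
    have im5 := congrArg Complex.im e5
    rw [add_re, ofReal_re, re_ofReal_mul, I_re, mul_zero, add_zero] at re5
    rw [add_im, ofReal_im, im_ofReal_mul, I_im, mul_one, zero_add] at im5
    refine regQ_real v0 uv re5 im5 d0 dc ?_ ?_ ?_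
    · rw [← nb2]
      exact pow_le_one₀ (norm_nonneg _) n1
    · rw [← nb2]
      have := pow_le_pow_left₀ (by norm_num : (0 : ℝ) ≤ 1 / 2) n2 2
      norm_num at this
      exact this
    · rw [knorm] at hk
      nlinarith
  · exfalso
    have e5 : b₂ = ((-(u * (1 + 4 * (u ^ 2 - 3 * v ^ 2))) : ℝ) : ℂ)
        + ((-(v * (1 + 4 * (3 * u ^ 2 - v ^ 2))) : ℝ) : ℂ) * I := by
      rw [h, eb]
      have i2 := I_sq
      have i3 : I ^ 3 = -I := by rw [pow_succ, I_sq]; ring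
      push_cast
      ring_nf
      rw [i2, i3]
      ring
    have im5 := congrArg Complex.im e5
    rw [add_im, ofReal_im, im_ofReal_mul, I_im, mul_one, zero_add] at im5
    have huv : v ^ 2 ≤ u ^ 2 := pow_le_pow_left₀ v0.le uv 2
    have h6 : 0 < 1 + 4 * (3 * u ^ 2 - v ^ 2) := by nlinarith [sq_nonneg u]
    have := mul_pos v0 h6
    linarith

end Pool.Agent.S3.Cl
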