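import Pool.Agent.S3.Cl.Edge
import Pool.Agent.S3.Cl.Main2
import Pool.Agent.S3.Cl.Hyp2
import Pool.Agent.S3.Cl.TwoAlg

/-!
# Stage 3: closed ends next to an inner `2`: the estimate in terms of the critical point
-/

namespace Pool.Agent.S3.Cl

open Complex Pool.Agent.S3
open Pool.Agent.H25.RK (gdv gdv_re_lt gdv_hasDerivAt)
open Pool.Agent.S3.E (Zr uu qe qo bw xx th k2 s2 bo ro be ph)

section

variable {ι : Type*} [Finite ι] {a : ι → ℝ} {nl nr : ι → Option ι} {z : ι → ℂ}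

/-- the three vertices: `j` a closed end, `i` an inner `2`, `k` its other neighbour -/
theorem regQ (h : Zr a nl nr 1 z) {i j : ι} (hj : Zr.IsEnd2 a nl nr j i) (ha : a i = 2)
    (hin : ∃ l r, nl i = some l ∧ nr i = some r) :
    RegQ (-2 * (cos (z i)).im) (2 * ‖cos (z i)‖) := by
  have hji := hji_of hj
  have hij := h.N.symm j i hji
  -- the other neighbour
  obtain ⟨k, hk⟩ : ∃ k, (nl i = some j ∧ nr i = some k) ∨ (nl i = some k ∧ nr i = some j) := by
    obtain ⟨l, r, e1, e2⟩ := hin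
    rcases hij with e | e
    · exact ⟨r, Or.inl ⟨e, e2⟩⟩
    · exact ⟨l, Or.inr ⟨e1, e⟩⟩
  have hq := h.quartic i ha
  have hq' : 4 * (cos (z i) ^ 2) ^ 2 - 4 * (bo 1 z (some j) * bo 1 z (some k)) * cos (z i) ^ 2 +
      (bo 1 z (some j) + bo 1 z (some k)) ^ 2 = 0 := by
    rcases hk with ⟨e1, e2⟩ | ⟨e1, e2⟩
    · rw [e1, e2] at hq; exact hq
    · rw [e1, e2] at hq; linear_combination hq
  have h1 : bo 1 z (some j) ^ 2 = I / 2 * cos (z i) := by
    have h2 := h.end2 hj.1 hj.2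
    rw [h.bo_one] at h2 ⊢
    have h3 := congrArg (starRingEnd ℂ) h2
    rw [map_mul, map_mul, map_neg, conj_I, conj_conj, map_pow, Complex.conj_ofNat] at h3
    linear_combination h3 / 2
  refine regQ_of h1 hq' ?_ (h.bo_im_le _) (h.bo_im_nonneg _) (h.bo_im_le _) ?_ ?_ ?_
  · rw [h.bo_im]
    apply mul_pos (h.ro_pos j)
    apply Real.sin_pos_of_pos_of_lt_pi
    · rw [Zr.be_one]; exact h.phpos j
    · have := h.be_le (some j)
      linarith [Real.pi_pos]
  · rw [h.norm_bo]; exact h.ro_le_one _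
  · rw [h.norm_bo]; exact h.ro_ge k
  · have h5 := E.two_low' hq' (h.bo_im_nonneg _) (h.bo_im_le _) (h.bo_im_nonneg _) (h.bo_im_le _)
      (by rw [h.norm_bo]; exact h.ro_ge j) (by rw [h.norm_bo]; exact h.ro_ge k)
    rw [norm_pow] at h5
    norm_num at h5 ⊢
    linarith

omit [Finite ι] in
theorem k2_eq (_h : Zr a nl nr 1 z) (i : ι) : k2 (z i).re (z i).im = ‖cos (z i)‖ ^ 2 := by
  rw [← Zr.norm_sq, norm_pow]

omit [Finite ι] in
theorem s2_sq (_h : Zr a nl nr 1 z) (i : ι) : s2 (z i).re (z i).im ^ 2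
    = (1 - ‖cos (z i)‖ ^ 2) ^ 2 + (-2 * (cos (z i)).im) ^ 2 := by
  rw [← Zr.norm_one_sub, ← normSq_eq_norm_sq, ← normSq_eq_norm_sq]
  simp only [normSq_apply, sub_re, sub_im, one_re, one_im, sq, mul_re, mul_im]
  ring

omit [Finite ι] in
theorem s2_nn (_h : Zr a nl nr 1 z) (i : ι) : 0 ≤ s2 (z i).re (z i).im := by
  rw [← Zr.norm_one_sub]; exact norm_nonneg _

/-- `tan² θ ≤ 63/100` -/
theorem sin_th_end2 (h : Zr a nl nr 1 z) {i j : ι} (hj : Zr.IsEnd2 a nl nr j i) (ha : a i = 2)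
    (hin : ∃ l r, nl i = some l ∧ nr i = some r) :
    163 * Real.sin (th (z i).re (z i).im) ^ 2 ≤ 63 := by
  have H := regQ h hj ha hin
  have h1 := H.R1
  have hq1 := H.q_le
  have hk := h.k2pos i
  have e := E.cos_two_th (h.pos i).1 (h.pos i).2.1 (h.pos i).2.2
  have e2 := s2_sq h i
  have e3 := s2_nn h i
  rw [k2_eq h i] at hk e
  set K := ‖cos (z i)‖ with hK
  set P := -2 * (cos (z i)).im with hP
  have hK1 : K ^ 2 ≤ 7 / 10 := by nlinarith only [norm_nonneg (cos (z i)), hq1]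
  have h2 : s2 (z i).re (z i).im ≤ 1 - 37 / 163 * K ^ 2 := by
    by_contra hc
    push Not at hc
    have h3 : (1 - 37 / 163 * K ^ 2) ^ 2 < s2 (z i).re (z i).im ^ 2 :=
      pow_lt_pow_left₀ hc (by linarith) two_ne_zero
    rw [e2] at h3
    linarith only [h1, h3]
  have h4 : 37 / 163 ≤ Real.cos (2 * th (z i).re (z i).im) := by
    rw [e, le_div_iff₀ hk]
    linarith
  rw [Real.cos_two_mul] at h4
  have h5 := Real.sin_sq_add_cos_sq (th (z i).re (z i).im)
  linarith

theorem xx_le_end2 (h : Zr a nl nr 1 z) {i j : ι} (hj : Zr.IsEnd2 a nl nr j i) (ha : a i = 2)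
    (hin : ∃ l r, nl i = some l ∧ nr i = some r) : xx (z i).re (z i).im ≤ xm := by
  have H := regQ h hj ha hin
  have h1 := H.R3
  have hq0 := H.q0
  have hk := h.k2pos i
  have e := E.cosh_two_xx (h.pos i).1 (h.pos i).2.1 (h.pos i).2.2
  have e2 := s2_sq h i
  have e3 := s2_nn h i
  rw [k2_eq h i] at hk e
  set K := ‖cos (z i)‖ with hK
  set P := -2 * (cos (z i)).im with hP
  have h2 : s2 (z i).re (z i).im ≤ 10081 / 1800 * K ^ 2 - 1 := by
    by_contra hc
    push Not at hc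
    have h3 : (10081 / 1800 * K ^ 2 - 1) ^ 2 < s2 (z i).re (z i).im ^ 2 :=
      pow_lt_pow_left₀ hc (by linarith only [hq0]) two_ne_zero
    rw [e2] at h3
    linarith only [h1, h3]
  have h4 : Real.cosh (2 * xx (z i).re (z i).im) ≤ Real.cosh (2 * xm) := by
    rw [e, div_le_iff₀ hk, Real.cosh_two_mul, cosh_xm, sinh_xm]
    norm_num at h2 ⊢
    linarith
  have h5 := Real.cosh_le_cosh.1 h4
  have hx := xm_ge
  rw [abs_of_pos (by linarith [h.xxpos i] : 0 < 2 * xx (z i).re (z i).im),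
    abs_of_pos (by linarith : 0 < 2 * xm)] at h5
  linarith

theorem xx_ge_end2 (h : Zr a nl nr 1 z) {i j : ι} (hj : Zr.IsEnd2 a nl nr j i) (ha : a i = 2)
    (hin : ∃ l r, nl i = some l ∧ nr i = some r) : 3 / 4 ≤ xx (z i).re (z i).im := by
  have H := regQ h hj ha hin
  have hk := h.k2pos i
  have e := E.cosh_two_xx (h.pos i).1 (h.pos i).2.1 (h.pos i).2.2
  have e2 := s2_sq h i
  have e3 := s2_nn h i
  rw [k2_eq h i] at hk e
  set K := ‖cos (z i)‖ with hK
  set P := -2 * (cos (z i)).im with hP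
  have h2 : 2353 / 1000 * K ^ 2 - 1 ≤ s2 (z i).re (z i).im := by
    by_contra hc
    push Not at hc
    have h3 : s2 (z i).re (z i).im ^ 2 < (2353 / 1000 * K ^ 2 - 1) ^ 2 :=
      pow_lt_pow_left₀ hc e3 two_ne_zero
    rw [e2] at h3
    have h4 : 2 ≤ (2353 / 1000 + 1) * ((2 * K) ^ 2 / 4) := by
      by_contra h5
      push Not at h5
      nlinarith only [h3, h5]
    have h5 := H.R2 h4
    linarith only [h3, h5]
  have h4 : Real.cosh (3 / 2) ≤ Real.cosh (2 * xx (z i).re (z i).im) := by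
    rw [e, le_div_iff₀ hk]
    have h5 : Real.cosh (3 / 2) ≤ 2353 / 1000 := by
      have b1 : Real.exp (3 / 2) ≤ 44818 / 10000 := by
        have c1 : Real.exp (3 / 2) = Real.exp 1 * Real.exp (1 / 2) := by
          rw [← Real.exp_add]; norm_num
        have c2 := Real.exp_one_lt_d9
        have c3 := Real.exp_bound' (x := 1 / 2) (by norm_num) (by norm_num) (n := 6) (by norm_num)
        norm_num [Finset.sum_range_succ, Nat.factorial] at c3
        have c4 : Real.exp 1 * Real.exp (1 / 2) ≤ 2.7182818286 * (1648725 / 1000000) := by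
          apply mul_le_mul c2.le _ (Real.exp_pos _).le (by norm_num)
          linarith
        rw [c1]
        norm_num at c4
        linarith
      have b2 : Real.exp (-(3 / 2)) ≤ 2234 / 10000 := by
        rw [Real.exp_neg, inv_le_comm₀ (Real.exp_pos _) (by norm_num)]
        have c2 := Real.exp_one_gt_d9
        have c3 := Real.sum_le_exp_of_nonneg (x := 1 / 2) (by norm_num) 5
        norm_num [Finset.sum_range_succ, Nat.factorial] at c3
        have c1 : Real.exp (3 / 2) = Real.exp 1 * Real.exp (1 / 2) := by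
          rw [← Real.exp_add]; norm_num
        have c4 : 2.7182818283 * (16484 / 10000) ≤ Real.exp 1 * Real.exp (1 / 2) := by
          apply mul_le_mul c2.le _ (by norm_num) (Real.exp_pos _).le
          linarith
        rw [c1]
        norm_num at c4 ⊢
        linarith
      rw [Real.cosh_eq]
      linarith
    nlinarith only [h2, h5]
  have h5 := Real.cosh_le_cosh.1 h4
  rw [abs_of_pos (by linarith [h.xxpos i] : 0 < 2 * xx (z i).re (z i).im),
    abs_of_pos (by norm_num : (0 : ℝ) < 3 / 2)] at h5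
  linarith

theorem th_le_pi4 (h : Zr a nl nr 1 z) {i : ι}
    (hin : ∃ l r, nl i = some l ∧ nr i = some r) : th (z i).re (z i).im ≤ Real.pi / 4 :=
  h.th_le i (Or.inr hin)

/-- `θ ≤ 17/25` at an inner `2` next to a closed end -/
theorem th_le_of_end2 (h : Zr a nl nr 1 z) {i j : ι} (hj : Zr.IsEnd2 a nl nr j i) (ha : a i = 2)
    (hin : ∃ l r, nl i = some l ∧ nr i = some r) : th (z i).re (z i).im ≤ θm :=
  le_θm (h.thpos i).le (th_le_pi4 h hin) (sin_th_end2 h hj ha hin)

/-- `R ≤ 111/100` -/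
theorem re_le_of_end2 (h : Zr a nl nr 1 z) {i j : ι} (hj : Zr.IsEnd2 a nl nr j i) (ha : a i = 2)
    (hin : ∃ l r, nl i = some l ∧ nr i = some r) : (z i).re ≤ 111 / 100 := by
  have hθ := abs_th h i
  have hs := sin_th_end2 h hj ha hin
  have hx := xx_le_end2 h hj ha hin
  have hR : Ra (xx (z i).re (z i).im) (th (z i).re (z i).im) = (z i).re := by
    rw [Ra, h.gd_uu i]
  have hS := RaS (x := xx (z i).re (z i).im) hθ
  rw [hR] at hS
  have hc := cos_pos' hθ
  have hc1 : 783 / 1000 ≤ Real.cos (th (z i).re (z i).im) := by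
    have := Real.sin_sq_add_cos_sq (th (z i).re (z i).im)
    nlinarith only [hs, hc, this]
  have hx1 : Real.sinh (xx (z i).re (z i).im) ≤ 91 / 60 := by
    rw [← sinh_xm]; exact Real.sinh_le_sinh.2 hx
  have hR0 := (h.pos i).1
  have hR1 := (h.pos i).2.1
  by_contra hcon
  push Not at hcon
  have hpi2 := Real.pi_gt_d2
  have h1 := n_tan_ge (R := min (z i).re (3 / 2)) (R0 := 111 / 100) (t := 195 / 100)
    (by norm_num) (le_min hcon.le (by norm_num)) (min_le_right _ _) (by norm_num) (by norm_num)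
  have hcR : 0 < Real.cos (z i).re := cos_pos' (by rw [abs_of_pos hR0]; exact hR1)
  have h2 : 195 / 100 * Real.cos (z i).re ≤ Real.sin (z i).re := by
    rcases le_total (z i).re (3 / 2) with h3 | h3
    · rwa [min_eq_left h3] at h1
    · rw [min_eq_right h3] at h1
      have a1 : Real.sin (3 / 2) ≤ Real.sin (z i).re :=
        Real.sin_le_sin_of_le_of_le_pi_div_two (by linarith) (by linarith) h3
      have a2 : Real.cos (z i).re ≤ Real.cos (3 / 2) :=
        Real.cos_le_cos_of_nonneg_of_le_pi (by norm_num) (by linarith) h3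
      linarith
  have h4 : 195 / 100 * Real.cos (z i).re * (783 / 1000)
      ≤ Real.sin (z i).re * Real.cos (th (z i).re (z i).im) := by
    apply mul_le_mul h2 hc1 (by norm_num)
    linarith [mul_pos (show (0 : ℝ) < 195 / 100 by norm_num) hcR]
  rw [hS] at h4
  have h5 : Real.sinh (xx (z i).re (z i).im) * Real.cos (z i).re
      ≤ 91 / 60 * Real.cos (z i).re := mul_le_mul_of_nonneg_right hx1 hcR.le
  linarith

theorem re_lt_of_end2 (h : Zr a nl nr 1 z) {i j : ι} (hj : Zr.IsEnd2 a nl nr j i) (ha : a i = 2)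
    (hin : ∃ l r, nl i = some l ∧ nr i = some r) : (z i).re / Real.pi < 9 / 25 := by
  have h1 := re_le_of_end2 h hj ha hin
  have hpi := Real.pi_gt_d2
  rw [div_lt_iff₀ (by linarith)]
  linarith

theorem clH2_Phi (h : Zr a nl nr 1 z) {i j : ι} (hj : Zr.IsEnd2 a nl nr j i) (ha : a i = 2)
    (hin : ∃ l r, nl i = some l ∧ nr i = some r) {v1 : ℝ} (v0 : 9 / 25 ≤ v1) (v2 : v1 ≤ 2 / 5)
    {Φ : ℂ → ℂ} (hΦ : IsPhi1 Φ) (h0 : Φ 0 = Fc 0) :
    ClH2 Φ (th (z i).re (z i).im) (xx (z i).re (z i).im) (bw (z i) (z j)) v1 := by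
  have hij := h.N.symm j i (hji_of hj)
  have hpi := Real.pi_pos
  refine clH2 hΦ h0 (h.bw_pos hij) ?_ (h.thpos i) (th_le_pi4 h hin) (sin_th_end2 h hj ha hin)
    (xx_ge_end2 h hj ha hin) (xx_le_end2 h hj ha hin) (by linarith) v2 ?_
  · have hq : qe (z i) (z j) = qcl (uu (z i)) := (h.ecrit1 hj).2
    have hu : UU (xx (z i).re (z i).im) (th (z i).re (z i).im) = uu (z i) := rfl
    rw [h.gd_uu i, hu, ← hq, bw, div_mul_cancel₀ _ (h.pos i).2.2.ne']
  · have hRa : Ra (xx (z i).re (z i).im) (th (z i).re (z i).im) = (z i).re := by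
      rw [Ra, h.gd_uu i]
    have h1 := re_lt_of_end2 h hj ha hin
    rw [hRa]
    rw [div_lt_iff₀ hpi] at h1
    nlinarith only [v0, hpi, h1]

theorem clH2_of (h : Zr a nl nr 1 z) {i j : ι} (hj : Zr.IsEnd2 a nl nr j i) (ha : a i = 2)
    (hin : ∃ l r, nl i = some l ∧ nr i = some r) {v1 : ℝ} (v0 : 9 / 25 ≤ v1) (v2 : v1 ≤ 2 / 5) :
    ∃ Φ : ℂ → ℂ, ClH2 Φ (th (z i).re (z i).im) (xx (z i).re (z i).im) (bw (z i) (z j)) v1 := by
  obtain ⟨Φ, hΦ, h0⟩ := exists_Phi1 (Fc 0)
  exact ⟨Φ, clH2_Phi h hj ha hin v0 v2 hΦ h0⟩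

/-- the weight of the closed edge -/
theorem bw_le_end2 (h : Zr a nl nr 1 z) {i j : ι} (hj : Zr.IsEnd2 a nl nr j i) (ha : a i = 2)
    (hin : ∃ l r, nl i = some l ∧ nr i = some r) : bw (z i) (z j) ≤ 79 / 50 := by
  have H := regQ h hj ha hin
  have hk := h.k2pos i
  have e := E.cosh_two_xx (h.pos i).1 (h.pos i).2.1 (h.pos i).2.2
  have ec := E.cos_two_th (h.pos i).1 (h.pos i).2.1 (h.pos i).2.2
  have e2 := s2_sq h i
  have e3 := s2_nn h i
  have hθ := abs_th h i
  have hx0 := h.xxpos i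
  have hYa : Ya (xx (z i).re (z i).im) (th (z i).re (z i).im) = (z i).im := by
    rw [Ya, h.gd_uu i]
  have hsh := sh_Ya_sq (x := xx (z i).re (z i).im) hθ
  rw [hYa] at hsh
  have hq : qe (z i) (z j) = qcl (uu (z i)) := (h.ecrit1 hj).2
  have q1 := two_qcl_re (xx (z i).re (z i).im) (th (z i).re (z i).im)
  have hu : UU (xx (z i).re (z i).im) (th (z i).re (z i).im) = uu (z i) := rfl
  rw [hu, ← hq, hYa] at q1
  have hI0 := (h.pos i).2.2
  rw [k2_eq h i] at hk e ec
  set K := ‖cos (z i)‖ with hK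
  set P := -2 * (cos (z i)).im with hP
  set x := xx (z i).re (z i).im with hx
  set θ := th (z i).re (z i).im with hθd
  set S := s2 (z i).re (z i).im with hS
  have hq133 := H.q_ge133
  have hK1 : 442 / 1000 ≤ K ^ 2 := by nlinarith only [hq133]
  have hPl := H.P_le
  have hPg := H.P_ge
  have hql := H.q_le
  -- `x ≤ 11/10`
  have hx1 : x ≤ 11 / 10 := by
    have h2 : S ≤ 456 / 100 * K ^ 2 - 1 := by
      by_contra hc
      push Not at hc
      have h3 : (456 / 100 * K ^ 2 - 1) ^ 2 < S ^ 2 :=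
        pow_lt_pow_left₀ hc (by linarith only [hK1]) two_ne_zero
      rw [e2] at h3
      have h4 : P ≤ 78 / 100 := by linarith
      nlinarith only [hK1, hPl, hPg, h3]
    have h4 : Real.cosh (2 * x) ≤ Real.cosh (11 / 5) := by
      rw [e, div_le_iff₀ hk]
      have h5 : 456 / 100 ≤ Real.cosh (11 / 5) := by
        have b0 := Real.sum_le_exp_of_nonneg (x := 11 / 5) (by norm_num) 11
        norm_num [Finset.sum_range_succ, Nat.factorial] at b0
        have b1 : 11 / 100 ≤ Real.exp (-(11 / 5)) := by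
          rw [Real.exp_neg, le_inv_comm₀ (by norm_num) (Real.exp_pos _)]
          have c1 : Real.exp (11 / 5) = Real.exp 1 ^ 2 * Real.exp (2 / 10) := by
            rw [← Real.exp_nat_mul, ← Real.exp_add]; norm_num
          have c2 := Real.exp_one_lt_d9
          have c3 := Real.exp_bound' (x := 2 / 10) (by norm_num) (by norm_num) (n := 4)
            (by norm_num)
          norm_num [Finset.sum_range_succ, Nat.factorial] at c3
          have c4 : Real.exp 1 ^ 2 * Real.exp (2 / 10) ≤ (2.7182818286) ^ 2 * (1222 / 1000) := by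
            apply mul_le_mul (pow_le_pow_left₀ (Real.exp_pos _).le c2.le 2) _ (Real.exp_pos _).le
              (by norm_num)
            linarith
          rw [c1]
          norm_num at c4 ⊢
          linarith
        rw [Real.cosh_eq]
        linarith
      nlinarith only [h2, h5]
    have h5 := Real.cosh_le_cosh.1 h4
    rw [abs_of_pos (by linarith : 0 < 2 * x), abs_of_pos (by norm_num : (0 : ℝ) < 11 / 5)] at h5
    linarith
  -- `k + s ≥ 1.144`
  have hks : 1144 / 1000 ≤ K ^ 2 + S := by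
    by_contra hc
    push Not at hc
    have h3 : S ^ 2 < (1144 / 1000 - K ^ 2) ^ 2 := pow_lt_pow_left₀ (by linarith) e3 two_ne_zero
    rw [e2] at h3
    rcases le_total (2 * K) (3 / 2) with h4 | h4
    · have h5 := H.P_ge43 h4
      nlinarith only [hK1, h3, h5]
    · have h5 : 5625 / 10000 ≤ K ^ 2 := by nlinarith only [h4]
      nlinarith only [hPg, h3, h4]
  have hch : Real.cosh (25 / 52 * x) ≤ 1144 / 1000 := by
    have h6 : Real.cosh (25 / 52 * x) ≤ Real.cosh (53 / 100) := by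
      apply Real.cosh_le_cosh.2
      rw [abs_of_pos (by positivity), abs_of_pos (by norm_num)]
      linarith
    refine h6.trans ?_
    rw [Real.cosh_eq]
    have c3 := Real.exp_bound' (x := 53 / 100) (by norm_num) (by norm_num) (n := 5)
      (by norm_num)
    norm_num [Finset.sum_range_succ, Nat.factorial] at c3
    have c4 : Real.exp (-(53 / 100)) ≤ 5888 / 10000 := by
      rw [Real.exp_neg, inv_le_comm₀ (Real.exp_pos _) (by norm_num)]
      have c5 := Real.sum_le_exp_of_nonneg (x := 53 / 100) (by norm_num) 5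
      norm_num [Finset.sum_range_succ, Nat.factorial] at c5
      norm_num
      linarith
    linarith
  -- `cosh² (25 x / 104) ≤ cosh² Y`
  have hY2 : Real.cosh (z i).im ^ 2 = K ^ 2 * Real.cosh x ^ 2 := by
    have h1 := Real.cosh_sq (z i).im
    have h2 : K ^ 2 * (Real.cosh x ^ 2 - Real.sin θ ^ 2) = 1 := by
      have a1 : Real.cosh (2 * x) = 2 * Real.cosh x ^ 2 - 1 := by
        rw [Real.cosh_two_mul, Real.sinh_sq]; ring
      have a2 : Real.cos (2 * θ) = 1 - 2 * Real.sin θ ^ 2 := by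
        rw [Real.cos_two_mul, Real.cos_sq']; ring
      have a3 : Real.cosh (2 * x) * K ^ 2 = 1 + S := by rw [e, div_mul_cancel₀ _ hk.ne']
      have a4 : Real.cos (2 * θ) * K ^ 2 = 1 - S := by rw [ec, div_mul_cancel₀ _ hk.ne']
      rw [a1] at a3
      rw [a2] at a4
      linarith
    have h3 : Real.sinh (z i).im ^ 2 = K ^ 2 * Real.sin θ ^ 2 := by
      calc Real.sinh (z i).im ^ 2
          = Real.sinh (z i).im ^ 2 * (K ^ 2 * (Real.cosh x ^ 2 - Real.sin θ ^ 2)) := by
            rw [h2, mul_one]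
        _ = K ^ 2 * (Real.sinh (z i).im ^ 2 * (Real.cosh x ^ 2 - Real.sin θ ^ 2)) := by ring
        _ = _ := by rw [hsh]
    rw [h1, h3]
    linarith
  have hcc : Real.cosh (25 / 104 * x) ^ 2 ≤ Real.cosh (z i).im ^ 2 := by
    have a0 : Real.cosh (25 / 52 * x) = 2 * Real.cosh (25 / 104 * x) ^ 2 - 1 := by
      rw [show 25 / 52 * x = 2 * (25 / 104 * x) by ring, Real.cosh_two_mul, Real.sinh_sq]; ring
    have a1 : Real.cosh (2 * x) = 2 * Real.cosh x ^ 2 - 1 := by
      rw [Real.cosh_two_mul, Real.sinh_sq]; ring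
    have a3 : Real.cosh (2 * x) * K ^ 2 = 1 + S := by rw [e, div_mul_cancel₀ _ hk.ne']
    rw [a1] at a3
    rw [hY2]
    rw [a0] at hch
    linarith
  have hc1 : Real.cosh (25 / 104 * x) ≤ Real.cosh (z i).im := by
    have := Real.cosh_pos (25 / 104 * x)
    have := Real.cosh_pos (z i).im
    nlinarith only [hcc, this]
  have hc2 := Real.cosh_le_cosh.1 hc1
  rw [abs_of_pos (by positivity : 0 < 25 / 104 * x), abs_of_pos hI0] at hc2
  rw [bw, div_le_iff₀ hI0]
  linarith

theorem edge_n2 (h : Zr a nl nr 1 z) {i j : ι} (hj : Zr.IsEnd2 a nl nr j i) (ha : a i = 2)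
    (hin : ∃ l r, nl i = some l ∧ nr i = some r)
    {v1 lam : ℝ} (v0 : 9 / 25 ≤ v1) (v2 : v1 ≤ 2 / 5)
    (hl : LamOK (a i) (bw (z i) (z j)) v1 lam) {v : ℂ} (hv : v ∈ G0 (th (z i).re (z i).im) v1)
    (hne : v ≠ gdv (uu (z i))) :
    EdgeOK (.op v) (.cl 1) (Lsh (EE (.op (gdv (uu (z i)))) (.cl 1)
        (yy (uu (z i)) ((starRingEnd ℂ) (uu (z j)))))
      (gdv (uu (z i))) (qe (z i) (z j)) (-(2 * Real.pi * bw (z i) (z j)))
      (th (z i).re (z i).im) v1 (-(a i / 2)) lam v) := by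
  obtain ⟨Φ, H⟩ := clH2_of h hj ha hin v0 v2
  rw [yc_eq h hj, (h.ecrit1 hj).2]
  exact W1n2 H (by have := hl.1; linarith) (by have := hl.2; linarith) hv hne

theorem edge_p2 (h : Zr a nl nr 1 z) {i j : ι} (hj : Zr.IsEnd2 a nl nr j i) (ha : a i = 2)
    (hin : ∃ l r, nl i = some l ∧ nr i = some r)
    {v1 lam : ℝ} (v0 : 9 / 25 ≤ v1) (v2 : v1 ≤ 2 / 5)
    (hl : LamOK (a i) (bw (z i) (z j)) v1 lam) {v : ℂ} (hv : v ∈ G0 (th (z i).re (z i).im) v1)
    (hne : v ≠ mir (gdv (uu (z i)))) :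
    EdgeOK (.op v) (.cl (-1)) (Lsh (EE (.op (mir (gdv (uu (z i))))) (.cl (-1))
        ((starRingEnd ℂ) (yy (uu (z i)) ((starRingEnd ℂ) (uu (z j))))))
      (mir (gdv (uu (z i)))) (-((starRingEnd ℂ) (qe (z i) (z j)))) (2 * Real.pi * bw (z i) (z j))
      (th (z i).re (z i).im) v1 (a i / 2) lam v) := by
  obtain ⟨Φ, H⟩ := clH2_of h hj ha hin v0 v2
  rw [yc_eq h hj, (h.ecrit1 hj).2]
  exact W1p2 H (by have := hl.1; linarith) (by have := hl.2; linarith) hv hne

theorem near_n2 (h : Zr a nl nr 1 z) {i j : ι} (hj : Zr.IsEnd2 a nl nr j i) (ha : a i = 2)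
    (hin : ∃ l r, nl i = some l ∧ nr i = some r) :
    EdgeC (.op (gdv (uu (z i)))) (.cl 1) (yy (uu (z i)) ((starRingEnd ℂ) (uu (z j))))
      (EE (.op (gdv (uu (z i)))) (.cl 1) (yy (uu (z i)) ((starRingEnd ℂ) (uu (z j))))) := by
  obtain ⟨Φ, H⟩ := clH2_of h hj ha hin (v1 := 2 / 5) (by norm_num) le_rfl
  rw [yc_eq h hj]
  exact W2c2 H

theorem near_p2 (h : Zr a nl nr 1 z) {i j : ι} (hj : Zr.IsEnd2 a nl nr j i) (ha : a i = 2)
    (hin : ∃ l r, nl i = some l ∧ nr i = some r) :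
    EdgeC (.op (mir (gdv (uu (z i))))) (.cl (-1))
      ((starRingEnd ℂ) (yy (uu (z i)) ((starRingEnd ℂ) (uu (z j)))))
      (EE (.op (mir (gdv (uu (z i))))) (.cl (-1))
        ((starRingEnd ℂ) (yy (uu (z i)) ((starRingEnd ℂ) (uu (z j)))))) := by
  obtain ⟨Φ, H⟩ := clH2_of h hj ha hin (v1 := 2 / 5) (by norm_num) le_rfl
  rw [yc_eq h hj]
  exact W2p2 H

end

end Pool.Agent.S3.Cl
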