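import Pool.Agent.S3.Cl.CfgE
import Pool.Agent.S3.Cl.Edge2

/-!
# Stage 3: closed ends: the fields `far` and `near` of `Cfg.Edg` at the edges with a closed end,
all `a ≥ 2`
-/

namespace Pool.Agent.S3.Cl

open Complex Pool.Agent.S3
open Pool.Agent.H63.VC7 (inc)
open Pool.Agent.H25.RK (gdv gdv_re_lt gdv_hasDerivAt)
open Pool.Agent.S3.E (Zr uu qe qo bw xx th)

/-- the conditions on the contour at an inner `2` next to a closed end -/
structure VOK2 (a : ℕ) (b v1 lam : ℝ) : Prop where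
  a2 : a = 2
  v0 : 9 / 25 ≤ v1
  v2 : v1 ≤ 2 / 5
  hl : LamOK a b v1 lam

variable {m : ℕ} {a : Fin (m + 1) → ℕ} {σ : Fin (m + 1) → ℤ} {z : Fin (m + 1) → ℂ}

/-- a vertex `2` that is not closed has two neighbours -/
theorem inner_of {i : Fin (m + 1)} (h : ¬ clo a i) (ha : a i = 2) :
    ∃ l r, chL i = some l ∧ chR i = some r := by
  have h1 : i ≠ 0 := fun h1 => h ⟨ha, Or.inl h1⟩
  have h2 : i ≠ Fin.last m := fun h2 => h ⟨ha, Or.inr h2⟩
  obtain ⟨j, hj⟩ := eL_none h1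
  obtain ⟨k, hk⟩ := eR_none h2
  refine ⟨j.castSucc, k.succ, ?_, ?_⟩
  · rw [hj, chL_succ]
  · rw [hk, chR_castSucc]

/-- The choice `19/50 ≤ v1 ≤ 2/5`, `lam = b/2`. -/
theorem vok2 {i k : Fin (m + 1)} (h : Zr (fun i => (a i : ℝ)) chL chR 1 z)
    (hk : Zr.IsEnd2 (fun i => (a i : ℝ)) chL chR k i) (hc : ¬ clo a i) (ha : a i = 2) {v1 : ℝ}
    (h1 : 19 / 50 ≤ v1) (h2 : v1 ≤ 2 / 5) :
    VOK2 (a i) (bw (z i) (z k)) v1 (bw (z i) (z k) / a i) := by
  have ha2 : (fun i => (a i : ℝ)) i = 2 := by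
    show ((a i : ℕ) : ℝ) = 2
    rw [ha]; norm_num
  have hin := inner_of hc ha
  have hb := bw_le_end2 h hk ha2 hin
  have hb0 := h.bw_pos (h.N.symm k i (hji_of hk))
  have ha' : (a i : ℝ) = 2 := ha2
  have key : bw (z i) (z k) * (1 - 2 * v1) ≤ v1 := by nlinarith
  refine ⟨ha, by linarith, h2, ?_, ?_⟩
  · rw [ha']; linarith
  · rw [ha']; linarith

section

variable {v1 : Fin (m + 1) → ℝ} {lam : Fin m → Fin (m + 1) → ℝ}

/-- the right end of the edge is closed -/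
theorem far_left2 (h : Zr (fun i => (a i : ℝ)) chL chR 1 z) (ha : ∀ i, 2 ≤ a i)
    (hσ : ∀ i, σ i = 1 ∨ σ i = -1) (hs : ∀ j : Fin m, σ j.succ = -σ j.castSucc)
    (h2 : ∀ j : Fin m, ¬ (clo a j.castSucc ∧ clo a j.succ)) {j : Fin m}
    (c2 : clo a j.succ)
    (hV : VOK2 (a j.castSucc) (bw (z j.castSucc) (z j.succ)) (v1 j.castSucc) (lam j j.castSucc))
    {v w : ℂ} (hv : v ∈ G0 ((cfgOf a σ z).θ j.castSucc) (v1 j.castSucc))
    (hne : v ≠ (cfgOf a σ z).vc j.castSucc) :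
    EdgeOK ((cfgOf a σ z).sv j.castSucc v) ((cfgOf a σ z).sv j.succ w)
      ((cfgOf a σ z).Lw v1 lam j v w) := by
  have c1 : ¬ clo a j.castSucc := fun c1 => h2 j ⟨c1, c2⟩
  have hE := edC h ha hσ hs h2 j
  have ha2 : (fun i => (a i : ℝ)) j.castSucc = 2 := by
    show ((a j.castSucc : ℕ) : ℝ) = 2
    rw [hV.a2]; norm_num
  have hin := inner_of c1 hV.a2
  have hL : (cfgOf a σ z).Lw v1 lam j v w = Lsh ((cfgOf a σ z).Fc j) ((cfgOf a σ z).vc j.castSucc)
      (Qv σ z j j.castSucc) ((cfgOf a σ z).β j j.castSucc) ((cfgOf a σ z).θ j.castSucc)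
      (v1 j.castSucc) ((cfgOf a σ z).r j.castSucc) (lam j j.castSucc) v := by
    unfold Cfg.Lw
    rw [lw_cl c2, add_zero, lw_op c1 v1 lam j (hE.ev1 c1)]
  rw [hL, sv_op c1, sv_cl c2]
  unfold Cfg.Fc
  rw [slc_op c1, slc_cl c2]
  rcases hσ j.castSucc with s1 | s1
  · -- `c > 0` at the open vertex
    have s2 : σ j.succ = -1 := by rw [hs, s1]
    have hv' := vc_pos (a := a) (uu_im h j.castSucc) s1
    rw [hv'] at hne ⊢
    have ey0 : (cfgOf a σ z).yc j =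
        (starRingEnd ℂ) (yy (E.uu (z j.castSucc)) ((starRingEnd ℂ) (E.uu (z j.succ)))) := by
      rw [Pool.Agent.S3.yc_eq, if_neg (by rw [s1]; decide),
        ← yy_conj (h.reg_edge (Or.inr (chR_castSucc j))), conj_conj, yy_comm]
    have q1 : Qv σ z j j.castSucc = -((starRingEnd ℂ) (qe (z j.castSucc) (z j.succ))) := by
      rw [Qv_pos s1, if_pos rfl]
    have b1 : (cfgOf a σ z).β j j.castSucc = 2 * Real.pi * bw (z j.castSucc) (z j.succ) := by
      rw [β_cs, s1]; norm_num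
    rw [ey0, q1, b1, r_pos s1, s2]
    exact edge_p2 h (end_right c2) ha2 hin hV.v0 hV.v2 hV.hl hv hne
  · have s2 : σ j.succ = 1 := by rw [hs, s1]; rfl
    have hv' := vc_neg (a := a) (z := z) s1
    rw [hv'] at hne ⊢
    have ey0 : (cfgOf a σ z).yc j =
        yy (E.uu (z j.castSucc)) ((starRingEnd ℂ) (E.uu (z j.succ))) := by
      rw [Pool.Agent.S3.yc_eq, if_pos s1]
    have q1 : Qv σ z j j.castSucc = qe (z j.castSucc) (z j.succ) := by
      rw [Qv_neg s1, if_pos rfl]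
    have b1 : (cfgOf a σ z).β j j.castSucc = -(2 * Real.pi * bw (z j.castSucc) (z j.succ)) := by
      rw [β_cs, s1]; push_cast; ring
    rw [ey0, q1, b1, r_neg s1, s2]
    exact edge_n2 h (end_right c2) ha2 hin hV.v0 hV.v2 hV.hl hv hne

/-- the left end of the edge is closed -/
theorem far_right2 (h : Zr (fun i => (a i : ℝ)) chL chR 1 z) (ha : ∀ i, 2 ≤ a i)
    (hσ : ∀ i, σ i = 1 ∨ σ i = -1) (hs : ∀ j : Fin m, σ j.succ = -σ j.castSucc)
    (h2 : ∀ j : Fin m, ¬ (clo a j.castSucc ∧ clo a j.succ)) {j : Fin m}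
    (c1 : clo a j.castSucc)
    (hV : VOK2 (a j.succ) (bw (z j.succ) (z j.castSucc)) (v1 j.succ) (lam j j.succ))
    {v w : ℂ} (hw : w ∈ G0 ((cfgOf a σ z).θ j.succ) (v1 j.succ))
    (hne : w ≠ (cfgOf a σ z).vc j.succ) :
    EdgeOK ((cfgOf a σ z).sv j.castSucc v) ((cfgOf a σ z).sv j.succ w)
      ((cfgOf a σ z).Lw v1 lam j v w) := by
  have c2 : ¬ clo a j.succ := fun c2 => h2 j ⟨c1, c2⟩
  have hE := edC h ha hσ hs h2 j
  have ha2 : (fun i => (a i : ℝ)) j.succ = 2 := by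
    show ((a j.succ : ℕ) : ℝ) = 2
    rw [hV.a2]; norm_num
  have hin := inner_of c2 hV.a2
  have hL : (cfgOf a σ z).Lw v1 lam j v w = Lsh ((cfgOf a σ z).Fc j) ((cfgOf a σ z).vc j.succ)
      (Qv σ z j j.succ) ((cfgOf a σ z).β j j.succ) ((cfgOf a σ z).θ j.succ)
      (v1 j.succ) ((cfgOf a σ z).r j.succ) (lam j j.succ) w := by
    unfold Cfg.Lw
    rw [lw_cl c1, add_zero, lw_op c2 v1 lam j (hE.ev2 c2)]
  rw [hL, sv_op c2, sv_cl c1]
  unfold Cfg.Fc
  rw [slc_op c2, slc_cl c1]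
  apply EdgeOK.symm
  have hsym : EE (.cl (σ j.castSucc)) (.op ((cfgOf a σ z).vc j.succ)) ((cfgOf a σ z).yc j)
      = EE (.op ((cfgOf a σ z).vc j.succ)) (.cl (σ j.castSucc)) ((cfgOf a σ z).yc j) := by
    rw [EE, EE, add_comm]
  rw [hsym]
  rcases hσ j.castSucc with s1 | s1
  · have s2 : σ j.succ = -1 := by rw [hs, s1]
    have hv' := vc_neg (a := a) (z := z) s2
    rw [hv'] at hne ⊢
    have ey0 : (cfgOf a σ z).yc j =
        yy (E.uu (z j.succ)) ((starRingEnd ℂ) (E.uu (z j.castSucc))) := by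
      rw [Pool.Agent.S3.yc_eq, if_neg (by rw [s1]; decide)]
    have q1 : Qv σ z j j.succ = qe (z j.succ) (z j.castSucc) := by
      rw [Qv_neg s2, if_neg (ne_cs j)]
    have b1 : (cfgOf a σ z).β j j.succ = -(2 * Real.pi * bw (z j.succ) (z j.castSucc)) := by
      rw [β_su, s2]; push_cast; ring
    rw [ey0, q1, b1, r_neg s2, s1]
    exact edge_n2 h (end_left c1) ha2 hin hV.v0 hV.v2 hV.hl hw hne
  · have s2 : σ j.succ = 1 := by rw [hs, s1]; rfl
    have hv' := vc_pos (a := a) (uu_im h j.succ) s2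
    rw [hv'] at hne ⊢
    have ey0 : (cfgOf a σ z).yc j =
        (starRingEnd ℂ) (yy (E.uu (z j.succ)) ((starRingEnd ℂ) (E.uu (z j.castSucc)))) := by
      rw [Pool.Agent.S3.yc_eq, if_pos s1, ← yy_conj (h.reg_edge (Or.inl (chL_succ j))), conj_conj,
        yy_comm]
    have q1 : Qv σ z j j.succ = -((starRingEnd ℂ) (qe (z j.succ) (z j.castSucc))) := by
      rw [Qv_pos s2, if_neg (ne_cs j)]
    have b1 : (cfgOf a σ z).β j j.succ = 2 * Real.pi * bw (z j.succ) (z j.castSucc) := by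
      rw [β_su, s2]; norm_num
    rw [ey0, q1, b1, r_pos s2, s1]
    exact edge_p2 h (end_left c1) ha2 hin hV.v0 hV.v2 hV.hl hw hne

/-- the critical point of an edge whose right end is closed -/
theorem near_left2 (h : Zr (fun i => (a i : ℝ)) chL chR 1 z)
    (hσ : ∀ i, σ i = 1 ∨ σ i = -1) (hs : ∀ j : Fin m, σ j.succ = -σ j.castSucc)
    (h2 : ∀ j : Fin m, ¬ (clo a j.castSucc ∧ clo a j.succ)) {j : Fin m}
    (c2 : clo a j.succ) (ha2' : a j.castSucc = 2) :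
    EdgeC ((cfgOf a σ z).slc j.castSucc) ((cfgOf a σ z).slc j.succ) ((cfgOf a σ z).yc j)
      ((cfgOf a σ z).Fc j) := by
  have c1 : ¬ clo a j.castSucc := fun c1 => h2 j ⟨c1, c2⟩
  have ha2 : (fun i => (a i : ℝ)) j.castSucc = 2 := by
    show ((a j.castSucc : ℕ) : ℝ) = 2
    rw [ha2']; norm_num
  have hin := inner_of c1 ha2'
  unfold Cfg.Fc
  rw [slc_op c1, slc_cl c2]
  rcases hσ j.castSucc with s1 | s1
  · have s2 : σ j.succ = -1 := by rw [hs, s1]
    have ey0 : (cfgOf a σ z).yc j =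
        (starRingEnd ℂ) (yy (E.uu (z j.castSucc)) ((starRingEnd ℂ) (E.uu (z j.succ)))) := by
      rw [Pool.Agent.S3.yc_eq, if_neg (by rw [s1]; decide),
        ← yy_conj (h.reg_edge (Or.inr (chR_castSucc j))), conj_conj, yy_comm]
    rw [vc_pos (a := a) (uu_im h j.castSucc) s1, ey0, s2]
    exact near_p2 h (end_right c2) ha2 hin
  · have s2 : σ j.succ = 1 := by rw [hs, s1]; rfl
    have ey0 : (cfgOf a σ z).yc j =
        yy (E.uu (z j.castSucc)) ((starRingEnd ℂ) (E.uu (z j.succ))) := by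
      rw [Pool.Agent.S3.yc_eq, if_pos s1]
    rw [vc_neg (a := a) (z := z) s1, ey0, s2]
    exact near_n2 h (end_right c2) ha2 hin

/-- the critical point of an edge whose left end is closed -/
theorem near_right2 (h : Zr (fun i => (a i : ℝ)) chL chR 1 z)
    (hσ : ∀ i, σ i = 1 ∨ σ i = -1) (hs : ∀ j : Fin m, σ j.succ = -σ j.castSucc)
    (h2 : ∀ j : Fin m, ¬ (clo a j.castSucc ∧ clo a j.succ)) {j : Fin m}
    (c1 : clo a j.castSucc) (ha2' : a j.succ = 2) :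
    EdgeC ((cfgOf a σ z).slc j.castSucc) ((cfgOf a σ z).slc j.succ) ((cfgOf a σ z).yc j)
      ((cfgOf a σ z).Fc j) := by
  have c2 : ¬ clo a j.succ := fun c2 => h2 j ⟨c1, c2⟩
  have ha2 : (fun i => (a i : ℝ)) j.succ = 2 := by
    show ((a j.succ : ℕ) : ℝ) = 2
    rw [ha2']; norm_num
  have hin := inner_of c2 ha2'
  unfold Cfg.Fc
  rw [slc_op c2, slc_cl c1]
  have hsym : EE (.cl (σ j.castSucc)) (.op ((cfgOf a σ z).vc j.succ)) ((cfgOf a σ z).yc j)
      = EE (.op ((cfgOf a σ z).vc j.succ)) (.cl (σ j.castSucc)) ((cfgOf a σ z).yc j) := by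
    rw [EE, EE, add_comm]
  rw [hsym]
  apply EdgeC.symm
  rcases hσ j.castSucc with s1 | s1
  · have s2 : σ j.succ = -1 := by rw [hs, s1]
    have ey0 : (cfgOf a σ z).yc j =
        yy (E.uu (z j.succ)) ((starRingEnd ℂ) (E.uu (z j.castSucc))) := by
      rw [Pool.Agent.S3.yc_eq, if_neg (by rw [s1]; decide)]
    rw [vc_neg (a := a) (z := z) s2, ey0, s1]
    exact near_n2 h (end_left c1) ha2 hin
  · have s2 : σ j.succ = 1 := by rw [hs, s1]; rfl
    have ey0 : (cfgOf a σ z).yc j =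
        (starRingEnd ℂ) (yy (E.uu (z j.succ)) ((starRingEnd ℂ) (E.uu (z j.castSucc)))) := by
      rw [Pool.Agent.S3.yc_eq, if_pos s1, ← yy_conj (h.reg_edge (Or.inl (chL_succ j))), conj_conj,
        yy_comm]
    rw [vc_pos (a := a) (uu_im h j.succ) s2, ey0, s1]
    exact near_p2 h (end_left c1) ha2 hin

/-- **The field `far` at the edges with a closed end.** -/
theorem far2 (h : Zr (fun i => (a i : ℝ)) chL chR 1 z) (ha : ∀ i, 2 ≤ a i)
    (hσ : ∀ i, σ i = 1 ∨ σ i = -1) (hs : ∀ j : Fin m, σ j.succ = -σ j.castSucc)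
    (h2 : ∀ j : Fin m, ¬ (clo a j.castSucc ∧ clo a j.succ)) {j : Fin m}
    (hc : clo a j.castSucc ∨ clo a j.succ)
    (hl : ¬ clo a j.castSucc →
      VOK (a j.castSucc) (bw (z j.castSucc) (z j.succ)) (v1 j.castSucc) (lam j j.castSucc) ∨
      VOK2 (a j.castSucc) (bw (z j.castSucc) (z j.succ)) (v1 j.castSucc) (lam j j.castSucc))
    (hr : ¬ clo a j.succ →
      VOK (a j.succ) (bw (z j.succ) (z j.castSucc)) (v1 j.succ) (lam j j.succ) ∨
      VOK2 (a j.succ) (bw (z j.succ) (z j.castSucc)) (v1 j.succ) (lam j j.succ))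
    (v w : ℂ)
    (hv : j.castSucc ∈ (cfgOf a σ z).Op → v ∈ G0 ((cfgOf a σ z).θ j.castSucc) (v1 j.castSucc))
    (hw : j.succ ∈ (cfgOf a σ z).Op → w ∈ G0 ((cfgOf a σ z).θ j.succ) (v1 j.succ))
    (hne : (j.castSucc ∈ (cfgOf a σ z).Op ∧ v ≠ (cfgOf a σ z).vc j.castSucc) ∨
      (j.succ ∈ (cfgOf a σ z).Op ∧ w ≠ (cfgOf a σ z).vc j.succ)) :
    EdgeOK ((cfgOf a σ z).sv j.castSucc v) ((cfgOf a σ z).sv j.succ w)
      ((cfgOf a σ z).Lw v1 lam j v w) := by
  rcases hc with c | c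
  · have c2 : ¬ clo a j.succ := fun c2 => h2 j ⟨c, c2⟩
    rcases hne with ⟨h3, _⟩ | ⟨h3, h4⟩
    · exact absurd c (mem_Op.1 h3)
    · rcases hr c2 with H | H
      · exact far_right h ha hσ hs h2 c H (hw h3) h4
      · exact far_right2 h ha hσ hs h2 c H (hw h3) h4
  · have c1 : ¬ clo a j.castSucc := fun c1 => h2 j ⟨c1, c⟩
    rcases hne with ⟨h3, h4⟩ | ⟨h3, _⟩
    · rcases hl c1 with H | H
      · exact far_left h ha hσ hs h2 c H (hv h3) h4
      · exact far_left2 h ha hσ hs h2 c H (hv h3) h4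
    · exact absurd c (mem_Op.1 h3)

/-- **The field `near` at the edges with a closed end.** -/
theorem near2 (h : Zr (fun i => (a i : ℝ)) chL chR 1 z) (ha : ∀ i, 2 ≤ a i)
    (hσ : ∀ i, σ i = 1 ∨ σ i = -1) (hs : ∀ j : Fin m, σ j.succ = -σ j.castSucc)
    (h2 : ∀ j : Fin m, ¬ (clo a j.castSucc ∧ clo a j.succ)) {j : Fin m}
    (hc : clo a j.castSucc ∨ clo a j.succ) :
    EdgeC ((cfgOf a σ z).slc j.castSucc) ((cfgOf a σ z).slc j.succ) ((cfgOf a σ z).yc j)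
      ((cfgOf a σ z).Fc j) := by
  rcases hc with c | c
  · rcases Nat.lt_or_ge (a j.succ) 3 with h3 | h3
    · exact near_right2 h hσ hs h2 c (by have := ha j.succ; omega)
    · exact near_right h hσ hs h2 c h3
  · rcases Nat.lt_or_ge (a j.castSucc) 3 with h3 | h3
    · exact near_left2 h hσ hs h2 c (by have := ha j.castSucc; omega)
    · exact near_left h hσ hs h2 c h3

end

end Pool.Agent.S3.Cl
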