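import Pool.Agent.S3.Cl.E3A
import Pool.Agent.S3.Cl.PbNum

/-!
# Stage 3: (E1) at an inner `2` between a closed end and an inner `2`, low part
-/

set_option autoImplicit false

namespace Pool.Agent.S3.Cl

/-- lower bound of `sinh x` from `|cos z| ≤ 1` at the third vertex -/
theorem e1b_X {K s X P : ℝ} (K0 : 0 < K) (hK : K ^ 2 * (1 - s ^ 2 + X ^ 2) = 1)
    (hP : P = 2 * K ^ 2 * s * X) (X0 : 0 ≤ X) (hs0 : 443 / 1000 ≤ s) (hs1 : s ≤ 62 / 100)
    (hK1 : 2 * K ≤ 166 / 100)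
    (hline : 1579 / 1000 ≤ 2 * K → 648 / 1000 + 52 / 10 * (2 * K - 164 / 100) ≤ P) :
    8834 / 10000 + 286 / 1000 * (s - 54 / 100) ≤ X := by
  by_contra hc
  push Not at hc
  obtain ⟨X1, hX1⟩ : ∃ X1, X1 = 8834 / 10000 + 286 / 1000 * (s - 54 / 100) := ⟨_, rfl⟩
  rw [← hX1] at hc
  have hXX : X ^ 2 ≤ X1 ^ 2 := pow_le_pow_left₀ X0 hc.le 2
  obtain ⟨r, hr⟩ : ∃ r, r = s - 443 / 1000 := ⟨_, rfl⟩
  have e : s = r + 443 / 1000 := by rw [hr]; ring
  have r0 : 0 ≤ r := by rw [hr]; linarith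
  have r1 : r ≤ 177 / 1000 := by rw [hr]; linarith
  rcases le_total (1579 / 1000) (2 * K) with h | h
  · have h1 := hline h
    obtain ⟨y, hy⟩ : ∃ y, y = 1 / K := ⟨_, rfl⟩
    have y0 : 0 < y := by rw [hy]; positivity
    have yK : y * K = 1 := by rw [hy]; field_simp
    have y2 : y ^ 2 = 1 - s ^ 2 + X ^ 2 := by
      have : y ^ 2 * K ^ 2 = 1 := by rw [← mul_pow, yK, one_pow]
      calc y ^ 2 = y ^ 2 * (K ^ 2 * (1 - s ^ 2 + X ^ 2)) := by rw [hK, mul_one]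
        _ = (y ^ 2 * K ^ 2) * (1 - s ^ 2 + X ^ 2) := by ring
        _ = _ := by rw [this, one_mul]
    have h2 : -(788 / 100) * y ^ 2 + 104 / 10 * y ≤ 2 * s * X := by
      have a1 := mul_le_mul_of_nonneg_right h1 (sq_nonneg y)
      have a2 : P * y ^ 2 = 2 * s * X := by
        rw [hP]
        linear_combination (2 * s * X * (y * K + 1)) * yK
      have a3 : (648 / 1000 + 52 / 10 * (2 * K - 164 / 100)) * y ^ 2 =
          -(788 / 100) * y ^ 2 + 104 / 10 * y := by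
        linear_combination (104 / 10 * y) * yK
      rw [a2, a3] at a1
      exact a1
    have hy12 : 12 / 10 ≤ y := by
      have : y * (2 * K) = 2 := by linarith
      nlinarith
    obtain ⟨w, hw⟩ : ∃ w, w = 12203 / 10000 - 2353 / 10000 * (s - 54 / 100)
        - 36 / 100 * (s - 54 / 100) ^ 2 := ⟨_, rfl⟩
    have w1 : y ≤ w := by
      apply le_of_sq_le_sq
      · rw [y2]
        refine le_trans (by linarith : 1 - s ^ 2 + X ^ 2 ≤ 1 - s ^ 2 + X1 ^ 2) ?_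
        rw [hX1, hw, e]
        linarith [pow_nonneg (sub_nonneg.2 r1) 4,
          mul_nonneg (pow_nonneg r0 1) (pow_nonneg (sub_nonneg.2 r1) 3),
          mul_nonneg (pow_nonneg r0 2) (pow_nonneg (sub_nonneg.2 r1) 2),
          mul_nonneg (pow_nonneg r0 3) (pow_nonneg (sub_nonneg.2 r1) 1),
          pow_nonneg r0 4]
      · rw [hw]; nlinarith
    have w2 : 788 / 100 * w ^ 2 - 104 / 10 * w + 2 * s * X1 < 0 := by
      rw [hX1, hw, e]
      linarith [pow_nonneg (sub_nonneg.2 r1) 8,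
      mul_nonneg (pow_nonneg r0 1) (pow_nonneg (sub_nonneg.2 r1) 7),
      mul_nonneg (pow_nonneg r0 2) (pow_nonneg (sub_nonneg.2 r1) 6),
      mul_nonneg (pow_nonneg r0 3) (pow_nonneg (sub_nonneg.2 r1) 5),
      mul_nonneg (pow_nonneg r0 4) (pow_nonneg (sub_nonneg.2 r1) 4),
      mul_nonneg (pow_nonneg r0 5) (pow_nonneg (sub_nonneg.2 r1) 3),
      mul_nonneg (pow_nonneg r0 6) (pow_nonneg (sub_nonneg.2 r1) 2),
      mul_nonneg (pow_nonneg r0 7) (pow_nonneg (sub_nonneg.2 r1) 1),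
      pow_nonneg r0 8]
    have w3 : 0 ≤ (w - y) * (788 / 100 * (w + y) - 104 / 10) :=
      mul_nonneg (by linarith) (by linarith)
    have w4 : 2 * s * X ≤ 2 * s * X1 := mul_le_mul_of_nonneg_left hc.le (by linarith)
    linarith
  · have h1 : K ^ 2 ≤ 62332 / 100000 := by nlinarith
    have h2 : 0 ≤ 1 - s ^ 2 + X ^ 2 := by nlinarith [sq_nonneg X]
    have h3 := mul_le_mul_of_nonneg_right h1 h2
    rw [hK] at h3
    have h4 : X1 ^ 2 < 60430 / 100000 + s ^ 2 := by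
      rw [hX1, e]
      linarith [pow_nonneg (sub_nonneg.2 r1) 2,
      mul_nonneg (pow_nonneg r0 1) (pow_nonneg (sub_nonneg.2 r1) 1),
      pow_nonneg r0 2]
    linarith

section

variable {R I x θ : ℝ}

theorem e1b_x (h0 : 46 / 100 ≤ θ) (h1 : θ ≤ 6525 / 10000)
    (hX : 8834 / 10000 + 286 / 1000 * (Real.sin θ - 54 / 100) ≤ Real.sinh x) :
    7957 / 10000 + 182 / 1000 * (θ - 57 / 100) ≤ x := by
  apply Real.sinh_le_sinh.1
  have h2 := pb_sh8 (x := 7957 / 10000 + 182 / 1000 * (θ - 57 / 100)) (by linarith) (by linarith)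
  have h3 := n_s7 (x := θ) (by linarith)
  refine h2.trans (le_trans ?_ hX)
  refine le_trans ?_ (by linarith : 8834 / 10000 + 286 / 1000 * ((θ - θ ^ 3 / 6 + θ ^ 5 / 120
    - θ ^ 7 / 5040) - 54 / 100) ≤ _)
  obtain ⟨r, hr⟩ : ∃ r, r = θ - 46 / 100 := ⟨_, rfl⟩
  have e : θ = r + 46 / 100 := by rw [hr]; ring
  have r0 : 0 ≤ r := by rw [hr]; linarith
  have r1 : r ≤ 77 / 400 := by rw [hr]; linarith
  rw [e]
  linarith [pow_nonneg (sub_nonneg.2 r1) 8,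
    mul_nonneg (pow_nonneg r0 1) (pow_nonneg (sub_nonneg.2 r1) 7),
    mul_nonneg (pow_nonneg r0 2) (pow_nonneg (sub_nonneg.2 r1) 6),
    mul_nonneg (pow_nonneg r0 3) (pow_nonneg (sub_nonneg.2 r1) 5),
    mul_nonneg (pow_nonneg r0 4) (pow_nonneg (sub_nonneg.2 r1) 4),
    mul_nonneg (pow_nonneg r0 5) (pow_nonneg (sub_nonneg.2 r1) 3),
    mul_nonneg (pow_nonneg r0 6) (pow_nonneg (sub_nonneg.2 r1) 2),
    mul_nonneg (pow_nonneg r0 7) (pow_nonneg (sub_nonneg.2 r1) 1),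
    pow_nonneg r0 8]

theorem e1b_R (hR0 : 0 < R) (hR1 : R < Real.pi / 2)
    (hS : Real.sin R * Real.cos θ = Real.sinh x * Real.cos R) (h0 : 46 / 100 ≤ θ)
    (h1 : θ ≤ 6525 / 10000)
    (hX : 8834 / 10000 + 286 / 1000 * (Real.sin θ - 54 / 100) ≤ Real.sinh x) :
    809 / 1000 + 456 / 1000 * (θ - 57 / 100) ≤ R := by
  have hpi := Real.pi_gt_three
  by_contra hc
  push Not at hc
  obtain ⟨y, hy⟩ : ∃ y, y = 809 / 1000 + 456 / 1000 * (θ - 57 / 100) := ⟨_, rfl⟩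
  rw [← hy] at hc
  have y1 : y ≤ 85 / 100 := by rw [hy]; linarith
  have hcθ : 0 < Real.cos θ := Real.cos_pos_of_mem_Ioo ⟨by linarith, by linarith⟩
  have h3 := n_s7 (x := θ) (by linarith)
  have c4 := n_c4 (x := θ) (by linarith)
  have s5 := n_s5 (x := y) (by linarith)
  have c6 := n_c6 (x := y) (by linarith)
  have b1 : Real.sin R < Real.sin y :=
    Real.sin_lt_sin_of_lt_of_le_pi_div_two (by linarith) (by linarith) hc
  have b2 : Real.cos y < Real.cos R :=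
    Real.cos_lt_cos_of_nonneg_of_le_pi hR0.le (by linarith) hc
  obtain ⟨M, hM⟩ : ∃ M, M = 8834 / 10000 + 286 / 1000 * ((θ - θ ^ 3 / 6 + θ ^ 5 / 120
    - θ ^ 7 / 5040) - 54 / 100) := ⟨_, rfl⟩
  have hM0 : 0 ≤ M := by
    have : 0 ≤ (θ - θ ^ 3 / 6 + θ ^ 5 / 120 - θ ^ 7 / 5040) := by
      have a1 : θ ^ 3 ≤ θ := by
        have : θ ^ 2 ≤ 1 := by nlinarith
        nlinarith
      have a2 : θ ^ 7 ≤ θ ^ 5 := by
        have : θ ^ 2 ≤ 1 := by nlinarith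
        have h5 : 0 ≤ θ ^ 5 := by positivity
        nlinarith
      have h5 : 0 ≤ θ ^ 5 := by positivity
      linarith
    rw [hM]; linarith
  have hMX : M ≤ Real.sinh x := by rw [hM]; linarith
  have key : (y - y ^ 3 / 6 + y ^ 5 / 120) * (1 - θ ^ 2 / 2 + θ ^ 4 / 24) ≤
      M * (1 - y ^ 2 / 2 + y ^ 4 / 24 - y ^ 6 / 720) := by
    obtain ⟨r, hr⟩ : ∃ r, r = θ - 46 / 100 := ⟨_, rfl⟩
    have e : θ = r + 46 / 100 := by rw [hr]; ring
    have r0 : 0 ≤ r := by rw [hr]; linarith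
    have r1 : r ≤ 77 / 400 := by rw [hr]; linarith
    rw [hM, hy, e]
    linarith [pow_nonneg (sub_nonneg.2 r1) 13,
      mul_nonneg (pow_nonneg r0 1) (pow_nonneg (sub_nonneg.2 r1) 12),
      mul_nonneg (pow_nonneg r0 2) (pow_nonneg (sub_nonneg.2 r1) 11),
      mul_nonneg (pow_nonneg r0 3) (pow_nonneg (sub_nonneg.2 r1) 10),
      mul_nonneg (pow_nonneg r0 4) (pow_nonneg (sub_nonneg.2 r1) 9),
      mul_nonneg (pow_nonneg r0 5) (pow_nonneg (sub_nonneg.2 r1) 8),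
      mul_nonneg (pow_nonneg r0 6) (pow_nonneg (sub_nonneg.2 r1) 7),
      mul_nonneg (pow_nonneg r0 7) (pow_nonneg (sub_nonneg.2 r1) 6),
      mul_nonneg (pow_nonneg r0 8) (pow_nonneg (sub_nonneg.2 r1) 5),
      mul_nonneg (pow_nonneg r0 9) (pow_nonneg (sub_nonneg.2 r1) 4),
      mul_nonneg (pow_nonneg r0 10) (pow_nonneg (sub_nonneg.2 r1) 3),
      mul_nonneg (pow_nonneg r0 11) (pow_nonneg (sub_nonneg.2 r1) 2),
      mul_nonneg (pow_nonneg r0 12) (pow_nonneg (sub_nonneg.2 r1) 1),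
      pow_nonneg r0 13]
  have hsy : 0 ≤ Real.sin y := Real.sin_nonneg_of_nonneg_of_le_pi (by linarith) (by linarith)
  have d1 : Real.sin R * Real.cos θ < Real.sin y * Real.cos θ := mul_lt_mul_of_pos_right b1 hcθ
  have d2 : Real.sin y * Real.cos θ ≤
      (y - y ^ 3 / 6 + y ^ 5 / 120) * (1 - θ ^ 2 / 2 + θ ^ 4 / 24) :=
    mul_le_mul s5 c4 hcθ.le (hsy.trans s5)
  have d3 : M * (1 - y ^ 2 / 2 + y ^ 4 / 24 - y ^ 6 / 720) ≤ Real.sinh x * Real.cos R := by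
    have e1 : M * (1 - y ^ 2 / 2 + y ^ 4 / 24 - y ^ 6 / 720) ≤ M * Real.cos R :=
      mul_le_mul_of_nonneg_left (by linarith) hM0
    have hcR : 0 ≤ Real.cos R := Real.cos_nonneg_of_mem_Icc ⟨by linarith, hR1.le⟩
    exact e1.trans (mul_le_mul_of_nonneg_right hMX hcR)
  linarith

theorem e1b_I (hY : Real.sin θ * Real.cosh I = Real.sinh I * Real.cosh x)
    (h0 : 46 / 100 ≤ θ) (h1 : θ ≤ 6525 / 10000)
    (hx : 7957 / 10000 + 182 / 1000 * (θ - 57 / 100) ≤ x) :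
    I ≤ 4262 / 10000 + 698 / 1000 * (θ - 565 / 1000) := by
  obtain ⟨y, hy⟩ : ∃ y, y = 4262 / 10000 + 698 / 1000 * (θ - 565 / 1000) := ⟨_, rfl⟩
  rw [← hy]
  have y0 : 0 ≤ y := by rw [hy]; linarith
  have y1 : y ≤ 1 := by rw [hy]; linarith
  obtain ⟨u, hu⟩ : ∃ u, u = 7957 / 10000 + 182 / 1000 * (θ - 57 / 100) := ⟨_, rfl⟩
  rw [← hu] at hx
  have u0 : 0 ≤ u := by rw [hu]; linarith
  have s1 := n_s5 (x := θ) (by linarith)
  have c1 := pb_ch6 y0 y1
  have h5 := n_sh5 y0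
  have c2 := n_ch4 u0
  have hsy0 : 0 ≤ Real.sinh y := Real.sinh_nonneg_iff.2 y0
  have hsθ : 0 ≤ Real.sin θ :=
    Real.sin_nonneg_of_nonneg_of_le_pi (by linarith) (by linarith [Real.pi_gt_three])
  have hcux : Real.cosh u ≤ Real.cosh x := by
    apply Real.cosh_le_cosh.2
    rw [abs_of_nonneg u0, abs_of_nonneg (by linarith)]
    exact hx
  -- the key inequality
  have key : Real.sin θ * Real.cosh y < Real.sinh y * Real.cosh x := by
    have k1 : Real.sin θ * Real.cosh y ≤ (θ - θ ^ 3 / 6 + θ ^ 5 / 120) *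
        (1 + y ^ 2 / 2 + y ^ 4 / 24 + 7 / 4320 * y ^ 6) :=
      mul_le_mul s1 c1 (Real.cosh_pos y).le (hsθ.trans s1)
    have k2 : (θ - θ ^ 3 / 6 + θ ^ 5 / 120) *
        (1 + y ^ 2 / 2 + y ^ 4 / 24 + 7 / 4320 * y ^ 6)
        < (y + y ^ 3 / 6 + y ^ 5 / 120) * (1 + u ^ 2 / 2 + u ^ 4 / 24) := by
      obtain ⟨r, hr⟩ : ∃ r, r = θ - 46 / 100 := ⟨_, rfl⟩
      have e : θ = r + 46 / 100 := by rw [hr]; ring
      have r0 : 0 ≤ r := by rw [hr]; linarith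
      have r1 : r ≤ 77 / 400 := by rw [hr]; linarith
      rw [hy, hu, e]
      linarith [pow_nonneg (sub_nonneg.2 r1) 11,
        mul_nonneg (pow_nonneg r0 1) (pow_nonneg (sub_nonneg.2 r1) 10),
        mul_nonneg (pow_nonneg r0 2) (pow_nonneg (sub_nonneg.2 r1) 9),
        mul_nonneg (pow_nonneg r0 3) (pow_nonneg (sub_nonneg.2 r1) 8),
        mul_nonneg (pow_nonneg r0 4) (pow_nonneg (sub_nonneg.2 r1) 7),
        mul_nonneg (pow_nonneg r0 5) (pow_nonneg (sub_nonneg.2 r1) 6),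
        mul_nonneg (pow_nonneg r0 6) (pow_nonneg (sub_nonneg.2 r1) 5),
        mul_nonneg (pow_nonneg r0 7) (pow_nonneg (sub_nonneg.2 r1) 4),
        mul_nonneg (pow_nonneg r0 8) (pow_nonneg (sub_nonneg.2 r1) 3),
        mul_nonneg (pow_nonneg r0 9) (pow_nonneg (sub_nonneg.2 r1) 2),
        mul_nonneg (pow_nonneg r0 10) (pow_nonneg (sub_nonneg.2 r1) 1),
        pow_nonneg r0 11]
    have k3 : (y + y ^ 3 / 6 + y ^ 5 / 120) * (1 + u ^ 2 / 2 + u ^ 4 / 24) ≤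
        Real.sinh y * Real.cosh x :=
      mul_le_mul h5 (c2.trans hcux) (by positivity) hsy0
    linarith
  by_contra hc
  push Not at hc
  have hs : 0 < Real.sinh (I - y) := Real.sinh_pos_iff.2 (by linarith)
  rw [Real.sinh_sub] at hs
  have hcI := Real.cosh_pos I
  have hcx := Real.cosh_pos x
  have a1 : Real.sin θ * Real.cosh y * Real.cosh I = Real.sinh I * Real.cosh y * Real.cosh x := by
    linear_combination (Real.cosh y) * hY
  have a2 : Real.cosh I * Real.sinh y * Real.cosh x < Real.sinh I * Real.cosh y * Real.cosh x :=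
    mul_lt_mul_of_pos_right (by linarith) hcx
  have a4 : Real.sin θ * Real.cosh y * Real.cosh I < Real.sinh y * Real.cosh x * Real.cosh I :=
    mul_lt_mul_of_pos_right key hcI
  linarith

/-- `2 I (P + π/6 + (39/500)(b - 4/3)) ≥ 0` -/
theorem e1b_G (hR0 : 0 < R) (hR1 : R < Real.pi / 2)
    (hS : Real.sin R * Real.cos θ = Real.sinh x * Real.cos R)
    (hY : Real.sin θ * Real.cosh I = Real.sinh I * Real.cosh x)
    (h0 : 46 / 100 ≤ θ) (h1 : θ ≤ 6525 / 10000)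
    (hX : 8834 / 10000 + 286 / 1000 * (Real.sin θ - 54 / 100) ≤ Real.sinh x) :
    I * (2 * Real.pi / 3 - θ - 7 / 3 * (78 / 1000)) ≤ x * (R - 78 / 1000) := by
  have hpi := Real.pi_gt_d4
  have hpi2 := Real.pi_lt_d4
  have a1 := e1b_x h0 h1 hX
  have a2 := e1b_R hR0 hR1 hS h0 h1 hX
  have a3 := e1b_I hY h0 h1 a1
  have b1 : (7957 / 10000 + 182 / 1000 * (θ - 57 / 100)) *
      (809 / 1000 + 456 / 1000 * (θ - 57 / 100) - 78 / 1000) ≤ x * (R - 78 / 1000) :=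
    mul_le_mul a1 (by linarith) (by linarith) (by linarith)
  have b2 : I * (2 * Real.pi / 3 - θ - 7 / 3 * (78 / 1000)) ≤
      (4262 / 10000 + 698 / 1000 * (θ - 565 / 1000)) *
      (2 * (31416 / 10000) / 3 - θ - 7 / 3 * (78 / 1000)) :=
    mul_le_mul a3 (by linarith) (by linarith) (by linarith)
  refine b2.trans (le_trans ?_ b1)
  obtain ⟨r, hr⟩ : ∃ r, r = θ - 46 / 100 := ⟨_, rfl⟩
  have e : θ = r + 46 / 100 := by rw [hr]; ring
  have r0 : 0 ≤ r := by rw [hr]; linarith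
  have r1 : r ≤ 77 / 400 := by rw [hr]; linarith
  rw [e]
  linarith [pow_nonneg (sub_nonneg.2 r1) 3,
    mul_nonneg (pow_nonneg r0 1) (pow_nonneg (sub_nonneg.2 r1) 2),
    mul_nonneg (pow_nonneg r0 2) (pow_nonneg (sub_nonneg.2 r1) 1),
    pow_nonneg r0 3]

end

end Pool.Agent.S3.Cl
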