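import Pool.Agent.S3.Cl.PbNum

/-!
# Stage 3: data for the slide at an inner `2` next to a closed end (real inequalities)
-/

set_option autoImplicit false

namespace Pool.Agent.S3.Cl

theorem pb_sh6 {x : ℝ} (h0 : 0 ≤ x) (h1 : x ≤ 1) :
    Real.sinh x ≤ x + x ^ 3 / 6 + x ^ 5 / 120 + 7 / 4320 * x ^ 6 := by
  have e1 := Real.exp_bound (x := x) (by rw [abs_of_nonneg h0]; exact h1) (n := 6) (by norm_num)
  have e2 := Real.exp_bound (x := -x) (by rw [abs_neg, abs_of_nonneg h0]; exact h1) (n := 6)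
    (by norm_num)
  rw [abs_neg] at e2
  rw [abs_of_nonneg h0] at e1 e2
  have f1 := (abs_le.1 e1).2
  have f2 := (abs_le.1 e2).1
  norm_num [Finset.sum_range_succ, Nat.factorial] at f1 f2
  rw [Real.sinh_eq]
  linarith

section

variable {R I x θ : ℝ}

theorem e1_x (hS : Real.sin R * Real.cos θ = Real.sinh x * Real.cos R)
    (h0 : 7463 / 10000 ≤ R) (h1 : R ≤ 932 / 1000) (hθ : 2 / 5 ≤ θ) (hθ1 : θ ≤ 17 / 25) :
    x ≤ 7732 / 10000 + 145 / 100 * (R - 7463 / 10000) := by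
  have hpi := Real.pi_gt_three
  obtain ⟨y, hy⟩ : ∃ y, y = 7732 / 10000 + 145 / 100 * (R - 7463 / 10000) := ⟨_, rfl⟩
  rw [← hy]
  have y0 : 0 ≤ y := by rw [hy]; linarith
  have hcR : 0 < Real.cos R := Real.cos_pos_of_mem_Ioo ⟨by linarith, by linarith⟩
  have hsR : 0 ≤ Real.sin R := Real.sin_nonneg_of_nonneg_of_le_pi (by linarith) (by linarith)
  have s5 := n_s5 (x := R) (by linarith)
  have c6 := n_c6 (x := R) (by linarith)
  have h5 := n_sh5 y0
  have hcθ : Real.cos θ ≤ 92107 / 100000 := by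
    have a1 := Real.cos_le_cos_of_nonneg_of_le_pi (x := 2 / 5) (y := θ) (by norm_num)
      (by linarith) hθ
    have a2 := n_c4 (x := 2 / 5) (by norm_num)
    norm_num at a2
    linarith
  have k1 : Real.sin R * Real.cos θ ≤ (R - R ^ 3 / 6 + R ^ 5 / 120) * (92107 / 100000) :=
    mul_le_mul s5 hcθ (Real.cos_nonneg_of_mem_Icc ⟨by linarith, by linarith⟩) (hsR.trans s5)
  have k2 : (y + y ^ 3 / 6 + y ^ 5 / 120) * (1 - R ^ 2 / 2 + R ^ 4 / 24 - R ^ 6 / 720)
      ≤ Real.sinh y * Real.cos R := by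
    apply mul_le_mul h5 c6 _ (Real.sinh_nonneg_iff.2 y0)
    nlinarith [pow_le_pow_left₀ (by linarith : (0 : ℝ) ≤ R) h1 6,
      pow_le_pow_left₀ (by linarith : (0 : ℝ) ≤ R) h1 2, pow_nonneg (by linarith : (0 : ℝ) ≤ R) 4]
  have k3 : (R - R ^ 3 / 6 + R ^ 5 / 120) * (92107 / 100000)
      < (y + y ^ 3 / 6 + y ^ 5 / 120) * (1 - R ^ 2 / 2 + R ^ 4 / 24 - R ^ 6 / 720) := by
    obtain ⟨r, hr⟩ : ∃ r, r = R - 7463 / 10000 := ⟨_, rfl⟩
    have e : R = r + 7463 / 10000 := by rw [hr]; ring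
    have r0 : 0 ≤ r := by rw [hr]; linarith
    have r1 : r ≤ 1857 / 10000 := by rw [hr]; linarith
    rw [hy, e]
    have r2 := mul_nonneg r0 (sub_nonneg.2 r1)
    have r3 := mul_nonneg r0 r0
    have r4 := mul_nonneg r3 (sub_nonneg.2 r1)
    have r5 := mul_nonneg (mul_nonneg r3 r0) (sub_nonneg.2 r1)
    have r6 := mul_nonneg (mul_nonneg r3 r3) (sub_nonneg.2 r1)
    have r7 := mul_nonneg (mul_nonneg (mul_nonneg r3 r3) r0) (sub_nonneg.2 r1)
    have r8 := mul_nonneg (mul_nonneg (mul_nonneg r3 r3) r3) (sub_nonneg.2 r1)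
    have r9 := mul_nonneg (mul_nonneg (mul_nonneg (mul_nonneg r3 r3) r3) r0) (sub_nonneg.2 r1)
    have r10 := mul_nonneg (mul_nonneg (mul_nonneg (mul_nonneg r3 r3) r3) r3) (sub_nonneg.2 r1)
    have r11 := mul_nonneg (mul_nonneg (mul_nonneg (mul_nonneg (mul_nonneg r3 r3) r3) r3) r0)
      (sub_nonneg.2 r1)
    nlinarith
  by_contra hc
  push Not at hc
  have h6 := Real.sinh_lt_sinh.2 hc
  have h7 := mul_lt_mul_of_pos_right h6 hcR
  linarith

theorem e1_I (hC : Real.sinh I * Real.cos θ = Real.sin θ * Real.cos R)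
    (h0 : 7463 / 10000 ≤ R) (h1 : R ≤ 932 / 1000) (hθ : 2 / 5 ≤ θ) (hθ1 : θ ≤ 17 / 25) :
    3045 / 10000 - 305 / 1000 * (R - 7463 / 10000) ≤ I := by
  have hpi := Real.pi_gt_three
  obtain ⟨y, hy⟩ : ∃ y, y = 3045 / 10000 - 305 / 1000 * (R - 7463 / 10000) := ⟨_, rfl⟩
  rw [← hy]
  have y0 : 0 ≤ y := by rw [hy]; linarith
  have y1 : y ≤ 1 := by rw [hy]; linarith
  have hcR : 0 < Real.cos R := Real.cos_pos_of_mem_Ioo ⟨by linarith, by linarith⟩
  have hcθ : 0 < Real.cos θ := Real.cos_pos_of_mem_Ioo ⟨by linarith, by linarith⟩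
  have c6 := n_c6 (x := R) (by linarith)
  have h5 := pb_sh6 y0 y1
  have ht : 4226 / 10000 * Real.cos θ ≤ Real.sin θ :=
    n_tan_ge (R := θ) (R0 := 2 / 5) (by norm_num) hθ (by linarith) (by norm_num) (by norm_num)
  have k1 : 4226 / 10000 * Real.cos R ≤ Real.sinh I := by
    have : 4226 / 10000 * Real.cos R * Real.cos θ ≤ Real.sinh I * Real.cos θ := by
      rw [hC]; nlinarith
    exact le_of_mul_le_mul_right this hcθ
  have k2 : y + y ^ 3 / 6 + y ^ 5 / 120 + 7 / 4320 * y ^ 6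
      ≤ 4226 / 10000 * (1 - R ^ 2 / 2 + R ^ 4 / 24 - R ^ 6 / 720) := by
    obtain ⟨r, hr⟩ : ∃ r, r = R - 7463 / 10000 := ⟨_, rfl⟩
    have e : R = r + 7463 / 10000 := by rw [hr]; ring
    have r0 : 0 ≤ r := by rw [hr]; linarith
    have r1 : r ≤ 1857 / 10000 := by rw [hr]; linarith
    rw [hy, e]
    have r2 := mul_nonneg r0 (sub_nonneg.2 r1)
    have r3 := mul_nonneg r0 r0
    have r4 := mul_nonneg r3 (sub_nonneg.2 r1)
    have r5 := mul_nonneg (mul_nonneg r3 r0) (sub_nonneg.2 r1)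
    have r6 := mul_nonneg (mul_nonneg r3 r3) (sub_nonneg.2 r1)
    have r7 := mul_nonneg (mul_nonneg (mul_nonneg r3 r3) r0) (sub_nonneg.2 r1)
    nlinarith
  by_contra hc
  push Not at hc
  have h6 := Real.sinh_lt_sinh.2 hc
  linarith

/-- the inequality behind (E1) -/
theorem e1_E (hS : Real.sin R * Real.cos θ = Real.sinh x * Real.cos R)
    (hC : Real.sinh I * Real.cos θ = Real.sin θ * Real.cos R) (hI : 0 < I) (hx : 0 < x)
    (h0 : 7463 / 10000 ≤ R) (hθ : 2 / 5 ≤ θ) (hθ1 : θ ≤ 17 / 25) :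
    x * (932 / 1000 - R) ≤ I * (θ + 76 / 1000) := by
  rcases le_total R (932 / 1000) with h1 | h1
  · have a1 := e1_x hS h0 h1 hθ hθ1
    have a2 := e1_I hC h0 h1 hθ hθ1
    have b1 : x * (932 / 1000 - R)
        ≤ (7732 / 10000 + 145 / 100 * (R - 7463 / 10000)) * (932 / 1000 - R) :=
      mul_le_mul_of_nonneg_right a1 (by linarith)
    have b2 : (3045 / 10000 - 305 / 1000 * (R - 7463 / 10000)) * (476 / 1000)
        ≤ I * (θ + 76 / 1000) := mul_le_mul a2 (by linarith) (by norm_num) hI.le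
    nlinarith [mul_nonneg (sub_nonneg.2 h0) (sub_nonneg.2 h1)]
  · have b1 : x * (932 / 1000 - R) ≤ 0 := mul_nonpos_of_nonneg_of_nonpos hx.le (by linarith)
    have b2 : 0 ≤ I * (θ + 76 / 1000) := by positivity
    linarith

/-- `(ρ - .932) tan ρ ≤ 1` for `ρ ≤ 2π/5` -/
theorem e1_g1 {ρ : ℝ} (h0 : 8 / 25 * Real.pi ≤ ρ) (h1 : ρ ≤ 2 / 5 * Real.pi) :
    (ρ - 932 / 1000) * Real.sin ρ ≤ Real.cos ρ := by
  have hpi := Real.pi_gt_d4
  have hpi' := Real.pi_lt_d4
  have e5 : (√5) ^ 2 = 5 := Real.sq_sqrt (by norm_num)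
  have p5 : 0 ≤ √5 := Real.sqrt_nonneg 5
  have hc : Real.cos (2 / 5 * Real.pi) = (√5 - 1) / 4 := by
    rw [show 2 / 5 * Real.pi = 2 * (Real.pi / 5) by ring, Real.cos_two_mul,
      Real.cos_pi_div_five]
    nlinarith
  have l5 : 22360 / 10000 ≤ √5 := Real.le_sqrt_of_sq_le (by norm_num)
  have a1 : Real.cos (2 / 5 * Real.pi) ≤ Real.cos ρ :=
    Real.cos_le_cos_of_nonneg_of_le_pi (by linarith) (by linarith) h1
  have a2 : 3090 / 10000 ≤ Real.cos (2 / 5 * Real.pi) := by rw [hc]; linarith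
  have a3 : Real.sin ρ ≤ Real.sin (2 / 5 * Real.pi) :=
    Real.sin_le_sin_of_le_of_le_pi_div_two (by linarith) (by linarith) h1
  have a4 : Real.sin (2 / 5 * Real.pi) ≤ 95107 / 100000 := by
    have k := Real.sin_sq_add_cos_sq (2 / 5 * Real.pi)
    by_contra h
    push Not at h
    have : (95107 / 100000) ^ 2 < Real.sin (2 / 5 * Real.pi) ^ 2 :=
      pow_lt_pow_left₀ h (by norm_num) two_ne_zero
    nlinarith
  have b1 : (ρ - 932 / 1000) * Real.sin ρ ≤ (32466 / 100000) * (95107 / 100000) :=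
    mul_le_mul (by linarith) (a3.trans a4)
      (Real.sin_nonneg_of_nonneg_of_le_pi (by linarith) (by linarith)) (by norm_num)
  norm_num at b1
  linarith

/-- **(E1)** -/
theorem e1_main {b P ρ η : ℝ} (hS : Real.sin R * Real.cos θ = Real.sinh x * Real.cos R)
    (hC : Real.sinh I * Real.cos θ = Real.sin θ * Real.cos R) (hI : 0 < I) (hx : 0 < x)
    (h0 : 7463 / 10000 ≤ R) (hθ : 2 / 5 ≤ θ) (hθ1 : θ ≤ 17 / 25)
    (ht : Real.tan θ ^ 2 ≤ 63 / 100) (hb : 2 * I * b = 5 * I - x) (hb1 : b ≤ 167 / 100)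
    (hP : 2 * I * P = x * R + θ * I - Real.pi * I) (hP1 : -(9 / 25) * b ≤ P)
    (r0 : 8 / 25 * Real.pi ≤ ρ) (r1 : ρ ≤ 2 / 5 * Real.pi)
    (hη : Real.sinh η = Real.tan θ * Real.cos ρ) :
    b * (η + (Real.pi / 2 - ρ) * (Real.tan ρ * Real.tanh η))
        - (P + Real.pi / 2 * (b - 1)) * (Real.tan ρ * Real.tanh η)
      ≤ 133 / 100 * (η + (Real.pi / 2 - ρ) * (Real.tan ρ * Real.tanh η)) := by
  have hpi := Real.pi_gt_d4
  have hpi' := Real.pi_lt_d4
  have hcρ : 0 < Real.cos ρ := Real.cos_pos_of_mem_Ioo ⟨by linarith, by linarith⟩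
  have hsρ : 0 < Real.sin ρ := Real.sin_pos_of_pos_of_lt_pi (by linarith) (by linarith)
  have htθ : 0 < Real.tan θ := Real.tan_pos_of_pos_of_lt_pi_div_two (by linarith) (by linarith)
  have hη0 : 0 < η := Real.sinh_pos_iff.1 (by rw [hη]; exact mul_pos htθ hcρ)
  have hth : 0 < Real.tanh η := by
    rw [Real.tanh_eq_sinh_div_cosh]
    exact div_pos (Real.sinh_pos_iff.2 hη0) (Real.cosh_pos η)
  have htρ : 0 < Real.tan ρ := by rw [Real.tan_eq_sin_div_cos]; exact div_pos hsρ hcρ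
  have hT : 0 < Real.tan ρ * Real.tanh η := mul_pos htρ hth
  -- `tanh η ≤ η ≤ sinh η`
  have g0 : Real.tanh η ≤ η := by
    have := pb_atanh hη0.le
    have : 0 ≤ Real.tanh η ^ 3 := by positivity
    linarith
  -- bounds of `ρ T - η`
  have g1 : ρ * (Real.tan ρ * Real.tanh η) - η ≤ 932 / 1000 * (Real.tan ρ * Real.tanh η) := by
    have k := e1_g1 r0 r1
    have k2 : (ρ - 932 / 1000) * Real.tan ρ ≤ 1 := by
      rw [Real.tan_eq_sin_div_cos, ← mul_div_assoc, div_le_one hcρ]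
      exact k
    nlinarith [mul_le_mul_of_nonneg_right k2 hth.le]
  have g2 : 3 / 10 * (Real.tan ρ * Real.tanh η) ≤ ρ * (Real.tan ρ * Real.tanh η) - η := by
    have c1 : Real.cos ρ ≤ 5375 / 10000 := by
      have a1 := Real.cos_le_cos_of_nonneg_of_le_pi (x := 10052 / 10000) (y := ρ) (by norm_num)
        (by linarith) (by linarith)
      have a2 := n_c4 (x := 10052 / 10000) (by norm_num)
      norm_num at a2
      linarith
    have c2 : Real.cosh η ≤ 109 / 100 := by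
      have e := Real.cosh_sq η
      rw [hη, mul_pow] at e
      have c3 : Real.cos ρ ^ 2 ≤ (5375 / 10000) ^ 2 := pow_le_pow_left₀ hcρ.le c1 2
      have c4 : Real.tan θ ^ 2 * Real.cos ρ ^ 2 ≤ 63 / 100 * (5375 / 10000) ^ 2 :=
        mul_le_mul ht c3 (by positivity) (by norm_num)
      by_contra h
      push Not at h
      have : (109 / 100) ^ 2 < Real.cosh η ^ 2 := pow_lt_pow_left₀ h (by norm_num) two_ne_zero
      norm_num at this c4
      linarith
    have c5 : η ≤ 109 / 100 * Real.tanh η := by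
      have a1 := Real.self_le_sinh_iff.2 hη0.le
      have a2 : Real.sinh η = Real.tanh η * Real.cosh η := by
        rw [Real.tanh_eq_sinh_div_cosh, div_mul_cancel₀ _ (Real.cosh_pos η).ne']
      nlinarith
    have c6 : 155 / 100 ≤ Real.tan ρ := by
      have k := n_tan_ge (R := ρ) (R0 := 10052 / 10000) (t := 155 / 100) (by norm_num)
        (by linarith) (by linarith) (by norm_num) (by norm_num)
      rw [Real.tan_eq_sin_div_cos, le_div_iff₀ hcρ]
      exact k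
    have c7 : 109 / 100 ≤ (ρ - 3 / 10) * Real.tan ρ := by nlinarith
    nlinarith [mul_le_mul_of_nonneg_right c7 hth.le]
  -- the two cases
  obtain ⟨T, hTd⟩ : ∃ T, T = Real.tan ρ * Real.tanh η := ⟨_, rfl⟩
  rw [← hTd] at g1 g2 hT ⊢
  have h2I : 0 < 2 * I := by linarith
  rcases le_total b (133 / 100) with hc | hc
  · have hE := e1_E hS hC hI hx h0 hθ hθ1
    have A : 932 / 1000 * (133 / 100 - b) ≤ P + 33 / 200 * Real.pi := by
      apply le_of_mul_le_mul_left _ h2I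
      have e1 : 2 * I * (932 / 1000 * (133 / 100 - b))
          = 932 / 1000 * (266 / 100 * I - (5 * I - x)) := by rw [← hb]; ring
      have e2 : 2 * I * (P + 33 / 200 * Real.pi)
          = x * R + θ * I - Real.pi * I + 33 / 100 * Real.pi * I := by rw [← hP]; ring
      rw [e1, e2]
      nlinarith
    have A2 := mul_le_mul_of_nonneg_left g1 (show 0 ≤ 133 / 100 - b by linarith)
    have A3 := mul_le_mul_of_nonneg_right A hT.le
    nlinarith
  · have B : 0 ≤ P + 33 / 200 * Real.pi + 3 / 10 * (b - 133 / 100) := by linarith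
    have B2 := mul_le_mul_of_nonneg_left g2 (show 0 ≤ b - 133 / 100 by linarith)
    have B3 := mul_nonneg B hT.le
    nlinarith

end

end Pool.Agent.S3.Cl
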