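import Pool.Agent.S3.Cl.PbO
import Pool.Agent.S3.Cl.SlNum

/-!
# Stage 3: data for the slide at an inner `2` next to a closed end
-/

set_option autoImplicit false

namespace Pool.Agent.S3.Cl

open Complex Pool.Agent.S3
open Pool.Agent.S3.E (Zr uu qe qo bw xx th k2 s2 bo ro be ph In2)

/-- the facts at an inner `2` (`R + i I`, `x + i θ`) next to a closed end, about its open edge with
weight `b` and mean `P / b` -/
structure EndDat (R I x θ b P : ℝ) : Prop where
  R0 : 0 < R
  R1 : R < Real.pi / 2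
  I0 : 0 < I
  hS : Real.sin R * Real.cos θ = Real.sinh x * Real.cos R
  hY : Real.sin θ * Real.cosh I = Real.sinh I * Real.cosh x
  hC : Real.sinh I * Real.cos θ = Real.sin θ * Real.cos R
  x0 : 39 / 50 ≤ x
  x1 : x ≤ 193 / 200
  θ0 : 2 / 5 ≤ θ
  θ1 : θ ≤ 17 / 25
  R31 : R ≤ 31 / 100 * Real.pi
  ht : Real.tan θ ^ 2 ≤ 63 / 100
  hb : 2 * I * b = 5 * I - x
  hP : 2 * I * P = x * R + θ * I - Real.pi * I
  b0 : 0 < b
  b1 : b ≤ 167 / 100
  P0 : -(9 / 25) * b ≤ P
  P1 : P ≤ 9 / 20 * b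

namespace EndDat

variable {R I x θ b P : ℝ}

theorem R_ge (H : EndDat R I x θ b P) : 7463 / 10000 ≤ R := by
  have hpi := Real.pi_gt_d4
  have h1 := pb_R H.R1 H.R0 H.hS H.x0 (by linarith [H.θ0]) H.θ1
  linarith [H.θ0]

/-- **(E1)** `r ≤ (133/100) S₂`, `S₂ = η + (π/2 - ρ) T`, `T = tan ρ tanh η` -/
theorem e1 (H : EndDat R I x θ b P) {ρ η : ℝ} (r0 : 8 / 25 * Real.pi ≤ ρ)
    (r1 : ρ ≤ 2 / 5 * Real.pi) (hη : Real.sinh η = Real.tan θ * Real.cos ρ) :
    b * (η + (Real.pi / 2 - ρ) * (Real.tan ρ * Real.tanh η))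
        - (P + Real.pi / 2 * (b - 1)) * (Real.tan ρ * Real.tanh η)
      ≤ 133 / 100 * (η + (Real.pi / 2 - ρ) * (Real.tan ρ * Real.tanh η)) :=
  e1_main H.hS H.hC H.I0 (by linarith [H.x0]) H.R_ge H.θ0 H.θ1 H.ht H.hb H.b1 H.hP H.P0 r0 r1 hη

end EndDat

section

variable {ι : Type*} [Finite ι] {a : ι → ℝ} {nl nr : ι → Option ι} {z : ι → ℂ}

theorem endDat (h : Zr a nl nr 1 z) {i j k : ι} (hj : Zr.IsEnd2 a nl nr j i) (ha : a i = 2)
    (hk : nl i = some k ∨ nr i = some k) (hkj : k ≠ j)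
    (ho : (a k = 2 ∧ In2 nl nr k) ∨ a k = 3 ∨ 4 ≤ a k) :
    EndDat (z i).re (z i).im (xx (z i).re (z i).im) (th (z i).re (z i).im) (bw (z i) (z k))
      (Real.pi / 2 - (qe (z i) (z k)).im - bw (z i) (z k) * (z i).re) := by
  have hij := h.N.symm j i (hji_of hj)
  have hin : In2 nl nr i := by
    rcases hij with e | e
    · rcases hk with e' | e'
      · exact absurd (Option.some.inj (e'.symm.trans e)) hkj
      · exact ⟨j, k, e, e'⟩
    · rcases hk with e' | e'
      · exact ⟨k, j, e', e⟩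
      · exact absurd (Option.some.inj (e'.symm.trans e)) hkj
  have hk59 := norm_open_two' h ha hin hk ho
  obtain ⟨f1, f2, f3, -, f5⟩ := pb_end2 h hj ha hk hkj hk59
  have hpi := Real.pi_gt_d4
  obtain ⟨i1, i2⟩ := ids h i
  have hθ := abs_th h i
  have hc := curve (x := xx (z i).re (z i).im) hθ
  have htm : th (z i).re (z i).im ≤ 17 / 25 := by
    have h1 := sin_th_end2 h hj ha hin
    have h2 := th_le_pi4 h hin
    by_contra hc
    push Not at hc
    have h3 : Real.sin (17 / 25) < Real.sin (th (z i).re (z i).im) :=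
      Real.sin_lt_sin_of_lt_of_le_pi_div_two (by linarith) (by linarith) hc
    have h4 := n_s3 (x := 17 / 25) (by norm_num)
    norm_num at h4
    nlinarith
  -- the two edges
  have hqe : qe (z i) (z j) = qcl (uu (z i)) := (h.ecrit1 hj).2
  have q1 := two_qcl_re (xx (z i).re (z i).im) (th (z i).re (z i).im)
  have q2 := two_qcl_im (xx (z i).re (z i).im) (th (z i).re (z i).im)
  have hg := h.gd_uu i
  have hRa : Ra (xx (z i).re (z i).im) (th (z i).re (z i).im) = (z i).re := by rw [Ra, hg]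
  have hYa : Ya (xx (z i).re (z i).im) (th (z i).re (z i).im) = (z i).im := by rw [Ya, hg]
  have hu : UU (xx (z i).re (z i).im) (th (z i).re (z i).im) = uu (z i) := rfl
  rw [hu, ← hqe, hYa] at q1
  rw [hu, ← hqe, hRa] at q2
  have v1 : 2 * (z i).re = Real.pi - (qe (z i) (z j)).im - (qe (z i) (z k)).im := by
    have := h.vertex_re i
    rw [ha] at this
    rcases hij with e | e
    · rcases hk with e' | e'
      · exact absurd (Option.some.inj (e'.symm.trans e)) hkj
      · rw [e, e'] at this; exact this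
    · rcases hk with e' | e'
      · rw [e, e'] at this
        have e1 : qo z i (some j) = qe (z i) (z j) := rfl
        have e2 : qo z i (some k) = qe (z i) (z k) := rfl
        rw [e1, e2] at this
        linarith
      · exact absurd (Option.some.inj (e'.symm.trans e)) hkj
  have v2 : 2 * (z i).im = (qe (z i) (z j)).re + (qe (z i) (z k)).re := by
    have := h.vertex_im i
    rw [ha] at this
    rcases hij with e | e
    · rcases hk with e' | e'
      · exact absurd (Option.some.inj (e'.symm.trans e)) hkj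
      · rw [e, e'] at this; exact this
    · rcases hk with e' | e'
      · rw [e, e'] at this
        have e1 : qo z i (some j) = qe (z i) (z j) := rfl
        have e2 : qo z i (some k) = qe (z i) (z k) := rfl
        rw [e1, e2] at this
        linarith
      · exact absurd (Option.some.inj (e'.symm.trans e)) hkj
  obtain ⟨hR0, hR1, hI0⟩ := h.pos i
  have hb0 := h.bw_pos hk
  have hb : bw (z i) (z k) * (z i).im = (qe (z i) (z k)).re := by
    rw [bw, div_mul_cancel₀ _ hI0.ne']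
  rw [hRa, hYa] at hc
  rw [div_le_iff₀ hb0] at f1
  rw [le_div_iff₀ hb0] at f3
  have key1 : 2 * (z i).im * bw (z i) (z k) = 5 * (z i).im - xx (z i).re (z i).im := by
    linarith
  refine ⟨hR0, hR1, hI0, i1, i2, hc, xx_ge78_end2 h hj ha hin,
    xx_le965_end2 h hj ha hk hkj hin hk59, th_ge40_end2 h hj ha hin, htm,
    re_le31_end2 h hj ha hin, f5, key1, ?_, hb0, f2, f3, f1⟩
  have e1 : (qe (z i) (z k)).im = Real.pi - 2 * (z i).re
      - (th (z i).re (z i).im + (z i).re) / 2 := by linarith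
  rw [e1]
  linear_combination (-(z i).re) * key1

/-- **(E1)** at an inner `2` next to a closed end: `r(ρ) ≤ (133/100) S₂(ρ)` on `[8π/25, 2π/5]`,
`r = b S₂ - κ T`, `κ = b (π/2 - R) - im q`. -/
theorem e1_end2 (h : Zr a nl nr 1 z) {i j k : ι} (hj : Zr.IsEnd2 a nl nr j i) (ha : a i = 2)
    (hk : nl i = some k ∨ nr i = some k) (hkj : k ≠ j)
    (ho : (a k = 2 ∧ In2 nl nr k) ∨ a k = 3 ∨ 4 ≤ a k) {ρ η : ℝ} (r0 : 8 / 25 * Real.pi ≤ ρ)
    (r1 : ρ ≤ 2 / 5 * Real.pi)
    (hη : Real.sinh η = Real.tan (th (z i).re (z i).im) * Real.cos ρ) :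
    bw (z i) (z k) * (η + (Real.pi / 2 - ρ) * (Real.tan ρ * Real.tanh η))
        - (bw (z i) (z k) * (Real.pi / 2 - (z i).re) - (qe (z i) (z k)).im)
          * (Real.tan ρ * Real.tanh η)
      ≤ 133 / 100 * (η + (Real.pi / 2 - ρ) * (Real.tan ρ * Real.tanh η)) := by
  have H := endDat h hj ha hk hkj ho
  have k1 := H.e1 r0 r1 hη
  have e : bw (z i) (z k) * (Real.pi / 2 - (z i).re) - (qe (z i) (z k)).im
      = (Real.pi / 2 - (qe (z i) (z k)).im - bw (z i) (z k) * (z i).re)
        + Real.pi / 2 * (bw (z i) (z k) - 1) := by ring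
  rw [e]
  exact k1

end

end Pool.Agent.S3.Cl
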