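import Pool.Agent.S3.Cl.E3B
import Pool.Agent.S3.Cl.SlD

/-!
# Stage 3: (E3) at an inner `2` next to a closed end
-/

set_option autoImplicit false

namespace Pool.Agent.S3.Cl

theorem e3_zone {R I x θ b ρ η0 η1 J X τ1 k1 r0 c0 C T : ℝ}
    (hC : Real.sinh I * Real.cos θ = Real.sin θ * Real.cos R) (hθ : 0 < Real.cos θ)
    (t0 : 0 ≤ Real.tan θ) (I0 : 0 < I) (hI : Real.cosh I ≤ 11234 / 10000)
    (hb : 2 * I * b = 5 * I - x) (b0 : 0 < b) (hX : X ≤ x) (hX0 : 0 ≤ X) (hJ : I ≤ J)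
    (ht : Real.tan θ ≤ τ1) (h1 : η1 ≤ k1 * Real.tan θ)
    (h0 : Real.sinh η0 = Real.tan θ * Real.cos ρ) (hr0 : r0 ≤ ρ) (hRr : R ≤ r0)
    (hc : 0 ≤ Real.cos ρ) (hc0 : Real.cos ρ ≤ c0) (hcC : c0 ≤ C) (hC' : C ≤ Real.cos R)
    (T0 : 0 ≤ T)
    (key : (5 * J - X) * τ1 * (k1 / 5 - 5553 / 10000 * ((r0 - R) * (C - c0))) ≤ 2 * T * J) :
    b * (η1 / 5 - 49 / 50 * (2 / Real.pi) * ((ρ - R) * (I - η0))) ≤ T := by
  have hpi := Real.pi_gt_d4
  have hpi2 := Real.pi_lt_d4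
  have e : Real.sinh I = Real.tan θ * Real.cos R := by
    rw [Real.tan_eq_sin_div_cos, div_mul_eq_mul_div, eq_div_iff hθ.ne']
    exact hC
  have hη0 : 0 ≤ η0 := Real.sinh_nonneg_iff.1 (by rw [h0]; exact mul_nonneg t0 hc)
  have hηI : η0 ≤ I := Real.sinh_le_sinh.1 (by
    rw [h0, e]; exact mul_le_mul_of_nonneg_left (by linarith) t0)
  have k2 := sh_tan hη0 hηI
  rw [e, h0, ← mul_sub] at k2
  have k3 : Real.tan θ * (C - c0) ≤ 11234 / 10000 * (I - η0) := by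
    have a1 : Real.tan θ * (C - c0) ≤ Real.tan θ * (Real.cos R - Real.cos ρ) :=
      mul_le_mul_of_nonneg_left (by linarith) t0
    have a2 : Real.cosh I * (I - η0) ≤ 11234 / 10000 * (I - η0) :=
      mul_le_mul_of_nonneg_right hI (by linarith)
    linarith
  have k4 : 62383 / 100000 ≤ 49 / 50 * (2 / Real.pi) := by
    have : 62383 / 196000 ≤ 1 / Real.pi := by
      rw [le_div_iff₀ (by linarith)]; linarith
    have e1 : 2 / Real.pi = 2 * (1 / Real.pi) := by ring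
    rw [e1]; linarith
  have k5 : 5553 / 10000 * Real.tan θ * ((r0 - R) * (C - c0)) ≤
      49 / 50 * (2 / Real.pi) * ((ρ - R) * (I - η0)) := by
    have a1 : (r0 - R) * (Real.tan θ * (C - c0)) ≤ (ρ - R) * (11234 / 10000 * (I - η0)) :=
      mul_le_mul (by linarith) k3 (mul_nonneg t0 (by linarith)) (by linarith)
    have a2 : 0 ≤ (ρ - R) * (I - η0) := mul_nonneg (by linarith) (by linarith)
    have a3 : 62383 / 100000 * ((ρ - R) * (I - η0)) ≤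
        49 / 50 * (2 / Real.pi) * ((ρ - R) * (I - η0)) := mul_le_mul_of_nonneg_right k4 a2
    have a4 : 5553 / 10000 * Real.tan θ * ((r0 - R) * (C - c0)) =
        5553 / 10000 * ((r0 - R) * (Real.tan θ * (C - c0))) := by ring
    have a5 : (ρ - R) * (11234 / 10000 * (I - η0)) = 11234 / 10000 * ((ρ - R) * (I - η0)) := by
      ring
    rw [a4]
    rw [a5] at a1
    linarith
  obtain ⟨g, hg⟩ : ∃ g, g = k1 / 5 - 5553 / 10000 * ((r0 - R) * (C - c0)) := ⟨_, rfl⟩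
  rw [← hg] at key
  have k6 : η1 / 5 - 49 / 50 * (2 / Real.pi) * ((ρ - R) * (I - η0)) ≤ Real.tan θ * g := by
    rw [hg]
    have : Real.tan θ * (k1 / 5 - 5553 / 10000 * ((r0 - R) * (C - c0))) =
      k1 * Real.tan θ / 5 - 5553 / 10000 * Real.tan θ * ((r0 - R) * (C - c0)) := by ring
    rw [this]
    linarith
  refine (mul_le_mul_of_nonneg_left k6 b0.le).trans ?_
  rcases le_total g 0 with h | h
  · have : Real.tan θ * g ≤ 0 := mul_nonpos_of_nonneg_of_nonpos t0 h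
    have := mul_nonpos_of_nonneg_of_nonpos b0.le this
    linarith
  · have J0 : 0 < J := lt_of_lt_of_le I0 hJ
    -- `2 J b ≤ 5 J - X`
    have m1 : 2 * J * b ≤ 5 * J - X := by
      have m2 : I * (2 * J * b) ≤ I * (5 * J - X) := by
        have : I * (2 * J * b) = J * (2 * I * b) := by ring
        rw [this, hb]
        have m3 : I * X ≤ J * x := mul_le_mul hJ hX hX0 J0.le
        linarith
      exact le_of_mul_le_mul_left m2 I0
    have m4 : b * (Real.tan θ * g) ≤ b * (τ1 * g) :=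
      mul_le_mul_of_nonneg_left (mul_le_mul_of_nonneg_right ht h) b0.le
    have m5 : 2 * J * (b * (τ1 * g)) ≤ 2 * J * T := by
      have n1 : 0 ≤ τ1 * g := mul_nonneg (t0.trans ht) h
      have n2 := mul_le_mul_of_nonneg_right m1 n1
      have n3 : 2 * J * (b * (τ1 * g)) = 2 * J * b * (τ1 * g) := by ring
      have n4 : (5 * J - X) * (τ1 * g) = (5 * J - X) * τ1 * g := by ring
      rw [n3]
      rw [n4] at n2
      linarith
    have m6 : b * (τ1 * g) ≤ T := le_of_mul_le_mul_left m5 (by linarith)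
    linarith

/-- `cos (2π/5) ≤ 30902/100000` -/
theorem cos_two_fifth_le : Real.cos (2 / 5 * Real.pi) ≤ 30902 / 100000 := by
  have e : (2 : ℝ) / 5 * Real.pi = 2 * (Real.pi / 5) := by ring
  rw [e, Real.cos_two_mul, Real.cos_pi_div_five]
  have a2 : (√5) ^ 2 = 5 := Real.sq_sqrt (by norm_num)
  have a3 : 0 ≤ √5 := Real.sqrt_nonneg 5
  have a4 : √5 ≤ 223607 / 100000 := by
    rw [show (223607 : ℝ) / 100000 = √((223607 / 100000) ^ 2) by
      rw [Real.sqrt_sq (by norm_num)]]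
    exact Real.sqrt_le_sqrt (by norm_num)
  nlinarith

theorem eta1_le {θ η1 : ℝ} (t0 : 0 ≤ Real.tan θ)
    (h1 : Real.sinh η1 = Real.tan θ * Real.cos (2 / 5 * Real.pi)) :
    η1 ≤ 3091 / 10000 * Real.tan θ := by
  have hc := cos_two_fifth_le
  by_contra hcon
  push Not at hcon
  have h2 : Real.sinh η1 ≤ 30902 / 100000 * Real.tan θ := by
    rw [h1, mul_comm]; exact mul_le_mul_of_nonneg_right hc t0
  have h3 : η1 ≤ Real.sinh η1 := Real.self_le_sinh_iff.2 (by nlinarith)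
  linarith

theorem eta1_le' {θ η1 : ℝ} (t0 : 0 ≤ Real.tan θ) (ht : 468 / 1000 ≤ Real.tan θ ^ 2)
    (h1 : Real.sinh η1 = Real.tan θ * Real.cos (2 / 5 * Real.pi)) :
    η1 ≤ 767 / 2500 * Real.tan θ := by
  have hc := cos_two_fifth_le
  have h2 : Real.sinh η1 ≤ 30902 / 100000 * Real.tan θ := by
    rw [h1, mul_comm]; exact mul_le_mul_of_nonneg_right hc t0
  have h3 : 0 ≤ 767 / 2500 * Real.tan θ := by positivity
  have h4 := n_sh5 h3
  have h5 : (0 : ℝ) ≤ (767 / 2500 * Real.tan θ) ^ 5 / 120 := by positivity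
  apply Real.sinh_le_sinh.1
  refine h2.trans (le_trans ?_ h4)
  have h6 : Real.tan θ * (468 / 1000) ≤ Real.tan θ ^ 3 := by
    have : Real.tan θ ^ 3 = Real.tan θ * Real.tan θ ^ 2 := by ring
    rw [this]
    exact mul_le_mul_of_nonneg_left ht t0
  rw [mul_pow (767 / 2500 : ℝ) (Real.tan θ) 3]
  linarith

theorem cosh_I_le {I : ℝ} (h0 : 0 < I) (h1 : I ≤ 4918 / 10000) :
    Real.cosh I ≤ 11234 / 10000 := by
  have e : Real.cosh (4918 / 10000) ≤ 11234 / 10000 := by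
    have h2 := pb_sh8 (x := 4918 / 10000) (by norm_num) (by norm_num)
    norm_num at h2
    have h3 := Real.cosh_sq (4918 / 10000 : ℝ)
    have h4 : 0 ≤ Real.sinh (4918 / 10000) := Real.sinh_nonneg_iff.2 (by norm_num)
    have h5 := Real.one_le_cosh (4918 / 10000 : ℝ)
    norm_num at h3 h2 ⊢
    norm_num only at h4 h5
    obtain ⟨y, hy⟩ : ∃ y, y = Real.sinh (2459 / 5000) := ⟨_, rfl⟩
    obtain ⟨c, hc⟩ : ∃ c, c = Real.cosh (2459 / 5000) := ⟨_, rfl⟩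
    rw [← hy] at h2 h3 h4
    rw [← hc] at h3 h5 ⊢
    have h6 : y ≤ 51188 / 100000 := by linarith
    have h7 : y ^ 2 ≤ (51188 / 100000) ^ 2 := pow_le_pow_left₀ h4 h6 2
    apply le_of_sq_le_sq _ (by norm_num)
    rw [h3]
    norm_num at h7 ⊢
    linarith
  refine le_trans (Real.cosh_le_cosh.2 ?_) e
  rw [abs_of_pos h0, abs_of_pos (by norm_num : (0 : ℝ) < 4918 / 10000)]
  exact h1

theorem cos_ge_tan {θ c t : ℝ} (hθ : 0 < Real.cos θ) (ht : Real.tan θ ^ 2 ≤ t)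
    (hc : c ^ 2 * (1 + t) ≤ 1) : c ≤ Real.cos θ := by
  have e : Real.cos θ ^ 2 * (1 + Real.tan θ ^ 2) = 1 := by
    have h1 := Real.sin_sq_add_cos_sq θ
    have h2 : Real.tan θ ^ 2 * Real.cos θ ^ 2 = Real.sin θ ^ 2 := by
      rw [← mul_pow, Real.tan_mul_cos hθ.ne']
    linarith
  apply le_of_sq_le_sq _ hθ.le
  have h1 : 0 < 1 + Real.tan θ ^ 2 := by positivity
  have h2 : c ^ 2 * (1 + Real.tan θ ^ 2) ≤ c ^ 2 * (1 + t) :=
    mul_le_mul_of_nonneg_left (by linarith) (sq_nonneg c)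
  exact le_of_mul_le_mul_right (by linarith) h1

theorem tan_le_sq {θ τ t : ℝ} (ht : Real.tan θ ^ 2 ≤ t) (h : t ≤ τ ^ 2) (h0 : 0 ≤ τ) :
    Real.tan θ ≤ τ := le_of_sq_le_sq (ht.trans h) h0

namespace EndDat

variable {R I x θ b P : ℝ}

theorem cosθ_pos (H : EndDat R I x θ b P) : 0 < Real.cos θ :=
  Real.cos_pos_of_mem_Ioo ⟨by linarith [H.θ0, Real.pi_gt_three],
    by linarith [H.θ1, Real.pi_gt_three]⟩

theorem tan_nn (H : EndDat R I x θ b P) : 0 ≤ Real.tan θ :=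
  Real.tan_nonneg_of_nonneg_of_le_pi_div_two (by linarith [H.θ0])
    (by linarith [H.θ1, Real.pi_gt_three])

theorem e3_z0 (H : EndDat R I x θ b P) (hI : I ≤ 4918 / 10000)
    (ht : Real.tan θ ^ 2 ≤ 117 / 250) (hR : R ≤ 377 / 400) {ρ η0 η1 r0 c0 T : ℝ}
    (h1 : Real.sinh η1 = Real.tan θ * Real.cos (2 / 5 * Real.pi))
    (h0 : Real.sinh η0 = Real.tan θ * Real.cos ρ) (hr0 : r0 ≤ ρ) (hρ : ρ ≤ Real.pi / 2)
    (hc0 : Real.cos r0 ≤ c0) (hcr : 943 / 1000 ≤ r0) (hcc : c0 ≤ 2613 / 5000) (hT : 0 ≤ T)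
    (key : (5 * (827 / 2000 - 4931 / 10000 * (R - 9 / 10)) - (9093 / 10000 + 3701 / 2500 * (R - 9 / 10))) * (68411 / 100000) *
      (3091 / 10000 / 5 - 5553 / 10000 * ((r0 - R) * ((7342 / 10000 - 7465 / 10000 *
        (R - 7463 / 10000)) - c0))) ≤ 2 * T * (827 / 2000 - 4931 / 10000 * (R - 9 / 10))) :
    b * (η1 / 5 - 49 / 50 * (2 / Real.pi) * ((ρ - R) * (I - η0))) ≤ T := by
  have hθ := H.cosθ_pos
  have t0 := H.tan_nn
  have hc1 : 41267 / 50000 ≤ Real.cos θ := cos_ge_tan hθ ht (by norm_num)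
  have ht1 : Real.tan θ ≤ 68411 / 100000 := tan_le_sq ht (by norm_num) (by norm_num)
  have hRg := H.R_ge
  have hpi := Real.pi_gt_three
  have hc : Real.cos ρ ≤ Real.cos r0 :=
    Real.cos_le_cos_of_nonneg_of_le_pi (by linarith) (by linarith) hr0
  have hcρ : 0 ≤ Real.cos ρ := Real.cos_nonneg_of_mem_Icc ⟨by linarith, hρ⟩
  exact e3_zone H.hC hθ t0 H.I0 (cosh_I_le H.I0 hI) H.hb H.b0 (xl_0 H.hS hRg hR hc1)
    (by linarith) (jl_0 H.hC hRg hR hθ ht1) ht1 (eta1_le t0 h1) h0 hr0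
    (by linarith) hcρ (hc.trans hc0) (by linarith) (cos_chord hRg (by linarith)) hT key

theorem e3_z1 (H : EndDat R I x θ b P) (hI : I ≤ 4918 / 10000)
    (ht0 : 468 / 1000 ≤ Real.tan θ ^ 2) (ht : Real.tan θ ^ 2 ≤ 5779 / 10000) (hR : R ≤ 377 / 400) {ρ η0 η1 r0 c0 T : ℝ}
    (h1 : Real.sinh η1 = Real.tan θ * Real.cos (2 / 5 * Real.pi))
    (h0 : Real.sinh η0 = Real.tan θ * Real.cos ρ) (hr0 : r0 ≤ ρ) (hρ : ρ ≤ Real.pi / 2)
    (hc0 : Real.cos r0 ≤ c0) (hcr : 943 / 1000 ≤ r0) (hcc : c0 ≤ 2613 / 5000) (hT : 0 ≤ T)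
    (key : (5 * (4567 / 10000 - 673 / 1250 * (R - 9 / 10)) - (1767 / 2000 + 2909 / 2000 * (R - 9 / 10))) * (3801 / 5000) *
      (767 / 2500 / 5 - 5553 / 10000 * ((r0 - R) * ((7342 / 10000 - 7465 / 10000 *
        (R - 7463 / 10000)) - c0))) ≤ 2 * T * (4567 / 10000 - 673 / 1250 * (R - 9 / 10))) :
    b * (η1 / 5 - 49 / 50 * (2 / Real.pi) * ((ρ - R) * (I - η0))) ≤ T := by
  have hθ := H.cosθ_pos
  have t0 := H.tan_nn
  have hc1 : 9951 / 12500 ≤ Real.cos θ := cos_ge_tan hθ ht (by norm_num)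
  have ht1 : Real.tan θ ≤ 3801 / 5000 := tan_le_sq ht (by norm_num) (by norm_num)
  have hRg := H.R_ge
  have hpi := Real.pi_gt_three
  have hc : Real.cos ρ ≤ Real.cos r0 :=
    Real.cos_le_cos_of_nonneg_of_le_pi (by linarith) (by linarith) hr0
  have hcρ : 0 ≤ Real.cos ρ := Real.cos_nonneg_of_mem_Icc ⟨by linarith, hρ⟩
  exact e3_zone H.hC hθ t0 H.I0 (cosh_I_le H.I0 hI) H.hb H.b0 (xl_1 H.hS hRg hR hc1)
    (by linarith) (jl_1 H.hC hRg hR hθ ht1) ht1 (eta1_le' t0 ht0 h1) h0 hr0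
    (by linarith) hcρ (hc.trans hc0) (by linarith) (cos_chord hRg (by linarith)) hT key

theorem e3_z2 (H : EndDat R I x θ b P) (hI : I ≤ 4918 / 10000)
    (ht0 : 468 / 1000 ≤ Real.tan θ ^ 2) (ht : Real.tan θ ^ 2 ≤ 6023 / 10000) (hR : R ≤ 897 / 1000) {ρ η0 η1 r0 c0 T : ℝ}
    (h1 : Real.sinh η1 = Real.tan θ * Real.cos (2 / 5 * Real.pi))
    (h0 : Real.sinh η0 = Real.tan θ * Real.cos ρ) (hr0 : r0 ≤ ρ) (hρ : ρ ≤ Real.pi / 2)
    (hc0 : Real.cos r0 ≤ c0) (hcr : 943 / 1000 ≤ r0) (hcc : c0 ≤ 2613 / 5000) (hT : 0 ≤ T)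
    (key : (5 * (1191 / 2500 - 2681 / 5000 * (R - 22 / 25)) - (1699 / 2000 + 14069 / 10000 * (R - 22 / 25))) * (9701 / 12500) *
      (767 / 2500 / 5 - 5553 / 10000 * ((r0 - R) * ((7342 / 10000 - 7465 / 10000 *
        (R - 7463 / 10000)) - c0))) ≤ 2 * T * (1191 / 2500 - 2681 / 5000 * (R - 22 / 25))) :
    b * (η1 / 5 - 49 / 50 * (2 / Real.pi) * ((ρ - R) * (I - η0))) ≤ T := by
  have hθ := H.cosθ_pos
  have t0 := H.tan_nn
  have hc1 : 79 / 100 ≤ Real.cos θ := cos_ge_tan hθ ht (by norm_num)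
  have ht1 : Real.tan θ ≤ 9701 / 12500 := tan_le_sq ht (by norm_num) (by norm_num)
  have hRg := H.R_ge
  have hpi := Real.pi_gt_three
  have hc : Real.cos ρ ≤ Real.cos r0 :=
    Real.cos_le_cos_of_nonneg_of_le_pi (by linarith) (by linarith) hr0
  have hcρ : 0 ≤ Real.cos ρ := Real.cos_nonneg_of_mem_Icc ⟨by linarith, hρ⟩
  exact e3_zone H.hC hθ t0 H.I0 (cosh_I_le H.I0 hI) H.hb H.b0 (xl_2 H.hS hRg hR hc1)
    (by linarith) (jl_2 H.hC hRg hR hθ ht1) ht1 (eta1_le' t0 ht0 h1) h0 hr0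
    (by linarith) hcρ (hc.trans hc0) (by linarith) (cos_chord hRg (by linarith)) hT key

theorem e3_z3 (H : EndDat R I x θ b P) (hI : I ≤ 4918 / 10000)
    (ht0 : 468 / 1000 ≤ Real.tan θ ^ 2) (ht : Real.tan θ ^ 2 ≤ 309 / 500) (hR : R ≤ 873 / 1000) {ρ η0 η1 r0 c0 T : ℝ}
    (h1 : Real.sinh η1 = Real.tan θ * Real.cos (2 / 5 * Real.pi))
    (h0 : Real.sinh η0 = Real.tan θ * Real.cos ρ) (hr0 : r0 ≤ ρ) (hρ : ρ ≤ Real.pi / 2)
    (hc0 : Real.cos r0 ≤ c0) (hcr : 943 / 1000 ≤ r0) (hcc : c0 ≤ 2613 / 5000) (hT : 0 ≤ T)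
    (key : (5 * (4929 / 10000 - 5301 / 10000 * (R - 43 / 50)) - (1637 / 2000 + 6819 / 5000 * (R - 43 / 50))) * (78613 / 100000) *
      (767 / 2500 / 5 - 5553 / 10000 * ((r0 - R) * ((7342 / 10000 - 7465 / 10000 *
        (R - 7463 / 10000)) - c0))) ≤ 2 * T * (4929 / 10000 - 5301 / 10000 * (R - 43 / 50))) :
    b * (η1 / 5 - 49 / 50 * (2 / Real.pi) * ((ρ - R) * (I - η0))) ≤ T := by
  have hθ := H.cosθ_pos
  have t0 := H.tan_nn
  have hc1 : 15723 / 20000 ≤ Real.cos θ := cos_ge_tan hθ ht (by norm_num)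
  have ht1 : Real.tan θ ≤ 78613 / 100000 := tan_le_sq ht (by norm_num) (by norm_num)
  have hRg := H.R_ge
  have hpi := Real.pi_gt_three
  have hc : Real.cos ρ ≤ Real.cos r0 :=
    Real.cos_le_cos_of_nonneg_of_le_pi (by linarith) (by linarith) hr0
  have hcρ : 0 ≤ Real.cos ρ := Real.cos_nonneg_of_mem_Icc ⟨by linarith, hρ⟩
  exact e3_zone H.hC hθ t0 H.I0 (cosh_I_le H.I0 hI) H.hb H.b0 (xl_3 H.hS hRg hR hc1)
    (by linarith) (jl_3 H.hC hRg hR hθ ht1) ht1 (eta1_le' t0 ht0 h1) h0 hr0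
    (by linarith) hcρ (hc.trans hc0) (by linarith) (cos_chord hRg (by linarith)) hT key

end EndDat

end Pool.Agent.S3.Cl
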