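import Pool.Agent.S3.Cl.TwoReg3

/-!
# Stage 3: closed ends next to an inner `2`: more about the region
-/

set_option autoImplicit false

namespace Pool.Agent.S3.Cl

namespace RegQ

variable {P q : ℝ}

/-- `R ≤ 3π/10` if the third vertex is open -/
theorem R30o (H : RegQ P q)
    (hN : 15876 / 10000 ≤ q * (4 * P ^ 2 - 2 * P * (q ^ 2 + 1) + q ^ 4 - q ^ 2 + 1)) :
    P ^ 2 ≤ 1309 / 1000 * (q ^ 2 / 2 - 691 / 1000) := by
  have h0 := H.q_ge43
  have h1 := H.q_le166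
  have hP0 := H.P0
  have hPl := H.P_le
  rcases le_total q (146 / 100) with h | h
  · have hP := H.P_ge43 (by linarith)
    rcases le_total q (14 / 10) with h' | h'
    · exfalso
      have hP3 : P ≤ 678 / 1000 := by linarith
      have h2 : 4 * P ^ 2 ≤ 4 * (1108 / 1000 * P - 29154 / 100000) := by nlinarith
      have hq2 : q ^ 2 ≤ 196 / 100 := by nlinarith
      have hq3 : 16 / 9 ≤ q ^ 2 := by nlinarith
      have h3 : 4 * P ^ 2 - 2 * P * (q ^ 2 + 1) + q ^ 4 - q ^ 2 + 1 ≤ 11 / 10 := by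
        nlinarith [mul_nonneg (sub_nonneg.2 hP) (sub_nonneg.2 hq3)]
      nlinarith
    · by_contra hc
      push Not at hc
      have hl : 614 / 1000 + 142 / 100 * (q - 14 / 10) ≤ P := by
        by_contra h5
        push Not at h5
        have h6 : P ^ 2 ≤ (614 / 1000 + 142 / 100 * (q - 14 / 10)) ^ 2 :=
          pow_le_pow_left₀ hP0 h5.le 2
        have h7 : (614 / 1000 + 142 / 100 * (q - 14 / 10)) ^ 2
            ≤ 1309 / 1000 * (q ^ 2 / 2 - 691 / 1000) := by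
          nlinarith [mul_nonneg (sub_nonneg.2 h') (sub_nonneg.2 h)]
        linarith
      have h2 : 4 * P ^ 2 - 2 * P * (q ^ 2 + 1) + q ^ 4 - q ^ 2 + 1
          ≤ 4 * (614 / 1000 + 142 / 100 * (q - 14 / 10)) ^ 2
          - 2 * (614 / 1000 + 142 / 100 * (q - 14 / 10)) * (q ^ 2 + 1) + q ^ 4 - q ^ 2 + 1 := by
        nlinarith [mul_nonneg (sub_nonneg.2 hl) (show 0 ≤ q ^ 2 + 1 - 2 * P
          - 2 * (614 / 1000 + 142 / 100 * (q - 14 / 10)) by nlinarith)]
      have h3 : q * (4 * (614 / 1000 + 142 / 100 * (q - 14 / 10)) ^ 2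
          - 2 * (614 / 1000 + 142 / 100 * (q - 14 / 10)) * (q ^ 2 + 1) + q ^ 4 - q ^ 2 + 1)
          < 15876 / 10000 := by
        obtain ⟨r, hr⟩ : ∃ r, r = q - 14 / 10 := ⟨_, rfl⟩
        have e : q = r + 14 / 10 := by rw [hr]; ring
        have r0 : 0 ≤ r := by rw [hr]; linarith
        have r1 : r ≤ 6 / 100 := by rw [hr]; linarith
        rw [e]
        have r2 := mul_nonneg r0 (sub_nonneg.2 r1)
        have r3 := mul_nonneg r0 r0
        have r4 := mul_nonneg r3 (sub_nonneg.2 r1)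
        have r5 := mul_nonneg (mul_nonneg r3 r0) (sub_nonneg.2 r1)
        nlinarith
      have h4 := mul_le_mul_of_nonneg_left h2 H.qp.le
      linarith
  · have h2 := pow_le_pow_left₀ hP0 hPl 2
    nlinarith [mul_nonneg (sub_nonneg.2 h) (sub_nonneg.2 H.q_le)]

/-- `tan² θ ≤ 309/500` -/
theorem T618 (H : RegQ P q) : P ^ 2 ≤ 309 / 809 * q ^ 2 * (1 - 250 / 809 * (q ^ 2 / 2)) := by
  have h0 := H.q_ge43
  have h1 := H.q_le166
  have hP0 := H.P0
  have h2 := pow_le_pow_left₀ hP0 H.P_le 2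
  have hq : 16 / 9 ≤ q ^ 2 := by nlinarith
  have hq1 : q ^ 2 ≤ 2755 / 1000 := by nlinarith
  nlinarith [mul_nonneg (sub_nonneg.2 h0) (sub_nonneg.2 h1), mul_nonneg (sub_nonneg.2 hq)
    (sub_nonneg.2 hq1), mul_nonneg (mul_nonneg (sub_nonneg.2 h0) (sub_nonneg.2 h1)) (sq_nonneg q)]

/-- `tan² θ ≤ 5779/10000` if `im b₂ ≥ 11/200` -/
theorem T5779 (H : RegQ P q)
    (hd : (11 / 200) ^ 2 ≤ (q - P) / 8 * (4 * P ^ 2 + 2 * q * P - q ^ 2 - 2 * P - q + 1) ^ 2) :
    P ^ 2 ≤ 5779 / 15779 * q ^ 2 * (1 - 5000 / 15779 * (q ^ 2 / 2)) := by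
  have h0 := H.q_ge43
  have h1 := H.q_le166
  have hP0 := H.P0
  have hPl := H.P_le
  have hq : 16 / 9 ≤ q ^ 2 := by nlinarith
  rcases le_total q (157 / 100) with h | h
  · have h2 := pow_le_pow_left₀ hP0 H.P_le 2
    have hq1 : q ^ 2 ≤ 2465 / 1000 := by nlinarith
    nlinarith [mul_nonneg (sub_nonneg.2 h0) (sub_nonneg.2 h), mul_nonneg (sub_nonneg.2 hq)
      (sub_nonneg.2 hq1), mul_nonneg (mul_nonneg (sub_nonneg.2 h0) (sub_nonneg.2 h)) (sq_nonneg q)]
  · by_contra hc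
    push Not at hc
    have hl : 7417 / 10000 + 1366 / 10000 * (q - 157 / 100) ≤ P := by
      by_contra h5
      push Not at h5
      have h6 : P ^ 2 ≤ (7417 / 10000 + 1366 / 10000 * (q - 157 / 100)) ^ 2 :=
        pow_le_pow_left₀ hP0 h5.le 2
      have h7 : (7417 / 10000 + 1366 / 10000 * (q - 157 / 100)) ^ 2
          ≤ 5779 / 15779 * q ^ 2 * (1 - 5000 / 15779 * (q ^ 2 / 2)) := by
        obtain ⟨r, hr⟩ : ∃ r, r = q - 157 / 100 := ⟨_, rfl⟩
        have e : q = r + 157 / 100 := by rw [hr]; ring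
        have r0 : 0 ≤ r := by rw [hr]; linarith
        have r1 : r ≤ 896 / 10000 := by rw [hr]; linarith
        rw [e]
        have r2 := mul_nonneg r0 (sub_nonneg.2 r1)
        have r3 := mul_nonneg r0 r0
        have r4 := mul_nonneg r3 (sub_nonneg.2 r1)
        have r5 := mul_nonneg (mul_nonneg r3 r0) (sub_nonneg.2 r1)
        nlinarith
      linarith
    have hB := H.hB
    have hB2 : -(146 / 1000) ≤ 4 * P ^ 2 + 2 * q * P - q ^ 2 - 2 * P - q + 1 := by
      nlinarith [mul_nonneg (sub_nonneg.2 h) (sub_nonneg.2 h1)]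
    have hqP : q - P ≤ 906 / 1000 := by linarith
    have hB3 : (4 * P ^ 2 + 2 * q * P - q ^ 2 - 2 * P - q + 1) ^ 2 ≤ (146 / 1000) ^ 2 := by
      apply sq_le_sq'
      · linarith
      · linarith
    have h8 : (q - P) / 8 * (4 * P ^ 2 + 2 * q * P - q ^ 2 - 2 * P - q + 1) ^ 2
        ≤ (906 / 1000) / 8 * (146 / 1000) ^ 2 :=
      mul_le_mul (by linarith) hB3 (sq_nonneg _) (by norm_num)
    norm_num at h8 hd
    linarith

end RegQ

end Pool.Agent.S3.Cl
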