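import Pool.Agent.S3.Cl.Edge2
import Pool.Agent.S3.E.Rng

/-!
# Stage 3: `|cos z|` at an inner `3` and for `a ≥ 4`
-/

namespace Pool.Agent.S3.E

open Real
open Pool.Agent.S3.Cl (n_c6 n_s3)

private theorem sq_slot {R I ρ β p r : ℝ} (hs : Slot R I ρ β p r) :
    sinh p ^ 2 + sin r ^ 2 = (ρ * tt R I) ^ 2 := by
  have e1 := hs.e1
  have e2 := hs.e2
  have h1 : (sinh p * cos r) ^ 2 + (cosh p * sin r) ^ 2 = (ρ * tt R I) ^ 2 := by
    rw [e1, e2]
    have := sin_sq_add_cos_sq (al R I + β)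
    linear_combination (ρ * tt R I) ^ 2 * this
  have h2 := cosh_sq p
  have h3 := sin_sq_add_cos_sq r
  have h4 : (sinh p * cos r) ^ 2 + (cosh p * sin r) ^ 2 = sinh p ^ 2 + sin r ^ 2 := by
    linear_combination sin r ^ 2 * h2 + sinh p ^ 2 * h3
  rw [← h4, h1]

/-- `sinh .38 ≤ .39` -/
private theorem sinh38 : sinh (38 / 100) ≤ 39 / 100 := by
  have h1 : exp (38 / 100 : ℝ) ≤ 14623 / 10000 := by
    refine (Real.exp_bound' (x := 38 / 100) (by norm_num) (by norm_num) (n := 6)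
      (by norm_num)).trans ?_
    simp only [Finset.sum_range_succ, Finset.sum_range_zero, Nat.factorial]
    norm_num
  have h2 : exp (38 / 100 : ℝ) * exp (-(38 / 100 : ℝ)) = 1 := by
    rw [← Real.exp_add]
    simp
  have h4 : 10000 / 14623 ≤ exp (-(38 / 100 : ℝ)) := by
    rw [div_le_iff₀ (by norm_num)]
    nlinarith only [Real.exp_pos (-(38 / 100 : ℝ)), h1, h2]
  rw [Real.sinh_eq]
  linarith

private theorem arctan16 : 146 / 1000 ≤ arctan (16 / 100) := by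
  have hpi := Real.pi_gt_three
  rw [← Real.arctan_tan (x := 146 / 1000) (by linarith) (by linarith)]
  apply Real.arctan_mono
  have h1 : 0 < cos (146 / 1000) := cos_pos_of_mem_Ioo ⟨by linarith, by linarith⟩
  rw [tan_eq_sin_div_cos, div_le_iff₀ h1]
  have h2 := Real.sin_le (x := 146 / 1000) (by norm_num)
  have h3 := Real.one_sub_sq_div_two_le_cos (x := 146 / 1000)
  linarith

theorem Vx.k2_ge3i {R I ρ₁ β₁ p₁ r₁ ρ₂ β₂ p₂ r₂ : ℝ} (h : Vx 3 R I ρ₁ β₁ p₁ r₁ ρ₂ β₂ p₂ r₂)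
    (hρ₁ : 1 / 2 ≤ ρ₁) (hρ₂ : 1 / 2 ≤ ρ₂) : (63 / 100) ^ 2 ≤ k2 R I := by
  by_contra hc
  push Not at hc
  have hpi := Real.pi_lt_d4
  have hpi3 := Real.pi_gt_three
  have hR0 := h.R0
  have hR1 := h.R1
  have hI := h.I0
  have hk := k2_pos (I := I) hR0 hR1
  have ek := GeoX_k2 R I
  have es := GeoX_s2 R I
  have hch := Real.cosh_sq I
  have hcR : 0 < cos R := cos_pos_of_mem_Ioo ⟨by linarith, hR1⟩
  have hI2 : I ^ 2 ≤ sinh I ^ 2 :=
    pow_le_pow_left₀ hI.le (Real.self_le_sinh_iff.2 hI.le) 2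
  -- `.889 ≤ R`
  have hcos : cos R < 63 / 100 := by
    by_contra h2
    push Not at h2
    have : (63 / 100) ^ 2 ≤ cos R ^ 2 := pow_le_pow_left₀ (by norm_num) h2 2
    linarith only [sq_nonneg (sinh I), hc, ek, hch, this]
  have hRa : 889 / 1000 ≤ R := by
    by_contra h2
    push Not at h2
    have h3 := n_c6 (x := 889 / 1000) (by norm_num)
    have h4 := Real.cos_lt_cos_of_nonneg_of_le_pi hR0.le (by linarith) h2
    norm_num at h3
    linarith
  have hsum := h.hR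
  have hIs := h.hI
  -- `tt²`
  have ht : 15193 / 10000 ≤ tt R I ^ 2 := by
    rw [tt_sq hR0 hR1, le_div_iff₀ hk]
    have : 1 - k2 R I ≤ s2 R I := by
      rw [ek, es]; linarith only [sq_nonneg (sinh I), hch]
    linarith only [hc, this]
  have key : ∀ {ρ β p r : ℝ}, Slot R I ρ β p r → 1 / 2 ≤ ρ → r ≤ 4750 / 10000 →
      39 / 100 < sinh p ∧ 38 / 100 ≤ p := by
    intro ρ β p r hs hρ hr
    have h1 := sq_slot hs
    have h2 : 379 / 1000 ≤ (ρ * tt R I) ^ 2 := by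
      rw [mul_pow]
      have : 1 / 4 ≤ ρ ^ 2 := by nlinarith only [hρ]
      nlinarith only [ht, hρ]
    have h3 := Real.sin_le hs.r0
    have h4 : 0 ≤ sin r := sin_nonneg_of_nonneg_of_le_pi hs.r0 (by linarith)
    have h5 : sin r ^ 2 ≤ (4750 / 10000) ^ 2 := pow_le_pow_left₀ h4 (h3.trans hr) 2
    have h6 : 0 ≤ sinh p := sinh_nonneg_iff.2 hs.p0
    have h7 : 39 / 100 < sinh p := by
      by_contra h8
      push Not at h8
      nlinarith only [h1, h2, h5, h6, h8]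
    refine ⟨h7, ?_⟩
    by_contra h8
    push Not at h8
    have := Real.sinh_lt_sinh.2 h8
    linarith [sinh38]
  have r10 := h.sl₁.r0
  have r20 := h.sl₂.r0
  obtain ⟨a1, a2⟩ := key h.sl₁ hρ₁ (by linarith)
  obtain ⟨b1, b2⟩ := key h.sl₂ hρ₂ (by linarith)
  have hI3 : 253 / 1000 ≤ I := by linarith
  have hI4 : (253 / 1000) ^ 2 ≤ I ^ 2 := pow_le_pow_left₀ (by norm_num) hI3 2
  have hcos2 : cos R < 5816 / 10000 := by
    by_contra h2
    push Not at h2
    have : (5816 / 10000) ^ 2 ≤ cos R ^ 2 := pow_le_pow_left₀ (by norm_num) h2 2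
    linarith only [hc, ek, hch, hI2, hI4, this]
  have hRb : 95 / 100 ≤ R := by
    by_contra h2
    push Not at h2
    have h3 := n_c6 (x := 95 / 100) (by norm_num)
    have h4 := Real.cos_lt_cos_of_nonneg_of_le_pi hR0.le (by linarith) h2
    norm_num at h3
    linarith
  have hal : 1 / 2 ≤ tan (al R I) := by
    rw [tan_al, le_div_iff₀ (sin_two_pos hR0 hR1)]
    have h1 := Real.sin_le_one (2 * R)
    have h2 := Real.self_le_sinh_iff.2 (show 0 ≤ 2 * I by linarith)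
    linarith
  have key2 : ∀ {ρ β p r : ℝ}, Slot R I ρ β p r → 39 / 100 < sinh p → 146 / 1000 ≤ r := by
    intro ρ β p r hs h1
    have h2 := hs.arctan_le hR0 hR1 hI
    refine (arctan16.trans (Real.arctan_mono ?_)).trans h2
    have h3 : 32 / 100 ≤ tanh p := by
      rw [tanh_eq_sinh_div_cosh, le_div_iff₀ (cosh_pos p)]
      have h4 := cosh_sq p
      by_contra h5
      push Not at h5
      have h6 : sinh p ^ 2 < (32 / 100 * cosh p) ^ 2 :=
        pow_lt_pow_left₀ h5 (by linarith) two_ne_zero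
      nlinarith only [h1, h4, h5]
    nlinarith only [hal, h3]
  have c1 := key2 h.sl₁ a1
  have c2 := key2 h.sl₂ b1
  linarith

end Pool.Agent.S3.E

namespace Pool.Agent.S3.E

open Complex

namespace Zr

variable {ι : Type*} [Finite ι] {a : ι → ℝ} {nl nr : ι → Option ι} {z : ι → ℂ}

/-- `|cos z| ≥ 63/100` at an inner `3`. -/
theorem norm3i_ge (h : Zr a nl nr 1 z) {i : ι} (hi : a i = 3)
    (hin : ∃ l r, nl i = some l ∧ nr i = some r) : 63 / 100 ≤ ‖cos (z i)‖ := by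
  obtain ⟨l, r, h1, h2⟩ := hin
  have hv := h.vx i
  rw [hi, h1, h2] at hv
  have h3 := hv.k2_ge3i (h.ro_ge l) (h.ro_ge r)
  rw [norm_cos_eq]
  exact Real.le_sqrt_of_sq_le h3

/-- `|cos z| ≥ 7/10` for `a ≥ 4`. -/
theorem norm4_ge (h : Zr a nl nr 1 z) {i : ι} (hi : 4 ≤ a i) : 7 / 10 ≤ ‖cos (z i)‖ := by
  have h1 := h.aR_lt_i i
  obtain ⟨p1, p2, p3⟩ := h.pos i
  have hpi := Real.pi_pos
  have h2 : (z i).re ≤ Real.pi / 4 := by nlinarith only [hi, h1, p2]
  have h3 : Real.cos (Real.pi / 4) ≤ Real.cos (z i).re :=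
    Real.cos_le_cos_of_nonneg_of_le_pi p1.le (by linarith) h2
  rw [Real.cos_pi_div_four] at h3
  have h4 : √2 ^ 2 = (2 : ℝ) := Real.sq_sqrt (by norm_num)
  have h5 := Real.sqrt_nonneg (2 : ℝ)
  have h6 : 14 / 10 ≤ √2 := by nlinarith only [h4, h5]
  rw [norm_cos_eq]
  apply Real.le_sqrt_of_sq_le
  rw [GeoX_k2]
  have h7 := Real.one_le_cosh (z i).im
  nlinarith only [h3, h6, h7]

/-- `tan² θ ≤ 63/100` at an inner `2` with a closed neighbour. -/
theorem tan_th_end2 (h : Zr a nl nr 1 z) {i j : ι} (hj : Zr.IsEnd2 a nl nr j i) (ha : a i = 2)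
    (hin : ∃ l r, nl i = some l ∧ nr i = some r) :
    Real.tan (th (z i).re (z i).im) ^ 2 ≤ 63 / 100 := by
  have h1 := Cl.sin_th_end2 h hj ha hin
  have h2 := Pool.Agent.S3.cos_pos' (Cl.abs_th h i)
  have h3 := Real.sin_sq_add_cos_sq (th (z i).re (z i).im)
  rw [Real.tan_eq_sin_div_cos, div_pow, div_le_iff₀ (by positivity)]
  linarith

end Zr

end Pool.Agent.S3.E
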