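import Pool.Agent.S3.Cl.Pb
import Pool.Agent.S3.Cl.TwoReg4
import Pool.Agent.S3.E.J4
import Pool.Agent.S3.E.RngC

/-!
# Stage 3: the imaginary part of `cos z` at the third vertex
-/

set_option autoImplicit false

namespace Pool.Agent.S3.Cl

open Complex Pool.Agent.S3
open Pool.Agent.S3.E (Zr uu qe qo bw xx th k2 s2 bo ro be ph In2)

/-- the imaginary part of `b₂` -/
theorem regQ_I {κ b₁ b₂ : ℂ} (h1 : b₁ ^ 2 = I / 2 * κ)
    (hq : 4 * (κ ^ 2) ^ 2 - 4 * (b₁ * b₂) * κ ^ 2 + (b₁ + b₂) ^ 2 = 0)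
    (v0 : 0 < b₁.im) (uv : b₁.im ≤ b₁.re) (d0 : 0 ≤ b₂.im) :
    b₂.im ^ 2 = (2 * ‖κ‖ - (-2 * κ.im)) / 8 * (4 * (-2 * κ.im) ^ 2 + 2 * (2 * ‖κ‖) * (-2 * κ.im)
      - (2 * ‖κ‖) ^ 2 - 2 * (-2 * κ.im) - 2 * ‖κ‖ + 1) ^ 2 := by
  have hκ : κ = -2 * I * b₁ ^ 2 := by
    rw [h1]
    linear_combination κ * I_sq
  set u := b₁.re with hu
  set v := b₁.im with hv
  have eb : b₁ = (u : ℂ) + v * I := (re_add_im b₁).symm
  have eκ : κ = ((4 * (u * v) : ℝ) : ℂ) + ((-2 * (u ^ 2 - v ^ 2) : ℝ) : ℂ) * I := by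
    rw [hκ, eb]
    push_cast
    linear_combination (-4 * (u : ℂ) * v - 2 * v ^ 2 * I) * I_sq
  have kim : κ.im = -2 * (u ^ 2 - v ^ 2) := by
    rw [eκ, add_im, ofReal_im, im_ofReal_mul, I_im, mul_one, zero_add]
  have knorm : ‖κ‖ = 2 * (u ^ 2 + v ^ 2) := by
    rw [hκ, norm_mul, norm_mul, norm_neg, norm_pow, norm_I]
    have : ‖b₁‖ ^ 2 = u ^ 2 + v ^ 2 := by
      rw [← normSq_eq_norm_sq, normSq_apply]; ring
    rw [this]
    norm_num
  rw [kim, knorm]
  rcases two_rel h1 hq with h | h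
  · have e5 : b₂ = ((-(u * (16 * (u ^ 4 - 10 * u ^ 2 * v ^ 2 + 5 * v ^ 4)
        - 4 * (u ^ 2 - 3 * v ^ 2) + 1)) : ℝ) : ℂ)
        + ((-(v * (16 * (5 * u ^ 4 - 10 * u ^ 2 * v ^ 2 + v ^ 4)
        - 4 * (3 * u ^ 2 - v ^ 2) + 1)) : ℝ) : ℂ) * I := by
      rw [h, eb]
      have i2 := I_sq
      have i3 : I ^ 3 = -I := by rw [pow_succ, I_sq]; ring
      have i4 : I ^ 4 = 1 := by norm_num
      have i5 : I ^ 5 = I := by rw [pow_succ, i4]; ring
      push_cast
      ring_nf
      rw [i2, i3, i4, i5]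
      ring
    have im5 := congrArg Complex.im e5
    rw [add_im, ofReal_im, im_ofReal_mul, I_im, mul_one, zero_add] at im5
    rw [im5]
    ring
  · exfalso
    have e5 : b₂ = ((-(u * (1 + 4 * (u ^ 2 - 3 * v ^ 2))) : ℝ) : ℂ)
        + ((-(v * (1 + 4 * (3 * u ^ 2 - v ^ 2))) : ℝ) : ℂ) * I := by
      rw [h, eb]
      have i2 := I_sq
      have i3 : I ^ 3 = -I := by rw [pow_succ, I_sq]; ring
      push_cast
      ring_nf
      rw [i2, i3]
      ring
    have im5 := congrArg Complex.im e5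
    rw [add_im, ofReal_im, im_ofReal_mul, I_im, mul_one, zero_add] at im5
    have huv : v ^ 2 ≤ u ^ 2 := pow_le_pow_left₀ v0.le uv 2
    have h6 : 0 < 1 + 4 * (3 * u ^ 2 - v ^ 2) := by nlinarith [sq_nonneg u]
    have := mul_pos v0 h6
    linarith

section

variable {ι : Type*} [Finite ι] {a : ι → ℝ} {nl nr : ι → Option ι} {z : ι → ℂ}

omit [Finite ι] in
/-- the imaginary part of `cos z` at the third vertex -/
theorem regQ_im (h : Zr a nl nr 1 z) {i j k : ι} (hj : Zr.IsEnd2 a nl nr j i) (ha : a i = 2)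
    (hk : nl i = some k ∨ nr i = some k) (hkj : k ≠ j) :
    ((starRingEnd ℂ) (cos (z k))).im ^ 2 = (2 * ‖cos (z i)‖ - (-2 * (cos (z i)).im)) / 8 *
      (4 * (-2 * (cos (z i)).im) ^ 2 + 2 * (2 * ‖cos (z i)‖) * (-2 * (cos (z i)).im)
      - (2 * ‖cos (z i)‖) ^ 2 - 2 * (-2 * (cos (z i)).im) - 2 * ‖cos (z i)‖ + 1) ^ 2 := by
  have hji := hji_of hj
  have hij := h.N.symm j i hji
  have hq := h.quartic i ha
  have hq' : 4 * (cos (z i) ^ 2) ^ 2 - 4 * (bo 1 z (some j) * bo 1 z (some k)) * cos (z i) ^ 2 +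
      (bo 1 z (some j) + bo 1 z (some k)) ^ 2 = 0 := by
    rcases hij with e | e
    · rcases hk with e' | e'
      · exact absurd (Option.some.inj (e'.symm.trans e)) hkj
      · rw [e, e'] at hq; exact hq
    · rcases hk with e' | e'
      · rw [e, e'] at hq; linear_combination hq
      · exact absurd (Option.some.inj (e'.symm.trans e)) hkj
  have h1 : bo 1 z (some j) ^ 2 = I / 2 * cos (z i) := by
    have h2 := h.end2 hj.1 hj.2
    rw [h.bo_one] at h2 ⊢
    have h3 := congrArg (starRingEnd ℂ) h2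
    rw [map_mul, map_mul, map_neg, conj_I, conj_conj, map_pow, Complex.conj_ofNat] at h3
    linear_combination h3 / 2
  have h2 := regQ_I h1 hq' (by
    rw [h.bo_im]
    apply mul_pos (h.ro_pos j)
    apply Real.sin_pos_of_pos_of_lt_pi
    · rw [Zr.be_one]; exact h.phpos j
    · have := h.be_le (some j)
      linarith [Real.pi_pos]) (h.bo_im_le _) (h.bo_im_nonneg _)
  rwa [h.bo_one k] at h2

/-- `-im cos z ≥ 11/200` at an open neighbour with two or three twists of an inner `2`. -/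
theorem im_ge_23 (h : Zr a nl nr 1 z) {i j : ι}
    (hi : a i = 2) (hin : In2 nl nr i) (hij : nl i = some j ∨ nr i = some j)
    (hj : (a j = 2 ∧ In2 nl nr j) ∨ a j = 3) :
    11 / 200 ≤ ((starRingEnd ℂ) (cos (z j))).im := by
  have hji := h.N.symm i j hij
  have hB := h.conj_im_ph j
  rcases hj with ⟨e2, hj'⟩ | e
  · -- an inner `2`
    have h1 := h.two_ph_ge e2 hj'
    have h2 := h.two_ph_le e2 hj'
    have h3 := h.two_ro_ge e2 hj'
    rw [Zr.ro_one] at h3
    have hpi := Real.pi_gt_three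
    have h4 : Real.sin (1 / 10) ≤ Real.sin (ph (z j).re (z j).im) :=
      Real.sin_le_sin_of_le_of_le_pi_div_two (by linarith) (by linarith) h1
    have h5 := n_s3 (x := 1 / 10) (by norm_num)
    norm_num at h5
    rw [hB]
    nlinarith
  · by_cases he : nl j = none ∨ nr j = none
    · have := (h.end3_two e hji he hi hin).2.2.1
      rw [conj_im]
      linarith
    · push Not at he
      obtain ⟨x, hx⟩ := Option.ne_none_iff_exists'.1 he.1
      obtain ⟨y, hy⟩ := Option.ne_none_iff_exists'.1 he.2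
      have hρ := h.norm3_two hi hin hij e
      have hθ : 6 / 25 ≤ th (z j).re (z j).im := by
        by_contra hθ
        push Not at hθ
        obtain ⟨o, r₁, p₂, r₂, ho, ho', hv⟩ := h.vx_first hji
        rw [e] at hv
        cases o with
        | none =>
          rcases ho'.1 rfl with e1 | e1
          · rw [hx] at e1; simp at e1
          · rw [hy] at e1; simp at e1
        | some k =>
          have h4 := h.slot3 e ho (by linarith)
          have k1 := hv.inner3_low2 (h.two_ro_ge hi hin) (h.ro_le_one _)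
            (by rw [Zr.be_one]; exact h.two_ph_le hi hin) (h.ro_ge k) (h.ro_le_one _) h4
          linarith
      have hρ1 := h.norm_le j
      obtain ⟨q1, q2, q3⟩ := h.pos j
      have hB0 := h.conj_im_nonneg j
      have hch := Real.cosh_sq (z j).im
      have hsc := Real.sin_sq_add_cos_sq (z j).re
      have hB2 : ((starRingEnd ℂ) (cos (z j))).im ^ 2 =
          (1 - Real.cos (z j).re ^ 2) * Real.sinh (z j).im ^ 2 := by
        rw [Zr.conj_cos_im, mul_pow, ← hsc]; ring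
      have hK : Real.cos (z j).re ^ 2 + Real.sinh (z j).im ^ 2 = ‖cos (z j)‖ ^ 2 := by
        rw [E.norm_cos_sq, E.GeoX_k2, hch]; ring
      have ht1 := E.tan_th_sq q1 q2 q3
      have hlt := E.th_lt q1 q2 q3
      have hc : 0 < Real.cos (th (z j).re (z j).im) :=
        Real.cos_pos_of_mem_Ioo ⟨by linarith [Real.pi_pos], hlt⟩
      have hcR : 0 < Real.cos (z j).re := Real.cos_pos_of_mem_Ioo ⟨by linarith [Real.pi_pos], q2⟩
      have hk1 : (63 / 100) ^ 2 ≤ ‖cos (z j)‖ ^ 2 := pow_le_pow_left₀ (by norm_num) hρ 2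
      have hk2 : ‖cos (z j)‖ ^ 2 ≤ 1 ^ 2 := pow_le_pow_left₀ (norm_nonneg _) hρ1 2
      obtain ⟨g, hg⟩ : ∃ g, g = Real.cos (z j).re ^ 2 := ⟨_, rfl⟩
      obtain ⟨w, hw⟩ : ∃ w, w = Real.sinh (z j).im ^ 2 := ⟨_, rfl⟩
      obtain ⟨K, hKe⟩ : ∃ K, K = ‖cos (z j)‖ ^ 2 := ⟨_, rfl⟩
      rw [← hg, ← hw] at hB2
      rw [← hg, ← hw, ← hKe] at hK
      rw [← hg, ← hw] at ht1
      rw [← hKe] at hk1 hk2
      norm_num at hk1 hk2
      have hs : 237 / 1000 ≤ Real.sin (th (z j).re (z j).im) := by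
        have s1 : Real.sin (6 / 25) ≤ Real.sin (th (z j).re (z j).im) :=
          Real.sin_le_sin_of_le_of_le_pi_div_two (by linarith [Real.pi_gt_three]) hlt.le hθ
        have s2 := (Real.sin_gt_sub_cube (x := 6 / 25) (by norm_num)).le
        norm_num at s2
        linarith
      have hs2 : (237 / 1000) ^ 2 ≤ Real.sin (th (z j).re (z j).im) ^ 2 :=
        pow_le_pow_left₀ (by norm_num) hs 2
      have hsc' := Real.sin_sq_add_cos_sq (th (z j).re (z j).im)
      have ht2 : Real.tan (th (z j).re (z j).im) ^ 2 * Real.cos (th (z j).re (z j).im) ^ 2 =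
          Real.sin (th (z j).re (z j).im) ^ 2 := by
        rw [← mul_pow, Real.tan_mul_cos hc.ne']
      have hw1 : 56 / 1000 * K ≤ w := by
        have e1 : w * Real.cos (th (z j).re (z j).im) ^ 2 =
            g * Real.sin (th (z j).re (z j).im) ^ 2 := by
          rw [← ht1, ← ht2]; ring
        have e2 : w = K * Real.sin (th (z j).re (z j).im) ^ 2 := by
          have : w * (Real.sin (th (z j).re (z j).im) ^ 2 + Real.cos (th (z j).re (z j).im) ^ 2) =
              (g + w) * Real.sin (th (z j).re (z j).im) ^ 2 := by linear_combination e1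
          rw [hsc', hK] at this
          linarith
        rw [e2]
        have : (56 : ℝ) / 1000 ≤ Real.sin (th (z j).re (z j).im) ^ 2 := by
          norm_num at hs2 ⊢
          linarith
        nlinarith
      apply le_of_sq_le_sq _ hB0
      rw [hB2]
      have e3 : 1 - g = 1 - K + w := by linarith
      rw [e3]
      have hK1 : 0 ≤ (K - 3969 / 10000) * (1 - K) := mul_nonneg (by linarith) (by linarith)
      nlinarith

/-- `|cos z| ≥ 63/100` at the open neighbours -/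
theorem nb63' (h : Zr a nl nr 1 z) (h3 : ∀ i, 3 ≤ a i → a i = 3 ∨ 4 ≤ a i) {i k : ι}
    (ha : a i = 2) (hin : In2 nl nr i) (hk : nl i = some k ∨ nr i = some k)
    (ho : (a k = 2 ∧ In2 nl nr k) ∨ a k = 3 ∨ 4 ≤ a k) : 63 / 100 ≤ ‖cos (z k)‖ := by
  apply h.nb63 h3 ha hin hk
  rcases ho with ho | ho | ho
  · exact Or.inr ho
  · left; rw [ho]
  · left; linarith

/-- **`R ≤ 3π/10` at an inner `2` next to a closed end.** -/
theorem re_le30_end2 (h : Zr a nl nr 1 z) (h3 : ∀ i, 3 ≤ a i → a i = 3 ∨ 4 ≤ a i) {i j k : ι}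
    (hj : Zr.IsEnd2 a nl nr j i) (ha : a i = 2) (hin : In2 nl nr i)
    (hk : nl i = some k ∨ nr i = some k) (hkj : k ≠ j)
    (ho : (a k = 2 ∧ In2 nl nr k) ∨ a k = 3 ∨ 4 ≤ a k) : (z i).re ≤ 3 / 10 * Real.pi := by
  have hpi := Real.pi_pos
  have H := regQ h hj ha hin
  have hN := regQ_norm h hj ha hk hkj
  have h63 := nb63' h h3 ha hin hk ho
  have hk2 : (63 / 100) ^ 2 ≤ ‖cos (z k)‖ ^ 2 := pow_le_pow_left₀ (by norm_num) h63 2
  have hR := H.R30o (by rw [← hN]; linarith)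
  have e2 := s2_sq h i
  have e3 := s2_nn h i
  apply re_le_of h i (c := 309 / 1000) (by positivity)
  · have e : Real.cos (2 * (3 / 10 * Real.pi)) = -Real.cos (2 * (Real.pi / 5)) := by
      rw [← Real.cos_pi_sub]; congr 1; ring
    rw [e, Real.cos_two_mul, Real.cos_pi_div_five]
    have a2 : (√5) ^ 2 = 5 := Real.sq_sqrt (by norm_num)
    have a3 : 0 ≤ √5 := Real.sqrt_nonneg 5
    nlinarith
  · set K := ‖cos (z i)‖ with hK
    set P := -2 * (cos (z i)).im with hPd
    by_contra hc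
    push Not at hc
    have h3 : (K ^ 2 + 309 / 1000) ^ 2 < s2 (z i).re (z i).im ^ 2 :=
      pow_lt_pow_left₀ hc (by positivity) two_ne_zero
    rw [e2] at h3
    nlinarith

/-- `tan² θ ≤ 309/500`, and `tan² θ ≤ 5779/10000` next to an open vertex with 2 or 3 twists -/
theorem tan_end2 (h : Zr a nl nr 1 z) {i j k : ι}
    (hj : Zr.IsEnd2 a nl nr j i) (ha : a i = 2) (hin : In2 nl nr i)
    (hk : nl i = some k ∨ nr i = some k) (hkj : k ≠ j) :
    Real.tan (th (z i).re (z i).im) ^ 2 ≤ 309 / 500 ∧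
    ((a k = 2 ∧ In2 nl nr k) ∨ a k = 3 → Real.tan (th (z i).re (z i).im) ^ 2 ≤ 5779 / 10000) := by
  have H := regQ h hj ha hin
  have hkp := h.k2pos i
  have ec := E.cos_two_th (h.pos i).1 (h.pos i).2.1 (h.pos i).2.2
  have e2 := s2_sq h i
  have e3 := s2_nn h i
  have hθ := abs_th h i
  have hc := Pool.Agent.S3.cos_pos' hθ
  have hsc := Real.sin_sq_add_cos_sq (th (z i).re (z i).im)
  have hd := regQ_im h hj ha hk hkj
  have hq := H.q_le166
  rw [k2_eq h i] at hkp ec
  have key : ∀ t : ℝ, 0 ≤ t → t ≤ 1 →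
      (-2 * (cos (z i)).im) ^ 2 ≤ t / (1 + t) * (2 * ‖cos (z i)‖) ^ 2
        * (1 - (2 * ‖cos (z i)‖) ^ 2 / (4 * (1 + t))) →
      Real.tan (th (z i).re (z i).im) ^ 2 ≤ t := by
    intro t t0 t1 hP
    set K := ‖cos (z i)‖ with hK
    set P := -2 * (cos (z i)).im with hPd
    set S := s2 (z i).re (z i).im with hS
    have hK1 : K ^ 2 ≤ 689 / 1000 := by nlinarith [norm_nonneg (cos (z i))]
    have ht : 0 < 1 + t := by linarith
    have h2 : (1 + t) * S ≤ (1 + t) - (1 - t) * K ^ 2 := by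
      by_contra hcon
      push Not at hcon
      have h3 : ((1 + t) - (1 - t) * K ^ 2) ^ 2 < ((1 + t) * S) ^ 2 :=
        pow_lt_pow_left₀ hcon (by nlinarith) two_ne_zero
      rw [mul_pow, e2] at h3
      have h4 : (1 + t) ^ 2 * P ^ 2 ≤ 4 * t * K ^ 2 * ((1 + t) - K ^ 2) := by
        have h5 := mul_le_mul_of_nonneg_left hP (sq_nonneg (1 + t))
        have h6 : (1 + t) ^ 2 * (t / (1 + t) * (2 * K) ^ 2 * (1 - (2 * K) ^ 2 / (4 * (1 + t))))
            = 4 * t * K ^ 2 * ((1 + t) - K ^ 2) := by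
          field_simp
          ring
        rw [h6] at h5
        exact h5
      nlinarith
    have h4 : 1 - t ≤ Real.cos (2 * th (z i).re (z i).im) * (1 + t) := by
      rw [ec, div_mul_eq_mul_div, le_div_iff₀ hkp]
      linarith
    rw [Real.cos_two_mul] at h4
    rw [Real.tan_eq_sin_div_cos, div_pow, div_le_iff₀ (by positivity)]
    nlinarith
  constructor
  · apply key _ (by norm_num) (by norm_num)
    have := H.T618
    norm_num at this ⊢
    linarith
  · intro ho
    apply key _ (by norm_num) (by norm_num)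
    have h1 := im_ge_23 h ha hin hk ho
    have h2 : (11 / 200) ^ 2 ≤ ((starRingEnd ℂ) (cos (z k))).im ^ 2 :=
      pow_le_pow_left₀ (by norm_num) h1 2
    rw [hd] at h2
    have := H.T5779 h2
    norm_num at this ⊢
    linarith

end

end Pool.Agent.S3.Cl
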