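import Pool.Agent.S3.Cl.TwoReg3

/-!
# Stage 3: closed ends next to an inner `2` whose other neighbour is an inner `2`
-/

set_option autoImplicit false

namespace Pool.Agent.S3.Cl

namespace RegQ

variable {P q : ℝ}

/-- the edge of the region with `|cos z| ≤ 1` at the third vertex, second line -/
theorem P_line2 (H : RegQ P q) (h0 : 1579 / 1000 ≤ q) :
    648 / 1000 + 52 / 10 * (q - 164 / 100) ≤ P := by
  have h1 := H.q_le166
  have hN := H.hN2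
  by_contra hc
  push Not at hc
  -- `N` is decreasing in `P`
  have h2 : 4 * (648 / 1000 + 52 / 10 * (q - 164 / 100)) ^ 2
      - 2 * (648 / 1000 + 52 / 10 * (q - 164 / 100)) * (q ^ 2 + 1) + q ^ 4 - q ^ 2 + 1
      ≤ 4 * P ^ 2 - 2 * P * (q ^ 2 + 1) + q ^ 4 - q ^ 2 + 1 := by
    nlinarith
  have h3 : 4 < q * (4 * (648 / 1000 + 52 / 10 * (q - 164 / 100)) ^ 2
      - 2 * (648 / 1000 + 52 / 10 * (q - 164 / 100)) * (q ^ 2 + 1) + q ^ 4 - q ^ 2 + 1) := by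
    obtain ⟨r, hr⟩ : ∃ r, r = q - 1579 / 1000 := ⟨_, rfl⟩
    have e : q = r + 1579 / 1000 := by rw [hr]; ring
    have r0 : 0 ≤ r := by rw [hr]; linarith
    have r1 : r ≤ 81 / 1000 := by rw [hr]; linarith
    rw [e]
    linarith [mul_nonneg (pow_nonneg r0 1) (sq_nonneg (r - 3 / 50)), sq_nonneg (r - 3 / 50),
      mul_nonneg (pow_nonneg r0 2) (sq_nonneg (r - 3 / 50)),
      mul_nonneg (sub_nonneg.2 r1) (sq_nonneg (r - 3 / 50)),
      mul_nonneg (pow_nonneg r0 3) (sq_nonneg (r - 3 / 50)), pow_nonneg r0 2, pow_nonneg r0 3,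
      pow_nonneg r0 4, pow_nonneg r0 5, mul_nonneg r0 (sub_nonneg.2 r1),
      mul_nonneg (pow_nonneg r0 2) (sub_nonneg.2 r1), mul_nonneg (pow_nonneg r0 3) (sub_nonneg.2 r1),
      mul_nonneg (pow_nonneg r0 4) (sub_nonneg.2 r1)]
  have h4 := mul_le_mul_of_nonneg_left h2 H.qp.le
  linarith

/-- `P ≥ 1/2` if `φ ≤ 3/5` at the third vertex -/
theorem P_ge50 (H : RegQ P q)
    (hN : 15876 / 10000 ≤ q * (4 * P ^ 2 - 2 * P * (q ^ 2 + 1) + q ^ 4 - q ^ 2 + 1))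
    (hph : (q - P) / 8 * (4 * P ^ 2 + 2 * q * P - q ^ 2 - 2 * P - q + 1) ^ 2 ≤
      319 / 1000 * (q * (4 * P ^ 2 - 2 * P * (q ^ 2 + 1) + q ^ 4 - q ^ 2 + 1) / 4)) :
    1 / 2 ≤ P := by
  have h424 := H.P_ge424
  have hq166 := H.q_le166
  have hqp := H.qp
  by_contra hc
  push Not at hc
  -- `q ≥ 7/5`
  have hq : 7 / 5 ≤ q := by
    by_contra h
    push Not at h
    have a1 : 4 * P ^ 2 ≤ 4 * (924 / 1000 * P - 212 / 1000) := by nlinarith
    have a2 : 0 < q ^ 2 := by positivity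
    have a3 : q ^ 2 ≤ 196 / 100 := by nlinarith
    have a4 : q ^ 4 - q ^ 2 ≤ (196 / 100) * (96 / 100) := by
      have := H.q0
      have e : q ^ 4 - q ^ 2 = q ^ 2 * (q ^ 2 - 1) := by ring
      rw [e]
      exact mul_le_mul a3 (by linarith) (by linarith) (by norm_num)
    have hq0 := H.q0
    have a5 : 4 * P ^ 2 - 2 * P * (q ^ 2 + 1) + q ^ 4 - q ^ 2 + 1 ≤ 112 / 100 := by
      have b1 : 4 * P ^ 2 - 2 * P * (q ^ 2 + 1) ≤
          4 * (424 / 1000) ^ 2 - 2 * (424 / 1000) * (q ^ 2 + 1) := by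
        nlinarith
      have b2 : q ^ 4 = q ^ 2 * q ^ 2 := by ring
      have b3 : (q ^ 2 - 196 / 100) * (q ^ 2 + 196 / 100 - 1848 / 1000) ≤ 0 := by
        apply mul_nonpos_of_nonpos_of_nonneg <;> nlinarith
      nlinarith
    nlinarith
  obtain ⟨B, hB⟩ : ∃ B, B = q ^ 2 + q - 1 + 2 * P - 4 * P ^ 2 - 2 * q * P := ⟨_, rfl⟩
  obtain ⟨N, hNd⟩ : ∃ N, N = 4 * P ^ 2 - 2 * P * (q ^ 2 + 1) + q ^ 4 - q ^ 2 + 1 := ⟨_, rfl⟩
  have eB : (4 * P ^ 2 + 2 * q * P - q ^ 2 - 2 * P - q + 1) ^ 2 = B ^ 2 := by rw [hB]; ring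
  rw [eB, ← hNd] at hph
  have hq2 : 196 / 100 ≤ q ^ 2 := by nlinarith
  obtain ⟨d, hd⟩ : ∃ d, d = 1 / 2 - P := ⟨_, rfl⟩
  have d0 : 0 < d := by rw [hd]; linarith
  have eP : P = 1 / 2 - d := by rw [hd]; ring
  obtain ⟨w, hw⟩ : ∃ w, w = q ^ 2 - 1 := ⟨_, rfl⟩
  have w0 : 96 / 100 ≤ w := by rw [hw]; linarith
  -- `B ≥ w + 2 d (q + 2 P)`, `N = w² + d (2 q² - 4 P)`
  have b1 : B = w + d * (2 * q + 4 * P) := by rw [hB, hw, eP]; ring
  have b2 : N = w ^ 2 + d * (2 * q ^ 2 - 4 * P) := by rw [hNd, hw, eP]; ring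
  have b3 : w ^ 2 + 2 * w * (d * (2 * q + 4 * P)) ≤ B ^ 2 := by
    rw [b1]; nlinarith [sq_nonneg (d * (2 * q + 4 * P))]
  have b4 : 638 / 1000 * q ≤ q - P := by linarith
  have b5 : 638 / 1000 * q * (w ^ 2 + 2 * w * (d * (2 * q + 4 * P))) ≤ (q - P) * B ^ 2 :=
    mul_le_mul b4 b3 (by positivity) (by linarith)
  have b6 : d * (2 * q ^ 2 - 4 * P) < 2 * w * (d * (2 * q + 4 * P)) := by
    have : 2 * q ^ 2 - 4 * P < 2 * w * (2 * q + 4 * P) := by nlinarith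
    have := mul_lt_mul_of_pos_left this d0
    linarith
  have b7 : 638 / 1000 * q * N < 638 / 1000 * q * (w ^ 2 + 2 * w * (d * (2 * q + 4 * P))) := by
    apply mul_lt_mul_of_pos_left _ (by positivity)
    rw [b2]; linarith
  nlinarith

/-- `|cos z| ≥ 143/200` there -/
theorem q_ge143 (H : RegQ P q) (hP : 1 / 2 ≤ P)
    (hN : 15876 / 10000 ≤ q * (4 * P ^ 2 - 2 * P * (q ^ 2 + 1) + q ^ 4 - q ^ 2 + 1)) :
    143 / 100 ≤ q := by
  have hqp := H.qp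
  have hPl := H.P_le
  have hq0 := H.q0
  by_contra hc
  push Not at hc
  have a1 : q ^ 2 ≤ 20449 / 10000 := by nlinarith
  have a2 : 4 * P ^ 2 - 2 * P * (q ^ 2 + 1) + q ^ 4 - q ^ 2 + 1 ≤ (q ^ 2 - 1) ^ 2 := by
    have : 0 ≤ (P - 1 / 2) * (2 * (q ^ 2 + 1) - 4 * (P + 1 / 2)) := by
      apply mul_nonneg (by linarith)
      nlinarith
    nlinarith
  have a3 : (q ^ 2 - 1) ^ 2 ≤ (10449 / 10000) ^ 2 :=
    pow_le_pow_left₀ (by linarith) (by linarith) 2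
  have a4 : q * (4 * P ^ 2 - 2 * P * (q ^ 2 + 1) + q ^ 4 - q ^ 2 + 1) ≤
      143 / 100 * (10449 / 10000) ^ 2 :=
    (mul_le_mul_of_nonneg_left (a2.trans a3) hqp.le).trans
      (mul_le_mul_of_nonneg_right hc.le (by positivity))
  norm_num at a4
  linarith

/-- `tan² θ ≤ 455/1000` if `-im cos z ≥ 2377/10000` at the third vertex -/
theorem T455 (H : RegQ P q)
    (hI : (2377 / 10000) ^ 2 ≤ (q - P) / 8 *
      (4 * P ^ 2 + 2 * q * P - q ^ 2 - 2 * P - q + 1) ^ 2) :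
    P ^ 2 ≤ 455 / 1455 * q ^ 2 * (1 - 250 / 1455 * q ^ 2) := by
  have h0 := H.q_ge133
  have h1 := H.q_le166
  have hP0 := H.P_ge424
  have hPl := H.P_le
  have hqp := H.qp
  obtain ⟨L, hL⟩ : ∃ L, L = 6507 / 10000 + 49 / 100 * (q - 16 / 10) := ⟨_, rfl⟩
  obtain ⟨r, hr⟩ : ∃ r, r = q - 133 / 100 := ⟨_, rfl⟩
  have e : q = r + 133 / 100 := by rw [hr]; ring
  have r0 : 0 ≤ r := by rw [hr]; linarith
  -- the line
  have hl : P ≤ L := by
    by_contra hc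
    push Not at hc
    have k1 : 0 ≤ q ^ 2 + q - 1 + 2 * P - 4 * P ^ 2 - 2 * q * P := by
      have := H.hB
      linarith
    have k2 : q ^ 2 + q - 1 + 2 * P - 4 * P ^ 2 - 2 * q * P ≤
        q ^ 2 + q - 1 + 2 * L - 4 * L ^ 2 - 2 * q * L := by
      have : 0 ≤ (P - L) * (4 * (P + L) + 2 * q - 2) := by
        apply mul_nonneg (by linarith)
        rw [hL]
        linarith
      linarith
    have k3 : (q ^ 2 + q - 1 + 2 * P - 4 * P ^ 2 - 2 * q * P) ^ 2 ≤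
        (q ^ 2 + q - 1 + 2 * L - 4 * L ^ 2 - 2 * q * L) ^ 2 := pow_le_pow_left₀ k1 k2 2
    have k4 : (q - P) * (q ^ 2 + q - 1 + 2 * P - 4 * P ^ 2 - 2 * q * P) ^ 2 ≤
        (q - L) * (q ^ 2 + q - 1 + 2 * L - 4 * L ^ 2 - 2 * q * L) ^ 2 :=
      mul_le_mul (by linarith) k3 (by positivity) (by linarith)
    have k5 : (q - L) * (q ^ 2 + q - 1 + 2 * L - 4 * L ^ 2 - 2 * q * L) ^ 2 <
        8 * (2377 / 10000) ^ 2 := by
      have r1 : r ≤ 33 / 100 := by rw [hr]; linarith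
      rw [hL, e]
      linarith [pow_nonneg (sub_nonneg.2 r1) 8,
      mul_nonneg (pow_nonneg r0 1) (pow_nonneg (sub_nonneg.2 r1) 7),
      mul_nonneg (pow_nonneg r0 2) (pow_nonneg (sub_nonneg.2 r1) 6),
      mul_nonneg (pow_nonneg r0 3) (pow_nonneg (sub_nonneg.2 r1) 5),
      mul_nonneg (pow_nonneg r0 4) (pow_nonneg (sub_nonneg.2 r1) 4),
      mul_nonneg (pow_nonneg r0 5) (pow_nonneg (sub_nonneg.2 r1) 3),
      mul_nonneg (pow_nonneg r0 6) (pow_nonneg (sub_nonneg.2 r1) 2),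
      mul_nonneg (pow_nonneg r0 7) (pow_nonneg (sub_nonneg.2 r1) 1),
      pow_nonneg r0 8]
    have k6 : (q - P) / 8 * (4 * P ^ 2 + 2 * q * P - q ^ 2 - 2 * P - q + 1) ^ 2 =
        (q - P) * (q ^ 2 + q - 1 + 2 * P - 4 * P ^ 2 - 2 * q * P) ^ 2 / 8 := by ring
    rw [k6] at hI
    linarith
  have hq : q ≤ 16448 / 10000 := by
    by_contra hc
    push Not at hc
    have := H.P_line2 (by linarith)
    rw [hL] at hl
    linarith
  have h2 : P ^ 2 ≤ L ^ 2 := pow_le_pow_left₀ H.P0 hl 2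
  refine h2.trans ?_
  have r1 : r ≤ 3148 / 10000 := by rw [hr]; linarith
  rw [hL, e]
  linarith [pow_nonneg (sub_nonneg.2 r1) 4,
      mul_nonneg (pow_nonneg r0 1) (pow_nonneg (sub_nonneg.2 r1) 3),
      mul_nonneg (pow_nonneg r0 2) (pow_nonneg (sub_nonneg.2 r1) 2),
      mul_nonneg (pow_nonneg r0 3) (pow_nonneg (sub_nonneg.2 r1) 1),
      pow_nonneg r0 4]

end RegQ

end Pool.Agent.S3.Cl
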