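import Pool.Agent.S3.Cl.E1B
import Pool.Agent.S3.Cl.E3C
import Pool.Agent.S3.Cl.Im2
import Pool.Agent.S3.Cl.TwoReg5

/-!
# Stage 3: (E1) at an inner `2` between a closed end and an inner `2`, low part: the theorem
-/

set_option autoImplicit false

namespace Pool.Agent.S3.Cl

open Complex Pool.Agent.S3
open Pool.Agent.S3.E (Zr uu qe qo bw xx th k2 s2 bo ro be ph In2)

theorem tanh_ge_cub {η : ℝ} (h0 : 0 ≤ η) : η - η ^ 3 / 3 ≤ Real.tanh η := by
  have hd : ∀ x : ℝ, HasDerivAt (fun x => Real.tanh x - (x - x ^ 3 / 3))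
      (x ^ 2 - Real.tanh x ^ 2) x := by
    intro x
    have h1 : HasDerivAt Real.tanh (1 - Real.tanh x ^ 2) x := by
      have h2 := (Real.hasDerivAt_sinh x).div (Real.hasDerivAt_cosh x) (Real.cosh_pos x).ne'
      have e : (fun x => Real.sinh x / Real.cosh x) = Real.tanh := by
        funext x; exact (Real.tanh_eq_sinh_div_cosh x).symm
      have h3 : HasDerivAt Real.tanh
          ((Real.cosh x * Real.cosh x - Real.sinh x * Real.sinh x) / Real.cosh x ^ 2) x := by
        rw [← e]; exact h2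
      convert h3 using 1
      rw [Real.tanh_eq_sinh_div_cosh]
      have hc := (Real.cosh_pos x).ne'
      field_simp
    have h5 := h1.sub ((hasDerivAt_id' x).sub ((hasDerivAt_pow 3 x).div_const 3))
    refine h5.congr_deriv ?_
    norm_num
  have hm : MonotoneOn (fun x => Real.tanh x - (x - x ^ 3 / 3)) (Set.Ici 0) := by
    apply monotoneOn_of_deriv_nonneg (convex_Ici 0)
    · exact fun y _ => (hd y).continuousAt.continuousWithinAt
    · exact fun y _ => (hd y).differentiableAt.differentiableWithinAt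
    · intro y hy
      rw [interior_Ici] at hy
      rw [(hd y).deriv]
      have hy0 : 0 ≤ y := le_of_lt hy
      have h1 : Real.tanh y ≤ y := by
        have := pb_atanh hy0
        have h2 : 0 ≤ Real.tanh y := by
          rw [Real.tanh_eq_sinh_div_cosh]
          exact div_nonneg (Real.sinh_nonneg_iff.2 hy0) (Real.cosh_pos y).le
        have : 0 ≤ Real.tanh y ^ 3 := by positivity
        linarith
      have h2 : 0 ≤ Real.tanh y := by
        rw [Real.tanh_eq_sinh_div_cosh]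
        exact div_nonneg (Real.sinh_nonneg_iff.2 hy0) (Real.cosh_pos y).le
      have := pow_le_pow_left₀ h2 h1 2
      linarith
  have := hm (Set.self_mem_Ici) h0 h0
  simp only [Real.tanh_zero] at this
  norm_num at this
  linarith

/-- **(E1)**, low part -/
theorem e1c_main {R I x θ b P ρ η : ℝ} (hI : 0 < I)
    (ht0 : 0 < Real.tan θ) (ht : Real.tan θ ≤ 7602 / 10000) (hb : 2 * I * b = 5 * I - x)
    (hb0 : 0 < b)
    (hP : 2 * I * P = x * R + θ * I - Real.pi * I) (hP1 : -(9 / 25) * b ≤ P)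
    (hG : I * (2 * Real.pi / 3 - θ - 7 / 3 * (78 / 1000)) ≤ x * (R - 78 / 1000))
    (r0 : 29 / 100 * Real.pi ≤ ρ) (r1 : ρ ≤ 8 / 25 * Real.pi)
    (hη : Real.sinh η = Real.tan θ * Real.cos ρ) :
    b * (η + (Real.pi / 2 - ρ) * (Real.tan ρ * Real.tanh η))
        - (P + Real.pi / 2 * (b - 1)) * (Real.tan ρ * Real.tanh η)
      ≤ 4 / 3 * (η + (Real.pi / 2 - ρ) * (Real.tan ρ * Real.tanh η)) := by
  have hpi := Real.pi_gt_d6
  have hpi' := Real.pi_lt_d6
  have hcρ : 0 < Real.cos ρ := Real.cos_pos_of_mem_Ioo ⟨by linarith, by linarith⟩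
  have hsρ : 0 < Real.sin ρ := Real.sin_pos_of_pos_of_lt_pi (by linarith) (by linarith)
  have hη0 : 0 < η := Real.sinh_pos_iff.1 (by rw [hη]; exact mul_pos ht0 hcρ)
  have hth : 0 < Real.tanh η := by
    rw [Real.tanh_eq_sinh_div_cosh]
    exact div_pos (Real.sinh_pos_iff.2 hη0) (Real.cosh_pos η)
  have htρ : 0 < Real.tan ρ := by rw [Real.tan_eq_sin_div_cos]; exact div_pos hsρ hcρ
  have hT : 0 < Real.tan ρ * Real.tanh η := mul_pos htρ hth
  have g0 : Real.tanh η ≤ η := by
    have := pb_atanh hη0.le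
    have : 0 ≤ Real.tanh η ^ 3 := by positivity
    linarith
  -- `cos ρ`
  have hc1 : Real.cos ρ ≤ 61292 / 100000 := by
    have a1 := Real.cos_le_cos_of_nonneg_of_le_pi (x := 91106 / 100000) (y := ρ) (by norm_num)
      (by linarith) (by linarith)
    have a2 := n_c8 (x := 91106 / 100000) (by norm_num)
    norm_num at a2
    linarith
  -- bounds of `ρ T - η`
  have g1 : ρ * (Real.tan ρ * Real.tanh η) - η ≤ 372 / 1000 * (Real.tan ρ * Real.tanh η) := by
    have k : (ρ - 372 / 1000) * Real.sin ρ ≤ Real.cos ρ := by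
      have a1 := Real.cos_le_cos_of_nonneg_of_le_pi (x := ρ) (y := 100532 / 100000) (by linarith)
        (by linarith) (by linarith)
      have a2 := n_c6 (x := 100532 / 100000) (by norm_num)
      have a3 := Real.sin_le_sin_of_le_of_le_pi_div_two (x := ρ) (y := 100532 / 100000)
        (by linarith) (by linarith) (by linarith)
      have a4 := n_s5 (x := 100532 / 100000) (by norm_num)
      norm_num at a2 a4
      have b1 : (ρ - 372 / 1000) * Real.sin ρ ≤ (63332 / 100000) * (84454 / 100000) :=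
        mul_le_mul (by linarith) (by linarith) hsρ.le (by norm_num)
      norm_num at b1
      linarith
    have k2 : (ρ - 372 / 1000) * Real.tan ρ ≤ 1 := by
      rw [Real.tan_eq_sin_div_cos, ← mul_div_assoc, div_le_one hcρ]
      exact k
    nlinarith [mul_le_mul_of_nonneg_right k2 hth.le]
  have g2 : 78 / 1000 * (Real.tan ρ * Real.tanh η) ≤ ρ * (Real.tan ρ * Real.tanh η) - η := by
    have c2 : η ≤ 4507 / 10000 := by
      by_contra hcon
      push Not at hcon
      have d1 := Real.sinh_lt_sinh.2 hcon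
      have d2 := n_sh5 (x := 4507 / 10000) (by norm_num)
      have d3 : Real.sinh η ≤ 7602 / 10000 * (61292 / 100000) := by
        rw [hη]; exact mul_le_mul ht hc1 hcρ.le (by norm_num)
      norm_num at d2 d3
      linarith
    have c3 := tanh_ge_cub hη0.le
    have c5 : η ≤ 10728 / 10000 * Real.tanh η := by
      have d1 : η ^ 2 ≤ (4507 / 10000) ^ 2 := pow_le_pow_left₀ hη0.le c2 2
      have d2 : η * (1 - (4507 / 10000) ^ 2 / 3) ≤ η - η ^ 3 / 3 := by
        have : η ^ 3 = η * η ^ 2 := by ring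
        rw [this]
        nlinarith
      norm_num at d2
      linarith
    have c6 : 10728 / 10000 ≤ (ρ - 78 / 1000) * Real.tan ρ := by
      rw [Real.tan_eq_sin_div_cos, ← mul_div_assoc, le_div_iff₀ hcρ]
      have a3 := Real.sin_le_sin_of_le_of_le_pi_div_two (x := 91106 / 100000) (y := ρ)
        (by linarith) (by linarith) (by linarith)
      have a4 := n_s7 (x := 91106 / 100000) (by norm_num)
      norm_num at a4
      have b1 : (83306 / 100000) * (79013 / 100000) ≤ (ρ - 78 / 1000) * Real.sin ρ :=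
        mul_le_mul (by linarith) (by linarith) (by norm_num) (by linarith)
      norm_num at b1
      linarith
    nlinarith [mul_le_mul_of_nonneg_right c6 hth.le]
  -- the two cases
  obtain ⟨T, hTd⟩ : ∃ T, T = Real.tan ρ * Real.tanh η := ⟨_, rfl⟩
  rw [← hTd] at g1 g2 hT ⊢
  have h2I : 0 < 2 * I := by linarith
  rcases le_total b (4 / 3) with hc | hc
  · have A2 := mul_le_mul_of_nonneg_left g1 (show 0 ≤ 4 / 3 - b by linarith)
    have A : 372 / 1000 * (4 / 3 - b) ≤ P + Real.pi / 6 := by linarith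
    have A3 := mul_le_mul_of_nonneg_right A hT.le
    nlinarith
  · have B : 0 ≤ P + Real.pi / 6 + 78 / 1000 * (b - 4 / 3) := by
      have e1 : 2 * I * (P + Real.pi / 6 + 78 / 1000 * (b - 4 / 3))
          = x * (R - 78 / 1000) - I * (2 * Real.pi / 3 - θ - 7 / 3 * (78 / 1000)) := by
        have : 2 * I * (P + Real.pi / 6 + 78 / 1000 * (b - 4 / 3)) =
          2 * I * P + 78 / 1000 * (2 * I * b) + Real.pi / 3 * I - 208 / 1000 * I := by ring
        rw [this, hP, hb]
        ring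
      have e2 : 0 ≤ 2 * I * (P + Real.pi / 6 + 78 / 1000 * (b - 4 / 3)) := by rw [e1]; linarith
      exact nonneg_of_mul_nonneg_right e2 h2I
    have B2 := mul_le_mul_of_nonneg_left g2 (show 0 ≤ b - 4 / 3 by linarith)
    have B3 := mul_nonneg B hT.le
    nlinarith

section

variable {ι : Type*} [Finite ι] {a : ι → ℝ} {nl nr : ι → Option ι} {z : ι → ℂ}

/-- the norms: `|κ| cos θ = cos R` -/
theorem kcos (h : Zr a nl nr 1 z) (i : ι) :
    ‖cos (z i)‖ * Real.cos (th (z i).re (z i).im) = Real.cos (z i).re := by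
  have hθ := abs_th h i
  have hθc := Pool.Agent.S3.cos_pos' hθ
  have hcur := curve (x := xx (z i).re (z i).im) hθ
  have hg := h.gd_uu i
  have hRa : Ra (xx (z i).re (z i).im) (th (z i).re (z i).im) = (z i).re := by rw [Ra, hg]
  have hYa : Ya (xx (z i).re (z i).im) (th (z i).re (z i).im) = (z i).im := by rw [Ya, hg]
  rw [hRa, hYa] at hcur
  obtain ⟨hR0, hR1, hI0⟩ := h.pos i
  have hcR : 0 < Real.cos (z i).re := Real.cos_pos_of_mem_Ioo ⟨by linarith, hR1⟩
  apply (sq_eq_sq₀ (mul_nonneg (norm_nonneg _) hθc.le) hcR.le).1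
  have hn : ‖cos (z i)‖ ^ 2 = Real.cos (z i).re ^ 2 + Real.sinh (z i).im ^ 2 := by
    rw [E.norm_cos_sq, E.GeoX_k2, Real.cosh_sq]; ring
  have hsc := Real.sin_sq_add_cos_sq (th (z i).re (z i).im)
  rw [mul_pow, hn]
  have h2 : (Real.sinh (z i).im * Real.cos (th (z i).re (z i).im)) ^ 2 =
      (Real.sin (th (z i).re (z i).im) * Real.cos (z i).re) ^ 2 := by rw [hcur]
  linear_combination h2 + Real.cos (z i).re ^ 2 * hsc

/-- the third vertex is an inner `2`: `P ≥ 1/2` and the norm there is at least `63/100` -/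
theorem two22_reg (h : Zr a nl nr 1 z) (h3 : ∀ i, 3 ≤ a i → a i = 3 ∨ 4 ≤ a i) {i j k : ι}
    (hj : Zr.IsEnd2 a nl nr j i) (ha : a i = 2) (hin : In2 nl nr i)
    (hk : nl i = some k ∨ nr i = some k) (hkj : k ≠ j) (hk2 : a k = 2) (hkin : In2 nl nr k) :
    1 / 2 ≤ -2 * (cos (z i)).im ∧ 143 / 200 ≤ ‖cos (z i)‖ := by
  have H := regQ h hj ha hin
  have hN := regQ_norm h hj ha hk hkj
  have hd := regQ_im h hj ha hk hkj
  have h63 := nb63' h h3 ha hin hk (Or.inl ⟨hk2, hkin⟩)
  have hk3 : (63 / 100) ^ 2 ≤ ‖cos (z k)‖ ^ 2 := pow_le_pow_left₀ (by norm_num) h63 2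
  have hph := h.two_ph_le hk2 hkin
  have hph0 := h.phpos k
  have hB := h.conj_im_ph k
  have hpi := Real.pi_gt_three
  have hs : Real.sin (ph (z k).re (z k).im) ^ 2 ≤ 319 / 1000 := by
    have a1 : Real.sin (ph (z k).re (z k).im) ≤ Real.sin (3 / 5) :=
      Real.sin_le_sin_of_le_of_le_pi_div_two (by linarith) (by linarith) hph
    have a2 := n_s5 (x := 3 / 5) (by norm_num)
    norm_num at a2
    have a3 : 0 ≤ Real.sin (ph (z k).re (z k).im) :=
      Real.sin_nonneg_of_nonneg_of_le_pi hph0.le (by linarith)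
    nlinarith
  have hN2 : 15876 / 10000 ≤ 2 * ‖cos (z i)‖ * (4 * (-2 * (cos (z i)).im) ^ 2 -
      2 * (-2 * (cos (z i)).im) * ((2 * ‖cos (z i)‖) ^ 2 + 1) + (2 * ‖cos (z i)‖) ^ 4 -
      (2 * ‖cos (z i)‖) ^ 2 + 1) := by
    linarith
  have hI2 : (2 * ‖cos (z i)‖ - (-2 * (cos (z i)).im)) / 8 *
      (4 * (-2 * (cos (z i)).im) ^ 2 + 2 * (2 * ‖cos (z i)‖) * (-2 * (cos (z i)).im)
      - (2 * ‖cos (z i)‖) ^ 2 - 2 * (-2 * (cos (z i)).im) - 2 * ‖cos (z i)‖ + 1) ^ 2 ≤
      319 / 1000 * (2 * ‖cos (z i)‖ * (4 * (-2 * (cos (z i)).im) ^ 2 -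
      2 * (-2 * (cos (z i)).im) * ((2 * ‖cos (z i)‖) ^ 2 + 1) + (2 * ‖cos (z i)‖) ^ 4 -
      (2 * ‖cos (z i)‖) ^ 2 + 1) / 4) := by
    rw [← hd, hB, mul_pow]
    have : ‖cos (z k)‖ ^ 2 * Real.sin (ph (z k).re (z k).im) ^ 2 ≤ ‖cos (z k)‖ ^ 2 * (319 / 1000) :=
      mul_le_mul_of_nonneg_left hs (sq_nonneg _)
    linarith
  have h5 := H.P_ge50 hN2 hI2
  have h6 := H.q_ge143 h5 hN2
  exact ⟨h5, by linarith⟩

/-- **An inner `2` between a closed end and an inner `2`**: `tan θ ≥ 1/2`, `|cos z| ≥ 143/200`,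
`b ≥ 4/5` and `7463/10000 ≤ R ≤ 3π/10`. -/
theorem two22_end2 (h : Zr a nl nr 1 z) (h3 : ∀ i, 3 ≤ a i → a i = 3 ∨ 4 ≤ a i) {i j k : ι}
    (hj : Zr.IsEnd2 a nl nr j i) (ha : a i = 2) (hin : In2 nl nr i)
    (hk : nl i = some k ∨ nr i = some k) (hkj : k ≠ j) (hk2 : a k = 2) (hkin : In2 nl nr k) :
    1 / 2 ≤ Real.tan (th (z i).re (z i).im) ∧ 143 / 200 ≤ ‖cos (z i)‖ ∧
      4 / 5 ≤ bw (z i) (z k) ∧ 7463 / 10000 ≤ (z i).re ∧ (z i).re ≤ 3 / 10 * Real.pi ∧
      Real.tan (th (z i).re (z i).im) ^ 2 ≤ 5779 / 10000 := by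
  have ho : (a k = 2 ∧ In2 nl nr k) ∨ a k = 3 ∨ 4 ≤ a k := Or.inl ⟨hk2, hkin⟩
  have D := endDat h hj ha hk hkj ho
  obtain ⟨hP, hK143⟩ := two22_reg h h3 hj ha hin hk hkj hk2 hkin
  have hR30 := re_le30_end2 h h3 hj ha hin hk hkj ho
  have ht := (tan_end2 h hj ha hin hk hkj).2 (Or.inl ⟨hk2, hkin⟩)
  have hθc := D.cosθ_pos
  have htn := D.tan_nn
  have htan : 1 / 2 ≤ Real.tan (th (z i).re (z i).im) := by
    have hk := h.k2pos i
    have ec := E.cos_two_th (h.pos i).1 (h.pos i).2.1 (h.pos i).2.2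
    have e2 := s2_sq h i
    have e3 := s2_nn h i
    rw [k2_eq h i] at hk ec
    set K := ‖cos (z i)‖ with hK
    set P := -2 * (cos (z i)).im with hPd
    have h2 : 1 - 3 / 5 * K ^ 2 ≤ s2 (z i).re (z i).im := by
      by_contra hc
      push Not at hc
      have h3 : s2 (z i).re (z i).im ^ 2 < (1 - 3 / 5 * K ^ 2) ^ 2 :=
        pow_lt_pow_left₀ hc e3 two_ne_zero
      rw [e2] at h3
      nlinarith [sq_nonneg (K ^ 2 - 5 / 8)]
    have h4 : Real.cos (2 * th (z i).re (z i).im) ≤ 3 / 5 := by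
      rw [ec, div_le_iff₀ hk]
      linarith
    rw [Real.cos_two_mul] at h4
    have h5 : Real.cos (th (z i).re (z i).im) ^ 2 * (1 + Real.tan (th (z i).re (z i).im) ^ 2)
        = 1 := by
      have h1 := Real.sin_sq_add_cos_sq (th (z i).re (z i).im)
      have h2 : Real.tan (th (z i).re (z i).im) ^ 2 * Real.cos (th (z i).re (z i).im) ^ 2 =
          Real.sin (th (z i).re (z i).im) ^ 2 := by
        rw [← mul_pow, Real.tan_mul_cos hθc.ne']
      linarith
    apply le_of_sq_le_sq _ htn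
    nlinarith [sq_nonneg (Real.tan (th (z i).re (z i).im))]
  refine ⟨htan, hK143, ?_, D.R_ge, hR30, ht⟩
  -- `b ≥ 4/5`
  have hpi := Real.pi_gt_d4
  have hpi2 := Real.pi_lt_d4
  have hR0 := D.R0
  have hx := D.x1
  have hb := D.hb
  have hI0 := D.I0
  have hC := D.hC
  have e : Real.sinh (z i).im = Real.tan (th (z i).re (z i).im) * Real.cos (z i).re := by
    rw [Real.tan_eq_sin_div_cos, div_mul_eq_mul_div, eq_div_iff hθc.ne']
    exact hC
  have c1 : 5877 / 10000 ≤ Real.cos (z i).re := by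
    have a1 := Real.cos_le_cos_of_nonneg_of_le_pi (x := (z i).re) (y := 9425 / 10000)
      hR0.le (by linarith) (by linarith)
    have a2 := n_c6 (x := 9425 / 10000) (by norm_num)
    norm_num at a2
    linarith
  have c2 : 5877 / 20000 ≤ Real.sinh (z i).im := by
    rw [e]
    have := mul_le_mul htan c1 (by norm_num) htn
    linarith
  have c3 : 2839 / 10000 ≤ (z i).im := by
    by_contra hcon
    push Not at hcon
    have a1 := Real.sinh_lt_sinh.2 hcon
    have a2 := pb_sh8 (x := 2839 / 10000) (by norm_num) (by norm_num)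
    norm_num at a2
    linarith
  have c4 : 2 * (z i).im * (4 / 5) ≤ 2 * (z i).im * bw (z i) (z k) := by rw [hb]; linarith
  exact le_of_mul_le_mul_left c4 (by linarith)

/-- **(E1)** at an inner `2` between a closed end and an inner `2`: `r(ρ) ≤ (4/3) S₂(ρ)` on
`[29π/100, 8π/25]`. -/
theorem e1b_end2 (h : Zr a nl nr 1 z) (h3 : ∀ i, 3 ≤ a i → a i = 3 ∨ 4 ≤ a i) {i j k : ι}
    (hj : Zr.IsEnd2 a nl nr j i) (ha : a i = 2) (hin : In2 nl nr i)
    (hk : nl i = some k ∨ nr i = some k) (hkj : k ≠ j) (hk2 : a k = 2) (hkin : In2 nl nr k)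
    {ρ η : ℝ} (r0 : 29 / 100 * Real.pi ≤ ρ) (r1 : ρ ≤ 8 / 25 * Real.pi)
    (hη : Real.sinh η = Real.tan (th (z i).re (z i).im) * Real.cos ρ) :
    bw (z i) (z k) * (η + (Real.pi / 2 - ρ) * (Real.tan ρ * Real.tanh η))
        - (bw (z i) (z k) * (Real.pi / 2 - (z i).re) - (qe (z i) (z k)).im)
          * (Real.tan ρ * Real.tanh η)
      ≤ 4 / 3 * (η + (Real.pi / 2 - ρ) * (Real.tan ρ * Real.tanh η)) := by
  have ho : (a k = 2 ∧ In2 nl nr k) ∨ a k = 3 ∨ 4 ≤ a k := Or.inl ⟨hk2, hkin⟩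
  have D := endDat h hj ha hk hkj ho
  have H := regQ h hj ha hin
  obtain ⟨htan, -, -, -, -, ht⟩ := two22_end2 h h3 hj ha hin hk hkj hk2 hkin
  have hθc := D.cosθ_pos
  have hpi := Real.pi_gt_three
  have hK := kcos h i
  have hKp := h.norm_pos i
  have hcR : 0 < Real.cos (z i).re := Real.cos_pos_of_mem_Ioo ⟨by linarith [D.R0], D.R1⟩
  -- the range of `θ`
  have t0 : 46 / 100 ≤ th (z i).re (z i).im := by
    by_contra hc
    push Not at hc
    have a1 : Real.sin (th (z i).re (z i).im) ≤ Real.sin (46 / 100) :=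
      Real.sin_le_sin_of_le_of_le_pi_div_two (by linarith [D.θ0]) (by linarith) hc.le
    have a2 : Real.cos (46 / 100) ≤ Real.cos (th (z i).re (z i).im) :=
      Real.cos_le_cos_of_nonneg_of_le_pi (by linarith [D.θ0]) (by linarith) hc.le
    have a3 := n_s5 (x := 46 / 100) (by norm_num)
    have a4 := n_c6 (x := 46 / 100) (by norm_num)
    norm_num at a3 a4
    rw [Real.tan_eq_sin_div_cos, le_div_iff₀ hθc] at htan
    linarith
  have t1 : th (z i).re (z i).im ≤ 6525 / 10000 := by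
    by_contra hc
    push Not at hc
    have a1 := n_tan_ge (R := th (z i).re (z i).im) (R0 := 6525 / 10000) (t := 761 / 1000)
      (by norm_num) hc.le (by linarith [D.θ1]) (by norm_num) (by norm_num)
    have a2 : 761 / 1000 ≤ Real.tan (th (z i).re (z i).im) := by
      rw [Real.tan_eq_sin_div_cos, le_div_iff₀ hθc]; exact a1
    have a3 : (761 / 1000) ^ 2 ≤ Real.tan (th (z i).re (z i).im) ^ 2 :=
      pow_le_pow_left₀ (by norm_num) a2 2
    norm_num at a3
    linarith
  -- `K X = sin R`, `K s = sinh I`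
  have hS := D.hS
  have hC := D.hC
  have e1 : ‖cos (z i)‖ * Real.sinh (xx (z i).re (z i).im) = Real.sin (z i).re := by
    have : Real.cos (z i).re * (‖cos (z i)‖ * Real.sinh (xx (z i).re (z i).im)) =
        Real.cos (z i).re * Real.sin (z i).re := by
      linear_combination (-‖cos (z i)‖) * hS + Real.sin (z i).re * hK
    exact mul_left_cancel₀ hcR.ne' this
  have e2 : ‖cos (z i)‖ * Real.sin (th (z i).re (z i).im) = Real.sinh (z i).im := by
    have : Real.cos (th (z i).re (z i).im) * (‖cos (z i)‖ * Real.sin (th (z i).re (z i).im)) =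
        Real.cos (th (z i).re (z i).im) * Real.sinh (z i).im := by
      linear_combination Real.sin (th (z i).re (z i).im) * hK - hC
    exact mul_left_cancel₀ hθc.ne' this
  have hsc := Real.sin_sq_add_cos_sq (th (z i).re (z i).im)
  have hscR := Real.sin_sq_add_cos_sq (z i).re
  have e3 : ‖cos (z i)‖ ^ 2 * (1 - Real.sin (th (z i).re (z i).im) ^ 2 +
      Real.sinh (xx (z i).re (z i).im) ^ 2) = 1 := by
    have : 1 - Real.sin (th (z i).re (z i).im) ^ 2 = Real.cos (th (z i).re (z i).im) ^ 2 := by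
      linarith
    rw [this]
    have k1 : ‖cos (z i)‖ ^ 2 * Real.cos (th (z i).re (z i).im) ^ 2 = Real.cos (z i).re ^ 2 := by
      rw [← mul_pow, hK]
    have k2 : ‖cos (z i)‖ ^ 2 * Real.sinh (xx (z i).re (z i).im) ^ 2 = Real.sin (z i).re ^ 2 := by
      rw [← mul_pow, e1]
    linarith
  have him : (cos (z i)).im = -(Real.sin (z i).re * Real.sinh (z i).im) := by
    have := Zr.conj_cos_im (z := z i)
    rw [conj_im] at this
    linarith
  have e4 : -2 * (cos (z i)).im = 2 * ‖cos (z i)‖ ^ 2 * Real.sin (th (z i).re (z i).im) *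
      Real.sinh (xx (z i).re (z i).im) := by
    rw [him, ← e1, ← e2]; ring
  have hs0 : 443 / 1000 ≤ Real.sin (th (z i).re (z i).im) := by
    have a1 : Real.sin (46 / 100) ≤ Real.sin (th (z i).re (z i).im) :=
      Real.sin_le_sin_of_le_of_le_pi_div_two (by linarith) (by linarith) t0
    have a3 := n_s3 (x := 46 / 100) (by norm_num)
    norm_num at a3
    linarith
  have hs1 : Real.sin (th (z i).re (z i).im) ≤ 608 / 1000 := by
    have a1 : Real.sin (th (z i).re (z i).im) ≤ Real.sin (6525 / 10000) :=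
      Real.sin_le_sin_of_le_of_le_pi_div_two (by linarith) (by linarith) t1
    have a3 := n_s5 (x := 6525 / 10000) (by norm_num)
    norm_num at a3
    linarith
  have hX := e1b_X hKp e3 e4 (Real.sinh_nonneg_iff.2 (by linarith [D.x0])) hs0 (by linarith)
    (by linarith [H.q_le166]) H.P_line2
  have hG := e1b_G D.R0 D.R1 D.hS D.hY t0 t1 hX
  have htp : 0 < Real.tan (th (z i).re (z i).im) := by linarith
  have ht1 : Real.tan (th (z i).re (z i).im) ≤ 7602 / 10000 :=
    tan_le_sq ht (by norm_num) (by norm_num)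
  have k1 := e1c_main D.I0 htp ht1 D.hb D.b0 D.hP D.P0 hG r0 r1 hη
  have e : bw (z i) (z k) * (Real.pi / 2 - (z i).re) - (qe (z i) (z k)).im
      = (Real.pi / 2 - (qe (z i) (z k)).im - bw (z i) (z k) * (z i).re)
        + Real.pi / 2 * (bw (z i) (z k) - 1) := by ring
  rw [e]
  exact k1

end

end Pool.Agent.S3.Cl
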