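import Pool.Agent.S3.Cl.E1C

/-!
# Stage 3: (E1) at an inner `2` between a closed end and a vertex with at least three twists
-/

set_option autoImplicit false

namespace Pool.Agent.S3.Cl

open Complex Pool.Agent.S3
open Pool.Agent.S3.E (Zr uu qe qo bw xx th k2 s2 bo ro be ph In2)

section

variable {R I x θ : ℝ}

theorem e1d_x (h0 : 1 / 2 ≤ θ) (h1 : θ ≤ 668 / 1000)
    (hX : 8834 / 10000 + 286 / 1000 * (Real.sin θ - 54 / 100) ≤ Real.sinh x) :
    785 / 1000 + 175 / 1000 * (θ - 51 / 100) ≤ x := by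
  apply Real.sinh_le_sinh.1
  have h2 := pb_sh8 (x := 785 / 1000 + 175 / 1000 * (θ - 51 / 100)) (by linarith) (by linarith)
  have h3 := n_s7 (x := θ) (by linarith)
  refine h2.trans (le_trans ?_ hX)
  refine le_trans ?_ (by linarith : 8834 / 10000 + 286 / 1000 * ((θ - θ ^ 3 / 6 + θ ^ 5 / 120
    - θ ^ 7 / 5040) - 54 / 100) ≤ _)
  obtain ⟨r, hr⟩ : ∃ r, r = θ - 1 / 2 := ⟨_, rfl⟩
  have e : θ = r + 1 / 2 := by rw [hr]; ring
  have r0 : 0 ≤ r := by rw [hr]; linarith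
  have r1 : r ≤ 168 / 1000 := by rw [hr]; linarith
  rw [e]
  linarith [pow_nonneg (sub_nonneg.2 r1) 8,
    mul_nonneg (pow_nonneg r0 1) (pow_nonneg (sub_nonneg.2 r1) 7),
    mul_nonneg (pow_nonneg r0 2) (pow_nonneg (sub_nonneg.2 r1) 6),
    mul_nonneg (pow_nonneg r0 3) (pow_nonneg (sub_nonneg.2 r1) 5),
    mul_nonneg (pow_nonneg r0 4) (pow_nonneg (sub_nonneg.2 r1) 4),
    mul_nonneg (pow_nonneg r0 5) (pow_nonneg (sub_nonneg.2 r1) 3),
    mul_nonneg (pow_nonneg r0 6) (pow_nonneg (sub_nonneg.2 r1) 2),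
    mul_nonneg (pow_nonneg r0 7) (pow_nonneg (sub_nonneg.2 r1) 1),
    pow_nonneg r0 8]

theorem e1d_R (hR0 : 0 < R) (hR1 : R < Real.pi / 2)
    (hS : Real.sin R * Real.cos θ = Real.sinh x * Real.cos R) (h0 : 1 / 2 ≤ θ)
    (h1 : θ ≤ 668 / 1000)
    (hX : 8834 / 10000 + 286 / 1000 * (Real.sin θ - 54 / 100) ≤ Real.sinh x) :
    7818 / 10000 + 45 / 100 * (θ - 51 / 100) ≤ R := by
  have hpi := Real.pi_gt_three
  by_contra hc
  push Not at hc
  obtain ⟨y, hy⟩ : ∃ y, y = 7818 / 10000 + 45 / 100 * (θ - 51 / 100) := ⟨_, rfl⟩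
  rw [← hy] at hc
  have y1 : y ≤ 86 / 100 := by rw [hy]; linarith
  have hcθ : 0 < Real.cos θ := Real.cos_pos_of_mem_Ioo ⟨by linarith, by linarith⟩
  have h3 := n_s7 (x := θ) (by linarith)
  have c4 := n_c4 (x := θ) (by linarith)
  have s5 := n_s5 (x := y) (by linarith)
  have c6 := n_c6 (x := y) (by linarith)
  have b1 : Real.sin R < Real.sin y :=
    Real.sin_lt_sin_of_lt_of_le_pi_div_two (by linarith) (by linarith) hc
  have b2 : Real.cos y < Real.cos R :=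
    Real.cos_lt_cos_of_nonneg_of_le_pi hR0.le (by linarith) hc
  obtain ⟨M, hM⟩ : ∃ M, M = 8834 / 10000 + 286 / 1000 * ((θ - θ ^ 3 / 6 + θ ^ 5 / 120
    - θ ^ 7 / 5040) - 54 / 100) := ⟨_, rfl⟩
  have hM0 : 0 ≤ M := by
    have : 0 ≤ (θ - θ ^ 3 / 6 + θ ^ 5 / 120 - θ ^ 7 / 5040) := by
      have a1 : θ ^ 3 ≤ θ := by
        have : θ ^ 2 ≤ 1 := by nlinarith
        nlinarith
      have a2 : θ ^ 7 ≤ θ ^ 5 := by
        have : θ ^ 2 ≤ 1 := by nlinarith
        have h5 : 0 ≤ θ ^ 5 := by positivity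
        nlinarith
      have h5 : 0 ≤ θ ^ 5 := by positivity
      linarith
    rw [hM]; linarith
  have hMX : M ≤ Real.sinh x := by rw [hM]; linarith
  have key : (y - y ^ 3 / 6 + y ^ 5 / 120) * (1 - θ ^ 2 / 2 + θ ^ 4 / 24) ≤
      M * (1 - y ^ 2 / 2 + y ^ 4 / 24 - y ^ 6 / 720) := by
    obtain ⟨r, hr⟩ : ∃ r, r = θ - 1 / 2 := ⟨_, rfl⟩
    have e : θ = r + 1 / 2 := by rw [hr]; ring
    have r0 : 0 ≤ r := by rw [hr]; linarith
    have r1 : r ≤ 168 / 1000 := by rw [hr]; linarith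
    rw [hM, hy, e]
    linarith [pow_nonneg (sub_nonneg.2 r1) 13,
      mul_nonneg (pow_nonneg r0 1) (pow_nonneg (sub_nonneg.2 r1) 12),
      mul_nonneg (pow_nonneg r0 2) (pow_nonneg (sub_nonneg.2 r1) 11),
      mul_nonneg (pow_nonneg r0 3) (pow_nonneg (sub_nonneg.2 r1) 10),
      mul_nonneg (pow_nonneg r0 4) (pow_nonneg (sub_nonneg.2 r1) 9),
      mul_nonneg (pow_nonneg r0 5) (pow_nonneg (sub_nonneg.2 r1) 8),
      mul_nonneg (pow_nonneg r0 6) (pow_nonneg (sub_nonneg.2 r1) 7),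
      mul_nonneg (pow_nonneg r0 7) (pow_nonneg (sub_nonneg.2 r1) 6),
      mul_nonneg (pow_nonneg r0 8) (pow_nonneg (sub_nonneg.2 r1) 5),
      mul_nonneg (pow_nonneg r0 9) (pow_nonneg (sub_nonneg.2 r1) 4),
      mul_nonneg (pow_nonneg r0 10) (pow_nonneg (sub_nonneg.2 r1) 3),
      mul_nonneg (pow_nonneg r0 11) (pow_nonneg (sub_nonneg.2 r1) 2),
      mul_nonneg (pow_nonneg r0 12) (pow_nonneg (sub_nonneg.2 r1) 1),
      pow_nonneg r0 13]
  have hsy : 0 ≤ Real.sin y := Real.sin_nonneg_of_nonneg_of_le_pi (by linarith) (by linarith)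
  have d1 : Real.sin R * Real.cos θ < Real.sin y * Real.cos θ := mul_lt_mul_of_pos_right b1 hcθ
  have d2 : Real.sin y * Real.cos θ ≤
      (y - y ^ 3 / 6 + y ^ 5 / 120) * (1 - θ ^ 2 / 2 + θ ^ 4 / 24) :=
    mul_le_mul s5 c4 hcθ.le (hsy.trans s5)
  have d3 : M * (1 - y ^ 2 / 2 + y ^ 4 / 24 - y ^ 6 / 720) ≤ Real.sinh x * Real.cos R := by
    have e1 : M * (1 - y ^ 2 / 2 + y ^ 4 / 24 - y ^ 6 / 720) ≤ M * Real.cos R :=
      mul_le_mul_of_nonneg_left (by linarith) hM0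
    have hcR : 0 ≤ Real.cos R := Real.cos_nonneg_of_mem_Icc ⟨by linarith, hR1.le⟩
    exact e1.trans (mul_le_mul_of_nonneg_right hMX hcR)
  linarith

theorem e1d_I (hY : Real.sin θ * Real.cosh I = Real.sinh I * Real.cosh x)
    (h0 : 1 / 2 ≤ θ) (h1 : θ ≤ 668 / 1000)
    (hx : 785 / 1000 + 175 / 1000 * (θ - 51 / 100) ≤ x) :
    I ≤ 3877 / 10000 + 698 / 1000 * (θ - 51 / 100) := by
  obtain ⟨y, hy⟩ : ∃ y, y = 3877 / 10000 + 698 / 1000 * (θ - 51 / 100) := ⟨_, rfl⟩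
  rw [← hy]
  have y0 : 0 ≤ y := by rw [hy]; linarith
  have y1 : y ≤ 1 := by rw [hy]; linarith
  obtain ⟨u, hu⟩ : ∃ u, u = 785 / 1000 + 175 / 1000 * (θ - 51 / 100) := ⟨_, rfl⟩
  rw [← hu] at hx
  have u0 : 0 ≤ u := by rw [hu]; linarith
  have s1 := n_s5 (x := θ) (by linarith)
  have c1 := pb_ch6 y0 y1
  have h5 := n_sh5 y0
  have c2 := n_ch4 u0
  have hsy0 : 0 ≤ Real.sinh y := Real.sinh_nonneg_iff.2 y0
  have hsθ : 0 ≤ Real.sin θ :=
    Real.sin_nonneg_of_nonneg_of_le_pi (by linarith) (by linarith [Real.pi_gt_three])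
  have hcux : Real.cosh u ≤ Real.cosh x := by
    apply Real.cosh_le_cosh.2
    rw [abs_of_nonneg u0, abs_of_nonneg (by linarith)]
    exact hx
  -- the key inequality
  have key : Real.sin θ * Real.cosh y < Real.sinh y * Real.cosh x := by
    have k1 : Real.sin θ * Real.cosh y ≤ (θ - θ ^ 3 / 6 + θ ^ 5 / 120) *
        (1 + y ^ 2 / 2 + y ^ 4 / 24 + 7 / 4320 * y ^ 6) :=
      mul_le_mul s1 c1 (Real.cosh_pos y).le (hsθ.trans s1)
    have k2 : (θ - θ ^ 3 / 6 + θ ^ 5 / 120) *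
        (1 + y ^ 2 / 2 + y ^ 4 / 24 + 7 / 4320 * y ^ 6)
        < (y + y ^ 3 / 6 + y ^ 5 / 120) * (1 + u ^ 2 / 2 + u ^ 4 / 24) := by
      obtain ⟨r, hr⟩ : ∃ r, r = θ - 1 / 2 := ⟨_, rfl⟩
      have e : θ = r + 1 / 2 := by rw [hr]; ring
      have r0 : 0 ≤ r := by rw [hr]; linarith
      have r1 : r ≤ 168 / 1000 := by rw [hr]; linarith
      rw [hy, hu, e]
      linarith [pow_nonneg (sub_nonneg.2 r1) 11,
        mul_nonneg (pow_nonneg r0 1) (pow_nonneg (sub_nonneg.2 r1) 10),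
        mul_nonneg (pow_nonneg r0 2) (pow_nonneg (sub_nonneg.2 r1) 9),
        mul_nonneg (pow_nonneg r0 3) (pow_nonneg (sub_nonneg.2 r1) 8),
        mul_nonneg (pow_nonneg r0 4) (pow_nonneg (sub_nonneg.2 r1) 7),
        mul_nonneg (pow_nonneg r0 5) (pow_nonneg (sub_nonneg.2 r1) 6),
        mul_nonneg (pow_nonneg r0 6) (pow_nonneg (sub_nonneg.2 r1) 5),
        mul_nonneg (pow_nonneg r0 7) (pow_nonneg (sub_nonneg.2 r1) 4),
        mul_nonneg (pow_nonneg r0 8) (pow_nonneg (sub_nonneg.2 r1) 3),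
        mul_nonneg (pow_nonneg r0 9) (pow_nonneg (sub_nonneg.2 r1) 2),
        mul_nonneg (pow_nonneg r0 10) (pow_nonneg (sub_nonneg.2 r1) 1),
        pow_nonneg r0 11]
    have k3 : (y + y ^ 3 / 6 + y ^ 5 / 120) * (1 + u ^ 2 / 2 + u ^ 4 / 24) ≤
        Real.sinh y * Real.cosh x :=
      mul_le_mul h5 (c2.trans hcux) (by positivity) hsy0
    linarith
  by_contra hc
  push Not at hc
  have hs : 0 < Real.sinh (I - y) := Real.sinh_pos_iff.2 (by linarith)
  rw [Real.sinh_sub] at hs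
  have hcI := Real.cosh_pos I
  have hcx := Real.cosh_pos x
  have a1 : Real.sin θ * Real.cosh y * Real.cosh I = Real.sinh I * Real.cosh y * Real.cosh x := by
    linear_combination (Real.cosh y) * hY
  have a2 : Real.cosh I * Real.sinh y * Real.cosh x < Real.sinh I * Real.cosh y * Real.cosh x :=
    mul_lt_mul_of_pos_right (by linarith) hcx
  have a4 : Real.sin θ * Real.cosh y * Real.cosh I < Real.sinh y * Real.cosh x * Real.cosh I :=
    mul_lt_mul_of_pos_right key hcI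
  linarith

/-- `2 I (P + 3π/20 + (33/100)(b - 13/10)) ≥ 0` -/
theorem e1d_G (hR0 : 0 < R) (hR1 : R < Real.pi / 2)
    (hS : Real.sin R * Real.cos θ = Real.sinh x * Real.cos R)
    (hY : Real.sin θ * Real.cosh I = Real.sinh I * Real.cosh x)
    (h0 : 1 / 2 ≤ θ) (h1 : θ ≤ 668 / 1000)
    (hX : 8834 / 10000 + 286 / 1000 * (Real.sin θ - 54 / 100) ≤ Real.sinh x) :
    I * (7 / 10 * Real.pi - θ - 24 / 10 * (33 / 100)) ≤ x * (R - 33 / 100) := by
  have hpi := Real.pi_gt_d4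
  have hpi2 := Real.pi_lt_d4
  have a1 := e1d_x h0 h1 hX
  have a2 := e1d_R hR0 hR1 hS h0 h1 hX
  have a3 := e1d_I hY h0 h1 a1
  have b1 : (785 / 1000 + 175 / 1000 * (θ - 51 / 100)) *
      (7818 / 10000 + 45 / 100 * (θ - 51 / 100) - 33 / 100) ≤ x * (R - 33 / 100) :=
    mul_le_mul a1 (by linarith) (by linarith) (by linarith)
  have b2 : I * (7 / 10 * Real.pi - θ - 24 / 10 * (33 / 100)) ≤
      (3877 / 10000 + 698 / 1000 * (θ - 51 / 100)) *
      (7 / 10 * (31416 / 10000) - θ - 24 / 10 * (33 / 100)) :=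
    mul_le_mul a3 (by linarith) (by linarith) (by linarith)
  refine b2.trans (le_trans ?_ b1)
  obtain ⟨r, hr⟩ : ∃ r, r = θ - 1 / 2 := ⟨_, rfl⟩
  have e : θ = r + 1 / 2 := by rw [hr]; ring
  have r0 : 0 ≤ r := by rw [hr]; linarith
  have r1 : r ≤ 168 / 1000 := by rw [hr]; linarith
  rw [e]
  linarith [pow_nonneg (sub_nonneg.2 r1) 2,
    mul_nonneg (pow_nonneg r0 1) (pow_nonneg (sub_nonneg.2 r1) 1),
    pow_nonneg r0 2]

end

/-- **(E1)** with `13/10` -/
theorem e1d_main {R I x θ b P ρ η : ℝ} (hI : 0 < I)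
    (ht0 : 0 < Real.tan θ) (ht : Real.tan θ ≤ 7862 / 10000) (hb : 2 * I * b = 5 * I - x)
    (hP : 2 * I * P = x * R + θ * I - Real.pi * I)
    (hG : I * (7 / 10 * Real.pi - θ - 24 / 10 * (33 / 100)) ≤ x * (R - 33 / 100))
    (hx : x ≤ 193 / 200) (hR : 7773 / 10000 ≤ R) (hIl : 3178 / 10000 ≤ I) (hθ : 1 / 2 ≤ θ)
    (r0 : 8 / 25 * Real.pi ≤ ρ) (r1 : ρ ≤ 2 / 5 * Real.pi)
    (hη : Real.sinh η = Real.tan θ * Real.cos ρ) :
    b * (η + (Real.pi / 2 - ρ) * (Real.tan ρ * Real.tanh η))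
        - (P + Real.pi / 2 * (b - 1)) * (Real.tan ρ * Real.tanh η)
      ≤ 13 / 10 * (η + (Real.pi / 2 - ρ) * (Real.tan ρ * Real.tanh η)) := by
  have hpi := Real.pi_gt_d6
  have hpi' := Real.pi_lt_d6
  have hcρ : 0 < Real.cos ρ := Real.cos_pos_of_mem_Ioo ⟨by linarith, by linarith⟩
  have hsρ : 0 < Real.sin ρ := Real.sin_pos_of_pos_of_lt_pi (by linarith) (by linarith)
  have hη0 : 0 < η := Real.sinh_pos_iff.1 (by rw [hη]; exact mul_pos ht0 hcρ)
  have hth : 0 < Real.tanh η := by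
    rw [Real.tanh_eq_sinh_div_cosh]
    exact div_pos (Real.sinh_pos_iff.2 hη0) (Real.cosh_pos η)
  have htρ : 0 < Real.tan ρ := by rw [Real.tan_eq_sin_div_cos]; exact div_pos hsρ hcρ
  have hT : 0 < Real.tan ρ * Real.tanh η := mul_pos htρ hth
  have g0 : Real.tanh η ≤ η := by
    have := pb_atanh hη0.le
    have : 0 ≤ Real.tanh η ^ 3 := by positivity
    linarith
  -- `cos ρ`
  have hc1 : Real.cos ρ ≤ 53584 / 100000 := by
    have a1 := Real.cos_le_cos_of_nonneg_of_le_pi (x := 10053 / 10000) (y := ρ) (by norm_num)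
      (by linarith) (by linarith)
    have a2 := n_c8 (x := 10053 / 10000) (by norm_num)
    norm_num at a2
    linarith
  -- bounds of `ρ T - η`
  have g1 : ρ * (Real.tan ρ * Real.tanh η) - η ≤ 932 / 1000 * (Real.tan ρ * Real.tanh η) := by
    have k := e1_g1 r0 r1
    have k2 : (ρ - 932 / 1000) * Real.tan ρ ≤ 1 := by
      rw [Real.tan_eq_sin_div_cos, ← mul_div_assoc, div_le_one hcρ]
      exact k
    nlinarith [mul_le_mul_of_nonneg_right k2 hth.le]
  have g2 : 33 / 100 * (Real.tan ρ * Real.tanh η) ≤ ρ * (Real.tan ρ * Real.tanh η) - η := by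
    have c2 : η ≤ 41 / 100 := by
      by_contra hcon
      push Not at hcon
      have d1 := Real.sinh_lt_sinh.2 hcon
      have d2 := n_sh5 (x := 41 / 100) (by norm_num)
      have d3 : Real.sinh η ≤ 7862 / 10000 * (53584 / 100000) := by
        rw [hη]; exact mul_le_mul ht hc1 hcρ.le (by norm_num)
      norm_num at d2 d3
      linarith
    have c3 := tanh_ge_cub hη0.le
    have c5 : η ≤ 106 / 100 * Real.tanh η := by
      have d1 : η ^ 2 ≤ (41 / 100) ^ 2 := pow_le_pow_left₀ hη0.le c2 2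
      have d2 : η * (1 - (41 / 100) ^ 2 / 3) ≤ η - η ^ 3 / 3 := by
        have : η ^ 3 = η * η ^ 2 := by ring
        rw [this]
        nlinarith
      norm_num at d2
      linarith
    have c6 : 106 / 100 ≤ (ρ - 33 / 100) * Real.tan ρ := by
      rw [Real.tan_eq_sin_div_cos, ← mul_div_assoc, le_div_iff₀ hcρ]
      have a3 := Real.sin_le_sin_of_le_of_le_pi_div_two (x := 10053 / 10000) (y := ρ)
        (by linarith) (by linarith) (by linarith)
      have a4 := n_s7 (x := 10053 / 10000) (by norm_num)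
      norm_num at a4
      have b1 : (6753 / 10000) * (84430 / 100000) ≤ (ρ - 33 / 100) * Real.sin ρ :=
        mul_le_mul (by linarith) (by linarith) (by norm_num) (by linarith)
      norm_num at b1
      linarith
    nlinarith [mul_le_mul_of_nonneg_right c6 hth.le]
  -- the two cases
  obtain ⟨T, hTd⟩ : ∃ T, T = Real.tan ρ * Real.tanh η := ⟨_, rfl⟩
  rw [← hTd] at g1 g2 hT ⊢
  have h2I : 0 < 2 * I := by linarith
  rcases le_total b (13 / 10) with hc | hc
  · have A2 := mul_le_mul_of_nonneg_left g1 (show 0 ≤ 13 / 10 - b by linarith)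
    have A : 0 ≤ P + 3 / 20 * Real.pi - 932 / 1000 * (13 / 10 - b) := by
      have e1 : 2 * I * (P + 3 / 20 * Real.pi - 932 / 1000 * (13 / 10 - b))
          = I * (θ + (22368 / 10000 - 7 / 10 * Real.pi)) - x * (932 / 1000 - R) := by
        have : 2 * I * (P + 3 / 20 * Real.pi - 932 / 1000 * (13 / 10 - b)) =
          2 * I * P + 932 / 1000 * (2 * I * b) + 3 / 10 * Real.pi * I - 24232 / 10000 * I := by ring
        rw [this, hP, hb]
        ring
      have e2 : 0 ≤ 2 * I * (P + 3 / 20 * Real.pi - 932 / 1000 * (13 / 10 - b)) := by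
        rw [e1]
        have e3 : x * (932 / 1000 - R) ≤ 193 / 200 * (1547 / 10000) := by
          rcases le_total R (932 / 1000) with hh | hh
          · exact mul_le_mul hx (by linarith) (by linarith) (by norm_num)
          · rcases le_total 0 x with hx0 | hx0
            · have := mul_nonpos_of_nonneg_of_nonpos hx0 (show 932 / 1000 - R ≤ 0 by linarith)
              linarith
            · exfalso
              nlinarith
        have e4 : 3178 / 10000 * (5376 / 10000) ≤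
            I * (θ + (22368 / 10000 - 7 / 10 * Real.pi)) :=
          mul_le_mul hIl (by linarith) (by norm_num) hI.le
        linarith
      exact nonneg_of_mul_nonneg_right e2 h2I
    have A3 := mul_nonneg A hT.le
    linarith
  · have B : 0 ≤ P + 3 / 20 * Real.pi + 33 / 100 * (b - 13 / 10) := by
      have e1 : 2 * I * (P + 3 / 20 * Real.pi + 33 / 100 * (b - 13 / 10))
          = x * (R - 33 / 100) - I * (7 / 10 * Real.pi - θ - 24 / 10 * (33 / 100)) := by
        have : 2 * I * (P + 3 / 20 * Real.pi + 33 / 100 * (b - 13 / 10)) =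
          2 * I * P + 33 / 100 * (2 * I * b) + 3 / 10 * Real.pi * I - 858 / 1000 * I := by ring
        rw [this, hP, hb]
        ring
      have e2 : 0 ≤ 2 * I * (P + 3 / 20 * Real.pi + 33 / 100 * (b - 13 / 10)) := by
        rw [e1]; linarith
      exact nonneg_of_mul_nonneg_right e2 h2I
    have B2 := mul_le_mul_of_nonneg_left g2 (show 0 ≤ b - 13 / 10 by linarith)
    have B3 := mul_nonneg B hT.le
    linarith

end Pool.Agent.S3.Cl
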