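import Pool.Agent.S3.Cl.TwoReg5

/-!
# Stage 3: closed ends next to an inner `2` whose other neighbour has at least three twists
-/

set_option autoImplicit false

namespace Pool.Agent.S3.Cl

namespace RegQ

variable {P q : ℝ}

/-- `P ≥ 11/20` if `φ ≤ 9/20` at the third vertex -/
theorem P_ge55 (H : RegQ P q)
    (hN : 15876 / 10000 ≤ q * (4 * P ^ 2 - 2 * P * (q ^ 2 + 1) + q ^ 4 - q ^ 2 + 1))
    (hph : (q - P) / 8 * (4 * P ^ 2 + 2 * q * P - q ^ 2 - 2 * P - q + 1) ^ 2 ≤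
      1893 / 10000 * (q * (4 * P ^ 2 - 2 * P * (q ^ 2 + 1) + q ^ 4 - q ^ 2 + 1) / 4)) :
    11 / 20 ≤ P := by
  have h50 := H.P_ge50 hN (by linarith)
  have hq := H.q_ge143 h50 hN
  have hq166 := H.q_le166
  have hqp := H.qp
  have hq2 : q ^ 2 ≤ 2756 / 1000 := by nlinarith
  have hq3 : 2 ≤ q ^ 2 := by nlinarith
  by_contra hc
  push Not at hc
  obtain ⟨B, hB⟩ : ∃ B, B = q ^ 2 + q - 1 + 2 * P - 4 * P ^ 2 - 2 * q * P := ⟨_, rfl⟩
  obtain ⟨N, hNd⟩ : ∃ N, N = 4 * P ^ 2 - 2 * P * (q ^ 2 + 1) + q ^ 4 - q ^ 2 + 1 := ⟨_, rfl⟩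
  have eB : (4 * P ^ 2 + 2 * q * P - q ^ 2 - 2 * P - q + 1) ^ 2 = B ^ 2 := by rw [hB]; ring
  rw [eB, ← hNd] at hph
  obtain ⟨d, hd⟩ : ∃ d, d = 11 / 20 - P := ⟨_, rfl⟩
  have d0 : 0 < d := by rw [hd]; linarith
  have eP : P = 11 / 20 - d := by rw [hd]; ring
  obtain ⟨B0, hB0⟩ : ∃ B0, B0 = q ^ 2 + q - 1 + 2 * (11 / 20) - 4 * (11 / 20) ^ 2
    - 2 * q * (11 / 20) := ⟨_, rfl⟩
  obtain ⟨N0, hN0⟩ : ∃ N0, N0 = 4 * (11 / 20) ^ 2 - 2 * (11 / 20) * (q ^ 2 + 1) + q ^ 4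
    - q ^ 2 + 1 := ⟨_, rfl⟩
  have b1 : B = B0 + d * (4 * (P + 11 / 20) + 2 * q - 2) := by rw [hB, hB0, eP]; ring
  have b2 : N = N0 + d * (2 * (q ^ 2 + 1) - 4 * (P + 11 / 20)) := by rw [hNd, hN0, eP]; ring
  have hB0p : 79 / 100 ≤ B0 := by
    rw [hB0]
    linarith [mul_nonneg hqp.le (sub_nonneg.2 hq)]
  have b3 : B0 ^ 2 + 2 * B0 * (d * (4 * (P + 11 / 20) + 2 * q - 2)) ≤ B ^ 2 := by
    rw [b1]; nlinarith [sq_nonneg (d * (4 * (P + 11 / 20) + 2 * q - 2))]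
  have b4 : 3786 / 10000 * (q * N0) < (q - 11 / 20) * B0 ^ 2 := by
    obtain ⟨r, hr⟩ : ∃ r, r = q - 143 / 100 := ⟨_, rfl⟩
    have e : q = r + 143 / 100 := by rw [hr]; ring
    have r0 : 0 ≤ r := by rw [hr]; linarith
    have r1 : r ≤ 23 / 100 := by rw [hr]; linarith
    rw [hB0, hN0, e]
    linarith [pow_nonneg (sub_nonneg.2 r1) 5,
      mul_nonneg (pow_nonneg r0 1) (pow_nonneg (sub_nonneg.2 r1) 4),
      mul_nonneg (pow_nonneg r0 2) (pow_nonneg (sub_nonneg.2 r1) 3),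
      mul_nonneg (pow_nonneg r0 3) (pow_nonneg (sub_nonneg.2 r1) 2),
      mul_nonneg (pow_nonneg r0 4) (pow_nonneg (sub_nonneg.2 r1) 1),
      pow_nonneg r0 5]
  have b5 : (q - 11 / 20) * (B0 ^ 2 + 2 * B0 * (d * (4 * (P + 11 / 20) + 2 * q - 2))) ≤
      (q - P) * B ^ 2 := by
    have e1 : 0 ≤ d * (4 * (P + 11 / 20) + 2 * q - 2) := mul_nonneg d0.le (by linarith)
    exact mul_le_mul (by linarith) b3 (by positivity) (by linarith)
  have b6 : 3786 / 10000 * (q * (d * (2 * (q ^ 2 + 1) - 4 * (P + 11 / 20)))) ≤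
      (q - 11 / 20) * (2 * B0 * (d * (4 * (P + 11 / 20) + 2 * q - 2))) := by
    have e1 : q * (2 * (q ^ 2 + 1) - 4 * (P + 11 / 20)) ≤ 17 / 10 * (2 * (3756 / 1000) - 42 / 10) :=
      mul_le_mul (by linarith) (by linarith) (by linarith) (by norm_num)
    have e2 : 88 / 100 * (2 * (79 / 100) * (506 / 100)) ≤
        (q - 11 / 20) * (2 * B0 * (4 * (P + 11 / 20) + 2 * q - 2)) := by
      apply mul_le_mul (by linarith) _ (by norm_num) (by linarith)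
      apply mul_le_mul (by linarith) (by linarith) (by norm_num) (by linarith)
    have e3 : 3786 / 10000 * (q * (2 * (q ^ 2 + 1) - 4 * (P + 11 / 20))) ≤
        (q - 11 / 20) * (2 * B0 * (4 * (P + 11 / 20) + 2 * q - 2)) := by
      linarith
    have e4 := mul_le_mul_of_nonneg_left e3 d0.le
    linarith
  have b7 : (q - P) * B ^ 2 ≤ 3786 / 10000 * (q * N) := by linarith
  rw [b2] at b7
  linarith

/-- the argument: `P / q ≥ 338/1000` -/
theorem phq (H : RegQ P q) (hP : 11 / 20 ≤ P) : 338 / 1000 * q ≤ P := by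
  rcases le_total q (1621 / 1000) with h | h
  · linarith
  · have h1 := H.P_line2 (by linarith)
    have := H.q_le166
    linarith

end RegQ

end Pool.Agent.S3.Cl
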