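import Pool.Agent.S3.Cl.E1D
import Pool.Agent.S3.Cl.TwoReg6

/-!
# Stage 3: an inner `2` between a closed end and a vertex with at least three twists
-/

set_option autoImplicit false

namespace Pool.Agent.S3.Cl

open Complex Pool.Agent.S3
open Pool.Agent.S3.E (Zr uu qe qo bw xx th k2 s2 bo ro be ph In2)

variable {ι : Type*} [Finite ι] {a : ι → ℝ} {nl nr : ι → Option ι} {z : ι → ℂ}

theorem him_cos (h : Zr a nl nr 1 z) (i : ι) :
    (cos (z i)).im = -(Real.sin (z i).re * Real.sinh (z i).im) := by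
  have := Zr.conj_cos_im (z := z i)
  rw [conj_im] at this
  linarith

/-- `K sinh x = sin R`, `K sin θ = sinh I`, `K² (1 - sin² θ + sinh² x) = 1` -/
theorem k_ids (h : Zr a nl nr 1 z) (i : ι) :
    ‖cos (z i)‖ * Real.sinh (xx (z i).re (z i).im) = Real.sin (z i).re ∧
    ‖cos (z i)‖ * Real.sin (th (z i).re (z i).im) = Real.sinh (z i).im ∧
    ‖cos (z i)‖ ^ 2 * (1 - Real.sin (th (z i).re (z i).im) ^ 2 +
      Real.sinh (xx (z i).re (z i).im) ^ 2) = 1 ∧
    -2 * (cos (z i)).im = 2 * ‖cos (z i)‖ ^ 2 * Real.sin (th (z i).re (z i).im) *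
      Real.sinh (xx (z i).re (z i).im) := by
  have hK := kcos h i
  have hθ := abs_th h i
  have hθc := Pool.Agent.S3.cos_pos' hθ
  obtain ⟨hR0, hR1, hI0⟩ := h.pos i
  have hcR : 0 < Real.cos (z i).re := Real.cos_pos_of_mem_Ioo ⟨by linarith, hR1⟩
  obtain ⟨hS, -⟩ := ids h i
  have hg := h.gd_uu i
  have hRa : Ra (xx (z i).re (z i).im) (th (z i).re (z i).im) = (z i).re := by rw [Ra, hg]
  have hYa : Ya (xx (z i).re (z i).im) (th (z i).re (z i).im) = (z i).im := by rw [Ya, hg]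
  have hC := curve (x := xx (z i).re (z i).im) hθ
  rw [hRa, hYa] at hC
  have e1 : ‖cos (z i)‖ * Real.sinh (xx (z i).re (z i).im) = Real.sin (z i).re := by
    have : Real.cos (z i).re * (‖cos (z i)‖ * Real.sinh (xx (z i).re (z i).im)) =
        Real.cos (z i).re * Real.sin (z i).re := by
      linear_combination (-‖cos (z i)‖) * hS + Real.sin (z i).re * hK
    exact mul_left_cancel₀ hcR.ne' this
  have e2 : ‖cos (z i)‖ * Real.sin (th (z i).re (z i).im) = Real.sinh (z i).im := by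
    have : Real.cos (th (z i).re (z i).im) * (‖cos (z i)‖ * Real.sin (th (z i).re (z i).im)) =
        Real.cos (th (z i).re (z i).im) * Real.sinh (z i).im := by
      linear_combination Real.sin (th (z i).re (z i).im) * hK - hC
    exact mul_left_cancel₀ hθc.ne' this
  have hsc := Real.sin_sq_add_cos_sq (th (z i).re (z i).im)
  have hscR := Real.sin_sq_add_cos_sq (z i).re
  have e3 : ‖cos (z i)‖ ^ 2 * (1 - Real.sin (th (z i).re (z i).im) ^ 2 +
      Real.sinh (xx (z i).re (z i).im) ^ 2) = 1 := by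
    have : 1 - Real.sin (th (z i).re (z i).im) ^ 2 = Real.cos (th (z i).re (z i).im) ^ 2 := by
      linarith
    rw [this]
    have k1 : ‖cos (z i)‖ ^ 2 * Real.cos (th (z i).re (z i).im) ^ 2 = Real.cos (z i).re ^ 2 := by
      rw [← mul_pow, hK]
    have k2 : ‖cos (z i)‖ ^ 2 * Real.sinh (xx (z i).re (z i).im) ^ 2 = Real.sin (z i).re ^ 2 := by
      rw [← mul_pow, e1]
    linarith
  refine ⟨e1, e2, e3, ?_⟩
  rw [him_cos h i, ← e1, ← e2]; ring

/-- `P ≤ tan θ`, `P = -2 im cos z` -/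
theorem P_le_tan (h : Zr a nl nr 1 z) (i : ι) :
    -2 * (cos (z i)).im ≤ Real.tan (th (z i).re (z i).im) := by
  have hθ := abs_th h i
  have hθc := Pool.Agent.S3.cos_pos' hθ
  obtain ⟨hR0, hR1, hI0⟩ := h.pos i
  have hg := h.gd_uu i
  have hRa : Ra (xx (z i).re (z i).im) (th (z i).re (z i).im) = (z i).re := by rw [Ra, hg]
  have hYa : Ya (xx (z i).re (z i).im) (th (z i).re (z i).im) = (z i).im := by rw [Ya, hg]
  have hC := curve (x := xx (z i).re (z i).im) hθ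
  rw [hRa, hYa] at hC
  have e : Real.sinh (z i).im = Real.tan (th (z i).re (z i).im) * Real.cos (z i).re := by
    rw [Real.tan_eq_sin_div_cos, div_mul_eq_mul_div, eq_div_iff hθc.ne']
    exact hC
  have ht : 0 ≤ Real.tan (th (z i).re (z i).im) := by
    by_contra hc
    push Not at hc
    have h1 : 0 < Real.sinh (z i).im := Real.sinh_pos_iff.2 hI0
    have hcR : 0 < Real.cos (z i).re := Real.cos_pos_of_mem_Ioo ⟨by linarith, hR1⟩
    rw [e] at h1
    nlinarith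
  rw [him_cos h i, e]
  have e2 : -2 * -(Real.sin (z i).re * (Real.tan (th (z i).re (z i).im) * Real.cos (z i).re)) =
      Real.sin (2 * (z i).re) * Real.tan (th (z i).re (z i).im) := by
    rw [Real.sin_two_mul]; ring
  rw [e2]
  have := mul_le_mul_of_nonneg_right (Real.sin_le_one (2 * (z i).re)) ht
  linarith

/-- the third vertex has at least three twists: `P ≥ 11/20` -/
theorem two23_reg (h : Zr a nl nr 1 z) (h3 : ∀ i, 3 ≤ a i → a i = 3 ∨ 4 ≤ a i) {i j k : ι}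
    (hj : Zr.IsEnd2 a nl nr j i) (ha : a i = 2) (hin : In2 nl nr i)
    (hk : nl i = some k ∨ nr i = some k) (hkj : k ≠ j) (hk3 : 3 ≤ a k) :
    11 / 20 ≤ -2 * (cos (z i)).im ∧ 143 / 200 ≤ ‖cos (z i)‖ ∧
      338 / 1000 * (2 * ‖cos (z i)‖) ≤ -2 * (cos (z i)).im := by
  have H := regQ h hj ha hin
  have hN := regQ_norm h hj ha hk hkj
  have hd := regQ_im h hj ha hk hkj
  have h63 := nb63' h h3 ha hin hk (Or.inr (h3 k hk3))
  have hk3' : (63 / 100) ^ 2 ≤ ‖cos (z k)‖ ^ 2 := pow_le_pow_left₀ (by norm_num) h63 2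
  have hph := h.ph3_le hk3
  have hph0 := h.phpos k
  have hB := h.conj_im_ph k
  have hpi := Real.pi_gt_three
  have hs : Real.sin (ph (z k).re (z k).im) ^ 2 ≤ 1893 / 10000 := by
    have a1 : Real.sin (ph (z k).re (z k).im) ≤ Real.sin (9 / 20) :=
      Real.sin_le_sin_of_le_of_le_pi_div_two (by linarith) (by linarith) hph
    have a2 := n_s5 (x := 9 / 20) (by norm_num)
    norm_num at a2
    have a3 : 0 ≤ Real.sin (ph (z k).re (z k).im) :=
      Real.sin_nonneg_of_nonneg_of_le_pi hph0.le (by linarith)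
    have a4 : Real.sin (ph (z k).re (z k).im) ≤ 43497 / 100000 := by linarith
    have a5 := pow_le_pow_left₀ a3 a4 2
    norm_num at a5 ⊢
    linarith
  have hN2 : 15876 / 10000 ≤ 2 * ‖cos (z i)‖ * (4 * (-2 * (cos (z i)).im) ^ 2 -
      2 * (-2 * (cos (z i)).im) * ((2 * ‖cos (z i)‖) ^ 2 + 1) + (2 * ‖cos (z i)‖) ^ 4 -
      (2 * ‖cos (z i)‖) ^ 2 + 1) := by
    linarith
  have hI2 : (2 * ‖cos (z i)‖ - (-2 * (cos (z i)).im)) / 8 *
      (4 * (-2 * (cos (z i)).im) ^ 2 + 2 * (2 * ‖cos (z i)‖) * (-2 * (cos (z i)).im)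
      - (2 * ‖cos (z i)‖) ^ 2 - 2 * (-2 * (cos (z i)).im) - 2 * ‖cos (z i)‖ + 1) ^ 2 ≤
      1893 / 10000 * (2 * ‖cos (z i)‖ * (4 * (-2 * (cos (z i)).im) ^ 2 -
      2 * (-2 * (cos (z i)).im) * ((2 * ‖cos (z i)‖) ^ 2 + 1) + (2 * ‖cos (z i)‖) ^ 4 -
      (2 * ‖cos (z i)‖) ^ 2 + 1) / 4) := by
    rw [← hd, hB, mul_pow]
    have : ‖cos (z k)‖ ^ 2 * Real.sin (ph (z k).re (z k).im) ^ 2 ≤
        ‖cos (z k)‖ ^ 2 * (1893 / 10000) :=
      mul_le_mul_of_nonneg_left hs (sq_nonneg _)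
    linarith
  have h5 := H.P_ge55 hN2 hI2
  have h6 := H.q_ge143 (by linarith) hN2
  exact ⟨h5, by linarith, H.phq h5⟩

/-- the range of `θ` and the lower bound of `sinh x` -/
theorem two23_X (h : Zr a nl nr 1 z) (h3 : ∀ i, 3 ≤ a i → a i = 3 ∨ 4 ≤ a i) {i j k : ι}
    (hj : Zr.IsEnd2 a nl nr j i) (ha : a i = 2) (hin : In2 nl nr i)
    (hk : nl i = some k ∨ nr i = some k) (hkj : k ≠ j) (hk3 : 3 ≤ a k) :
    11 / 20 ≤ Real.tan (th (z i).re (z i).im) ∧ 1 / 2 ≤ th (z i).re (z i).im ∧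
      th (z i).re (z i).im ≤ 668 / 1000 ∧
      8834 / 10000 + 286 / 1000 * (Real.sin (th (z i).re (z i).im) - 54 / 100) ≤
        Real.sinh (xx (z i).re (z i).im) := by
  have ho : (a k = 2 ∧ In2 nl nr k) ∨ a k = 3 ∨ 4 ≤ a k := Or.inr (h3 k hk3)
  have D := endDat h hj ha hk hkj ho
  have H := regQ h hj ha hin
  obtain ⟨hP, -, -⟩ := two23_reg h h3 hj ha hin hk hkj hk3
  have htan : 11 / 20 ≤ Real.tan (th (z i).re (z i).im) := hP.trans (P_le_tan h i)
  have ht := (tan_end2 h hj ha hin hk hkj).1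
  have hθc := D.cosθ_pos
  have hpi := Real.pi_gt_three
  have t0 : 1 / 2 ≤ th (z i).re (z i).im := by
    by_contra hc
    push Not at hc
    have a1 : Real.sin (th (z i).re (z i).im) ≤ Real.sin (1 / 2) :=
      Real.sin_le_sin_of_le_of_le_pi_div_two (by linarith [D.θ0]) (by linarith) hc.le
    have a2 : Real.cos (1 / 2) ≤ Real.cos (th (z i).re (z i).im) :=
      Real.cos_le_cos_of_nonneg_of_le_pi (by linarith [D.θ0]) (by linarith) hc.le
    have a3 := n_s5 (x := 1 / 2) (by norm_num)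
    have a4 := n_c6 (x := 1 / 2) (by norm_num)
    norm_num at a3 a4 a1 a2
    rw [Real.tan_eq_sin_div_cos, le_div_iff₀ hθc] at htan
    linarith
  have t1 : th (z i).re (z i).im ≤ 668 / 1000 := by
    by_contra hc
    push Not at hc
    have a1 := n_tan_ge (R := th (z i).re (z i).im) (R0 := 668 / 1000) (t := 7862 / 10000)
      (by norm_num) hc.le (by linarith [D.θ1]) (by norm_num) (by norm_num)
    have a2 : 7862 / 10000 ≤ Real.tan (th (z i).re (z i).im) := by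
      rw [Real.tan_eq_sin_div_cos, le_div_iff₀ hθc]; exact a1
    have a3 : (7862 / 10000) ^ 2 ≤ Real.tan (th (z i).re (z i).im) ^ 2 :=
      pow_le_pow_left₀ (by norm_num) a2 2
    norm_num at a3
    linarith
  refine ⟨htan, t0, t1, ?_⟩
  obtain ⟨-, -, e3, e4⟩ := k_ids h i
  have hs0 : 443 / 1000 ≤ Real.sin (th (z i).re (z i).im) := by
    have a1 : Real.sin (1 / 2) ≤ Real.sin (th (z i).re (z i).im) :=
      Real.sin_le_sin_of_le_of_le_pi_div_two (by linarith) (by linarith) t0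
    have a3 := n_s3 (x := 1 / 2) (by norm_num)
    norm_num at a3 a1
    linarith
  have hs1 : Real.sin (th (z i).re (z i).im) ≤ 62 / 100 := by
    have a1 : Real.sin (th (z i).re (z i).im) ≤ Real.sin (668 / 1000) :=
      Real.sin_le_sin_of_le_of_le_pi_div_two (by linarith) (by linarith) t1
    have a3 := n_s5 (x := 668 / 1000) (by norm_num)
    norm_num at a3 a1
    linarith
  exact e1b_X (h.norm_pos i) e3 e4 (Real.sinh_nonneg_iff.2 (by linarith [D.x0])) hs0 hs1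
    (by linarith [H.q_le166]) H.P_line2

/-- **An inner `2` between a closed end and a vertex with at least three twists**:
`tan θ ≥ 11/20`, `θ ≥ 1/2`, `|cos z| ≥ 143/200`, `b ≥ 19/20`, `7773/10000 ≤ R ≤ 3π/10`,
`(338/1000) |cos z| ≤ -im cos z`, `I ≥ 3178/10000`. -/
theorem two23_end2 (h : Zr a nl nr 1 z) (h3 : ∀ i, 3 ≤ a i → a i = 3 ∨ 4 ≤ a i) {i j k : ι}
    (hj : Zr.IsEnd2 a nl nr j i) (ha : a i = 2) (hin : In2 nl nr i)
    (hk : nl i = some k ∨ nr i = some k) (hkj : k ≠ j) (hk3 : 3 ≤ a k) :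
    11 / 20 ≤ Real.tan (th (z i).re (z i).im) ∧ 1 / 2 ≤ th (z i).re (z i).im ∧
      143 / 200 ≤ ‖cos (z i)‖ ∧ 19 / 20 ≤ bw (z i) (z k) ∧ 7773 / 10000 ≤ (z i).re ∧
      (z i).re ≤ 3 / 10 * Real.pi ∧
      338 / 1000 * ‖cos (z i)‖ ≤ ((starRingEnd ℂ) (cos (z i))).im ∧ 3178 / 10000 ≤ (z i).im := by
  have ho : (a k = 2 ∧ In2 nl nr k) ∨ a k = 3 ∨ 4 ≤ a k := Or.inr (h3 k hk3)
  have D := endDat h hj ha hk hkj ho
  obtain ⟨hP, hK, hph⟩ := two23_reg h h3 hj ha hin hk hkj hk3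
  obtain ⟨htan, t0, t1, hX⟩ := two23_X h h3 hj ha hin hk hkj hk3
  have hR30 := re_le30_end2 h h3 hj ha hin hk hkj ho
  have hR := e1d_R D.R0 D.R1 D.hS t0 t1 hX
  have hθc := D.cosθ_pos
  have hpi := Real.pi_gt_d4
  have hpi2 := Real.pi_lt_d4
  have e : Real.sinh (z i).im = Real.tan (th (z i).re (z i).im) * Real.cos (z i).re := by
    rw [Real.tan_eq_sin_div_cos, div_mul_eq_mul_div, eq_div_iff hθc.ne']
    exact D.hC
  have c1 : 5877 / 10000 ≤ Real.cos (z i).re := by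
    have a1 := Real.cos_le_cos_of_nonneg_of_le_pi (x := (z i).re) (y := 9425 / 10000)
      D.R0.le (by linarith) (by linarith)
    have a2 := n_c6 (x := 9425 / 10000) (by norm_num)
    norm_num at a2
    linarith
  have c2 : 11 / 20 * (5877 / 10000) ≤ Real.sinh (z i).im := by
    rw [e]
    exact mul_le_mul htan c1 (by norm_num) D.tan_nn
  have c3 : 3178 / 10000 ≤ (z i).im := by
    by_contra hcon
    push Not at hcon
    have a1 := Real.sinh_lt_sinh.2 hcon
    have a2 := pb_sh8 (x := 3178 / 10000) (by norm_num) (by norm_num)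
    norm_num at a2 c2
    linarith
  have hb := D.hb
  have hx := D.x1
  have c4 : 2 * (z i).im * (19 / 20) ≤ 2 * (z i).im * bw (z i) (z k) := by rw [hb]; linarith
  refine ⟨htan, t0, hK, le_of_mul_le_mul_left c4 (by linarith), by linarith, hR30, ?_, c3⟩
  rw [conj_im]
  linarith

/-- **(E1)** at an inner `2` between a closed end and a vertex with at least three twists:
`r(ρ) ≤ (13/10) S₂(ρ)` on `[8π/25, 2π/5]`. -/
theorem e1d_end2 (h : Zr a nl nr 1 z) (h3 : ∀ i, 3 ≤ a i → a i = 3 ∨ 4 ≤ a i) {i j k : ι}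
    (hj : Zr.IsEnd2 a nl nr j i) (ha : a i = 2) (hin : In2 nl nr i)
    (hk : nl i = some k ∨ nr i = some k) (hkj : k ≠ j) (hk3 : 3 ≤ a k)
    {ρ η : ℝ} (r0 : 8 / 25 * Real.pi ≤ ρ) (r1 : ρ ≤ 2 / 5 * Real.pi)
    (hη : Real.sinh η = Real.tan (th (z i).re (z i).im) * Real.cos ρ) :
    bw (z i) (z k) * (η + (Real.pi / 2 - ρ) * (Real.tan ρ * Real.tanh η))
        - (bw (z i) (z k) * (Real.pi / 2 - (z i).re) - (qe (z i) (z k)).im)
          * (Real.tan ρ * Real.tanh η)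
      ≤ 13 / 10 * (η + (Real.pi / 2 - ρ) * (Real.tan ρ * Real.tanh η)) := by
  have ho : (a k = 2 ∧ In2 nl nr k) ∨ a k = 3 ∨ 4 ≤ a k := Or.inr (h3 k hk3)
  have D := endDat h hj ha hk hkj ho
  obtain ⟨htan, t0, t1, hX⟩ := two23_X h h3 hj ha hin hk hkj hk3
  obtain ⟨-, -, -, -, hR, -, -, hI⟩ := two23_end2 h h3 hj ha hin hk hkj hk3
  have hG := e1d_G D.R0 D.R1 D.hS D.hY t0 t1 hX
  have ht := (tan_end2 h hj ha hin hk hkj).1
  have ht1 : Real.tan (th (z i).re (z i).im) ≤ 7862 / 10000 :=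
    tan_le_sq ht (by norm_num) (by norm_num)
  have k1 := e1d_main D.I0 (by linarith) ht1 D.hb D.hP hG D.x1 hR hI t0 r0 r1 hη
  have e : bw (z i) (z k) * (Real.pi / 2 - (z i).re) - (qe (z i) (z k)).im
      = (Real.pi / 2 - (qe (z i) (z k)).im - bw (z i) (z k) * (z i).re)
        + Real.pi / 2 * (bw (z i) (z k) - 1) := by ring
  rw [e]
  exact k1

end Pool.Agent.S3.Cl
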