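import Pool.Agent.S3.Cl.Num

/-!
# Stage 3: (E3) at an inner `2` next to a closed end: series and lines
-/

set_option autoImplicit false

namespace Pool.Agent.S3.Cl

private theorem nPos' {f f' : ℝ → ℝ} (hd : ∀ x, HasDerivAt f (f' x) x) (h0 : f 0 = 0)
    (hp : ∀ x, 0 ≤ x → 0 ≤ f' x) {x : ℝ} (hx : 0 ≤ x) : 0 ≤ f x := by
  have hm : MonotoneOn f (Set.Ici 0) := by
    apply monotoneOn_of_deriv_nonneg (convex_Ici 0)
    · exact fun y _ => (hd y).continuousAt.continuousWithinAt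
    · exact fun y _ => (hd y).differentiableAt.differentiableWithinAt
    · intro y hy
      rw [interior_Ici] at hy
      rw [(hd y).deriv]
      exact hp y (le_of_lt hy)
  have := hm (Set.self_mem_Ici) hx hx
  rwa [h0] at this

theorem n_s7 {x : ℝ} (hx : 0 ≤ x) :
    x - x ^ 3 / 6 + x ^ 5 / 120 - x ^ 7 / 5040 ≤ Real.sin x := by
  have h := nPos' (f := fun x => Real.sin x - (x - x ^ 3 / 6 + x ^ 5 / 120 - x ^ 7 / 5040))
    (f' := fun x => Real.cos x - (1 - x ^ 2 / 2 + x ^ 4 / 24 - x ^ 6 / 720))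
    (fun x => by
      have h1 := (Real.hasDerivAt_sin x).sub ((((hasDerivAt_id' x).sub
        ((hasDerivAt_pow 3 x).div_const 6)).add ((hasDerivAt_pow 5 x).div_const 120)).sub
        ((hasDerivAt_pow 7 x).div_const 5040))
      refine h1.congr_deriv ?_
      norm_num
      try ring)
    (by simp) (fun x hx => by have := n_c6 hx; linarith) hx
  linarith

theorem n_c8 {x : ℝ} (hx : 0 ≤ x) :
    Real.cos x ≤ 1 - x ^ 2 / 2 + x ^ 4 / 24 - x ^ 6 / 720 + x ^ 8 / 40320 := by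
  have h := nPos' (f := fun x => (1 - x ^ 2 / 2 + x ^ 4 / 24 - x ^ 6 / 720 + x ^ 8 / 40320)
      - Real.cos x)
    (f' := fun x => Real.sin x - (x - x ^ 3 / 6 + x ^ 5 / 120 - x ^ 7 / 5040))
    (fun x => by
      have h1 := ((((((hasDerivAt_const x (1 : ℝ)).sub ((hasDerivAt_pow 2 x).div_const 2)).add
        ((hasDerivAt_pow 4 x).div_const 24)).sub ((hasDerivAt_pow 6 x).div_const 720)).add
        ((hasDerivAt_pow 8 x).div_const 40320))).sub (Real.hasDerivAt_cos x)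
      refine h1.congr_deriv ?_
      norm_num
      try ring)
    (by simp) (fun x hx => by have := n_s7 hx; linarith) hx
  linarith

theorem pb_sh8 {x : ℝ} (h0 : 0 ≤ x) (h1 : x ≤ 1) :
    Real.sinh x ≤ x + x ^ 3 / 6 + x ^ 5 / 120 + x ^ 7 / 5040 + 9 / 322560 * x ^ 8 := by
  have e1 := Real.exp_bound (x := x) (by rw [abs_of_nonneg h0]; exact h1) (n := 8) (by norm_num)
  have e2 := Real.exp_bound (x := -x) (by rw [abs_neg, abs_of_nonneg h0]; exact h1) (n := 8)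
    (by norm_num)
  rw [abs_neg] at e2
  rw [abs_of_nonneg h0] at e1 e2
  have f1 := (abs_le.1 e1).2
  have f2 := (abs_le.1 e2).1
  norm_num [Finset.sum_range_succ, Nat.factorial] at f1 f2
  rw [Real.sinh_eq]
  linarith

/-- the tangent of `sinh` -/
theorem sh_tan {η I : ℝ} (h0 : 0 ≤ η) (h : η ≤ I) :
    Real.sinh I - Real.sinh η ≤ Real.cosh I * (I - η) := by
  have hm : AntitoneOn (fun y => Real.sinh y - Real.cosh I * y) (Set.Icc 0 I) := by
    apply antitoneOn_of_deriv_nonpos (convex_Icc 0 I)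
    · exact (Real.continuous_sinh.sub (continuous_const.mul continuous_id)).continuousOn
    · intro y _
      exact ((Real.hasDerivAt_sinh y).sub
        ((hasDerivAt_id' y).const_mul (Real.cosh I))).differentiableAt.differentiableWithinAt
    · intro y hy
      rw [interior_Icc] at hy
      have hd : HasDerivAt (fun y => Real.sinh y - Real.cosh I * y)
          (Real.cosh y - Real.cosh I * 1) y :=
        (Real.hasDerivAt_sinh y).sub ((hasDerivAt_id' y).const_mul (Real.cosh I))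
      rw [hd.deriv]
      have : Real.cosh y ≤ Real.cosh I := by
        apply Real.cosh_le_cosh.2
        rw [abs_of_pos hy.1, abs_of_pos (hy.1.trans hy.2)]
        exact hy.2.le
      linarith
  have := hm ⟨h0, h⟩ ⟨h0.trans h, le_rfl⟩ h
  simp only at this
  linarith

/-- the chord of `cos` -/
theorem cos_chord {R : ℝ} (h0 : 7463 / 10000 ≤ R) (h1 : R ≤ 9425 / 10000) :
    7342 / 10000 - 7465 / 10000 * (R - 7463 / 10000) ≤ Real.cos R := by
  have c6 := n_c6 (x := R) (by linarith)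
  refine le_trans ?_ c6
  obtain ⟨r, hr⟩ : ∃ r, r = R - 7463 / 10000 := ⟨_, rfl⟩
  have e : R = r + 7463 / 10000 := by rw [hr]; ring
  have r0 : 0 ≤ r := by rw [hr]; linarith
  have r1 : r ≤ 1962 / 10000 := by rw [hr]; linarith
  rw [e]
  have r2 := mul_nonneg r0 (sub_nonneg.2 r1)
  have r3 := mul_nonneg r0 r0
  have r4 := mul_nonneg r3 (sub_nonneg.2 r1)
  have r5 := mul_nonneg (mul_nonneg r3 r0) (sub_nonneg.2 r1)
  nlinarith

section

variable {R I x θ : ℝ}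

theorem xline {c1 y : ℝ} (hS : Real.sin R * Real.cos θ = Real.sinh x * Real.cos R)
    (hR0 : 0 ≤ R) (hR1 : R ≤ 1) (hc : c1 ≤ Real.cos θ) (c0 : 0 ≤ c1) (y0 : 0 ≤ y) (y1 : y ≤ 1)
    (key : (y + y ^ 3 / 6 + y ^ 5 / 120 + y ^ 7 / 5040 + 9 / 322560 * y ^ 8) *
      (1 - R ^ 2 / 2 + R ^ 4 / 24 - R ^ 6 / 720 + R ^ 8 / 40320)
      ≤ c1 * (R - R ^ 3 / 6 + R ^ 5 / 120 - R ^ 7 / 5040)) : y ≤ x := by
  have hpi := Real.pi_gt_three
  have hcR : 0 < Real.cos R := Real.cos_pos_of_mem_Ioo ⟨by linarith, by linarith⟩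
  have hs := pb_sh8 y0 y1
  have a1 := n_c8 hR0
  have a2 := n_s7 hR0
  have hsy : 0 ≤ Real.sinh y := Real.sinh_nonneg_iff.2 y0
  have b1 : Real.sinh y * Real.cos R ≤
      (y + y ^ 3 / 6 + y ^ 5 / 120 + y ^ 7 / 5040 + 9 / 322560 * y ^ 8) *
      (1 - R ^ 2 / 2 + R ^ 4 / 24 - R ^ 6 / 720 + R ^ 8 / 40320) :=
    mul_le_mul hs a1 hcR.le (hsy.trans hs)
  have b2 : c1 * (R - R ^ 3 / 6 + R ^ 5 / 120 - R ^ 7 / 5040) ≤ c1 * Real.sin R :=
    mul_le_mul_of_nonneg_left a2 c0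
  have hsR : 0 ≤ Real.sin R := Real.sin_nonneg_of_nonneg_of_le_pi hR0 (by linarith)
  have b3 : c1 * Real.sin R ≤ Real.sin R * Real.cos θ := by
    have := mul_le_mul_of_nonneg_left hc hsR
    linarith
  have b4 : Real.sinh y * Real.cos R ≤ Real.sinh x * Real.cos R := by linarith
  exact Real.sinh_le_sinh.1 (le_of_mul_le_mul_right b4 hcR)

theorem jline {τ1 y : ℝ} (hC : Real.sinh I * Real.cos θ = Real.sin θ * Real.cos R)
    (hR0 : 0 ≤ R) (hR1 : R ≤ 1) (hθ : 0 < Real.cos θ) (ht : Real.tan θ ≤ τ1) (y0 : 0 ≤ y)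
    (key : τ1 * (1 - R ^ 2 / 2 + R ^ 4 / 24 - R ^ 6 / 720 + R ^ 8 / 40320)
      ≤ y + y ^ 3 / 6 + y ^ 5 / 120) (t0 : 0 ≤ τ1) : I ≤ y := by
  have hpi := Real.pi_gt_three
  have hcR : 0 < Real.cos R := Real.cos_pos_of_mem_Ioo ⟨by linarith, by linarith⟩
  have a1 := n_c8 hR0
  have a2 := n_sh5 y0
  have e : Real.sinh I = Real.tan θ * Real.cos R := by
    rw [Real.tan_eq_sin_div_cos, div_mul_eq_mul_div, eq_div_iff hθ.ne']
    exact hC
  have b1 : Real.tan θ * Real.cos R ≤ τ1 * Real.cos R := mul_le_mul_of_nonneg_right ht hcR.le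
  have b2 : τ1 * Real.cos R
      ≤ τ1 * (1 - R ^ 2 / 2 + R ^ 4 / 24 - R ^ 6 / 720 + R ^ 8 / 40320) :=
    mul_le_mul_of_nonneg_left a1 t0
  apply Real.sinh_le_sinh.1
  rw [e]
  linarith

end

end Pool.Agent.S3.Cl
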