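import Pool.Agent.S3.Cl.E3A

/-!
# Stage 3: (E3) at an inner `2` next to a closed end: the lines for `x` and `I`
-/

set_option autoImplicit false

namespace Pool.Agent.S3.Cl

section

variable {R I x θ : ℝ}

theorem xl_0 (hS : Real.sin R * Real.cos θ = Real.sinh x * Real.cos R)
    (h0 : 7463 / 10000 ≤ R) (h1 : R ≤ 377 / 400) (hc : 41267 / 50000 ≤ Real.cos θ) :
    9093 / 10000 + 3701 / 2500 * (R - 9 / 10) ≤ x := by
  obtain ⟨y, hy⟩ : ∃ y, y = 9093 / 10000 + 3701 / 2500 * (R - 9 / 10) := ⟨_, rfl⟩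
  rw [← hy]
  apply xline hS (by linarith) (by linarith) hc (by norm_num) (by rw [hy]; linarith)
    (by rw [hy]; linarith)
  obtain ⟨r, hr⟩ : ∃ r, r = R - 7463 / 10000 := ⟨_, rfl⟩
  have e : R = r + 7463 / 10000 := by rw [hr]; ring
  have r0 : 0 ≤ r := by rw [hr]; linarith
  have r1 : r ≤ 981 / 5000 := by rw [hr]; linarith
  rw [hy, e]
  linarith [sq_nonneg (r - (1537 / 10000)),
    mul_nonneg (sub_nonneg.2 r1) (sq_nonneg (r - (1537 / 10000))),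
    mul_nonneg (pow_nonneg r0 1) (sq_nonneg (r - (1537 / 10000))),
    mul_nonneg (mul_nonneg (pow_nonneg r0 1) (sub_nonneg.2 r1)) (sq_nonneg (r - (1537 / 10000))),
    mul_nonneg (pow_nonneg r0 2) (sq_nonneg (r - (1537 / 10000))),
    mul_nonneg (mul_nonneg (pow_nonneg r0 2) (sub_nonneg.2 r1)) (sq_nonneg (r - (1537 / 10000))),
    mul_nonneg (pow_nonneg r0 3) (sq_nonneg (r - (1537 / 10000))),
    mul_nonneg (mul_nonneg (pow_nonneg r0 3) (sub_nonneg.2 r1)) (sq_nonneg (r - (1537 / 10000))),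
    pow_nonneg r0 2,
    pow_nonneg r0 3,
    pow_nonneg r0 4,
    pow_nonneg r0 5,
    pow_nonneg r0 6,
    pow_nonneg r0 7,
    pow_nonneg r0 8,
    pow_nonneg r0 9,
    pow_nonneg r0 10,
    pow_nonneg r0 11,
    pow_nonneg r0 12,
    pow_nonneg r0 13,
    pow_nonneg r0 14,
    pow_nonneg r0 15,
    pow_nonneg r0 16,
    mul_nonneg (pow_nonneg r0 1) (sub_nonneg.2 r1),
    mul_nonneg (pow_nonneg r0 2) (sub_nonneg.2 r1),
    mul_nonneg (pow_nonneg r0 3) (sub_nonneg.2 r1),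
    mul_nonneg (pow_nonneg r0 4) (sub_nonneg.2 r1),
    mul_nonneg (pow_nonneg r0 5) (sub_nonneg.2 r1),
    mul_nonneg (pow_nonneg r0 6) (sub_nonneg.2 r1),
    mul_nonneg (pow_nonneg r0 7) (sub_nonneg.2 r1),
    mul_nonneg (pow_nonneg r0 8) (sub_nonneg.2 r1),
    mul_nonneg (pow_nonneg r0 9) (sub_nonneg.2 r1),
    mul_nonneg (pow_nonneg r0 10) (sub_nonneg.2 r1),
    mul_nonneg (pow_nonneg r0 11) (sub_nonneg.2 r1),
    mul_nonneg (pow_nonneg r0 12) (sub_nonneg.2 r1),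
    mul_nonneg (pow_nonneg r0 13) (sub_nonneg.2 r1),
    mul_nonneg (pow_nonneg r0 14) (sub_nonneg.2 r1),
    mul_nonneg (pow_nonneg r0 15) (sub_nonneg.2 r1)]

theorem jl_0 (hC : Real.sinh I * Real.cos θ = Real.sin θ * Real.cos R)
    (h0 : 7463 / 10000 ≤ R) (h1 : R ≤ 377 / 400) (hc : 0 < Real.cos θ) (ht : Real.tan θ ≤ 68411 / 100000) :
    I ≤ 827 / 2000 - 4931 / 10000 * (R - 9 / 10) := by
  obtain ⟨y, hy⟩ : ∃ y, y = 827 / 2000 - 4931 / 10000 * (R - 9 / 10) := ⟨_, rfl⟩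
  rw [← hy]
  apply jline hC (by linarith) (by linarith) hc ht (by rw [hy]; linarith) _ (by norm_num)
  obtain ⟨r, hr⟩ : ∃ r, r = R - 7463 / 10000 := ⟨_, rfl⟩
  have e : R = r + 7463 / 10000 := by rw [hr]; ring
  have r0 : 0 ≤ r := by rw [hr]; linarith
  have r1 : r ≤ 981 / 5000 := by rw [hr]; linarith
  rw [hy, e]
  linarith [sq_nonneg (r - (1537 / 10000)),
    mul_nonneg (sub_nonneg.2 r1) (sq_nonneg (r - (1537 / 10000))),
    mul_nonneg (pow_nonneg r0 1) (sq_nonneg (r - (1537 / 10000))),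
    mul_nonneg (mul_nonneg (pow_nonneg r0 1) (sub_nonneg.2 r1)) (sq_nonneg (r - (1537 / 10000))),
    mul_nonneg (pow_nonneg r0 2) (sq_nonneg (r - (1537 / 10000))),
    mul_nonneg (mul_nonneg (pow_nonneg r0 2) (sub_nonneg.2 r1)) (sq_nonneg (r - (1537 / 10000))),
    mul_nonneg (pow_nonneg r0 3) (sq_nonneg (r - (1537 / 10000))),
    mul_nonneg (mul_nonneg (pow_nonneg r0 3) (sub_nonneg.2 r1)) (sq_nonneg (r - (1537 / 10000))),
    pow_nonneg r0 2,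
    pow_nonneg r0 3,
    pow_nonneg r0 4,
    pow_nonneg r0 5,
    pow_nonneg r0 6,
    pow_nonneg r0 7,
    pow_nonneg r0 8,
    mul_nonneg (pow_nonneg r0 1) (sub_nonneg.2 r1),
    mul_nonneg (pow_nonneg r0 2) (sub_nonneg.2 r1),
    mul_nonneg (pow_nonneg r0 3) (sub_nonneg.2 r1),
    mul_nonneg (pow_nonneg r0 4) (sub_nonneg.2 r1),
    mul_nonneg (pow_nonneg r0 5) (sub_nonneg.2 r1),
    mul_nonneg (pow_nonneg r0 6) (sub_nonneg.2 r1),
    mul_nonneg (pow_nonneg r0 7) (sub_nonneg.2 r1)]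

theorem xl_1 (hS : Real.sin R * Real.cos θ = Real.sinh x * Real.cos R)
    (h0 : 7463 / 10000 ≤ R) (h1 : R ≤ 377 / 400) (hc : 9951 / 12500 ≤ Real.cos θ) :
    1767 / 2000 + 2909 / 2000 * (R - 9 / 10) ≤ x := by
  obtain ⟨y, hy⟩ : ∃ y, y = 1767 / 2000 + 2909 / 2000 * (R - 9 / 10) := ⟨_, rfl⟩
  rw [← hy]
  apply xline hS (by linarith) (by linarith) hc (by norm_num) (by rw [hy]; linarith)
    (by rw [hy]; linarith)
  obtain ⟨r, hr⟩ : ∃ r, r = R - 7463 / 10000 := ⟨_, rfl⟩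
  have e : R = r + 7463 / 10000 := by rw [hr]; ring
  have r0 : 0 ≤ r := by rw [hr]; linarith
  have r1 : r ≤ 981 / 5000 := by rw [hr]; linarith
  rw [hy, e]
  linarith [sq_nonneg (r - (1537 / 10000)),
    mul_nonneg (sub_nonneg.2 r1) (sq_nonneg (r - (1537 / 10000))),
    mul_nonneg (pow_nonneg r0 1) (sq_nonneg (r - (1537 / 10000))),
    mul_nonneg (mul_nonneg (pow_nonneg r0 1) (sub_nonneg.2 r1)) (sq_nonneg (r - (1537 / 10000))),
    mul_nonneg (pow_nonneg r0 2) (sq_nonneg (r - (1537 / 10000))),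
    mul_nonneg (mul_nonneg (pow_nonneg r0 2) (sub_nonneg.2 r1)) (sq_nonneg (r - (1537 / 10000))),
    mul_nonneg (pow_nonneg r0 3) (sq_nonneg (r - (1537 / 10000))),
    mul_nonneg (mul_nonneg (pow_nonneg r0 3) (sub_nonneg.2 r1)) (sq_nonneg (r - (1537 / 10000))),
    pow_nonneg r0 2,
    pow_nonneg r0 3,
    pow_nonneg r0 4,
    pow_nonneg r0 5,
    pow_nonneg r0 6,
    pow_nonneg r0 7,
    pow_nonneg r0 8,
    pow_nonneg r0 9,
    pow_nonneg r0 10,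
    pow_nonneg r0 11,
    pow_nonneg r0 12,
    pow_nonneg r0 13,
    pow_nonneg r0 14,
    pow_nonneg r0 15,
    pow_nonneg r0 16,
    mul_nonneg (pow_nonneg r0 1) (sub_nonneg.2 r1),
    mul_nonneg (pow_nonneg r0 2) (sub_nonneg.2 r1),
    mul_nonneg (pow_nonneg r0 3) (sub_nonneg.2 r1),
    mul_nonneg (pow_nonneg r0 4) (sub_nonneg.2 r1),
    mul_nonneg (pow_nonneg r0 5) (sub_nonneg.2 r1),
    mul_nonneg (pow_nonneg r0 6) (sub_nonneg.2 r1),
    mul_nonneg (pow_nonneg r0 7) (sub_nonneg.2 r1),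
    mul_nonneg (pow_nonneg r0 8) (sub_nonneg.2 r1),
    mul_nonneg (pow_nonneg r0 9) (sub_nonneg.2 r1),
    mul_nonneg (pow_nonneg r0 10) (sub_nonneg.2 r1),
    mul_nonneg (pow_nonneg r0 11) (sub_nonneg.2 r1),
    mul_nonneg (pow_nonneg r0 12) (sub_nonneg.2 r1),
    mul_nonneg (pow_nonneg r0 13) (sub_nonneg.2 r1),
    mul_nonneg (pow_nonneg r0 14) (sub_nonneg.2 r1),
    mul_nonneg (pow_nonneg r0 15) (sub_nonneg.2 r1)]

theorem jl_1 (hC : Real.sinh I * Real.cos θ = Real.sin θ * Real.cos R)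
    (h0 : 7463 / 10000 ≤ R) (h1 : R ≤ 377 / 400) (hc : 0 < Real.cos θ) (ht : Real.tan θ ≤ 3801 / 5000) :
    I ≤ 4567 / 10000 - 673 / 1250 * (R - 9 / 10) := by
  obtain ⟨y, hy⟩ : ∃ y, y = 4567 / 10000 - 673 / 1250 * (R - 9 / 10) := ⟨_, rfl⟩
  rw [← hy]
  apply jline hC (by linarith) (by linarith) hc ht (by rw [hy]; linarith) _ (by norm_num)
  obtain ⟨r, hr⟩ : ∃ r, r = R - 7463 / 10000 := ⟨_, rfl⟩
  have e : R = r + 7463 / 10000 := by rw [hr]; ring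
  have r0 : 0 ≤ r := by rw [hr]; linarith
  have r1 : r ≤ 981 / 5000 := by rw [hr]; linarith
  rw [hy, e]
  linarith [sq_nonneg (r - (1537 / 10000)),
    mul_nonneg (sub_nonneg.2 r1) (sq_nonneg (r - (1537 / 10000))),
    mul_nonneg (pow_nonneg r0 1) (sq_nonneg (r - (1537 / 10000))),
    mul_nonneg (mul_nonneg (pow_nonneg r0 1) (sub_nonneg.2 r1)) (sq_nonneg (r - (1537 / 10000))),
    mul_nonneg (pow_nonneg r0 2) (sq_nonneg (r - (1537 / 10000))),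
    mul_nonneg (mul_nonneg (pow_nonneg r0 2) (sub_nonneg.2 r1)) (sq_nonneg (r - (1537 / 10000))),
    mul_nonneg (pow_nonneg r0 3) (sq_nonneg (r - (1537 / 10000))),
    mul_nonneg (mul_nonneg (pow_nonneg r0 3) (sub_nonneg.2 r1)) (sq_nonneg (r - (1537 / 10000))),
    pow_nonneg r0 2,
    pow_nonneg r0 3,
    pow_nonneg r0 4,
    pow_nonneg r0 5,
    pow_nonneg r0 6,
    pow_nonneg r0 7,
    pow_nonneg r0 8,
    mul_nonneg (pow_nonneg r0 1) (sub_nonneg.2 r1),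
    mul_nonneg (pow_nonneg r0 2) (sub_nonneg.2 r1),
    mul_nonneg (pow_nonneg r0 3) (sub_nonneg.2 r1),
    mul_nonneg (pow_nonneg r0 4) (sub_nonneg.2 r1),
    mul_nonneg (pow_nonneg r0 5) (sub_nonneg.2 r1),
    mul_nonneg (pow_nonneg r0 6) (sub_nonneg.2 r1),
    mul_nonneg (pow_nonneg r0 7) (sub_nonneg.2 r1)]

theorem xl_2 (hS : Real.sin R * Real.cos θ = Real.sinh x * Real.cos R)
    (h0 : 7463 / 10000 ≤ R) (h1 : R ≤ 897 / 1000) (hc : 79 / 100 ≤ Real.cos θ) :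
    1699 / 2000 + 14069 / 10000 * (R - 22 / 25) ≤ x := by
  obtain ⟨y, hy⟩ : ∃ y, y = 1699 / 2000 + 14069 / 10000 * (R - 22 / 25) := ⟨_, rfl⟩
  rw [← hy]
  apply xline hS (by linarith) (by linarith) hc (by norm_num) (by rw [hy]; linarith)
    (by rw [hy]; linarith)
  obtain ⟨r, hr⟩ : ∃ r, r = R - 7463 / 10000 := ⟨_, rfl⟩
  have e : R = r + 7463 / 10000 := by rw [hr]; ring
  have r0 : 0 ≤ r := by rw [hr]; linarith
  have r1 : r ≤ 1507 / 10000 := by rw [hr]; linarith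
  rw [hy, e]
  linarith [sq_nonneg (r - (1337 / 10000)),
    mul_nonneg (sub_nonneg.2 r1) (sq_nonneg (r - (1337 / 10000))),
    mul_nonneg (pow_nonneg r0 1) (sq_nonneg (r - (1337 / 10000))),
    mul_nonneg (mul_nonneg (pow_nonneg r0 1) (sub_nonneg.2 r1)) (sq_nonneg (r - (1337 / 10000))),
    mul_nonneg (pow_nonneg r0 2) (sq_nonneg (r - (1337 / 10000))),
    mul_nonneg (mul_nonneg (pow_nonneg r0 2) (sub_nonneg.2 r1)) (sq_nonneg (r - (1337 / 10000))),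
    mul_nonneg (pow_nonneg r0 3) (sq_nonneg (r - (1337 / 10000))),
    mul_nonneg (mul_nonneg (pow_nonneg r0 3) (sub_nonneg.2 r1)) (sq_nonneg (r - (1337 / 10000))),
    pow_nonneg r0 2,
    pow_nonneg r0 3,
    pow_nonneg r0 4,
    pow_nonneg r0 5,
    pow_nonneg r0 6,
    pow_nonneg r0 7,
    pow_nonneg r0 8,
    pow_nonneg r0 9,
    pow_nonneg r0 10,
    pow_nonneg r0 11,
    pow_nonneg r0 12,
    pow_nonneg r0 13,
    pow_nonneg r0 14,
    pow_nonneg r0 15,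
    pow_nonneg r0 16,
    mul_nonneg (pow_nonneg r0 1) (sub_nonneg.2 r1),
    mul_nonneg (pow_nonneg r0 2) (sub_nonneg.2 r1),
    mul_nonneg (pow_nonneg r0 3) (sub_nonneg.2 r1),
    mul_nonneg (pow_nonneg r0 4) (sub_nonneg.2 r1),
    mul_nonneg (pow_nonneg r0 5) (sub_nonneg.2 r1),
    mul_nonneg (pow_nonneg r0 6) (sub_nonneg.2 r1),
    mul_nonneg (pow_nonneg r0 7) (sub_nonneg.2 r1),
    mul_nonneg (pow_nonneg r0 8) (sub_nonneg.2 r1),
    mul_nonneg (pow_nonneg r0 9) (sub_nonneg.2 r1),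
    mul_nonneg (pow_nonneg r0 10) (sub_nonneg.2 r1),
    mul_nonneg (pow_nonneg r0 11) (sub_nonneg.2 r1),
    mul_nonneg (pow_nonneg r0 12) (sub_nonneg.2 r1),
    mul_nonneg (pow_nonneg r0 13) (sub_nonneg.2 r1),
    mul_nonneg (pow_nonneg r0 14) (sub_nonneg.2 r1),
    mul_nonneg (pow_nonneg r0 15) (sub_nonneg.2 r1)]

theorem jl_2 (hC : Real.sinh I * Real.cos θ = Real.sin θ * Real.cos R)
    (h0 : 7463 / 10000 ≤ R) (h1 : R ≤ 897 / 1000) (hc : 0 < Real.cos θ) (ht : Real.tan θ ≤ 9701 / 12500) :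
    I ≤ 1191 / 2500 - 2681 / 5000 * (R - 22 / 25) := by
  obtain ⟨y, hy⟩ : ∃ y, y = 1191 / 2500 - 2681 / 5000 * (R - 22 / 25) := ⟨_, rfl⟩
  rw [← hy]
  apply jline hC (by linarith) (by linarith) hc ht (by rw [hy]; linarith) _ (by norm_num)
  obtain ⟨r, hr⟩ : ∃ r, r = R - 7463 / 10000 := ⟨_, rfl⟩
  have e : R = r + 7463 / 10000 := by rw [hr]; ring
  have r0 : 0 ≤ r := by rw [hr]; linarith
  have r1 : r ≤ 1507 / 10000 := by rw [hr]; linarith
  rw [hy, e]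
  linarith [sq_nonneg (r - (1337 / 10000)),
    mul_nonneg (sub_nonneg.2 r1) (sq_nonneg (r - (1337 / 10000))),
    mul_nonneg (pow_nonneg r0 1) (sq_nonneg (r - (1337 / 10000))),
    mul_nonneg (mul_nonneg (pow_nonneg r0 1) (sub_nonneg.2 r1)) (sq_nonneg (r - (1337 / 10000))),
    mul_nonneg (pow_nonneg r0 2) (sq_nonneg (r - (1337 / 10000))),
    mul_nonneg (mul_nonneg (pow_nonneg r0 2) (sub_nonneg.2 r1)) (sq_nonneg (r - (1337 / 10000))),
    mul_nonneg (pow_nonneg r0 3) (sq_nonneg (r - (1337 / 10000))),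
    mul_nonneg (mul_nonneg (pow_nonneg r0 3) (sub_nonneg.2 r1)) (sq_nonneg (r - (1337 / 10000))),
    pow_nonneg r0 2,
    pow_nonneg r0 3,
    pow_nonneg r0 4,
    pow_nonneg r0 5,
    pow_nonneg r0 6,
    pow_nonneg r0 7,
    pow_nonneg r0 8,
    mul_nonneg (pow_nonneg r0 1) (sub_nonneg.2 r1),
    mul_nonneg (pow_nonneg r0 2) (sub_nonneg.2 r1),
    mul_nonneg (pow_nonneg r0 3) (sub_nonneg.2 r1),
    mul_nonneg (pow_nonneg r0 4) (sub_nonneg.2 r1),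
    mul_nonneg (pow_nonneg r0 5) (sub_nonneg.2 r1),
    mul_nonneg (pow_nonneg r0 6) (sub_nonneg.2 r1),
    mul_nonneg (pow_nonneg r0 7) (sub_nonneg.2 r1)]

theorem xl_3 (hS : Real.sin R * Real.cos θ = Real.sinh x * Real.cos R)
    (h0 : 7463 / 10000 ≤ R) (h1 : R ≤ 873 / 1000) (hc : 15723 / 20000 ≤ Real.cos θ) :
    1637 / 2000 + 6819 / 5000 * (R - 43 / 50) ≤ x := by
  obtain ⟨y, hy⟩ : ∃ y, y = 1637 / 2000 + 6819 / 5000 * (R - 43 / 50) := ⟨_, rfl⟩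
  rw [← hy]
  apply xline hS (by linarith) (by linarith) hc (by norm_num) (by rw [hy]; linarith)
    (by rw [hy]; linarith)
  obtain ⟨r, hr⟩ : ∃ r, r = R - 7463 / 10000 := ⟨_, rfl⟩
  have e : R = r + 7463 / 10000 := by rw [hr]; ring
  have r0 : 0 ≤ r := by rw [hr]; linarith
  have r1 : r ≤ 1267 / 10000 := by rw [hr]; linarith
  rw [hy, e]
  linarith [sq_nonneg (r - (1137 / 10000)),
    mul_nonneg (sub_nonneg.2 r1) (sq_nonneg (r - (1137 / 10000))),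
    mul_nonneg (pow_nonneg r0 1) (sq_nonneg (r - (1137 / 10000))),
    mul_nonneg (mul_nonneg (pow_nonneg r0 1) (sub_nonneg.2 r1)) (sq_nonneg (r - (1137 / 10000))),
    mul_nonneg (pow_nonneg r0 2) (sq_nonneg (r - (1137 / 10000))),
    mul_nonneg (mul_nonneg (pow_nonneg r0 2) (sub_nonneg.2 r1)) (sq_nonneg (r - (1137 / 10000))),
    mul_nonneg (pow_nonneg r0 3) (sq_nonneg (r - (1137 / 10000))),
    mul_nonneg (mul_nonneg (pow_nonneg r0 3) (sub_nonneg.2 r1)) (sq_nonneg (r - (1137 / 10000))),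
    pow_nonneg r0 2,
    pow_nonneg r0 3,
    pow_nonneg r0 4,
    pow_nonneg r0 5,
    pow_nonneg r0 6,
    pow_nonneg r0 7,
    pow_nonneg r0 8,
    pow_nonneg r0 9,
    pow_nonneg r0 10,
    pow_nonneg r0 11,
    pow_nonneg r0 12,
    pow_nonneg r0 13,
    pow_nonneg r0 14,
    pow_nonneg r0 15,
    pow_nonneg r0 16,
    mul_nonneg (pow_nonneg r0 1) (sub_nonneg.2 r1),
    mul_nonneg (pow_nonneg r0 2) (sub_nonneg.2 r1),
    mul_nonneg (pow_nonneg r0 3) (sub_nonneg.2 r1),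
    mul_nonneg (pow_nonneg r0 4) (sub_nonneg.2 r1),
    mul_nonneg (pow_nonneg r0 5) (sub_nonneg.2 r1),
    mul_nonneg (pow_nonneg r0 6) (sub_nonneg.2 r1),
    mul_nonneg (pow_nonneg r0 7) (sub_nonneg.2 r1),
    mul_nonneg (pow_nonneg r0 8) (sub_nonneg.2 r1),
    mul_nonneg (pow_nonneg r0 9) (sub_nonneg.2 r1),
    mul_nonneg (pow_nonneg r0 10) (sub_nonneg.2 r1),
    mul_nonneg (pow_nonneg r0 11) (sub_nonneg.2 r1),
    mul_nonneg (pow_nonneg r0 12) (sub_nonneg.2 r1),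
    mul_nonneg (pow_nonneg r0 13) (sub_nonneg.2 r1),
    mul_nonneg (pow_nonneg r0 14) (sub_nonneg.2 r1),
    mul_nonneg (pow_nonneg r0 15) (sub_nonneg.2 r1)]

theorem jl_3 (hC : Real.sinh I * Real.cos θ = Real.sin θ * Real.cos R)
    (h0 : 7463 / 10000 ≤ R) (h1 : R ≤ 873 / 1000) (hc : 0 < Real.cos θ) (ht : Real.tan θ ≤ 78613 / 100000) :
    I ≤ 4929 / 10000 - 5301 / 10000 * (R - 43 / 50) := by
  obtain ⟨y, hy⟩ : ∃ y, y = 4929 / 10000 - 5301 / 10000 * (R - 43 / 50) := ⟨_, rfl⟩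
  rw [← hy]
  apply jline hC (by linarith) (by linarith) hc ht (by rw [hy]; linarith) _ (by norm_num)
  obtain ⟨r, hr⟩ : ∃ r, r = R - 7463 / 10000 := ⟨_, rfl⟩
  have e : R = r + 7463 / 10000 := by rw [hr]; ring
  have r0 : 0 ≤ r := by rw [hr]; linarith
  have r1 : r ≤ 1267 / 10000 := by rw [hr]; linarith
  rw [hy, e]
  linarith [sq_nonneg (r - (1137 / 10000)),
    mul_nonneg (sub_nonneg.2 r1) (sq_nonneg (r - (1137 / 10000))),
    mul_nonneg (pow_nonneg r0 1) (sq_nonneg (r - (1137 / 10000))),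
    mul_nonneg (mul_nonneg (pow_nonneg r0 1) (sub_nonneg.2 r1)) (sq_nonneg (r - (1137 / 10000))),
    mul_nonneg (pow_nonneg r0 2) (sq_nonneg (r - (1137 / 10000))),
    mul_nonneg (mul_nonneg (pow_nonneg r0 2) (sub_nonneg.2 r1)) (sq_nonneg (r - (1137 / 10000))),
    mul_nonneg (pow_nonneg r0 3) (sq_nonneg (r - (1137 / 10000))),
    mul_nonneg (mul_nonneg (pow_nonneg r0 3) (sub_nonneg.2 r1)) (sq_nonneg (r - (1137 / 10000))),
    pow_nonneg r0 2,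
    pow_nonneg r0 3,
    pow_nonneg r0 4,
    pow_nonneg r0 5,
    pow_nonneg r0 6,
    pow_nonneg r0 7,
    pow_nonneg r0 8,
    mul_nonneg (pow_nonneg r0 1) (sub_nonneg.2 r1),
    mul_nonneg (pow_nonneg r0 2) (sub_nonneg.2 r1),
    mul_nonneg (pow_nonneg r0 3) (sub_nonneg.2 r1),
    mul_nonneg (pow_nonneg r0 4) (sub_nonneg.2 r1),
    mul_nonneg (pow_nonneg r0 5) (sub_nonneg.2 r1),
    mul_nonneg (pow_nonneg r0 6) (sub_nonneg.2 r1),
    mul_nonneg (pow_nonneg r0 7) (sub_nonneg.2 r1)]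

end

end Pool.Agent.S3.Cl
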