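import Pool.Agent.S3.Cl.E3A
import Pool.Agent.S3.CritE
import Pool.Agent.S3.E.Cont
import Pool.Agent.S3.E.RngB

/-!
# Stage 3: (E3) at an inner `2` next to a closed end: the statement
-/

set_option autoImplicit false

namespace Pool.Agent.S3.Cl

open Complex Pool.Agent.S3
open Pool.Agent.S3.E (Zr uu qe qo bw xx th k2 s2 bo ro be ph In2)

section

variable {R θ : ℝ}

/-- lower bound of `cos R (2 s sin R - 748/1000)` -/
theorem rlim_low {s : ℝ} (hs : 605 / 1000 ≤ s) {A B : ℝ} (hA : A ≤ Real.sin R) (hB : B ≤ Real.cos R) (B0 : 0 ≤ B)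
    (hA0 : 748 / 1000 ≤ 2 * s * A) :
    (2 * s * A - 748 / 1000) * B ≤ Real.cos R * (2 * s * Real.sin R - 748 / 1000) := by
  have h2 : 2 * s * A - 748 / 1000 ≤ 2 * s * Real.sin R - 748 / 1000 := by
    have := mul_le_mul_of_nonneg_left hA (by linarith : 0 ≤ 2 * s)
    linarith
  have := mul_le_mul h2 hB B0 (by linarith)
  linarith

theorem sin_chord (h0 : 873 / 1000 ≤ R) (h1 : R ≤ 377 / 400) :
    7662 / 10000 + 6150 / 10000 * (R - 873 / 1000) ≤ Real.sin R := by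
  have s7 := n_s7 (x := R) (by linarith)
  refine le_trans ?_ s7
  obtain ⟨r, hr⟩ : ∃ r, r = R - 873 / 1000 := ⟨_, rfl⟩
  have e : R = r + 873 / 1000 := by rw [hr]; ring
  have r0 : 0 ≤ r := by rw [hr]; linarith
  have r1 : r ≤ 139 / 2000 := by rw [hr]; linarith
  rw [e]
  linarith [mul_nonneg r0 (sub_nonneg.2 r1),
    mul_nonneg (pow_nonneg r0 2) (sub_nonneg.2 r1), mul_nonneg (pow_nonneg r0 3) (sub_nonneg.2 r1),
    mul_nonneg (pow_nonneg r0 4) (sub_nonneg.2 r1), mul_nonneg (pow_nonneg r0 5) (sub_nonneg.2 r1),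
    mul_nonneg (pow_nonneg r0 6) (sub_nonneg.2 r1), pow_nonneg r0 2, pow_nonneg r0 3,
    pow_nonneg r0 4, pow_nonneg r0 5, pow_nonneg r0 6, pow_nonneg r0 7]

theorem cos_chord2 (h0 : 873 / 1000 ≤ R) (h1 : R ≤ 377 / 400) :
    6425 / 10000 - 7885 / 10000 * (R - 873 / 1000) ≤ Real.cos R := by
  have s7 := n_c6 (x := R) (by linarith)
  refine le_trans ?_ s7
  obtain ⟨r, hr⟩ : ∃ r, r = R - 873 / 1000 := ⟨_, rfl⟩
  have e : R = r + 873 / 1000 := by rw [hr]; ring
  have r0 : 0 ≤ r := by rw [hr]; linarith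
  have r1 : r ≤ 139 / 2000 := by rw [hr]; linarith
  rw [e]
  linarith [mul_nonneg r0 (sub_nonneg.2 r1),
    mul_nonneg (pow_nonneg r0 2) (sub_nonneg.2 r1), mul_nonneg (pow_nonneg r0 3) (sub_nonneg.2 r1),
    mul_nonneg (pow_nonneg r0 4) (sub_nonneg.2 r1), mul_nonneg (pow_nonneg r0 5) (sub_nonneg.2 r1),
    pow_nonneg r0 2, pow_nonneg r0 3,
    pow_nonneg r0 4, pow_nonneg r0 5, pow_nonneg r0 6]

theorem sin_ge_tan {s t : ℝ} (hθ : 0 < Real.cos θ) (hs : 0 ≤ Real.sin θ)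
    (ht : t ≤ Real.tan θ ^ 2) (t0 : 0 ≤ t) (hc : s ^ 2 * (1 + t) ≤ t) : s ≤ Real.sin θ := by
  have h2 : Real.tan θ ^ 2 * Real.cos θ ^ 2 = Real.sin θ ^ 2 := by
    rw [← mul_pow, Real.tan_mul_cos hθ.ne']
  have h1 := Real.sin_sq_add_cos_sq θ
  apply le_of_sq_le_sq _ hs
  have h4 : (1 + t) * Real.cos θ ^ 2 ≤ 1 := by
    have := mul_le_mul_of_nonneg_right ht (sq_nonneg (Real.cos θ))
    linarith
  have h5 : s ^ 2 * (1 + t) ≤ Real.sin θ ^ 2 * (1 + t) := by
    have : Real.sin θ ^ 2 * (1 + t) = (1 + t) - (1 + t) * Real.cos θ ^ 2 := by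
      linear_combination (1 + t) * h1
    rw [this]; linarith
  exact le_of_mul_le_mul_right h5 (by linarith)

theorem cos_le_tan {c t : ℝ} (hθ : 0 < Real.cos θ) (ht : t ≤ Real.tan θ ^ 2) (hc0 : 0 ≤ c)
    (t0 : 0 ≤ t) (hc : 1 ≤ c ^ 2 * (1 + t)) : Real.cos θ ≤ c := by
  have e : Real.cos θ ^ 2 * (1 + Real.tan θ ^ 2) = 1 := by
    have h1 := Real.sin_sq_add_cos_sq θ
    have h2 : Real.tan θ ^ 2 * Real.cos θ ^ 2 = Real.sin θ ^ 2 := by
      rw [← mul_pow, Real.tan_mul_cos hθ.ne']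
    linarith
  apply le_of_sq_le_sq _ hc0
  have h2 : Real.cos θ ^ 2 * (1 + t) ≤ c ^ 2 * (1 + t) := by
    have := mul_le_mul_of_nonneg_left ht (sq_nonneg (Real.cos θ))
    linarith
  exact le_of_mul_le_mul_right h2 (by linarith)

theorem rlim1 (hθ : 0 < Real.cos θ) (hs : 0 ≤ Real.sin θ)
    (hP : 2 * Real.sin R * Real.cos R * Real.sin θ
      ≤ 1541 / 10000 * Real.cos θ + 748 / 1000 * Real.cos R)
    (h1 : R ≤ 377 / 400) (ht : 5779 / 10000 ≤ Real.tan θ ^ 2) : R ≤ 897 / 1000 := by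
  by_contra hc
  push Not at hc
  have s1 := sin_ge_tan (s := 60518 / 100000) hθ hs ht (by norm_num) (by norm_num)
  have c1 := cos_le_tan (c := 7961 / 10000) hθ ht (by norm_num) (by norm_num) (by norm_num)
  have a1 := sin_chord (R := R) (by linarith) h1
  have a2 := cos_chord2 (R := R) (by linarith) h1
  have k := rlim_low (s := 60518 / 100000) (by norm_num)
    a1 a2 (by linarith) (by linarith)
  have hsR : 0 ≤ Real.sin R := by linarith
  have hcR : 0 ≤ Real.cos R := by linarith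
  have m1 : 60518 / 100000 * (Real.sin R * Real.cos R) ≤ Real.sin R * Real.cos R * Real.sin θ := by
    have := mul_le_mul_of_nonneg_left s1 (mul_nonneg hsR hcR)
    linarith
  nlinarith

theorem rlim2 (hθ : 0 < Real.cos θ) (hs : 0 ≤ Real.sin θ)
    (hP : 2 * Real.sin R * Real.cos R * Real.sin θ
      ≤ 1541 / 10000 * Real.cos θ + 748 / 1000 * Real.cos R)
    (h1 : R ≤ 377 / 400) (ht : 6023 / 10000 ≤ Real.tan θ ^ 2) : R ≤ 873 / 1000 := by
  by_contra hc
  push Not at hc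
  have s1 := sin_ge_tan (s := 6131 / 10000) hθ hs ht (by norm_num) (by norm_num)
  have c1 := cos_le_tan (c := 79001 / 100000) hθ ht (by norm_num) (by norm_num) (by norm_num)
  have a1 := sin_chord (R := R) (by linarith) h1
  have a2 := cos_chord2 (R := R) (by linarith) h1
  have k := rlim_low (s := 6131 / 10000) (by norm_num)
    a1 a2 (by linarith) (by linarith)
  have hsR : 0 ≤ Real.sin R := by linarith
  have hcR : 0 ≤ Real.cos R := by linarith
  have m1 : 6131 / 10000 * (Real.sin R * Real.cos R) ≤ Real.sin R * Real.cos R * Real.sin θ := by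
    have := mul_le_mul_of_nonneg_left s1 (mul_nonneg hsR hcR)
    linarith
  nlinarith

end

end Pool.Agent.S3.Cl
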