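import Mathlib

/-!
# Stage 3: (E3) at an inner `2` next to a closed end: the polynomial inequalities
-/

set_option autoImplicit false

namespace Pool.Agent.S3.Cl

section

variable {R : ℝ}

theorem e3k_0a (h0 : 7463 / 10000 ≤ R) (h1 : R ≤ 377 / 400) :
    (5 * (827 / 2000 - 4931 / 10000 * (R - 9 / 10)) - (9093 / 10000 + 3701 / 2500 * (R - 9 / 10))) * (68411 / 100000) *
      (3091 / 10000 / 5 - 5553 / 10000 * ((1021 / 1000 - R) * ((7342 / 10000 - 7465 / 10000 *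
        (R - 7463 / 10000)) - 2613 / 5000)))
      ≤ 2 * (8 / 125) * (827 / 2000 - 4931 / 10000 * (R - 9 / 10)) := by
  obtain ⟨r, hr⟩ : ∃ r, r = R - 7463 / 10000 := ⟨_, rfl⟩
  have e : R = r + 7463 / 10000 := by rw [hr]; ring
  have r0 : 0 ≤ r := by rw [hr]; linarith
  have r1 : r ≤ 981 / 5000 := by rw [hr]; linarith
  rw [e]
  nlinarith [sq_nonneg (r - 301 / 2000),
    mul_nonneg r0 (sq_nonneg (r - 301 / 2000)),
    mul_nonneg (sub_nonneg.2 r1) (sq_nonneg (r - 301 / 2000)),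
    mul_nonneg r0 (sub_nonneg.2 r1),
    mul_nonneg (mul_nonneg r0 r0) (sub_nonneg.2 r1),
    mul_nonneg r0 (mul_nonneg (sub_nonneg.2 r1) (sub_nonneg.2 r1)),
    pow_nonneg r0 2,
    pow_nonneg r0 3]

theorem e3k_0b (h0 : 7463 / 10000 ≤ R) (h1 : R ≤ 377 / 400) :
    (5 * (827 / 2000 - 4931 / 10000 * (R - 9 / 10)) - (9093 / 10000 + 3701 / 2500 * (R - 9 / 10))) * (68411 / 100000) *
      (3091 / 10000 / 5 - 5553 / 10000 * ((10681 / 10000 - R) * ((7342 / 10000 - 7465 / 10000 *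
        (R - 7463 / 10000)) - 4819 / 10000)))
      ≤ 2 * (117 / 2000) * (827 / 2000 - 4931 / 10000 * (R - 9 / 10)) := by
  obtain ⟨r, hr⟩ : ∃ r, r = R - 7463 / 10000 := ⟨_, rfl⟩
  have e : R = r + 7463 / 10000 := by rw [hr]; ring
  have r0 : 0 ≤ r := by rw [hr]; linarith
  have r1 : r ≤ 981 / 5000 := by rw [hr]; linarith
  rw [e]
  nlinarith [sq_nonneg (r - 461 / 2500),
    mul_nonneg r0 (sq_nonneg (r - 461 / 2500)),
    mul_nonneg (sub_nonneg.2 r1) (sq_nonneg (r - 461 / 2500)),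
    mul_nonneg r0 (sub_nonneg.2 r1),
    mul_nonneg (mul_nonneg r0 r0) (sub_nonneg.2 r1),
    mul_nonneg r0 (mul_nonneg (sub_nonneg.2 r1) (sub_nonneg.2 r1)),
    pow_nonneg r0 2,
    pow_nonneg r0 3]

theorem e3k_0c (h0 : 7463 / 10000 ≤ R) (h1 : R ≤ 377 / 400) :
    (5 * (827 / 2000 - 4931 / 10000 * (R - 9 / 10)) - (9093 / 10000 + 3701 / 2500 * (R - 9 / 10))) * (68411 / 100000) *
      (3091 / 10000 / 5 - 5553 / 10000 * ((5733 / 5000 - R) * ((7342 / 10000 - 7465 / 10000 *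
        (R - 7463 / 10000)) - 4117 / 10000)))
      ≤ 2 * (9 / 200) * (827 / 2000 - 4931 / 10000 * (R - 9 / 10)) := by
  obtain ⟨r, hr⟩ : ∃ r, r = R - 7463 / 10000 := ⟨_, rfl⟩
  have e : R = r + 7463 / 10000 := by rw [hr]; ring
  have r0 : 0 ≤ r := by rw [hr]; linarith
  have r1 : r ≤ 981 / 5000 := by rw [hr]; linarith
  rw [e]
  nlinarith [sq_nonneg (r - 981 / 5000),
    mul_nonneg r0 (sq_nonneg (r - 981 / 5000)),
    mul_nonneg (sub_nonneg.2 r1) (sq_nonneg (r - 981 / 5000)),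
    mul_nonneg r0 (sub_nonneg.2 r1),
    mul_nonneg (mul_nonneg r0 r0) (sub_nonneg.2 r1),
    mul_nonneg r0 (mul_nonneg (sub_nonneg.2 r1) (sub_nonneg.2 r1)),
    pow_nonneg r0 2,
    pow_nonneg r0 3]

theorem e3k_1a (h0 : 7463 / 10000 ≤ R) (h1 : R ≤ 377 / 400) :
    (5 * (4567 / 10000 - 673 / 1250 * (R - 9 / 10)) - (1767 / 2000 + 2909 / 2000 * (R - 9 / 10))) * (3801 / 5000) *
      (767 / 2500 / 5 - 5553 / 10000 * ((1021 / 1000 - R) * ((7342 / 10000 - 7465 / 10000 *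
        (R - 7463 / 10000)) - 2613 / 5000)))
      ≤ 2 * (8 / 125) * (4567 / 10000 - 673 / 1250 * (R - 9 / 10)) := by
  obtain ⟨r, hr⟩ : ∃ r, r = R - 7463 / 10000 := ⟨_, rfl⟩
  have e : R = r + 7463 / 10000 := by rw [hr]; ring
  have r0 : 0 ≤ r := by rw [hr]; linarith
  have r1 : r ≤ 981 / 5000 := by rw [hr]; linarith
  rw [e]
  nlinarith [sq_nonneg (r - 1581 / 10000),
    mul_nonneg r0 (sq_nonneg (r - 1581 / 10000)),
    mul_nonneg (sub_nonneg.2 r1) (sq_nonneg (r - 1581 / 10000)),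
    mul_nonneg r0 (sub_nonneg.2 r1),
    mul_nonneg (mul_nonneg r0 r0) (sub_nonneg.2 r1),
    mul_nonneg r0 (mul_nonneg (sub_nonneg.2 r1) (sub_nonneg.2 r1)),
    pow_nonneg r0 2,
    pow_nonneg r0 3]

theorem e3k_1b (h0 : 7463 / 10000 ≤ R) (h1 : R ≤ 377 / 400) :
    (5 * (4567 / 10000 - 673 / 1250 * (R - 9 / 10)) - (1767 / 2000 + 2909 / 2000 * (R - 9 / 10))) * (3801 / 5000) *
      (767 / 2500 / 5 - 5553 / 10000 * ((10681 / 10000 - R) * ((7342 / 10000 - 7465 / 10000 *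
        (R - 7463 / 10000)) - 4819 / 10000)))
      ≤ 2 * (117 / 2000) * (4567 / 10000 - 673 / 1250 * (R - 9 / 10)) := by
  obtain ⟨r, hr⟩ : ∃ r, r = R - 7463 / 10000 := ⟨_, rfl⟩
  have e : R = r + 7463 / 10000 := by rw [hr]; ring
  have r0 : 0 ≤ r := by rw [hr]; linarith
  have r1 : r ≤ 981 / 5000 := by rw [hr]; linarith
  rw [e]
  nlinarith [sq_nonneg (r - 387 / 2000),
    mul_nonneg r0 (sq_nonneg (r - 387 / 2000)),
    mul_nonneg (sub_nonneg.2 r1) (sq_nonneg (r - 387 / 2000)),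
    mul_nonneg r0 (sub_nonneg.2 r1),
    mul_nonneg (mul_nonneg r0 r0) (sub_nonneg.2 r1),
    mul_nonneg r0 (mul_nonneg (sub_nonneg.2 r1) (sub_nonneg.2 r1)),
    pow_nonneg r0 2,
    pow_nonneg r0 3]

theorem e3k_1c (h0 : 7463 / 10000 ≤ R) (h1 : R ≤ 377 / 400) :
    (5 * (4567 / 10000 - 673 / 1250 * (R - 9 / 10)) - (1767 / 2000 + 2909 / 2000 * (R - 9 / 10))) * (3801 / 5000) *
      (767 / 2500 / 5 - 5553 / 10000 * ((5733 / 5000 - R) * ((7342 / 10000 - 7465 / 10000 *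
        (R - 7463 / 10000)) - 4117 / 10000)))
      ≤ 2 * (9 / 200) * (4567 / 10000 - 673 / 1250 * (R - 9 / 10)) := by
  obtain ⟨r, hr⟩ : ∃ r, r = R - 7463 / 10000 := ⟨_, rfl⟩
  have e : R = r + 7463 / 10000 := by rw [hr]; ring
  have r0 : 0 ≤ r := by rw [hr]; linarith
  have r1 : r ≤ 981 / 5000 := by rw [hr]; linarith
  rw [e]
  nlinarith [sq_nonneg (r - 981 / 5000),
    mul_nonneg r0 (sq_nonneg (r - 981 / 5000)),
    mul_nonneg (sub_nonneg.2 r1) (sq_nonneg (r - 981 / 5000)),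
    mul_nonneg r0 (sub_nonneg.2 r1),
    mul_nonneg (mul_nonneg r0 r0) (sub_nonneg.2 r1),
    mul_nonneg r0 (mul_nonneg (sub_nonneg.2 r1) (sub_nonneg.2 r1)),
    pow_nonneg r0 2,
    pow_nonneg r0 3]

theorem e3k_2a (h0 : 7463 / 10000 ≤ R) (h1 : R ≤ 897 / 1000) :
    (5 * (1191 / 2500 - 2681 / 5000 * (R - 22 / 25)) - (1699 / 2000 + 14069 / 10000 * (R - 22 / 25))) * (9701 / 12500) *
      (767 / 2500 / 5 - 5553 / 10000 * ((1021 / 1000 - R) * ((7342 / 10000 - 7465 / 10000 *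
        (R - 7463 / 10000)) - 2613 / 5000)))
      ≤ 2 * (67 / 1000) * (1191 / 2500 - 2681 / 5000 * (R - 22 / 25)) := by
  obtain ⟨r, hr⟩ : ∃ r, r = R - 7463 / 10000 := ⟨_, rfl⟩
  have e : R = r + 7463 / 10000 := by rw [hr]; ring
  have r0 : 0 ≤ r := by rw [hr]; linarith
  have r1 : r ≤ 1507 / 10000 := by rw [hr]; linarith
  rw [e]
  nlinarith [sq_nonneg (r - 1507 / 10000),
    mul_nonneg r0 (sq_nonneg (r - 1507 / 10000)),
    mul_nonneg (sub_nonneg.2 r1) (sq_nonneg (r - 1507 / 10000)),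
    mul_nonneg r0 (sub_nonneg.2 r1),
    mul_nonneg (mul_nonneg r0 r0) (sub_nonneg.2 r1),
    mul_nonneg r0 (mul_nonneg (sub_nonneg.2 r1) (sub_nonneg.2 r1)),
    pow_nonneg r0 2,
    pow_nonneg r0 3]

theorem e3k_2b (h0 : 7463 / 10000 ≤ R) (h1 : R ≤ 897 / 1000) :
    (5 * (1191 / 2500 - 2681 / 5000 * (R - 22 / 25)) - (1699 / 2000 + 14069 / 10000 * (R - 22 / 25))) * (9701 / 12500) *
      (767 / 2500 / 5 - 5553 / 10000 * ((10681 / 10000 - R) * ((7342 / 10000 - 7465 / 10000 *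
        (R - 7463 / 10000)) - 4819 / 10000)))
      ≤ 2 * (117 / 2000) * (1191 / 2500 - 2681 / 5000 * (R - 22 / 25)) := by
  obtain ⟨r, hr⟩ : ∃ r, r = R - 7463 / 10000 := ⟨_, rfl⟩
  have e : R = r + 7463 / 10000 := by rw [hr]; ring
  have r0 : 0 ≤ r := by rw [hr]; linarith
  have r1 : r ≤ 1507 / 10000 := by rw [hr]; linarith
  rw [e]
  nlinarith [sq_nonneg (r - 1507 / 10000),
    mul_nonneg r0 (sq_nonneg (r - 1507 / 10000)),
    mul_nonneg (sub_nonneg.2 r1) (sq_nonneg (r - 1507 / 10000)),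
    mul_nonneg r0 (sub_nonneg.2 r1),
    mul_nonneg (mul_nonneg r0 r0) (sub_nonneg.2 r1),
    mul_nonneg r0 (mul_nonneg (sub_nonneg.2 r1) (sub_nonneg.2 r1)),
    pow_nonneg r0 2,
    pow_nonneg r0 3]

theorem e3k_2c (h0 : 7463 / 10000 ≤ R) (h1 : R ≤ 897 / 1000) :
    (5 * (1191 / 2500 - 2681 / 5000 * (R - 22 / 25)) - (1699 / 2000 + 14069 / 10000 * (R - 22 / 25))) * (9701 / 12500) *
      (767 / 2500 / 5 - 5553 / 10000 * ((5733 / 5000 - R) * ((7342 / 10000 - 7465 / 10000 *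
        (R - 7463 / 10000)) - 4117 / 10000)))
      ≤ 2 * (9 / 200) * (1191 / 2500 - 2681 / 5000 * (R - 22 / 25)) := by
  obtain ⟨r, hr⟩ : ∃ r, r = R - 7463 / 10000 := ⟨_, rfl⟩
  have e : R = r + 7463 / 10000 := by rw [hr]; ring
  have r0 : 0 ≤ r := by rw [hr]; linarith
  have r1 : r ≤ 1507 / 10000 := by rw [hr]; linarith
  rw [e]
  nlinarith [sq_nonneg (r - 1507 / 10000),
    mul_nonneg r0 (sq_nonneg (r - 1507 / 10000)),
    mul_nonneg (sub_nonneg.2 r1) (sq_nonneg (r - 1507 / 10000)),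
    mul_nonneg r0 (sub_nonneg.2 r1),
    mul_nonneg (mul_nonneg r0 r0) (sub_nonneg.2 r1),
    mul_nonneg r0 (mul_nonneg (sub_nonneg.2 r1) (sub_nonneg.2 r1)),
    pow_nonneg r0 2,
    pow_nonneg r0 3]

theorem e3k_3a (h0 : 7463 / 10000 ≤ R) (h1 : R ≤ 873 / 1000) :
    (5 * (4929 / 10000 - 5301 / 10000 * (R - 43 / 50)) - (1637 / 2000 + 6819 / 5000 * (R - 43 / 50))) * (78613 / 100000) *
      (767 / 2500 / 5 - 5553 / 10000 * ((1021 / 1000 - R) * ((7342 / 10000 - 7465 / 10000 *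
        (R - 7463 / 10000)) - 2613 / 5000)))
      ≤ 2 * (67 / 1000) * (4929 / 10000 - 5301 / 10000 * (R - 43 / 50)) := by
  obtain ⟨r, hr⟩ : ∃ r, r = R - 7463 / 10000 := ⟨_, rfl⟩
  have e : R = r + 7463 / 10000 := by rw [hr]; ring
  have r0 : 0 ≤ r := by rw [hr]; linarith
  have r1 : r ≤ 1267 / 10000 := by rw [hr]; linarith
  rw [e]
  nlinarith [sq_nonneg (r - 1267 / 10000),
    mul_nonneg r0 (sq_nonneg (r - 1267 / 10000)),
    mul_nonneg (sub_nonneg.2 r1) (sq_nonneg (r - 1267 / 10000)),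
    mul_nonneg r0 (sub_nonneg.2 r1),
    mul_nonneg (mul_nonneg r0 r0) (sub_nonneg.2 r1),
    mul_nonneg r0 (mul_nonneg (sub_nonneg.2 r1) (sub_nonneg.2 r1)),
    pow_nonneg r0 2,
    pow_nonneg r0 3]

theorem e3k_3b (h0 : 7463 / 10000 ≤ R) (h1 : R ≤ 873 / 1000) :
    (5 * (4929 / 10000 - 5301 / 10000 * (R - 43 / 50)) - (1637 / 2000 + 6819 / 5000 * (R - 43 / 50))) * (78613 / 100000) *
      (767 / 2500 / 5 - 5553 / 10000 * ((10681 / 10000 - R) * ((7342 / 10000 - 7465 / 10000 *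
        (R - 7463 / 10000)) - 4819 / 10000)))
      ≤ 2 * (117 / 2000) * (4929 / 10000 - 5301 / 10000 * (R - 43 / 50)) := by
  obtain ⟨r, hr⟩ : ∃ r, r = R - 7463 / 10000 := ⟨_, rfl⟩
  have e : R = r + 7463 / 10000 := by rw [hr]; ring
  have r0 : 0 ≤ r := by rw [hr]; linarith
  have r1 : r ≤ 1267 / 10000 := by rw [hr]; linarith
  rw [e]
  nlinarith [sq_nonneg (r - 1267 / 10000),
    mul_nonneg r0 (sq_nonneg (r - 1267 / 10000)),
    mul_nonneg (sub_nonneg.2 r1) (sq_nonneg (r - 1267 / 10000)),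
    mul_nonneg r0 (sub_nonneg.2 r1),
    mul_nonneg (mul_nonneg r0 r0) (sub_nonneg.2 r1),
    mul_nonneg r0 (mul_nonneg (sub_nonneg.2 r1) (sub_nonneg.2 r1)),
    pow_nonneg r0 2,
    pow_nonneg r0 3]

theorem e3k_3c (h0 : 7463 / 10000 ≤ R) (h1 : R ≤ 873 / 1000) :
    (5 * (4929 / 10000 - 5301 / 10000 * (R - 43 / 50)) - (1637 / 2000 + 6819 / 5000 * (R - 43 / 50))) * (78613 / 100000) *
      (767 / 2500 / 5 - 5553 / 10000 * ((5733 / 5000 - R) * ((7342 / 10000 - 7465 / 10000 *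
        (R - 7463 / 10000)) - 4117 / 10000)))
      ≤ 2 * (9 / 200) * (4929 / 10000 - 5301 / 10000 * (R - 43 / 50)) := by
  obtain ⟨r, hr⟩ : ∃ r, r = R - 7463 / 10000 := ⟨_, rfl⟩
  have e : R = r + 7463 / 10000 := by rw [hr]; ring
  have r0 : 0 ≤ r := by rw [hr]; linarith
  have r1 : r ≤ 1267 / 10000 := by rw [hr]; linarith
  rw [e]
  nlinarith [sq_nonneg (r - 1267 / 10000),
    mul_nonneg r0 (sq_nonneg (r - 1267 / 10000)),
    mul_nonneg (sub_nonneg.2 r1) (sq_nonneg (r - 1267 / 10000)),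
    mul_nonneg r0 (sub_nonneg.2 r1),
    mul_nonneg (mul_nonneg r0 r0) (sub_nonneg.2 r1),
    mul_nonneg r0 (mul_nonneg (sub_nonneg.2 r1) (sub_nonneg.2 r1)),
    pow_nonneg r0 2,
    pow_nonneg r0 3]

end

end Pool.Agent.S3.Cl
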