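import Pool.Agent.S3.Cl.E3C
import Pool.Agent.S3.Cl.E3D
import Pool.Agent.S3.Cl.E3K
import Pool.Agent.S3.Cl.Im2

/-!
# Stage 3: (E3) at an inner `2` next to a closed end: the theorem
-/

set_option autoImplicit false

namespace Pool.Agent.S3.Cl

open Complex Pool.Agent.S3
open Pool.Agent.S3.E (Zr uu qe qo bw xx th k2 s2 bo ro be ph In2)

namespace EndDat

variable {R I x θ b P : ℝ}

theorem cr_a : Real.cos (1021 / 1000) ≤ 2613 / 5000 := by
  have := n_c8 (x := 1021 / 1000) (by norm_num)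
  norm_num at this ⊢
  linarith

theorem cr_b : Real.cos (10681 / 10000) ≤ 4819 / 10000 := by
  have := n_c8 (x := 10681 / 10000) (by norm_num)
  norm_num at this ⊢
  linarith

theorem cr_c : Real.cos (5733 / 5000) ≤ 4117 / 10000 := by
  have := n_c8 (x := 5733 / 5000) (by norm_num)
  norm_num at this ⊢
  linarith

theorem e3_a64 (H : EndDat R I x θ b P) (hR : R ≤ 3 / 10 * Real.pi) (hI : I ≤ 4918 / 10000)
    (ht : Real.tan θ ^ 2 ≤ 5779 / 10000) {ρ η0 η1 : ℝ}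
    (h1 : Real.sinh η1 = Real.tan θ * Real.cos (2 / 5 * Real.pi))
    (h0 : Real.sinh η0 = Real.tan θ * Real.cos ρ) (hr0 : 13 / 40 * Real.pi ≤ ρ)
    (hρ : ρ ≤ Real.pi / 2) :
    b * (η1 / 5 - 49 / 50 * (2 / Real.pi) * ((ρ - R) * (I - η0))) ≤ 8 / 125 := by
  have hpi := Real.pi_gt_d6
  have hpi2 := Real.pi_lt_d6
  have hR1 : R ≤ 377 / 400 := by linarith
  rcases le_total (Real.tan θ ^ 2) (117 / 250) with t | t
  · exact H.e3_z0 hI t hR1 h1 h0 (by linarith) hρ cr_a (by norm_num) (by norm_num) (by norm_num)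
      (e3k_0a H.R_ge hR1)
  · exact H.e3_z1 hI (by linarith) ht hR1 h1 h0 (by linarith) hρ cr_a (by norm_num)
      (by norm_num) (by norm_num) (e3k_1a H.R_ge hR1)

theorem e3_a (H : EndDat R I x θ b P) (hR : R ≤ 3 / 10 * Real.pi) (hI : I ≤ 4918 / 10000)
    (ht : Real.tan θ ^ 2 ≤ 309 / 500)
    (hPl : 2 * Real.sin R * Real.cos R * Real.sin θ
      ≤ 1541 / 10000 * Real.cos θ + 748 / 1000 * Real.cos R) {ρ η0 η1 : ℝ}
    (h1 : Real.sinh η1 = Real.tan θ * Real.cos (2 / 5 * Real.pi))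
    (h0 : Real.sinh η0 = Real.tan θ * Real.cos ρ) (hr0 : 13 / 40 * Real.pi ≤ ρ)
    (hρ : ρ ≤ Real.pi / 2) :
    b * (η1 / 5 - 49 / 50 * (2 / Real.pi) * ((ρ - R) * (I - η0))) ≤ 67 / 1000 := by
  have hpi := Real.pi_gt_d6
  have hpi2 := Real.pi_lt_d6
  have hR1 : R ≤ 377 / 400 := by linarith
  have hs : 0 ≤ Real.sin θ := Real.sin_nonneg_of_nonneg_of_le_pi (by linarith [H.θ0])
    (by linarith [H.θ1])
  rcases le_total (Real.tan θ ^ 2) (5779 / 10000) with t1 | t1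
  · have := H.e3_a64 hR hI t1 h1 h0 hr0 hρ
    linarith
  have hR2 := rlim1 H.cosθ_pos hs hPl hR1 t1
  rcases le_total (Real.tan θ ^ 2) (6023 / 10000) with t2 | t2
  · exact H.e3_z2 hI (by linarith) t2 hR2 h1 h0 (by linarith) hρ cr_a (by norm_num)
      (by norm_num) (by norm_num) (e3k_2a H.R_ge hR2)
  have hR3 := rlim2 H.cosθ_pos hs hPl hR1 t2
  exact H.e3_z3 hI (by linarith) ht hR3 h1 h0 (by linarith) hρ cr_a (by norm_num)
    (by norm_num) (by norm_num) (e3k_3a H.R_ge hR3)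

theorem e3_b (H : EndDat R I x θ b P) (hR : R ≤ 3 / 10 * Real.pi) (hI : I ≤ 4918 / 10000)
    (ht : Real.tan θ ^ 2 ≤ 309 / 500)
    (hPl : 2 * Real.sin R * Real.cos R * Real.sin θ
      ≤ 1541 / 10000 * Real.cos θ + 748 / 1000 * Real.cos R) {ρ η0 η1 : ℝ}
    (h1 : Real.sinh η1 = Real.tan θ * Real.cos (2 / 5 * Real.pi))
    (h0 : Real.sinh η0 = Real.tan θ * Real.cos ρ) (hr0 : 17 / 50 * Real.pi ≤ ρ)
    (hρ : ρ ≤ Real.pi / 2) :
    b * (η1 / 5 - 49 / 50 * (2 / Real.pi) * ((ρ - R) * (I - η0))) ≤ 117 / 2000 := by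
  have hpi := Real.pi_gt_d6
  have hpi2 := Real.pi_lt_d6
  have hR1 : R ≤ 377 / 400 := by linarith
  have hs : 0 ≤ Real.sin θ := Real.sin_nonneg_of_nonneg_of_le_pi (by linarith [H.θ0])
    (by linarith [H.θ1])
  rcases le_total (Real.tan θ ^ 2) (117 / 250) with t | t
  · exact H.e3_z0 hI t hR1 h1 h0 (by linarith) hρ cr_b (by norm_num) (by norm_num) (by norm_num)
      (e3k_0b H.R_ge hR1)
  rcases le_total (Real.tan θ ^ 2) (5779 / 10000) with t1 | t1
  · exact H.e3_z1 hI (by linarith) t1 hR1 h1 h0 (by linarith) hρ cr_b (by norm_num)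
      (by norm_num) (by norm_num) (e3k_1b H.R_ge hR1)
  have hR2 := rlim1 H.cosθ_pos hs hPl hR1 t1
  rcases le_total (Real.tan θ ^ 2) (6023 / 10000) with t2 | t2
  · exact H.e3_z2 hI (by linarith) t2 hR2 h1 h0 (by linarith) hρ cr_b (by norm_num)
      (by norm_num) (by norm_num) (e3k_2b H.R_ge hR2)
  have hR3 := rlim2 H.cosθ_pos hs hPl hR1 t2
  exact H.e3_z3 hI (by linarith) ht hR3 h1 h0 (by linarith) hρ cr_b (by norm_num)
    (by norm_num) (by norm_num) (e3k_3b H.R_ge hR3)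

theorem e3_c (H : EndDat R I x θ b P) (hR : R ≤ 3 / 10 * Real.pi) (hI : I ≤ 4918 / 10000)
    (ht : Real.tan θ ^ 2 ≤ 309 / 500)
    (hPl : 2 * Real.sin R * Real.cos R * Real.sin θ
      ≤ 1541 / 10000 * Real.cos θ + 748 / 1000 * Real.cos R) {ρ η0 η1 : ℝ}
    (h1 : Real.sinh η1 = Real.tan θ * Real.cos (2 / 5 * Real.pi))
    (h0 : Real.sinh η0 = Real.tan θ * Real.cos ρ) (hr0 : 73 / 200 * Real.pi ≤ ρ)
    (hρ : ρ ≤ Real.pi / 2) :
    b * (η1 / 5 - 49 / 50 * (2 / Real.pi) * ((ρ - R) * (I - η0))) ≤ 9 / 200 := by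
  have hpi := Real.pi_gt_d6
  have hpi2 := Real.pi_lt_d6
  have hR1 : R ≤ 377 / 400 := by linarith
  have hs : 0 ≤ Real.sin θ := Real.sin_nonneg_of_nonneg_of_le_pi (by linarith [H.θ0])
    (by linarith [H.θ1])
  rcases le_total (Real.tan θ ^ 2) (117 / 250) with t | t
  · exact H.e3_z0 hI t hR1 h1 h0 (by linarith) hρ cr_c (by norm_num) (by norm_num) (by norm_num)
      (e3k_0c H.R_ge hR1)
  rcases le_total (Real.tan θ ^ 2) (5779 / 10000) with t1 | t1
  · exact H.e3_z1 hI (by linarith) t1 hR1 h1 h0 (by linarith) hρ cr_c (by norm_num)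
      (by norm_num) (by norm_num) (e3k_1c H.R_ge hR1)
  have hR2 := rlim1 H.cosθ_pos hs hPl hR1 t1
  rcases le_total (Real.tan θ ^ 2) (6023 / 10000) with t2 | t2
  · exact H.e3_z2 hI (by linarith) t2 hR2 h1 h0 (by linarith) hρ cr_c (by norm_num)
      (by norm_num) (by norm_num) (e3k_2c H.R_ge hR2)
  have hR3 := rlim2 H.cosθ_pos hs hPl hR1 t2
  exact H.e3_z3 hI (by linarith) ht hR3 h1 h0 (by linarith) hρ cr_c (by norm_num)
    (by norm_num) (by norm_num) (e3k_3c H.R_ge hR3)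

end EndDat

section

variable {ι : Type*} [Finite ι] {a : ι → ℝ} {nl nr : ι → Option ι} {z : ι → ℂ}

/-- `P ≤ 1541/10000 + (374/1000) q` in the coordinates -/
theorem Pl_end2 (h : Zr a nl nr 1 z) {i j : ι} (hj : Zr.IsEnd2 a nl nr j i) (ha : a i = 2)
    (hin : In2 nl nr i) :
    2 * Real.sin (z i).re * Real.cos (z i).re * Real.sin (th (z i).re (z i).im)
      ≤ 1541 / 10000 * Real.cos (th (z i).re (z i).im) + 748 / 1000 * Real.cos (z i).re := by
  have H := regQ h hj ha hin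
  have h1 := H.P_le
  have hθ := abs_th h i
  have hθc := Pool.Agent.S3.cos_pos' hθ
  have hcur := curve (x := xx (z i).re (z i).im) hθ
  have hg := h.gd_uu i
  have hRa : Ra (xx (z i).re (z i).im) (th (z i).re (z i).im) = (z i).re := by rw [Ra, hg]
  have hYa : Ya (xx (z i).re (z i).im) (th (z i).re (z i).im) = (z i).im := by rw [Ya, hg]
  rw [hRa, hYa] at hcur
  obtain ⟨hR0, hR1, hI0⟩ := h.pos i
  have hcR : 0 < Real.cos (z i).re := Real.cos_pos_of_mem_Ioo ⟨by linarith, hR1⟩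
  have him : (cos (z i)).im = -(Real.sin (z i).re * Real.sinh (z i).im) := by
    have := Zr.conj_cos_im (z := z i)
    rw [conj_im] at this
    linarith
  have hK : ‖cos (z i)‖ * Real.cos (th (z i).re (z i).im) = Real.cos (z i).re := by
    apply (sq_eq_sq₀ (mul_nonneg (norm_nonneg _) hθc.le) hcR.le).1
    have hn : ‖cos (z i)‖ ^ 2 = Real.cos (z i).re ^ 2 + Real.sinh (z i).im ^ 2 := by
      rw [E.norm_cos_sq, E.GeoX_k2, Real.cosh_sq]; ring
    have hsc := Real.sin_sq_add_cos_sq (th (z i).re (z i).im)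
    rw [mul_pow, hn]
    have h2 : (Real.sinh (z i).im * Real.cos (th (z i).re (z i).im)) ^ 2 =
        (Real.sin (th (z i).re (z i).im) * Real.cos (z i).re) ^ 2 := by rw [hcur]
    linear_combination h2 + Real.cos (z i).re ^ 2 * hsc
  rw [him] at h1
  have h2 := mul_le_mul_of_nonneg_right h1 hθc.le
  have e1 : -2 * -(Real.sin (z i).re * Real.sinh (z i).im) * Real.cos (th (z i).re (z i).im) =
      2 * Real.sin (z i).re * Real.cos (z i).re * Real.sin (th (z i).re (z i).im) := by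
    linear_combination (2 * Real.sin (z i).re) * hcur
  have e2 : (1541 / 10000 + 374 / 1000 * (2 * ‖cos (z i)‖)) * Real.cos (th (z i).re (z i).im) =
      1541 / 10000 * Real.cos (th (z i).re (z i).im) + 748 / 1000 * Real.cos (z i).re := by
    linear_combination (748 / 1000 : ℝ) * hK
  rw [e1, e2] at h2
  exact h2

/-- **(E3)** at an inner `2` next to a closed end. `b` is the weight towards the open neighbour. -/
theorem e3_end2 (h : Zr a nl nr 1 z) (h3 : ∀ i, 3 ≤ a i → a i = 3 ∨ 4 ≤ a i) {i j k : ι}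
    (hj : Zr.IsEnd2 a nl nr j i) (ha : a i = 2) (hin : In2 nl nr i)
    (hk : nl i = some k ∨ nr i = some k) (hkj : k ≠ j)
    (ho : (a k = 2 ∧ In2 nl nr k) ∨ a k = 3 ∨ 4 ≤ a k) {ρ η0 η1 : ℝ}
    (h1 : Real.sinh η1 = Real.tan (th (z i).re (z i).im) * Real.cos (2 / 5 * Real.pi))
    (h0 : Real.sinh η0 = Real.tan (th (z i).re (z i).im) * Real.cos ρ)
    (hρ : ρ ≤ Real.pi / 2) :
    (13 / 40 * Real.pi ≤ ρ → bw (z i) (z k) * (η1 / 5 - 49 / 50 * (2 / Real.pi) *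
      ((ρ - (z i).re) * ((z i).im - η0))) ≤ 67 / 1000) ∧
    (((a k = 2 ∧ In2 nl nr k) ∨ a k = 3) → 13 / 40 * Real.pi ≤ ρ →
      bw (z i) (z k) * (η1 / 5 - 49 / 50 * (2 / Real.pi) *
      ((ρ - (z i).re) * ((z i).im - η0))) ≤ 8 / 125) ∧
    (17 / 50 * Real.pi ≤ ρ → bw (z i) (z k) * (η1 / 5 - 49 / 50 * (2 / Real.pi) *
      ((ρ - (z i).re) * ((z i).im - η0))) ≤ 117 / 2000) ∧
    (73 / 200 * Real.pi ≤ ρ → bw (z i) (z k) * (η1 / 5 - 49 / 50 * (2 / Real.pi) *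
      ((ρ - (z i).re) * ((z i).im - η0))) ≤ 9 / 200) := by
  have H := endDat h hj ha hk hkj ho
  have hR := re_le30_end2 h h3 hj ha hin hk hkj ho
  have hI := (im_le_end2 h hj ha hin).1
  obtain ⟨t1, t2⟩ := tan_end2 h hj ha hin hk hkj
  have hPl := Pl_end2 h hj ha hin
  exact ⟨fun hr => H.e3_a hR hI t1 hPl h1 h0 hr hρ, fun ho' hr => H.e3_a64 hR hI (t2 ho') h1 h0 hr hρ,
    fun hr => H.e3_b hR hI t1 hPl h1 h0 hr hρ, fun hr => H.e3_c hR hI t1 hPl h1 h0 hr hρ⟩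

end

end Pool.Agent.S3.Cl
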