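import Mathlib

/-!
# Stage 3: (E3) at an inner `2` between a closed end and an inner `2`: polynomial inequalities
-/

set_option autoImplicit false

namespace Pool.Agent.S3.Cl

section

variable {R : ℝ}

theorem e3k_5a (h0 : 7463 / 10000 ≤ R) (h1 : R ≤ 22 / 25) :
    (5 * (4019 / 10000 - 4431 / 10000 * (R - 43 / 50)) - (4341 / 5000 + 1771 / 1250 * (R - 43 / 50))) * (31623 / 50000) *
      (3091 / 10000 / 5 - 5553 / 10000 * ((911 / 1000 - R) * ((7342 / 10000 - 7465 / 10000 *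
        (R - 7463 / 10000)) - 613 / 1000)))
      ≤ 2 * (63 / 1000) * (4019 / 10000 - 4431 / 10000 * (R - 43 / 50)) := by
  obtain ⟨r, hr⟩ : ∃ r, r = R - 7463 / 10000 := ⟨_, rfl⟩
  have e : R = r + 7463 / 10000 := by rw [hr]; ring
  have r0 : 0 ≤ r := by rw [hr]; linarith
  have r1 : r ≤ 1337 / 10000 := by rw [hr]; linarith
  rw [e]
  linarith [pow_nonneg (sub_nonneg.2 r1) 3,
    mul_nonneg (pow_nonneg r0 1) (pow_nonneg (sub_nonneg.2 r1) 2),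
    mul_nonneg (pow_nonneg r0 2) (pow_nonneg (sub_nonneg.2 r1) 1),
    pow_nonneg r0 3]

theorem e3k_5b (h0 : 7463 / 10000 ≤ R) (h1 : R ≤ 22 / 25) :
    (5 * (4019 / 10000 - 4431 / 10000 * (R - 43 / 50)) - (4341 / 5000 + 1771 / 1250 * (R - 43 / 50))) * (31623 / 50000) *
      (3091 / 10000 / 5 - 5553 / 10000 * ((9267 / 10000 - R) * ((7342 / 10000 - 7465 / 10000 *
        (R - 7463 / 10000)) - 1201 / 2000)))
      ≤ 2 * (123 / 2000) * (4019 / 10000 - 4431 / 10000 * (R - 43 / 50)) := by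
  obtain ⟨r, hr⟩ : ∃ r, r = R - 7463 / 10000 := ⟨_, rfl⟩
  have e : R = r + 7463 / 10000 := by rw [hr]; ring
  have r0 : 0 ≤ r := by rw [hr]; linarith
  have r1 : r ≤ 1337 / 10000 := by rw [hr]; linarith
  rw [e]
  linarith [pow_nonneg (sub_nonneg.2 r1) 3,
    mul_nonneg (pow_nonneg r0 1) (pow_nonneg (sub_nonneg.2 r1) 2),
    mul_nonneg (pow_nonneg r0 2) (pow_nonneg (sub_nonneg.2 r1) 1),
    pow_nonneg r0 3]

theorem e3k_5c (h0 : 7463 / 10000 ≤ R) (h1 : R ≤ 377 / 400) :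
    (5 * (4019 / 10000 - 4431 / 10000 * (R - 43 / 50)) - (4341 / 5000 + 1771 / 1250 * (R - 43 / 50))) * (31623 / 50000) *
      (3091 / 10000 / 5 - 5553 / 10000 * ((4869 / 5000 - R) * ((7342 / 10000 - 7465 / 10000 *
        (R - 7463 / 10000)) - 2811 / 5000)))
      ≤ 2 * (567 / 10000) * (4019 / 10000 - 4431 / 10000 * (R - 43 / 50)) := by
  obtain ⟨r, hr⟩ : ∃ r, r = R - 7463 / 10000 := ⟨_, rfl⟩
  have e : R = r + 7463 / 10000 := by rw [hr]; ring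
  have r0 : 0 ≤ r := by rw [hr]; linarith
  have r1 : r ≤ 981 / 5000 := by rw [hr]; linarith
  rw [e]
  linarith [pow_nonneg (sub_nonneg.2 r1) 3,
    mul_nonneg (pow_nonneg r0 1) (pow_nonneg (sub_nonneg.2 r1) 2),
    mul_nonneg (pow_nonneg r0 2) (pow_nonneg (sub_nonneg.2 r1) 1),
    pow_nonneg r0 3]

theorem e3k_5d (h0 : 7463 / 10000 ≤ R) (h1 : R ≤ 377 / 400) :
    (5 * (4019 / 10000 - 4431 / 10000 * (R - 43 / 50)) - (4341 / 5000 + 1771 / 1250 * (R - 43 / 50))) * (31623 / 50000) *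
      (3091 / 10000 / 5 - 5553 / 10000 * ((101 / 100 - R) * ((7342 / 10000 - 7465 / 10000 *
        (R - 7463 / 10000)) - 133 / 250)))
      ≤ 2 * (33 / 625) * (4019 / 10000 - 4431 / 10000 * (R - 43 / 50)) := by
  obtain ⟨r, hr⟩ : ∃ r, r = R - 7463 / 10000 := ⟨_, rfl⟩
  have e : R = r + 7463 / 10000 := by rw [hr]; ring
  have r0 : 0 ≤ r := by rw [hr]; linarith
  have r1 : r ≤ 981 / 5000 := by rw [hr]; linarith
  rw [e]
  linarith [pow_nonneg (sub_nonneg.2 r1) 3,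
    mul_nonneg (pow_nonneg r0 1) (pow_nonneg (sub_nonneg.2 r1) 2),
    mul_nonneg (pow_nonneg r0 2) (pow_nonneg (sub_nonneg.2 r1) 1),
    pow_nonneg r0 3]

theorem e3k_5e (h0 : 7463 / 10000 ≤ R) (h1 : R ≤ 377 / 400) :
    (5 * (4019 / 10000 - 4431 / 10000 * (R - 43 / 50)) - (4341 / 5000 + 1771 / 1250 * (R - 43 / 50))) * (31623 / 50000) *
      (3091 / 10000 / 5 - 5553 / 10000 * ((2631 / 2500 - R) * ((7342 / 10000 - 7465 / 10000 *
        (R - 7463 / 10000)) - 1239 / 2500)))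
      ≤ 2 * (479 / 10000) * (4019 / 10000 - 4431 / 10000 * (R - 43 / 50)) := by
  obtain ⟨r, hr⟩ : ∃ r, r = R - 7463 / 10000 := ⟨_, rfl⟩
  have e : R = r + 7463 / 10000 := by rw [hr]; ring
  have r0 : 0 ≤ r := by rw [hr]; linarith
  have r1 : r ≤ 981 / 5000 := by rw [hr]; linarith
  rw [e]
  linarith [pow_nonneg (sub_nonneg.2 r1) 3,
    mul_nonneg (pow_nonneg r0 1) (pow_nonneg (sub_nonneg.2 r1) 2),
    mul_nonneg (pow_nonneg r0 2) (pow_nonneg (sub_nonneg.2 r1) 1),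
    pow_nonneg r0 3]

theorem e3k_5f (h0 : 7463 / 10000 ≤ R) (h1 : R ≤ 377 / 400) :
    (5 * (4019 / 10000 - 4431 / 10000 * (R - 43 / 50)) - (4341 / 5000 + 1771 / 1250 * (R - 43 / 50))) * (31623 / 50000) *
      (3091 / 10000 / 5 - 5553 / 10000 * ((697 / 625 - R) * ((7342 / 10000 - 7465 / 10000 *
        (R - 7463 / 10000)) - 2201 / 5000)))
      ≤ 2 * (401 / 10000) * (4019 / 10000 - 4431 / 10000 * (R - 43 / 50)) := by
  obtain ⟨r, hr⟩ : ∃ r, r = R - 7463 / 10000 := ⟨_, rfl⟩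
  have e : R = r + 7463 / 10000 := by rw [hr]; ring
  have r0 : 0 ≤ r := by rw [hr]; linarith
  have r1 : r ≤ 981 / 5000 := by rw [hr]; linarith
  rw [e]
  linarith [pow_nonneg (sub_nonneg.2 r1) 3,
    mul_nonneg (pow_nonneg r0 1) (pow_nonneg (sub_nonneg.2 r1) 2),
    mul_nonneg (pow_nonneg r0 2) (pow_nonneg (sub_nonneg.2 r1) 1),
    pow_nonneg r0 3]

theorem e3k_5g (h0 : 7463 / 10000 ≤ R) (h1 : R ≤ 377 / 400) :
    (5 * (4019 / 10000 - 4431 / 10000 * (R - 43 / 50)) - (4341 / 5000 + 1771 / 1250 * (R - 43 / 50))) * (31623 / 50000) *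
      (3091 / 10000 / 5 - 5553 / 10000 * ((589 / 500 - R) * ((7342 / 10000 - 7465 / 10000 *
        (R - 7463 / 10000)) - 3829 / 10000)))
      ≤ 2 * (147 / 5000) * (4019 / 10000 - 4431 / 10000 * (R - 43 / 50)) := by
  obtain ⟨r, hr⟩ : ∃ r, r = R - 7463 / 10000 := ⟨_, rfl⟩
  have e : R = r + 7463 / 10000 := by rw [hr]; ring
  have r0 : 0 ≤ r := by rw [hr]; linarith
  have r1 : r ≤ 981 / 5000 := by rw [hr]; linarith
  rw [e]
  linarith [pow_nonneg (sub_nonneg.2 r1) 3,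
    mul_nonneg (pow_nonneg r0 1) (pow_nonneg (sub_nonneg.2 r1) 2),
    mul_nonneg (pow_nonneg r0 2) (pow_nonneg (sub_nonneg.2 r1) 1),
    pow_nonneg r0 3]

theorem e3k_5h (h0 : 7463 / 10000 ≤ R) (h1 : R ≤ 377 / 400) :
    (5 * (4019 / 10000 - 4431 / 10000 * (R - 43 / 50)) - (4341 / 5000 + 1771 / 1250 * (R - 43 / 50))) * (31623 / 50000) *
      (3091 / 10000 / 5 - 5553 / 10000 * ((3063 / 2500 - R) * ((7342 / 10000 - 7465 / 10000 *
        (R - 7463 / 10000)) - 3389 / 10000)))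
      ≤ 2 * (19 / 1000) * (4019 / 10000 - 4431 / 10000 * (R - 43 / 50)) := by
  obtain ⟨r, hr⟩ : ∃ r, r = R - 7463 / 10000 := ⟨_, rfl⟩
  have e : R = r + 7463 / 10000 := by rw [hr]; ring
  have r0 : 0 ≤ r := by rw [hr]; linarith
  have r1 : r ≤ 981 / 5000 := by rw [hr]; linarith
  rw [e]
  linarith [pow_nonneg (sub_nonneg.2 r1) 3,
    mul_nonneg (pow_nonneg r0 1) (pow_nonneg (sub_nonneg.2 r1) 2),
    mul_nonneg (pow_nonneg r0 2) (pow_nonneg (sub_nonneg.2 r1) 1),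
    pow_nonneg r0 3]

theorem e3k_6a (h0 : 7463 / 10000 ≤ R) (h1 : R ≤ 22 / 25) :
    (5 * (2159 / 5000 - 463 / 1000 * (R - 17 / 20)) - (1051 / 1250 + 6921 / 5000 * (R - 17 / 20))) * (33727 / 50000) *
      (3071 / 10000 / 5 - 5553 / 10000 * ((911 / 1000 - R) * ((7342 / 10000 - 7465 / 10000 *
        (R - 7463 / 10000)) - 613 / 1000)))
      ≤ 2 * (63 / 1000) * (2159 / 5000 - 463 / 1000 * (R - 17 / 20)) := by
  obtain ⟨r, hr⟩ : ∃ r, r = R - 7463 / 10000 := ⟨_, rfl⟩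
  have e : R = r + 7463 / 10000 := by rw [hr]; ring
  have r0 : 0 ≤ r := by rw [hr]; linarith
  have r1 : r ≤ 1337 / 10000 := by rw [hr]; linarith
  rw [e]
  linarith [sq_nonneg (r - 123 / 2000),
    mul_nonneg r0 (sq_nonneg (r - 123 / 2000)),
    mul_nonneg (sub_nonneg.2 r1) (sq_nonneg (r - 123 / 2000)),
    mul_nonneg r0 (sub_nonneg.2 r1),
    mul_nonneg (mul_nonneg r0 r0) (sub_nonneg.2 r1),
    mul_nonneg r0 (mul_nonneg (sub_nonneg.2 r1) (sub_nonneg.2 r1)),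
    pow_nonneg r0 2,
    pow_nonneg r0 3]

theorem e3k_6b (h0 : 7463 / 10000 ≤ R) (h1 : R ≤ 22 / 25) :
    (5 * (2159 / 5000 - 463 / 1000 * (R - 17 / 20)) - (1051 / 1250 + 6921 / 5000 * (R - 17 / 20))) * (33727 / 50000) *
      (3071 / 10000 / 5 - 5553 / 10000 * ((9267 / 10000 - R) * ((7342 / 10000 - 7465 / 10000 *
        (R - 7463 / 10000)) - 1201 / 2000)))
      ≤ 2 * (123 / 2000) * (2159 / 5000 - 463 / 1000 * (R - 17 / 20)) := by
  obtain ⟨r, hr⟩ : ∃ r, r = R - 7463 / 10000 := ⟨_, rfl⟩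
  have e : R = r + 7463 / 10000 := by rw [hr]; ring
  have r0 : 0 ≤ r := by rw [hr]; linarith
  have r1 : r ≤ 1337 / 10000 := by rw [hr]; linarith
  rw [e]
  linarith [sq_nonneg (r - 369 / 5000),
    mul_nonneg r0 (sq_nonneg (r - 369 / 5000)),
    mul_nonneg (sub_nonneg.2 r1) (sq_nonneg (r - 369 / 5000)),
    mul_nonneg r0 (sub_nonneg.2 r1),
    mul_nonneg (mul_nonneg r0 r0) (sub_nonneg.2 r1),
    mul_nonneg r0 (mul_nonneg (sub_nonneg.2 r1) (sub_nonneg.2 r1)),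
    pow_nonneg r0 2,
    pow_nonneg r0 3]

theorem e3k_6c (h0 : 7463 / 10000 ≤ R) (h1 : R ≤ 377 / 400) :
    (5 * (2159 / 5000 - 463 / 1000 * (R - 17 / 20)) - (1051 / 1250 + 6921 / 5000 * (R - 17 / 20))) * (33727 / 50000) *
      (3071 / 10000 / 5 - 5553 / 10000 * ((4869 / 5000 - R) * ((7342 / 10000 - 7465 / 10000 *
        (R - 7463 / 10000)) - 2811 / 5000)))
      ≤ 2 * (567 / 10000) * (2159 / 5000 - 463 / 1000 * (R - 17 / 20)) := by
  obtain ⟨r, hr⟩ : ∃ r, r = R - 7463 / 10000 := ⟨_, rfl⟩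
  have e : R = r + 7463 / 10000 := by rw [hr]; ring
  have r0 : 0 ≤ r := by rw [hr]; linarith
  have r1 : r ≤ 981 / 5000 := by rw [hr]; linarith
  rw [e]
  linarith [sq_nonneg (r - 1101 / 10000),
    mul_nonneg r0 (sq_nonneg (r - 1101 / 10000)),
    mul_nonneg (sub_nonneg.2 r1) (sq_nonneg (r - 1101 / 10000)),
    mul_nonneg r0 (sub_nonneg.2 r1),
    mul_nonneg (mul_nonneg r0 r0) (sub_nonneg.2 r1),
    mul_nonneg r0 (mul_nonneg (sub_nonneg.2 r1) (sub_nonneg.2 r1)),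
    pow_nonneg r0 2,
    pow_nonneg r0 3]

theorem e3k_6d (h0 : 7463 / 10000 ≤ R) (h1 : R ≤ 377 / 400) :
    (5 * (2159 / 5000 - 463 / 1000 * (R - 17 / 20)) - (1051 / 1250 + 6921 / 5000 * (R - 17 / 20))) * (33727 / 50000) *
      (3071 / 10000 / 5 - 5553 / 10000 * ((101 / 100 - R) * ((7342 / 10000 - 7465 / 10000 *
        (R - 7463 / 10000)) - 133 / 250)))
      ≤ 2 * (33 / 625) * (2159 / 5000 - 463 / 1000 * (R - 17 / 20)) := by
  obtain ⟨r, hr⟩ : ∃ r, r = R - 7463 / 10000 := ⟨_, rfl⟩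
  have e : R = r + 7463 / 10000 := by rw [hr]; ring
  have r0 : 0 ≤ r := by rw [hr]; linarith
  have r1 : r ≤ 981 / 5000 := by rw [hr]; linarith
  rw [e]
  linarith [sq_nonneg (r - 1371 / 10000),
    mul_nonneg r0 (sq_nonneg (r - 1371 / 10000)),
    mul_nonneg (sub_nonneg.2 r1) (sq_nonneg (r - 1371 / 10000)),
    mul_nonneg r0 (sub_nonneg.2 r1),
    mul_nonneg (mul_nonneg r0 r0) (sub_nonneg.2 r1),
    mul_nonneg r0 (mul_nonneg (sub_nonneg.2 r1) (sub_nonneg.2 r1)),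
    pow_nonneg r0 2,
    pow_nonneg r0 3]

theorem e3k_6e (h0 : 7463 / 10000 ≤ R) (h1 : R ≤ 377 / 400) :
    (5 * (2159 / 5000 - 463 / 1000 * (R - 17 / 20)) - (1051 / 1250 + 6921 / 5000 * (R - 17 / 20))) * (33727 / 50000) *
      (3071 / 10000 / 5 - 5553 / 10000 * ((2631 / 2500 - R) * ((7342 / 10000 - 7465 / 10000 *
        (R - 7463 / 10000)) - 1239 / 2500)))
      ≤ 2 * (479 / 10000) * (2159 / 5000 - 463 / 1000 * (R - 17 / 20)) := by
  obtain ⟨r, hr⟩ : ∃ r, r = R - 7463 / 10000 := ⟨_, rfl⟩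
  have e : R = r + 7463 / 10000 := by rw [hr]; ring
  have r0 : 0 ≤ r := by rw [hr]; linarith
  have r1 : r ≤ 981 / 5000 := by rw [hr]; linarith
  rw [e]
  linarith [sq_nonneg (r - 1681 / 10000),
    mul_nonneg r0 (sq_nonneg (r - 1681 / 10000)),
    mul_nonneg (sub_nonneg.2 r1) (sq_nonneg (r - 1681 / 10000)),
    mul_nonneg r0 (sub_nonneg.2 r1),
    mul_nonneg (mul_nonneg r0 r0) (sub_nonneg.2 r1),
    mul_nonneg r0 (mul_nonneg (sub_nonneg.2 r1) (sub_nonneg.2 r1)),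
    pow_nonneg r0 2,
    pow_nonneg r0 3]

theorem e3k_6f (h0 : 7463 / 10000 ≤ R) (h1 : R ≤ 377 / 400) :
    (5 * (2159 / 5000 - 463 / 1000 * (R - 17 / 20)) - (1051 / 1250 + 6921 / 5000 * (R - 17 / 20))) * (33727 / 50000) *
      (3071 / 10000 / 5 - 5553 / 10000 * ((697 / 625 - R) * ((7342 / 10000 - 7465 / 10000 *
        (R - 7463 / 10000)) - 2201 / 5000)))
      ≤ 2 * (401 / 10000) * (2159 / 5000 - 463 / 1000 * (R - 17 / 20)) := by
  obtain ⟨r, hr⟩ : ∃ r, r = R - 7463 / 10000 := ⟨_, rfl⟩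
  have e : R = r + 7463 / 10000 := by rw [hr]; ring
  have r0 : 0 ≤ r := by rw [hr]; linarith
  have r1 : r ≤ 981 / 5000 := by rw [hr]; linarith
  rw [e]
  linarith [pow_nonneg (sub_nonneg.2 r1) 3,
    mul_nonneg (pow_nonneg r0 1) (pow_nonneg (sub_nonneg.2 r1) 2),
    mul_nonneg (pow_nonneg r0 2) (pow_nonneg (sub_nonneg.2 r1) 1),
    pow_nonneg r0 3]

theorem e3k_6g (h0 : 7463 / 10000 ≤ R) (h1 : R ≤ 377 / 400) :
    (5 * (2159 / 5000 - 463 / 1000 * (R - 17 / 20)) - (1051 / 1250 + 6921 / 5000 * (R - 17 / 20))) * (33727 / 50000) *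
      (3071 / 10000 / 5 - 5553 / 10000 * ((589 / 500 - R) * ((7342 / 10000 - 7465 / 10000 *
        (R - 7463 / 10000)) - 3829 / 10000)))
      ≤ 2 * (147 / 5000) * (2159 / 5000 - 463 / 1000 * (R - 17 / 20)) := by
  obtain ⟨r, hr⟩ : ∃ r, r = R - 7463 / 10000 := ⟨_, rfl⟩
  have e : R = r + 7463 / 10000 := by rw [hr]; ring
  have r0 : 0 ≤ r := by rw [hr]; linarith
  have r1 : r ≤ 981 / 5000 := by rw [hr]; linarith
  rw [e]
  linarith [pow_nonneg (sub_nonneg.2 r1) 3,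
    mul_nonneg (pow_nonneg r0 1) (pow_nonneg (sub_nonneg.2 r1) 2),
    mul_nonneg (pow_nonneg r0 2) (pow_nonneg (sub_nonneg.2 r1) 1),
    pow_nonneg r0 3]

theorem e3k_6h (h0 : 7463 / 10000 ≤ R) (h1 : R ≤ 377 / 400) :
    (5 * (2159 / 5000 - 463 / 1000 * (R - 17 / 20)) - (1051 / 1250 + 6921 / 5000 * (R - 17 / 20))) * (33727 / 50000) *
      (3071 / 10000 / 5 - 5553 / 10000 * ((3063 / 2500 - R) * ((7342 / 10000 - 7465 / 10000 *
        (R - 7463 / 10000)) - 3389 / 10000)))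
      ≤ 2 * (19 / 1000) * (2159 / 5000 - 463 / 1000 * (R - 17 / 20)) := by
  obtain ⟨r, hr⟩ : ∃ r, r = R - 7463 / 10000 := ⟨_, rfl⟩
  have e : R = r + 7463 / 10000 := by rw [hr]; ring
  have r0 : 0 ≤ r := by rw [hr]; linarith
  have r1 : r ≤ 981 / 5000 := by rw [hr]; linarith
  rw [e]
  linarith [pow_nonneg (sub_nonneg.2 r1) 3,
    mul_nonneg (pow_nonneg r0 1) (pow_nonneg (sub_nonneg.2 r1) 2),
    mul_nonneg (pow_nonneg r0 2) (pow_nonneg (sub_nonneg.2 r1) 1),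
    pow_nonneg r0 3]

end

end Pool.Agent.S3.Cl
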