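import Pool.Agent.S3.Cl.E3C
import Pool.Agent.S3.Cl.E3G
import Pool.Agent.S3.Cl.E3H
import Pool.Agent.S3.Cl.Im2
import Pool.Agent.S3.Cl.TwoReg5

/-!
# Stage 3: (E3) at an inner `2` between a closed end and an inner `2`
-/

set_option autoImplicit false

namespace Pool.Agent.S3.Cl

open Complex Pool.Agent.S3
open Pool.Agent.S3.E (Zr uu qe qo bw xx th k2 s2 bo ro be ph In2)

/-- the bound without the second term -/
theorem e3_triv {R I x θ b ρ η0 η1 J X τ1 k1 T : ℝ}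
    (hC : Real.sinh I * Real.cos θ = Real.sin θ * Real.cos R) (hθ : 0 < Real.cos θ)
    (t0 : 0 ≤ Real.tan θ) (I0 : 0 < I) (hb : 2 * I * b = 5 * I - x) (b0 : 0 < b) (hX : X ≤ x)
    (hX0 : 0 ≤ X) (hJ : I ≤ J) (k0 : 0 ≤ k1) (ht : Real.tan θ ≤ τ1)
    (h1 : η1 ≤ k1 * Real.tan θ) (h0 : Real.sinh η0 = Real.tan θ * Real.cos ρ) (hR0 : 0 ≤ R)
    (hR1 : R ≤ Real.pi / 2) (hρ0 : 0 ≤ ρ) (hρ1 : ρ ≤ Real.pi / 2)
    (key : (5 * J - X) * τ1 * (k1 / 5) ≤ 2 * T * J) :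
    b * (η1 / 5 - 49 / 50 * (2 / Real.pi) * ((ρ - R) * (I - η0))) ≤ T := by
  have hpi := Real.pi_pos
  have e : Real.sinh I = Real.tan θ * Real.cos R := by
    rw [Real.tan_eq_sin_div_cos, div_mul_eq_mul_div, eq_div_iff hθ.ne']
    exact hC
  have hp : 0 ≤ (ρ - R) * (I - η0) := by
    rcases le_total R ρ with h | h
    · apply mul_nonneg (by linarith)
      have hc : Real.cos ρ ≤ Real.cos R :=
        Real.cos_le_cos_of_nonneg_of_le_pi hR0 (by linarith) h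
      have : η0 ≤ I := Real.sinh_le_sinh.1 (by
        rw [h0, e]; exact mul_le_mul_of_nonneg_left hc t0)
      linarith
    · apply mul_nonneg_of_nonpos_of_nonpos (by linarith)
      have hc : Real.cos R ≤ Real.cos ρ :=
        Real.cos_le_cos_of_nonneg_of_le_pi hρ0 (by linarith) h
      have : I ≤ η0 := Real.sinh_le_sinh.1 (by
        rw [h0, e]; exact mul_le_mul_of_nonneg_left hc t0)
      linarith
  have k4 : 0 ≤ 49 / 50 * (2 / Real.pi) * ((ρ - R) * (I - η0)) := by positivity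
  have J0 : 0 < J := lt_of_lt_of_le I0 hJ
  have m1 : 2 * J * b ≤ 5 * J - X := by
    have m2 : I * (2 * J * b) ≤ I * (5 * J - X) := by
      have : I * (2 * J * b) = J * (2 * I * b) := by ring
      rw [this, hb]
      have m3 : I * X ≤ J * x := mul_le_mul hJ hX hX0 J0.le
      linarith
    exact le_of_mul_le_mul_left m2 I0
  have m4 : η1 / 5 - 49 / 50 * (2 / Real.pi) * ((ρ - R) * (I - η0)) ≤ τ1 * (k1 / 5) := by
    have : k1 * Real.tan θ ≤ k1 * τ1 := mul_le_mul_of_nonneg_left ht k0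
    linarith
  refine (mul_le_mul_of_nonneg_left m4 b0.le).trans ?_
  have n1 : 0 ≤ τ1 * (k1 / 5) := mul_nonneg (t0.trans ht) (by positivity)
  have n2 := mul_le_mul_of_nonneg_right m1 n1
  have n3 : 2 * J * (b * (τ1 * (k1 / 5))) ≤ 2 * J * T := by
    have e1 : 2 * J * (b * (τ1 * (k1 / 5))) = 2 * J * b * (τ1 * (k1 / 5)) := by ring
    have e2 : (5 * J - X) * (τ1 * (k1 / 5)) = (5 * J - X) * τ1 * (k1 / 5) := by ring
    rw [e1]
    rw [e2] at n2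
    linarith
  exact le_of_mul_le_mul_left n3 (by linarith)

theorem eta1_le'' {θ η1 : ℝ} (t0 : 0 ≤ Real.tan θ) (ht : 2 / 5 ≤ Real.tan θ ^ 2)
    (h1 : Real.sinh η1 = Real.tan θ * Real.cos (2 / 5 * Real.pi)) :
    η1 ≤ 3071 / 10000 * Real.tan θ := by
  have hc := cos_two_fifth_le
  have h2 : Real.sinh η1 ≤ 30902 / 100000 * Real.tan θ := by
    rw [h1, mul_comm]; exact mul_le_mul_of_nonneg_right hc t0
  have h3 : 0 ≤ 3071 / 10000 * Real.tan θ := by positivity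
  have h4 := n_sh5 h3
  have h5 : (0 : ℝ) ≤ (3071 / 10000 * Real.tan θ) ^ 5 / 120 := by positivity
  apply Real.sinh_le_sinh.1
  refine h2.trans (le_trans ?_ h4)
  have h6 : Real.tan θ * (2 / 5) ≤ Real.tan θ ^ 3 := by
    have : Real.tan θ ^ 3 = Real.tan θ * Real.tan θ ^ 2 := by ring
    rw [this]
    exact mul_le_mul_of_nonneg_left ht t0
  rw [mul_pow (3071 / 10000 : ℝ) (Real.tan θ) 3]
  linarith

namespace EndDat

variable {R I x θ b P : ℝ}

theorem e3_z5 (H : EndDat R I x θ b P) (hI : I ≤ 4918 / 10000)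
    (ht : Real.tan θ ^ 2 ≤ 2 / 5) (hR : R ≤ 377 / 400) {ρ η0 η1 r0 c0 T : ℝ}
    (h1 : Real.sinh η1 = Real.tan θ * Real.cos (2 / 5 * Real.pi))
    (h0 : Real.sinh η0 = Real.tan θ * Real.cos ρ) (hr0 : r0 ≤ ρ) (hρ : ρ ≤ Real.pi / 2)
    (hc0 : Real.cos r0 ≤ c0) (hcr : R ≤ r0) (hcc : c0 ≤ 7342 / 10000 - 7465 / 10000 *
      (R - 7463 / 10000)) (hT : 0 ≤ T)
    (key : (5 * (4019 / 10000 - 4431 / 10000 * (R - 43 / 50)) - (4341 / 5000 + 1771 / 1250 * (R - 43 / 50))) * (31623 / 50000) *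
      (3091 / 10000 / 5 - 5553 / 10000 * ((r0 - R) * ((7342 / 10000 - 7465 / 10000 *
        (R - 7463 / 10000)) - c0))) ≤ 2 * T * (4019 / 10000 - 4431 / 10000 * (R - 43 / 50))) :
    b * (η1 / 5 - 49 / 50 * (2 / Real.pi) * ((ρ - R) * (I - η0))) ≤ T := by
  have hθ := H.cosθ_pos
  have t0 := H.tan_nn
  have hc1 : 16903 / 20000 ≤ Real.cos θ := cos_ge_tan hθ ht (by norm_num)
  have ht1 : Real.tan θ ≤ 31623 / 50000 := tan_le_sq ht (by norm_num) (by norm_num)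
  have hRg := H.R_ge
  have hpi := Real.pi_gt_three
  have hc : Real.cos ρ ≤ Real.cos r0 :=
    Real.cos_le_cos_of_nonneg_of_le_pi (by linarith) (by linarith) hr0
  have hcρ : 0 ≤ Real.cos ρ := Real.cos_nonneg_of_mem_Icc ⟨by linarith, hρ⟩
  exact e3_zone H.hC hθ t0 H.I0 (cosh_I_le H.I0 hI) H.hb H.b0 (xl_5 H.hS hRg hR hc1)
    (by linarith) (jl_5 H.hC hRg hR hθ ht1) ht1 (eta1_le t0 h1) h0 hr0
    hcr hcρ (hc.trans hc0) hcc (cos_chord hRg (by linarith)) hT key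

theorem e3_t5 (H : EndDat R I x θ b P)
    (ht : Real.tan θ ^ 2 ≤ 2 / 5) (hR : R ≤ 377 / 400) {ρ η0 η1 T : ℝ}
    (h1 : Real.sinh η1 = Real.tan θ * Real.cos (2 / 5 * Real.pi))
    (h0 : Real.sinh η0 = Real.tan θ * Real.cos ρ) (hρ0 : 0 ≤ ρ) (hρ : ρ ≤ Real.pi / 2)
    (key : (5 * (4019 / 10000 - 4431 / 10000 * (R - 43 / 50)) - (4341 / 5000 + 1771 / 1250 * (R - 43 / 50))) * (31623 / 50000) *
      (3091 / 10000 / 5) ≤ 2 * T * (4019 / 10000 - 4431 / 10000 * (R - 43 / 50))) :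
    b * (η1 / 5 - 49 / 50 * (2 / Real.pi) * ((ρ - R) * (I - η0))) ≤ T := by
  have hθ := H.cosθ_pos
  have t0 := H.tan_nn
  have hc1 : 16903 / 20000 ≤ Real.cos θ := cos_ge_tan hθ ht (by norm_num)
  have ht1 : Real.tan θ ≤ 31623 / 50000 := tan_le_sq ht (by norm_num) (by norm_num)
  have hRg := H.R_ge
  exact e3_triv H.hC hθ t0 H.I0 H.hb H.b0 (xl_5 H.hS hRg hR hc1)
    (by linarith) (jl_5 H.hC hRg hR hθ ht1) (by norm_num) ht1 (eta1_le t0 h1) h0 H.R0.le H.R1.le hρ0 hρ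
    key

theorem e3_z6 (H : EndDat R I x θ b P) (hI : I ≤ 4918 / 10000)
    (ht0 : 2 / 5 ≤ Real.tan θ ^ 2) (ht : Real.tan θ ^ 2 ≤ 91 / 200) (hR : R ≤ 377 / 400) {ρ η0 η1 r0 c0 T : ℝ}
    (h1 : Real.sinh η1 = Real.tan θ * Real.cos (2 / 5 * Real.pi))
    (h0 : Real.sinh η0 = Real.tan θ * Real.cos ρ) (hr0 : r0 ≤ ρ) (hρ : ρ ≤ Real.pi / 2)
    (hc0 : Real.cos r0 ≤ c0) (hcr : R ≤ r0) (hcc : c0 ≤ 7342 / 10000 - 7465 / 10000 *
      (R - 7463 / 10000)) (hT : 0 ≤ T)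
    (key : (5 * (2159 / 5000 - 463 / 1000 * (R - 17 / 20)) - (1051 / 1250 + 6921 / 5000 * (R - 17 / 20))) * (33727 / 50000) *
      (3071 / 10000 / 5 - 5553 / 10000 * ((r0 - R) * ((7342 / 10000 - 7465 / 10000 *
        (R - 7463 / 10000)) - c0))) ≤ 2 * T * (2159 / 5000 - 463 / 1000 * (R - 17 / 20))) :
    b * (η1 / 5 - 49 / 50 * (2 / Real.pi) * ((ρ - R) * (I - η0))) ≤ T := by
  have hθ := H.cosθ_pos
  have t0 := H.tan_nn
  have hc1 : 41451 / 50000 ≤ Real.cos θ := cos_ge_tan hθ ht (by norm_num)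
  have ht1 : Real.tan θ ≤ 33727 / 50000 := tan_le_sq ht (by norm_num) (by norm_num)
  have hRg := H.R_ge
  have hpi := Real.pi_gt_three
  have hc : Real.cos ρ ≤ Real.cos r0 :=
    Real.cos_le_cos_of_nonneg_of_le_pi (by linarith) (by linarith) hr0
  have hcρ : 0 ≤ Real.cos ρ := Real.cos_nonneg_of_mem_Icc ⟨by linarith, hρ⟩
  exact e3_zone H.hC hθ t0 H.I0 (cosh_I_le H.I0 hI) H.hb H.b0 (xl_6 H.hS hRg hR hc1)
    (by linarith) (jl_6 H.hC hRg hR hθ ht1) ht1 (eta1_le'' t0 ht0 h1) h0 hr0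
    hcr hcρ (hc.trans hc0) hcc (cos_chord hRg (by linarith)) hT key

theorem e3_t6 (H : EndDat R I x θ b P)
    (ht0 : 2 / 5 ≤ Real.tan θ ^ 2) (ht : Real.tan θ ^ 2 ≤ 91 / 200) (hR : R ≤ 377 / 400) {ρ η0 η1 T : ℝ}
    (h1 : Real.sinh η1 = Real.tan θ * Real.cos (2 / 5 * Real.pi))
    (h0 : Real.sinh η0 = Real.tan θ * Real.cos ρ) (hρ0 : 0 ≤ ρ) (hρ : ρ ≤ Real.pi / 2)
    (key : (5 * (2159 / 5000 - 463 / 1000 * (R - 17 / 20)) - (1051 / 1250 + 6921 / 5000 * (R - 17 / 20))) * (33727 / 50000) *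
      (3071 / 10000 / 5) ≤ 2 * T * (2159 / 5000 - 463 / 1000 * (R - 17 / 20))) :
    b * (η1 / 5 - 49 / 50 * (2 / Real.pi) * ((ρ - R) * (I - η0))) ≤ T := by
  have hθ := H.cosθ_pos
  have t0 := H.tan_nn
  have hc1 : 41451 / 50000 ≤ Real.cos θ := cos_ge_tan hθ ht (by norm_num)
  have ht1 : Real.tan θ ≤ 33727 / 50000 := tan_le_sq ht (by norm_num) (by norm_num)
  have hRg := H.R_ge
  exact e3_triv H.hC hθ t0 H.I0 H.hb H.b0 (xl_6 H.hS hRg hR hc1)
    (by linarith) (jl_6 H.hC hRg hR hθ ht1) (by norm_num) ht1 (eta1_le'' t0 ht0 h1) h0 H.R0.le H.R1.le hρ0 hρ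
    key

theorem cr2_a : Real.cos (911 / 1000) ≤ 613 / 1000 := by
  have := n_c8 (x := 911 / 1000) (by norm_num)
  norm_num at this ⊢
  linarith

theorem cr2_b : Real.cos (9267 / 10000) ≤ 1201 / 2000 := by
  have := n_c8 (x := 9267 / 10000) (by norm_num)
  norm_num at this ⊢
  linarith

theorem cr2_c : Real.cos (4869 / 5000) ≤ 2811 / 5000 := by
  have := n_c8 (x := 4869 / 5000) (by norm_num)
  norm_num at this ⊢
  linarith

theorem cr2_d : Real.cos (101 / 100) ≤ 133 / 250 := by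
  have := n_c8 (x := 101 / 100) (by norm_num)
  norm_num at this ⊢
  linarith

theorem cr2_e : Real.cos (2631 / 2500) ≤ 1239 / 2500 := by
  have := n_c8 (x := 2631 / 2500) (by norm_num)
  norm_num at this ⊢
  linarith

theorem cr2_f : Real.cos (697 / 625) ≤ 2201 / 5000 := by
  have := n_c8 (x := 697 / 625) (by norm_num)
  norm_num at this ⊢
  linarith

theorem cr2_g : Real.cos (589 / 500) ≤ 3829 / 10000 := by
  have := n_c8 (x := 589 / 500) (by norm_num)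
  norm_num at this ⊢
  linarith

theorem cr2_h : Real.cos (3063 / 2500) ≤ 3389 / 10000 := by
  have := n_c8 (x := 3063 / 2500) (by norm_num)
  norm_num at this ⊢
  linarith

theorem e3_two_a (H : EndDat R I x θ b P) (hR : R ≤ 3 / 10 * Real.pi)
    (hI : I ≤ 4918 / 10000) (ht : Real.tan θ ^ 2 ≤ 91 / 200) {ρ η0 η1 : ℝ}
    (h1 : Real.sinh η1 = Real.tan θ * Real.cos (2 / 5 * Real.pi))
    (h0 : Real.sinh η0 = Real.tan θ * Real.cos ρ) (hr0 : 29 / 100 * Real.pi ≤ ρ)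
    (hρ : ρ ≤ Real.pi / 2) :
    b * (η1 / 5 - 49 / 50 * (2 / Real.pi) * ((ρ - R) * (I - η0))) ≤ 63 / 1000 := by
  have hpi := Real.pi_gt_d6
  have hpi2 := Real.pi_lt_d6
  have hR1 : R ≤ 377 / 400 := by linarith
  rcases le_total R (22 / 25) with hr | hr
  · rcases le_total (Real.tan θ ^ 2) (2 / 5) with t | t
    · exact H.e3_z5 hI t hR1 h1 h0 (by linarith) hρ cr2_a (by linarith) (by linarith)
        (by norm_num) (e3k_5a H.R_ge hr)
    · exact H.e3_z6 hI t ht hR1 h1 h0 (by linarith) hρ cr2_a (by linarith) (by linarith)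
        (by norm_num) (e3k_6a H.R_ge hr)
  · rcases le_total (Real.tan θ ^ 2) (2 / 5) with t | t
    · exact H.e3_t5 t hR1 h1 h0 (by linarith) hρ (by linarith)
    · exact H.e3_t6 t ht hR1 h1 h0 (by linarith) hρ (by linarith)

theorem e3_two_b (H : EndDat R I x θ b P) (hR : R ≤ 3 / 10 * Real.pi)
    (hI : I ≤ 4918 / 10000) (ht : Real.tan θ ^ 2 ≤ 91 / 200) {ρ η0 η1 : ℝ}
    (h1 : Real.sinh η1 = Real.tan θ * Real.cos (2 / 5 * Real.pi))
    (h0 : Real.sinh η0 = Real.tan θ * Real.cos ρ) (hr0 : 59 / 200 * Real.pi ≤ ρ)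
    (hρ : ρ ≤ Real.pi / 2) :
    b * (η1 / 5 - 49 / 50 * (2 / Real.pi) * ((ρ - R) * (I - η0))) ≤ 123 / 2000 := by
  have hpi := Real.pi_gt_d6
  have hpi2 := Real.pi_lt_d6
  have hR1 : R ≤ 377 / 400 := by linarith
  rcases le_total R (22 / 25) with hr | hr
  · rcases le_total (Real.tan θ ^ 2) (2 / 5) with t | t
    · exact H.e3_z5 hI t hR1 h1 h0 (by linarith) hρ cr2_b (by linarith) (by linarith)
        (by norm_num) (e3k_5b H.R_ge hr)
    · exact H.e3_z6 hI t ht hR1 h1 h0 (by linarith) hρ cr2_b (by linarith) (by linarith)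
        (by norm_num) (e3k_6b H.R_ge hr)
  · rcases le_total (Real.tan θ ^ 2) (2 / 5) with t | t
    · exact H.e3_t5 t hR1 h1 h0 (by linarith) hρ (by linarith)
    · exact H.e3_t6 t ht hR1 h1 h0 (by linarith) hρ (by linarith)

theorem e3_two_c (H : EndDat R I x θ b P) (hR : R ≤ 3 / 10 * Real.pi)
    (hI : I ≤ 4918 / 10000) (ht : Real.tan θ ^ 2 ≤ 91 / 200) {ρ η0 η1 : ℝ}
    (h1 : Real.sinh η1 = Real.tan θ * Real.cos (2 / 5 * Real.pi))
    (h0 : Real.sinh η0 = Real.tan θ * Real.cos ρ) (hr0 : 31 / 100 * Real.pi ≤ ρ)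
    (hρ : ρ ≤ Real.pi / 2) :
    b * (η1 / 5 - 49 / 50 * (2 / Real.pi) * ((ρ - R) * (I - η0))) ≤ 567 / 10000 := by
  have hpi := Real.pi_gt_d6
  have hpi2 := Real.pi_lt_d6
  have hR1 : R ≤ 377 / 400 := by linarith
  rcases le_total (Real.tan θ ^ 2) (2 / 5) with t | t
  · exact H.e3_z5 hI t hR1 h1 h0 (by linarith) hρ cr2_c (by linarith) (by linarith)
      (by norm_num) (e3k_5c H.R_ge hR1)
  · exact H.e3_z6 hI t ht hR1 h1 h0 (by linarith) hρ cr2_c (by linarith) (by linarith)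
      (by norm_num) (e3k_6c H.R_ge hR1)

theorem e3_two_d (H : EndDat R I x θ b P) (hR : R ≤ 3 / 10 * Real.pi)
    (hI : I ≤ 4918 / 10000) (ht : Real.tan θ ^ 2 ≤ 91 / 200) {ρ η0 η1 : ℝ}
    (h1 : Real.sinh η1 = Real.tan θ * Real.cos (2 / 5 * Real.pi))
    (h0 : Real.sinh η0 = Real.tan θ * Real.cos ρ) (hr0 : 643 / 2000 * Real.pi ≤ ρ)
    (hρ : ρ ≤ Real.pi / 2) :
    b * (η1 / 5 - 49 / 50 * (2 / Real.pi) * ((ρ - R) * (I - η0))) ≤ 33 / 625 := by
  have hpi := Real.pi_gt_d6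
  have hpi2 := Real.pi_lt_d6
  have hR1 : R ≤ 377 / 400 := by linarith
  rcases le_total (Real.tan θ ^ 2) (2 / 5) with t | t
  · exact H.e3_z5 hI t hR1 h1 h0 (by linarith) hρ cr2_d (by linarith) (by linarith)
      (by norm_num) (e3k_5d H.R_ge hR1)
  · exact H.e3_z6 hI t ht hR1 h1 h0 (by linarith) hρ cr2_d (by linarith) (by linarith)
      (by norm_num) (e3k_6d H.R_ge hR1)

theorem e3_two_e (H : EndDat R I x θ b P) (hR : R ≤ 3 / 10 * Real.pi)
    (hI : I ≤ 4918 / 10000) (ht : Real.tan θ ^ 2 ≤ 91 / 200) {ρ η0 η1 : ℝ}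
    (h1 : Real.sinh η1 = Real.tan θ * Real.cos (2 / 5 * Real.pi))
    (h0 : Real.sinh η0 = Real.tan θ * Real.cos ρ) (hr0 : 67 / 200 * Real.pi ≤ ρ)
    (hρ : ρ ≤ Real.pi / 2) :
    b * (η1 / 5 - 49 / 50 * (2 / Real.pi) * ((ρ - R) * (I - η0))) ≤ 479 / 10000 := by
  have hpi := Real.pi_gt_d6
  have hpi2 := Real.pi_lt_d6
  have hR1 : R ≤ 377 / 400 := by linarith
  rcases le_total (Real.tan θ ^ 2) (2 / 5) with t | t
  · exact H.e3_z5 hI t hR1 h1 h0 (by linarith) hρ cr2_e (by linarith) (by linarith)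
      (by norm_num) (e3k_5e H.R_ge hR1)
  · exact H.e3_z6 hI t ht hR1 h1 h0 (by linarith) hρ cr2_e (by linarith) (by linarith)
      (by norm_num) (e3k_6e H.R_ge hR1)

theorem e3_two_f (H : EndDat R I x θ b P) (hR : R ≤ 3 / 10 * Real.pi)
    (hI : I ≤ 4918 / 10000) (ht : Real.tan θ ^ 2 ≤ 91 / 200) {ρ η0 η1 : ℝ}
    (h1 : Real.sinh η1 = Real.tan θ * Real.cos (2 / 5 * Real.pi))
    (h0 : Real.sinh η0 = Real.tan θ * Real.cos ρ) (hr0 : 71 / 200 * Real.pi ≤ ρ)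
    (hρ : ρ ≤ Real.pi / 2) :
    b * (η1 / 5 - 49 / 50 * (2 / Real.pi) * ((ρ - R) * (I - η0))) ≤ 401 / 10000 := by
  have hpi := Real.pi_gt_d6
  have hpi2 := Real.pi_lt_d6
  have hR1 : R ≤ 377 / 400 := by linarith
  rcases le_total (Real.tan θ ^ 2) (2 / 5) with t | t
  · exact H.e3_z5 hI t hR1 h1 h0 (by linarith) hρ cr2_f (by linarith) (by linarith)
      (by norm_num) (e3k_5f H.R_ge hR1)
  · exact H.e3_z6 hI t ht hR1 h1 h0 (by linarith) hρ cr2_f (by linarith) (by linarith)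
      (by norm_num) (e3k_6f H.R_ge hR1)

theorem e3_two_g (H : EndDat R I x θ b P) (hR : R ≤ 3 / 10 * Real.pi)
    (hI : I ≤ 4918 / 10000) (ht : Real.tan θ ^ 2 ≤ 91 / 200) {ρ η0 η1 : ℝ}
    (h1 : Real.sinh η1 = Real.tan θ * Real.cos (2 / 5 * Real.pi))
    (h0 : Real.sinh η0 = Real.tan θ * Real.cos ρ) (hr0 : 3 / 8 * Real.pi ≤ ρ)
    (hρ : ρ ≤ Real.pi / 2) :
    b * (η1 / 5 - 49 / 50 * (2 / Real.pi) * ((ρ - R) * (I - η0))) ≤ 147 / 5000 := by
  have hpi := Real.pi_gt_d6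
  have hpi2 := Real.pi_lt_d6
  have hR1 : R ≤ 377 / 400 := by linarith
  rcases le_total (Real.tan θ ^ 2) (2 / 5) with t | t
  · exact H.e3_z5 hI t hR1 h1 h0 (by linarith) hρ cr2_g (by linarith) (by linarith)
      (by norm_num) (e3k_5g H.R_ge hR1)
  · exact H.e3_z6 hI t ht hR1 h1 h0 (by linarith) hρ cr2_g (by linarith) (by linarith)
      (by norm_num) (e3k_6g H.R_ge hR1)

theorem e3_two_h (H : EndDat R I x θ b P) (hR : R ≤ 3 / 10 * Real.pi)
    (hI : I ≤ 4918 / 10000) (ht : Real.tan θ ^ 2 ≤ 91 / 200) {ρ η0 η1 : ℝ}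
    (h1 : Real.sinh η1 = Real.tan θ * Real.cos (2 / 5 * Real.pi))
    (h0 : Real.sinh η0 = Real.tan θ * Real.cos ρ) (hr0 : 39 / 100 * Real.pi ≤ ρ)
    (hρ : ρ ≤ Real.pi / 2) :
    b * (η1 / 5 - 49 / 50 * (2 / Real.pi) * ((ρ - R) * (I - η0))) ≤ 19 / 1000 := by
  have hpi := Real.pi_gt_d6
  have hpi2 := Real.pi_lt_d6
  have hR1 : R ≤ 377 / 400 := by linarith
  rcases le_total (Real.tan θ ^ 2) (2 / 5) with t | t
  · exact H.e3_z5 hI t hR1 h1 h0 (by linarith) hρ cr2_h (by linarith) (by linarith)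
      (by norm_num) (e3k_5h H.R_ge hR1)
  · exact H.e3_z6 hI t ht hR1 h1 h0 (by linarith) hρ cr2_h (by linarith) (by linarith)
      (by norm_num) (e3k_6h H.R_ge hR1)

end EndDat

section

variable {ι : Type*} [Finite ι] {a : ι → ℝ} {nl nr : ι → Option ι} {z : ι → ℂ}

/-- `tan² θ ≤ 91/200` if `-im cos z ≥ 2377/10000` at the third vertex -/
theorem tan455_end2 (h : Zr a nl nr 1 z) {i j k : ι}
    (hj : Zr.IsEnd2 a nl nr j i) (ha : a i = 2) (hin : In2 nl nr i)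
    (hk : nl i = some k ∨ nr i = some k) (hkj : k ≠ j)
    (hIm : 2377 / 10000 ≤ ((starRingEnd ℂ) (cos (z k))).im) :
    Real.tan (th (z i).re (z i).im) ^ 2 ≤ 91 / 200 := by
  have H := regQ h hj ha hin
  have hkp := h.k2pos i
  have ec := E.cos_two_th (h.pos i).1 (h.pos i).2.1 (h.pos i).2.2
  have e2 := s2_sq h i
  have e3 := s2_nn h i
  have hθ := abs_th h i
  have hc := Pool.Agent.S3.cos_pos' hθ
  have hsc := Real.sin_sq_add_cos_sq (th (z i).re (z i).im)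
  have hd := regQ_im h hj ha hk hkj
  have hq := H.q_le166
  have hI2 : (2377 / 10000) ^ 2 ≤ ((starRingEnd ℂ) (cos (z k))).im ^ 2 :=
    pow_le_pow_left₀ (by norm_num) hIm 2
  rw [hd] at hI2
  have hP := H.T455 hI2
  rw [k2_eq h i] at hkp ec
  set K := ‖cos (z i)‖ with hK
  set P := -2 * (cos (z i)).im with hPd
  set S := s2 (z i).re (z i).im with hS
  have hK1 : K ^ 2 ≤ 689 / 1000 := by nlinarith [norm_nonneg (cos (z i))]
  have h2 : (1 + 91 / 200) * S ≤ (1 + 91 / 200) - (1 - 91 / 200) * K ^ 2 := by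
    by_contra hcon
    push Not at hcon
    have h3 : ((1 + 91 / 200) - (1 - 91 / 200) * K ^ 2) ^ 2 < ((1 + 91 / 200) * S) ^ 2 :=
      pow_lt_pow_left₀ hcon (by nlinarith) two_ne_zero
    rw [mul_pow, e2] at h3
    nlinarith
  have h4 : 1 - 91 / 200 ≤ Real.cos (2 * th (z i).re (z i).im) * (1 + 91 / 200) := by
    rw [ec, div_mul_eq_mul_div, le_div_iff₀ hkp]
    linarith
  rw [Real.cos_two_mul] at h4
  rw [Real.tan_eq_sin_div_cos, div_pow, div_le_iff₀ (by positivity)]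
  nlinarith

/-- `-im cos z ≥ 2377/10000` if `tan θ ≥ 1/2`, `23π/100 ≤ R ≤ 3π/10` -/
theorem im_ge_2377 (h : Zr a nl nr 1 z) (k : ι) (ht : 1 / 2 ≤ Real.tan (th (z k).re (z k).im))
    (h0 : 23 / 100 * Real.pi ≤ (z k).re) (h1 : (z k).re ≤ 3 / 10 * Real.pi) :
    2377 / 10000 ≤ ((starRingEnd ℂ) (cos (z k))).im := by
  have hpi := Real.pi_pos
  have hpi2 := Real.pi_gt_three
  obtain ⟨hR0, hR1, hI0⟩ := h.pos k
  have hθ := abs_th h k
  have hθc := Pool.Agent.S3.cos_pos' hθ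
  have hcur := curve (x := xx (z k).re (z k).im) hθ
  have hg := h.gd_uu k
  have hRa : Ra (xx (z k).re (z k).im) (th (z k).re (z k).im) = (z k).re := by rw [Ra, hg]
  have hYa : Ya (xx (z k).re (z k).im) (th (z k).re (z k).im) = (z k).im := by rw [Ya, hg]
  rw [hRa, hYa] at hcur
  have e : Real.sinh (z k).im = Real.tan (th (z k).re (z k).im) * Real.cos (z k).re := by
    rw [Real.tan_eq_sin_div_cos, div_mul_eq_mul_div, eq_div_iff hθc.ne']
    exact hcur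
  have e2 : ((starRingEnd ℂ) (cos (z k))).im =
      Real.tan (th (z k).re (z k).im) * (Real.sin (2 * (z k).re) / 2) := by
    rw [Zr.conj_cos_im, e, Real.sin_two_mul]; ring
  -- `sin 2R ≥ 4755/5000`
  have hs : Real.sin (2 * (3 / 10 * Real.pi)) ≤ Real.sin (2 * (z k).re) := by
    have e3 : Real.sin (2 * (3 / 10 * Real.pi)) = Real.cos (Real.pi / 10) := by
      rw [← Real.cos_sub_pi_div_two]; congr 1; ring
    have e4 : Real.sin (2 * (z k).re) = Real.cos |2 * (z k).re - Real.pi / 2| := by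
      rw [Real.cos_abs, Real.cos_sub_pi_div_two]
    rw [e3, e4]
    apply Real.cos_le_cos_of_nonneg_of_le_pi (abs_nonneg _) (by linarith)
    rw [abs_le]
    constructor <;> linarith
  have hs2 : 9508 / 10000 ≤ Real.sin (2 * (3 / 10 * Real.pi)) := by
    have e3 : Real.sin (2 * (3 / 10 * Real.pi)) = Real.cos (Real.pi / 10) := by
      rw [← Real.cos_sub_pi_div_two]; congr 1; ring
    rw [e3]
    have a2 := Real.pi_lt_d4
    have a1 := Real.cos_le_cos_of_nonneg_of_le_pi (x := Real.pi / 10) (y := 31416 / 100000)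
      (by positivity) (by linarith) (by linarith)
    have a3 := n_c6 (x := 31416 / 100000) (by norm_num)
    norm_num at a3 a1
    linarith
  rw [e2]
  have : 1 / 2 * (9508 / 10000 / 2) ≤
      Real.tan (th (z k).re (z k).im) * (Real.sin (2 * (z k).re) / 2) :=
    mul_le_mul ht (by linarith) (by norm_num) (by linarith)
  linarith

/-- **(E3)** at an inner `2` between a closed end and an inner `2`. `b` is the weight towards the
inner `2`. -/
theorem e3_two_end2 (h : Zr a nl nr 1 z) (h3 : ∀ i, 3 ≤ a i → a i = 3 ∨ 4 ≤ a i) {i j k : ι}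
    (hj : Zr.IsEnd2 a nl nr j i) (ha : a i = 2) (hin : In2 nl nr i)
    (hk : nl i = some k ∨ nr i = some k) (hkj : k ≠ j) (hk2 : a k = 2) (hkin : In2 nl nr k)
    (hIm : 2377 / 10000 ≤ ((starRingEnd ℂ) (cos (z k))).im) {ρ η0 η1 : ℝ}
    (h1 : Real.sinh η1 = Real.tan (th (z i).re (z i).im) * Real.cos (2 / 5 * Real.pi))
    (h0 : Real.sinh η0 = Real.tan (th (z i).re (z i).im) * Real.cos ρ)
    (hρ : ρ ≤ Real.pi / 2) :
    (29 / 100 * Real.pi ≤ ρ → bw (z i) (z k) * (η1 / 5 - 49 / 50 * (2 / Real.pi) *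
      ((ρ - (z i).re) * ((z i).im - η0))) ≤ 63 / 1000) ∧
    (59 / 200 * Real.pi ≤ ρ → bw (z i) (z k) * (η1 / 5 - 49 / 50 * (2 / Real.pi) *
      ((ρ - (z i).re) * ((z i).im - η0))) ≤ 123 / 2000) ∧
    (31 / 100 * Real.pi ≤ ρ → bw (z i) (z k) * (η1 / 5 - 49 / 50 * (2 / Real.pi) *
      ((ρ - (z i).re) * ((z i).im - η0))) ≤ 567 / 10000) ∧
    (643 / 2000 * Real.pi ≤ ρ → bw (z i) (z k) * (η1 / 5 - 49 / 50 * (2 / Real.pi) *
      ((ρ - (z i).re) * ((z i).im - η0))) ≤ 33 / 625) ∧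
    (67 / 200 * Real.pi ≤ ρ → bw (z i) (z k) * (η1 / 5 - 49 / 50 * (2 / Real.pi) *
      ((ρ - (z i).re) * ((z i).im - η0))) ≤ 479 / 10000) ∧
    (71 / 200 * Real.pi ≤ ρ → bw (z i) (z k) * (η1 / 5 - 49 / 50 * (2 / Real.pi) *
      ((ρ - (z i).re) * ((z i).im - η0))) ≤ 401 / 10000) ∧
    (3 / 8 * Real.pi ≤ ρ → bw (z i) (z k) * (η1 / 5 - 49 / 50 * (2 / Real.pi) *
      ((ρ - (z i).re) * ((z i).im - η0))) ≤ 147 / 5000) ∧
    (39 / 100 * Real.pi ≤ ρ → bw (z i) (z k) * (η1 / 5 - 49 / 50 * (2 / Real.pi) *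
      ((ρ - (z i).re) * ((z i).im - η0))) ≤ 19 / 1000) := by
  have H := endDat h hj ha hk hkj (Or.inl ⟨hk2, hkin⟩)
  have hR := re_le30_end2 h h3 hj ha hin hk hkj (Or.inl ⟨hk2, hkin⟩)
  have hI := (im_le_end2 h hj ha hin).1
  have ht := tan455_end2 h hj ha hin hk hkj hIm
  exact ⟨fun hr => H.e3_two_a hR hI ht h1 h0 hr hρ,
    fun hr => H.e3_two_b hR hI ht h1 h0 hr hρ,
    fun hr => H.e3_two_c hR hI ht h1 h0 hr hρ,
    fun hr => H.e3_two_d hR hI ht h1 h0 hr hρ,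
    fun hr => H.e3_two_e hR hI ht h1 h0 hr hρ,
    fun hr => H.e3_two_f hR hI ht h1 h0 hr hρ,
    fun hr => H.e3_two_g hR hI ht h1 h0 hr hρ,
    fun hr => H.e3_two_h hR hI ht h1 h0 hr hρ⟩

end

end Pool.Agent.S3.Cl
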