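import Pool.Agent.S3.Cl.Hyp
import Pool.Agent.S3.Cl.Mir
import Pool.Agent.S3.CritC

/-!
# Stage 3: closed ends: the estimate of an edge with a closed end, in terms of the critical point
-/

namespace Pool.Agent.S3.Cl

open Complex Pool.Agent.S3
open Pool.Agent.H25.RK (gdv gdv_re_lt gdv_hasDerivAt)
open Pool.Agent.S3.E (Zr uu qe qo bw xx th)

/-- the critical `y` of helper95 and `yc` -/
theorem yc_eq_yy {u w : ℂ} (h : Reg u w) (hw : cosh w ^ 2 = -2 * I * cosh u) : yy u w = yc u := by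
  have hpi := Real.pi_pos
  obtain ⟨c1, c2⟩ := cs_yc h.left
  have e1 : sin (Real.pi * (yy u w - yc u)) = 0 := by
    rw [mul_sub, Complex.sin_sub, sin_yy h, TT_cl h hw, c1, c2]
    ring
  obtain ⟨k, hk⟩ := Complex.sin_eq_zero_iff.1 e1
  have e2 : yy u w - yc u = (k : ℂ) := by
    apply mul_left_cancel₀ pi_ne
    rw [hk]; ring
  have e3 : (yy u w).re - (yc u).re = (k : ℝ) := by
    have := congrArg Complex.re e2
    simpa using this
  have y0 := yy_re_pos h
  have y1 := yy_re_lt h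
  have z0 := yc_re_pos h.left
  have z1 := yc_re_lt h.left
  have k0 : k = 0 := by
    have a1 : (k : ℝ) < 1 := by linarith
    have a2 : (-1 : ℝ) < (k : ℝ) := by linarith
    have b1 : k < 1 := by exact_mod_cast a1
    have b2 : -1 < k := by exact_mod_cast a2
    omega
  rw [k0, Int.cast_zero] at e2
  exact sub_eq_zero.1 e2

theorem normSq_sinh' (q : ℂ) : normSq (sinh q) = Real.sinh q.re ^ 2 + Real.sin q.im ^ 2 := by
  rw [normSq_apply, sinh_re', sinh_im']
  have h1 := Real.sin_sq_add_cos_sq q.im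
  have h2 := Real.cosh_sq q.re
  linear_combination (Real.sin q.im ^ 2) * h2 + (Real.sinh q.re ^ 2) * h1

section

variable {ι : Type*} [Finite ι] {a : ι → ℝ} {nl nr : ι → Option ι} {z : ι → ℂ}

omit [Finite ι] in
theorem abs_th (h : Zr a nl nr 1 z) (i : ι) : |th (z i).re (z i).im| < Real.pi / 2 :=
  E.abs_th_lt (h.pos i).1 (h.pos i).2.1 (h.pos i).2.2

omit [Finite ι] in
theorem sinh_uu_sq (i : ι) : normSq (sinh (uu (z i)))
    = Real.sinh (xx (z i).re (z i).im) ^ 2 + Real.sin (th (z i).re (z i).im) ^ 2 := by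
  rw [normSq_sinh', uu, UU_re, UU_im]

/-- the real part of the other slot -/
theorem qo_re_le (h : Zr a nl nr 1 z) {i : ι} {o : Option ι} (ho : nl i = o ∨ nr i = o) :
    Real.sinh (qo z i o).re ^ 2
      ≤ Real.sinh (xx (z i).re (z i).im) ^ 2 + Real.sin (th (z i).re (z i).im) ^ 2 ∧
      0 ≤ (qo z i o).im := by
  cases o with
  | none =>
    constructor
    · have e : qo z i none = 0 := rfl
      rw [e, zero_re, Real.sinh_zero, zero_pow two_ne_zero]
      exact add_nonneg (sq_nonneg _) (sq_nonneg _)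
    · exact le_rfl
  | some k =>
    have hq := h.qe_pos ho
    refine ⟨?_, hq.2.1.le⟩
    show Real.sinh (qe (z i) (z k)).re ^ 2 ≤ _
    have h1 : Real.sinh (qe (z i) (z k)).re ^ 2 ≤ normSq (sinh (qe (z i) (z k))) := by
      rw [normSq_sinh']
      have := sq_nonneg (Real.sin (qe (z i) (z k)).im)
      linarith
    refine h1.trans ?_
    have ck := E.cosh_uu (h.pos k).1 (h.pos k).2.1 (h.pos k).2.2
    have hk : ‖cos (z k)‖ ≤ 1 := by
      rw [E.norm_cos_eq, Real.sqrt_le_left (by norm_num), one_pow]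
      exact h.k2_le k
    have e1 : sinh (qe (z i) (z k)) = sinh (uu (z i)) * (starRingEnd ℂ) (cos (z k)) := by
      have e2 : qe (z i) (z k) = qq (uu (z i)) ((starRingEnd ℂ) (uu (z k))) := by
        rw [qe, uu, uu, UU_conj]
      have e3 : cosh ((starRingEnd ℂ) (uu (z k))) * (starRingEnd ℂ) (cos (z k)) = 1 := by
        rw [← conj_cosh', ← map_mul, ck, map_one]
      have e4 : cosh ((starRingEnd ℂ) (uu (z k))) ≠ 0 := by
        intro h0
        rw [h0, zero_mul] at e3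
        exact zero_ne_one e3
      rw [e2, sinh_qq, div_eq_iff e4]
      linear_combination (-sinh (uu (z i))) * e3
    rw [e1, map_mul, normSq_conj, ← sinh_uu_sq]
    have h2 : normSq (cos (z k)) ≤ 1 := by
      rw [normSq_eq_norm_sq]
      have := norm_nonneg (cos (z k))
      nlinarith
    have h3 := normSq_nonneg (sinh (uu (z i)))
    nlinarith

/-- the constraints hold at the neighbour of a closed end -/
theorem reg0 (h : Zr a nl nr 1 z) {i j : ι} (hj : Zr.IsEnd2 a nl nr j i) (ha : 3 ≤ a i) :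
    (∃ σ : ℝ, Reg0 (Ra (xx (z i).re (z i).im) (th (z i).re (z i).im))
      (Ya (xx (z i).re (z i).im) (th (z i).re (z i).im))
      (th (z i).re (z i).im) (xx (z i).re (z i).im) σ) ∧
    (2 * a i + 1) * (z i).re < 2 * Real.pi := by
  have hpi := Real.pi_pos
  have hθ := abs_th h i
  have hg := h.gd_uu i
  have hji : nl j = some i ∨ nr j = some i := by
    rcases hj.2 with ⟨h1, h2⟩ | ⟨h1, h2⟩
    · exact Or.inl h1
    · exact Or.inr h2
  have hij := h.N.symm j i hji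
  have hRa : Ra (xx (z i).re (z i).im) (th (z i).re (z i).im) = (z i).re := by rw [Ra, hg]
  have hYa : Ya (xx (z i).re (z i).im) (th (z i).re (z i).im) = (z i).im := by rw [Ya, hg]
  have hq : qe (z i) (z j) = qcl (uu (z i)) := (h.ecrit1 hj).2
  have q1 := two_qcl_re (xx (z i).re (z i).im) (th (z i).re (z i).im)
  have q2 := two_qcl_im (xx (z i).re (z i).im) (th (z i).re (z i).im)
  have hu : UU (xx (z i).re (z i).im) (th (z i).re (z i).im) = uu (z i) := rfl
  rw [hu, ← hq, hYa] at q1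
  rw [hu, ← hq, hRa] at q2
  -- the other slot
  obtain ⟨Q, hQ1, hQ2, hQ3, hQ4⟩ : ∃ Q : ℂ,
      a i * (z i).re = Real.pi - (qe (z i) (z j)).im - Q.im ∧
      a i * (z i).im = (qe (z i) (z j)).re + Q.re ∧
      Real.sinh Q.re ^ 2
        ≤ Real.sinh (xx (z i).re (z i).im) ^ 2 + Real.sin (th (z i).re (z i).im) ^ 2 ∧
      0 ≤ Q.im := by
    have v1 := h.vertex_re i
    have v2 := h.vertex_im i
    rcases hij with h1 | h1
    · refine ⟨qo z i (nr i), ?_, ?_, qo_re_le h (Or.inr rfl)⟩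
      · rw [h1] at v1; exact v1
      · rw [h1] at v2; exact v2
    · refine ⟨qo z i (nl i), ?_, ?_, qo_re_le h (Or.inl rfl)⟩
      · rw [h1] at v1
        have e : qo z i (some j) = qe (z i) (z j) := rfl
        rw [e] at v1
        linarith
      · rw [h1] at v2
        have e : qo z i (some j) = qe (z i) (z j) := rfl
        rw [e] at v2
        linarith
  have hth := h.thpos i
  have hR0 := (h.pos i).1
  have hI0 := (h.pos i).2.2
  refine ⟨⟨Q.re, ?_, ?_, ?_, hth, h.th_le i (Or.inl ha), h.xxpos i, ?_, ?_, ?_, ?_, hQ3⟩, ?_⟩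
  · rw [hRa]; exact hR0
  · rw [hRa]; exact (h.pos i).2.1
  · rw [hYa]; exact hI0
  · exact (RaS hθ).symm
  · -- `sin θ cosh J = sinh J cosh x`
    have g1 := geo_cos (x := xx (z i).re (z i).im) hθ
    have g2 := geo_sin (x := xx (z i).re (z i).im) hθ
    have c := curve (x := xx (z i).re (z i).im) hθ
    have hc := cos_Ra_pos (x := xx (z i).re (z i).im) hθ
    have n := nc_pos (x := xx (z i).re (z i).im) hθ
    have e1 := g1.1
    have e4 := g2.2
    apply mul_left_cancel₀ (mul_pos hc n).ne'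
    have a1 : Real.cos (Ra (xx (z i).re (z i).im) (th (z i).re (z i).im))
        * Real.cosh (Ya (xx (z i).re (z i).im) (th (z i).re (z i).im))
        * normSq (cosh (UU (xx (z i).re (z i).im) (th (z i).re (z i).im)))
        = Real.cosh (xx (z i).re (z i).im) * Real.cos (th (z i).re (z i).im) := by
      rw [e1]; field_simp
    have a2 : Real.cos (Ra (xx (z i).re (z i).im) (th (z i).re (z i).im))
        * Real.sinh (Ya (xx (z i).re (z i).im) (th (z i).re (z i).im))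
        * normSq (cosh (UU (xx (z i).re (z i).im) (th (z i).re (z i).im)))
        = Real.sin (th (z i).re (z i).im) * Real.cos (th (z i).re (z i).im) := by
      rw [e4]; field_simp
    linear_combination (Real.sin (th (z i).re (z i).im)) * a1
      - (Real.cosh (xx (z i).re (z i).im)) * a2
  · rw [hRa]
    nlinarith
  · rw [hYa]
    nlinarith
  · nlinarith

/-- `θ ≤ 27/50` at a neighbour (`a ≥ 3`) of a closed end -/
theorem th_le_of_end (h : Zr a nl nr 1 z) {i j : ι} (hj : Zr.IsEnd2 a nl nr j i) (ha : 3 ≤ a i) :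
    th (z i).re (z i).im ≤ 27 / 50 := by
  obtain ⟨⟨σ, H⟩, -⟩ := reg0 h hj ha
  exact H.θ_le

/-- `R < 2π/7` at a neighbour (`a ≥ 3`) of a closed end -/
theorem re_lt_of_end (h : Zr a nl nr 1 z) {i j : ι} (hj : Zr.IsEnd2 a nl nr j i) (ha : 3 ≤ a i) :
    (z i).re / Real.pi < 2 / 7 := by
  obtain ⟨-, hR⟩ := reg0 h hj ha
  have hpi := Real.pi_pos
  have hR0 := (h.pos i).1
  rw [div_lt_iff₀ hpi]
  nlinarith

/-- the conditions on the weight beyond the line -/
def LamOK (a b v1 lam : ℝ) : Prop :=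
  2 * lam * (1 - a * v1) ≤ v1 ∧ 2 * lam * (1 + a * v1) ≤ (4 * b + 1) * v1

theorem clH_Phi (h : Zr a nl nr 1 z) {i j : ι} (hj : Zr.IsEnd2 a nl nr j i) (ha : 3 ≤ a i)
    {v1 : ℝ} (v0 : 0 < v1) (vh : v1 ≤ 1 / 3) (va : 2 ≤ v1 * (2 * a i + 1)) {Φ : ℂ → ℂ}
    (hΦ : IsPhi1 Φ) (h0 : Φ 0 = Fc 0) :
    ClH Φ (th (z i).re (z i).im) (xx (z i).re (z i).im) (bw (z i) (z j)) v1 := by
  obtain ⟨⟨σ, H⟩, hR⟩ := reg0 h hj ha
  have hji : nl j = some i ∨ nr j = some i := by
    rcases hj.2 with ⟨h1, h2⟩ | ⟨h1, h2⟩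
    · exact Or.inl h1
    · exact Or.inr h2
  have hij := h.N.symm j i hji
  have hpi := Real.pi_pos
  refine clH hΦ h0 (h.bw_pos hij) ?_ v0 vh ?_ H
  · have hq : qe (z i) (z j) = qcl (uu (z i)) := (h.ecrit1 hj).2
    have hu : UU (xx (z i).re (z i).im) (th (z i).re (z i).im) = uu (z i) := rfl
    rw [h.gd_uu i, hu, ← hq, bw, div_mul_cancel₀ _ (h.pos i).2.2.ne']
  · have hRa : Ra (xx (z i).re (z i).im) (th (z i).re (z i).im) = (z i).re := by
      rw [Ra, h.gd_uu i]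
    rw [hRa]
    have h1 : 2 * Real.pi ≤ (Real.pi * v1) * (2 * a i + 1) := by
      have := mul_le_mul_of_nonneg_left va hpi.le
      linarith
    have h2 : (z i).re * (2 * a i + 1) < (Real.pi * v1) * (2 * a i + 1) := by linarith
    exact lt_of_mul_lt_mul_right h2 (by linarith)

theorem clH_of (h : Zr a nl nr 1 z) {i j : ι} (hj : Zr.IsEnd2 a nl nr j i) (ha : 3 ≤ a i)
    {v1 : ℝ} (v0 : 0 < v1) (vh : v1 ≤ 1 / 3) (va : 2 ≤ v1 * (2 * a i + 1)) :
    ∃ Φ : ℂ → ℂ, ClH Φ (th (z i).re (z i).im) (xx (z i).re (z i).im) (bw (z i) (z j)) v1 := by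
  obtain ⟨Φ, hΦ, h0⟩ := exists_Phi1 (Fc 0)
  exact ⟨Φ, clH_Phi h hj ha v0 vh va hΦ h0⟩

omit [Finite ι] in
theorem hji_of {i j : ι} (hj : Zr.IsEnd2 a nl nr j i) : nl j = some i ∨ nr j = some i := by
  rcases hj.2 with ⟨h1, h2⟩ | ⟨h1, h2⟩
  · exact Or.inl h1
  · exact Or.inr h2

theorem yc_eq (h : Zr a nl nr 1 z) {i j : ι} (hj : Zr.IsEnd2 a nl nr j i) :
    yy (uu (z i)) ((starRingEnd ℂ) (uu (z j))) = yc (uu (z i)) :=
  yc_eq_yy (h.reg_edge (h.N.symm j i (hji_of hj))) (h.cosh_sq_end hj)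

theorem edge_n (h : Zr a nl nr 1 z) {i j : ι} (hj : Zr.IsEnd2 a nl nr j i) (ha : 3 ≤ a i)
    {v1 lam : ℝ} (v0 : 0 < v1) (vh : v1 ≤ 1 / 3) (va : 2 ≤ v1 * (2 * a i + 1))
    (hl : LamOK (a i) (bw (z i) (z j)) v1 lam) {v : ℂ} (hv : v ∈ G0 (th (z i).re (z i).im) v1)
    (hne : v ≠ gdv (uu (z i))) :
    EdgeOK (.op v) (.cl 1) (Lsh (EE (.op (gdv (uu (z i)))) (.cl 1)
        (yy (uu (z i)) ((starRingEnd ℂ) (uu (z j)))))
      (gdv (uu (z i))) (qe (z i) (z j)) (-(2 * Real.pi * bw (z i) (z j)))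
      (th (z i).re (z i).im) v1 (-(a i / 2)) lam v) := by
  obtain ⟨Φ, H⟩ := clH_of h hj ha v0 vh va
  rw [yc_eq h hj, (h.ecrit1 hj).2]
  exact W1n H (by have := hl.1; linarith) (by have := hl.2; linarith) hv hne

theorem edge_p (h : Zr a nl nr 1 z) {i j : ι} (hj : Zr.IsEnd2 a nl nr j i) (ha : 3 ≤ a i)
    {v1 lam : ℝ} (v0 : 0 < v1) (vh : v1 ≤ 1 / 3) (va : 2 ≤ v1 * (2 * a i + 1))
    (hl : LamOK (a i) (bw (z i) (z j)) v1 lam) {v : ℂ} (hv : v ∈ G0 (th (z i).re (z i).im) v1)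
    (hne : v ≠ mir (gdv (uu (z i)))) :
    EdgeOK (.op v) (.cl (-1)) (Lsh (EE (.op (mir (gdv (uu (z i))))) (.cl (-1))
        ((starRingEnd ℂ) (yy (uu (z i)) ((starRingEnd ℂ) (uu (z j))))))
      (mir (gdv (uu (z i)))) (-((starRingEnd ℂ) (qe (z i) (z j)))) (2 * Real.pi * bw (z i) (z j))
      (th (z i).re (z i).im) v1 (a i / 2) lam v) := by
  obtain ⟨Φ, H⟩ := clH_of h hj ha v0 vh va
  rw [yc_eq h hj, (h.ecrit1 hj).2]
  exact W1p H (by have := hl.1; linarith) (by have := hl.2; linarith) hv hne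

theorem near_n (h : Zr a nl nr 1 z) {i j : ι} (hj : Zr.IsEnd2 a nl nr j i) (ha : 3 ≤ a i) :
    EdgeC (.op (gdv (uu (z i)))) (.cl 1) (yy (uu (z i)) ((starRingEnd ℂ) (uu (z j))))
      (EE (.op (gdv (uu (z i)))) (.cl 1) (yy (uu (z i)) ((starRingEnd ℂ) (uu (z j))))) := by
  obtain ⟨Φ, H⟩ := clH_of h hj ha (v1 := 1 / 3) (by norm_num) le_rfl (by linarith)
  rw [yc_eq h hj]
  exact W2c H

theorem near_p (h : Zr a nl nr 1 z) {i j : ι} (hj : Zr.IsEnd2 a nl nr j i) (ha : 3 ≤ a i) :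
    EdgeC (.op (mir (gdv (uu (z i))))) (.cl (-1))
      ((starRingEnd ℂ) (yy (uu (z i)) ((starRingEnd ℂ) (uu (z j)))))
      (EE (.op (mir (gdv (uu (z i))))) (.cl (-1))
        ((starRingEnd ℂ) (yy (uu (z i)) ((starRingEnd ℂ) (uu (z j)))))) := by
  obtain ⟨Φ, H⟩ := clH_of h hj ha (v1 := 1 / 3) (by norm_num) le_rfl (by linarith)
  rw [yc_eq h hj]
  exact W2p H

end

end Pool.Agent.S3.Cl
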