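import Pool.Agent.S3.Gr1

/-!
# Closed end edges: the growth along the flat through the critical point
-/

set_option autoImplicit false

namespace Pool.Agent.S3.Cl

open Complex Set

/-! ### Monotonicity with one exceptional point -/

theorem mono_exc {f : ℝ → ℝ} {a b s : ℝ} (hc : Continuous f)
    (hd : ∀ t ∈ Ioo a b, t ≠ s → ∃ f', 0 < f' ∧ HasDerivAt f f' t) :
    StrictMonoOn f (Icc a b) := by
  have key : ∀ c d : ℝ, a ≤ c → d ≤ b → (∀ t ∈ Ioo c d, t ≠ s) → StrictMonoOn f (Icc c d) := by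
    intro c d hac hdb h
    apply strictMonoOn_of_deriv_pos (convex_Icc c d) hc.continuousOn
    intro t ht
    rw [interior_Icc] at ht
    obtain ⟨f', hf, hf'⟩ := hd t ⟨by linarith [ht.1], by linarith [ht.2]⟩ (h t ht)
    rw [hf'.deriv]
    exact hf
  by_cases hs : s ∈ Ioo a b
  · have h1 := key a s le_rfl hs.2.le (fun t ht => ht.2.ne)
    have h2 := key s b hs.1.le le_rfl (fun t ht => ht.1.ne')
    have h3 := h1.union h2 (isGreatest_Icc hs.1.le) (isLeast_Icc hs.2.le)
    rwa [Icc_union_Icc_eq_Icc hs.1.le hs.2.le] at h3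
  · exact key a b le_rfl le_rfl (fun t ht h => hs (h ▸ ht))

/-! ### The derivative -/

theorem EE_cl_op (v y : ℂ) : EE (.cl 1) (.op v) y =
    3 * Rf (y + 1 / 2) + Real.pi * (y.im * (1 - y.re)) - Rf (y - v) - Rf (y + v) := by
  unfold EE se
  push_cast
  ring

theorem EE_continuous (v : ℂ) : Continuous (EE (.cl 1) (.op v)) := by
  have h := Rf_continuous
  have e : EE (.cl 1) (.op v) = fun y : ℂ =>
      3 * Rf (y + 1 / 2) + Real.pi * (y.im * (1 - y.re)) - Rf (y - v) - Rf (y + v) := by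
    funext y
    exact EE_cl_op v y
  rw [e]
  have h1 : Continuous fun y : ℂ => Rf (y + 1 / 2) := h.comp (by fun_prop)
  have h2 : Continuous fun y : ℂ => Rf (y - v) := h.comp (by fun_prop)
  have h3 : Continuous fun y : ℂ => Rf (y + v) := h.comp (by fun_prop)
  have h4 : Continuous fun y : ℂ => Real.pi * (y.im * (1 - y.re)) := by fun_prop
  exact (((continuous_const.mul h1).add h4).sub h2).sub h3

theorem Rf_line_deriv {t η c : ℝ} {w : ℂ} (hw : w = (c : ℂ) + η * I)
    (h : sin (Real.pi * ((t : ℂ) + w)) ≠ 0) :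
    HasDerivAt (fun t : ℝ => Rf ((t : ℂ) + w)) (Real.log ‖2 * sin (Real.pi * ((t : ℂ) + w))‖) t := by
  have e : ∀ t : ℝ, (t : ℂ) + w = ((t + c : ℝ) : ℂ) + η * I := fun t => by
    rw [hw]; push_cast; ring
  have h1 : sin (Real.pi * (((t + c : ℝ) : ℂ) + η * I)) ≠ 0 := by rwa [← e]
  have h2 := (Rf_hasDerivAt (t := t + c) (η := η) h1).comp_add_const t c
  have e2 : (fun t : ℝ => Rf ((t : ℂ) + w)) = fun x : ℝ => Rf (((x + c : ℝ) : ℂ) + η * I) := by
    funext x
    rw [e]
  rw [e2, e t]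
  exact h2

/-- the variable `z = e^{2 π i y}` -/
noncomputable def zz (y : ℂ) : ℂ := exp (2 * Real.pi * I * y)

theorem zz_norm (y : ℂ) : ‖zz y‖ = Real.exp (-(2 * Real.pi * y.im)) := by
  rw [zz, norm_exp]
  congr 1
  simp

theorem zz_re (y : ℂ) : (zz y).re = Real.exp (-(2 * Real.pi * y.im)) * Real.cos (2 * Real.pi * y.re) := by
  rw [zz, exp_re]
  congr 2 <;> simp

theorem zz_im (y : ℂ) : (zz y).im = Real.exp (-(2 * Real.pi * y.im)) * Real.sin (2 * Real.pi * y.re) := by
  rw [zz, exp_im]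
  congr 2 <;> simp

/-- the denominator -/
theorem den_eq (v y : ℂ) : (2 * sin (Real.pi * (y - v))) * (2 * sin (Real.pi * (y + v))) * zz y =
    -((1 + zz y) ^ 2 - 4 * zz y * cos (Real.pi * v) ^ 2) := by
  have hz : zz y = exp (I * (Real.pi * y)) ^ 2 := by
    rw [zz, ← exp_nat_mul]
    congr 1
    push_cast
    ring
  have h1 : 2 * cos (Real.pi * y) * exp (I * (Real.pi * y)) = 1 + exp (I * (Real.pi * y)) ^ 2 := by
    rw [Complex.cos]
    have e1 : exp (Real.pi * y * I) = exp (I * (Real.pi * y)) := by congr 1; ring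
    have e2 : exp (-(Real.pi * y) * I) * exp (I * (Real.pi * y)) = 1 := by
      rw [← exp_add]
      rw [show -(Real.pi * y) * I + I * (Real.pi * y) = 0 by ring, exp_zero]
    rw [e1]
    linear_combination e2
  have h2 : sin (Real.pi * (y - v)) * sin (Real.pi * (y + v)) =
      cos (Real.pi * v) ^ 2 - cos (Real.pi * y) ^ 2 := by
    rw [mul_sub, mul_add, Complex.sin_sub, Complex.sin_add]
    have s1 := Complex.sin_sq_add_cos_sq (Real.pi * y)
    have s2 := Complex.sin_sq_add_cos_sq (Real.pi * v)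
    linear_combination (cos (Real.pi * v) ^ 2) * s1 - (cos (Real.pi * y) ^ 2) * s2
  have h3 : 4 * (sin (Real.pi * (y - v)) * sin (Real.pi * (y + v))) * zz y =
      4 * cos (Real.pi * v) ^ 2 * zz y - (2 * cos (Real.pi * y) * exp (I * (Real.pi * y))) ^ 2 := by
    rw [h2, hz]
    ring
  rw [h1, ← hz] at h3
  linear_combination h3

theorem num_norm (y : ℂ) : ‖2 * sin (Real.pi * (y + 1 / 2))‖ =
    ‖1 + zz y‖ * Real.exp (Real.pi * y.im) := by
  have e0 : sin (Real.pi * (y + 1 / 2)) = cos (Real.pi * y) := by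
    rw [mul_add, show (Real.pi : ℂ) * (1 / 2) = Real.pi / 2 by ring, Complex.sin_add_pi_div_two]
  have e1 : 2 * cos (Real.pi * y) = (1 + zz y) * exp (-(I * (Real.pi * y))) := by
    rw [Complex.cos, zz, add_mul, one_mul, ← exp_add]
    rw [show 2 * Real.pi * I * y + -(I * (Real.pi * y)) = Real.pi * y * I by ring,
      show -(I * (Real.pi * y)) = -(Real.pi * y) * I by ring]
    ring
  rw [e0, e1, norm_mul, norm_exp]
  congr 2
  simp

/-- the growth along a horizontal line -/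
theorem flat_deriv {v : ℂ} {t h : ℝ} (h1 : 1 + zz (t + h * I) ≠ 0)
    (h2 : (1 + zz (t + h * I)) ^ 2 - 4 * zz (t + h * I) * cos (Real.pi * v) ^ 2 ≠ 0) :
    HasDerivAt (fun t : ℝ => EE (.cl 1) (.op v) (t + h * I))
      (3 * Real.log ‖1 + zz (t + h * I)‖ - Real.log ‖(1 + zz (t + h * I)) ^ 2 -
        4 * zz (t + h * I) * cos (Real.pi * v) ^ 2‖) t := by
  set y : ℂ := t + h * I with hy
  have hyim : y.im = h := by simp [hy]
  have hd := den_eq v y
  have hz0 : zz y ≠ 0 := exp_ne_zero _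
  have hs1 : sin (Real.pi * (y - v)) ≠ 0 := by
    intro h0
    rw [h0] at hd
    apply h2
    linear_combination hd
  have hs2 : sin (Real.pi * (y + v)) ≠ 0 := by
    intro h0
    rw [h0] at hd
    apply h2
    linear_combination hd
  have hn := num_norm y
  have hs3 : sin (Real.pi * (y + 1 / 2)) ≠ 0 := by
    intro h0
    rw [h0, mul_zero, norm_zero] at hn
    have : 0 < ‖1 + zz y‖ * Real.exp (Real.pi * y.im) :=
      mul_pos (norm_pos_iff.mpr h1) (Real.exp_pos _)
    linarith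
  have hv : v = (v.re : ℂ) + v.im * I := (re_add_im v).symm
  have d1 := Rf_line_deriv (t := t) (w := h * I + 1 / 2) (c := 1 / 2) (η := h)
    (by push_cast; ring) (by rw [← add_assoc]; exact hs3)
  have d2 := Rf_line_deriv (t := t) (w := h * I - v) (c := -v.re) (η := h - v.im)
    (by conv_lhs => rw [hv]
        push_cast; ring) (by rw [← add_sub_assoc]; exact hs1)
  have d3 := Rf_line_deriv (t := t) (w := h * I + v) (c := v.re) (η := h + v.im)
    (by conv_lhs => rw [hv]
        push_cast; ring) (by rw [← add_assoc]; exact hs2)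
  have d4 : HasDerivAt (fun t : ℝ => Real.pi * (h * (1 - t))) (-(Real.pi * h)) t := by
    exact ((((hasDerivAt_id t).const_sub 1).const_mul h).const_mul Real.pi).congr_deriv (by ring)
  have d5 := (((d1.const_mul 3).add d4).sub d2).sub d3
  have e : (fun t : ℝ => EE (.cl 1) (.op v) (t + h * I)) =
      ((((fun y : ℝ => 3 * Rf ((y : ℂ) + (h * I + 1 / 2))) + fun t : ℝ => Real.pi * (h * (1 - t))) -
        fun t : ℝ => Rf ((t : ℂ) + (h * I - v))) - fun t : ℝ => Rf ((t : ℂ) + (h * I + v))) := by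
    funext s
    rw [EE_cl_op]
    simp only [Pi.add_apply, Pi.sub_apply]
    rw [← add_assoc, ← add_sub_assoc, ← add_assoc]
    simp
  rw [e]
  refine d5.congr_deriv ?_
  rw [← add_assoc, ← add_sub_assoc, ← add_assoc, ← hy]
  have hA : 0 < ‖1 + zz y‖ := norm_pos_iff.mpr h1
  rw [hn, Real.log_mul hA.ne' (Real.exp_pos _).ne', Real.log_exp, hyim]
  have hprod : ‖2 * sin (Real.pi * (y - v))‖ * ‖2 * sin (Real.pi * (y + v))‖ *
      Real.exp (-(2 * Real.pi * h)) = ‖(1 + zz y) ^ 2 - 4 * zz y * cos (Real.pi * v) ^ 2‖ := by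
    rw [← hyim, ← zz_norm, ← norm_mul, ← norm_mul, hd, norm_neg]
  have hB1 : ‖2 * sin (Real.pi * (y - v))‖ ≠ 0 :=
    norm_ne_zero_iff.mpr (mul_ne_zero two_ne_zero hs1)
  have hB2 : ‖2 * sin (Real.pi * (y + v))‖ ≠ 0 :=
    norm_ne_zero_iff.mpr (mul_ne_zero two_ne_zero hs2)
  rw [← hprod, Real.log_mul (mul_ne_zero hB1 hB2) (Real.exp_pos _).ne', Real.log_mul hB1 hB2,
    Real.log_exp]
  ring

end Pool.Agent.S3.Cl
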