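import Pool.Agent.S3.Cl.Lim
import Pool.Agent.S3.Edge

/-!
# Stage 3: closed ends: the contour in the coordinate `u`
-/

namespace Pool.Agent.S3.Cl

open Complex Pool.Agent.S3 Set
open Pool.Agent.H25.RK (gdv gdv_re_lt gdv_hasDerivAt)

theorem gd_eta (x t : ℝ) : gd (UU x t) = ((Ra x t : ℝ) : ℂ) + ((Ya x t : ℝ) : ℂ) * I :=
  (re_add_im _).symm

theorem cos_parts (R Y : ℝ) : cos ((R : ℂ) + (Y : ℂ) * I)
    = ((Real.cos R * Real.cosh Y : ℝ) : ℂ) - ((Real.sin R * Real.sinh Y : ℝ) : ℂ) * I := by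
  rw [Complex.cos_add, Complex.cos_mul_I, Complex.sin_mul_I, ← ofReal_cosh, ← ofReal_sinh,
    ← ofReal_sin, ← ofReal_cos]
  push_cast; ring

theorem sin_parts (R Y : ℝ) : sin ((R : ℂ) + (Y : ℂ) * I)
    = ((Real.sin R * Real.cosh Y : ℝ) : ℂ) + ((Real.cos R * Real.sinh Y : ℝ) : ℂ) * I := by
  rw [Complex.sin_add, Complex.cos_mul_I, Complex.sin_mul_I, ← ofReal_cosh, ← ofReal_sinh,
    ← ofReal_sin, ← ofReal_cos]
  push_cast; ring

theorem geo_cos {x t : ℝ} (h : |t| < Real.pi / 2) :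
    Real.cos (Ra x t) * Real.cosh (Ya x t)
      = Real.cosh x * Real.cos t / normSq (cosh (UU x t)) ∧
    Real.sin (Ra x t) * Real.sinh (Ya x t)
      = Real.sinh x * Real.sin t / normSq (cosh (UU x t)) := by
  have h' : |(UU x t).im| < Real.pi / 2 := by rwa [UU_im]
  have e := cos_gd h'
  rw [gd_eta, cos_parts] at e
  have e1 := congrArg Complex.re e
  have e2 := congrArg Complex.im e
  rw [inv_cosh_re] at e1
  rw [inv_cosh_im] at e2
  constructor
  · rw [← e1, sub_re, ofReal_re, re_ofReal_mul, I_re, mul_zero, sub_zero]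
  · rw [sub_im, ofReal_im, im_ofReal_mul, I_im, mul_one, zero_sub, neg_div] at e2
    linarith

theorem geo_sin {x t : ℝ} (h : |t| < Real.pi / 2) :
    Real.sin (Ra x t) * Real.cosh (Ya x t)
      = Real.sinh x * Real.cosh x / normSq (cosh (UU x t)) ∧
    Real.cos (Ra x t) * Real.sinh (Ya x t)
      = Real.sin t * Real.cos t / normSq (cosh (UU x t)) := by
  have h' : |(UU x t).im| < Real.pi / 2 := by rwa [UU_im]
  have e := sin_gd h'
  rw [gd_eta, sin_parts, tanh_eq_sinh_div_cosh] at e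
  have s1 := Real.sin_sq_add_cos_sq t
  have s2 := Real.cosh_sq x
  have e1 := congrArg Complex.re e
  have e2 := congrArg Complex.im e
  rw [div_re, cosh_re', cosh_im', sinh_re', sinh_im', UU_re, UU_im] at e1
  rw [div_im, cosh_re', cosh_im', sinh_re', sinh_im', UU_re, UU_im] at e2
  constructor
  · rw [add_re, ofReal_re, re_ofReal_mul, I_re, mul_zero, add_zero] at e1
    rw [e1, ← add_div]
    congr 1
    linear_combination (Real.sinh x * Real.cosh x) * s1
  · rw [add_im, ofReal_im, im_ofReal_mul, I_im, mul_one, zero_add] at e2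
    rw [e2, ← sub_div]
    congr 1
    linear_combination (Real.sin t * Real.cos t) * s2

/-- `sinh x = tan R cos t` -/
theorem RaS {x t : ℝ} (h : |t| < Real.pi / 2) :
    Real.sin (Ra x t) * Real.cos t = Real.sinh x * Real.cos (Ra x t) := by
  have c := Real.cosh_pos (Ya x t)
  have e1 := (geo_cos (x := x) h).1
  have e2 := (geo_sin (x := x) h).1
  apply mul_right_cancel₀ c.ne'
  calc Real.sin (Ra x t) * Real.cos t * Real.cosh (Ya x t)
      = (Real.sin (Ra x t) * Real.cosh (Ya x t)) * Real.cos t := by ring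
    _ = Real.sinh x * (Real.cos (Ra x t) * Real.cosh (Ya x t)) := by rw [e1, e2]; ring
    _ = _ := by ring

theorem cos_Ra_pos {x t : ℝ} (h : |t| < Real.pi / 2) : 0 < Real.cos (Ra x t) :=
  cos_pos' (Ra_lt h)

/-- `sinh Y cos t = sin t cos R` -/
theorem curve {x t : ℝ} (h : |t| < Real.pi / 2) :
    Real.sinh (Ya x t) * Real.cos t = Real.sin t * Real.cos (Ra x t) := by
  have n := nc_pos (x := x) h
  have hR := cos_Ra_pos (x := x) h
  have e1 := (geo_cos (x := x) h).1
  have e4 := (geo_sin (x := x) h).2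
  have hch := Real.cosh_sq (Ya x t)
  have hn := normSq_c (x := x) (t := t)
  have key : Real.cos (Ra x t) ^ 2 * normSq (cosh (UU x t)) = Real.cos t ^ 2 := by
    have a1 : (Real.cos (Ra x t) * Real.cosh (Ya x t)) ^ 2 * normSq (cosh (UU x t)) ^ 2
        = (Real.cosh x * Real.cos t) ^ 2 := by rw [e1]; field_simp
    have a2 : (Real.cos (Ra x t) * Real.sinh (Ya x t)) ^ 2 * normSq (cosh (UU x t)) ^ 2
        = (Real.sin t * Real.cos t) ^ 2 := by rw [e4]; field_simp
    have a3 : Real.cos (Ra x t) ^ 2 * normSq (cosh (UU x t)) ^ 2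
        = Real.cos t ^ 2 * normSq (cosh (UU x t)) := by
      rw [hn] at a1 a2 ⊢
      have : Real.cos (Ra x t) ^ 2 = (Real.cos (Ra x t) * Real.cosh (Ya x t)) ^ 2
          - (Real.cos (Ra x t) * Real.sinh (Ya x t)) ^ 2 := by
        rw [mul_pow, mul_pow, hch]; ring
      rw [this, sub_mul, a1, a2]
      ring
    apply mul_right_cancel₀ n.ne'
    rw [← a3]; ring
  have e5 : Real.cos (Ra x t) * Real.sinh (Ya x t) * normSq (cosh (UU x t))
      = Real.sin t * Real.cos t := by rw [e4]; field_simp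
  apply mul_left_cancel₀ (mul_pos hR n).ne'
  calc Real.cos (Ra x t) * normSq (cosh (UU x t)) * (Real.sinh (Ya x t) * Real.cos t)
      = (Real.cos (Ra x t) * Real.sinh (Ya x t) * normSq (cosh (UU x t))) * Real.cos t := by ring
    _ = Real.sin t * Real.cos t ^ 2 := by rw [e5]; ring
    _ = Real.sin t * (Real.cos (Ra x t) ^ 2 * normSq (cosh (UU x t))) := by rw [key]
    _ = _ := by ring

/-! ### the coordinate of a point of the contour -/

theorem coord {v : ℂ} (hv : |v.re| < 1 / 2) : ∃ x t : ℝ, |t| < Real.pi / 2 ∧ gdv (UU x t) = v ∧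
    Ra x t = Real.pi * v.re ∧ Ya x t = Real.pi * v.im ∧ (0 ≤ v.re → 0 ≤ x) ∧
    UU x t = igd (UU (Real.pi * v.re) (Real.pi * v.im)) := by
  have hpi := Real.pi_pos
  have hP : |(UU (Real.pi * v.re) (Real.pi * v.im)).re| < Real.pi / 2 := by
    rw [UU_re, abs_mul, abs_of_pos hpi]; nlinarith
  set u := igd (UU (Real.pi * v.re) (Real.pi * v.im)) with hu
  have h1 : |u.im| < Real.pi / 2 := igd_im_lt hP
  have h2 : gd u = UU (Real.pi * v.re) (Real.pi * v.im) := gd_igd hP
  refine ⟨u.re, u.im, h1, ?_, ?_, ?_, ?_, UU_eta u⟩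
  · rw [UU_eta]
    have h3 := gd_eq h1
    rw [h2] at h3
    have h4 : UU (Real.pi * v.re) (Real.pi * v.im) = (Real.pi : ℂ) * v := by
      apply Complex.ext <;> simp
    rw [h4] at h3
    exact (mul_left_cancel₀ pi_ne h3).symm
  · rw [Ra, UU_eta, h2, UU_re]
  · rw [Ya, UU_eta, h2, UU_im]
  · intro h0
    rw [hu]
    apply igd_re_nonneg (by positivity)
    have := (abs_lt.1 hP).2
    rwa [UU_re] at this

theorem sinh_bl (θ a : ℝ) : Real.sinh (Real.pi * bl θ a) = Real.tan θ * Real.cos (Real.pi * a) := by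
  rw [bl, mul_div_cancel₀ _ Real.pi_ne_zero, Real.sinh_arsinh]

/-- the height `t` of a point below the `u`-line of height `θ` -/
theorem t_le {θ : ℝ} (h0 : 0 < θ) (h1 : θ < Real.pi / 2) {v : ℂ} (_hv : |v.re| < 1 / 2)
    (hi : 0 ≤ v.im) {x t : ℝ} (ht : |t| < Real.pi / 2) (hR : Ra x t = Real.pi * v.re)
    (hY : Ya x t = Real.pi * v.im) :
    0 ≤ t ∧ (v.im ≤ bl θ v.re → t ≤ θ) ∧ (v.im = bl θ v.re → t = θ) := by
  have hpi := Real.pi_pos
  have c := curve (x := x) ht
  have hct := cos_pos' ht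
  have hcR := cos_Ra_pos (x := x) ht
  have htan : Real.tan t * Real.cos (Ra x t) = Real.sinh (Ya x t) := by
    rw [Real.tan_eq_sin_div_cos]
    field_simp
    linarith
  have ht' := abs_lt.1 ht
  have m : StrictMonoOn Real.tan (Ioo (-(Real.pi / 2)) (Real.pi / 2)) := Real.strictMonoOn_tan
  have tI : t ∈ Ioo (-(Real.pi / 2)) (Real.pi / 2) := ht'
  have θI : θ ∈ Ioo (-(Real.pi / 2)) (Real.pi / 2) := ⟨by linarith, h1⟩
  have zI : (0 : ℝ) ∈ Ioo (-(Real.pi / 2)) (Real.pi / 2) := ⟨by linarith, by linarith⟩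
  refine ⟨?_, ?_, ?_⟩
  · have h3 : 0 ≤ Real.tan t * Real.cos (Ra x t) := by
      rw [htan, hY]; exact Real.sinh_nonneg_iff.2 (by positivity)
    have h4 : Real.tan 0 ≤ Real.tan t := by
      rw [Real.tan_zero]; exact nonneg_of_mul_nonneg_left h3 hcR
    exact (m.le_iff_le zI tI).1 h4
  · intro h
    have h3 : Real.tan t * Real.cos (Ra x t) ≤ Real.tan θ * Real.cos (Ra x t) := by
      rw [htan, hY, hR, ← sinh_bl]
      exact Real.sinh_le_sinh.2 (mul_le_mul_of_nonneg_left h hpi.le)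
    exact (m.le_iff_le tI θI).1 (le_of_mul_le_mul_right h3 hcR)
  · intro h
    have h3 : Real.tan t * Real.cos (Ra x t) = Real.tan θ * Real.cos (Ra x t) := by
      rw [htan, hY, hR, ← sinh_bl, h]
    exact m.injOn tI θI (mul_right_cancel₀ hcR.ne' h3)

/-- the point `gdv (x + i θ)` is on the `u`-line -/
theorem im_eq_bl {θ : ℝ} (h : |θ| < Real.pi / 2) (x : ℝ) :
    (gdv (UU x θ)).im = bl θ (gdv (UU x θ)).re := by
  have hpi := Real.pi_pos
  have h' : |(UU x θ).im| < Real.pi / 2 := by rwa [UU_im]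
  have e1 : Ra x θ = Real.pi * (gdv (UU x θ)).re := by rw [Ra, gd_eq h', re_ofReal_mul]
  have e2 : Ya x θ = Real.pi * (gdv (UU x θ)).im := by rw [Ya, gd_eq h', im_ofReal_mul]
  have c := curve (x := x) h
  have hc := cos_pos' h
  have e3 : Real.sinh (Real.pi * (gdv (UU x θ)).im)
      = Real.sinh (Real.pi * bl θ (gdv (UU x θ)).re) := by
    rw [sinh_bl, ← e1, ← e2, Real.tan_eq_sin_div_cos]
    field_simp
    linarith
  have e4 := Real.sinh_injective e3
  exact mul_left_cancel₀ hpi.ne' e4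

theorem Ra_eq {x t : ℝ} (h : |t| < Real.pi / 2) : Ra x t = Real.pi * (gdv (UU x t)).re := by
  rw [Ra, gd_eq (by rwa [UU_im]), re_ofReal_mul]

theorem Ya_eq {x t : ℝ} (h : |t| < Real.pi / 2) : Ya x t = Real.pi * (gdv (UU x t)).im := by
  rw [Ya, gd_eq (by rwa [UU_im]), im_ofReal_mul]

/-- monotonicity of `R` in `x` -/
theorem Ra_mono {t : ℝ} (h : |t| < Real.pi / 2) : StrictMono (fun x => Ra x t) := by
  apply strictMono_of_deriv_pos
  intro x
  rw [(Ra_dx h).deriv]
  exact Ra_dx_pos h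

theorem Ya_anti {t : ℝ} (h0 : 0 ≤ t) (h : t < Real.pi / 2) : AntitoneOn (fun x => Ya x t) (Ici 0) := by
  have ht : |t| < Real.pi / 2 := by rwa [abs_of_nonneg h0]
  apply antitoneOn_of_deriv_nonpos (convex_Ici _)
  · exact fun x _ => (Ya_dx ht).continuousAt.continuousWithinAt
  · exact fun x _ => (Ya_dx ht).differentiableAt.differentiableWithinAt
  · intro x hx
    rw [interior_Ici] at hx
    rw [(Ya_dx ht).deriv, inv_cosh_im]
    apply div_nonpos_of_nonpos_of_nonneg _ (nc_pos ht).le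
    have := mul_nonneg (Real.sinh_nonneg_iff.2 (le_of_lt (show (0 : ℝ) < x from hx)))
      (Real.sin_nonneg_of_nonneg_of_le_pi h0 (by linarith [Real.pi_pos]))
    linarith

end Pool.Agent.S3.Cl
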