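import Pool.Agent.S3.Cl.Geo

/-!
# Stage 3: closed ends: the inequalities on the contour

All quantities are multiplied by `π`: `R + i Y = π v`, `LL R Y = π Lt (v)`.
-/

namespace Pool.Agent.S3.Cl

open Complex Pool.Agent.S3 Set
open Pool.Agent.H25.RK (gdv gdv_re_lt gdv_hasDerivAt)

/-- `π` times the bound of the edge at `π v = R + i Y` -/
noncomputable def LL (Φ : ℂ → ℂ) (θ xc b R Y : ℝ) : ℝ :=
  VV Φ xc θ + Y * (θ + Ra xc θ + 2 * b * (Ra xc θ - R))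

variable {Φ : ℂ → ℂ} {θ xc b v1 : ℝ}

theorem mul_pi_re (z : ℂ) : Real.pi * z.re = ((Real.pi : ℂ) * z).re := by
  rw [re_ofReal_mul]

theorem two_qcl_re (x t : ℝ) : 2 * (qcl (UU x t)).re = x - Ya x t := by
  have := congrArg Complex.re (two_qcl x t)
  rw [UU_re] at this
  rw [← this, show (2 : ℂ) = ((2 : ℝ) : ℂ) by norm_num, re_ofReal_mul]

theorem two_qcl_im (x t : ℝ) : 2 * (qcl (UU x t)).im = t + Ra x t := by
  have := congrArg Complex.im (two_qcl x t)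
  rw [UU_im] at this
  rw [← this, show (2 : ℂ) = ((2 : ℝ) : ℂ) by norm_num, im_ofReal_mul]

/-- the quadratic function -/
theorem quad_re (hQ : (qcl (UU xc θ)).re = b * (gd (UU xc θ)).im) (R Y : ℝ) :
    (2 * qcl (UU xc θ) * (((R : ℂ) + (Y : ℂ) * I) - gd (UU xc θ))
      - I * b * (((R : ℂ) + (Y : ℂ) * I) - gd (UU xc θ)) ^ 2).re
      = 2 * b * Y * (R - Ra xc θ) - (θ + Ra xc θ) * (Y - Ya xc θ) := by
  have q1 := two_qcl_re xc θ
  have q2 := two_qcl_im xc θ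
  have hQ' : (qcl (UU xc θ)).re = b * Ya xc θ := hQ
  set Δ : ℂ := ((R : ℂ) + (Y : ℂ) * I) - gd (UU xc θ) with hΔ
  have d1 : Δ.re = R - Ra xc θ := by rw [hΔ, sub_re]; simp [Ra]
  have d2 : Δ.im = Y - Ya xc θ := by rw [hΔ, sub_im]; simp [Ya]
  have e1 : (2 * qcl (UU xc θ) * Δ).re
      = 2 * (qcl (UU xc θ)).re * Δ.re - 2 * (qcl (UU xc θ)).im * Δ.im := by
    rw [mul_assoc, show (2 : ℂ) = ((2 : ℝ) : ℂ) by norm_num, re_ofReal_mul, mul_re]
    ring
  have e2 : (I * b * Δ ^ 2).re = -(b * (2 * Δ.re * Δ.im)) := by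
    rw [show I * (b : ℂ) * Δ ^ 2 = ((b : ℝ) : ℂ) * (I * Δ ^ 2) by ring, re_ofReal_mul, I_mul_re,
      sq, mul_im]
    ring
  rw [sub_re, e1, e2, q2, hQ', d1, d2]
  ring

theorem D_eq (hQ : (qcl (UU xc θ)).re = b * (gd (UU xc θ)).im) (x : ℝ) :
    Real.pi * Dfun1 Φ θ b xc x = Real.pi * (Φ (gd (UU x θ) / (Real.pi : ℂ))).re
      - LL Φ θ xc b (Ra x θ) (Ya x θ) := by
  have hpi := pi_ne
  have q := quad_re hQ (Ra x θ) (Ya x θ)
  rw [← gd_eta] at q
  rw [Dfun1, mul_pi_re]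
  have e : (Real.pi : ℂ) * (Φ (gd (UU x θ) / (Real.pi : ℂ)) - Φ (gd (UU xc θ) / (Real.pi : ℂ))
      + 2 * qcl (UU xc θ) * (gd (UU x θ) - gd (UU xc θ)) / (Real.pi : ℂ)
      - I * b / (Real.pi : ℂ) * (gd (UU x θ) - gd (UU xc θ)) ^ 2)
      = (Real.pi : ℂ) * Φ (gd (UU x θ) / (Real.pi : ℂ))
        - (Real.pi : ℂ) * Φ (gd (UU xc θ) / (Real.pi : ℂ))
        + (2 * qcl (UU xc θ) * (gd (UU x θ) - gd (UU xc θ))
          - I * b * (gd (UU x θ) - gd (UU xc θ)) ^ 2) := by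
    field_simp
    ring
  rw [e, add_re, sub_re, re_ofReal_mul, re_ofReal_mul, q, LL, VV]
  ring

theorem ell_eq (hQ : (qcl (UU xc θ)).re = b * (gd (UU xc θ)).im) (hθ : |θ| < Real.pi / 2) (v : ℂ) :
    Real.pi * ((Φ (gd (UU xc θ) / (Real.pi : ℂ))).re
      + ell (gdv (UU xc θ)) (qcl (UU xc θ)) (-(2 * Real.pi * b)) v)
      = LL Φ θ xc b (Real.pi * v.re) (Real.pi * v.im) := by
  have q := quad_re hQ (Real.pi * v.re) (Real.pi * v.im)
  have e1 : ((Real.pi * v.re : ℝ) : ℂ) + ((Real.pi * v.im : ℝ) : ℂ) * I = (Real.pi : ℂ) * v := by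
    apply Complex.ext <;> simp
  rw [e1, gd_eq (by rwa [UU_im])] at q
  rw [mul_add, ell, mul_neg, mul_pi_re (2 * qcl (UU xc θ) * (v - gdv (UU xc θ)) + _)]
  have e2 : (Real.pi : ℂ) * (2 * qcl (UU xc θ) * (v - gdv (UU xc θ))
      + I * ((-(2 * Real.pi * b) : ℝ) : ℂ) / 2 * (v - gdv (UU xc θ)) ^ 2)
      = 2 * qcl (UU xc θ) * (Real.pi * v - Real.pi * gdv (UU xc θ))
        - I * b * (Real.pi * v - Real.pi * gdv (UU xc θ)) ^ 2 := by
    push_cast
    ring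
  rw [e2, q, LL, VV]
  ring

/-! ### the hypotheses -/

/-- the hypotheses on a closed edge -/
structure ClH (Φ : ℂ → ℂ) (θ xc b v1 : ℝ) : Prop where
  hΦ : IsPhi1 Φ
  h0 : Φ 0 = Fc 0
  θ0 : 0 < θ
  θ1 : θ ≤ Real.pi / 4
  xc0 : 0 < xc
  b0 : 0 < b
  hQ : (qcl (UU xc θ)).re = b * (gd (UU xc θ)).im
  v0 : 0 < v1
  vh : v1 < 1 / 2
  hs : Real.sin (Real.pi * v1) ^ 2 ≤ 885 / 1000
  hT : Real.tan (Real.pi * v1) * Real.sin (2 * θ) ≤ 2
  hR : Ra xc θ < Real.pi * v1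
  z1 : Ya 0 θ * (Real.pi - θ - Ra xc θ) < VV Φ xc θ
  z2 : ∀ x : ℝ, Ra x θ = Real.pi * v1 → Ya xc θ * (Real.pi - θ - Ra xc θ) < VV Φ x θ

namespace ClH

theorem at' (H : ClH Φ θ xc b v1) : |θ| < Real.pi / 2 := by
  rw [abs_of_pos H.θ0]
  have := H.θ1
  have := Real.pi_pos
  linarith

theorem th2 (H : ClH Φ θ xc b v1) : θ < Real.pi / 2 := by
  have := H.θ1
  have := Real.pi_pos
  linarith

theorem D_le (H : ClH Φ θ xc b v1) (x : ℝ) :
    Real.pi * (Φ (gd (UU x θ) / (Real.pi : ℂ))).re ≤ LL Φ θ xc b (Ra x θ) (Ya x θ) := by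
  have h := Dfun1_main (b := b) (x := x) H.hΦ H.θ0 H.th2 H.b0 H.hQ H.xc0
  have e := D_eq (Φ := Φ) H.hQ x
  have := mul_nonpos_of_nonneg_of_nonpos Real.pi_pos.le h
  linarith

theorem D_lt (H : ClH Φ θ xc b v1) {x : ℝ} (hx : x ≠ xc) :
    Real.pi * (Φ (gd (UU x θ) / (Real.pi : ℂ))).re < LL Φ θ xc b (Ra x θ) (Ya x θ) := by
  obtain ⟨δ, h1, h2⟩ := Dfun1_unif (b := b) H.hΦ H.θ0 H.th2 H.b0 H.hQ H.xc0
    (abs_pos.2 (sub_ne_zero.2 hx))
  have e := D_eq (Φ := Φ) H.hQ x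
  have := h2 x le_rfl
  have := mul_neg_of_pos_of_neg Real.pi_pos (show Dfun1 Φ θ b xc x < 0 by linarith)
  linarith

theorem Ra_neg (H : ClH Φ θ xc b v1) (x : ℝ) : Ra (-x) θ = -Ra x θ := by
  rw [Ra, Ra, gd_neg_conj H.at', neg_re, conj_re]

theorem Ya_neg (H : ClH Φ θ xc b v1) (x : ℝ) : Ya (-x) θ = Ya x θ := by
  rw [Ya, Ya, gd_neg_conj H.at', neg_im, conj_im, neg_neg]

/-- `π Y < LL` on the line, right half -/
theorem Z_pos (H : ClH Φ θ xc b v1) {x : ℝ} (hx : 0 ≤ x) (hx1 : Ra x θ ≤ Real.pi * v1) :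
    Real.pi * Ya x θ < LL Φ θ xc b (Ra x θ) (Ya x θ) := by
  have hpi := Real.pi_pos
  have hY := Ya_nonneg (x := x) H.θ0.le H.th2
  have hRc := (abs_lt.1 (Ra_lt (x := xc) H.at')).2
  have mono := Ra_mono H.at'
  have hθ1 := H.θ1
  rcases le_total x xc with h | h
  · have h1 : Ra x θ ≤ Ra xc θ := mono.monotone h
    have h2 : Ya x θ ≤ Ya 0 θ := Ya_anti H.θ0.le H.th2 (mem_Ici.2 le_rfl) hx hx
    have h3 : Ya x θ * (Real.pi - θ - Ra xc θ) ≤ Ya 0 θ * (Real.pi - θ - Ra xc θ) :=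
      mul_le_mul_of_nonneg_right h2 (by linarith)
    have h4 := mul_nonneg hY (mul_nonneg (mul_nonneg zero_le_two H.b0.le) (sub_nonneg.2 h1))
    have h5 := H.z1
    unfold LL
    nlinarith
  · -- a point `x1 ≥ x` with `Ra x1 θ = π v1`
    have hD := H.D_le x
    have h1 : Ra xc θ ≤ Ra x θ := mono.monotone h
    have h2 : Ya x θ ≤ Ya xc θ :=
      Ya_anti H.θ0.le H.th2 (mem_Ici.2 H.xc0.le) (mem_Ici.2 hx) h
    have hvre : |((v1 : ℂ) + (bl θ v1 : ℝ) * I).re| < 1 / 2 := by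
      have : ((v1 : ℂ) + (bl θ v1 : ℝ) * I).re = v1 := by simp
      rw [this, abs_of_pos H.v0]; exact H.vh
    obtain ⟨x1, t1, a1, -, a3, a4, -, -⟩ := coord hvre
    have r1 : ((v1 : ℂ) + (bl θ v1 : ℝ) * I).re = v1 := by simp
    have r2 : ((v1 : ℂ) + (bl θ v1 : ℝ) * I).im = bl θ v1 := by simp
    rw [r1] at a3
    rw [r2] at a4
    have hbl : 0 ≤ bl θ v1 := by
      rw [bl]
      apply div_nonneg _ hpi.le
      rw [Real.arsinh_nonneg_iff]
      apply mul_nonneg (tan_nonneg' H.θ0.le H.th2)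
      apply Real.cos_nonneg_of_mem_Icc
      constructor
      · nlinarith [H.v0]
      · nlinarith [H.vh]
    have ht1 : t1 = θ := (t_le H.θ0 H.th2 (v := (v1 : ℂ) + (bl θ v1 : ℝ) * I) hvre
      (by rw [r2]; exact hbl) a1 (by rw [r1]; exact a3) (by rw [r2]; exact a4)).2.2
      (by rw [r1, r2])
    rw [ht1] at a3
    have hx1' : x ≤ x1 := by
      by_contra hc
      push Not at hc
      have := mono hc
      simp only at this
      linarith
    have h3 := (VV_anti_x H.hΦ H.at').antitoneOn (a := x) (b := x1) (mem_Ici.2 hx)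
      (mem_Ici.2 (hx.trans hx1')) hx1'
    have h4 := H.z2 x1 a3
    have h5 : Ya x θ * (Real.pi - θ - Ra x θ) ≤ Ya xc θ * (Real.pi - θ - Ra xc θ) := by
      have hR2 := (abs_lt.1 (Ra_lt (x := x) H.at')).2
      have b1 : Ya x θ * (Real.pi - θ - Ra x θ) ≤ Ya x θ * (Real.pi - θ - Ra xc θ) :=
        mul_le_mul_of_nonneg_left (by linarith) hY
      have b2 : Ya x θ * (Real.pi - θ - Ra xc θ) ≤ Ya xc θ * (Real.pi - θ - Ra xc θ) :=
        mul_le_mul_of_nonneg_right h2 (by linarith)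
      linarith
    have h6 : VV Φ x θ = Real.pi * (Φ (gd (UU x θ) / (Real.pi : ℂ))).re
        - (θ + Ra x θ) * Ya x θ := rfl
    have h7 : Ya x θ * (Real.pi - θ - Ra x θ)
        = Real.pi * Ya x θ - (θ + Ra x θ) * Ya x θ := by ring
    linarith

theorem Z_line (H : ClH Φ θ xc b v1) {x : ℝ} (hx : |Ra x θ| ≤ Real.pi * v1) :
    Real.pi * Ya x θ < LL Φ θ xc b (Ra x θ) (Ya x θ) := by
  have hx' := abs_le.1 hx
  rcases le_total 0 x with h | h
  · exact H.Z_pos h hx'.2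
  · have h1 := H.Z_pos (x := -x) (by linarith) (by rw [H.Ra_neg]; linarith)
    rw [H.Ra_neg, H.Ya_neg] at h1
    have hY := Ya_nonneg (x := x) H.θ0.le H.th2
    have h2 := Ra_nonneg (x := -x) (by linarith) H.at'
    rw [H.Ra_neg] at h2
    have h3 := mul_nonneg hY (mul_nonneg (mul_nonneg zero_le_two H.b0.le) h2)
    unfold LL at h1 ⊢
    nlinarith

end ClH

/-! ### the verticals -/

/-- the real part of the potential minus `R Y` is increasing along a vertical, upwards -/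
theorem vert_mono (hΦ : IsPhi1 Φ) {R : ℝ} (hR : |R| < Real.pi / 2) :
    MonotoneOn (fun Y : ℝ => Real.pi * (Φ (UU R Y / (Real.pi : ℂ))).re - R * Y) (Ici 0) := by
  have hR' : ∀ s : ℝ, |(UU R s).re| < Real.pi / 2 := fun s => by rwa [UU_re]
  have hd : ∀ s : ℝ, HasDerivAt (fun Y : ℝ => Real.pi * (Φ (UU R Y / (Real.pi : ℂ))).re - R * Y)
      ((igd (UU R s)).im) s := by
    intro s
    have hr : |(igd (UU R s)).im| < Real.pi / 2 := igd_im_lt (hR' s)
    have h1 := Phi_d hΦ (u := fun s => igd (UU R s)) (s := s) hr (hasDerivAt_igd_line hR s)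
    have e : (fun s => Real.pi * (Φ (gd (igd (UU R s)) / (Real.pi : ℂ))).re)
        = fun s => Real.pi * (Φ (UU R s / (Real.pi : ℂ))).re := by
      funext s
      rw [gd_igd (hR' s)]
    rw [e] at h1
    have h2 := h1.sub ((hasDerivAt_id s).const_mul R)
    refine h2.congr_deriv ?_
    have hc := cosh_ne hr
    have e2 : I * cosh (igd (UU R s)) / cosh (igd (UU R s)) = I := by field_simp
    rw [e2]
    have e3 : igd (UU R s) = UU (igd (UU R s)).re (igd (UU R s)).im := (UU_eta _).symm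
    have e4 : (2 * qcl (igd (UU R s))).im = (igd (UU R s)).im + R := by
      have e5 : 2 * qcl (igd (UU R s)) = igd (UU R s) + I * UU R s := by
        rw [qcl, gd_igd (hR' s)]; ring
      rw [e5, add_im, I_mul_im, UU_re]
    rw [neg_mul, neg_re, mul_comm, I_mul_re, e4]
    ring
  apply monotoneOn_of_deriv_nonneg (convex_Ici _)
  · exact fun s _ => (hd s).continuousAt.continuousWithinAt
  · exact fun s _ => (hd s).differentiableAt.differentiableWithinAt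
  · intro s hs
    rw [interior_Ici] at hs
    rw [(hd s).deriv]
    have h1 := (igd_im_mono hR).monotone (le_of_lt (show (0 : ℝ) < s from hs))
    simp only [igd_real_im hR] at h1
    exact h1

end Pool.Agent.S3.Cl
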