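import Pool.Agent.S3.Cl.Alg
import Pool.Agent.S3.Cl.Flat

/-!
# Closed end edges: the growth along the flat is unimodal
-/

set_option autoImplicit false

namespace Pool.Agent.S3.Cl

open Complex Set

theorem Gam_normSq (z w : ℂ) : normSq ((1 + z) ^ 2 + z * w ^ 2) - normSq (1 + z) ^ 3 =
    Gam (normSq (1 + z)) (2 * z.im) (normSq w) (normSq z - 1) (w.im ^ 2 - w.re ^ 2)
      (2 * w.re * w.im) := by
  unfold Gam
  simp only [normSq_apply, add_re, add_im, mul_re, mul_im, one_re, one_im, sq]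
  ring

variable {v ys : ℂ} {t : ℝ}

theorem sin_pi_int {w : ℂ} (h : sin (Real.pi * w) = 0) : ∃ n : ℤ, w = n := by
  rw [Complex.sin_eq_zero_iff] at h
  obtain ⟨n, hn⟩ := h
  refine ⟨n, ?_⟩
  have hpi : (Real.pi : ℂ) ≠ 0 := by exact_mod_cast Real.pi_ne_zero
  have : (Real.pi : ℂ) * w = Real.pi * n := by rw [hn]; ring
  exact mul_left_cancel₀ hpi this

/-- the exceptional point -/
theorem exc {h : ℝ} (hv : |v.re| < 1 / 2) (h0 : 0 < t) (h1 : t < 1 / 2)
    (hd : (1 + zz (t + h * I)) ^ 2 - 4 * zz (t + h * I) * cos (Real.pi * v) ^ 2 = 0) :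
    t = |v.re| := by
  have e := den_eq v (t + h * I)
  rw [hd, neg_zero] at e
  have hz0 : zz (t + h * I) ≠ 0 := exp_ne_zero _
  have hv' := abs_lt.1 hv
  rcases mul_eq_zero.1 e with h2 | h2
  · rcases mul_eq_zero.1 h2 with h3 | h3
    · rcases mul_eq_zero.1 h3 with h4 | h4
      · norm_num at h4
      · obtain ⟨n, hn⟩ := sin_pi_int h4
        have h5 := congrArg Complex.re hn
        simp at h5
        have h6 : (n : ℝ) < 1 := by linarith
        have h7 : (-1 : ℝ) < n := by linarith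
        have h8 : n < 1 := by exact_mod_cast h6
        have h9 : -1 < n := by exact_mod_cast h7
        have h10 : n = 0 := by omega
        rw [h10] at h5
        push_cast at h5
        rw [abs_of_pos (by linarith)]
        linarith
    · rcases mul_eq_zero.1 h3 with h4 | h4
      · norm_num at h4
      · obtain ⟨n, hn⟩ := sin_pi_int h4
        have h5 := congrArg Complex.re hn
        simp at h5
        have h6 : (n : ℝ) < 1 := by linarith
        have h7 : (-1 : ℝ) < n := by linarith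
        have h8 : n < 1 := by exact_mod_cast h6
        have h9 : -1 < n := by exact_mod_cast h7
        have h10 : n = 0 := by omega
        rw [h10] at h5
        push_cast at h5
        rw [abs_of_neg (by linarith)]
        linarith
  · exact absurd h2 hz0

/-- hypotheses on the critical point -/
structure YsH (v ys : ℂ) : Prop where
  h0 : 0 < ys.re
  h1 : ys.re < 1 / 2
  hz : (1 + zz ys) ^ 2 = -4 * cos (Real.pi * v) ^ 2
  H1 : normSq (1 + zz ys) ^ 2 ≤ 8 * ((1 + zz ys).im ^ 2 - (1 + zz ys).re ^ 2)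
  H3 : (1 + zz ys).re ^ 2 ≤ 8853 / 10000 * (normSq (1 + zz ys) - 4589 / 10000)
  hv : |v.re| < 1 / 2

theorem zz_line_normSq (t : ℝ) : normSq (zz (t + ys.im * I)) = normSq (zz ys) := by
  rw [normSq_eq_norm_sq, normSq_eq_norm_sq, zz_norm, zz_norm]
  simp

theorem zz_line_re (t : ℝ) : (zz (t + ys.im * I)).re =
    Real.exp (-(2 * Real.pi * ys.im)) * Real.cos (2 * Real.pi * t) := by
  rw [zz_re]; simp

theorem zz_line_im (t : ℝ) : (zz (t + ys.im * I)).im =
    Real.exp (-(2 * Real.pi * ys.im)) * Real.sin (2 * Real.pi * t) := by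
  rw [zz_im]; simp

theorem normSq_one_add (z : ℂ) : normSq (1 + z) = 1 + normSq z + 2 * z.re := by
  simp only [normSq_apply, add_re, add_im, one_re, one_im]
  ring

theorem den_sign (H : YsH v ys) (h0 : 0 ≤ t) (h1 : t ≤ 1 / 2) :
    (ys.re < t → normSq (1 + zz (t + ys.im * I)) ^ 3 <
      normSq ((1 + zz (t + ys.im * I)) ^ 2 - 4 * zz (t + ys.im * I) * cos (Real.pi * v) ^ 2)) ∧
    (t < ys.re → normSq ((1 + zz (t + ys.im * I)) ^ 2 -
      4 * zz (t + ys.im * I) * cos (Real.pi * v) ^ 2) < normSq (1 + zz (t + ys.im * I)) ^ 3) := by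
  have hpi := Real.pi_pos
  set z := zz (t + ys.im * I) with hz
  set w := 1 + zz ys with hw
  have e1 : (1 + z) ^ 2 - 4 * z * cos (Real.pi * v) ^ 2 = (1 + z) ^ 2 + z * w ^ 2 := by
    rw [H.hz]; ring
  have e2 : normSq z = normSq (zz ys) := zz_line_normSq t
  have hE : 0 < Real.exp (-(2 * Real.pi * ys.im)) := Real.exp_pos _
  have hq : 0 < w.im := by
    rw [hw, add_im, one_im, zero_add, zz_im]
    apply mul_pos (Real.exp_pos _)
    apply Real.sin_pos_of_pos_of_lt_pi
    · have := H.h0; positivity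
    · have := H.h1; nlinarith
  have hY : 0 ≤ 2 * z.im := by
    rw [hz, zz_line_im]
    have : 0 ≤ Real.sin (2 * Real.pi * t) := by
      apply Real.sin_nonneg_of_nonneg_of_le_pi
      · positivity
      · nlinarith
    positivity
  have hm : normSq w = w.re ^ 2 + w.im ^ 2 := by rw [normSq_apply]; ring
  have hδ : normSq z - 1 = normSq w - 2 * w.re := by
    rw [e2, hw, normSq_one_add, add_re, one_re]; ring
  have hN : normSq (1 + z) = 1 + normSq z + 2 * z.re := normSq_one_add z
  have hzz : normSq z = z.re ^ 2 + z.im ^ 2 := by rw [normSq_apply]; ring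
  have hY2 : (2 * z.im) ^ 2 = 4 * (1 + (normSq z - 1)) -
      (normSq (1 + z) - 2 - (normSq z - 1)) ^ 2 := by
    rw [hN, hzz]; ring
  have hN2 : normSq (1 + z) ≤ 4 + 2 * (normSq z - 1) := by
    rw [hN, hzz]; nlinarith [sq_nonneg (z.re - 1), sq_nonneg z.im]
  have S := Gam_sign hm hδ hq hY hY2 (normSq_nonneg _) hN2 H.H1 H.H3
  have G := Gam_normSq z w
  rw [e1]
  have hm' : normSq w = 1 + normSq z + 2 * (zz ys).re := by
    rw [hw, normSq_one_add, e2]
  have hcos : ∀ a b : ℝ, 0 ≤ a → a < b → b ≤ 1 / 2 →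
      Real.cos (2 * Real.pi * b) < Real.cos (2 * Real.pi * a) := by
    intro a b ha hab hb
    apply Real.strictAntiOn_cos
    · constructor
      · positivity
      · nlinarith
    · constructor
      · have : 0 ≤ b := by linarith
        positivity
      · nlinarith
    · have : 0 < 2 * Real.pi := by positivity
      exact mul_lt_mul_of_pos_left hab this
  constructor
  · intro h
    have c := hcos ys.re t H.h0.le h h1
    have : normSq (1 + z) < normSq w := by
      rw [hN, hm', hz, zz_line_re, zz_re]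
      have := mul_lt_mul_of_pos_left c hE
      linarith
    have := S.1 this
    linarith
  · intro h
    have c := hcos t ys.re h0 h H.h1.le
    have : normSq w < normSq (1 + z) := by
      rw [hN, hm', hz, zz_line_re, zz_re]
      have := mul_lt_mul_of_pos_left c hE
      linarith
    have := S.2 this
    linarith

theorem one_add_ne {h : ℝ} (h0 : 0 < t) (h1 : t < 1 / 2) : 1 + zz (t + h * I) ≠ 0 := by
  intro hc
  have := congrArg Complex.im hc
  rw [add_im, one_im, zero_add, zz_im, zero_im] at this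
  have hs : 0 < Real.sin (2 * Real.pi * (t + h * I : ℂ).re) := by
    have e : (t + h * I : ℂ).re = t := by simp
    rw [e]
    have hpi := Real.pi_pos
    apply Real.sin_pos_of_pos_of_lt_pi
    · positivity
    · nlinarith
  have := mul_pos (Real.exp_pos (-(2 * Real.pi * (t + h * I : ℂ).im))) hs
  linarith

theorem log_cmp {A B : ℂ} (hA : A ≠ 0) (hB : B ≠ 0) :
    (normSq B < normSq A ^ 3 → 0 < 3 * Real.log ‖A‖ - Real.log ‖B‖) ∧
    (normSq A ^ 3 < normSq B → 3 * Real.log ‖A‖ - Real.log ‖B‖ < 0) := by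
  have a0 : 0 < ‖A‖ := norm_pos_iff.2 hA
  have b0 : 0 < ‖B‖ := norm_pos_iff.2 hB
  have e : 3 * Real.log ‖A‖ - Real.log ‖B‖ = (Real.log (normSq A ^ 3) - Real.log (normSq B)) / 2 := by
    rw [normSq_eq_norm_sq, normSq_eq_norm_sq, Real.log_pow, Real.log_pow, Real.log_pow]
    push_cast
    ring
  have nA : 0 < normSq A := normSq_pos.2 hA
  have nB : 0 < normSq B := normSq_pos.2 hB
  rw [e]
  constructor
  · intro h
    have := Real.log_lt_log nB h
    linarith
  · intro h
    have := Real.log_lt_log (pow_pos nA 3) h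
    linarith

theorem flat_mono (H : YsH v ys) :
    StrictMonoOn (fun t : ℝ => EE (.cl 1) (.op v) (t + ys.im * I)) (Icc 0 ys.re) := by
  have hc : Continuous (fun t : ℝ => EE (.cl 1) (.op v) (t + ys.im * I)) :=
    (EE_continuous v).comp (by fun_prop)
  apply mono_exc (s := |v.re|) hc
  intro t ht hs
  have ht2 : t < 1 / 2 := lt_trans ht.2 H.h1
  have n1 : 1 + zz (t + ys.im * I) ≠ 0 := one_add_ne ht.1 ht2
  have n2 : (1 + zz (t + ys.im * I)) ^ 2 - 4 * zz (t + ys.im * I) * cos (Real.pi * v) ^ 2 ≠ 0 :=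
    fun h => hs (exc H.hv ht.1 ht2 h)
  exact ⟨_, (log_cmp n1 n2).1 ((den_sign H ht.1.le ht2.le).2 ht.2), flat_deriv n1 n2⟩

theorem flat_anti (H : YsH v ys) :
    StrictAntiOn (fun t : ℝ => EE (.cl 1) (.op v) (t + ys.im * I)) (Icc ys.re (1 / 2)) := by
  have hc : Continuous (fun t : ℝ => EE (.cl 1) (.op v) (t + ys.im * I)) :=
    (EE_continuous v).comp (by fun_prop)
  apply strictAntiOn_of_deriv_neg (convex_Icc _ _) hc.continuousOn
  intro t ht
  rw [interior_Icc] at ht
  have ht0 : 0 < t := lt_trans H.h0 ht.1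
  have n1 : 1 + zz (t + ys.im * I) ≠ 0 := one_add_ne ht0 ht.2
  have hS := (den_sign H ht0.le ht.2.le).1 ht.1
  have n2 : (1 + zz (t + ys.im * I)) ^ 2 - 4 * zz (t + ys.im * I) * cos (Real.pi * v) ^ 2 ≠ 0 := by
    intro h
    rw [h, normSq_zero] at hS
    have := pow_nonneg (normSq_nonneg (1 + zz (t + ys.im * I))) 3
    linarith
  rw [(flat_deriv n1 n2).deriv]
  exact (log_cmp n1 n2).2 hS

/-- the flat: the maximum is attained only at the critical point -/
theorem flat_lt (H : YsH v ys) (h0 : 0 ≤ t) (h1 : t ≤ 1 / 2) (hne : t ≠ ys.re) :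
    EE (.cl 1) (.op v) (t + ys.im * I) < EE (.cl 1) (.op v) ys := by
  have e : ((ys.re : ℝ) : ℂ) + ys.im * I = ys := re_add_im ys
  conv_rhs => rw [← e]
  rcases lt_or_gt_of_ne hne with h | h
  · exact flat_mono H ⟨h0, h.le⟩ ⟨H.h0.le, le_rfl⟩ h
  · exact flat_anti H ⟨le_rfl, H.h1.le⟩ ⟨h.le, h1⟩ h

theorem flat_le (H : YsH v ys) (h0 : 0 ≤ t) (h1 : t ≤ 1 / 2) :
    EE (.cl 1) (.op v) (t + ys.im * I) ≤ EE (.cl 1) (.op v) ys := by
  by_cases h : t = ys.re
  · rw [h, re_add_im]
  · exact (flat_lt H h0 h1 h).le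

end Pool.Agent.S3.Cl
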