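import Pool.Agent.S3.Cl.Alg2
import Pool.Agent.S3.Cl.Uni

/-!
# Closed end edges: the growth along the flat is unimodal, second version
-/

set_option autoImplicit false

namespace Pool.Agent.S3.Cl

open Complex Set

variable {v ys : ℂ} {t : ℝ}

/-- hypotheses on the critical point -/
structure YsH2 (v ys : ℂ) : Prop where
  h0 : 0 < ys.re
  h1 : ys.re < 1 / 2
  hz : (1 + zz ys) ^ 2 = -4 * cos (Real.pi * v) ^ 2
  H3 : (1 + zz ys).re ^ 2 ≤ 9046 / 10000 * (normSq (1 + zz ys) - 3818 / 10000)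
  H4 : (1 + zz ys).re ^ 2 ≤ 3866 / 10000 * normSq (1 + zz ys) *
    (1 - normSq (1 + zz ys) / (652 / 100))
  hv : |v.re| < 1 / 2

theorem den_sign2 (H : YsH2 v ys) (h0 : 0 ≤ t) (h1 : t ≤ 1 / 2) :
    (ys.re < t → normSq (1 + zz (t + ys.im * I)) ^ 3 <
      normSq ((1 + zz (t + ys.im * I)) ^ 2 - 4 * zz (t + ys.im * I) * cos (Real.pi * v) ^ 2)) ∧
    (t < ys.re → normSq ((1 + zz (t + ys.im * I)) ^ 2 -
      4 * zz (t + ys.im * I) * cos (Real.pi * v) ^ 2) < normSq (1 + zz (t + ys.im * I)) ^ 3) := by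
  have hpi := Real.pi_pos
  set z := zz (t + ys.im * I) with hz
  set w := 1 + zz ys with hw
  have e1 : (1 + z) ^ 2 - 4 * z * cos (Real.pi * v) ^ 2 = (1 + z) ^ 2 + z * w ^ 2 := by
    rw [H.hz]; ring
  have e2 : normSq z = normSq (zz ys) := zz_line_normSq t
  have hE : 0 < Real.exp (-(2 * Real.pi * ys.im)) := Real.exp_pos _
  have hq : 0 < w.im := by
    rw [hw, add_im, one_im, zero_add, zz_im]
    apply mul_pos (Real.exp_pos _)
    apply Real.sin_pos_of_pos_of_lt_pi
    · have := H.h0; positivity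
    · have := H.h1; nlinarith
  have hY : 0 ≤ 2 * z.im := by
    rw [hz, zz_line_im]
    have : 0 ≤ Real.sin (2 * Real.pi * t) := by
      apply Real.sin_nonneg_of_nonneg_of_le_pi
      · positivity
      · nlinarith
    positivity
  have hm : normSq w = w.re ^ 2 + w.im ^ 2 := by rw [normSq_apply]; ring
  have hδ : normSq z - 1 = normSq w - 2 * w.re := by
    rw [e2, hw, normSq_one_add, add_re, one_re]; ring
  have hN : normSq (1 + z) = 1 + normSq z + 2 * z.re := normSq_one_add z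
  have hzz : normSq z = z.re ^ 2 + z.im ^ 2 := by rw [normSq_apply]; ring
  have hY2 : (2 * z.im) ^ 2 = 4 * (1 + (normSq z - 1)) -
      (normSq (1 + z) - 2 - (normSq z - 1)) ^ 2 := by
    rw [hN, hzz]; ring
  have hN2 : normSq (1 + z) ≤ 4 + 2 * (normSq z - 1) := by
    rw [hN, hzz]; nlinarith [sq_nonneg (z.re - 1), sq_nonneg z.im]
  have S := Gam_sign2 hm hδ hq hY hY2 (normSq_nonneg _) hN2 H.H3 H.H4
  have G := Gam_normSq z w
  rw [e1]
  have hm' : normSq w = 1 + normSq z + 2 * (zz ys).re := by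
    rw [hw, normSq_one_add, e2]
  have hcos : ∀ a b : ℝ, 0 ≤ a → a < b → b ≤ 1 / 2 →
      Real.cos (2 * Real.pi * b) < Real.cos (2 * Real.pi * a) := by
    intro a b ha hab hb
    apply Real.strictAntiOn_cos
    · constructor
      · positivity
      · nlinarith
    · constructor
      · have : 0 ≤ b := by linarith
        positivity
      · nlinarith
    · have : 0 < 2 * Real.pi := by positivity
      exact mul_lt_mul_of_pos_left hab this
  constructor
  · intro h
    have c := hcos ys.re t H.h0.le h h1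
    have : normSq (1 + z) < normSq w := by
      rw [hN, hm', hz, zz_line_re, zz_re]
      have := mul_lt_mul_of_pos_left c hE
      linarith
    have := S.1 this
    linarith
  · intro h
    have c := hcos t ys.re h0 h H.h1.le
    have : normSq w < normSq (1 + z) := by
      rw [hN, hm', hz, zz_line_re, zz_re]
      have := mul_lt_mul_of_pos_left c hE
      linarith
    have := S.2 this
    linarith

theorem flat_mono2 (H : YsH2 v ys) :
    StrictMonoOn (fun t : ℝ => EE (.cl 1) (.op v) (t + ys.im * I)) (Icc 0 ys.re) := by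
  have hc : Continuous (fun t : ℝ => EE (.cl 1) (.op v) (t + ys.im * I)) :=
    (EE_continuous v).comp (by fun_prop)
  apply mono_exc (s := |v.re|) hc
  intro t ht hs
  have ht2 : t < 1 / 2 := lt_trans ht.2 H.h1
  have n1 : 1 + zz (t + ys.im * I) ≠ 0 := one_add_ne ht.1 ht2
  have n2 : (1 + zz (t + ys.im * I)) ^ 2 - 4 * zz (t + ys.im * I) * cos (Real.pi * v) ^ 2 ≠ 0 :=
    fun h => hs (exc H.hv ht.1 ht2 h)
  exact ⟨_, (log_cmp n1 n2).1 ((den_sign2 H ht.1.le ht2.le).2 ht.2), flat_deriv n1 n2⟩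

theorem flat_anti2 (H : YsH2 v ys) :
    StrictAntiOn (fun t : ℝ => EE (.cl 1) (.op v) (t + ys.im * I)) (Icc ys.re (1 / 2)) := by
  have hc : Continuous (fun t : ℝ => EE (.cl 1) (.op v) (t + ys.im * I)) :=
    (EE_continuous v).comp (by fun_prop)
  apply strictAntiOn_of_deriv_neg (convex_Icc _ _) hc.continuousOn
  intro t ht
  rw [interior_Icc] at ht
  have ht0 : 0 < t := lt_trans H.h0 ht.1
  have n1 : 1 + zz (t + ys.im * I) ≠ 0 := one_add_ne ht0 ht.2
  have hS := (den_sign2 H ht0.le ht.2.le).1 ht.1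
  have n2 : (1 + zz (t + ys.im * I)) ^ 2 - 4 * zz (t + ys.im * I) * cos (Real.pi * v) ^ 2 ≠ 0 := by
    intro h
    rw [h, normSq_zero] at hS
    have := pow_nonneg (normSq_nonneg (1 + zz (t + ys.im * I))) 3
    linarith
  rw [(flat_deriv n1 n2).deriv]
  exact (log_cmp n1 n2).2 hS

/-- the flat: the maximum is attained only at the critical point -/
theorem flat_lt2 (H : YsH2 v ys) (h0 : 0 ≤ t) (h1 : t ≤ 1 / 2) (hne : t ≠ ys.re) :
    EE (.cl 1) (.op v) (t + ys.im * I) < EE (.cl 1) (.op v) ys := by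
  have e : ((ys.re : ℝ) : ℂ) + ys.im * I = ys := re_add_im ys
  conv_rhs => rw [← e]
  rcases lt_or_gt_of_ne hne with h | h
  · exact flat_mono2 H ⟨h0, h.le⟩ ⟨H.h0.le, le_rfl⟩ h
  · exact flat_anti2 H ⟨le_rfl, H.h1.le⟩ ⟨h.le, h1⟩ h

theorem flat_le2 (H : YsH2 v ys) (h0 : 0 ≤ t) (h1 : t ≤ 1 / 2) :
    EE (.cl 1) (.op v) (t + ys.im * I) ≤ EE (.cl 1) (.op v) ys := by
  by_cases h : t = ys.re
  · rw [h, re_add_im]
  · exact (flat_lt2 H h0 h1 h).le

end Pool.Agent.S3.Cl
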