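import Pool.Agent.S3.Cl.YsU
import Pool.Agent.S3.Edge
import Pool.Agent.S3.Ks1

/-!
# Stage 3: closed ends: the polygon of a vertex in the right half plane

Vertical sides, the real part of the contour, and the polygon with one horizontal side.
-/

namespace Pool.Agent.S3.Cl

open Complex Pool.Agent.S3 Set MeasureTheory
open Pool.Agent.H63.VC3 (hh ff ff_hasDerivAt ff_conj)
open Pool.Agent.H25.RK (gdv gdv_re_lt gdv_hasDerivAt)

/-! ### the side `Re y = 0` -/

theorem left_le {v : ℂ} (hv : |v.re| ≤ 1 / 2) {η : ℝ} (hη : η ≤ 0) :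
    EE (.cl 1) (.op v) (((0 : ℝ) : ℂ) + η * I) ≤ Real.pi * |v.im| := by
  have h1 := se_left (σ := .op v) hv η
  have h2 : se (((0 : ℝ) : ℂ) + η * I) (.cl 1) = Real.pi * η := by
    have e : ((0 : ℝ) : ℂ) + (η : ℂ) * I + 1 / 2 = ((1 / 2 : ℝ) : ℂ) + η * I := by
      push_cast; ring
    rw [se, e, Rf_half, line_im, line_re]
    push_cast; ring
  rw [EE, h2]
  have e : Sl.ht (.op v) = |v.im| := rfl
  rw [e, abs_of_nonpos hη] at h1
  linarith

/-! ### the side `Re y = 1/2` -/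

theorem hh_im_lt {z : ℂ} (h0 : 0 < z.re) (h1 : z.re < 1) : |(hh z).im| < Real.pi / 2 := by
  have hpi := Real.pi_pos
  rw [hh, log_im]
  apply abs_arg_lt_pi_div_two_iff.2
  left
  rw [sin_pi_re]
  have : 0 < Real.sin (Real.pi * z.re) := by
    apply Real.sin_pos_of_pos_of_lt_pi
    · exact mul_pos hpi h0
    · nlinarith
  have := Real.cosh_pos (Real.pi * z.im)
  positivity

theorem right_eq {v : ℂ} (hv : |v.re| < 1 / 2) {η : ℝ} (hη : η ≤ 0) :
    EE (.cl 1) (.op v) (((1 / 2 : ℝ) : ℂ) + η * I) =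
      -(Real.pi * η) - (ff (1 / 2 + η * I - v)).re - (ff (1 / 2 + η * I + v)).re := by
  have hv' := abs_lt.1 hv
  have e : ((1 / 2 : ℝ) : ℂ) + (η : ℂ) * I + 1 / 2 = ((1 : ℝ) : ℂ) + η * I := by
    push_cast; ring
  have e1 : ((1 / 2 : ℝ) : ℂ) + (η : ℂ) * I - v = 1 / 2 + η * I - v := by push_cast; ring
  have e2 : ((1 / 2 : ℝ) : ℂ) + (η : ℂ) * I + v = 1 / 2 + η * I + v := by push_cast; ring
  have r1 : (1 / 2 + (η : ℂ) * I - v).re = 1 / 2 - v.re := by
    rw [sub_re, add_re, re_ofReal_mul, I_re]; norm_num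
  have r2 : (1 / 2 + (η : ℂ) * I + v).re = 1 / 2 + v.re := by
    rw [add_re, add_re, re_ofReal_mul, I_re]; norm_num
  have f1 : Rf (1 / 2 + η * I - v) = (ff (1 / 2 + η * I - v)).re :=
    Rf_eq_ff (by rw [r1]; linarith) (by rw [r1]; linarith)
  have f2 : Rf (1 / 2 + η * I + v) = (ff (1 / 2 + η * I + v)).re :=
    Rf_eq_ff (by rw [r2]; linarith) (by rw [r2]; linarith)
  rw [EE_cl_op, e, Rf_one_line, line_im, line_re, e1, e2, f1, f2, abs_of_nonpos hη]
  ring

theorem right_anti {v : ℂ} (hv : |v.re| < 1 / 2) :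
    StrictAntiOn (fun η : ℝ => EE (.cl 1) (.op v) (((1 / 2 : ℝ) : ℂ) + η * I)) (Iic 0) := by
  have hv' := abs_lt.1 hv
  apply strictAntiOn_of_deriv_neg (convex_Iic _)
  · exact ((EE_continuous v).comp (by fun_prop)).continuousOn
  · intro η hη
    rw [interior_Iic] at hη
    have hη0 : η < 0 := hη
    have r1 : (1 / 2 + (η : ℂ) * I - v).re = 1 / 2 - v.re := by
      rw [sub_re, add_re, re_ofReal_mul, I_re]; norm_num
    have r2 : (1 / 2 + (η : ℂ) * I + v).re = 1 / 2 + v.re := by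
      rw [add_re, add_re, re_ofReal_mul, I_re]; norm_num
    have s1 : 0 < (1 / 2 + (η : ℂ) * I - v).re ∧ (1 / 2 + (η : ℂ) * I - v).re < 1 := by
      rw [r1]; constructor <;> linarith
    have s2 : 0 < (1 / 2 + (η : ℂ) * I + v).re ∧ (1 / 2 + (η : ℂ) * I + v).re < 1 := by
      rw [r2]; constructor <;> linarith
    have l0 : HasDerivAt (fun η : ℝ => (1 / 2 : ℂ) + (η : ℂ) * I) I η := by
      have := ((HasDerivAt.ofReal_comp (hasDerivAt_id η)).mul_const I).const_add (1 / 2 : ℂ)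
      simpa using this
    have d1 := hasDerivAt_re (HasDerivAt.scomp (g₁ := ff) (h := fun η : ℝ => (1 / 2 : ℂ) + η * I - v)
      η (ff_hasDerivAt _ s1.1 s1.2) (l0.sub_const v))
    have d2 := hasDerivAt_re (HasDerivAt.scomp (g₁ := ff) (h := fun η : ℝ => (1 / 2 : ℂ) + η * I + v)
      η (ff_hasDerivAt _ s2.1 s2.2) (l0.add_const v))
    have d3 := ((((hasDerivAt_id η).const_mul Real.pi).neg).sub d1).sub d2
    have d4 : HasDerivAt (fun η : ℝ => EE (.cl 1) (.op v) (((1 / 2 : ℝ) : ℂ) + η * I))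
        (-(Real.pi * 1) - (I • hh (1 / 2 + (η : ℂ) * I - v)).re
          - (I • hh (1 / 2 + (η : ℂ) * I + v)).re) η := by
      refine d3.congr_of_eventuallyEq ?_
      filter_upwards [eventually_lt_nhds hη0] with s hs
      rw [right_eq hv hs.le]
      rfl
    rw [d4.deriv, smul_eq_mul, smul_eq_mul, I_mul_re, I_mul_re]
    have b1 := abs_lt.1 (hh_im_lt s1.1 s1.2)
    have b2 := abs_lt.1 (hh_im_lt s2.1 s2.2)
    linarith

/-! ### the polygon -/

/-- the polygon with one horizontal side at the height `h` -/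
theorem pgn_one {h : ℝ} (hh : |h| ≤ 1) :
    Pgn 1 (fun i => if i = 0 then 0 else 1 / 2) (fun _ => h) := by
  refine ⟨le_rfl, by simp, by simp, ?_, fun i _ => hh⟩
  intro i hi
  have : i = 0 := by omega
  subst this
  simp

theorem polOn_one {h : ℝ} {P : ℂ → Prop} (h1 : ∀ x ∈ Icc (0 : ℝ) (1 / 2), P (x + h * I))
    (h2 : ∀ Y ∈ uIcc 0 h, P (((0 : ℝ) : ℂ) + Y * I))
    (h3 : ∀ Y ∈ uIcc h 0, P (((1 / 2 : ℝ) : ℂ) + Y * I)) :
    PolOn 1 (fun i => if i = 0 then 0 else 1 / 2) (fun _ => h) P := by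
  refine ⟨?_, ?_, ?_, ?_⟩
  · intro i hi x hx
    have : i = 0 := by omega
    subst this
    simp only [if_true, zero_add, one_ne_zero, if_false] at hx
    exact h1 x hx
  · intro Y hY
    have := h2 Y hY
    simpa using this
  · intro i hi
    omega
  · intro Y hY
    have := h3 Y hY
    simpa using this

/-- conditions on `u = x + i t` -/
structure UH (x t : ℝ) : Prop where
  hx : 0 ≤ x
  ht : |t| ≤ Real.pi / 4
  hs : Real.sin (Real.pi * (gdv (UU x t)).re) ^ 2 ≤ 885 / 1000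
  hh : Real.sinh x * Real.sin t ≤ 1

theorem UH.im {x t : ℝ} (h : UH x t) : |(UU x t).im| < Real.pi / 2 := by
  have := h.ht
  have hpi := Real.pi_pos
  rw [UU_im]; linarith

theorem UH.hy {x t : ℝ} (h : UH x t) : YsH (gdv (UU x t)) (yc (UU x t)) := ysH h.ht h.hs

theorem UH.y0 {x t : ℝ} (h : UH x t) : (yc (UU x t)).im ≤ 0 := by
  have := h.im
  rw [UU_im] at this
  exact yc_im_nonpos this h.hh

theorem UH.y1 {x t : ℝ} (h : UH x t) : |(yc (UU x t)).im| ≤ 1 := by
  rw [abs_of_nonpos h.y0]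
  have := yc_im_ge (x := x) h.ht
  linarith

/-- on the polygon the growth is less than `L`, except possibly at the critical point -/
theorem pol_of {x t L : ℝ} (H : UH x t) {P : ℂ → Prop}
    (hP : ∀ y : ℂ, 0 ≤ y.re → y.re ≤ 1 / 2 → EE (.cl 1) (.op (gdv (UU x t))) y < L → P y)
    (h1 : ∀ τ ∈ Icc (0 : ℝ) (1 / 2), P (τ + (yc (UU x t)).im * I))
    (hE : EE (.cl 1) (.op (gdv (UU x t))) (yc (UU x t)) ≤ L)
    (h2 : Real.pi * |(gdv (UU x t)).im| < L) :
    PolOn 1 (fun i => if i = 0 then 0 else 1 / 2) (fun _ => (yc (UU x t)).im) P := by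
  have hv := gdv_re_lt H.im
  have h0 := H.y0
  apply polOn_one h1
  · intro Y hY
    rw [uIcc_of_ge h0] at hY
    apply hP
    · rw [line_re]
    · rw [line_re]; norm_num
    · exact lt_of_le_of_lt (left_le hv.le hY.2) h2
  · intro Y hY
    rw [uIcc_of_le h0] at hY
    apply hP
    · rw [line_re]; norm_num
    · rw [line_re]
    · have m := (right_anti hv).antitoneOn (a := (yc (UU x t)).im) (b := Y) h0 hY.2 hY.1
      have f := flat_lt H.hy (t := 1 / 2) (by norm_num) le_rfl H.hy.h1.ne'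
      linarith

theorem pol_lt' {x t L : ℝ} (H : UH x t) {P : ℂ → Prop}
    (hP : ∀ y : ℂ, 0 ≤ y.re → y.re ≤ 1 / 2 → EE (.cl 1) (.op (gdv (UU x t))) y < L → P y)
    (hE : EE (.cl 1) (.op (gdv (UU x t))) (yc (UU x t)) < L)
    (h2 : Real.pi * |(gdv (UU x t)).im| < L) :
    ∃ (n : ℕ) (τ h : ℕ → ℝ), Pgn n τ h ∧ PolOn n τ h P := by
  refine ⟨1, _, _, pgn_one H.y1, pol_of (L := L) H hP ?_ hE.le h2⟩
  intro τ hτ
  apply hP
  · rw [line_re]; exact hτ.1
  · rw [line_re]; exact hτ.2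
  · exact lt_of_le_of_lt (flat_le H.hy hτ.1 hτ.2) hE

/-! ### the real part of the contour -/

theorem Lg_le_of_sin {η s t : ℝ} (h : |Real.sin (Real.pi * s)| ≤ |Real.sin (Real.pi * t)|)
    (hs : Real.sin (Real.pi * s) ≠ 0) : Lg η s ≤ Lg η t := by
  have h0 : 0 < |Real.sin (Real.pi * s)| := abs_pos.mpr hs
  have h1 := norm_sin_ge s η
  have h2 : ‖sin (Real.pi * ((s : ℂ) + η * I))‖ ≤ ‖sin (Real.pi * ((t : ℂ) + η * I))‖ := by
    apply (sq_le_sq₀ (norm_nonneg _) (norm_nonneg _)).mp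
    rw [norm_sin_pi_sq, norm_sin_pi_sq]
    have := sq_le_sq.2 h
    linarith
  unfold Lg
  rw [norm_mul, norm_mul]
  apply Real.log_le_log
  · rw [Complex.norm_ofNat]
    have := lt_of_lt_of_le h0 h1
    positivity
  · exact mul_le_mul_of_nonneg_left h2 (norm_nonneg _)

/-- for real `v` the growth is decreasing in `v` -/
theorem real_anti {a b : ℝ} (ha : 0 ≤ a) (hab : a ≤ b) (hb : b ≤ 1 / 2) {t η : ℝ} (h0 : 0 ≤ t)
    (h1 : t ≤ 1 / 2) :
    EE (.cl 1) (.op (b : ℂ)) ((t : ℂ) + η * I) ≤ EE (.cl 1) (.op (a : ℂ)) ((t : ℂ) + η * I) := by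
  have hpi := Real.pi_pos
  have e1 : ∀ c : ℝ, (t : ℂ) + η * I - (c : ℂ) = ((t - c : ℝ) : ℂ) + η * I := fun c => by
    push_cast; ring
  have e2 : ∀ c : ℝ, (t : ℂ) + η * I + (c : ℂ) = ((t + c : ℝ) : ℂ) + η * I := fun c => by
    push_cast; ring
  rw [EE_cl_op, EE_cl_op, e1, e1, e2, e2]
  have i1 := Lg_integral η (t + a) (t + b)
  have i2 := Lg_integral η (t - b) (t - a)
  have c1 : ∫ s in (t + a)..(t + b), Lg η s = ∫ s in a..b, Lg η (t + s) := by
    rw [intervalIntegral.integral_comp_add_left (fun s => Lg η s) t]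
  have c2 : ∫ s in (t - b)..(t - a), Lg η s = ∫ s in a..b, Lg η (t - s) := by
    rw [intervalIntegral.integral_comp_sub_left (fun s => Lg η s) t]
  have m : ∫ s in a..b, Lg η (t - s) ≤ ∫ s in a..b, Lg η (t + s) := by
    apply intervalIntegral.integral_mono_ae_restrict hab
    · have := (Lg_integrable η (t - a) (t - b)).comp_sub_left t
      simpa using this
    · have := (Lg_integrable η (t + a) (t + b)).comp_add_left t
      simpa using this
    · have h2 := (Measure.measurePreserving_sub_left (volume : Measure ℝ) t).quasiMeasurePreserving.ae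
        sin_ne_ae
      rw [Filter.EventuallyLE, ae_restrict_iff' measurableSet_Icc]
      filter_upwards [h2] with s hs hsI
      apply Lg_le_of_sin _ hs
      rw [← sq_le_sq]
      have e3 : Real.sin (Real.pi * (t + s)) ^ 2 - Real.sin (Real.pi * (t - s)) ^ 2
          = Real.sin (2 * (Real.pi * t)) * Real.sin (2 * (Real.pi * s)) := by
        rw [mul_add, mul_sub, Real.sin_add, Real.sin_sub, Real.sin_two_mul, Real.sin_two_mul]
        ring
      have hs0 : 0 ≤ s := ha.trans hsI.1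
      have hs1 : s ≤ 1 / 2 := hsI.2.trans hb
      have p1 : 0 ≤ Real.sin (2 * (Real.pi * t)) :=
        Real.sin_nonneg_of_nonneg_of_le_pi (by positivity) (by nlinarith)
      have p2 : 0 ≤ Real.sin (2 * (Real.pi * s)) :=
        Real.sin_nonneg_of_nonneg_of_le_pi (by positivity) (by nlinarith)
      have := mul_nonneg p1 p2
      linarith
  rw [c1] at i1
  rw [c2] at i2
  linarith

end Pool.Agent.S3.Cl
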