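import Pool.Agent.S3.Cl.Geo
import Pool.Agent.S3.Cl.Uni2
import Pool.Agent.S3.Cl.Vert
import Pool.Agent.S3.W.Left

/-!
# Stage 3: closed ends: the polygon of a vertex `a = 2` next to a closed end
-/

namespace Pool.Agent.S3.Cl

open Complex Pool.Agent.S3 Set
open Pool.Agent.H63.VC3 (hh ff ff_hasDerivAt ff_conj)
open Pool.Agent.H25.RK (gdv gdv_re_lt gdv_hasDerivAt)

/-- conditions on `u = x + i t` -/
structure UH2 (x t : ℝ) : Prop where
  hx : 0 ≤ x
  ht : |t| ≤ Real.pi / 4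
  hT : 163 * Real.sin t ^ 2 ≤ 63
  hs : Real.sin (Ra x t) ^ 2 ≤ 90451 / 100000

namespace UH2

variable {x t : ℝ}

theorem ht2 (H : UH2 x t) : |t| < Real.pi / 2 := by
  have := H.ht
  have := Real.pi_pos
  linarith

theorem im (H : UH2 x t) : |(UU x t).im| < Real.pi / 2 := by rw [UU_im]; exact H.ht2

theorem Rre (H : UH2 x t) : Real.pi * (gdv (UU x t)).re = Ra x t := (Ra_eq H.ht2).symm

theorem Yim (H : UH2 x t) : Real.pi * (gdv (UU x t)).im = Ya x t := (Ya_eq H.ht2).symm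

/-- `sinh² Y = tan² t cos² R` -/
theorem sY (H : UH2 x t) : Real.sinh (Ya x t) ^ 2 * (1 - Real.sin t ^ 2)
    = Real.sin t ^ 2 * (1 - Real.sin (Ra x t) ^ 2) := by
  have c := curve (x := x) H.ht2
  have h1 := Real.sin_sq_add_cos_sq t
  have h2 := Real.sin_sq_add_cos_sq (Ra x t)
  have h3 : Real.cos t ^ 2 = 1 - Real.sin t ^ 2 := by linarith
  have h4 : Real.cos (Ra x t) ^ 2 = 1 - Real.sin (Ra x t) ^ 2 := by linarith
  rw [← h3, ← h4, ← mul_pow, ← mul_pow, c]

theorem hy (H : UH2 x t) : YsH2 (gdv (UU x t)) (yc (UU x t)) := by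
  obtain ⟨p1, p2⟩ := w_parts H.im
  rw [H.Rre, H.Yim] at p1 p2
  have hY := H.sY
  have hT := H.hT
  have hs := H.hs
  set S := Real.sin (Ra x t) ^ 2 with hS
  set s := Real.sinh (Ya x t) ^ 2 with hsd
  set τ := Real.sin t ^ 2 with hτ
  have s0 : 0 ≤ s := sq_nonneg _
  have τ0 : 0 ≤ τ := sq_nonneg _
  have S0 : 0 ≤ S := sq_nonneg _
  have h2 := Real.cosh_sq (Ya x t)
  have h5 : Real.cos (Ra x t) ^ 2 = 1 - S := by
    have := Real.sin_sq_add_cos_sq (Ra x t)
    linarith
  have e1 : (2 * (Real.sin (Ra x t) * Real.sinh (Ya x t))) ^ 2 = 4 * (S * s) := by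
    rw [hS, hsd]; ring
  have e2 : 2 * (Real.sin (Ra x t) * Real.sinh (Ya x t)) *
      (2 * (Real.sin (Ra x t) * Real.sinh (Ya x t))) +
      2 * (Real.cos (Ra x t) * Real.cosh (Ya x t)) * (2 * (Real.cos (Ra x t) * Real.cosh (Ya x t)))
      = 4 * (1 - S + s) := by
    have : 2 * (Real.sin (Ra x t) * Real.sinh (Ya x t)) *
      (2 * (Real.sin (Ra x t) * Real.sinh (Ya x t))) +
      2 * (Real.cos (Ra x t) * Real.cosh (Ya x t)) * (2 * (Real.cos (Ra x t) * Real.cosh (Ya x t)))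
      = 4 * (S * s + Real.cos (Ra x t) ^ 2 * Real.cosh (Ya x t) ^ 2) := by rw [hS, hsd]; ring
    rw [this, h5, h2]
    ring
  refine ⟨yc_re_pos H.im, yc_re_lt H.im, zz_hz H.im, ?_, ?_, gdv_re_lt H.im⟩
  · rw [normSq_apply, p1, p2, e1, e2]
    have h6 : S * s ≤ 90451 / 100000 * s := mul_le_mul_of_nonneg_right hs s0
    nlinarith
  · rw [normSq_apply, p1, p2, e1, e2]
    -- `s (1 - τ) = τ (1 - S)`
    have hu : 0 < 1 - τ := by linarith
    have hS1 : 0 ≤ 1 - S := by linarith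
    have k1 : (1 - S + s) * (1 - τ) = 1 - S := by linarith
    -- `m = 4 (1 - S) / (1 - τ)`
    have key : 4 * (S * s) * (1 - τ) ^ 2 ≤
        (3866 / 10000 * (4 * (1 - S + s)) * (1 - 4 * (1 - S + s) / (652 / 100))) * (1 - τ) ^ 2 := by
      have a1 : 4 * (S * s) * (1 - τ) ^ 2 = 4 * S * (s * (1 - τ)) * (1 - τ) := by ring
      have a2 : (3866 / 10000 * (4 * (1 - S + s)) * (1 - 4 * (1 - S + s) / (652 / 100))) * (1 - τ) ^ 2
          = 3866 / 10000 * 4 * ((1 - S + s) * (1 - τ)) *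
            ((1 - τ) - 100 / 163 * ((1 - S + s) * (1 - τ))) := by ring
      rw [a1, a2, hY, k1]
      have a3 : τ * (1 - τ) * S ≤ 3866 / 10000 * ((1 - τ) - 100 / 163 * (1 - S)) := by
        have b1 : S * (1 - τ) ≤ (1 - τ) - 100 / 163 * (1 - S) := by nlinarith
        have b2 : 0 ≤ S * (1 - τ) := mul_nonneg S0 hu.le
        have b3 : τ * (S * (1 - τ)) ≤ 3866 / 10000 * (S * (1 - τ)) :=
          mul_le_mul_of_nonneg_right (by linarith) b2
        linarith
      have a4 := mul_le_mul_of_nonneg_left a3 (mul_nonneg (by norm_num : (0 : ℝ) ≤ 4) hS1)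
      linarith
    exact le_of_mul_le_mul_right key (by positivity)

/-- the square of `sinh x sin t` -/
theorem sxt (H : UH2 x t) : (Real.sinh x * Real.sin t) ^ 2 * (1 - Real.sin (Ra x t) ^ 2)
    = Real.sin (Ra x t) ^ 2 * (Real.sin t ^ 2 * (1 - Real.sin t ^ 2)) := by
  have c := RaS (x := x) H.ht2
  have h1 := Real.sin_sq_add_cos_sq t
  have h2 := Real.sin_sq_add_cos_sq (Ra x t)
  have h3 : Real.cos t ^ 2 = 1 - Real.sin t ^ 2 := by linarith
  have h4 : Real.cos (Ra x t) ^ 2 = 1 - Real.sin (Ra x t) ^ 2 := by linarith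
  rw [← h3, ← h4]
  calc (Real.sinh x * Real.sin t) ^ 2 * Real.cos (Ra x t) ^ 2
      = (Real.sinh x * Real.cos (Ra x t)) ^ 2 * Real.sin t ^ 2 := by ring
    _ = (Real.sin (Ra x t) * Real.cos t) ^ 2 * Real.sin t ^ 2 := by rw [c]
    _ = _ := by ring

theorem sxt_le (H : UH2 x t) : (Real.sinh x * Real.sin t) ^ 2 ≤ 9 / 4 := by
  have e := H.sxt
  have hT := H.hT
  have hs := H.hs
  set S := Real.sin (Ra x t) ^ 2 with hS
  set τ := Real.sin t ^ 2 with hτ
  have τ0 : 0 ≤ τ := sq_nonneg _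
  have S0 : 0 ≤ S := sq_nonneg _
  have h1 : τ * (1 - τ) ≤ 2372 / 10000 := by nlinarith
  have h2 : S * (τ * (1 - τ)) ≤ S * (2372 / 10000) := mul_le_mul_of_nonneg_left h1 S0
  have h3 : 0 < 1 - S := by linarith
  have h4 : (Real.sinh x * Real.sin t) ^ 2 * (1 - S) ≤ 9 / 4 * (1 - S) := by
    rw [e]; nlinarith
  exact le_of_mul_le_mul_right h4 h3

/-- the height of the point -/
theorem Y_ge (H : UH2 x t) (h0 : 0 ≤ t) (h1 : 1 ≤ Real.sinh x * Real.sin t) :
    1 / 10 ≤ Ya x t := by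
  have e := H.sxt
  have hY := H.sY
  have hT := H.hT
  have hs := H.hs
  have hYn := Ya_nonneg (x := x) h0 (by have := H.ht2; rwa [abs_of_nonneg h0] at this)
  have hq : 1 ≤ (Real.sinh x * Real.sin t) ^ 2 := by nlinarith
  set S := Real.sin (Ra x t) ^ 2 with hS
  set τ := Real.sin t ^ 2 with hτ
  set s := Real.sinh (Ya x t) ^ 2 with hsd
  have τ0 : 0 ≤ τ := sq_nonneg _
  have S0 : 0 ≤ S := sq_nonneg _
  have h3 : 0 < 1 - S := by linarith
  have h4 : 1 - S ≤ S * (τ * (1 - τ)) := by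
    rw [← e]; nlinarith
  have h5 : S * (τ * (1 - τ)) ≤ 90451 / 100000 * (τ * (1 - τ)) :=
    mul_le_mul_of_nonneg_right hs (mul_nonneg τ0 (by linarith))
  have h6 : 105 / 1000 ≤ τ * (1 - τ) := by linarith
  have h7 : 115 / 1000 ≤ τ := by nlinarith
  have h8 : 105 / 10000 ≤ s := by
    have hu : 0 < 1 - τ := by linarith
    have : 105 / 10000 * (1 - τ) ≤ s * (1 - τ) := by
      rw [hY]; nlinarith
    exact le_of_mul_le_mul_right this hu
  by_contra hc
  push Not at hc
  have h9 : Real.sinh (Ya x t) ≤ Real.sinh (1 / 10) := Real.sinh_le_sinh.2 hc.le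
  have h10 : Real.sinh (1 / 10) ≤ 101 / 1000 := by
    rw [Real.sinh_eq]
    have a1 := Real.exp_bound' (x := 1 / 10) (by norm_num) (by norm_num) (n := 4) (by norm_num)
    norm_num [Finset.sum_range_succ, Nat.factorial] at a1
    have a2 := Real.one_sub_le_exp_neg (1 / 10 : ℝ)
    have a3 : (9048 / 10000 : ℝ) ≤ Real.exp (-(1 / 10)) := by
      rw [Real.exp_neg, le_inv_comm₀ (by norm_num) (Real.exp_pos _)]
      norm_num
      linarith
    linarith
  have h11 : 0 ≤ Real.sinh (Ya x t) := Real.sinh_nonneg_iff.2 hYn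
  have h12 : s ≤ (101 / 1000) ^ 2 := pow_le_pow_left₀ h11 (h9.trans h10) 2
  norm_num at h12
  linarith

theorem y_nonneg (H : UH2 x t) (h1 : 1 ≤ Real.sinh x * Real.sin t) : 0 ≤ (yc (UU x t)).im := by
  have h := H.ht2
  have n0 : 0 < normSq (cosh (UU x t)) := normSq_pos.2 (cosh_ne H.im)
  have e := zz_yc_normSq (x := x) h
  rw [zz_normSq] at e
  have h2 : 4 * (1 - Real.sinh x * Real.sin t) / normSq (cosh (UU x t)) ≤ 0 := by
    apply div_nonpos_of_nonpos_of_nonneg _ n0.le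
    linarith
  have h3 : -(4 * Real.pi * (yc (UU x t)).im) ≤ 0 := by
    rw [← Real.exp_le_one_iff, e]
    linarith
  have hpi := Real.pi_pos
  nlinarith

theorem y_le (H : UH2 x t) : Real.pi * (yc (UU x t)).im ≤ 1 / 10 := by
  rcases le_total (Real.sinh x * Real.sin t) 1 with h1 | h1
  · have := yc_im_nonpos H.ht2 h1
    have := mul_nonpos_of_nonneg_of_nonpos Real.pi_pos.le this
    linarith
  have h := H.ht2
  have n0 : 0 < normSq (cosh (UU x t)) := normSq_pos.2 (cosh_ne H.im)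
  have e := zz_yc_normSq (x := x) h
  rw [zz_normSq] at e
  have hT := H.hT
  have hs := H.sxt_le
  set s := Real.sinh x * Real.sin t with hsd
  have hn : normSq (cosh (UU x t)) = Real.sinh x ^ 2 + (1 - Real.sin t ^ 2) := by
    have hc := Real.cosh_sq x
    rw [normSq_c]
    linear_combination hc
  have h2 : 163 / 63 * s ^ 2 ≤ Real.sinh x ^ 2 := by
    have : s ^ 2 = Real.sinh x ^ 2 * Real.sin t ^ 2 := by rw [hsd]; ring
    rw [this]
    have := mul_le_mul_of_nonneg_left hT (sq_nonneg (Real.sinh x))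
    linarith
  have h3 : 4 * (s - 1) ≤ 32 / 100 * normSq (cosh (UU x t)) := by
    rw [hn]
    have hs2 : s ≤ 3 / 2 := by nlinarith
    nlinarith
  have h4 : 68 / 100 ≤ Real.exp (-(4 * Real.pi * (yc (UU x t)).im)) := by
    rw [e]
    have : -(32 / 100) ≤ 4 * (1 - s) / normSq (cosh (UU x t)) := by
      rw [le_div_iff₀ n0]
      linarith
    linarith
  by_contra hc
  push Not at hc
  have h5 : Real.exp (-(4 * Real.pi * (yc (UU x t)).im)) < Real.exp (-(2 / 5)) := by
    apply Real.exp_lt_exp.2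
    linarith
  have h6 : Real.exp (-(2 / 5) : ℝ) ≤ 68 / 100 := by
    rw [Real.exp_neg, inv_le_comm₀ (Real.exp_pos _) (by norm_num)]
    have := Real.sum_le_exp_of_nonneg (x := 2 / 5) (by norm_num) 3
    norm_num [Finset.sum_range_succ, Nat.factorial] at this
    norm_num
    linarith
  linarith

theorem y1 (H : UH2 x t) : |(yc (UU x t)).im| ≤ 1 := by
  rw [abs_le]
  refine ⟨yc_im_ge H.ht, ?_⟩
  have := H.y_le
  have := Real.pi_gt_three
  by_contra hc
  push Not at hc
  nlinarith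

end UH2

/-! ### the side `Re y = 0` -/

theorem Ha_le {a : ℝ} (h0 : 0 < a) (h1 : a < 1 / 2) (x : ℝ) :
    Ha a x ≤ Real.pi / 2 - Real.pi * a := by
  have hpi := Real.pi_pos
  have hs := sin_pi_pos h0 (by linarith)
  have hc : 0 < Real.cos (Real.pi * a) :=
    Real.cos_pos_of_mem_Ioo ⟨by nlinarith, by nlinarith⟩
  rw [Ha_eq h0 (by linarith)]
  have e : Real.arctan (Real.cos (Real.pi * a) / Real.sin (Real.pi * a))
      = Real.pi / 2 - Real.pi * a := by
    have e1 : Real.cos (Real.pi * a) / Real.sin (Real.pi * a)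
        = Real.tan (Real.pi / 2 - Real.pi * a) := by
      rw [Real.tan_eq_sin_div_cos, Real.sin_pi_div_two_sub, Real.cos_pi_div_two_sub]
    rw [e1, Real.arctan_tan (by nlinarith) (by nlinarith)]
  rw [← e]
  apply Real.arctan_mono
  have h2 : Real.tanh (Real.pi * x) ≤ 1 := (Real.tanh_lt_one _).le
  have h3 : 0 ≤ Real.cos (Real.pi * a) / Real.sin (Real.pi * a) := by positivity
  calc _ ≤ Real.cos (Real.pi * a) / Real.sin (Real.pi * a) * 1 :=
        mul_le_mul_of_nonneg_left h2 h3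
    _ = _ := mul_one _

/-- above the real line, up to the height of `v` -/
theorem left_le2 {a b η : ℝ} (h0 : 0 < a) (h1 : a < 1 / 2) (hη : 0 ≤ η) (hb : η ≤ b) :
    EE (.cl 1) (.op ((a : ℂ) + b * I)) (((0 : ℝ) : ℂ) + η * I)
      ≤ Real.pi * b + Real.pi * η * (1 - 2 * a) := by
  have hpi := Real.pi_pos
  have h2 : se (((0 : ℝ) : ℂ) + η * I) (.cl 1) = Real.pi * η := by
    have e : ((0 : ℝ) : ℂ) + (η : ℂ) * I + 1 / 2 = ((1 / 2 : ℝ) : ℂ) + η * I := by
      push_cast; ring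
    rw [se, e, Rf_half, line_im, line_re]
    push_cast; ring
  rw [EE, h2, se_left_eq, abs_of_nonpos (by linarith : η - b ≤ 0)]
  -- the function of `η`
  have hd : ∀ s : ℝ, HasDerivAt (fun s : ℝ => Real.pi * s * (1 - 2 * a)
      - (Rf ((a : ℂ) + ((s + -b : ℝ) : ℂ) * I) - Rf ((a : ℂ) + ((s + b : ℝ) : ℂ) * I)))
      (Real.pi * 1 * (1 - 2 * a) - (-Ha a (s + -b) - -Ha a (s + b))) s := by
    intro s
    exact (((hasDerivAt_id s).const_mul Real.pi).mul_const (1 - 2 * a)).sub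
      ((Rf_vert_comp h0 (by linarith) (-b) s).sub (Rf_vert_comp h0 (by linarith) b s))
  have hm : MonotoneOn (fun s : ℝ => Real.pi * s * (1 - 2 * a)
      - (Rf ((a : ℂ) + ((s + -b : ℝ) : ℂ) * I) - Rf ((a : ℂ) + ((s + b : ℝ) : ℂ) * I)))
      (Icc 0 η) := by
    apply monotoneOn_of_deriv_nonneg (convex_Icc _ _)
    · exact fun s _ => (hd s).continuousAt.continuousWithinAt
    · exact fun s _ => (hd s).differentiableAt.differentiableWithinAt
    · intro s _
      rw [(hd s).deriv]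
      have k1 := Ha_le h0 h1 (-(s + -b))
      have k2 := Ha_le h0 h1 (s + b)
      rw [Ha_neg h0 (by linarith)] at k1
      linarith
  have m := hm (a := 0) (b := η) ⟨le_rfl, hη⟩ ⟨hη, le_rfl⟩ hη
  simp only [mul_zero, zero_mul, zero_add] at m
  have e0 : Rf ((a : ℂ) + ((-b : ℝ) : ℂ) * I) = Rf ((a : ℂ) + (b : ℂ) * I) := Rf_line_neg a b
  rw [e0] at m
  linarith

/-! ### the side `Re y = 1/2` -/

theorem right_eq2 {v : ℂ} (hv : |v.re| < 1 / 2) {η : ℝ} (hη : 0 ≤ η) :
    EE (.cl 1) (.op v) (((1 / 2 : ℝ) : ℂ) + η * I) =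
      2 * (Real.pi * η) - (ff (1 / 2 + η * I - v)).re - (ff (1 / 2 + η * I + v)).re := by
  have hv' := abs_lt.1 hv
  have e : ((1 / 2 : ℝ) : ℂ) + (η : ℂ) * I + 1 / 2 = ((1 : ℝ) : ℂ) + η * I := by
    push_cast; ring
  have e1 : ((1 / 2 : ℝ) : ℂ) + (η : ℂ) * I - v = 1 / 2 + η * I - v := by push_cast; ring
  have e2 : ((1 / 2 : ℝ) : ℂ) + (η : ℂ) * I + v = 1 / 2 + η * I + v := by push_cast; ring
  have r1 : (1 / 2 + (η : ℂ) * I - v).re = 1 / 2 - v.re := by
    rw [sub_re, add_re, re_ofReal_mul, I_re]; norm_num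
  have r2 : (1 / 2 + (η : ℂ) * I + v).re = 1 / 2 + v.re := by
    rw [add_re, add_re, re_ofReal_mul, I_re]; norm_num
  have f1 : Rf (1 / 2 + η * I - v) = (ff (1 / 2 + η * I - v)).re :=
    Rf_eq_ff (by rw [r1]; linarith) (by rw [r1]; linarith)
  have f2 : Rf (1 / 2 + η * I + v) = (ff (1 / 2 + η * I + v)).re :=
    Rf_eq_ff (by rw [r2]; linarith) (by rw [r2]; linarith)
  rw [EE_cl_op, e, Rf_one_line, line_im, line_re, e1, e2, f1, f2, abs_of_nonneg hη]
  ring

theorem right_mono {v : ℂ} (hv : |v.re| < 1 / 2) :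
    StrictMonoOn (fun η : ℝ => EE (.cl 1) (.op v) (((1 / 2 : ℝ) : ℂ) + η * I)) (Ici 0) := by
  have hv' := abs_lt.1 hv
  apply strictMonoOn_of_deriv_pos (convex_Ici _)
  · exact ((EE_continuous v).comp (by fun_prop)).continuousOn
  · intro η hη
    rw [interior_Ici] at hη
    have hη0 : 0 < η := hη
    have r1 : (1 / 2 + (η : ℂ) * I - v).re = 1 / 2 - v.re := by
      rw [sub_re, add_re, re_ofReal_mul, I_re]; norm_num
    have r2 : (1 / 2 + (η : ℂ) * I + v).re = 1 / 2 + v.re := by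
      rw [add_re, add_re, re_ofReal_mul, I_re]; norm_num
    have s1 : 0 < (1 / 2 + (η : ℂ) * I - v).re ∧ (1 / 2 + (η : ℂ) * I - v).re < 1 := by
      rw [r1]; constructor <;> linarith
    have s2 : 0 < (1 / 2 + (η : ℂ) * I + v).re ∧ (1 / 2 + (η : ℂ) * I + v).re < 1 := by
      rw [r2]; constructor <;> linarith
    have l0 : HasDerivAt (fun η : ℝ => (1 / 2 : ℂ) + (η : ℂ) * I) I η := by
      have := ((HasDerivAt.ofReal_comp (hasDerivAt_id η)).mul_const I).const_add (1 / 2 : ℂ)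
      simpa using this
    have d1 := hasDerivAt_re (HasDerivAt.scomp (g₁ := ff) (h := fun η : ℝ => (1 / 2 : ℂ) + η * I - v)
      η (ff_hasDerivAt _ s1.1 s1.2) (l0.sub_const v))
    have d2 := hasDerivAt_re (HasDerivAt.scomp (g₁ := ff) (h := fun η : ℝ => (1 / 2 : ℂ) + η * I + v)
      η (ff_hasDerivAt _ s2.1 s2.2) (l0.add_const v))
    have d3 := ((((hasDerivAt_id η).const_mul Real.pi).const_mul 2).sub d1).sub d2
    have d4 : HasDerivAt (fun η : ℝ => EE (.cl 1) (.op v) (((1 / 2 : ℝ) : ℂ) + η * I))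
        (2 * (Real.pi * 1) - (I • hh (1 / 2 + (η : ℂ) * I - v)).re
          - (I • hh (1 / 2 + (η : ℂ) * I + v)).re) η := by
      refine d3.congr_of_eventuallyEq ?_
      filter_upwards [eventually_gt_nhds hη0] with s hs
      rw [right_eq2 hv hs.le]
      rfl
    rw [d4.deriv, smul_eq_mul, smul_eq_mul, I_mul_re, I_mul_re]
    have b1 := abs_lt.1 (hh_im_lt s1.1 s1.2)
    have b2 := abs_lt.1 (hh_im_lt s2.1 s2.2)
    linarith [Real.pi_pos]

/-! ### the polygon -/

/-- on the polygon the growth is less than `L`, except possibly at the critical point -/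
theorem pol_of2 {x t L : ℝ} (H : UH2 x t) {P : ℂ → Prop}
    (hP : ∀ y : ℂ, 0 ≤ y.re → y.re ≤ 1 / 2 → EE (.cl 1) (.op (gdv (UU x t))) y < L → P y)
    (h1 : ∀ τ ∈ Icc (0 : ℝ) (1 / 2), P (τ + (yc (UU x t)).im * I))
    (hE : EE (.cl 1) (.op (gdv (UU x t))) (yc (UU x t)) ≤ L)
    (h2 : Real.pi * |(gdv (UU x t)).im| < L)
    (h3 : 1 < Real.sinh x * Real.sin t → 0 ≤ t ∧
      Real.pi * (gdv (UU x t)).im + 1 / 10 * (1 - 2 * (gdv (UU x t)).re) < L) :
    PolOn 1 (fun i => if i = 0 then 0 else 1 / 2) (fun _ => (yc (UU x t)).im) P := by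
  have hpi := Real.pi_pos
  have hv := gdv_re_lt H.im
  rcases le_or_gt (Real.sinh x * Real.sin t) 1 with hc | hc
  · have h0 := yc_im_nonpos H.ht2 hc
    apply polOn_one h1
    · intro Y hY
      rw [uIcc_of_ge h0] at hY
      apply hP
      · rw [line_re]
      · rw [line_re]; norm_num
      · exact lt_of_le_of_lt (left_le hv.le hY.2) h2
    · intro Y hY
      rw [uIcc_of_le h0] at hY
      apply hP
      · rw [line_re]; norm_num
      · rw [line_re]
      · have m := (right_anti hv).antitoneOn (a := (yc (UU x t)).im) (b := Y) h0 hY.2 hY.1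
        have f := flat_lt2 H.hy (t := 1 / 2) (by norm_num) le_rfl H.hy.h1.ne'
        linarith
  · have h0 := H.y_nonneg hc.le
    obtain ⟨ht0, h4⟩ := h3 hc
    have hy := H.y_le
    have hYg := H.Y_ge ht0 hc.le
    rw [← H.Yim] at hYg
    apply polOn_one h1
    · intro Y hY
      rw [uIcc_of_le h0] at hY
      apply hP
      · rw [line_re]
      · rw [line_re]; norm_num
      · have hre : 0 < (gdv (UU x t)).re := by
          have hR := H.Rre
          have hx0 : 0 < Real.sinh x := by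
            by_contra hcon
            push Not at hcon
            have hs0 : 0 ≤ Real.sin t := by
              apply Real.sin_nonneg_of_nonneg_of_le_pi ht0
              have := H.ht2
              rw [abs_of_nonneg ht0] at this
              linarith
            nlinarith
          have hR2 : 0 < Ra x t := by
            have := Ra_mono H.ht2 (Real.sinh_pos_iff.1 hx0)
            simp only at this
            have h00 := Ra_nonneg (x := 0) le_rfl H.ht2
            linarith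
          rw [← hR] at hR2
          exact (pos_iff_pos_of_mul_pos hR2).1 hpi
        have hlt := (abs_lt.1 hv).2
        have hYb : Y ≤ (gdv (UU x t)).im := by
          have a1 : Real.pi * Y ≤ Real.pi * (yc (UU x t)).im :=
            mul_le_mul_of_nonneg_left hY.2 hpi.le
          exact le_of_mul_le_mul_left (a1.trans (hy.trans hYg)) hpi
        have l := left_le2 (b := (gdv (UU x t)).im) hre hlt hY.1 hYb
        rw [re_add_im] at l
        have a2 : Real.pi * Y * (1 - 2 * (gdv (UU x t)).re) ≤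
            1 / 10 * (1 - 2 * (gdv (UU x t)).re) := by
          apply mul_le_mul_of_nonneg_right _ (by linarith)
          exact (mul_le_mul_of_nonneg_left hY.2 hpi.le).trans hy
        linarith
    · intro Y hY
      rw [uIcc_of_ge h0] at hY
      apply hP
      · rw [line_re]; norm_num
      · rw [line_re]
      · have m := (right_mono hv).monotoneOn (a := Y) (b := (yc (UU x t)).im) hY.1 h0 hY.2
        have f := flat_lt2 H.hy (t := 1 / 2) (by norm_num) le_rfl H.hy.h1.ne'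
        linarith

theorem pol_lt2 {x t L : ℝ} (H : UH2 x t) {P : ℂ → Prop}
    (hP : ∀ y : ℂ, 0 ≤ y.re → y.re ≤ 1 / 2 → EE (.cl 1) (.op (gdv (UU x t))) y < L → P y)
    (hE : EE (.cl 1) (.op (gdv (UU x t))) (yc (UU x t)) < L)
    (h2 : Real.pi * |(gdv (UU x t)).im| < L)
    (h3 : 1 < Real.sinh x * Real.sin t → 0 ≤ t ∧
      Real.pi * (gdv (UU x t)).im + 1 / 10 * (1 - 2 * (gdv (UU x t)).re) < L) :
    ∃ (n : ℕ) (τ h : ℕ → ℝ), Pgn n τ h ∧ PolOn n τ h P := by
  refine ⟨1, _, _, pgn_one H.y1, pol_of2 (L := L) H hP ?_ hE.le h2 h3⟩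
  intro τ hτ
  apply hP
  · rw [line_re]; exact hτ.1
  · rw [line_re]; exact hτ.2
  · exact lt_of_le_of_lt (flat_le2 H.hy hτ.1 hτ.2) hE

end Pool.Agent.S3.Cl
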