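import Pool.Agent.S3.Cl.Hyp
import Pool.Agent.S3.Cl.Vert2

/-!
# Stage 3: closed ends next to an inner `2`: the inequalities on the contour
-/

namespace Pool.Agent.S3.Cl

open Complex Pool.Agent.S3 Set
open Pool.Agent.H25.RK (gdv gdv_re_lt gdv_hasDerivAt)

variable {Φ : ℂ → ℂ} {θ xc b v1 : ℝ}

/-- the hypotheses on a closed edge next to an inner `2` -/
structure ClH2 (Φ : ℂ → ℂ) (θ xc b v1 : ℝ) : Prop where
  hΦ : IsPhi1 Φ
  h0 : Φ 0 = Fc 0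
  θ0 : 0 < θ
  θ1 : θ ≤ Real.pi / 4
  hT : 163 * Real.sin θ ^ 2 ≤ 63
  xc0 : 0 < xc
  b0 : 0 < b
  hQ : (qcl (UU xc θ)).re = b * (gd (UU xc θ)).im
  v0 : 0 < v1
  v2 : v1 ≤ 2 / 5
  hR : Ra xc θ < Real.pi * v1
  hx : Real.sinh xc * Real.sin θ ≤ 1
  hY : Ya xc θ + 1 / 5 ≤ xc
  z1 : Ya 0 θ * (Real.pi - θ - Ra xc θ) < VV Φ xc θ
  z2 : ∀ x : ℝ, Ra x θ = 2 * Real.pi / 5 →
    Ya xc θ * (Real.pi - θ - 2 * Real.pi / 5) + (Real.pi - 4 * Real.pi / 5) / 10 < VV Φ x θ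

namespace ClH2

theorem vh (H : ClH2 Φ θ xc b v1) : v1 < 1 / 2 := by linarith [H.v2]

theorem at' (H : ClH2 Φ θ xc b v1) : |θ| < Real.pi / 2 := by
  rw [abs_of_pos H.θ0]
  have := H.θ1
  have := Real.pi_pos
  linarith

theorem th2 (H : ClH2 Φ θ xc b v1) : θ < Real.pi / 2 := by
  have := H.θ1
  have := Real.pi_pos
  linarith

theorem D_le (H : ClH2 Φ θ xc b v1) (x : ℝ) :
    Real.pi * (Φ (gd (UU x θ) / (Real.pi : ℂ))).re ≤ LL Φ θ xc b (Ra x θ) (Ya x θ) := by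
  have h := Dfun1_main (b := b) (x := x) H.hΦ H.θ0 H.th2 H.b0 H.hQ H.xc0
  have e := D_eq (Φ := Φ) H.hQ x
  have := mul_nonpos_of_nonneg_of_nonpos Real.pi_pos.le h
  linarith

theorem D_lt (H : ClH2 Φ θ xc b v1) {x : ℝ} (hx : x ≠ xc) :
    Real.pi * (Φ (gd (UU x θ) / (Real.pi : ℂ))).re < LL Φ θ xc b (Ra x θ) (Ya x θ) := by
  obtain ⟨δ, h1, h2⟩ := Dfun1_unif (b := b) H.hΦ H.θ0 H.th2 H.b0 H.hQ H.xc0
    (abs_pos.2 (sub_ne_zero.2 hx))
  have e := D_eq (Φ := Φ) H.hQ x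
  have := h2 x le_rfl
  have := mul_neg_of_pos_of_neg Real.pi_pos (show Dfun1 Φ θ b xc x < 0 by linarith)
  linarith

theorem Ra_neg (H : ClH2 Φ θ xc b v1) (x : ℝ) : Ra (-x) θ = -Ra x θ := by
  rw [Ra, Ra, gd_neg_conj H.at', neg_re, conj_re]

theorem Ya_neg (H : ClH2 Φ θ xc b v1) (x : ℝ) : Ya (-x) θ = Ya x θ := by
  rw [Ya, Ya, gd_neg_conj H.at', neg_im, conj_im, neg_neg]

/-- a point of the line with a given abscissa -/
theorem pt (H : ClH2 Φ θ xc b v1) {s : ℝ} (hs0 : 0 ≤ s) (hs : s < 1 / 2) :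
    ∃ x : ℝ, 0 ≤ x ∧ Ra x θ = Real.pi * s ∧ Ya x θ = Real.pi * bl θ s := by
  have hpi := Real.pi_pos
  have r1 : ((s : ℂ) + (bl θ s : ℝ) * I).re = s := by simp
  have r2 : ((s : ℂ) + (bl θ s : ℝ) * I).im = bl θ s := by simp
  have hvre : |((s : ℂ) + (bl θ s : ℝ) * I).re| < 1 / 2 := by
    rw [r1, abs_of_nonneg hs0]; exact hs
  obtain ⟨x1, t1, a1, -, a3, a4, a5, -⟩ := coord hvre
  rw [r1] at a3 a5
  rw [r2] at a4
  have hbl : 0 ≤ bl θ s := by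
    rw [bl]
    apply div_nonneg _ hpi.le
    rw [Real.arsinh_nonneg_iff]
    apply mul_nonneg (tan_nonneg' H.θ0.le H.th2)
    apply Real.cos_nonneg_of_mem_Icc
    constructor
    · nlinarith
    · nlinarith
  have ht1 : t1 = θ := (t_le H.θ0 H.th2 (v := (s : ℂ) + (bl θ s : ℝ) * I) hvre
    (by rw [r2]; exact hbl) a1 (by rw [r1]; exact a3) (by rw [r2]; exact a4)).2.2
    (by rw [r1, r2])
  rw [ht1] at a3 a4
  exact ⟨x1, a5 hs0, a3, a4⟩

/-- on the line to the right of the critical point -/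
theorem Z_far (H : ClH2 Φ θ xc b v1) {x : ℝ} (h : xc ≤ x) (hx1 : Ra x θ ≤ Real.pi * v1) :
    Real.pi * Ya x θ + (Real.pi - 2 * Ra x θ) / 10 < LL Φ θ xc b (Ra x θ) (Ya x θ) := by
  have hpi := Real.pi_pos
  have hx : 0 ≤ x := H.xc0.le.trans h
  have hY := Ya_nonneg (x := x) H.θ0.le H.th2
  have mono := Ra_mono H.at'
  have hD := H.D_le x
  have h2 : Ya x θ ≤ Ya xc θ :=
    Ya_anti H.θ0.le H.th2 (mem_Ici.2 H.xc0.le) (mem_Ici.2 hx) h
  obtain ⟨x2, hx20, hR2, -⟩ := H.pt (s := 2 / 5) (by norm_num) (by norm_num)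
  have hR2' : Ra x2 θ = 2 * Real.pi / 5 := by rw [hR2]; ring
  have hR : Ra x θ ≤ 2 * Real.pi / 5 := by
    have := mul_le_mul_of_nonneg_left H.v2 hpi.le
    linarith
  have hxx : x ≤ x2 := by
    by_contra hc
    push Not at hc
    have := mono hc
    simp only at this
    linarith
  have hc : VV Φ x2 θ + xc * Ra x2 θ ≤ VV Φ x θ + xc * Ra x θ :=
    VV_anti_c' H.hΦ (c := xc) H.at' (a := x) (b := x2) (mem_Ici.2 h) (mem_Ici.2 (h.trans hxx)) hxx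
  rw [hR2'] at hc
  have h4 := H.z2 x2 hR2'
  have hRl := (abs_lt.1 (Ra_lt (x := x) H.at')).2
  have hθ1 := H.θ1
  have h5 : Ya x θ * (Real.pi - θ - Ra x θ) ≤ Ya xc θ * (Real.pi - θ - Ra x θ) :=
    mul_le_mul_of_nonneg_right h2 (by linarith)
  have h6 : (Ya xc θ + 1 / 5) * (2 * Real.pi / 5 - Ra x θ) ≤ xc * (2 * Real.pi / 5 - Ra x θ) :=
    mul_le_mul_of_nonneg_right H.hY (by linarith)
  have h7 : VV Φ x θ = Real.pi * (Φ (gd (UU x θ) / (Real.pi : ℂ))).re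
      - (θ + Ra x θ) * Ya x θ := rfl
  have h8 : Ya x θ * (Real.pi - θ - Ra x θ)
      = Real.pi * Ya x θ - (θ + Ra x θ) * Ya x θ := by ring
  nlinarith

/-- `π Y < LL` on the line, right half -/
theorem Z_pos (H : ClH2 Φ θ xc b v1) {x : ℝ} (hx : 0 ≤ x) (hx1 : Ra x θ ≤ Real.pi * v1) :
    Real.pi * Ya x θ < LL Φ θ xc b (Ra x θ) (Ya x θ) := by
  have hpi := Real.pi_pos
  have hY := Ya_nonneg (x := x) H.θ0.le H.th2
  have hRc := (abs_lt.1 (Ra_lt (x := xc) H.at')).2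
  have mono := Ra_mono H.at'
  have hθ1 := H.θ1
  rcases le_total x xc with h | h
  · have h1 : Ra x θ ≤ Ra xc θ := mono.monotone h
    have h2 : Ya x θ ≤ Ya 0 θ := Ya_anti H.θ0.le H.th2 (mem_Ici.2 le_rfl) hx hx
    have h3 : Ya x θ * (Real.pi - θ - Ra xc θ) ≤ Ya 0 θ * (Real.pi - θ - Ra xc θ) :=
      mul_le_mul_of_nonneg_right h2 (by linarith)
    have h4 := mul_nonneg hY (mul_nonneg (mul_nonneg zero_le_two H.b0.le) (sub_nonneg.2 h1))
    have h5 := H.z1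
    unfold LL
    nlinarith
  · have h1 := H.Z_far h hx1
    have h2 := (abs_lt.1 (Ra_lt (x := x) H.at')).2
    linarith

theorem Z_line (H : ClH2 Φ θ xc b v1) {x : ℝ} (hx : |Ra x θ| ≤ Real.pi * v1) :
    Real.pi * Ya x θ < LL Φ θ xc b (Ra x θ) (Ya x θ) := by
  have hx' := abs_le.1 hx
  rcases le_total 0 x with h | h
  · exact H.Z_pos h hx'.2
  · have h1 := H.Z_pos (x := -x) (by linarith) (by rw [H.Ra_neg]; linarith)
    rw [H.Ra_neg, H.Ya_neg] at h1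
    have hY := Ya_nonneg (x := x) H.θ0.le H.th2
    have h2 := Ra_nonneg (x := -x) (by linarith) H.at'
    rw [H.Ra_neg] at h2
    have h3 := mul_nonneg hY (mul_nonneg (mul_nonneg zero_le_two H.b0.le) h2)
    unfold LL at h1 ⊢
    nlinarith

/-- conditions on the points of the contour -/
theorem uh_of (H : ClH2 Φ θ xc b v1) {x t : ℝ} (hx : 0 ≤ x) (h0 : 0 ≤ t) (h1 : t ≤ θ)
    (hR : Ra x t ≤ Real.pi * v1) : UH2 x t ∧ UH2 x (-t) := by
  have hpi := Real.pi_pos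
  have hθ1 := H.θ1
  have ht : |t| < Real.pi / 2 := by rw [abs_of_nonneg h0]; linarith
  have ht4 : |t| ≤ Real.pi / 4 := by rw [abs_of_nonneg h0]; linarith
  have ht' : |(-t)| < Real.pi / 2 := by rwa [abs_neg]
  have hR0 := Ra_nonneg hx ht
  have e2 : Ra x (-t) = Ra x t := by
    rw [Ra, Ra, ← UU_conj, gd_conj (by rwa [UU_im]), conj_re]
  have hvpi : Ra x t ≤ 2 * Real.pi / 5 := by
    have := mul_le_mul_of_nonneg_left H.v2 hpi.le
    linarith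
  have s1 : Real.sin (Ra x t) ^ 2 ≤ 90451 / 100000 := by
    have a0 : Real.cos (2 * Real.pi / 5) ≤ Real.cos (Ra x t) :=
      Real.cos_le_cos_of_nonneg_of_le_pi hR0 (by linarith) hvpi
    have a1 : Real.cos (2 * Real.pi / 5) = 2 * Real.cos (Real.pi / 5) ^ 2 - 1 := by
      rw [← Real.cos_two_mul]; congr 1; ring
    rw [Real.cos_pi_div_five] at a1
    have a2 : (√5) ^ 2 = 5 := Real.sq_sqrt (by norm_num)
    have a3 : 0 ≤ √5 := Real.sqrt_nonneg 5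
    have a4 : (22360 / 10000 : ℝ) ≤ √5 := by nlinarith
    have a5 : 309 / 1000 ≤ Real.cos (2 * Real.pi / 5) := by
      rw [a1]; nlinarith
    have a6 : Real.cos (2 * Real.pi / 5) = (√5 - 1) / 4 := by
      rw [a1]; nlinarith
    have a7 : (√5 - 1) / 4 ≤ Real.cos (Ra x t) := by rw [← a6]; exact a0
    have a8 := Real.sin_sq_add_cos_sq (Ra x t)
    have a9 : ((√5 - 1) / 4) ^ 2 ≤ Real.cos (Ra x t) ^ 2 :=
      pow_le_pow_left₀ (by linarith) a7 2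
    have a10 : √5 ≤ 22361 / 10000 := by nlinarith
    nlinarith
  have s2 : Real.sin t ^ 2 ≤ Real.sin θ ^ 2 := by
    apply pow_le_pow_left₀
    · exact Real.sin_nonneg_of_nonneg_of_le_pi h0 (by linarith)
    · exact Real.sin_le_sin_of_le_of_le_pi_div_two (by linarith) (by linarith) h1
  have s3 := H.hT
  refine ⟨⟨hx, ht4, by linarith, s1⟩, ⟨hx, by rwa [abs_neg], ?_, by rwa [e2]⟩⟩
  rw [Real.sin_neg, neg_sq]
  linarith

end ClH2

end Pool.Agent.S3.Cl
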