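import Pool.Agent.S3.E.J6T

/-!
# Stage 3: branch and bound at a vertex with at least three (four) twists, upper bound of the angle

Variables: `X = tan R`, `h = tanh I` at the vertex, `P = tanh p₂` for the second slot.
-/

set_option autoImplicit false

namespace Pool.Agent.S3.Cl.J7

open NI E.J6

/-! ### The test -/

def sH (q : N) : N := N.sub (N.sub one q.sq).inv one
def sS (q : N) : N := N.sub one (N.add one q.sq).inv
def tn (b : Bool) (h h2 : N) : N :=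
  bif b then N.mul (N.mul h (N.add (cst 3 1) h2)) (N.add one (N.sm 3 h2)).inv
  else N.mul (N.mul (N.sm 4 h) (N.add one h2)) (N.add one (N.add (N.sm 6 h2) h2.sq)).inv
def dn (b : Bool) (X2 : N) : N :=
  bif b then N.sub (N.sm 3 X2) one else N.sub (N.sm 6 X2) (N.add one X2.sq)
def nu (b : Bool) (X X2 : N) : N :=
  bif b then N.mul X (N.sub (cst 3 1) X2) else N.mul (N.sm 4 X) (N.sub one X2)

def u4 (κ iD τ q W : N) : Bool :=
  W.lt q || (τ.ps && (N.sub one (N.mul W τ.inv).sq).ps &&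
    (N.mul (N.add (sH (N.mul W τ.inv)) (sS W)) iD).lt κ)

def u3' (κ iD τ q U V : N) : Bool :=
  u4 κ iD τ q (N.mul (N.sub U V) (N.add one (N.mul U V)).inv)

def u3 (b : Bool) (κ X X2 P a iD τ q : N) : Bool :=
  (dn b X2).ps && u3' κ iD τ q (N.mul (nu b X X2) (dn b X2).inv) (N.mul a P)

def u2' (b : Bool) (B κ X X2 P a iD L sL τ : N) : Bool :=
  B.lt (N.mul (N.add sL (sS (N.mul τ L))) iD) || u3 b κ X X2 P a iD τ (N.mul τ L)

def u2 (b : Bool) (f B κ X X2 P a iD sx L : N) : Bool :=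
  (N.sub one L.sq).ps && (sx.lt (sH L) || ((N.sub one (N.mul f a)).ps &&
    u2' b B κ X X2 P a iD L (sH L) (N.mul (N.add a f) (N.sub one (N.mul f a)).inv)))

def u1' (b : Bool) (f B κ X X2 P a iD sx T : N) : Bool :=
  (N.sub one (N.mul T P)).ps && u2 b f B κ X X2 P a iD sx
    (N.mul (N.sub T P) (N.sub one (N.mul T P)).inv)

def u1 (b : Bool) (f B κ X h P X2 h2 sx : N) : Bool :=
  (N.sub one P.sq).ps && (sx.lt (sH P) || u1' b f B κ X X2 P
    (N.mul (N.mul h (N.sub one h2).inv) (N.add X X.inv))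
    (N.mul (N.add one (N.mul X2 h2)) (N.add X2 h2).inv) sx (tn b h h2))

def u0' (b : Bool) (f B κ tl th X h P X2 h2 t : N) : Bool :=
  t.lt tl || th.lt t || u1 b f B κ X h P X2 h2 (N.mul X2 (N.add one t).inv)

def u0 (b : Bool) (f B κ tl th X h P X2 h2 : N) : Bool :=
  X.ps && h.ps && (N.sub one h2).ps && (N.add X2 h2).ps &&
    u0' b f B κ tl th X h P X2 h2 (N.mul (N.mul h2 (N.sub one h2).inv) (N.add one X2))

def tst (b : Bool) (f B κ tl th : N) (X h P _D : N) : Bool :=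
  u0 b f B κ tl th X h P X.sq h.sq

/-! ### The real functions -/

noncomputable def sHr (q : ℝ) : ℝ := (1 - q ^ 2)⁻¹ - 1
noncomputable def sSr (q : ℝ) : ℝ := 1 - (1 + q ^ 2)⁻¹
noncomputable def tnr (b : Bool) (h : ℝ) : ℝ :=
  bif b then (h * (3 + h ^ 2)) * (1 + 3 * h ^ 2)⁻¹
  else (4 * h * (1 + h ^ 2)) * (1 + (6 * h ^ 2 + (h ^ 2) ^ 2))⁻¹
noncomputable def dnr (b : Bool) (X : ℝ) : ℝ :=
  bif b then 3 * X ^ 2 - 1 else 6 * X ^ 2 - (1 + (X ^ 2) ^ 2)
noncomputable def nur (b : Bool) (X : ℝ) : ℝ :=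
  bif b then X * (3 - X ^ 2) else 4 * X * (1 - X ^ 2)

/-- The facts at the vertex. -/
structure FU (b : Bool) (f B κ tl th X h P : ℝ) : Prop where
  X0 : 0 < X
  X1 : bif b then X ^ 2 ≤ 3 else X ^ 2 ≤ 1
  h0 : 0 < h
  h1 : h < 1
  P0 : 0 ≤ P
  P1 : P < 1
  t0 : tl ≤ tR X h
  t1 : tR X h ≤ th
  x2 : sHr P ≤ X ^ 2 * (1 + tR X h)⁻¹
  ex : ∃ Q V W : ℝ, 0 < Q ∧ Q < 1 ∧ 0 < V ∧ 0 ≤ W ∧ sHr Q ≤ X ^ 2 * (1 + tR X h)⁻¹ ∧
    tnr b h * (1 + Q * P) ≤ Q + P ∧ Q * (aR X h + f) ≤ V * (1 - f * aR X h) ∧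
    κ ≤ (sHr Q + sSr V) * iD X h ∧ (sHr Q + sSr V) * iD X h ≤ B ∧ aR X h * P ≤ W ∧
    (0 < dnr b X → (V + W) * dnr b X ≤ nur b X * (1 - V * W))

/-! ### Soundness -/

section

variable {x y : ℝ} {A B : N}

theorem mem_max (h1 : Mem x A) (h2 : Mem y B) : Mem (max 0 (x - y)) (A.sub B) := by
  constructor
  · refine nsub_le ?_ (mul_nonneg (le_max_left _ _) (by norm_num))
    have h : (x - y) * 1073741824 ≤ max 0 (x - y) * 1073741824 :=
      mul_le_mul_of_nonneg_right (le_max_right _ _) (by norm_num)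
    linarith [h1.1, h2.2]
  · rcases le_total (x - y) 0 with e | e
    · rw [max_eq_left e, zero_mul]
      exact Nat.cast_nonneg _
    · rw [max_eq_right e]
      exact le_nsub (by linarith [h1.2, h2.1])

theorem sub_ps (h1 : Mem x A) (h2 : Mem y B) (h : (A.sub B).ps = true) :
    y < x ∧ Mem (x - y) (A.sub B) := by
  have h3 : 1 ≤ A.lo - B.hi := by
    have := h
    unfold N.ps N.sub at this
    rw [Nat.ble_eq] at this
    exact this
  have h4 : (B.hi : ℝ) < A.lo := by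
    have : B.hi < A.lo := by omega
    exact_mod_cast this
  have h5 : y < x := by
    have a1 := h1.1
    have a2 := h2.2
    nlinarith
  exact ⟨h5, h1.sub h2 h5.le⟩

theorem sHr_mono {p q : ℝ} (h0 : 0 ≤ p) (h1 : p ≤ q) (h2 : q < 1) : sHr p ≤ sHr q := by
  unfold sHr
  have e1 : 0 < 1 - q ^ 2 := by nlinarith
  have e2 : 1 - q ^ 2 ≤ 1 - p ^ 2 := by nlinarith
  have := inv_anti₀ e1 e2
  linarith

theorem sSr_mono {p q : ℝ} (h0 : 0 ≤ p) (h1 : p ≤ q) : sSr p ≤ sSr q := by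
  unfold sSr
  have e1 : 0 < 1 + p ^ 2 := by positivity
  have e2 : 1 + p ^ 2 ≤ 1 + q ^ 2 := by nlinarith
  have := inv_anti₀ e1 e2
  linarith

theorem sHr_nonneg {p : ℝ} (h0 : 0 ≤ p) (h1 : p < 1) : 0 ≤ sHr p := by
  have := sHr_mono le_rfl h0 h1
  have e : sHr 0 = 0 := by norm_num [sHr]
  linarith

theorem sSr_nonneg {p : ℝ} (h0 : 0 ≤ p) : 0 ≤ sSr p := by
  have := sSr_mono le_rfl h0
  have e : sSr 0 = 0 := by norm_num [sSr]
  linarith

theorem mem_sH (h : Mem x A) (h1 : x ^ 2 < 1) (hp : (N.sub one A.sq).ps = true) :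
    Mem (sHr x) (sH A) := by
  have e1 := mem_one.sub h.sq h1.le
  have e2 := e1.inv hp
  have e3 : (1 : ℝ) ≤ (1 - x ^ 2)⁻¹ := by
    rw [one_le_inv₀ (by linarith)]
    nlinarith [sq_nonneg x]
  exact e2.sub mem_one e3

theorem mem_sS (h : Mem x A) : Mem (sSr x) (sS A) := mem_sR h

theorem mem_three : Mem 3 (cst 3 1) := mem_nat (by norm_num) (by norm_num)

theorem mem_tn (b : Bool) (h : Mem x A) : Mem (tnr b x) (tn b A A.sq) := by
  rcases b with _ | _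
  · have e1 := ((h.sm 4).mul (mem_one.add h.sq)).mul
      ((mem_one.add ((h.sq.sm 6).add h.sq.sq)).inv (ps_one_add _))
    exact e1
  · have e1 := (h.mul (mem_three.add h.sq)).mul ((mem_one.add (h.sq.sm 3)).inv (ps_one_add _))
    exact e1

theorem mem_dn (b : Bool) (h : Mem x A) (hp : (dn b A.sq).ps = true) :
    0 < dnr b x ∧ Mem (dnr b x) (dn b A.sq) := by
  rcases b with _ | _
  · have e1 := sub_ps (h.sq.sm 6) (mem_one.add h.sq.sq) hp
    refine ⟨?_, e1.2⟩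
    have := e1.1
    unfold dnr
    rw [cond_false]
    push_cast at this
    linarith
  · have e1 := sub_ps (h.sq.sm 3) mem_one hp
    refine ⟨?_, e1.2⟩
    have := e1.1
    unfold dnr
    rw [cond_true]
    push_cast at this
    linarith

theorem mem_nu (b : Bool) (h : Mem x A) (hx : bif b then x ^ 2 ≤ 3 else x ^ 2 ≤ 1) :
    Mem (nur b x) (nu b A A.sq) := by
  rcases b with _ | _
  · exact (h.sm 4).mul (mem_one.sub h.sq hx)
  · exact h.mul (mem_three.sub h.sq hx)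

theorem nur_nonneg (b : Bool) (h : 0 < x) (hx : bif b then x ^ 2 ≤ 3 else x ^ 2 ≤ 1) :
    0 ≤ nur b x := by
  rcases b with _ | _
  · rw [cond_false] at hx
    unfold nur
    rw [cond_false]
    have : 0 ≤ 1 - x ^ 2 := by linarith
    positivity
  · rw [cond_true] at hx
    unfold nur
    rw [cond_true]
    have : 0 ≤ 3 - x ^ 2 := by linarith
    positivity

end

theorem u4_sound {κ' d τ q W V Q κN dN τN qN WN : _} (hκ : Mem κ' κN) (hd : Mem d dN)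
    (hτ : Mem τ τN) (hq : Mem q qN) (hW : Mem W WN) (d0 : 0 ≤ d) (hqV : q ≤ V) (hVW : V ≤ W)
    (V0 : 0 ≤ V) (Q0 : 0 ≤ Q) (hQ : Q * τ ≤ V) (hK : κ' ≤ (sHr Q + sSr V) * d) :
    u4 κN dN τN qN WN = false := by
  rcases hu : u4 κN dN τN qN WN with _ | _
  · rfl
  exfalso
  unfold u4 at hu
  rw [Bool.or_eq_true, Bool.and_eq_true, Bool.and_eq_true] at hu
  rcases hu with hu | ⟨⟨h1, h2⟩, h3⟩
  · have := hW.lt hq hu
    linarith
  · have τ0 := hτ.pos h1
    have m1 := hW.mul (hτ.inv h1)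
    have m2 := sub_ps mem_one m1.sq h2
    have hW0 : 0 ≤ W := V0.trans hVW
    have e0 : 0 ≤ W * τ⁻¹ := mul_nonneg hW0 (inv_pos.2 τ0).le
    have e1 : W * τ⁻¹ < 1 := by
      have := m2.1
      nlinarith
    have e2 : Q ≤ W * τ⁻¹ := by
      rw [← div_eq_mul_inv, le_div_iff₀ τ0]
      exact hQ.trans hVW
    have m3 := ((mem_sH m1 m2.1 h2).add (mem_sS hW)).mul hd
    have e3 := m3.lt hκ h3
    have e4 := sHr_mono Q0 e2 e1
    have e5 := sSr_mono V0 hVW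
    have e6 := mul_le_mul_of_nonneg_right (add_le_add e4 e5) d0
    linarith

theorem u3_sound {b : Bool} {κ' X P a d τ q V Q W : ℝ} {κN XN PN aN dN τN qN : N}
    (hκ : Mem κ' κN) (hX : Mem X XN) (hP : Mem P PN) (ha : Mem a aN) (hd : Mem d dN)
    (hτ : Mem τ τN) (hq : Mem q qN) (X0 : 0 < X) (X1 : bif b then X ^ 2 ≤ 3 else X ^ 2 ≤ 1)
    (d0 : 0 ≤ d) (hqV : q ≤ V) (V0 : 0 < V) (Q0 : 0 ≤ Q) (hQ : Q * τ ≤ V)
    (hK : κ' ≤ (sHr Q + sSr V) * d) (hW : a * P ≤ W)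
    (hr : 0 < dnr b X → (V + W) * dnr b X ≤ nur b X * (1 - V * W)) :
    u3 b κN XN XN.sq PN aN dN τN qN = false := by
  rcases hu : u3 b κN XN XN.sq PN aN dN τN qN with _ | _
  · rfl
  exfalso
  unfold u3 u3' at hu
  rw [Bool.and_eq_true] at hu
  obtain ⟨h1, h2⟩ := hu
  obtain ⟨d1, d2⟩ := mem_dn b hX h1
  have hr := hr d1
  have m1 := (mem_nu b hX X1).mul (d2.inv h1)
  have m2 := ha.mul hP
  have U0 : 0 ≤ nur b X * (dnr b X)⁻¹ := mul_nonneg (nur_nonneg b X0 X1) (inv_pos.2 d1).le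
  obtain ⟨U, hU⟩ : ∃ U, U = nur b X * (dnr b X)⁻¹ := ⟨_, rfl⟩
  obtain ⟨A, hA⟩ : ∃ A, A = a * P := ⟨_, rfl⟩
  have A0 : 0 ≤ A := by rw [hA]; exact mul_nonneg ha.nonneg hP.nonneg
  rw [← hU] at m1 U0
  rw [← hA] at m2 hW
  have e1 : V + W ≤ U * (1 - V * W) := by
    have e2 : U * dnr b X = nur b X := by
      rw [hU, mul_assoc, inv_mul_cancel₀ d1.ne', mul_one]
    rw [← e2] at hr
    by_contra hc
    push Not at hc
    nlinarith
  have m3 := (mem_max m1 m2).mul ((mem_one.add (m1.mul m2)).inv (ps_one_add _))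
  have D0 : 0 < 1 + U * A := by positivity
  have e3 : V ≤ max 0 (U - A) * (1 + U * A)⁻¹ := by
    rw [← div_eq_mul_inv, le_div_iff₀ D0]
    refine le_trans ?_ (le_max_right _ _)
    have e4 : V * (1 + U * W) ≤ U - W := by nlinarith
    nlinarith [mul_nonneg U0 (sub_nonneg.2 hW), mul_nonneg (mul_nonneg U0 V0.le) (sub_nonneg.2 hW)]
  have := u4_sound hκ hd hτ hq m3 d0 hqV e3 V0.le Q0 hQ hK
  rw [this] at h2
  exact Bool.false_ne_true h2

theorem u2_sound {b : Bool} {f B κ' X P a d sx L V Q W : ℝ} {fN BN κN XN PN aN dN sN LN : N}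
    (hf : Mem f fN) (hB : Mem B BN)
    (hκ : Mem κ' κN) (hX : Mem X XN) (hP : Mem P PN) (ha : Mem a aN) (hd : Mem d dN)
    (hs : Mem sx sN) (hL : Mem L LN) (X0 : 0 < X) (X1 : bif b then X ^ 2 ≤ 3 else X ^ 2 ≤ 1)
    (d0 : 0 ≤ d) (V0 : 0 < V) (Q0 : 0 ≤ Q) (Q1 : Q < 1) (hLQ : L ≤ Q)
    (hx : sHr Q ≤ sx) (hQf : Q * (a + f) ≤ V * (1 - f * a))
    (hK : κ' ≤ (sHr Q + sSr V) * d) (hK2 : (sHr Q + sSr V) * d ≤ B) (hW : a * P ≤ W)
    (hr : 0 < dnr b X → (V + W) * dnr b X ≤ nur b X * (1 - V * W)) :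
    u2 b fN BN κN XN XN.sq PN aN dN sN LN = false := by
  rcases hu : u2 b fN BN κN XN XN.sq PN aN dN sN LN with _ | _
  · rfl
  exfalso
  have L0 := hL.nonneg
  unfold u2 at hu
  rw [Bool.and_eq_true, Bool.or_eq_true, Bool.and_eq_true] at hu
  obtain ⟨h1, hu⟩ := hu
  have m1 := mem_sH hL (by nlinarith) h1
  have e1 := sHr_mono L0 hLQ Q1
  rcases hu with hu | ⟨h2, hu⟩
  · have := hs.lt m1 hu
    linarith
  obtain ⟨e2, m2⟩ := sub_ps mem_one (hf.mul ha) h2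
  have m3 := (ha.add hf).mul (m2.inv h2)
  have e3 : 0 < 1 - f * a := by linarith
  obtain ⟨τ, hτ⟩ : ∃ τ, τ = (a + f) * (1 - f * a)⁻¹ := ⟨_, rfl⟩
  rw [← hτ] at m3
  have e4 : τ * (1 - f * a) = a + f := by
    rw [hτ, mul_assoc, inv_mul_cancel₀ e3.ne', mul_one]
  have e5 : Q * τ ≤ V := by
    rw [← e4] at hQf
    by_contra hc
    push Not at hc
    nlinarith
  have τ0 := m3.nonneg
  have e6 : τ * L ≤ V := by nlinarith [mul_le_mul_of_nonneg_left hLQ τ0]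
  unfold u2' at hu
  rw [Bool.or_eq_true] at hu
  rcases hu with hu | hu
  · have m4 := (m1.add (mem_sS (m3.mul hL))).mul hd
    have e7 := hB.lt m4 hu
    have e8 := sSr_mono (mul_nonneg τ0 L0) e6
    have e9 := mul_le_mul_of_nonneg_right (add_le_add e1 e8) d0
    linarith
  · have := u3_sound hκ hX hP ha hd m3 (m3.mul hL) X0 X1 d0 e6 V0 Q0 e5 hK hW hr
    rw [this] at hu
    exact Bool.false_ne_true hu

theorem u1_sound {b : Bool} {f B κ' tl th X h P : ℝ} {fN BN κN XN hN PN sN : N}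
    (H : FU b f B κ' tl th X h P) (hf : Mem f fN) (hB : Mem B BN)
    (hκ : Mem κ' κN) (hX : Mem X XN) (hh : Mem h hN) (hP : Mem P PN)
    (hs : Mem (X ^ 2 * (1 + tR X h)⁻¹) sN) (h1 : XN.ps = true)
    (h2 : (N.sub one hN.sq).ps = true) (h3 : (N.add XN.sq hN.sq).ps = true) :
    u1 b fN BN κN XN hN PN XN.sq hN.sq sN = false := by
  rcases hu : u1 b fN BN κN XN hN PN XN.sq hN.sq sN with _ | _
  · rfl
  exfalso
  have e0 : P ^ 2 < 1 := by
    have a1 := H.P0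
    have a2 := H.P1
    clear hu
    nlinarith
  have hh2 : h ^ 2 ≤ 1 := by
    have a1 := H.h0
    have a2 := H.h1
    clear hu
    nlinarith
  obtain ⟨Q, V, W, Q0, Q1, V0, W0, g1, g2, g3, g4, g5, g6, g7⟩ := H.ex
  unfold u1 at hu
  rw [Bool.and_eq_true, Bool.or_eq_true] at hu
  obtain ⟨k1, hu⟩ := hu
  rcases hu with hu | hu
  · have m0 : Mem (sHr P) (sH PN) := mem_sH hP e0 k1
    have e1 : X ^ 2 * (1 + tR X h)⁻¹ < sHr P := Mem.lt hs m0 hu
    linarith [H.x2]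
  unfold u1' at hu
  rw [Bool.and_eq_true] at hu
  obtain ⟨k2, hu⟩ := hu
  have ma : Mem (aR X h) (N.mul (N.mul hN (N.sub one hN.sq).inv) (N.add XN XN.inv)) := by
    unfold aR
    exact (hh.mul ((mem_one.sub hh.sq hh2).inv h2)).mul (hX.add (hX.inv h1))
  have md : Mem (iD X h) (N.mul (N.add one (N.mul XN.sq hN.sq)) (N.add XN.sq hN.sq).inv) := by
    unfold iD
    exact (mem_one.add (hX.sq.mul hh.sq)).mul ((hX.sq.add hh.sq).inv h3)
  have mt := mem_tn b hh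
  obtain ⟨e1, m1⟩ := sub_ps mem_one (mt.mul hP) k2
  have mL := (mem_max mt hP).mul (m1.inv k2)
  have e2 : max 0 (tnr b h - P) * (1 - tnr b h * P)⁻¹ ≤ Q := by
    rw [← div_eq_mul_inv, div_le_iff₀ (by linarith)]
    apply max_le
    · exact mul_nonneg Q0.le (by linarith)
    · nlinarith
  have := u2_sound hf hB hκ hX hP ma md hs mL H.X0 H.X1 md.nonneg V0 Q0.le Q1 e2 g1 g3 g4 g5 g6 g7
  rw [this] at hu
  exact Bool.false_ne_true hu

theorem tst_sound {b : Bool} {f B κ' tl th : ℝ} {fN BN κN tlN thN : N}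
    (hf : Mem f fN) (hB : Mem B BN) (hκ : Mem κ' κN) (htl : Mem tl tlN) (hth : Mem th thN)
    (A1 A2 A3 A4 : N) (hT : tst b fN BN κN tlN thN A1 A2 A3 A4 = true) (X h P D : ℝ)
    (hX : Mem X A1) (hh : Mem h A2) (hP : Mem P A3) (_ : Mem D A4) :
    ¬ FU b f B κ' tl th X h P := by
  intro H
  unfold tst u0 at hT
  rw [Bool.and_eq_true, Bool.and_eq_true, Bool.and_eq_true, Bool.and_eq_true] at hT
  obtain ⟨⟨⟨⟨h1, h2⟩, h3⟩, h4⟩, h5⟩ := hT
  have hh2 : h ^ 2 ≤ 1 := by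
    have := H.h0; have := H.h1
    nlinarith
  have mt : Mem (tR X h) (N.mul (N.mul A2.sq (N.sub one A2.sq).inv) (N.add one A1.sq)) := by
    unfold tR
    exact (hh.sq.mul ((mem_one.sub hh.sq hh2).inv h3)).mul (mem_one.add hX.sq)
  unfold u0' at h5
  rw [Bool.or_eq_true, Bool.or_eq_true] at h5
  rcases h5 with (h5 | h5) | h5
  · have := mt.lt htl h5
    linarith [H.t0]
  · have := hth.lt mt h5
    linarith [H.t1]
  · have ms := hX.sq.mul ((mem_one.add mt).inv (ps_one_add _))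
    have := u1_sound H hf hB hκ hX hh hP ms h1 h3 h4
    rw [this] at h5
    exact Bool.false_ne_true h5

end Pool.Agent.S3.Cl.J7
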