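import Pool.Agent.S3.Cl.J8T

/-!
# Stage 3: branch and bound at a vertex with three twists, lower bound, evaluation
-/

set_option autoImplicit false

namespace Pool.Agent.S3.Cl.J8

open NI E.J6 J7

/-- The test with parameters in thousandths. -/
def cert (k κ G : ℕ) : Bool :=
  bb (tst k (cst 359 1000) (cst 685 1000) (cst 510 1000) (cst κ 1000) (cst G 1000) (cst 0 1000)
    (cst 70 1000)) (cyc 13 [1, 0, 2]) (rng 45 160 100) (rng 5 30 100)
    (rng 0 (bif Nat.beq k 0 then 0 else 90) 100) (rng 0 0 1)

theorem c0 : cert 0 0 0 = true := by decide +kernel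
theorem c2 : cert 2 0 0 = true := by decide +kernel
theorem c1a : cert 1 510 685 = true := by decide +kernel
theorem c1b : cert 1 280 484 = true := by decide +kernel

end Pool.Agent.S3.Cl.J8
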