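import Pool.Agent.S3.Cl.J7T

/-!
# Stage 3: branch and bound at a vertex with three twists, lower bound of the angle

Variables: `X = tan R`, `h = tanh I` at the vertex, `P = tanh p₂` for the second slot. Kinds of the
second slot: `0` none, `1` general, `2` an end vertex with two twists.
-/

set_option autoImplicit false

namespace Pool.Agent.S3.Cl.J8

open NI E.J6 J7

/-! ### The test -/

/-- the sum of the angles -/
def l5 (dn nu V1 W1 : N) : Bool :=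
  (N.mul (N.add V1 W1) dn).lt (N.mul nu (N.sub one (N.mul V1 W1)))

def l4n (nu V1 W1 : N) (dn : N) : Bool := l5 dn nu V1 W1

/-- general second slot -/
def l4a (κ iD sP dn nu V1 W1 : N) : Bool :=
  (N.mul (N.add sP (sS W1)) iD).lt κ || l5 dn nu V1 W1

/-- second slot an end vertex -/
def l4b (K iD sP dn nu V1 W1 P a G : N) : Bool :=
  (N.sq (N.mul (N.add sP (sS W1)) iD)).lt (N.mul (cst 1 4) K) ||
  ((N.sub one (N.mul G a)).ps && (N.mul (cst 1 4) K).lt (N.sq (N.mul (N.add sP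
    (sS (N.mul (N.mul P (N.add a G)) (N.sub one (N.mul G a)).inv))) iD))) ||
  l5 dn nu V1 W1

def l3b (K iD sP dn nu V1 P a g Gu : N) : Bool :=
  (N.sub one (N.mul Gu a)).ps && l4b K iD sP dn nu V1
    (N.mul (N.mul P (N.add a Gu)) (N.sub one (N.mul Gu a)).inv) P a (N.sub one g)

def l3 (k : ℕ) (κ G K iD sP dn nu V1 P a g : N) : Bool :=
  match k with
  | 0 => l5 dn nu V1 ⟨0, 0⟩
  | 1 => (N.sub one (N.mul G a)).ps && l4a κ iD sP dn nu V1
      (N.mul (N.mul P (N.add a G)) (N.sub one (N.mul G a)).inv)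
  | _ => l3b K iD sP dn nu V1 P a g (N.sub (N.add one (N.mul (cst 1 2) g.sq)) g)

def l2' (k : ℕ) (κ1 κ G K iD sL sP dn nu V1 P a g : N) : Bool :=
  (N.mul (N.add sL (sS V1)) iD).lt κ1 || l3 k κ G K iD sP dn nu V1 P a g

def l2 (k : ℕ) (f0 f1 κ1 κ G K iD sx sP dn nu P a g L sL : N) : Bool :=
  sx.lt sL || ((N.sub one (N.mul f0 a)).ps && one.lt (N.mul (N.add sL
    (sS (N.mul (N.mul L (N.add a f0)) (N.sub one (N.mul f0 a)).inv))) iD)) ||
  ((N.sub one (N.mul f1 a)).ps && l2' k κ1 κ G K iD sL sP dn nu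
    (N.mul (N.mul L (N.add a f1)) (N.sub one (N.mul f1 a)).inv) P a g)

def l1' (k : ℕ) (f0 f1 κ1 κ G K iD sx sP dn nu P a g L : N) : Bool :=
  (N.sub one L.sq).ps && l2 k f0 f1 κ1 κ G K iD sx sP dn nu P a g L (sH L)

def l1 (k : ℕ) (f0 f1 κ1 κ G K iD sx sP dn nu P a g T : N) : Bool :=
  T.lt P || ((N.sub one (N.mul T P)).ps && l1' k f0 f1 κ1 κ G K iD sx sP dn nu P a g
    (N.mul (N.sub T P) (N.sub one (N.mul T P)).inv))

def l0' (k : ℕ) (f0 f1 κ1 κ G X h X2 h2 P iD sx sP a : N) : Bool :=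
  sx.lt sP || one.lt (N.mul (N.add sP (sS (N.mul a P))) iD) ||
  l1 k f0 f1 κ1 κ G (N.mul (N.add one (N.mul X2 h2)) (N.mul (N.add one X2) (N.sub one h2)).inv)
    iD sx sP (dn true X2) (nu true X X2) P a (N.mul X h) (tn true h h2)

def l0 (k : ℕ) (f0 f1 κ1 κ G tl tu X h P X2 h2 t : N) : Bool :=
  t.lt tl || tu.lt t || ((N.sub one P.sq).ps && l0' k f0 f1 κ1 κ G X h X2 h2 P
    (N.mul (N.add one (N.mul X2 h2)) (N.add X2 h2).inv) (N.mul X2 (N.add one t).inv) (sH P)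
    (N.mul (N.mul h (N.sub one h2).inv) (N.add X X.inv)))

def tst0 (k : ℕ) (f0 f1 κ1 κ G tl tu X h P X2 h2 : N) : Bool :=
  X.ps && h.ps && (N.sub one h2).ps && (N.add X2 h2).ps &&
    (N.mul (N.add one X2) (N.sub one h2)).ps &&
    l0 k f0 f1 κ1 κ G tl tu X h P X2 h2 (N.mul (N.mul h2 (N.sub one h2).inv) (N.add one X2))

def tst (k : ℕ) (f0 f1 κ1 κ G tl tu X h P _D : N) : Bool :=
  tst0 k f0 f1 κ1 κ G tl tu X h P X.sq h.sq

/-! ### The facts -/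

structure FL (k : ℕ) (f0 f1 κ1 κ G tl tu X h P : ℝ) : Prop where
  X0 : 0 < X
  X1 : X ^ 2 ≤ 3
  h0 : 0 < h
  h1 : h < 1
  Xh : X * h ≤ 1
  P0 : 0 ≤ P
  P1 : P < 1
  t0 : tl ≤ tR X h
  t1 : tR X h ≤ tu
  x2 : sHr P ≤ X ^ 2 * (1 + tR X h)⁻¹
  n2 : (sHr P + sSr (aR X h * P)) * iD X h ≤ 1
  PT : P ≤ tnr true h
  T1 : tnr true h < 1
  ex : ∃ Q V W g : ℝ, 0 ≤ Q ∧ Q < 1 ∧ 0 < V ∧ 0 ≤ W ∧ sHr Q ≤ X ^ 2 * (1 + tR X h)⁻¹ ∧
    Q * (1 - tnr true h * P) = tnr true h - P ∧ Q * (aR X h + f0) ≤ V * (1 - f0 * aR X h) ∧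
    V * (1 - f1 * aR X h) ≤ Q * (aR X h + f1) ∧
    κ1 ≤ (sHr Q + sSr V) * iD X h ∧ (sHr Q + sSr V) * iD X h ≤ 1 ∧
    (k = 0 → W = 0) ∧
    (k ≠ 0 → 0 ≤ g ∧ W * (1 - g * aR X h) = P * (aR X h + g)) ∧
    (k = 1 → g ≤ G ∧ κ ≤ (sHr P + sSr W) * iD X h) ∧
    (2 ≤ k → 1 - X * h ≤ g ∧ g ≤ 1 + 1 / 2 * (X * h) ^ 2 - X * h ∧
      ((sHr P + sSr W) * iD X h) ^ 2 = 1 / 4 * kR X h) ∧
    (V + W) * dnr true X = nur true X * (1 - V * W)

/-! ### Soundness -/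

theorem mem_dn0 {x : ℝ} {A : N} (h : Mem x A) : Mem (max 0 (dnr true x)) (dn true A.sq) := by
  have := mem_max (h.sq.sm 3) mem_one
  unfold dnr
  rw [cond_true]
  exact this

theorem l5_sound {X V W V1 W1 n : ℝ} {dN nN VN WN : N} (hd : Mem (max 0 (dnr true X)) dN)
    (hn : Mem n nN) (hV : Mem V1 VN) (hW : Mem W1 WN) (n0 : 0 ≤ n) (V0 : 0 ≤ V) (W0 : 0 ≤ W)
    (hV1 : V ≤ V1) (hW1 : W ≤ W1) (hs : (V + W) * dnr true X = n * (1 - V * W)) :
    l5 dN nN VN WN = false := by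
  rcases hu : l5 dN nN VN WN with _ | _
  · rfl
  exfalso
  unfold l5 at hu
  have m1 := (hV.add hW).mul hd
  have m2 := hn.mul (mem_max mem_one (hV.mul hW))
  have e1 := m1.lt m2 hu
  have e2 : (V + W) * dnr true X ≤ (V1 + W1) * max 0 (dnr true X) := by
    calc (V + W) * dnr true X ≤ (V + W) * max 0 (dnr true X) :=
          mul_le_mul_of_nonneg_left (le_max_right _ _) (by linarith)
      _ ≤ _ := mul_le_mul_of_nonneg_right (by linarith) (le_max_left _ _)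
  have e3 : V * W ≤ V1 * W1 := mul_le_mul hV1 hW1 W0 (by linarith)
  have e4 : 0 ≤ (V1 + W1) * max 0 (dnr true X) := mul_nonneg (by linarith) (le_max_left _ _)
  rcases le_total (1 - V1 * W1) 0 with e | e
  · rw [max_eq_left e, mul_zero] at e1
    linarith
  · rw [max_eq_right e] at e1
    have e5 : n * (1 - V1 * W1) ≤ n * (1 - V * W) := mul_le_mul_of_nonneg_left (by linarith) n0
    linarith

/-- the bound `W ≤ P (a + G) / (1 - G a)` -/
theorem W_le {W P a g G : ℝ} (W0 : 0 ≤ W) (P0 : 0 ≤ P) (a0 : 0 ≤ a) (hg : g ≤ G)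
    (h : W * (1 - g * a) ≤ P * (a + g)) (h1 : 0 < 1 - G * a) :
    W ≤ P * (a + G) * (1 - G * a)⁻¹ := by
  rw [← div_eq_mul_inv, le_div_iff₀ h1]
  nlinarith [mul_nonneg (mul_nonneg W0 a0) (sub_nonneg.2 hg), mul_nonneg P0 (sub_nonneg.2 hg)]

theorem W_ge {W P a g G : ℝ} (W0 : 0 ≤ W) (P0 : 0 ≤ P) (a0 : 0 ≤ a) (hg : G ≤ g)
    (h : P * (a + g) ≤ W * (1 - g * a)) (h1 : 0 < 1 - G * a) :
    P * (a + G) * (1 - G * a)⁻¹ ≤ W := by
  rw [← div_eq_mul_inv, div_le_iff₀ h1]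
  nlinarith [mul_nonneg (mul_nonneg W0 a0) (sub_nonneg.2 hg), mul_nonneg P0 (sub_nonneg.2 hg)]

theorem ff_imp {b : Bool} (h : b = true → False) : b = false := by
  rcases b with _ | _
  · rfl
  · exact (h rfl).elim

theorem l3_sound {k : ℕ} {X V W V1 n κ G K d a P g' γ : ℝ}
    {κN GN KN iN sN dN nN VN PN aN gN : N} (hκ : Mem κ κN) (hG : Mem G GN) (hK : Mem K KN)
    (hi : Mem d iN) (hs : Mem (sHr P) sN) (hd : Mem (max 0 (dnr true X)) dN)
    (hn : Mem n nN) (hV : Mem V1 VN) (hP : Mem P PN) (ha : Mem a aN) (hg : Mem γ gN)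
    (n0 : 0 ≤ n) (V0 : 0 ≤ V) (W0 : 0 ≤ W) (P0 : 0 ≤ P) (a0 : 0 ≤ a) (γ1 : γ ≤ 1)
    (hV1 : V ≤ V1) (hsum : (V + W) * dnr true X = n * (1 - V * W)) (d0 : 0 ≤ d)
    (k0 : k = 0 → W = 0)
    (kW : k ≠ 0 → 0 ≤ g' ∧ W * (1 - g' * a) = P * (a + g'))
    (k1 : k = 1 → g' ≤ G ∧ κ ≤ (sHr P + sSr W) * d)
    (k2 : 2 ≤ k → 1 - γ ≤ g' ∧ g' ≤ 1 + 1 / 2 * γ ^ 2 - γ ∧
      ((sHr P + sSr W) * d) ^ 2 = 1 / 4 * K) :
    l3 k κN GN KN iN sN dN nN VN PN aN gN = false := by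
  have s0 : 0 ≤ sHr P := hs.nonneg
  rcases k with _ | _ | k
  · have e := k0 rfl
    have m0 : Mem 0 (⟨0, 0⟩ : N) := by constructor <;> norm_num
    exact l5_sound hd hn hV m0 n0 V0 W0 hV1 e.le hsum
  · obtain ⟨g0, e1⟩ := kW (by norm_num)
    obtain ⟨e2, e3⟩ := k1 rfl
    refine ff_imp fun hu => ?_
    have hu : ((N.sub one (N.mul GN aN)).ps && l4a κN iN sN dN nN VN
      (N.mul (N.mul PN (N.add aN GN)) (N.sub one (N.mul GN aN)).inv)) = true := hu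
    rw [Bool.and_eq_true] at hu
    obtain ⟨h1, hu⟩ := hu
    obtain ⟨e4, m1⟩ := sub_ps mem_one (hG.mul ha) h1
    have m2 := (hP.mul (ha.add hG)).mul (m1.inv h1)
    have e5 := W_le W0 P0 a0 e2 e1.le (by linarith)
    unfold l4a at hu
    rw [Bool.or_eq_true] at hu
    rcases hu with hu | hu
    · have e6 := ((hs.add (mem_sS m2)).mul hi).lt hκ hu
      have e7 := mul_le_mul_of_nonneg_right (add_le_add_right (sSr_mono W0 e5) (sHr P)) d0
      linarith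
    · rw [l5_sound hd hn hV m2 n0 V0 W0 hV1 e5 hsum] at hu
      exact Bool.false_ne_true hu
  · obtain ⟨g0, e1⟩ := kW (by norm_num)
    obtain ⟨e2, e3, e4⟩ := k2 (by omega)
    refine ff_imp fun hu => ?_
    have hu : l3b KN iN sN dN nN VN PN aN gN
      (N.sub (N.add one (N.mul (cst 1 2) gN.sq)) gN) = true := hu
    unfold l3b at hu
    rw [Bool.and_eq_true] at hu
    obtain ⟨h1, hu⟩ := hu
    have mh : Mem (1 / 2 : ℝ) (cst 1 2) := mem_nat (by norm_num) (by norm_num)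
    have mq : Mem (1 / 4 : ℝ) (cst 1 4) := mem_nat (by norm_num) (by norm_num)
    have mG : Mem (1 + 1 / 2 * γ ^ 2 - γ) (N.sub (N.add one (N.mul (cst 1 2) gN.sq)) gN) := by
      refine (mem_one.add (mh.mul hg.sq)).sub hg ?_
      nlinarith [sq_nonneg γ]
    obtain ⟨e5, m1⟩ := sub_ps mem_one (mG.mul ha) h1
    have m2 := (hP.mul (ha.add mG)).mul (m1.inv h1)
    have e6 := W_le W0 P0 a0 e3 e1.le (by linarith)
    have sW0 := sSr_nonneg W0
    unfold l4b at hu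
    rw [Bool.or_eq_true, Bool.or_eq_true, Bool.and_eq_true] at hu
    rcases hu with (hu | ⟨h2, hu⟩) | hu
    · have e7 := ((hs.add (mem_sS m2)).mul hi).sq.lt (mq.mul hK) hu
      have e8 := mul_le_mul_of_nonneg_right (add_le_add_right (sSr_mono W0 e6) (sHr P)) d0
      have e9 : 0 ≤ (sHr P + sSr W) * d := mul_nonneg (by linarith) d0
      have e10 := pow_le_pow_left₀ e9 e8 2
      linarith
    · have mg := mem_one.sub hg γ1
      obtain ⟨e7, m3⟩ := sub_ps mem_one (mg.mul ha) h2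
      have m4 := (hP.mul (ha.add mg)).mul (m3.inv h2)
      have e8 := W_ge W0 P0 a0 e2 e1.ge (by linarith)
      have e9 := (mq.mul hK).lt ((hs.add (mem_sS m4)).mul hi).sq hu
      have e10 : 0 ≤ P * (a + (1 - γ)) * (1 - (1 - γ) * a)⁻¹ := m4.nonneg
      have e11 := mul_le_mul_of_nonneg_right (add_le_add_right (sSr_mono e10 e8) (sHr P)) d0
      have e12 : 0 ≤ (sHr P + sSr (P * (a + (1 - γ)) * (1 - (1 - γ) * a)⁻¹)) * d :=
        mul_nonneg (by linarith [sSr_nonneg e10]) d0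
      have e13 := pow_le_pow_left₀ e12 e11 2
      linarith
    · rw [l5_sound hd hn hV m2 n0 V0 W0 hV1 e6 hsum] at hu
      exact Bool.false_ne_true hu

theorem l1_sound {k : ℕ} {f0 f1 κ1 κ G tl tu X h P : ℝ} (H : FL k f0 f1 κ1 κ G tl tu X h P)
    {f0N f1N κ1N κN GN KN iN xN sN dN nN PN aN gN TN : N} (hf0 : Mem f0 f0N) (hf1 : Mem f1 f1N)
    (hκ1 : Mem κ1 κ1N) (hκ : Mem κ κN) (hG : Mem G GN) (hK : Mem (kR X h) KN)
    (hi : Mem (iD X h) iN) (hx : Mem (X ^ 2 * (1 + tR X h)⁻¹) xN) (hs : Mem (sHr P) sN)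
    (hd : Mem (max 0 (dnr true X)) dN) (hn : Mem (nur true X) nN) (hP : Mem P PN)
    (ha : Mem (aR X h) aN) (hg : Mem (X * h) gN) (hT : Mem (tnr true h) TN) :
    l1 k f0N f1N κ1N κN GN KN iN xN sN dN nN PN aN gN TN = false := by
  obtain ⟨Q, V, W, g, Q0, Q1, V0, W0, q1, q2, q3, q4, q5, q6, q7, q8, q9, q10, q11⟩ := H.ex
  have P0 := H.P0
  have P1 := H.P1
  have PT := H.PT
  have T1 := H.T1
  have Xh := H.Xh
  have n0 := nur_nonneg true H.X0 H.X1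
  have a0 := ha.nonneg
  have d0 := hi.nonneg
  clear H
  refine ff_imp fun hu => ?_
  unfold l1 at hu
  rw [Bool.or_eq_true, Bool.and_eq_true] at hu
  rcases hu with hu | ⟨h1, hu⟩
  · have := hT.lt hP hu
    linarith
  obtain ⟨e1, m1⟩ := sub_ps mem_one (hT.mul hP) h1
  have mL := (hT.sub hP PT).mul (m1.inv h1)
  have e2 : (tnr true h - P) * (1 - tnr true h * P)⁻¹ = Q := by
    rw [← div_eq_mul_inv, div_eq_iff (by linarith), q2]
  rw [e2] at mL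
  unfold l1' at hu
  rw [Bool.and_eq_true] at hu
  obtain ⟨h2, hu⟩ := hu
  have e3 : Q ^ 2 < 1 := by
    clear hu
    nlinarith
  have msL := mem_sH mL e3 h2
  unfold l2 at hu
  rw [Bool.or_eq_true, Bool.or_eq_true, Bool.and_eq_true, Bool.and_eq_true] at hu
  have sQ0 : 0 ≤ sHr Q := msL.nonneg
  rcases hu with (hu | ⟨h3, hu⟩) | ⟨h3, hu⟩
  · have := hx.lt msL hu
    linarith
  · obtain ⟨e4, m2⟩ := sub_ps mem_one (hf0.mul ha) h3
    have m3 := (mL.mul (ha.add hf0)).mul (m2.inv h3)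
    have e5 : Q * (aR X h + f0) * (1 - f0 * aR X h)⁻¹ ≤ V := by
      rw [← div_eq_mul_inv, div_le_iff₀ (by linarith)]
      exact q3
    have e6 := mem_one.lt ((msL.add (mem_sS m3)).mul hi) hu
    have e7 := mul_le_mul_of_nonneg_right (add_le_add_right (sSr_mono m3.nonneg e5) (sHr Q)) d0
    linarith
  · obtain ⟨e4, m2⟩ := sub_ps mem_one (hf1.mul ha) h3
    have m3 := (mL.mul (ha.add hf1)).mul (m2.inv h3)
    have e5 : V ≤ Q * (aR X h + f1) * (1 - f1 * aR X h)⁻¹ := by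
      rw [← div_eq_mul_inv, le_div_iff₀ (by linarith)]
      exact q4
    unfold l2' at hu
    rw [Bool.or_eq_true] at hu
    rcases hu with hu | hu
    · have e6 := ((msL.add (mem_sS m3)).mul hi).lt hκ1 hu
      have e7 := mul_le_mul_of_nonneg_right (add_le_add_right (sSr_mono V0.le e5) (sHr Q)) d0
      linarith
    · rw [l3_sound hκ hG hK hi hs hd hn m3 hP ha hg n0 V0.le W0 P0 a0 Xh e5 q11 d0 q7 q8 q9 q10] at hu
      exact Bool.false_ne_true hu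

theorem tst_sound {k : ℕ} {f0 f1 κ1 κ G tl tu : ℝ} {f0N f1N κ1N κN GN tlN tuN : N}
    (hf0 : Mem f0 f0N) (hf1 : Mem f1 f1N) (hκ1 : Mem κ1 κ1N) (hκ : Mem κ κN) (hG : Mem G GN)
    (htl : Mem tl tlN) (htu : Mem tu tuN)
    (A1 A2 A3 A4 : N) (hT : tst k f0N f1N κ1N κN GN tlN tuN A1 A2 A3 A4 = true) (X h P D : ℝ)
    (hX : Mem X A1) (hh : Mem h A2) (hP : Mem P A3) (_ : Mem D A4) :
    ¬ FL k f0 f1 κ1 κ G tl tu X h P := by
  intro H
  have e0 : P ^ 2 < 1 := by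
    have a1 := H.P0
    have a2 := H.P1
    clear hT
    nlinarith
  have hh2 : h ^ 2 ≤ 1 := by
    have a1 := H.h0
    have a2 := H.h1
    clear hT
    nlinarith
  unfold tst tst0 at hT
  rw [Bool.and_eq_true, Bool.and_eq_true, Bool.and_eq_true, Bool.and_eq_true, Bool.and_eq_true] at hT
  obtain ⟨⟨⟨⟨⟨h1, h2⟩, h3⟩, h4⟩, h6⟩, h5⟩ := hT
  have mt : Mem (tR X h) (N.mul (N.mul A2.sq (N.sub one A2.sq).inv) (N.add one A1.sq)) := by
    unfold tR
    exact (hh.sq.mul ((mem_one.sub hh.sq hh2).inv h3)).mul (mem_one.add hX.sq)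
  have ma : Mem (aR X h) (N.mul (N.mul A2 (N.sub one A2.sq).inv) (N.add A1 A1.inv)) := by
    unfold aR
    exact (hh.mul ((mem_one.sub hh.sq hh2).inv h3)).mul (hX.add (hX.inv h1))
  have md : Mem (iD X h) (N.mul (N.add one (N.mul A1.sq A2.sq)) (N.add A1.sq A2.sq).inv) := by
    unfold iD
    exact (mem_one.add (hX.sq.mul hh.sq)).mul ((hX.sq.add hh.sq).inv h4)
  have mk : Mem (kR X h) (N.mul (N.add one (N.mul A1.sq A2.sq))
      (N.mul (N.add one A1.sq) (N.sub one A2.sq)).inv) := by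
    unfold kR
    exact (mem_one.add (hX.sq.mul hh.sq)).mul
      (((mem_one.add hX.sq).mul (mem_one.sub hh.sq hh2)).inv h6)
  unfold l0 at h5
  rw [Bool.or_eq_true, Bool.or_eq_true, Bool.and_eq_true] at h5
  rcases h5 with (h5 | h5) | ⟨h7, h5⟩
  · have := mt.lt htl h5
    linarith [H.t0]
  · have := htu.lt mt h5
    linarith [H.t1]
  have ms : Mem (sHr P) (sH A3) := mem_sH hP e0 h7
  have mx := hX.sq.mul ((mem_one.add mt).inv (ps_one_add _))
  unfold l0' at h5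
  rw [Bool.or_eq_true, Bool.or_eq_true] at h5
  rcases h5 with (h5 | h5) | h5
  · have := mx.lt ms h5
    linarith [H.x2]
  · have := mem_one.lt ((ms.add (mem_sS (ma.mul hP))).mul md) h5
    linarith [H.n2]
  · rw [l1_sound H hf0 hf1 hκ1 hκ hG mk md mx ms (mem_dn0 hX) (mem_nu true hX H.X1) hP ma
      (hX.mul hh) (mem_tn true hh)] at h5
    exact Bool.false_ne_true h5

end Pool.Agent.S3.Cl.J8
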