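import Pool.Agent.S3.Cl.VV
import Pool.Agent.S3.Cl.Flat

/-!
# Stage 3: closed ends: the limit of `V` at infinity and a lower bound of `V (x, 0)`
-/

namespace Pool.Agent.S3.Cl

open Complex Pool.Agent.S3 Filter Topology
open Pool.Agent.H25.RK (gdv gdv_re_lt gdv_hasDerivAt)

theorem cosh_ge_exp (x : ℝ) : Real.exp x / 2 ≤ Real.cosh x := by
  rw [Real.cosh_eq]
  have := Real.exp_pos (-x)
  linarith

theorem tendsto_cosh : Tendsto Real.cosh atTop atTop :=
  tendsto_atTop_mono cosh_ge_exp (Real.tendsto_exp_atTop.atTop_div_const (by norm_num))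

theorem tendsto_inv_cosh : Tendsto (fun x : ℝ => 1 / Real.cosh x) atTop (𝓝 0) := by
  have := tendsto_cosh.inv_tendsto_atTop
  refine this.congr fun x => ?_
  rw [Pi.inv_apply, one_div]

theorem abs_zero_lt : |(0 : ℝ)| < Real.pi / 2 := by
  rw [abs_zero]; exact half_pos Real.pi_pos

theorem gd_real (x : ℝ) : gd (UU x 0) = (Ra x 0 : ℝ) := by
  apply Complex.ext
  · rw [ofReal_re, Ra]
  · rw [ofReal_im]; exact Ya_zero x

theorem cos_Ra (x : ℝ) : Real.cos (Ra x 0) = 1 / Real.cosh x := by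
  have h := cos_gd (u := UU x 0) (by simpa using abs_zero_lt)
  rw [gd_real] at h
  have e : cosh (UU x 0) = (Real.cosh x : ℝ) := by
    rw [ofReal_cosh]; congr 1
    simp [UU]
  rw [e, ← ofReal_cos] at h
  exact_mod_cast h

theorem Ra_nonneg {x t : ℝ} (hx : 0 ≤ x) (ht : |t| < Real.pi / 2) : 0 ≤ Ra x t := by
  have h := gdv_re_nonneg hx ht
  rw [Ra, gd_eq (by rwa [UU_im]), re_ofReal_mul]
  exact mul_nonneg Real.pi_pos.le h

theorem Ra_lt {x t : ℝ} (ht : |t| < Real.pi / 2) : |Ra x t| < Real.pi / 2 :=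
  gd_re_lt (by rwa [UU_im])

theorem Ra_eq_arccos {x : ℝ} (hx : 0 ≤ x) : Ra x 0 = Real.arccos (1 / Real.cosh x) := by
  rw [← cos_Ra, Real.arccos_cos (Ra_nonneg hx abs_zero_lt)]
  have := abs_lt.1 (Ra_lt (x := x) abs_zero_lt)
  linarith [Real.pi_pos]

theorem tendsto_Ra : Tendsto (fun x : ℝ => Ra x 0) atTop (𝓝 (Real.pi / 2)) := by
  have h : Tendsto (fun x : ℝ => Real.arccos (1 / Real.cosh x)) atTop (𝓝 (Real.pi / 2)) := by
    rw [← Real.arccos_zero]
    exact (Real.continuous_arccos.tendsto 0).comp tendsto_inv_cosh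
  refine h.congr' ?_
  filter_upwards [eventually_ge_atTop 0] with x hx
  rw [Ra_eq_arccos hx]

theorem tendsto_gdv : Tendsto (fun x : ℝ => gdv (UU x 0)) atTop (𝓝 (1 / 2)) := by
  have e : ∀ x : ℝ, gdv (UU x 0) = ((Ra x 0 / Real.pi : ℝ) : ℂ) := by
    intro x
    have h := gd_eq (u := UU x 0) (by simpa using abs_zero_lt)
    rw [gd_real] at h
    have := pi_ne
    push_cast
    rw [h]
    field_simp
  have h2 : Tendsto (fun x : ℝ => ((Ra x 0 / Real.pi : ℝ) : ℂ)) atTop
      (𝓝 ((Real.pi / 2 / Real.pi : ℝ) : ℂ)) :=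
    (Complex.continuous_ofReal.tendsto _).comp (tendsto_Ra.div_const Real.pi)
  have e2 : ((Real.pi / 2 / Real.pi : ℝ) : ℂ) = 1 / 2 := by
    have := Real.pi_ne_zero
    have : Real.pi / 2 / Real.pi = 1 / 2 := by field_simp
    rw [this]; push_cast; ring
  rw [e2] at h2
  exact h2.congr (fun x => (e x).symm)

theorem tendsto_yc : Tendsto (fun x : ℝ => yc (UU x 0)) atTop (𝓝 (1 / 2)) := by
  have e : ∀ x : ℝ, yc (UU x 0) =
      1 / 2 + log (1 - 2 * I * ((1 / Real.cosh x : ℝ) : ℂ)) / (2 * Real.pi * I) := by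
    intro x
    have hc : cosh (UU x 0) = (Real.cosh x : ℝ) := by
      rw [ofReal_cosh]; congr 1
      simp [UU]
    have hpos := Real.cosh_pos x
    have h1 : cosh (UU x 0) - 2 * I
        = (Real.cosh x : ℝ) * (1 - 2 * I * ((1 / Real.cosh x : ℝ) : ℂ)) := by
      rw [hc]
      push_cast
      have : (cosh (x : ℂ)) ≠ 0 := by
        rw [← ofReal_cosh]; exact_mod_cast hpos.ne'
      field_simp
    have h2 : (1 - 2 * I * ((1 / Real.cosh x : ℝ) : ℂ)) ≠ 0 := by
      intro h0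
      rw [h0, mul_zero] at h1
      exact c2_ne (u := UU x 0) (by simpa using abs_zero_lt) h1
    rw [yc, L2, h1, Complex.log_ofReal_mul hpos h2, Lc, hc, ← Complex.ofReal_log hpos.le]
    ring
  have h0 : Tendsto (fun x : ℝ => 1 - 2 * I * ((1 / Real.cosh x : ℝ) : ℂ)) atTop (𝓝 1) := by
    have h1 : Tendsto (fun x : ℝ => ((1 / Real.cosh x : ℝ) : ℂ)) atTop (𝓝 ((0 : ℝ) : ℂ)) :=
      (Complex.continuous_ofReal.tendsto _).comp tendsto_inv_cosh
    have h2 := (h1.const_mul (2 * I)).const_sub 1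
    simpa using h2
  have h3 : Tendsto (fun x : ℝ => log (1 - 2 * I * ((1 / Real.cosh x : ℝ) : ℂ))) atTop (𝓝 0) := by
    have := (continuousAt_clog (x := 1) (by simp)).tendsto.comp h0
    rw [log_one] at this
    exact this
  have h4 := (h3.div_const (2 * Real.pi * I)).const_add (1 / 2 : ℂ)
  rw [zero_div, add_zero] at h4
  exact h4.congr (fun x => (e x).symm)

theorem tendsto_VV {Φ : ℂ → ℂ} (hΦ : IsPhi1 Φ) (h0 : Φ 0 = Fc 0) :
    Tendsto (fun x => VV Φ x 0) atTop (𝓝 0) := by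
  have hR := Rf_continuous
  have t1 := tendsto_yc
  have t2 := tendsto_gdv
  have a1 : Tendsto (fun x : ℝ => Rf (yc (UU x 0) + 1 / 2)) atTop (𝓝 (Rf 1)) := by
    have := t1.add_const (1 / 2)
    have e : (1 / 2 + 1 / 2 : ℂ) = 1 := by norm_num
    rw [e] at this
    exact (hR.tendsto 1).comp this
  have a2 : Tendsto (fun x : ℝ => Rf (yc (UU x 0) - gdv (UU x 0))) atTop (𝓝 (Rf 0)) := by
    have := t1.sub t2
    rw [sub_self] at this
    exact (hR.tendsto 0).comp this
  have a3 : Tendsto (fun x : ℝ => Rf (yc (UU x 0) + gdv (UU x 0))) atTop (𝓝 (Rf 1)) := by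
    have := t1.add t2
    have e : (1 / 2 + 1 / 2 : ℂ) = 1 := by norm_num
    rw [e] at this
    exact (hR.tendsto 1).comp this
  have a4 : Tendsto (fun x : ℝ => Real.pi * ((yc (UU x 0)).im * (1 - (yc (UU x 0)).re))) atTop
      (𝓝 0) := by
    have b1 : Tendsto (fun x : ℝ => (yc (UU x 0)).im) atTop (𝓝 0) := by
      have := (Complex.continuous_im.tendsto (1 / 2 : ℂ)).comp t1
      have e : (1 / 2 : ℂ).im = 0 := by norm_num
      rw [e] at this
      exact this
    have b2 : Tendsto (fun x : ℝ => (yc (UU x 0)).re) atTop (𝓝 (1 / 2)) := by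
      have := (Complex.continuous_re.tendsto (1 / 2 : ℂ)).comp t1
      have e : (1 / 2 : ℂ).re = 1 / 2 := by norm_num
      rw [e] at this
      exact this
    have := (b1.mul (b2.const_sub 1)).const_mul Real.pi
    simpa using this
  have r1 : Rf 1 = 0 := by
    have h1 := Rf_one_sub 0
    have h2 := Rf_add_one 0
    have h3 := Rf_neg 0
    simp at h1 h2 h3
    linarith
  have r0 : Rf 0 = 0 := by
    have h2 := Rf_add_one 0
    simp at h2
    linarith
  have a5 := (((a1.const_mul 3).add a4).sub a2).sub a3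
  rw [r1, r0] at a5
  have a6 := a5.const_mul Real.pi
  norm_num at a6
  refine a6.congr' ?_
  filter_upwards [eventually_ge_atTop 0] with x hx
  rw [VV, Ya_zero, mul_zero, sub_zero, bridge_cl hΦ h0 hx (by rw [abs_zero]; positivity),
    EE_cl_op]

/-- an explicit lower bound of `V (x, 0)` -/
noncomputable def g2 (x : ℝ) : ℝ :=
  2 * (x + 1) * Real.exp (-x) - 2 / 9 * (3 * x + 1) * Real.exp (-(3 * x))

theorem hasDerivAt_g2 (x : ℝ) :
    HasDerivAt g2 (-(2 * x * Real.exp (-x)) + 2 * x * Real.exp (-(3 * x))) x := by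
  have e1 : HasDerivAt (fun x : ℝ => Real.exp (-x)) (Real.exp (-x) * -1) x :=
    (hasDerivAt_neg x).exp
  have e2 : HasDerivAt (fun x : ℝ => Real.exp (-(3 * x))) (Real.exp (-(3 * x)) * -(3 * 1)) x :=
    ((hasDerivAt_id x).const_mul 3).neg.exp
  have p1 : HasDerivAt (fun x : ℝ => 2 * (x + 1)) (2 * 1) x :=
    ((hasDerivAt_id x).add_const 1).const_mul 2
  have p2 : HasDerivAt (fun x : ℝ => 2 / 9 * (3 * x + 1)) (2 / 9 * (3 * 1)) x :=
    (((hasDerivAt_id x).const_mul 3).add_const 1).const_mul (2 / 9)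
  refine ((p1.mul e1).sub (p2.mul e2)).congr_deriv ?_
  ring

theorem tendsto_g2 : Tendsto g2 atTop (𝓝 0) := by
  have h1 : Tendsto (fun x : ℝ => x * Real.exp (-x)) atTop (𝓝 0) := by
    have := Real.tendsto_pow_mul_exp_neg_atTop_nhds_zero 1
    simpa using this
  have h0 : Tendsto (fun x : ℝ => Real.exp (-x)) atTop (𝓝 0) := by
    have := Real.tendsto_pow_mul_exp_neg_atTop_nhds_zero 0
    simpa using this
  have h3 : Tendsto (fun x : ℝ => 3 * x) atTop atTop :=
    tendsto_id.const_mul_atTop (by norm_num)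
  have k1 := h1.comp h3
  have k0 := h0.comp h3
  have := ((h1.add h0).const_mul 2).sub ((k1.add k0).const_mul (2 / 9))
  simp only [add_zero, mul_zero, sub_zero] at this
  refine this.congr ?_
  intro x
  simp only [g2, Function.comp_apply]
  ring

theorem sech_ge (x : ℝ) : 2 * (Real.exp (-x) - Real.exp (-(3 * x))) ≤ 1 / Real.cosh x := by
  rw [le_div_iff₀ (Real.cosh_pos x), Real.cosh_eq]
  have e1 : Real.exp (-x) * Real.exp x = 1 := by rw [← Real.exp_add]; simp
  have e2 : Real.exp (-(3 * x)) = Real.exp (-x) ^ 3 := by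
    rw [← Real.exp_nat_mul]; congr 1; push_cast; ring
  rw [e2]
  set E := Real.exp (-x)
  have e3 : 2 * (E - E ^ 3) * ((Real.exp x + E) / 2)
      = (E * Real.exp x) * (1 - E ^ 2) + E ^ 2 - E ^ 4 := by ring
  rw [e3, e1]
  nlinarith [sq_nonneg (E ^ 2)]

theorem inv_cosh_re_zero (x : ℝ) : (1 / cosh (UU x 0)).re = 1 / Real.cosh x := by
  rw [inv_cosh_re, normSq_c, Real.sin_zero, Real.cos_zero]
  have := (Real.cosh_pos x).ne'
  field_simp
  ring

theorem VV_zero_ge {Φ : ℂ → ℂ} (hΦ : IsPhi1 Φ) (h0 : Φ 0 = Fc 0) {x : ℝ} (hx : 0 ≤ x) :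
    g2 x ≤ VV Φ x 0 := by
  have hd : ∀ y : ℝ, HasDerivAt (fun y => VV Φ y 0 - g2 y)
      (-(y * (1 / cosh (UU y 0)).re) -
        (-(2 * y * Real.exp (-y)) + 2 * y * Real.exp (-(3 * y)))) y := by
    intro y
    exact (VV_dx hΦ abs_zero_lt).sub (hasDerivAt_g2 y)
  have hm : AntitoneOn (fun y => VV Φ y 0 - g2 y) (Set.Ici 0) := by
    apply antitoneOn_of_deriv_nonpos (convex_Ici _)
    · exact fun y _ => (hd y).continuousAt.continuousWithinAt
    · exact fun y _ => (hd y).differentiableAt.differentiableWithinAt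
    · intro y hy
      rw [interior_Ici] at hy
      rw [(hd y).deriv, inv_cosh_re_zero]
      have h1 := mul_le_mul_of_nonneg_left (sech_ge y) (le_of_lt (show (0 : ℝ) < y from hy))
      linarith
  have hl : Tendsto (fun y => VV Φ y 0 - g2 y) atTop (𝓝 0) := by
    simpa using (tendsto_VV hΦ h0).sub tendsto_g2
  have : (0 : ℝ) ≤ VV Φ x 0 - g2 x := by
    apply le_of_tendsto hl
    filter_upwards [eventually_ge_atTop x] with y hy
    exact hm hx (hx.trans hy) hy
  linarith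

end Pool.Agent.S3.Cl
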