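import Pool.Agent.S3.Cl.CfgE
import Pool.Agent.S3.Cl.Low

/-!
# Stage 3: closed ends: the test point
-/

namespace Pool.Agent.S3.Cl

open Complex Pool.Agent.S3
open Pool.Agent.H25.RK (gdv gdv_re_lt gdv_hasDerivAt)
open Pool.Agent.S3.E (Zr uu qe qo bw xx th)

/-- the test point -/
noncomputable def tp1 (θ : ℝ) : ℂ := ((1 / 4 : ℝ) : ℂ) + (bl θ (1 / 4) : ℝ) * I

section

variable {Φ : ℂ → ℂ} {θ xc b v1 : ℝ}

theorem tp_le (H : ClH Φ θ xc b v1) : (Φ (tp1 θ)).re ≤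
    EE (.op (gdv (UU xc θ))) (.cl 1) (yc (UU xc θ)) +
      ell (gdv (UU xc θ)) (qcl (UU xc θ)) (-(2 * Real.pi * b)) (tp1 θ) := by
  have hpi := Real.pi_pos
  have r1 : (tp1 θ).re = 1 / 4 := by simp [tp1]
  have r2 : (tp1 θ).im = bl θ (1 / 4) := by simp [tp1]
  have hv : |(tp1 θ).re| < 1 / 2 := by rw [r1]; exact quarter_lt
  have hbl : 0 ≤ (tp1 θ).im := by
    rw [r2, bl]
    apply div_nonneg _ hpi.le
    rw [Real.arsinh_nonneg_iff]
    apply mul_nonneg (tan_nonneg' H.θ0.le H.th2)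
    apply Real.cos_nonneg_of_mem_Icc
    constructor <;> linarith
  obtain ⟨x, t, a1, a2, a3, a4, -, -⟩ := coord hv
  have ht : t = θ := (t_le H.θ0 H.th2 hv hbl a1 a3 a4).2.2 (by rw [r1, r2])
  subst ht
  have hD := H.D_le x
  rw [a3, a4, ← ell_eq H.hQ H.at'] at hD
  have e : gd (UU x t) / (Real.pi : ℂ) = tp1 t := by
    rw [gd_eq (by rwa [UU_im]), a2]
    field_simp
  rw [e, ← FF_eq H] at hD
  exact le_of_mul_le_mul_left hD hpi

end

section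

variable {ι : Type*} [Finite ι] {a : ι → ℝ} {nl nr : ι → Option ι} {z : ι → ℂ} {Φ : ℂ → ℂ}

theorem tp_n (hΦ : IsPhi1 Φ) (h0 : Φ 0 = Fc 0) (h : Zr a nl nr 1 z) {i j : ι}
    (hj : Zr.IsEnd2 a nl nr j i) (ha : 3 ≤ a i) : (Φ (tp1 (th (z i).re (z i).im))).re ≤
    EE (.op (gdv (uu (z i)))) (.cl 1) (yy (uu (z i)) ((starRingEnd ℂ) (uu (z j)))) +
      ell (gdv (uu (z i))) (qe (z i) (z j)) (-(2 * Real.pi * bw (z i) (z j)))
        (tp1 (th (z i).re (z i).im)) := by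
  have H := clH_Phi h hj ha (v1 := 1 / 3) (by norm_num) le_rfl (by linarith) hΦ h0
  rw [yc_eq h hj, (h.ecrit1 hj).2]
  exact tp_le H

theorem tp_p (hΦ : IsPhi1 Φ) (h0 : Φ 0 = Fc 0) (h : Zr a nl nr 1 z) {i j : ι}
    (hj : Zr.IsEnd2 a nl nr j i) (ha : 3 ≤ a i) : (Φ (tp1 (th (z i).re (z i).im))).re ≤
    EE (.op (mir (gdv (uu (z i))))) (.cl (-1))
        ((starRingEnd ℂ) (yy (uu (z i)) ((starRingEnd ℂ) (uu (z j))))) +
      ell (mir (gdv (uu (z i)))) (-((starRingEnd ℂ) (qe (z i) (z j))))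
        (2 * Real.pi * bw (z i) (z j)) (mir (tp1 (th (z i).re (z i).im))) := by
  have h1 := tp_n hΦ h0 h hj ha
  have h2 := ell_mir_mir (gdv (uu (z i))) (qe (z i) (z j)) (-(2 * Real.pi * bw (z i) (z j)))
    (tp1 (th (z i).re (z i).im))
  rw [neg_neg] at h2
  rw [EE_cl_mir, h2]
  exact h1

end

variable {m : ℕ} {a : Fin (m + 1) → ℕ} {σ : Fin (m + 1) → ℤ} {z : Fin (m + 1) → ℂ} {Φ : ℂ → ℂ}

theorem lv_cl {i : Fin (m + 1)} (h : clo a i) (j : Fin m) (v : ℂ) :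
    (cfgOf a σ z).lv j i v = 0 := by
  unfold Cfg.lv
  rw [if_neg (fun h1 => mem_Op.1 h1 h)]

theorem lv_op {i : Fin (m + 1)} (h : ¬ clo a i) (j : Fin m)
    (hev : ev ((cfgOf a σ z).yc j) ((cfgOf a σ z).vc i) = -2 * Qv σ z j i) (v : ℂ) :
    (cfgOf a σ z).lv j i v = ell ((cfgOf a σ z).vc i) (Qv σ z j i) ((cfgOf a σ z).β j i) v := by
  have e : -ev ((cfgOf a σ z).yc j) ((cfgOf a σ z).vc i) / 2 = Qv σ z j i := by
    rw [hev]; ring
  unfold Cfg.lv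
  rw [if_pos (mem_Op.2 h), e]

/-- the test point, the right end of the edge is closed -/
theorem low_left (hΦ : IsPhi1 Φ) (h0 : Φ 0 = Fc 0)
    (h : Zr (fun i => (a i : ℝ)) chL chR 1 z) (ha : ∀ i, 2 ≤ a i)
    (hσ : ∀ i, σ i = 1 ∨ σ i = -1) (hs : ∀ j : Fin m, σ j.succ = -σ j.castSucc)
    (h2 : ∀ j : Fin m, ¬ (clo a j.castSucc ∧ clo a j.succ)) {j : Fin m}
    (c2 : clo a j.succ) (ha3' : 3 ≤ a j.castSucc) (w : ℂ) :
    (Φ (tp1 ((cfgOf a σ z).θ j.castSucc))).re ≤ (cfgOf a σ z).Lt j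
      (if σ j.castSucc = -1 then tp1 ((cfgOf a σ z).θ j.castSucc)
        else mir (tp1 ((cfgOf a σ z).θ j.castSucc))) w := by
  have c1 : ¬ clo a j.castSucc := fun c1 => h2 j ⟨c1, c2⟩
  have hE := edC h ha hσ hs h2 j
  have ha3 : (3 : ℝ) ≤ (fun i => (a i : ℝ)) j.castSucc := by
    show (3 : ℝ) ≤ (a j.castSucc : ℝ)
    exact_mod_cast ha3'
  unfold Cfg.Lt Cfg.Fc
  rw [slc_op c1, slc_cl c2, lv_cl c2, add_zero, lv_op c1 j (hE.ev1 c1)]
  rcases hσ j.castSucc with s1 | s1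
  · have s2 : σ j.succ = -1 := by rw [hs, s1]
    have ey0 : (cfgOf a σ z).yc j =
        (starRingEnd ℂ) (yy (E.uu (z j.castSucc)) ((starRingEnd ℂ) (E.uu (z j.succ)))) := by
      rw [Pool.Agent.S3.yc_eq, if_neg (by rw [s1]; decide),
        ← yy_conj (h.reg_edge (Or.inr (chR_castSucc j))), conj_conj, yy_comm]
    have q1 : Qv σ z j j.castSucc = -((starRingEnd ℂ) (qe (z j.castSucc) (z j.succ))) := by
      rw [Qv_pos s1, if_pos rfl]
    have b1 : (cfgOf a σ z).β j j.castSucc = 2 * Real.pi * bw (z j.castSucc) (z j.succ) := by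
      rw [β_cs, s1]; norm_num
    rw [vc_pos (a := a) (uu_im h j.castSucc) s1, ey0, q1, b1, s2, if_neg (by rw [s1]; decide)]
    exact tp_p hΦ h0 h (end_right c2) ha3
  · have s2 : σ j.succ = 1 := by rw [hs, s1]; rfl
    have ey0 : (cfgOf a σ z).yc j =
        yy (E.uu (z j.castSucc)) ((starRingEnd ℂ) (E.uu (z j.succ))) := by
      rw [Pool.Agent.S3.yc_eq, if_pos s1]
    have q1 : Qv σ z j j.castSucc = qe (z j.castSucc) (z j.succ) := by
      rw [Qv_neg s1, if_pos rfl]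
    have b1 : (cfgOf a σ z).β j j.castSucc = -(2 * Real.pi * bw (z j.castSucc) (z j.succ)) := by
      rw [β_cs, s1]; push_cast; ring
    rw [vc_neg (a := a) (z := z) s1, ey0, q1, b1, s2, if_pos s1]
    exact tp_n hΦ h0 h (end_right c2) ha3

/-- the test point, the left end of the edge is closed -/
theorem low_right (hΦ : IsPhi1 Φ) (h0 : Φ 0 = Fc 0)
    (h : Zr (fun i => (a i : ℝ)) chL chR 1 z) (ha : ∀ i, 2 ≤ a i)
    (hσ : ∀ i, σ i = 1 ∨ σ i = -1) (hs : ∀ j : Fin m, σ j.succ = -σ j.castSucc)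
    (h2 : ∀ j : Fin m, ¬ (clo a j.castSucc ∧ clo a j.succ)) {j : Fin m}
    (c1 : clo a j.castSucc) (ha3' : 3 ≤ a j.succ) (v : ℂ) :
    (Φ (tp1 ((cfgOf a σ z).θ j.succ))).re ≤ (cfgOf a σ z).Lt j v
      (if σ j.succ = -1 then tp1 ((cfgOf a σ z).θ j.succ)
        else mir (tp1 ((cfgOf a σ z).θ j.succ))) := by
  have c2 : ¬ clo a j.succ := fun c2 => h2 j ⟨c1, c2⟩
  have hE := edC h ha hσ hs h2 j
  have ha3 : (3 : ℝ) ≤ (fun i => (a i : ℝ)) j.succ := by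
    show (3 : ℝ) ≤ (a j.succ : ℝ)
    exact_mod_cast ha3'
  unfold Cfg.Lt Cfg.Fc
  rw [slc_op c2, slc_cl c1, lv_cl c1, add_zero, lv_op c2 j (hE.ev2 c2)]
  have hsym : EE (.cl (σ j.castSucc)) (.op ((cfgOf a σ z).vc j.succ)) ((cfgOf a σ z).yc j)
      = EE (.op ((cfgOf a σ z).vc j.succ)) (.cl (σ j.castSucc)) ((cfgOf a σ z).yc j) := by
    rw [EE, EE, add_comm]
  rw [hsym]
  rcases hσ j.castSucc with s1 | s1
  · have s2 : σ j.succ = -1 := by rw [hs, s1]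
    have ey0 : (cfgOf a σ z).yc j =
        yy (E.uu (z j.succ)) ((starRingEnd ℂ) (E.uu (z j.castSucc))) := by
      rw [Pool.Agent.S3.yc_eq, if_neg (by rw [s1]; decide)]
    have q1 : Qv σ z j j.succ = qe (z j.succ) (z j.castSucc) := by
      rw [Qv_neg s2, if_neg (ne_cs j)]
    have b1 : (cfgOf a σ z).β j j.succ = -(2 * Real.pi * bw (z j.succ) (z j.castSucc)) := by
      rw [β_su, s2]; push_cast; ring
    rw [vc_neg (a := a) (z := z) s2, ey0, q1, b1, s1, if_pos s2]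
    exact tp_n hΦ h0 h (end_left c1) ha3
  · have s2 : σ j.succ = 1 := by rw [hs, s1]; rfl
    have ey0 : (cfgOf a σ z).yc j =
        (starRingEnd ℂ) (yy (E.uu (z j.succ)) ((starRingEnd ℂ) (E.uu (z j.castSucc)))) := by
      rw [Pool.Agent.S3.yc_eq, if_pos s1, ← yy_conj (h.reg_edge (Or.inl (chL_succ j))), conj_conj,
        yy_comm]
    have q1 : Qv σ z j j.succ = -((starRingEnd ℂ) (qe (z j.succ) (z j.castSucc))) := by
      rw [Qv_pos s2, if_neg (ne_cs j)]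
    have b1 : (cfgOf a σ z).β j j.succ = 2 * Real.pi * bw (z j.succ) (z j.castSucc) := by
      rw [β_su, s2]; norm_num
    rw [vc_pos (a := a) (uu_im h j.succ) s2, ey0, q1, b1, s1, if_neg (by rw [s2]; decide)]
    exact tp_p hΦ h0 h (end_left c1) ha3

end Pool.Agent.S3.Cl
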