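import Pool.Agent.S3.Cl.Low

/-!
# Stage 3: closed ends: the kernel of a closed edge at a real `v`
-/

namespace Pool.Agent.S3.Cl

open Complex Pool.Agent.S3 Set
open Pool.Agent.H25.RK (gdv gdv_re_lt gdv_hasDerivAt)

variable {Φ : ℂ → ℂ}

/-- a real point with a given abscissa -/
theorem pt_real {v0 : ℝ} (h0 : 0 ≤ v0) (h1 : v0 < 1 / 2) : ∃ x : ℝ, 0 ≤ x ∧
    gdv (UU x 0) = (v0 : ℂ) ∧ Ra x 0 = Real.pi * v0 ∧
    gd (UU x 0) / (Real.pi : ℂ) = (v0 : ℂ) := by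
  have hpi := Real.pi_pos
  have hv : |((v0 : ℝ) : ℂ).re| < 1 / 2 := by rw [ofReal_re, abs_of_nonneg h0]; exact h1
  obtain ⟨x0, t0, a1, a2, a3, a4, a5, a6⟩ := coord (v := (v0 : ℂ)) hv
  rw [ofReal_re] at a3 a5
  rw [ofReal_im, mul_zero] at a4
  have hx0 : 0 ≤ x0 := a5 h0
  have ht0 : t0 = 0 := by
    have c := curve (x := x0) a1
    rw [a4, Real.sinh_zero, zero_mul] at c
    have h2 := cos_Ra_pos (x := x0) a1
    have h3 : Real.sin t0 = 0 := by
      rcases mul_eq_zero.1 c.symm with h | h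
      · exact h
      · exact absurd h h2.ne'
    have h4 := abs_lt.1 a1
    exact (Real.sin_eq_zero_iff_of_lt_of_lt (by linarith) (by linarith)).1 h3
  subst ht0
  refine ⟨x0, hx0, a2, a3, ?_⟩
  rw [gd_eta, a3, a4, div_eq_iff pi_ne]
  apply Complex.ext <;> simp [mul_comm]

theorem VV_real {v0 x : ℝ} (h : gd (UU x 0) / (Real.pi : ℂ) = (v0 : ℂ)) :
    VV Φ x 0 = Real.pi * (Φ (v0 : ℂ)).re := by
  rw [VV, h, Ya_zero, mul_zero, sub_zero]

/-- `Re Φ` decreases on the real segment -/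
theorem Phi_real_anti (hΦ : IsPhi1 Φ) {p q : ℝ} (h0 : 0 ≤ p) (h1 : p ≤ q) (h2 : q < 1 / 2) :
    (Φ (q : ℂ)).re ≤ (Φ (p : ℂ)).re := by
  have hpi := Real.pi_pos
  obtain ⟨x, a1, -, a3, a4⟩ := pt_real h0 (lt_of_le_of_lt h1 h2)
  obtain ⟨x', b1, -, b3, b4⟩ := pt_real (h0.trans h1) h2
  have hxx : x ≤ x' := by
    by_contra hc
    push Not at hc
    have := Ra_mono zero_lt hc
    simp only at this
    rw [a3, b3] at this
    nlinarith
  have h5 : VV Φ x' 0 ≤ VV Φ x 0 :=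
    (VV_anti_x hΦ zero_lt).antitoneOn (mem_Ici.2 a1) (mem_Ici.2 b1) hxx
  rw [VV_real a4, VV_real b4] at h5
  exact le_of_mul_le_mul_left h5 hpi

theorem Phi_quarter_pos (hΦ : IsPhi1 Φ) (h0 : Φ 0 = Fc 0) : 0 < (Φ ((1 / 4 : ℝ) : ℂ)).re := by
  have hpi := Real.pi_pos
  obtain ⟨x, a1, -, a3, a4⟩ := pt_real (v0 := 1 / 4) (by norm_num) (by norm_num)
  have h1 := VV_quarter hΦ a1 (by rw [a3]; ring)
  have h2 := Phi_zero_ge hΦ h0
  rw [VV_real a4, VV_zero] at h1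
  by_contra hc
  push Not at hc
  have := mul_nonpos_of_nonneg_of_nonpos hpi.le hc
  linarith

/-- **The kernel of a closed edge at a real `v`.** -/
theorem real_C (hΦ : IsPhi1 Φ) (h0 : Φ 0 = Fc 0) {s : ℤ} (hs : s = 1 ∨ s = -1) {x v L : ℝ}
    (h1 : 0 ≤ x) (h2 : x ≤ 1 / 4) (h3 : x ≤ |v|) (h4 : |v| ≤ 1 / 2) (hL : (Φ (x : ℂ)).re < L) :
    EdgeOK (.op (v : ℂ)) (.cl s) L := by
  have hpi := Real.pi_pos
  have key : ∀ v : ℝ, x ≤ |v| → |v| ≤ 1 / 2 → EdgeOK (.op (v : ℂ)) (.cl 1) L := by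
    intro v h3 hv
    have hL0 : 0 < L :=
      ((Phi_quarter_pos hΦ h0).trans_le (Phi_real_anti hΦ h1 h2 (by norm_num))).trans hL
    obtain ⟨ξ, a1, a2, a3, a4⟩ := pt_real h1 (lt_of_le_of_lt h2 (by norm_num))
    have hm : ‖sin (Real.pi * (v : ℂ))‖ ^ 2 ≤ 1 := by
      rw [sin_norm, ofReal_im, ofReal_re, mul_zero, Real.sinh_zero]
      have := Real.sin_sq_add_cos_sq (Real.pi * v)
      have := sq_nonneg (Real.cos (Real.pi * v))
      linarith
    have U : UH ξ 0 := by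
      refine ⟨a1, by rw [abs_zero]; linarith, ?_, ?_⟩
      · rw [a2, ofReal_re]
        have b1 : 0 ≤ Real.pi * x := mul_nonneg hpi.le h1
        have b2 : Real.pi * x ≤ Real.pi / 4 := by nlinarith
        have b3 : Real.cos (Real.pi / 4) ≤ Real.cos (Real.pi * x) :=
          Real.cos_le_cos_of_nonneg_of_le_pi b1 (by linarith) b2
        rw [Real.cos_pi_div_four] at b3
        have b4 : √2 ^ 2 = (2 : ℝ) := Real.sq_sqrt (by norm_num)
        have b5 := Real.sqrt_nonneg (2 : ℝ)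
        have b6 := Real.sin_sq_add_cos_sq (Real.pi * x)
        nlinarith
      · rw [Real.sin_zero, mul_zero]
        exact zero_le_one
    apply ok_of U (by rw [ofReal_re]; exact hv) (by rw [ofReal_im]) hm
    · intro y h0 h1'
      rw [a2]
      have k : EE (.cl 1) (.op ((|v| : ℝ) : ℂ)) y ≤ EE (.cl 1) (.op ((x : ℝ) : ℂ)) y := by
        have := real_anti (a := x) (b := |v|) (t := y.re) (η := y.im) h1 h3 hv h0 h1'
        rwa [re_add_im] at this
      rcases abs_choice v with h2 | h2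
      · rwa [h2] at k
      · rw [h2, ofReal_neg, se_cl_neg] at k
        exact k
    · rw [← bridge_cl hΦ h0 a1 U.ht, a4]
      exact hL
    · rw [a2, ofReal_im, abs_zero, mul_zero]
      exact hL0
    · rw [ofReal_im, mul_zero]
      exact hL0
  rcases hs with h | h
  · rw [h]
    exact key v h3 h4
  · have h5 := (key (-v) (by rwa [abs_neg]) (by rwa [abs_neg])).mir_cl
    rw [mir_ofReal, neg_neg] at h5
    rw [h]
    exact h5

end Pool.Agent.S3.Cl
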