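import Pool.Agent.S3.BridgeF
import Pool.Agent.S3.Cl.Ineq
import Pool.Agent.S3.Cl.Mid
import Pool.Agent.S3.Gr4

/-!
# Stage 3: closed ends: the estimate of an edge with a closed end
-/

namespace Pool.Agent.S3.Cl

open Complex Pool.Agent.S3 Set
open Pool.Agent.H25.RK (gdv gdv_re_lt gdv_hasDerivAt)

variable {Φ : ℂ → ℂ} {θ xc b v1 r lam : ℝ}

/-- the bound of a closed edge -/
noncomputable def Lcl (θ xc b v1 r lam : ℝ) (v : ℂ) : ℝ :=
  EE (.op (gdv (UU xc θ))) (.cl 1) (yc (UU xc θ)) +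
    (ell (gdv (UU xc θ)) (qcl (UU xc θ)) (-(2 * Real.pi * b)) (pl θ v1 v) +
      lam * ((wr r (pl θ v1 v)).re - (wr r v).re))

theorem EE_op_cl (v y : ℂ) (s : ℤ) : EE (.op v) (.cl s) y = EE (.cl s) (.op v) y := by
  rw [EE, EE, add_comm]

/-! ### `pl` and `wr` -/

theorem pl_of_le {v : ℂ} (h : |v.re| ≤ v1) (hi : v.im = bl θ v.re) : pl θ v1 v = v := by
  have h' := abs_le.1 h
  unfold pl
  rw [min_eq_right h'.2, max_eq_right h'.1, ← hi]
  exact re_add_im v

theorem pl_of_ge (h0 : 0 < v1) {v : ℂ} (h : v1 ≤ v.re) :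
    pl θ v1 v = (v1 : ℂ) + (bl θ v1 : ℝ) * I := by
  unfold pl
  rw [min_eq_left h, max_eq_right (by linarith)]

theorem bl_neg (θ a : ℝ) : bl θ (-a) = bl θ a := by
  unfold bl
  rw [mul_neg, Real.cos_neg]

theorem pl_of_le_neg (h0 : 0 < v1) {v : ℂ} (h : v.re ≤ -v1) :
    pl θ v1 v = ((-v1 : ℝ) : ℂ) + (bl θ v1 : ℝ) * I := by
  unfold pl
  rw [min_eq_right (by linarith), max_eq_left h, bl_neg]

theorem wr_re' (r : ℝ) (v : ℂ) : Real.pi * (wr r v).re
    = -(2 * Real.pi * (Real.pi * v.im) * (1 + 2 * r * v.re)) := by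
  rw [wr_re, sq, mul_im]
  ring

/-! ### the hypotheses on a point -/

theorem uh_of (H : ClH Φ θ xc b v1) {x t : ℝ} (hx : 0 ≤ x) (h0 : 0 ≤ t) (h1 : t ≤ θ)
    (hR : Ra x t ≤ Real.pi * v1) : UH x t ∧ UH x (-t) := by
  have hpi := Real.pi_pos
  have hθ1 := H.θ1
  have ht : |t| < Real.pi / 2 := by rw [abs_of_nonneg h0]; linarith
  have ht4 : |t| ≤ Real.pi / 4 := by rw [abs_of_nonneg h0]; linarith
  have ht' : |(-t)| < Real.pi / 2 := by rwa [abs_neg]
  have hR0 := Ra_nonneg hx ht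
  have e1 : Real.pi * (gdv (UU x t)).re = Ra x t := (Ra_eq ht).symm
  have e2 : Real.pi * (gdv (UU x (-t))).re = Ra x t := by
    rw [← Ra_eq ht', Ra, Ra, ← UU_conj, gd_conj (by rwa [UU_im]), conj_re]
  have hvpi : Real.pi * v1 < Real.pi / 2 := by nlinarith [H.vh]
  have s1 : Real.sin (Ra x t) ^ 2 ≤ 885 / 1000 := by
    have a1 : Real.sin (Ra x t) ≤ Real.sin (Real.pi * v1) :=
      Real.sin_le_sin_of_le_of_le_pi_div_two (by linarith) hvpi.le hR
    have a2 : 0 ≤ Real.sin (Ra x t) := Real.sin_nonneg_of_nonneg_of_le_pi hR0 (by linarith)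
    have := H.hs
    nlinarith
  have hh1 : Real.sinh x * Real.sin t ≤ 1 := by
    have hcR : 0 < Real.cos (Ra x t) := cos_Ra_pos ht
    have c := RaS (x := x) ht
    have hst : 0 ≤ Real.sin t := Real.sin_nonneg_of_nonneg_of_le_pi h0 (by linarith)
    have hct := cos_pos' ht
    have e3 : Real.sinh x = Real.tan (Ra x t) * Real.cos t := by
      rw [Real.tan_eq_sin_div_cos]
      field_simp
      linarith
    have m : Real.tan (Ra x t) ≤ Real.tan (Real.pi * v1) :=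
      Real.strictMonoOn_tan.monotoneOn ⟨by linarith, by linarith⟩ ⟨by linarith, hvpi⟩ hR
    have m0 : 0 ≤ Real.tan (Real.pi * v1) := tan_nonneg' (by nlinarith [H.v0]) hvpi
    have m2 : Real.sin (2 * t) ≤ Real.sin (2 * θ) :=
      Real.sin_le_sin_of_le_of_le_pi_div_two (by linarith) (by linarith) (by linarith)
    have m3 : 0 ≤ Real.sin (2 * t) := Real.sin_nonneg_of_nonneg_of_le_pi (by linarith) (by linarith)
    have m4 : Real.tan (Ra x t) * Real.sin (2 * t) ≤ 2 :=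
      (mul_le_mul m m2 m3 m0).trans H.hT
    rw [Real.sin_two_mul] at m4
    rw [e3]
    linarith
  refine ⟨⟨hx, ht4, ?_, hh1⟩, ⟨hx, by rwa [abs_neg], ?_, ?_⟩⟩
  · rw [e1]; exact s1
  · rw [e2]; exact s1
  · rw [Real.sin_neg]
    have hst : 0 ≤ Real.sin t := Real.sin_nonneg_of_nonneg_of_le_pi h0 (by linarith)
    have := mul_nonneg (Real.sinh_nonneg_iff.2 hx) hst
    linarith

theorem sin_norm (v : ℂ) : ‖sin (Real.pi * v)‖ ^ 2
    = Real.sin (Real.pi * v.re) ^ 2 + Real.sinh (Real.pi * v.im) ^ 2 := by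
  have := norm_sin_pi_sq v.re v.im
  rwa [re_add_im] at this

theorem sin_norm_le (h0 : 0 < θ) (h1 : θ ≤ Real.pi / 4) {v : ℂ} (hi : 0 ≤ v.im)
    (h : v.im ≤ bl θ v.re) : ‖sin (Real.pi * v)‖ ^ 2 ≤ 1 := by
  have hpi := Real.pi_pos
  rw [sin_norm]
  have e1 : Real.sinh (Real.pi * v.im) ≤ Real.tan θ * Real.cos (Real.pi * v.re) := by
    rw [← sinh_bl]
    exact Real.sinh_le_sinh.2 (mul_le_mul_of_nonneg_left h hpi.le)
  have e2 : 0 ≤ Real.sinh (Real.pi * v.im) := Real.sinh_nonneg_iff.2 (by positivity)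
  have e3 : Real.tan θ ≤ 1 := by
    rw [← Real.tan_pi_div_four]
    exact Real.strictMonoOn_tan.monotoneOn ⟨by linarith, by linarith⟩ ⟨by linarith, by linarith⟩ h1
  have e4 : 0 ≤ Real.tan θ := tan_nonneg' h0.le (by linarith)
  have e5 := Real.sin_sq_add_cos_sq (Real.pi * v.re)
  have e6 : Real.sinh (Real.pi * v.im) ^ 2 ≤ (Real.tan θ * Real.cos (Real.pi * v.re)) ^ 2 :=
    pow_le_pow_left₀ e2 e1 2
  have e7 : (Real.tan θ * Real.cos (Real.pi * v.re)) ^ 2 ≤ Real.cos (Real.pi * v.re) ^ 2 := by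
    rw [mul_pow]
    have : Real.tan θ ^ 2 ≤ 1 := by nlinarith
    have := mul_le_mul_of_nonneg_right this (sq_nonneg (Real.cos (Real.pi * v.re)))
    linarith
  linarith

/-! ### assembling `EdgeOK` -/

theorem ok_of {v : ℂ} {x t L : ℝ} (U : UH x t) (hv : |v.re| ≤ 1 / 2) (hi : 0 ≤ v.im)
    (hm : ‖sin (Real.pi * v)‖ ^ 2 ≤ 1)
    (hse : ∀ y : ℂ, 0 ≤ y.re → y.re ≤ 1 / 2 →
      EE (.cl 1) (.op v) y ≤ EE (.cl 1) (.op (gdv (UU x t))) y)
    (hE : EE (.cl 1) (.op (gdv (UU x t))) (yc (UU x t)) < L)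
    (hB : Real.pi * |(gdv (UU x t)).im| < L) (hB' : Real.pi * v.im < L) :
    EdgeOK (.op v) (.cl 1) L := by
  refine ⟨?_, ?_, ?_⟩
  · simp only [B0]
    linarith
  · intro y hy
    rw [EE_op_cl]
    have h := mid_le hv hm hy.1 hy.2
    rw [abs_of_nonneg hi] at h
    linarith
  · apply pol_lt' U _ hE hB
    intro y h0 h1 h2
    rw [EE_op_cl]
    exact lt_of_le_of_lt (hse y h0 h1) h2

theorem se_cl_neg (v y : ℂ) : EE (.cl 1) (.op (-v)) y = EE (.cl 1) (.op v) y := by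
  rw [EE, EE, se_neg]

theorem bl_nonneg (h0 : 0 < θ) (h1 : θ < Real.pi / 2) {a : ℝ} (ha : |a| ≤ 1 / 2) : 0 ≤ bl θ a := by
  have hpi := Real.pi_pos
  have ha' := abs_le.1 ha
  rw [bl]
  apply div_nonneg _ hpi.le
  rw [Real.arsinh_nonneg_iff]
  apply mul_nonneg (tan_nonneg' h0.le h1)
  apply Real.cos_nonneg_of_mem_Icc
  constructor <;> nlinarith

theorem FF_eq (H : ClH Φ θ xc b v1) : EE (.op (gdv (UU xc θ))) (.cl 1) (yc (UU xc θ))
    = (Φ (gd (UU xc θ) / (Real.pi : ℂ))).re := by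
  rw [EE_op_cl, bridge_cl H.hΦ H.h0 H.xc0.le (by rw [abs_of_pos H.θ0]; exact H.θ1)]

/-- the line -/
theorem ok_line (H : ClH Φ θ xc b v1) {v : ℂ} (h : |v.re| ≤ v1) (hi : v.im = bl θ v.re)
    (hne : v ≠ gdv (UU xc θ)) : EdgeOK (.op v) (.cl 1) (Lcl θ xc b v1 r lam v) := by
  have hpi := Real.pi_pos
  have hv : |v.re| < 1 / 2 := lt_of_le_of_lt h H.vh
  have hi0 : 0 ≤ v.im := by rw [hi]; exact bl_nonneg H.θ0 H.th2 hv.le
  obtain ⟨x, t, a1, a2, a3, a4, -, -⟩ := coord hv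
  have ht : t = θ := (t_le H.θ0 H.th2 hv hi0 a1 a3 a4).2.2 hi
  subst ht
  have hx : x ≠ xc := fun h0 => hne (by rw [← a2, h0])
  have e1 : Real.pi * Lcl t xc b v1 r lam v = LL Φ t xc b (Real.pi * v.re) (Real.pi * v.im) := by
    rw [Lcl, pl_of_le h hi, sub_self, mul_zero, add_zero, FF_eq H, ell_eq H.hQ H.at']
  have hD := H.D_lt hx
  rw [a3, a4, ← e1] at hD
  have hZ := H.Z_line (x := x) (by rw [a3, abs_mul, abs_of_pos hpi]
                                   exact mul_le_mul_of_nonneg_left h hpi.le)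
  rw [a3, a4, ← e1] at hZ
  have hE : (Φ (gd (UU x t) / (Real.pi : ℂ))).re < Lcl t xc b v1 r lam v :=
    lt_of_mul_lt_mul_left hD hpi.le
  have hB : Real.pi * v.im < Lcl t xc b v1 r lam v := lt_of_mul_lt_mul_left hZ hpi.le
  have hm := sin_norm_le H.θ0 H.θ1 hi0 hi.le
  have ha := abs_le.1 h
  rcases le_total 0 x with h0 | h0
  · have U := (uh_of H h0 H.θ0.le le_rfl (by rw [a3]; exact mul_le_mul_of_nonneg_left ha.2 hpi.le)).1
    apply ok_of U hv.le hi0 hm
    · intro y _ _; rw [a2]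
    · rw [← bridge_cl H.hΦ H.h0 h0 U.ht]; exact hE
    · rw [a2, abs_of_nonneg hi0]; exact hB
    · exact hB
  · have hR : Ra (-x) t = -Ra x t := H.Ra_neg x
    have U := (uh_of H (x := -x) (by linarith) H.θ0.le le_rfl (by
      rw [hR, a3]; nlinarith [ha.1])).2
    have e2 : UU (-x) (-t) = -UU x t := by rw [UU_neg]
    have e3 : gdv (UU (-x) (-t)) = -v := by
      rw [e2, gdv_neg (by rwa [UU_im]), a2]
    apply ok_of U hv.le hi0 hm
    · intro y _ _; rw [e3, se_cl_neg]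
    · rw [← bridge_cl H.hΦ H.h0 (by linarith) U.ht, e2, H.hΦ.even _ (by rwa [UU_im])]; exact hE
    · rw [e3, neg_im, abs_neg, abs_of_nonneg hi0]; exact hB
    · exact hB

/-- the data of the top of the vertical -/
theorem top (H : ClH Φ θ xc b v1) :
    Real.pi * (Φ (UU (Real.pi * v1) (Real.pi * bl θ v1) / (Real.pi : ℂ))).re
      < LL Φ θ xc b (Real.pi * v1) (Real.pi * bl θ v1) ∧
    Real.pi * (Real.pi * bl θ v1) < LL Φ θ xc b (Real.pi * v1) (Real.pi * bl θ v1) := by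
  have hpi := Real.pi_pos
  set v : ℂ := (v1 : ℂ) + (bl θ v1 : ℝ) * I with hvd
  have r1 : v.re = v1 := by simp [hvd]
  have r2 : v.im = bl θ v1 := by simp [hvd]
  have hv : |v.re| < 1 / 2 := by rw [r1, abs_of_pos H.v0]; exact H.vh
  have hi0 : 0 ≤ v.im := by
    rw [r2]; exact bl_nonneg H.θ0 H.th2 (by rw [abs_of_pos H.v0]; exact H.vh.le)
  obtain ⟨x, t, a1, a2, a3, a4, -, a6⟩ := coord hv
  have ht : t = θ := (t_le H.θ0 H.th2 hv hi0 a1 a3 a4).2.2 (by rw [r1, r2])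
  subst ht
  have hx : x ≠ xc := by
    intro h0
    have h1 := H.hR
    rw [← h0, a3, r1] at h1
    exact lt_irrefl _ h1
  have hD := H.D_lt hx
  have hZ := H.Z_line (x := x) (by rw [a3, r1, abs_of_pos (mul_pos hpi H.v0)])
  have hg : gd (UU x t) = UU (Real.pi * v1) (Real.pi * bl t v1) := by
    rw [gd_eta, a3, a4, r1, r2]; rfl
  rw [a3, a4, r1, r2] at hD hZ
  rw [hg] at hD
  exact ⟨hD, hZ⟩

/-- everything below the top, right side -/
theorem below (H : ClH Φ θ xc b v1) {Y : ℝ} (h0 : 0 ≤ Y) (h1 : Y ≤ Real.pi * bl θ v1) :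
    Real.pi * (Φ (UU (Real.pi * v1) Y / (Real.pi : ℂ))).re
      < LL Φ θ xc b (Real.pi * v1) (Real.pi * bl θ v1)
        - Real.pi * v1 * (Real.pi * bl θ v1 - Y) ∧
    Real.pi * Y < LL Φ θ xc b (Real.pi * v1) (Real.pi * bl θ v1)
        - Real.pi * v1 * (Real.pi * bl θ v1 - Y) := by
  have hpi := Real.pi_pos
  obtain ⟨t1, t2⟩ := top H
  have hR : |Real.pi * v1| < Real.pi / 2 := by
    rw [abs_of_pos (mul_pos hpi H.v0)]; nlinarith [H.vh]
  have m := vert_mono H.hΦ hR (a := Y) (b := Real.pi * bl θ v1) h0 (h0.trans h1) h1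
  simp only at m
  constructor
  · linarith
  · have h2 : Real.pi * v1 * (Real.pi * bl θ v1 - Y) ≤ Real.pi * (Real.pi * bl θ v1 - Y) := by
      apply mul_le_mul_of_nonneg_right _ (by linarith)
      nlinarith [H.vh]
    linarith

/-- the bound beyond the line -/
theorem L_ge (H : ClH Φ θ xc b v1) (P1 : 2 * lam * (1 + 2 * r * v1) ≤ v1)
    (P2 : 2 * lam * (1 - 2 * r * v1) ≤ (4 * b + 1) * v1) {v : ℂ} (hv : v1 ≤ |v.re|)
    (h : |v.re| = v1 ∨ v.im = 0) (h0 : 0 ≤ v.im) (h1 : v.im ≤ bl θ v1) :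
    LL Φ θ xc b (Real.pi * v1) (Real.pi * bl θ v1)
      - Real.pi * v1 * (Real.pi * bl θ v1 - Real.pi * v.im) ≤ Real.pi * Lcl θ xc b v1 r lam v := by
  have hpi := Real.pi_pos
  have hY0 : 0 ≤ Real.pi * bl θ v1 - Real.pi * v.im := by
    have := mul_le_mul_of_nonneg_left h1 hpi.le
    linarith
  have hb0 : 0 ≤ bl θ v1 := h0.trans h1
  have e0 : Real.pi * Lcl θ xc b v1 r lam v
      = LL Φ θ xc b (Real.pi * (pl θ v1 v).re) (Real.pi * (pl θ v1 v).im)
        + lam * (Real.pi * (wr r (pl θ v1 v)).re - Real.pi * (wr r v).re) := by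
    rw [← ell_eq H.hQ H.at', Lcl, FF_eq H]
    ring
  have hw : Real.pi * (wr r v).re = -(2 * Real.pi * (Real.pi * v.im) * (1 + 2 * r * v.re)) :=
    wr_re' r v
  rcases le_total 0 v.re with hs | hs
  · rw [abs_of_nonneg hs] at hv h
    have ep := pl_of_ge (θ := θ) H.v0 hv
    have q1 : (pl θ v1 v).re = v1 := by rw [ep]; simp
    have q2 : (pl θ v1 v).im = bl θ v1 := by rw [ep]; simp
    have hw2 : Real.pi * (wr r v).re = -(2 * Real.pi * (Real.pi * v.im) * (1 + 2 * r * v1)) := by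
      rcases h with h | h
      · rw [hw, h]
      · rw [hw, h]; ring
    rw [e0, wr_re', q1, q2, hw2]
    have k : lam * (-(2 * Real.pi * (Real.pi * bl θ v1) * (1 + 2 * r * v1))
        - -(2 * Real.pi * (Real.pi * v.im) * (1 + 2 * r * v1)))
        = -(Real.pi * (2 * lam * (1 + 2 * r * v1)) * (Real.pi * bl θ v1 - Real.pi * v.im)) := by
      ring
    rw [k]
    have := mul_le_mul_of_nonneg_right (mul_le_mul_of_nonneg_left P1 hpi.le) hY0
    linarith
  · rw [abs_of_nonpos hs] at hv h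
    have ep := pl_of_le_neg (θ := θ) H.v0 (v := v) (by linarith)
    have q1 : (pl θ v1 v).re = -v1 := by rw [ep]; simp
    have q2 : (pl θ v1 v).im = bl θ v1 := by rw [ep]; simp
    have hw2 : Real.pi * (wr r v).re = -(2 * Real.pi * (Real.pi * v.im) * (1 - 2 * r * v1)) := by
      rcases h with h | h
      · have : v.re = -v1 := by linarith
        rw [hw, this]; ring
      · rw [hw, h]; ring
    rw [e0, wr_re', q1, q2, hw2]
    have k : lam * (-(2 * Real.pi * (Real.pi * bl θ v1) * (1 + 2 * r * -v1))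
        - -(2 * Real.pi * (Real.pi * v.im) * (1 - 2 * r * v1)))
        = -(Real.pi * (2 * lam * (1 - 2 * r * v1)) * (Real.pi * bl θ v1 - Real.pi * v.im)) := by
      ring
    rw [k]
    have k2 := mul_le_mul_of_nonneg_right (mul_le_mul_of_nonneg_left P2 hpi.le) hY0
    have k3 : 0 ≤ 4 * b * (Real.pi * v1) * (Real.pi * v.im) := by
      have := H.b0
      have := H.v0
      positivity
    have k4 : LL Φ θ xc b (Real.pi * -v1) (Real.pi * bl θ v1)
        = LL Φ θ xc b (Real.pi * v1) (Real.pi * bl θ v1)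
          + 4 * b * (Real.pi * v1) * (Real.pi * bl θ v1) := by
      unfold LL; ring
    rw [k4]
    nlinarith

/-- a point of the vertical on the right side -/
theorem ok_vert (H : ClH Φ θ xc b v1) {v : ℂ} {L : ℝ} (hr : |v.re| = v1) (h0 : 0 ≤ v.im)
    (h1 : v.im ≤ bl θ v1) (hL : LL Φ θ xc b (Real.pi * v1) (Real.pi * bl θ v1)
      - Real.pi * v1 * (Real.pi * bl θ v1 - Real.pi * v.im) ≤ Real.pi * L) :
    EdgeOK (.op v) (.cl 1) L := by
  have hpi := Real.pi_pos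
  have hv : |v.re| < 1 / 2 := by rw [hr]; exact H.vh
  -- the point on the right side
  set w : ℂ := (v1 : ℂ) + (v.im : ℂ) * I with hw
  have r1 : w.re = v1 := by simp [hw]
  have r2 : w.im = v.im := by simp [hw]
  have hwv : |w.re| < 1 / 2 := by rw [r1, abs_of_pos H.v0]; exact H.vh
  obtain ⟨x, t, a1, a2, a3, a4, a5, a6⟩ := coord hwv
  have hx : 0 ≤ x := a5 (by rw [r1]; exact H.v0.le)
  obtain ⟨t0, t1, -⟩ := t_le H.θ0 H.th2 hwv (by rw [r2]; exact h0) a1 a3 a4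
  have t1' : t ≤ θ := t1 (by rw [r1, r2]; exact h1)
  obtain ⟨U1, U2⟩ := uh_of H hx t0 t1' (by rw [a3, r1])
  have hY1 : Real.pi * v.im ≤ Real.pi * bl θ v1 := mul_le_mul_of_nonneg_left h1 hpi.le
  obtain ⟨b1, b2⟩ := below H (Y := Real.pi * v.im) (by positivity) hY1
  have hg : gd (UU x t) = UU (Real.pi * v1) (Real.pi * v.im) := by
    rw [gd_eta, a3, a4, r1, r2]; rfl
  have hE : (Φ (gd (UU x t) / (Real.pi : ℂ))).re < L := by
    rw [hg]
    exact lt_of_mul_lt_mul_left (b1.trans_le hL) hpi.le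
  have hB : Real.pi * v.im < L := lt_of_mul_lt_mul_left (b2.trans_le hL) hpi.le
  have hbl : bl θ v.re = bl θ v1 := by
    rcases abs_choice v.re with h | h
    · rw [← hr, h]
    · rw [← hr, h, bl_neg]
  have hm := sin_norm_le H.θ0 H.θ1 h0 (by rw [hbl]; exact h1)
  have ht4 : |t| ≤ Real.pi / 4 := U1.ht
  rcases le_total 0 v.re with hs | hs
  · have e : w = v := by
      rw [abs_of_nonneg hs] at hr
      apply Complex.ext
      · rw [r1, hr]
      · exact r2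
    apply ok_of U1 hv.le h0 hm
    · intro y _ _; rw [a2, e]
    · rw [← bridge_cl H.hΦ H.h0 hx U1.ht]; exact hE
    · rw [a2, e, abs_of_nonneg h0]; exact hB
    · exact hB
  · have e : (starRingEnd ℂ) w = -v := by
      rw [abs_of_nonpos hs] at hr
      apply Complex.ext
      · rw [conj_re, r1, neg_re, hr]
      · rw [conj_im, r2, neg_im]
    have e3 : gdv (UU x (-t)) = -v := by
      rw [← UU_conj, gdv_conj (by rwa [UU_im]), a2, e]
    have hΦ2 : (Φ (gd (UU x (-t)) / (Real.pi : ℂ))).re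
        ≤ (Φ (gd (UU x t) / (Real.pi : ℂ))).re := by
      rcases t0.eq_or_lt with h2 | h2
      · rw [← h2, neg_zero]
      · have h3 := Phi1_refl H.hΦ h2 (by linarith [H.th2]) hx
        have h4 := H.hΦ.even (UU (-x) t) (by rwa [UU_im])
        rw [UU_neg, neg_neg] at h4
        rw [h4]; exact h3
    apply ok_of U2 hv.le h0 hm
    · intro y _ _; rw [e3, se_cl_neg]
    · rw [← bridge_cl H.hΦ H.h0 hx U2.ht]; exact lt_of_le_of_lt hΦ2 hE
    · rw [e3, neg_im, abs_neg, abs_of_nonneg h0]; exact hB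
    · exact hB

/-- the real part of the contour -/
theorem ok_real (H : ClH Φ θ xc b v1) {v : ℂ} {L : ℝ} (hr : v1 ≤ |v.re|) (hr2 : |v.re| ≤ 1 / 2)
    (hi : v.im = 0) (hL : LL Φ θ xc b (Real.pi * v1) (Real.pi * bl θ v1)
      - Real.pi * v1 * (Real.pi * bl θ v1 - Real.pi * v.im) ≤ Real.pi * L) :
    EdgeOK (.op v) (.cl 1) L := by
  have hpi := Real.pi_pos
  set w : ℂ := ((v1 : ℝ) : ℂ) with hw
  have r1 : w.re = v1 := by simp [hw]
  have r2 : w.im = 0 := by simp [hw]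
  have hwv : |w.re| < 1 / 2 := by rw [r1, abs_of_pos H.v0]; exact H.vh
  have hb0 : 0 ≤ bl θ v1 :=
    bl_nonneg H.θ0 H.th2 (by rw [abs_of_pos H.v0]; exact H.vh.le)
  obtain ⟨x, t, a1, a2, a3, a4, a5, a6⟩ := coord hwv
  have hx : 0 ≤ x := a5 (by rw [r1]; exact H.v0.le)
  obtain ⟨t0, t1, -⟩ := t_le H.θ0 H.th2 hwv (by rw [r2]) a1 a3 a4
  have t1' : t ≤ θ := t1 (by rw [r1, r2]; exact hb0)
  obtain ⟨U1, -⟩ := uh_of H hx t0 t1' (by rw [a3, r1])
  obtain ⟨b1, b2⟩ := below H (Y := 0) le_rfl (by positivity)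
  have hg : gd (UU x t) = UU (Real.pi * v1) 0 := by
    rw [gd_eta, a3, a4, r1, r2, mul_zero]; rfl
  rw [hi, mul_zero] at hL
  have hE : (Φ (gd (UU x t) / (Real.pi : ℂ))).re < L := by
    rw [hg]
    exact lt_of_mul_lt_mul_left (b1.trans_le hL) hpi.le
  have hB : 0 < L := by
    have := b2.trans_le hL
    rw [mul_zero] at this
    exact (pos_iff_pos_of_mul_pos this).1 hpi
  have hm : ‖sin (Real.pi * v)‖ ^ 2 ≤ 1 := by
    rw [sin_norm, hi, mul_zero, Real.sinh_zero]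
    have := Real.sin_sq_add_cos_sq (Real.pi * v.re)
    have := sq_nonneg (Real.cos (Real.pi * v.re))
    linarith
  apply ok_of U1 hr2 hi.ge hm
  · intro y h0 h1
    rw [a2]
    have key : EE (.cl 1) (.op ((|v.re| : ℝ) : ℂ)) y ≤ EE (.cl 1) (.op w) y := by
      have := real_anti (a := v1) (b := |v.re|) (t := y.re) (η := y.im) H.v0.le hr hr2 h0 h1
      rwa [re_add_im] at this
    rcases le_total 0 v.re with hs | hs
    · have e : ((|v.re| : ℝ) : ℂ) = v := by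
        rw [abs_of_nonneg hs]
        apply Complex.ext
        · simp
        · simp [hi]
      rwa [e] at key
    · have e : ((|v.re| : ℝ) : ℂ) = -v := by
        rw [abs_of_nonpos hs]
        apply Complex.ext
        · simp
        · simp [hi]
      rwa [e, se_cl_neg] at key
  · rw [← bridge_cl H.hΦ H.h0 hx U1.ht]; exact hE
  · rw [a2, r2, abs_zero, mul_zero]; exact hB
  · rw [hi, mul_zero]; exact hB

/-- the estimate of a closed edge on the contour -/
theorem W1c (H : ClH Φ θ xc b v1) (P1 : 2 * lam * (1 + 2 * r * v1) ≤ v1)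
    (P2 : 2 * lam * (1 - 2 * r * v1) ≤ (4 * b + 1) * v1) {v : ℂ} (hv : v ∈ G0 θ v1)
    (hne : v ≠ gdv (UU xc θ)) : EdgeOK (.op v) (.cl 1) (Lcl θ xc b v1 r lam v) := by
  rcases hv with ⟨h1, h2⟩ | ⟨h1, h2, h3⟩ | ⟨h1, h2, h3⟩
  · exact ok_line H h1 h2 hne
  · exact ok_vert H h1 h2 h3 (L_ge H P1 P2 h1.ge (Or.inl h1) h2 h3)
  · have hb0 : 0 ≤ bl θ v1 :=
      bl_nonneg H.θ0 H.th2 (by rw [abs_of_pos H.v0]; exact H.vh.le)
    exact ok_real H h1 h2 h3 (L_ge H P1 P2 h1 (Or.inr h3) h3.ge (by rw [h3]; exact hb0))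

/-- the estimate at the critical point -/
theorem W2c (H : ClH Φ θ xc b v1) : EdgeC (.op (gdv (UU xc θ))) (.cl 1) (yc (UU xc θ))
    (EE (.op (gdv (UU xc θ))) (.cl 1) (yc (UU xc θ))) := by
  have hpi := Real.pi_pos
  have hθ := H.at'
  have him : |(UU xc θ).im| < Real.pi / 2 := by rwa [UU_im]
  have hY := Ya_eq (x := xc) hθ
  have hY0 : 0 < Ya xc θ := by rw [Ya]; exact gd_im_pos H.θ0 H.th2
  have hi0 : 0 < (gdv (UU xc θ)).im := by
    rw [hY] at hY0
    exact (pos_iff_pos_of_mul_pos hY0).1 hpi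
  have hR := Ra_eq (x := xc) hθ
  have hZ := H.Z_pos (x := xc) H.xc0.le H.hR.le
  have e1 : LL Φ θ xc b (Ra xc θ) (Ya xc θ)
      = Real.pi * EE (.op (gdv (UU xc θ))) (.cl 1) (yc (UU xc θ)) := by
    rw [FF_eq H, LL, VV]; ring
  rw [e1, hY] at hZ
  have hB := lt_of_mul_lt_mul_left hZ hpi.le
  have hvre := (gdv_re_lt him).le
  have hm := sin_norm_le H.θ0 H.θ1 hi0.le (im_eq_bl hθ xc).le
  obtain ⟨U, -⟩ := uh_of H H.xc0.le H.θ0.le le_rfl H.hR.le
  refine ⟨?_, ?_, rfl, 1, _, _, pgn_one U.y1, ?_, 0, by norm_num, ?_, ?_, rfl⟩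
  · simp only [B0]; linarith
  · intro y hy
    rw [EE_op_cl]
    have h := mid_le hvre hm hy.1 hy.2
    rw [abs_of_pos hi0] at h
    linarith
  · apply pol_of (L := EE (.op (gdv (UU xc θ))) (.cl 1) (yc (UU xc θ))) U
    · intro y _ _ h
      left
      rw [EE_op_cl]; exact h
    · intro τ hτ
      by_cases h : τ = (yc (UU xc θ)).re
      · right
        rw [h]; exact re_add_im _
      · left
        rw [EE_op_cl, EE_op_cl]
        exact flat_lt U.hy hτ.1 hτ.2 h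
    · rw [EE_op_cl]
    · rw [abs_of_pos hi0]; exact hB
  · simpa using yc_re_pos him
  · simpa using yc_re_lt him

end Pool.Agent.S3.Cl
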