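import Pool.Agent.S3.Cl.TwoReg

/-!
# Stage 3: closed ends next to an inner `2`: a sharper lower bound of `x`
-/

set_option autoImplicit false

namespace Pool.Agent.S3.Cl

namespace RegQ

variable {P q : ℝ}

theorem P_line (H : RegQ P q) (h0 : 1579 / 1000 ≤ q) :
    402 / 1000 + 337 / 100 * (q - 1579 / 1000) ≤ P := by
  have h1 := H.q_le
  have hN := H.hN2
  by_contra hc
  push Not at hc
  -- `N` is decreasing in `P`
  have h2 : 4 * (402 / 1000 + 337 / 100 * (q - 1579 / 1000)) ^ 2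
      - 2 * (402 / 1000 + 337 / 100 * (q - 1579 / 1000)) * (q ^ 2 + 1) + q ^ 4 - q ^ 2 + 1
      ≤ 4 * P ^ 2 - 2 * P * (q ^ 2 + 1) + q ^ 4 - q ^ 2 + 1 := by
    nlinarith
  have h3 : 4 < q * (4 * (402 / 1000 + 337 / 100 * (q - 1579 / 1000)) ^ 2
      - 2 * (402 / 1000 + 337 / 100 * (q - 1579 / 1000)) * (q ^ 2 + 1) + q ^ 4 - q ^ 2 + 1) := by
    obtain ⟨r, hr⟩ : ∃ r, r = q - 1579 / 1000 := ⟨_, rfl⟩
    have e : q = r + 1579 / 1000 := by rw [hr]; ring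
    have r0 : 0 ≤ r := by rw [hr]; linarith
    have r1 : r ≤ 91 / 1000 := by rw [hr]; linarith
    rw [e]
    nlinarith [mul_nonneg r0 (sub_nonneg.2 r1), mul_nonneg r0 r0,
      mul_nonneg (mul_nonneg r0 r0) r0, mul_nonneg (mul_nonneg r0 r0) (mul_nonneg r0 r0),
      mul_nonneg (mul_nonneg r0 r0) (mul_nonneg (mul_nonneg r0 r0) r0)]
  have h4 := mul_le_mul_of_nonneg_left h2 H.qp.le
  linarith

/-- lower bound of `x` -/
theorem R2s (H : RegQ P q) (hq : 2 ≤ 34846 / 10000 * (q ^ 2 / 4)) :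
    14846 / 10000 * (q ^ 2 / 4) * (34846 / 10000 * (q ^ 2 / 4) - 2) ≤ P ^ 2 := by
  have h1 := H.q_le
  have h00 := H.q_ge
  rcases le_total q (1579 / 1000) with h0 | h0
  · have h2 := H.P_ge
    have h3 : (2 / 5) ^ 2 ≤ P ^ 2 := pow_le_pow_left₀ (by norm_num) h2 2
    have h4 : q ^ 2 / 4 ≤ 62332 / 100000 := by nlinarith
    nlinarith
  · have hm := H.P_line h0
    have h5 : 0 ≤ 402 / 1000 + 337 / 100 * (q - 1579 / 1000) := by linarith
    have h6 : (402 / 1000 + 337 / 100 * (q - 1579 / 1000)) ^ 2 ≤ P ^ 2 :=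
      pow_le_pow_left₀ h5 hm 2
    refine le_trans ?_ h6
    obtain ⟨r, hr⟩ : ∃ r, r = q - 1579 / 1000 := ⟨_, rfl⟩
    have e : q = r + 1579 / 1000 := by rw [hr]; ring
    have r0 : 0 ≤ r := by rw [hr]; linarith
    have r1 : r ≤ 91 / 1000 := by rw [hr]; linarith
    rw [e]
    nlinarith [mul_nonneg r0 (sub_nonneg.2 r1), mul_nonneg r0 r0,
      mul_nonneg (mul_nonneg r0 r0) (sub_nonneg.2 r1),
      mul_nonneg (mul_nonneg (mul_nonneg r0 r0) r0) (sub_nonneg.2 r1)]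

end RegQ

end Pool.Agent.S3.Cl
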