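import Pool.Agent.S3.Cl.Rng2c

/-!
# Stage 3: closed ends next to an inner `2`: the corners of the region
-/

set_option autoImplicit false

namespace Pool.Agent.S3.Cl

namespace RegQ

variable {P q : ℝ}

theorem P_ge424 (H : RegQ P q) : 424 / 1000 ≤ P := by
  have h0 := H.q_ge
  have h1 := H.q_le
  have hP := H.P_ge
  rcases H.hD with h | h
  · by_contra hc
    push Not at hc
    have hq2 : q ^ 2 ≤ 27889 / 10000 := by nlinarith
    have h5 : 0 ≤ 5 * P - 2 := by linarith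
    have h6 := mul_le_mul_of_nonneg_right hq2 h5
    nlinarith [mul_nonneg (sub_nonneg.2 hP) (sub_nonneg.2 hc.le)]
  · linarith

/-- `2/5 ≤ θ` -/
theorem T40 (H : RegQ P q) :
    3033 / 10000 * (q ^ 2 / 4) * (2 - 16967 / 10000 * (q ^ 2 / 4)) ≤ P ^ 2 := by
  have hP := H.P_ge424
  have h3 : (424 / 1000) ^ 2 ≤ P ^ 2 := pow_le_pow_left₀ (by norm_num) hP 2
  nlinarith [sq_nonneg (q ^ 2 / 4 - 5894 / 10000)]

theorem q_le166 (H : RegQ P q) : q ≤ 16596 / 10000 := by
  have h1 := H.q_le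
  have hN := H.hN2
  have hP := H.P_le
  by_contra hc
  push Not at hc
  have h2 : 4 * (1541 / 10000 + 374 / 1000 * q) ^ 2
      - 2 * (1541 / 10000 + 374 / 1000 * q) * (q ^ 2 + 1) + q ^ 4 - q ^ 2 + 1
      ≤ 4 * P ^ 2 - 2 * P * (q ^ 2 + 1) + q ^ 4 - q ^ 2 + 1 := by
    have hq2 : 275 / 100 ≤ q ^ 2 := by nlinarith
    nlinarith [mul_nonneg (sub_nonneg.2 hP) (show 0 ≤ q ^ 2 + 1 - 2 * P
      - 2 * (1541 / 10000 + 374 / 1000 * q) by nlinarith)]
  have h3 : 4 < q * (4 * (1541 / 10000 + 374 / 1000 * q) ^ 2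
      - 2 * (1541 / 10000 + 374 / 1000 * q) * (q ^ 2 + 1) + q ^ 4 - q ^ 2 + 1) := by
    obtain ⟨r, hr⟩ : ∃ r, r = q - 16596 / 10000 := ⟨_, rfl⟩
    have e : q = r + 16596 / 10000 := by rw [hr]; ring
    have r0 : 0 ≤ r := by rw [hr]; linarith
    rw [e]
    have r2 := mul_nonneg r0 r0
    have r3 := mul_nonneg r2 r0
    have r4 := mul_nonneg r3 r0
    have r5 := mul_nonneg r4 r0
    nlinarith
  have h4 := mul_le_mul_of_nonneg_left h2 H.qp.le
  linarith

/-- `I ≤ .4918` -/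
theorem I4918 (H : RegQ P q) : P ^ 2 ≤ 1322576 / 1000000 - 1048 / 1000 * (q ^ 2 / 4) := by
  have h0 := H.q_ge
  have h1 := H.q_le166
  have hP0 := H.P0
  have h2 := pow_le_pow_left₀ hP0 H.P_le 2
  nlinarith

/-- `x ≤ 193/200` if the third vertex is open -/
theorem X965 (H : RegQ P q)
    (hN : 13924 / 10000 ≤ q * (4 * P ^ 2 - 2 * P * (q ^ 2 + 1) + q ^ 4 - q ^ 2 + 1)) :
    P ^ 2 ≤ 2517 / 1000 * (q ^ 2 / 4) * (4517 / 1000 * (q ^ 2 / 4) - 2) := by
  have h0 := H.q_ge43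
  have h1 := H.q_le166
  have hP0 := H.P0
  have hPl := H.P_le
  rcases le_total q (138 / 100) with h | h
  · exfalso
    have hP := H.P_ge43 (by linarith)
    have hP3 : P ≤ 6703 / 10000 := by linarith
    have h2 : 4 * P ^ 2 ≤ 4 * (11003 / 10000 * P - 288229 / 1000000) := by nlinarith
    have hq2 : q ^ 2 ≤ 19044 / 10000 := by nlinarith
    have hq3 : 16 / 9 ≤ q ^ 2 := by nlinarith
    have h3 : 4 * P ^ 2 - 2 * P * (q ^ 2 + 1) + q ^ 4 - q ^ 2 + 1 ≤ 1 := by
      nlinarith [mul_nonneg (sub_nonneg.2 hP) (sub_nonneg.2 hq3)]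
    nlinarith
  · rcases le_total q (14485 / 10000) with h' | h'
    · by_contra hc
      push Not at hc
      have hl : 4247 / 10000 + 396 / 100 * (q - 138 / 100) ≤ P := by
        by_contra h5
        push Not at h5
        have h6 : P ^ 2 ≤ (4247 / 10000 + 396 / 100 * (q - 138 / 100)) ^ 2 :=
          pow_le_pow_left₀ hP0 h5.le 2
        have h7 : (4247 / 10000 + 396 / 100 * (q - 138 / 100)) ^ 2
            ≤ 2517 / 1000 * (q ^ 2 / 4) * (4517 / 1000 * (q ^ 2 / 4) - 2) := by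
          obtain ⟨r, hr⟩ : ∃ r, r = q - 138 / 100 := ⟨_, rfl⟩
          have e : q = r + 138 / 100 := by rw [hr]; ring
          have r0 : 0 ≤ r := by rw [hr]; linarith
          have r1 : r ≤ 685 / 10000 := by rw [hr]; linarith
          rw [e]
          have r2 := mul_nonneg r0 (sub_nonneg.2 r1)
          have r3 := mul_nonneg r0 r0
          have r4 := mul_nonneg r3 r0
          nlinarith
        linarith
      have h2 : 4 * P ^ 2 - 2 * P * (q ^ 2 + 1) + q ^ 4 - q ^ 2 + 1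
          ≤ 4 * (4247 / 10000 + 396 / 100 * (q - 138 / 100)) ^ 2
          - 2 * (4247 / 10000 + 396 / 100 * (q - 138 / 100)) * (q ^ 2 + 1) + q ^ 4 - q ^ 2 + 1 := by
        nlinarith [mul_nonneg (sub_nonneg.2 hl) (show 0 ≤ q ^ 2 + 1 - 2 * P
          - 2 * (4247 / 10000 + 396 / 100 * (q - 138 / 100)) by nlinarith)]
      have h3 : q * (4 * (4247 / 10000 + 396 / 100 * (q - 138 / 100)) ^ 2
          - 2 * (4247 / 10000 + 396 / 100 * (q - 138 / 100)) * (q ^ 2 + 1) + q ^ 4 - q ^ 2 + 1)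
          < 13924 / 10000 := by
        obtain ⟨r, hr⟩ : ∃ r, r = q - 138 / 100 := ⟨_, rfl⟩
        have e : q = r + 138 / 100 := by rw [hr]; ring
        have r0 : 0 ≤ r := by rw [hr]; linarith
        have r1 : r ≤ 685 / 10000 := by rw [hr]; linarith
        rw [e]
        have r2 := mul_nonneg r0 (sub_nonneg.2 r1)
        have r3 := mul_nonneg r0 r0
        have r4 := mul_nonneg r3 (sub_nonneg.2 r1)
        have r5 := mul_nonneg (mul_nonneg r3 r0) (sub_nonneg.2 r1)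
        nlinarith
      have h4 := mul_le_mul_of_nonneg_left h2 H.qp.le
      linarith
    · have h2 := pow_le_pow_left₀ hP0 hPl 2
      have hq3 : 209815 / 100000 ≤ q ^ 2 := by nlinarith
      nlinarith

end RegQ

end Pool.Agent.S3.Cl
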