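import Pool.Agent.S3.Cl.PbNum
import Pool.Agent.S3.Cl.Rng3i
import Pool.Agent.S3.Cl.TwoReg2
import Pool.Agent.S3.Cl.TwoReg3

/-!
# Stage 3: the mean of the open edge at an inner `2` whose other neighbour is a closed end

`P = π/2 - im q - b R`, `b = bw (z i) (z k)`: `-9/25 ≤ P/b ≤ 9/20`, `b ≤ 167/100`.
-/

set_option autoImplicit false

namespace Pool.Agent.S3.Cl

open Complex Pool.Agent.S3
open Pool.Agent.S3.E (Zr uu qe qo bw xx th k2 s2 bo ro be ph)

/-- the norm of `b₂` -/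
theorem regQ_N {κ b₁ b₂ : ℂ} (h1 : b₁ ^ 2 = I / 2 * κ)
    (hq : 4 * (κ ^ 2) ^ 2 - 4 * (b₁ * b₂) * κ ^ 2 + (b₁ + b₂) ^ 2 = 0)
    (v0 : 0 < b₁.im) (uv : b₁.im ≤ b₁.re) (d0 : 0 ≤ b₂.im) :
    4 * ‖b₂‖ ^ 2 = 2 * ‖κ‖ * (4 * (-2 * κ.im) ^ 2 - 2 * (-2 * κ.im) * ((2 * ‖κ‖) ^ 2 + 1)
      + (2 * ‖κ‖) ^ 4 - (2 * ‖κ‖) ^ 2 + 1) := by
  have hκ : κ = -2 * I * b₁ ^ 2 := by
    rw [h1]
    linear_combination κ * I_sq
  set u := b₁.re with hu
  set v := b₁.im with hv
  have eb : b₁ = (u : ℂ) + v * I := (re_add_im b₁).symm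
  have eκ : κ = ((4 * (u * v) : ℝ) : ℂ) + ((-2 * (u ^ 2 - v ^ 2) : ℝ) : ℂ) * I := by
    rw [hκ, eb]
    push_cast
    linear_combination (-4 * (u : ℂ) * v - 2 * v ^ 2 * I) * I_sq
  have kim : κ.im = -2 * (u ^ 2 - v ^ 2) := by
    rw [eκ, add_im, ofReal_im, im_ofReal_mul, I_im, mul_one, zero_add]
  have knorm : ‖κ‖ = 2 * (u ^ 2 + v ^ 2) := by
    rw [hκ, norm_mul, norm_mul, norm_neg, norm_pow, norm_I]
    have : ‖b₁‖ ^ 2 = u ^ 2 + v ^ 2 := by
      rw [← normSq_eq_norm_sq, normSq_apply]; ring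
    rw [this]
    norm_num
  have nb2 : ‖b₂‖ ^ 2 = b₂.re ^ 2 + b₂.im ^ 2 := by
    rw [← normSq_eq_norm_sq, normSq_apply]; ring
  rw [kim, knorm, nb2]
  rcases two_rel h1 hq with h | h
  · have e5 : b₂ = ((-(u * (16 * (u ^ 4 - 10 * u ^ 2 * v ^ 2 + 5 * v ^ 4)
        - 4 * (u ^ 2 - 3 * v ^ 2) + 1)) : ℝ) : ℂ)
        + ((-(v * (16 * (5 * u ^ 4 - 10 * u ^ 2 * v ^ 2 + v ^ 4)
        - 4 * (3 * u ^ 2 - v ^ 2) + 1)) : ℝ) : ℂ) * I := by
      rw [h, eb]
      have i2 := I_sq
      have i3 : I ^ 3 = -I := by rw [pow_succ, I_sq]; ring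
      have i4 : I ^ 4 = 1 := by norm_num
      have i5 : I ^ 5 = I := by rw [pow_succ, i4]; ring
      push_cast
      ring_nf
      rw [i2, i3, i4, i5]
      ring
    have re5 := congrArg Complex.re e5
    have im5 := congrArg Complex.im e5
    rw [add_re, ofReal_re, re_ofReal_mul, I_re, mul_zero, add_zero] at re5
    rw [add_im, ofReal_im, im_ofReal_mul, I_im, mul_one, zero_add] at im5
    rw [re5, im5]
    ring
  · exfalso
    have e5 : b₂ = ((-(u * (1 + 4 * (u ^ 2 - 3 * v ^ 2))) : ℝ) : ℂ)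
        + ((-(v * (1 + 4 * (3 * u ^ 2 - v ^ 2))) : ℝ) : ℂ) * I := by
      rw [h, eb]
      have i2 := I_sq
      have i3 : I ^ 3 = -I := by rw [pow_succ, I_sq]; ring
      push_cast
      ring_nf
      rw [i2, i3]
      ring
    have im5 := congrArg Complex.im e5
    rw [add_im, ofReal_im, im_ofReal_mul, I_im, mul_one, zero_add] at im5
    have huv : v ^ 2 ≤ u ^ 2 := pow_le_pow_left₀ v0.le uv 2
    have h6 : 0 < 1 + 4 * (3 * u ^ 2 - v ^ 2) := by linarith only [sq_nonneg u, huv]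
    have := mul_pos v0 h6
    linarith

section

variable {ι : Type*} [Finite ι] {a : ι → ℝ} {nl nr : ι → Option ι} {z : ι → ℂ}

omit [Finite ι] in
/-- the norm of `cos z` at the third vertex -/
theorem regQ_norm (h : Zr a nl nr 1 z) {i j k : ι} (hj : Zr.IsEnd2 a nl nr j i) (ha : a i = 2)
    (hk : nl i = some k ∨ nr i = some k) (hkj : k ≠ j) :
    4 * ‖cos (z k)‖ ^ 2 = 2 * ‖cos (z i)‖ *
      (4 * (-2 * (cos (z i)).im) ^ 2 - 2 * (-2 * (cos (z i)).im) * ((2 * ‖cos (z i)‖) ^ 2 + 1)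
      + (2 * ‖cos (z i)‖) ^ 4 - (2 * ‖cos (z i)‖) ^ 2 + 1) := by
  have hji := hji_of hj
  have hij := h.N.symm j i hji
  have hq := h.quartic i ha
  have hq' : 4 * (cos (z i) ^ 2) ^ 2 - 4 * (bo 1 z (some j) * bo 1 z (some k)) * cos (z i) ^ 2 +
      (bo 1 z (some j) + bo 1 z (some k)) ^ 2 = 0 := by
    rcases hij with e | e
    · rcases hk with e' | e'
      · exact absurd (Option.some.inj (e'.symm.trans e)) hkj
      · rw [e, e'] at hq; exact hq
    · rcases hk with e' | e'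
      · rw [e, e'] at hq; linear_combination hq
      · exact absurd (Option.some.inj (e'.symm.trans e)) hkj
  have h1 : bo 1 z (some j) ^ 2 = I / 2 * cos (z i) := by
    have h2 := h.end2 hj.1 hj.2
    rw [h.bo_one] at h2 ⊢
    have h3 := congrArg (starRingEnd ℂ) h2
    rw [map_mul, map_mul, map_neg, conj_I, conj_conj, map_pow, Complex.conj_ofNat] at h3
    linear_combination h3 / 2
  have h2 := regQ_N h1 hq' (by
    rw [h.bo_im]
    apply mul_pos (h.ro_pos j)
    apply Real.sin_pos_of_pos_of_lt_pi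
    · rw [Zr.be_one]; exact h.phpos j
    · have := h.be_le (some j)
      linarith [Real.pi_pos]) (h.bo_im_le _) (h.bo_im_nonneg _)
  rwa [h.bo_one k, norm_conj] at h2

/-- `39/50 ≤ x` -/
theorem xx_ge78_end2 (h : Zr a nl nr 1 z) {i j : ι} (hj : Zr.IsEnd2 a nl nr j i) (ha : a i = 2)
    (hin : ∃ l r, nl i = some l ∧ nr i = some r) : 39 / 50 ≤ xx (z i).re (z i).im := by
  have H := regQ h hj ha hin
  have hk := h.k2pos i
  have e := E.cosh_two_xx (h.pos i).1 (h.pos i).2.1 (h.pos i).2.2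
  have e2 := s2_sq h i
  have e3 := s2_nn h i
  rw [k2_eq h i] at hk e
  set K := ‖cos (z i)‖ with hK
  set P := -2 * (cos (z i)).im with hP
  have h2 : 24846 / 10000 * K ^ 2 - 1 ≤ s2 (z i).re (z i).im := by
    by_contra hc
    push Not at hc
    have h3 : s2 (z i).re (z i).im ^ 2 < (24846 / 10000 * K ^ 2 - 1) ^ 2 :=
      pow_lt_pow_left₀ hc e3 two_ne_zero
    rw [e2] at h3
    have h4 : 2 ≤ 34846 / 10000 * ((2 * K) ^ 2 / 4) := by
      by_contra h5
      push Not at h5
      nlinarith only [h3, h5]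
    have h5 := H.R2s h4
    linarith only [h3, h5]
  have h4 : Real.cosh (39 / 25) ≤ Real.cosh (2 * xx (z i).re (z i).im) := by
    rw [e, le_div_iff₀ hk]
    have h5 : Real.cosh (39 / 25) ≤ 24846 / 10000 := by
      -- `cosh (39/25) = 2 cosh² (39/50) - 1`
      have b0 : Real.cosh (39 / 25) = 2 * Real.cosh (39 / 50) ^ 2 - 1 := by
        rw [show (39 : ℝ) / 25 = 2 * (39 / 50) by norm_num, Real.cosh_two_mul, Real.sinh_sq]; ring
      have b1 : Real.cosh (39 / 50) = 2 * Real.cosh (39 / 100) ^ 2 - 1 := by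
        rw [show (39 : ℝ) / 50 = 2 * (39 / 100) by norm_num, Real.cosh_two_mul, Real.sinh_sq]; ring
      have b2 := pb_ch6 (x := 39 / 100) (by norm_num) (by norm_num)
      have b3 := Real.cosh_pos (39 / 100 : ℝ)
      have b4 : Real.cosh (39 / 100) ≤ 1077021 / 1000000 := by
        norm_num at b2
        linarith
      have b5 : Real.cosh (39 / 50) ≤ 1319949 / 1000000 := by
        rw [b1]
        nlinarith only [b3, b4]
      have b6 := Real.cosh_pos (39 / 50 : ℝ)
      rw [b0]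
      nlinarith only [b5, b6]
    nlinarith only [h2, h5]
  have h5 := Real.cosh_le_cosh.1 h4
  rw [abs_of_pos (by linarith [h.xxpos i] : 0 < 2 * xx (z i).re (z i).im),
    abs_of_pos (by norm_num : (0 : ℝ) < 39 / 25)] at h5
  linarith

/-- the identities of the coordinates -/
theorem ids (h : Zr a nl nr 1 z) (i : ι) :
    Real.sin (z i).re * Real.cos (th (z i).re (z i).im)
      = Real.sinh (xx (z i).re (z i).im) * Real.cos (z i).re ∧
    Real.sin (th (z i).re (z i).im) * Real.cosh (z i).im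
      = Real.sinh (z i).im * Real.cosh (xx (z i).re (z i).im) := by
  have hθ := abs_th h i
  have hg := h.gd_uu i
  have hRa : Ra (xx (z i).re (z i).im) (th (z i).re (z i).im) = (z i).re := by rw [Ra, hg]
  have hYa : Ya (xx (z i).re (z i).im) (th (z i).re (z i).im) = (z i).im := by rw [Ya, hg]
  have h1 := RaS (x := xx (z i).re (z i).im) hθ
  have h2 := sin_ch (x := xx (z i).re (z i).im) hθ
  rw [hRa] at h1
  rw [hYa] at h2
  exact ⟨h1, h2⟩

omit [Finite ι] in
/-- `cosh I = |κ| cosh x`, squared -/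
theorem cosh_im_sq (h : Zr a nl nr 1 z) (i : ι) :
    Real.cosh (z i).im ^ 2 = ‖cos (z i)‖ ^ 2 * Real.cosh (xx (z i).re (z i).im) ^ 2 := by
  have hk := h.k2pos i
  have e := E.cosh_two_xx (h.pos i).1 (h.pos i).2.1 (h.pos i).2.2
  have eI := cosh_two_im h i
  rw [k2_eq h i, eq_div_iff (by rw [k2_eq h i] at hk; exact hk.ne')] at e
  rw [Real.cosh_two_mul, Real.sinh_sq] at e eI
  linarith

/-- `2/5 ≤ θ` -/
theorem th_ge40_end2 (h : Zr a nl nr 1 z) {i j : ι} (hj : Zr.IsEnd2 a nl nr j i) (ha : a i = 2)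
    (hin : ∃ l r, nl i = some l ∧ nr i = some r) : 2 / 5 ≤ th (z i).re (z i).im := by
  have H := regQ h hj ha hin
  have hP := H.T40
  have hk := h.k2pos i
  have ec := E.cos_two_th (h.pos i).1 (h.pos i).2.1 (h.pos i).2.2
  have e2 := s2_sq h i
  have e3 := s2_nn h i
  rw [k2_eq h i] at hk ec
  set K := ‖cos (z i)‖ with hK
  set P := -2 * (cos (z i)).im with hPd
  have h2 : 1 - 6967 / 10000 * K ^ 2 ≤ s2 (z i).re (z i).im := by
    by_contra hc
    push Not at hc
    have h3 : s2 (z i).re (z i).im ^ 2 < (1 - 6967 / 10000 * K ^ 2) ^ 2 :=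
      pow_lt_pow_left₀ hc e3 two_ne_zero
    rw [e2] at h3
    linarith only [hP, h3]
  have h4 : Real.cos (2 * th (z i).re (z i).im) ≤ 6967 / 10000 := by
    rw [ec, div_le_iff₀ hk]
    linarith
  have h5 : (6967 : ℝ) / 10000 ≤ Real.cos (4 / 5) := by
    have := n_c6 (x := 4 / 5) (by norm_num)
    norm_num at this
    linarith
  by_contra hc
  push Not at hc
  have h6 := h.thpos i
  have hpi := Real.pi_gt_three
  have h7 : Real.cos (4 / 5) < Real.cos (2 * th (z i).re (z i).im) :=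
    Real.cos_lt_cos_of_nonneg_of_le_pi (by linarith) (by linarith) (by linarith)
  linarith

/-- `x ≤ 193/200` if the other neighbour is open -/
theorem xx_le965_end2 (h : Zr a nl nr 1 z) {i j k : ι} (hj : Zr.IsEnd2 a nl nr j i) (ha : a i = 2)
    (hk : nl i = some k ∨ nr i = some k) (hkj : k ≠ j)
    (hin : ∃ l r, nl i = some l ∧ nr i = some r) (hk59 : 59 / 100 ≤ ‖cos (z k)‖) :
    xx (z i).re (z i).im ≤ 193 / 200 := by
  have H := regQ h hj ha hin
  have hN := regQ_norm h hj ha hk hkj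
  have hk2 : (59 / 100) ^ 2 ≤ ‖cos (z k)‖ ^ 2 := pow_le_pow_left₀ (by norm_num) hk59 2
  have h1 := H.X965 (by rw [← hN]; linarith)
  have hkp := h.k2pos i
  have e := E.cosh_two_xx (h.pos i).1 (h.pos i).2.1 (h.pos i).2.2
  have e2 := s2_sq h i
  have e3 := s2_nn h i
  have hq := H.q_ge43
  rw [k2_eq h i] at hkp e
  set K := ‖cos (z i)‖ with hK
  set P := -2 * (cos (z i)).im with hP
  have h2 : s2 (z i).re (z i).im ≤ 3517 / 1000 * K ^ 2 - 1 := by
    by_contra hc
    push Not at hc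
    have h3 : (3517 / 1000 * K ^ 2 - 1) ^ 2 < s2 (z i).re (z i).im ^ 2 :=
      pow_lt_pow_left₀ hc (by nlinarith only [hq]) two_ne_zero
    rw [e2] at h3
    linarith only [h1, h3]
  have h4 : Real.cosh (2 * xx (z i).re (z i).im) ≤ Real.cosh (193 / 100) := by
    rw [e, div_le_iff₀ hkp]
    have h5 : 3517 / 1000 ≤ Real.cosh (193 / 100) := by
      have b0 : Real.cosh (193 / 100) = 2 * Real.cosh (193 / 200) ^ 2 - 1 := by
        rw [show (193 : ℝ) / 100 = 2 * (193 / 200) by norm_num, Real.cosh_two_mul, Real.sinh_sq]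
        ring
      have b1 : Real.cosh (193 / 200) = 2 * Real.cosh (193 / 400) ^ 2 - 1 := by
        rw [show (193 : ℝ) / 200 = 2 * (193 / 400) by norm_num, Real.cosh_two_mul, Real.sinh_sq]
        ring
      have b2 : Real.cosh (193 / 400) = 2 * Real.cosh (193 / 800) ^ 2 - 1 := by
        rw [show (193 : ℝ) / 400 = 2 * (193 / 800) by norm_num, Real.cosh_two_mul, Real.sinh_sq]
        ring
      have b3 := n_ch4 (x := 193 / 800) (by norm_num)
      norm_num at b3
      have b4 : 1118676 / 1000000 ≤ Real.cosh (193 / 400) := by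
        rw [b2]; nlinarith only [b3]
      have b5 : 1502860 / 1000000 ≤ Real.cosh (193 / 200) := by
        rw [b1]; nlinarith only [b4]
      rw [b0]
      nlinarith only [b5]
    nlinarith only [h2, h5]
  have h5 := Real.cosh_le_cosh.1 h4
  rw [abs_of_pos (by linarith [h.xxpos i] : 0 < 2 * xx (z i).re (z i).im),
    abs_of_pos (by norm_num : (0 : ℝ) < 193 / 100)] at h5
  linarith

/-- `I ≤ 2459/5000` and `|κ|² ≤ 68857/100000` -/
theorem im_le_end2 (h : Zr a nl nr 1 z) {i j : ι} (hj : Zr.IsEnd2 a nl nr j i) (ha : a i = 2)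
    (hin : ∃ l r, nl i = some l ∧ nr i = some r) :
    (z i).im ≤ 4918 / 10000 ∧ ‖cos (z i)‖ ^ 2 ≤ 68857 / 100000 := by
  have H := regQ h hj ha hin
  have h1 := H.I4918
  have h2 := H.q_le166
  have eI := cosh_two_im h i
  have e2 := s2_sq h i
  have e3 := s2_nn h i
  have hI0 := (h.pos i).2.2
  have hn := norm_nonneg (cos (z i))
  set K := ‖cos (z i)‖ with hK
  set P := -2 * (cos (z i)).im with hP
  have hK2 : K ^ 2 ≤ 68857 / 100000 := by nlinarith only [h2, hn]
  refine ⟨?_, hK2⟩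
  have h3 : s2 (z i).re (z i).im ≤ 1524 / 1000 - K ^ 2 := by
    by_contra hc
    push Not at hc
    have h4 : (1524 / 1000 - K ^ 2) ^ 2 < s2 (z i).re (z i).im ^ 2 :=
      pow_lt_pow_left₀ hc (by linarith) two_ne_zero
    rw [e2] at h4
    linarith only [h1, h4]
  have h4 : Real.cosh (2 * (z i).im) ≤ Real.cosh (2459 / 2500) := by
    rw [eI]
    have b0 : Real.cosh (2459 / 2500) = 2 * Real.cosh (2459 / 5000) ^ 2 - 1 := by
      rw [show (2459 : ℝ) / 2500 = 2 * (2459 / 5000) by norm_num, Real.cosh_two_mul, Real.sinh_sq]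
      ring
    have b1 : Real.cosh (2459 / 5000) = 2 * Real.cosh (2459 / 10000) ^ 2 - 1 := by
      rw [show (2459 : ℝ) / 5000 = 2 * (2459 / 10000) by norm_num, Real.cosh_two_mul, Real.sinh_sq]
      ring
    have b3 := n_ch4 (x := 2459 / 10000) (by norm_num)
    norm_num at b3
    have b4 : 1123388 / 1000000 ≤ Real.cosh (2459 / 5000) := by
      rw [b1]; nlinarith only [b3]
    have b2 : 1524 / 1000 ≤ Real.cosh (2459 / 2500) := by
      rw [b0]
      nlinarith only [b4]
    linarith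
  have h5 := Real.cosh_le_cosh.1 h4
  rw [abs_of_pos (by linarith : 0 < 2 * (z i).im), abs_of_pos (by norm_num : (0 : ℝ) < 2459 / 2500)]
    at h5
  linarith

/-- **The open edge at an inner `2` whose other neighbour is a closed end.** -/
theorem pb_end2 (h : Zr a nl nr 1 z) {i j k : ι} (hj : Zr.IsEnd2 a nl nr j i) (ha : a i = 2)
    (hk : nl i = some k ∨ nr i = some k) (hkj : k ≠ j) (hk59 : 59 / 100 ≤ ‖cos (z k)‖) :
    (Real.pi / 2 - (qe (z i) (z k)).im - bw (z i) (z k) * (z i).re) / bw (z i) (z k) ≤ 9 / 20 ∧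
    bw (z i) (z k) ≤ 167 / 100 ∧
    -(9 / 25) ≤ (Real.pi / 2 - (qe (z i) (z k)).im - bw (z i) (z k) * (z i).re) / bw (z i) (z k) ∧
    (11 / 20 < Real.tan (th (z i).re (z i).im) ^ 2 → -(71 / 200) ≤
      (Real.pi / 2 - (qe (z i) (z k)).im - bw (z i) (z k) * (z i).re) / bw (z i) (z k)) ∧
    Real.tan (th (z i).re (z i).im) ^ 2 ≤ 63 / 100 := by
  have hij := h.N.symm j i (hji_of hj)
  have hin : ∃ l r, nl i = some l ∧ nr i = some r := by
    rcases hij with e | e
    · rcases hk with e' | e'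
      · exact absurd (Option.some.inj (e'.symm.trans e)) hkj
      · exact ⟨j, k, e, e'⟩
    · rcases hk with e' | e'
      · exact ⟨k, j, e', e⟩
      · exact absurd (Option.some.inj (e'.symm.trans e)) hkj
  have hpi := Real.pi_gt_d4
  have hpi' := Real.pi_lt_d4
  obtain ⟨i1, i2⟩ := ids h i
  have ht := th_ge40_end2 h hj ha hin
  have hx := xx_ge78_end2 h hj ha hin
  have hx1 := xx_le965_end2 h hj ha hk hkj hin hk59
  have hR31 := re_le31_end2 h hj ha hin
  obtain ⟨hI1, hK1⟩ := im_le_end2 h hj ha hin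
  have hcI := cosh_im_sq h i
  have ht63 := h.tan_th_end2 hj ha hin
  have htm : th (z i).re (z i).im ≤ 17 / 25 := by
    have h1 := sin_th_end2 h hj ha hin
    have h2 := th_le_pi4 h hin
    by_contra hc
    push Not at hc
    have h3 : Real.sin (17 / 25) < Real.sin (th (z i).re (z i).im) :=
      Real.sin_lt_sin_of_lt_of_le_pi_div_two (by linarith) (by linarith) hc
    have h4 := n_s3 (x := 17 / 25) (by norm_num)
    norm_num at h4
    nlinarith only [h1, h3, h4]
  -- the two edges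
  have hqe : qe (z i) (z j) = qcl (uu (z i)) := (h.ecrit1 hj).2
  have q1 := two_qcl_re (xx (z i).re (z i).im) (th (z i).re (z i).im)
  have q2 := two_qcl_im (xx (z i).re (z i).im) (th (z i).re (z i).im)
  have hg := h.gd_uu i
  have hRa : Ra (xx (z i).re (z i).im) (th (z i).re (z i).im) = (z i).re := by rw [Ra, hg]
  have hYa : Ya (xx (z i).re (z i).im) (th (z i).re (z i).im) = (z i).im := by rw [Ya, hg]
  have hu : UU (xx (z i).re (z i).im) (th (z i).re (z i).im) = uu (z i) := rfl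
  rw [hu, ← hqe, hYa] at q1
  rw [hu, ← hqe, hRa] at q2
  have v1 : 2 * (z i).re = Real.pi - (qe (z i) (z j)).im - (qe (z i) (z k)).im := by
    have := h.vertex_re i
    rw [ha] at this
    rcases hij with e | e
    · rcases hk with e' | e'
      · exact absurd (Option.some.inj (e'.symm.trans e)) hkj
      · rw [e, e'] at this; exact this
    · rcases hk with e' | e'
      · rw [e, e'] at this
        have e1 : qo z i (some j) = qe (z i) (z j) := rfl
        have e2 : qo z i (some k) = qe (z i) (z k) := rfl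
        rw [e1, e2] at this
        linarith
      · exact absurd (Option.some.inj (e'.symm.trans e)) hkj
  have v2 : 2 * (z i).im = (qe (z i) (z j)).re + (qe (z i) (z k)).re := by
    have := h.vertex_im i
    rw [ha] at this
    rcases hij with e | e
    · rcases hk with e' | e'
      · exact absurd (Option.some.inj (e'.symm.trans e)) hkj
      · rw [e, e'] at this; exact this
    · rcases hk with e' | e'
      · rw [e, e'] at this
        have e1 : qo z i (some j) = qe (z i) (z j) := rfl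
        have e2 : qo z i (some k) = qe (z i) (z k) := rfl
        rw [e1, e2] at this
        linarith
      · exact absurd (Option.some.inj (e'.symm.trans e)) hkj
  obtain ⟨hR0, hR1, hI0⟩ := h.pos i
  have hb0 := h.bw_pos hk
  have hb : bw (z i) (z k) * (z i).im = (qe (z i) (z k)).re := by
    rw [bw, div_mul_cancel₀ _ hI0.ne']
  have hx0 := h.xxpos i
  have hKpos := h.k2pos i
  rw [k2_eq h i] at hKpos
  have hKp : 0 < ‖cos (z i)‖ := by
    rcases (norm_nonneg (cos (z i))).eq_or_lt with e | e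
    · rw [← e] at hKpos; norm_num at hKpos
    · exact e
  obtain ⟨x, hxd⟩ : ∃ x, x = xx (z i).re (z i).im := ⟨_, rfl⟩
  obtain ⟨θ, hθd⟩ : ∃ θ, θ = th (z i).re (z i).im := ⟨_, rfl⟩
  obtain ⟨R, hRd⟩ : ∃ R, R = (z i).re := ⟨_, rfl⟩
  obtain ⟨J, hJd⟩ : ∃ J, J = (z i).im := ⟨_, rfl⟩
  obtain ⟨K, hKd⟩ : ∃ K, K = ‖cos (z i)‖ := ⟨_, rfl⟩
  obtain ⟨b, hbd⟩ : ∃ b, b = bw (z i) (z k) := ⟨_, rfl⟩
  obtain ⟨Q, hQd⟩ : ∃ Q, Q = qe (z i) (z k) := ⟨_, rfl⟩
  obtain ⟨Q', hQd'⟩ : ∃ Q', Q' = qe (z i) (z j) := ⟨_, rfl⟩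
  rw [← hxd] at hx hx1 hcI hx0
  rw [← hxd, ← hθd] at i1 i2
  rw [← hxd] at q1
  rw [← hθd] at q2
  rw [← hθd] at ht htm ht63 ⊢
  rw [← hRd] at hR31 hR0 hR1 i1 v1 q2
  rw [← hJd] at hI1 hI0 i2 v2 hb q1 hcI
  rw [← hKd] at hK1 hcI hKp
  rw [← hbd] at hb hb0 ⊢
  rw [← hQd] at v1 v2 hb ⊢
  rw [← hQd'] at v1 v2 q1 q2
  rw [← hRd]
  -- the estimates
  have c1 := pb_low hR1 hR0 hI0 i1 i2 hx (by linarith) htm
  have ch0 : Real.cosh (193 / 200) ≤ 15030 / 10000 := by
    have b1 : Real.cosh (193 / 200) = 2 * Real.cosh (193 / 400) ^ 2 - 1 := by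
      rw [show (193 : ℝ) / 200 = 2 * (193 / 400) by norm_num, Real.cosh_two_mul, Real.sinh_sq]
      ring
    have b2 := pb_ch6 (x := 193 / 400) (by norm_num) (by norm_num)
    have b3 := Real.cosh_pos (193 / 400 : ℝ)
    have b4 : Real.cosh (193 / 400) ≤ 11187 / 10000 := by
      norm_num at b2
      linarith
    rw [b1]
    nlinarith only [b2, b3]
  have sh1 : Real.sinh x ≤ 11223 / 10000 := by
    have a1 := Real.sinh_le_sinh.2 hx1
    have a2 : Real.sinh (193 / 200) ≤ 11223 / 10000 := by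
      have a3 := Real.cosh_sq (193 / 200 : ℝ)
      by_contra hc
      push Not at hc
      have a4 : (11223 / 10000) ^ 2 < Real.sinh (193 / 200) ^ 2 :=
        pow_lt_pow_left₀ hc (by norm_num) two_ne_zero
      have a5 := Real.cosh_pos (193 / 200 : ℝ)
      nlinarith only [ch0, a3, a4, a5]
    linarith
  have ch1 : Real.cosh x ≤ 15032 / 10000 := by
    have a1 : Real.cosh x ≤ Real.cosh (193 / 200) := by
      apply Real.cosh_le_cosh.2
      rw [abs_of_pos hx0, abs_of_pos (by norm_num : (0 : ℝ) < 193 / 200)]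
      exact hx1
    linarith
  have c2 := pb_up hR1 hR0 hI0 i1 i2 hx0 hx1 sh1 ch1 ht htm hR31
  have c3 := pb_b hI0 hx0 hKp hK1 hcI hI1
  have key1 : 2 * J * b = 5 * J - x := by
    linarith
  have key2 : 2 * J * (Real.pi / 2 - Q.im - b * R) = x * R + θ * J - Real.pi * J := by
    have e1 : Q.im = Real.pi - 2 * R - (θ + R) / 2 := by linarith
    rw [e1]
    linear_combination (-R) * key1
  have h2J : 0 < 2 * J := by linarith
  refine ⟨?_, ?_, ?_, ?_, ht63⟩
  · rw [div_le_iff₀ hb0]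
    apply le_of_mul_le_mul_left _ h2J
    rw [key2]
    linarith
  · apply le_of_mul_le_mul_left _ h2J
    rw [key1]
    linarith
  · rw [le_div_iff₀ hb0]
    apply le_of_mul_le_mul_left _ h2J
    rw [key2]
    linarith [c1.1]
  · intro h5
    rw [le_div_iff₀ hb0]
    apply le_of_mul_le_mul_left _ h2J
    rw [key2]
    have h6 : 127 / 200 ≤ θ := by
      by_contra hc
      push Not at hc
      have s5 := n_s5 (x := 127 / 200) (by norm_num)
      have c6 := n_c6 (x := 127 / 200) (by norm_num)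
      have a1 : Real.tan θ < Real.tan (127 / 200) :=
        Real.tan_lt_tan_of_lt_of_lt_pi_div_two (by linarith) (by linarith) hc
      have a2 : Real.tan (127 / 200) ≤ 7415 / 10000 := by
        have a3 : 0 < Real.cos (127 / 200) :=
          Real.cos_pos_of_mem_Ioo ⟨by linarith, by linarith⟩
        rw [Real.tan_eq_sin_div_cos, div_le_iff₀ a3]
        norm_num at s5 c6
        linarith
      have a4 : 0 ≤ Real.tan θ :=
        Real.tan_nonneg_of_nonneg_of_le_pi_div_two (by linarith) (by linarith)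
      nlinarith only [h5, a1, a2, a4]
    linarith [c1.2 h6]

end

end Pool.Agent.S3.Cl
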