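import Pool.Agent.S3.Cl.Pb
import Pool.Agent.S3.E.RngC

/-!
# Stage 3: the open edge at an inner `2` next to a closed end, packaged
-/

set_option autoImplicit false

namespace Pool.Agent.S3.Cl

open Complex Pool.Agent.S3
open Pool.Agent.H25.RK (gdv)
open Pool.Agent.S3.E (Zr uu qe bw xx th In2)

section

variable {ι : Type*} [Finite ι] {a : ι → ℝ} {nl nr : ι → Option ι} {z : ι → ℂ}

/-- `|cos z|` at an open neighbour of an inner `2` -/
theorem norm_open_two' (h : Zr a nl nr 1 z) {i k : ι} (ha : a i = 2) (hin : In2 nl nr i)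
    (hk : nl i = some k ∨ nr i = some k)
    (ho : (a k = 2 ∧ In2 nl nr k) ∨ a k = 3 ∨ 4 ≤ a k) : 59 / 100 ≤ ‖cos (z k)‖ := by
  rcases ho with ⟨h1, h2⟩ | ho
  · have := h.two_ro_ge h1 h2
    rwa [E.Zr.ro_one] at this
  · have := h.norm_open_two ha hin hk ho
    linarith

omit [Finite ι] in
/-- `R = π re (gdv u)` -/
theorem pi_gdv_re (h : Zr a nl nr 1 z) (i : ι) :
    Real.pi * (gdv (UU (xx (z i).re (z i).im) (th (z i).re (z i).im))).re = (z i).re := by
  obtain ⟨h1, h2, h3⟩ := h.pos i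
  rw [← Ra_eq (E.abs_th_lt h1 h2 h3), Ra, E.gd_uu h1 h2 h3]

/-- **(n1) at an inner `2` next to a closed end.** `P = π/2 - im q - b (π re v_c)`. -/
theorem n1_end2 (h : Zr a nl nr 1 z) {i j k : ι} (hj : Zr.IsEnd2 a nl nr j i) (ha : a i = 2)
    (hk : nl i = some k ∨ nr i = some k) (hkj : k ≠ j)
    (ho : (a k = 2 ∧ In2 nl nr k) ∨ a k = 3 ∨ 4 ≤ a k) :
    (Real.pi / 2 - (qq (UU (xx (z i).re (z i).im) (th (z i).re (z i).im))
        (UU (xx (z k).re (z k).im) (-(th (z k).re (z k).im)))).im - bw (z i) (z k) *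
        (Real.pi * (gdv (UU (xx (z i).re (z i).im) (th (z i).re (z i).im))).re))
        / bw (z i) (z k) ≤ 9 / 20 ∧
    bw (z i) (z k) ≤ 167 / 100 ∧
    -(9 / 25) ≤ (Real.pi / 2 - (qq (UU (xx (z i).re (z i).im) (th (z i).re (z i).im))
        (UU (xx (z k).re (z k).im) (-(th (z k).re (z k).im)))).im - bw (z i) (z k) *
        (Real.pi * (gdv (UU (xx (z i).re (z i).im) (th (z i).re (z i).im))).re))
        / bw (z i) (z k) ∧
    (11 / 20 < Real.tan (th (z i).re (z i).im) ^ 2 → -(71 / 200) ≤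
      (Real.pi / 2 - (qq (UU (xx (z i).re (z i).im) (th (z i).re (z i).im))
        (UU (xx (z k).re (z k).im) (-(th (z k).re (z k).im)))).im - bw (z i) (z k) *
        (Real.pi * (gdv (UU (xx (z i).re (z i).im) (th (z i).re (z i).im))).re))
        / bw (z i) (z k)) ∧
    Real.tan (th (z i).re (z i).im) ^ 2 ≤ 63 / 100 := by
  have hij := h.N.symm j i (hji_of hj)
  have hin : In2 nl nr i := by
    rcases hij with e | e
    · rcases hk with e' | e'
      · exact absurd (Option.some.inj (e'.symm.trans e)) hkj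
      · exact ⟨j, k, e, e'⟩
    · rcases hk with e' | e'
      · exact ⟨k, j, e', e⟩
      · exact absurd (Option.some.inj (e'.symm.trans e)) hkj
  have k1 := pb_end2 h hj ha hk hkj (norm_open_two' h ha hin hk ho)
  rw [pi_gdv_re h i]
  exact k1

end

end Pool.Agent.S3.Cl
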