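import Pool.Agent.S3.Cl.Edge2

/-!
# Stage 3: ranges at an inner `2` next to a closed end
-/

namespace Pool.Agent.S3.Cl

open Complex Pool.Agent.S3
open Pool.Agent.S3.E (Zr uu qe qo bw xx th k2 s2 bo ro be ph)

namespace RegQ

variable {P q : ℝ}

/-- `2/3 ≤ |κ|` -/
theorem q_ge43 (H : RegQ P q) : 4 / 3 ≤ q := by
  have h0 := H.q_ge
  by_contra hc
  push Not at hc
  have hP := H.P_ge43 (by linarith)
  have hP2 := H.P_le
  have hP3 : P ≤ 66 / 100 := by linarith
  have h1 := H.hN1
  -- convexity in `P`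
  have h2 : 4 * P ^ 2 ≤ 436 / 100 * P - 11352 / 10000 := by nlinarith
  have hq2 : q ^ 2 ≤ 16 / 9 := by nlinarith
  have hq3 : 7 / 5 ≤ q ^ 2 := H.q0
  have h3 : 4 * P ^ 2 - 2 * P * (q ^ 2 + 1) + q ^ 4 - q ^ 2 + 1 ≤ 74 / 100 := by
    nlinarith [mul_nonneg (sub_nonneg.2 hP) (sub_nonneg.2 hq3)]
  nlinarith

/-- `P ≤ 59/100` for small `q` -/
theorem P_le59 (H : RegQ P q) (hq : q ≤ 138 / 100) : P ≤ 59 / 100 := by
  by_contra hc
  push Not at hc
  have h0 := H.q_ge43
  have hP2 := H.P_le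
  have hP3 : P ≤ 6703 / 10000 := by linarith
  have h1 := H.hN1
  have h2 : 4 * P ^ 2 ≤ 4 * (12603 / 10000 * P - 395477 / 1000000) := by nlinarith
  have hq2 : q ^ 2 ≤ 19044 / 10000 := by nlinarith
  have hq3 : 16 / 9 ≤ q ^ 2 := by nlinarith
  have h3 : 4 * P ^ 2 - 2 * P * (q ^ 2 + 1) + q ^ 4 - q ^ 2 + 1 ≤ 70 / 100 := by
    nlinarith [mul_nonneg (sub_nonneg.2 hc.le) (sub_nonneg.2 hq3)]
  nlinarith

theorem P_le61 (H : RegQ P q) (hq : q ≤ 139 / 100) : P ≤ 61 / 100 := by
  by_contra hc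
  push Not at hc
  have h0 := H.q_ge43
  have hP2 := H.P_le
  have hP3 : P ≤ 674 / 1000 := by linarith
  have h1 := H.hN1
  have h2 : 4 * P ^ 2 ≤ 4 * (1284 / 1000 * P - 41114 / 100000) := by nlinarith
  have hq2 : q ^ 2 ≤ 19321 / 10000 := by nlinarith
  have hq3 : 16 / 9 ≤ q ^ 2 := by nlinarith
  have h3 : 4 * P ^ 2 - 2 * P * (q ^ 2 + 1) + q ^ 4 - q ^ 2 + 1 ≤ 7125 / 10000 := by
    nlinarith [mul_nonneg (sub_nonneg.2 hc.le) (sub_nonneg.2 hq3)]
  nlinarith

/-- `R ≤ 31 π / 100` -/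
theorem R31 (H : RegQ P q) : P ^ 2 ≤ 1368 / 1000 * (q ^ 2 / 2 - 632 / 1000) := by
  have h0 := H.q_ge43
  have h1 := H.q_le
  have hP0 := H.P0
  rcases le_total q (138 / 100) with h | h
  · have h2 := H.P_le59 h
    have hq3 : 16 / 9 ≤ q ^ 2 := by nlinarith
    nlinarith
  · rcases le_total q (139 / 100) with h' | h'
    · have h2 := H.P_le61 h'
      have hq3 : 19044 / 10000 ≤ q ^ 2 := by nlinarith
      nlinarith
    · have h2 := pow_le_pow_left₀ hP0 H.P_le 2
      nlinarith [mul_nonneg (sub_nonneg.2 h') (sub_nonneg.2 h1)]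

/-- `R ≤ 3 π / 10` for `q ≥ 1.46` -/
theorem R30 (H : RegQ P q) (hq : 146 / 100 ≤ q) :
    P ^ 2 ≤ 1309 / 1000 * (q ^ 2 / 2 - 691 / 1000) := by
  have h1 := H.q_le
  have hP0 := H.P0
  have h2 := pow_le_pow_left₀ hP0 H.P_le 2
  nlinarith [mul_nonneg (sub_nonneg.2 hq) (sub_nonneg.2 h1)]

/-- `I ≤ 23/50` for `q ≤ 1.46` -/
theorem I46 (H : RegQ P q) (hq : q ≤ 146 / 100) :
    P ^ 2 ≤ 45 / 100 * (245 / 100 - q ^ 2 / 2) := by
  have h0 := H.q_ge43
  have hP0 := H.P0
  have h2 := pow_le_pow_left₀ hP0 H.P_le 2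
  nlinarith

end RegQ

section

variable {ι : Type*} [Finite ι] {a : ι → ℝ} {nl nr : ι → Option ι} {z : ι → ℂ}

omit [Finite ι] in
theorem cos_two_re (_h : Zr a nl nr 1 z) (i : ι) :
    Real.cos (2 * (z i).re) = ‖cos (z i)‖ ^ 2 - s2 (z i).re (z i).im := by
  rw [← k2_eq _h i, k2, s2, E.gg, E.cc]
  ring

omit [Finite ι] in
theorem cosh_two_im (_h : Zr a nl nr 1 z) (i : ι) :
    Real.cosh (2 * (z i).im) = ‖cos (z i)‖ ^ 2 + s2 (z i).re (z i).im := by
  rw [← k2_eq _h i, k2, s2, E.gg, E.cc]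
  ring

/-- `1/3 ≤ θ` -/
theorem th_ge_end2 (h : Zr a nl nr 1 z) {i j : ι} (hj : Zr.IsEnd2 a nl nr j i) (ha : a i = 2)
    (hin : ∃ l r, nl i = some l ∧ nr i = some r) : 1 / 3 ≤ th (z i).re (z i).im := by
  have H := regQ h hj ha hin
  have hP := H.P_ge
  have hk := h.k2pos i
  have ec := E.cos_two_th (h.pos i).1 (h.pos i).2.1 (h.pos i).2.2
  have e2 := s2_sq h i
  have e3 := s2_nn h i
  have hθ := abs_th h i
  rw [k2_eq h i] at hk ec
  set K := ‖cos (z i)‖ with hK
  set P := -2 * (cos (z i)).im with hPd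
  have h2 : 1 - 7 / 9 * K ^ 2 ≤ s2 (z i).re (z i).im := by
    by_contra hc
    push Not at hc
    have h3 : s2 (z i).re (z i).im ^ 2 < (1 - 7 / 9 * K ^ 2) ^ 2 :=
      pow_lt_pow_left₀ hc e3 two_ne_zero
    rw [e2] at h3
    nlinarith [sq_nonneg (K ^ 2 - 9 / 16)]
  have h4 : Real.cos (2 * th (z i).re (z i).im) ≤ 7 / 9 := by
    rw [ec, div_le_iff₀ hk]
    linarith
  have h5 : (7 : ℝ) / 9 ≤ Real.cos (2 / 3) := by
    have := Real.one_sub_sq_div_two_le_cos (x := 2 / 3)
    linarith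
  by_contra hc
  push Not at hc
  have h6 := h.thpos i
  have hpi := Real.pi_gt_three
  have h7 : Real.cos (2 / 3) < Real.cos (2 * th (z i).re (z i).im) :=
    Real.cos_lt_cos_of_nonneg_of_le_pi (by linarith) (by linarith) (by linarith)
  linarith

/-- `2/3 ≤ |κ|` -/
theorem norm_ge_end2 (h : Zr a nl nr 1 z) {i j : ι} (hj : Zr.IsEnd2 a nl nr j i) (ha : a i = 2)
    (hin : ∃ l r, nl i = some l ∧ nr i = some r) : 2 / 3 ≤ ‖cos (z i)‖ := by
  have H := (regQ h hj ha hin).q_ge43
  linarith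

omit [Finite ι] in
theorem re_le_of (h : Zr a nl nr 1 z) (i : ι) {c R0 : ℝ} (h0 : 0 ≤ R0)
    (hc : Real.cos (2 * R0) ≤ -c)
    (hs : s2 (z i).re (z i).im ≤ ‖cos (z i)‖ ^ 2 + c) : (z i).re ≤ R0 := by
  have e := cos_two_re h i
  by_contra hcon
  push Not at hcon
  have h1 := (h.pos i).2.1
  have := Real.cos_lt_cos_of_nonneg_of_le_pi (x := 2 * R0) (y := 2 * (z i).re) (by linarith)
    (by linarith) (by linarith)
  linarith

/-- `R ≤ 31 π / 100` -/
theorem re_le31_end2 (h : Zr a nl nr 1 z) {i j : ι} (hj : Zr.IsEnd2 a nl nr j i) (ha : a i = 2)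
    (hin : ∃ l r, nl i = some l ∧ nr i = some r) : (z i).re ≤ 31 / 100 * Real.pi := by
  have hpi := Real.pi_pos
  have H := regQ h hj ha hin
  have e2 := s2_sq h i
  have e3 := s2_nn h i
  apply re_le_of h i (c := 368 / 1000) (by positivity)
  · -- `cos (31 π / 50) ≤ -.368`
    have p1 := Real.pi_gt_d4
    have e : Real.cos (2 * (31 / 100 * Real.pi)) = -Real.sin (3 / 25 * Real.pi) := by
      rw [show 2 * (31 / 100 * Real.pi) = 3 / 25 * Real.pi + Real.pi / 2 by ring,
        Real.cos_add_pi_div_two]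
    rw [e, neg_le_neg_iff]
    have p2 := Real.pi_lt_d4
    obtain ⟨x, hx⟩ : ∃ x, x = 3 / 25 * Real.pi := ⟨_, rfl⟩
    rw [← hx]
    have x1 : 3769 / 10000 ≤ x := by rw [hx]; linarith
    have x2 : x ≤ 3770 / 10000 := by rw [hx]; linarith
    have h5 := Real.sin_gt_sub_cube (x := x) (by linarith)
    have y1 : x ^ 3 ≤ (3770 / 10000) ^ 3 := pow_le_pow_left₀ (by linarith) x2 3
    norm_num at y1
    linarith
  · have hR := H.R31
    set K := ‖cos (z i)‖ with hK
    set P := -2 * (cos (z i)).im with hPd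
    by_contra hc
    push Not at hc
    have h3 : (K ^ 2 + 368 / 1000) ^ 2 < s2 (z i).re (z i).im ^ 2 :=
      pow_lt_pow_left₀ hc (by positivity) two_ne_zero
    rw [e2] at h3
    nlinarith

/-- `R ≤ 3 π / 10`, or bounds for `|κ|` and the weight of the other edge -/
theorem rng_end2 (h : Zr a nl nr 1 z) {i j : ι} (hj : Zr.IsEnd2 a nl nr j i) (ha : a i = 2)
    (hin : ∃ l r, nl i = some l ∧ nr i = some r) {k : ι} (hk : nl i = some k ∨ nr i = some k)
    (hkj : k ≠ j) :
    (z i).re ≤ 3 / 10 * Real.pi ∨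
      ((z i).re ≤ 31 / 100 * Real.pi ∧ 2 / 3 ≤ ‖cos (z i)‖ ∧ bw (z i) (z k) ≤ 8 / 5) := by
  have hpi := Real.pi_pos
  have H := regQ h hj ha hin
  have e2 := s2_sq h i
  have e3 := s2_nn h i
  rcases le_total (2 * ‖cos (z i)‖) (146 / 100) with hq | hq
  · right
    refine ⟨re_le31_end2 h hj ha hin, norm_ge_end2 h hj ha hin, ?_⟩
    have hq0 := H.q_ge43
    have hI := H.I46 hq
    have hkp := h.k2pos i
    have ex := E.cosh_two_xx (h.pos i).1 (h.pos i).2.1 (h.pos i).2.2
    have eI := cosh_two_im h i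
    have hI0 := (h.pos i).2.2
    rw [k2_eq h i] at hkp ex
    -- the weight of the closed edge
    have hij := h.N.symm j i (hji_of hj)
    have hqe : qe (z i) (z j) = qcl (uu (z i)) := (h.ecrit1 hj).2
    have hYa : Ya (xx (z i).re (z i).im) (th (z i).re (z i).im) = (z i).im := by
      rw [Ya, h.gd_uu i]
    have q1 := two_qcl_re (xx (z i).re (z i).im) (th (z i).re (z i).im)
    have hu : UU (xx (z i).re (z i).im) (th (z i).re (z i).im) = uu (z i) := rfl
    rw [hu, ← hqe, hYa] at q1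
    set K := ‖cos (z i)‖ with hK
    set P := -2 * (cos (z i)).im with hPd
    set S := s2 (z i).re (z i).im with hS
    have hI1 : (z i).im ≤ 23 / 50 := by
      have h2 : S ≤ 145 / 100 - K ^ 2 := by
        by_contra hc
        push Not at hc
        have h3 : (145 / 100 - K ^ 2) ^ 2 < S ^ 2 :=
          pow_lt_pow_left₀ hc (by nlinarith) two_ne_zero
        rw [e2] at h3
        nlinarith
      have h4 : Real.cosh (2 * (z i).im) ≤ Real.cosh (23 / 25) := by
        rw [eI]
        have := n_ch4 (x := 23 / 25) (by norm_num)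
        norm_num at this
        linarith
      have h5 := Real.cosh_le_cosh.1 h4
      rw [abs_of_pos (by linarith : 0 < 2 * (z i).im), abs_of_pos (by norm_num : (0 : ℝ) < 23 / 25)]
        at h5
      linarith
    have hx1 : 5 / 6 ≤ xx (z i).re (z i).im := by
      have h2 : 1 - K ^ 2 ≤ S := by
        by_contra hc
        push Not at hc
        have h3 : S ^ 2 < (1 - K ^ 2) ^ 2 := pow_lt_pow_left₀ hc e3 two_ne_zero
        rw [e2] at h3
        nlinarith [sq_nonneg P]
      have h4 : Real.cosh (5 / 3) ≤ Real.cosh (2 * xx (z i).re (z i).im) := by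
        rw [ex, le_div_iff₀ hkp]
        have b : Real.cosh (5 / 3) ≤ 275 / 100 := by
          have b1 : Real.exp (5 / 3) ≤ 530 / 100 := by
            have c1 : Real.exp (5 / 3) = Real.exp 1 * Real.exp (2 / 3) := by
              rw [← Real.exp_add]; norm_num
            have c2 := Real.exp_one_lt_d9
            have c3 := Real.exp_bound' (x := 2 / 3) (by norm_num) (by norm_num) (n := 6)
              (by norm_num)
            norm_num [Finset.sum_range_succ, Nat.factorial] at c3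
            have c4 : Real.exp 1 * Real.exp (2 / 3) ≤ 2.7182818286 * (1948 / 1000) := by
              apply mul_le_mul c2.le _ (Real.exp_pos _).le (by norm_num)
              linarith
            rw [c1]
            norm_num at c4
            linarith
          have b2 : Real.exp (-(5 / 3)) ≤ 20 / 100 := by
            rw [Real.exp_neg, inv_le_comm₀ (Real.exp_pos _) (by norm_num)]
            have c3 := Real.sum_le_exp_of_nonneg (x := 5 / 3) (by norm_num) 6
            norm_num [Finset.sum_range_succ, Nat.factorial] at c3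
            norm_num
            linarith
          rw [Real.cosh_eq]
          linarith
        nlinarith
      have h5 := Real.cosh_le_cosh.1 h4
      rw [abs_of_pos (by linarith [h.xxpos i] : 0 < 2 * xx (z i).re (z i).im),
        abs_of_pos (by norm_num : (0 : ℝ) < 5 / 3)] at h5
      linarith
    have hbj : 2 / 5 ≤ bw (z i) (z j) := by
      rw [bw, le_div_iff₀ hI0]
      linarith
    have hsum := h.sum_bwo i
    rw [ha] at hsum
    have hb : bw (z i) (z j) + bw (z i) (z k) = 2 := by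
      rcases hij with e | e
      · rcases hk with e' | e'
        · exact absurd (Option.some.inj (e'.symm.trans e)) hkj
        · rw [e, e'] at hsum; exact hsum
      · rcases hk with e' | e'
        · rw [e, e'] at hsum
          rw [add_comm]; exact hsum
        · exact absurd (Option.some.inj (e'.symm.trans e)) hkj
    linarith
  · left
    have hR := H.R30 hq
    apply re_le_of h i (c := 309 / 1000) (by positivity)
    · -- `cos (3 π / 5) ≤ -.309`
      have e : Real.cos (2 * (3 / 10 * Real.pi)) = -Real.cos (2 * (Real.pi / 5)) := by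
        rw [← Real.cos_pi_sub]; congr 1; ring
      rw [e, Real.cos_two_mul, Real.cos_pi_div_five]
      have a2 : (√5) ^ 2 = 5 := Real.sq_sqrt (by norm_num)
      have a3 : 0 ≤ √5 := Real.sqrt_nonneg 5
      nlinarith
    · set K := ‖cos (z i)‖ with hK
      set P := -2 * (cos (z i)).im with hPd
      by_contra hc
      push Not at hc
      have h3 : (K ^ 2 + 309 / 1000) ^ 2 < s2 (z i).re (z i).im ^ 2 :=
        pow_lt_pow_left₀ hc (by positivity) two_ne_zero
      rw [e2] at h3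
      nlinarith

end

end Pool.Agent.S3.Cl
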