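import Mathlib

/-!
# Stage 3: closed ends next to an inner `2`: the region of the critical point

`q = 2 |κ|`, `P = -2 im κ`.
-/

set_option autoImplicit false

namespace Pool.Agent.S3.Cl

/-- the constraints on `(P, q)` -/
structure RegQ (P q : ℝ) : Prop where
  P0 : 0 ≤ P
  Pq : P ≤ q
  q0 : 7 / 5 ≤ q ^ 2
  qp : 0 < q
  hB : 4 * P ^ 2 + 2 * q * P - q ^ 2 - 2 * P - q + 1 ≤ 0
  hN1 : 1 ≤ q * (4 * P ^ 2 - 2 * P * (q ^ 2 + 1) + q ^ 4 - q ^ 2 + 1)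
  hN2 : q * (4 * P ^ 2 - 2 * P * (q ^ 2 + 1) + q ^ 4 - q ^ 2 + 1) ≤ 4
  hD : (1 - 2 * P) * (2 * q ^ 2 - P ^ 2) ≤ P * (q ^ 2 - 4 * P ^ 2 + 2 * P - 1) ∨ 1 / 2 ≤ P

namespace RegQ

variable {P q : ℝ}

theorem q_ge (H : RegQ P q) : 1183 / 1000 ≤ q := by
  have := H.q0
  have := H.qp
  nlinarith

theorem q_le (H : RegQ P q) : q ≤ 167 / 100 := by
  have h1 := H.hN2
  have h0 := H.q_ge
  by_contra hc
  push Not at hc
  have h2 : 3 / 4 * (q ^ 2 - 1) ^ 2 ≤ 4 * P ^ 2 - 2 * P * (q ^ 2 + 1) + q ^ 4 - q ^ 2 + 1 := by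
    nlinarith [sq_nonneg (2 * P - (q ^ 2 + 1) / 2)]
  have h3 : q * (3 / 4 * (q ^ 2 - 1) ^ 2) ≤ 4 := (mul_le_mul_of_nonneg_left h2 H.qp.le).trans h1
  have h4 : 17889 / 10000 ≤ q ^ 2 - 1 := by nlinarith
  have h5 : 32 / 10 ≤ (q ^ 2 - 1) ^ 2 := by nlinarith
  nlinarith

theorem P_le (H : RegQ P q) : P ≤ 1541 / 10000 + 374 / 1000 * q := by
  have h0 := H.q_ge
  have h1 := H.hB
  have hP := H.P0
  by_contra hc
  push Not at hc
  have h2 : 0 < 4 * (1541 / 10000 + 374 / 1000 * q) ^ 2 + 2 * q * (1541 / 10000 + 374 / 1000 * q)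
      - q ^ 2 - 2 * (1541 / 10000 + 374 / 1000 * q) - q + 1 := by
    nlinarith [sq_nonneg (q - 1591 / 1000)]
  nlinarith

theorem P_ge (H : RegQ P q) : 2 / 5 ≤ P := by
  have h0 := H.q_ge
  have h1 := H.q_le
  have hP := H.P0
  rcases H.hD with h | h
  · by_contra hc
    push Not at hc
    nlinarith [mul_nonneg hP hP, mul_nonneg hP H.qp.le, sq_nonneg q,
      mul_nonneg hP (sq_nonneg q)]
  · linarith

theorem P_ge43 (H : RegQ P q) (hq : q ≤ 3 / 2) : 43 / 100 ≤ P := by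
  have h0 := H.q_ge
  have hP := H.P_ge
  rcases H.hD with h | h
  · by_contra hc
    push Not at hc
    have hq2 : q ^ 2 ≤ 9 / 4 := by nlinarith
    have hq3 : 7 / 5 ≤ q ^ 2 := H.q0
    nlinarith [mul_nonneg (sub_nonneg.2 hP) (sub_nonneg.2 hc.le)]
  · linarith

theorem P_ge44 (H : RegQ P q) (hq : q ≤ 133 / 100) : 44 / 100 ≤ P := by
  have h0 := H.q_ge
  have hP := H.P_ge43 (by linarith)
  rcases H.hD with h | h
  · by_contra hc
    push Not at hc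
    have hq2 : q ^ 2 ≤ 17689 / 10000 := by nlinarith
    have hq3 : 7 / 5 ≤ q ^ 2 := H.q0
    nlinarith [mul_nonneg (sub_nonneg.2 hP) (sub_nonneg.2 hc.le)]
  · linarith

theorem q_ge133 (H : RegQ P q) : 133 / 100 ≤ q := by
  have h0 := H.q_ge
  by_contra hc
  push Not at hc
  have hP := H.P_ge44 hc.le
  have hP2 := H.P_le
  have hP3 : P ≤ 66 / 100 := by linarith
  have h1 := H.hN1
  -- convexity in `P`
  have h2 : 4 * P ^ 2 ≤ 44 / 10 * P - 11616 / 10000 := by nlinarith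
  have hq2 : q ^ 2 ≤ 17689 / 10000 := by nlinarith
  have hq3 : 7 / 5 ≤ q ^ 2 := H.q0
  have h3 : 4 * P ^ 2 - 2 * P * (q ^ 2 + 1) + q ^ 4 - q ^ 2 + 1 ≤ 7 / 10 := by
    nlinarith [mul_nonneg (sub_nonneg.2 hP) (sub_nonneg.2 hq3)]
  nlinarith

/-- `tan² θ ≤ 63/100` -/
theorem R1 (H : RegQ P q) : P ^ 2 ≤ 63 / 163 * q ^ 2 * (1 - 25 / 163 * q ^ 2) := by
  have h0 := H.q_ge
  have h1 := H.q_le
  have hP := H.P_le
  have hP0 := H.P0
  have h2 : P ^ 2 ≤ (1541 / 10000 + 374 / 1000 * q) ^ 2 := pow_le_pow_left₀ hP0 hP 2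
  have h3 : (1541 / 10000 + 374 / 1000 * q) ^ 2 ≤ 63 / 163 * q ^ 2 * (1 - 25 / 163 * q ^ 2) := by
    nlinarith [mul_nonneg (sub_nonneg.2 h0) (sub_nonneg.2 h1), sq_nonneg (q ^ 2),
      mul_nonneg (mul_nonneg (sub_nonneg.2 h0) (sub_nonneg.2 h1)) (sq_nonneg q)]
  linarith

/-- upper bound of `x` -/
theorem R3 (H : RegQ P q) : P ^ 2 ≤ (10081 / 1800 - 1) * (q ^ 2 / 4) *
    ((10081 / 1800 + 1) * (q ^ 2 / 4) - 2) := by
  have h0 := H.q_ge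
  have h1 := H.q_le
  have hP := H.P_le
  have hP0 := H.P0
  have h2 : P ^ 2 ≤ (1541 / 10000 + 374 / 1000 * q) ^ 2 := pow_le_pow_left₀ hP0 hP 2
  have h3 : (1541 / 10000 + 374 / 1000 * q) ^ 2 ≤ (10081 / 1800 - 1) * (q ^ 2 / 4) *
    ((10081 / 1800 + 1) * (q ^ 2 / 4) - 2) := by
    have hq := H.q0
    nlinarith [mul_nonneg (sub_nonneg.2 hq) (sub_nonneg.2 hq),
      mul_nonneg (sub_nonneg.2 h0) (sub_nonneg.2 h1)]
  linarith

/-- lower bound of `x` -/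
theorem R2 (H : RegQ P q) (hq : 2 ≤ (2353 / 1000 + 1) * (q ^ 2 / 4)) :
    (2353 / 1000 - 1) * (q ^ 2 / 4) * ((2353 / 1000 + 1) * (q ^ 2 / 4) - 2) ≤ P ^ 2 := by
  have h1 := H.q_le
  have h0 : 15446 / 10000 ≤ q := by
    have := H.qp
    nlinarith
  have hN := H.hN2
  have hPl := H.P_le
  have hm : 1 / 4 + 28 / 10 * (q - 1545 / 1000) ≤ P := by
    by_contra hc
    push Not at hc
    -- `N` is decreasing in `P`
    have h2 : 4 * (1 / 4 + 28 / 10 * (q - 1545 / 1000)) ^ 2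
        - 2 * (1 / 4 + 28 / 10 * (q - 1545 / 1000)) * (q ^ 2 + 1) + q ^ 4 - q ^ 2 + 1
        ≤ 4 * P ^ 2 - 2 * P * (q ^ 2 + 1) + q ^ 4 - q ^ 2 + 1 := by
      nlinarith
    have h3 : 4 < q * (4 * (1 / 4 + 28 / 10 * (q - 1545 / 1000)) ^ 2
        - 2 * (1 / 4 + 28 / 10 * (q - 1545 / 1000)) * (q ^ 2 + 1) + q ^ 4 - q ^ 2 + 1) := by
      obtain ⟨r, hr⟩ : ∃ r, r = q - 15446 / 10000 := ⟨_, rfl⟩
      have e : q = r + 15446 / 10000 := by rw [hr]; ring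
      have r0 : 0 ≤ r := by rw [hr]; linarith
      have r1 : r ≤ 1254 / 10000 := by rw [hr]; linarith
      rw [e]
      nlinarith [mul_nonneg r0 (sub_nonneg.2 r1), mul_nonneg r0 r0,
        mul_nonneg (mul_nonneg r0 r0) r0, mul_nonneg (mul_nonneg r0 r0) (mul_nonneg r0 r0),
        mul_nonneg (mul_nonneg r0 r0) (mul_nonneg (mul_nonneg r0 r0) r0)]
    have h4 := mul_le_mul_of_nonneg_left h2 H.qp.le
    linarith
  have h5 : 0 ≤ 1 / 4 + 28 / 10 * (q - 1545 / 1000) := by linarith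
  have h6 : (1 / 4 + 28 / 10 * (q - 1545 / 1000)) ^ 2 ≤ P ^ 2 := pow_le_pow_left₀ h5 hm 2
  refine le_trans ?_ h6
  obtain ⟨r, hr⟩ : ∃ r, r = q - 15446 / 10000 := ⟨_, rfl⟩
  have e : q = r + 15446 / 10000 := by rw [hr]; ring
  have r0 : 0 ≤ r := by rw [hr]; linarith
  have r1 : r ≤ 1254 / 10000 := by rw [hr]; linarith
  rw [e]
  nlinarith [mul_nonneg r0 (sub_nonneg.2 r1), mul_nonneg r0 r0,
    mul_nonneg (mul_nonneg r0 r0) (sub_nonneg.2 r1),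
    mul_nonneg (mul_nonneg (mul_nonneg r0 r0) r0) (sub_nonneg.2 r1)]

end RegQ

end Pool.Agent.S3.Cl
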