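import Pool.Agent.S3.Cl.BridgeR

/-!
# Stage 3: closed ends: the function `V`

`VV Φ x t = π Re Φ (v) - (t + π a) π b` for `π v = π a + i π b = gd (x + i t)`; `∂ₓ V = - x Re (1 / cosh u)`,
`∂ₜ V = - x Re (i / cosh u) - π b`.
-/

namespace Pool.Agent.S3.Cl

open Complex Pool.Agent.S3
open Pool.Agent.H25.RK (gdv gdv_re_lt gdv_hasDerivAt)

/-- real part of `gd` -/
noncomputable def Ra (x t : ℝ) : ℝ := (gd (UU x t)).re
/-- imaginary part of `gd` -/
noncomputable def Ya (x t : ℝ) : ℝ := (gd (UU x t)).im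

/-- the function `V` -/
noncomputable def VV (Φ : ℂ → ℂ) (x t : ℝ) : ℝ :=
  Real.pi * (Φ (gd (UU x t) / (Real.pi : ℂ))).re - (t + Ra x t) * Ya x t

theorem hasDerivAt_im {f : ℝ → ℂ} {f' : ℂ} {x : ℝ} (h : HasDerivAt f f' x) :
    HasDerivAt (fun x => (f x).im) f'.im x :=
  Complex.imCLM.hasFDerivAt.comp_hasDerivAt x h

theorem hasDerivAt_gd_t {x t : ℝ} (h : |t| < Real.pi / 2) :
    HasDerivAt (fun t : ℝ => gd (UU x t)) (I / cosh (UU x t)) t := by
  have h' : |(UU x t).im| < Real.pi / 2 := by simpa using h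
  have := HasDerivAt.scomp (g₁ := gd) (h := fun t : ℝ => UU x t) t (hasDerivAt_gd h')
    (hasDerivAt_UU' x t)
  refine this.congr_deriv ?_
  rw [smul_eq_mul]
  ring

theorem Ra_dx {x t : ℝ} (h : |t| < Real.pi / 2) :
    HasDerivAt (fun x : ℝ => Ra x t) (1 / cosh (UU x t)).re x :=
  hasDerivAt_re (hasDerivAt_gd_line h)

theorem Ya_dx {x t : ℝ} (h : |t| < Real.pi / 2) :
    HasDerivAt (fun x : ℝ => Ya x t) (1 / cosh (UU x t)).im x :=
  hasDerivAt_im (hasDerivAt_gd_line h)

theorem Ra_dt {x t : ℝ} (h : |t| < Real.pi / 2) :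
    HasDerivAt (fun t : ℝ => Ra x t) (I / cosh (UU x t)).re t :=
  hasDerivAt_re (hasDerivAt_gd_t h)

theorem Ya_dt {x t : ℝ} (h : |t| < Real.pi / 2) :
    HasDerivAt (fun t : ℝ => Ya x t) (I / cosh (UU x t)).im t :=
  hasDerivAt_im (hasDerivAt_gd_t h)

theorem two_qcl (x t : ℝ) : 2 * qcl (UU x t) = UU (x - Ya x t) (t + Ra x t) := by
  have e : 2 * qcl (UU x t) = UU x t + I * gd (UU x t) := by rw [qcl]; ring
  rw [e]
  apply Complex.ext
  · rw [add_re, I_mul_re, UU_re, UU_re, Ya]; ring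
  · rw [add_im, I_mul_im, UU_im, UU_im, Ra]

variable {Φ : ℂ → ℂ}

theorem Phi_d {u : ℝ → ℂ} {u' : ℂ} {s : ℝ} (hΦ : IsPhi1 Φ) (h : |(u s).im| < Real.pi / 2)
    (hu : HasDerivAt u u' s) :
    HasDerivAt (fun s => Real.pi * (Φ (gd (u s) / (Real.pi : ℂ))).re)
      (-(2 * qcl (u s)) * (u' / cosh (u s))).re s := by
  have h1 := (hasDerivAt_re (hΦ.deriv u u' s h hu)).const_mul Real.pi
  refine h1.congr_deriv ?_
  rw [← re_ofReal_mul]
  congr 1
  have hc := cosh_ne h
  have hpi := pi_ne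
  field_simp

theorem VV_dx (hΦ : IsPhi1 Φ) {x t : ℝ} (h : |t| < Real.pi / 2) :
    HasDerivAt (fun x => VV Φ x t) (-(x * (1 / cosh (UU x t)).re)) x := by
  have h1 := Phi_d hΦ (u := fun x => UU x t) (s := x) (by simpa using h) (hasDerivAt_UU x t)
  have h2 := ((Ra_dx (x := x) h).const_add t).mul (Ya_dx (x := x) h)
  refine (h1.sub h2).congr_deriv ?_
  rw [two_qcl, mul_re, neg_re, neg_im, UU_re, UU_im]
  ring

theorem VV_dt (hΦ : IsPhi1 Φ) {x t : ℝ} (h : |t| < Real.pi / 2) :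
    HasDerivAt (fun t => VV Φ x t) (-(x * (I / cosh (UU x t)).re + Ya x t)) t := by
  have h1 := Phi_d hΦ (u := fun t => UU x t) (s := t) (by simpa using h) (hasDerivAt_UU' x t)
  have h2 := ((hasDerivAt_id t).add (Ra_dt (x := x) h)).mul (Ya_dt (x := x) h)
  refine (h1.sub h2).congr_deriv ?_
  simp only [Pi.add_apply, id_eq]
  rw [two_qcl, mul_re, neg_re, neg_im, UU_re, UU_im]
  ring

/-! ### signs -/

theorem inv_cosh_re {x t : ℝ} : (1 / cosh (UU x t)).re
    = Real.cosh x * Real.cos t / normSq (cosh (UU x t)) := by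
  rw [one_div, inv_re, cosh_re', UU_re, UU_im]

theorem inv_cosh_im {x t : ℝ} : (1 / cosh (UU x t)).im
    = -(Real.sinh x * Real.sin t) / normSq (cosh (UU x t)) := by
  rw [one_div, inv_im, cosh_im', UU_re, UU_im]

theorem I_div_re (z : ℂ) : (I / z).re = -(1 / z).im := by
  rw [show I / z = I * (1 / z) by ring, I_mul_re]

theorem I_div_im (z : ℂ) : (I / z).im = (1 / z).re := by
  rw [show I / z = I * (1 / z) by ring, I_mul_im]

theorem nc_pos {x t : ℝ} (h : |t| < Real.pi / 2) : 0 < normSq (cosh (UU x t)) :=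
  normSq_pos.2 (cosh_ne (by rwa [UU_im]))

theorem Ra_dx_pos {x t : ℝ} (h : |t| < Real.pi / 2) : 0 < (1 / cosh (UU x t)).re := by
  rw [inv_cosh_re]
  exact div_pos (mul_pos (Real.cosh_pos x) (cos_pos' h)) (nc_pos h)

theorem Ra_dt_nonneg {x t : ℝ} (hx : 0 ≤ x) (h0 : 0 ≤ t) (h : t < Real.pi / 2) :
    0 ≤ (I / cosh (UU x t)).re := by
  have ht : |t| < Real.pi / 2 := by rwa [abs_of_nonneg h0]
  rw [I_div_re, inv_cosh_im, neg_div, neg_neg]
  exact div_nonneg (mul_nonneg (Real.sinh_nonneg_iff.2 hx)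
    (Real.sin_nonneg_of_nonneg_of_le_pi h0 (by linarith [Real.pi_pos]))) (nc_pos ht).le

theorem Ya_nonneg {x t : ℝ} (h0 : 0 ≤ t) (h : t < Real.pi / 2) : 0 ≤ Ya x t := by
  rcases h0.eq_or_lt with h1 | h1
  · rw [← h1, Ya, gd_im (by simp; exact Real.pi_pos)]
    simp [(Real.cosh_pos x).ne']
  · exact (gd_im_pos h1 h).le

theorem Ya_zero (x : ℝ) : Ya x 0 = 0 := by
  rw [Ya, gd_im (by simp; exact Real.pi_pos)]
  simp [(Real.cosh_pos x).ne']

/-! ### monotonicity of `V` -/

theorem VV_anti_x (hΦ : IsPhi1 Φ) {t : ℝ} (h : |t| < Real.pi / 2) :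
    StrictAntiOn (fun x => VV Φ x t) (Set.Ici 0) := by
  apply strictAntiOn_of_deriv_neg (convex_Ici _)
  · exact fun x _ => (VV_dx hΦ h).continuousAt.continuousWithinAt
  · intro x hx
    rw [interior_Ici] at hx
    rw [(VV_dx hΦ h).deriv]
    have := mul_pos (show 0 < x from hx) (Ra_dx_pos (x := x) h)
    linarith

/-- `V (x, 0) + c gd x` is decreasing for `x ≥ c` -/
theorem VV_anti_c (hΦ : IsPhi1 Φ) {c : ℝ} :
    AntitoneOn (fun x => VV Φ x 0 + c * Ra x 0) (Set.Ici c) := by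
  have h0 : |(0 : ℝ)| < Real.pi / 2 := by simp; exact Real.pi_pos
  have hd : ∀ x : ℝ, HasDerivAt (fun x => VV Φ x 0 + c * Ra x 0)
      (-((x - c) * (1 / cosh (UU x 0)).re)) x := by
    intro x
    exact ((VV_dx hΦ h0).add ((Ra_dx h0).const_mul c)).congr_deriv (by ring)
  apply antitoneOn_of_deriv_nonpos (convex_Ici _)
  · exact fun x _ => (hd x).continuousAt.continuousWithinAt
  · exact fun x _ => (hd x).differentiableAt.differentiableWithinAt
  · intro x hx
    rw [interior_Ici] at hx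
    rw [(hd x).deriv]
    have := mul_nonneg (sub_nonneg.2 (le_of_lt (show c < x from hx))) (Ra_dx_pos (x := x) h0).le
    linarith

/-- `Y ≤ Y_t tan t` -/
theorem Ya_le {x t : ℝ} (h0 : 0 ≤ t) (h : t < Real.pi / 2) :
    Ya x t * Real.cos t ≤ (I / cosh (UU x t)).im * Real.sin t := by
  have ht : |t| < Real.pi / 2 := by rwa [abs_of_nonneg h0]
  have hY := Ya_nonneg (x := x) h0 h
  have hc := cos_pos' ht
  have hs : 0 ≤ Real.sin t :=
    Real.sin_nonneg_of_nonneg_of_le_pi h0 (by linarith [Real.pi_pos])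
  have hC := Real.one_le_cosh x
  have hsc := Real.sin_sq_add_cos_sq t
  have hs1 : Real.sin t < 1 := by nlinarith
  have hA : 0 < Real.cosh x - Real.sin t := by linarith
  have hB : 0 < Real.cosh x + Real.sin t := by linarith
  have h1 : 2 * Ya x t ≤ Real.sinh (2 * Ya x t) := Real.self_le_sinh_iff.2 (by linarith)
  have h2 : Real.exp (2 * Ya x t)
      = (Real.cosh x + Real.sin t) / (Real.cosh x - Real.sin t) := by
    rw [Ya, gd_im ht, show 2 * (Real.log ((Real.cosh x + Real.sin t) /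
      (Real.cosh x - Real.sin t)) / 2) = Real.log ((Real.cosh x + Real.sin t) /
      (Real.cosh x - Real.sin t)) by ring, Real.exp_log (div_pos hB hA)]
  have h3 : Real.sinh (2 * Ya x t)
      = 2 * Real.cosh x * Real.sin t / normSq (cosh (UU x t)) := by
    rw [Real.sinh_eq, Real.exp_neg, h2, inv_div, normSq_c]
    field_simp
    ring
  rw [I_div_im, inv_cosh_re]
  rw [h3] at h1
  have h4 : Ya x t ≤ Real.cosh x * Real.sin t / normSq (cosh (UU x t)) := by
    have : 2 * Real.cosh x * Real.sin t / normSq (cosh (UU x t))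
        = 2 * (Real.cosh x * Real.sin t / normSq (cosh (UU x t))) := by ring
    linarith
  calc Ya x t * Real.cos t ≤ Real.cosh x * Real.sin t / normSq (cosh (UU x t)) * Real.cos t :=
        mul_le_mul_of_nonneg_right h4 hc.le
    _ = _ := by ring

theorem hasDerivAt_tan_half {t : ℝ} (h : |t| < Real.pi / 2) :
    HasDerivAt (fun t : ℝ => Real.tan (t / 2)) (1 / Real.cos (t / 2) ^ 2 * (1 / 2)) t := by
  have hc : Real.cos (t / 2) ≠ 0 := by
    apply (cos_pos' _).ne'
    rw [abs_div, abs_two]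
    have := abs_nonneg t
    linarith
  have h1 : HasDerivAt (fun t : ℝ => t / 2) (1 / 2) t := (hasDerivAt_id t).div_const 2
  exact (Real.hasDerivAt_tan hc).comp t h1

/-- lower bound of `V` away from the real line -/
theorem VV_ge (hΦ : IsPhi1 Φ) {x t : ℝ} (h0 : 0 ≤ t) (h : t < Real.pi / 2) :
    VV Φ x 0 + x * Ra x 0 ≤ VV Φ x t + x * Ra x t + Ya x t * Real.tan (t / 2) := by
  have hd : ∀ s : ℝ, 0 ≤ s → s ≤ t →
      HasDerivAt (fun s => VV Φ x s + x * Ra x s + Ya x s * Real.tan (s / 2))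
      (-(x * (I / cosh (UU x s)).re + Ya x s) + x * (I / cosh (UU x s)).re
        + ((I / cosh (UU x s)).im * Real.tan (s / 2)
          + Ya x s * (1 / Real.cos (s / 2) ^ 2 * (1 / 2)))) s := by
    intro s hs0 hs1
    have hs : |s| < Real.pi / 2 := by rw [abs_of_nonneg hs0]; linarith
    exact ((VV_dt hΦ hs).add ((Ra_dt hs).const_mul x)).add
      ((Ya_dt hs).mul (hasDerivAt_tan_half hs))
  have hm : MonotoneOn (fun s => VV Φ x s + x * Ra x s + Ya x s * Real.tan (s / 2))
      (Set.Icc 0 t) := by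
    apply monotoneOn_of_deriv_nonneg (convex_Icc _ _)
    · exact fun s hs => (hd s hs.1 hs.2).continuousAt.continuousWithinAt
    · intro s hs
      rw [interior_Icc] at hs
      exact (hd s hs.1.le hs.2.le).differentiableAt.differentiableWithinAt
    · intro s hs
      rw [interior_Icc] at hs
      rw [(hd s hs.1.le hs.2.le).deriv]
      have hs1 : s < Real.pi / 2 := by linarith [hs.2]
      have hs' : |s| < Real.pi / 2 := by rw [abs_of_nonneg hs.1.le]; exact hs1
      have hc2 : 0 < Real.cos (s / 2) := by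
        apply cos_pos'
        rw [abs_div, abs_two]
        have := abs_nonneg s
        linarith
      have key := Ya_le (x := x) hs.1.le hs1
      have e1 : Real.cos s = 2 * Real.cos (s / 2) ^ 2 - 1 := by
        rw [← Real.cos_two_mul]; congr 1; ring
      have e2 : Real.sin s = 2 * Real.sin (s / 2) * Real.cos (s / 2) := by
        rw [← Real.sin_two_mul]; congr 1; ring
      rw [e1, e2] at key
      have e3 : -(x * (I / cosh (UU x s)).re + Ya x s) + x * (I / cosh (UU x s)).re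
        + ((I / cosh (UU x s)).im * Real.tan (s / 2)
          + Ya x s * (1 / Real.cos (s / 2) ^ 2 * (1 / 2)))
          = ((I / cosh (UU x s)).im * (2 * Real.sin (s / 2) * Real.cos (s / 2))
            - Ya x s * (2 * Real.cos (s / 2) ^ 2 - 1)) / (2 * Real.cos (s / 2) ^ 2) := by
        rw [Real.tan_eq_sin_div_cos]
        field_simp
        ring
      rw [e3]
      apply div_nonneg _ (by positivity)
      linarith
  have := hm (a := 0) (b := t) ⟨le_rfl, h0⟩ ⟨h0, le_rfl⟩ h0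
  simp only [Ya_zero] at this
  linarith

end Pool.Agent.S3.Cl
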