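import Pool.Agent.S3.Cl.E1C

/-!
# Stage 3: a lower bound on the vertical below an inner `2` between a closed end and an inner `2`
-/

set_option autoImplicit false

namespace Pool.Agent.S3.Cl

open Complex Pool.Agent.S3
open Pool.Agent.S3.E (Zr uu qe qo bw xx th k2 s2 bo ro be ph In2)

theorem w2_num {R I θ b ρ η r1 c1 T : ℝ} (R0 : 7463 / 10000 ≤ R) (R1 : R ≤ 9425 / 10000)
    (hθ : 0 < Real.cos θ) (hs : 4472 / 10000 ≤ Real.sin θ) (I0 : 0 < I)
    (hC : Real.sinh I * Real.cos θ = Real.sin θ * Real.cos R) (hb : 4 / 5 ≤ b)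
    (hη : Real.sinh η = Real.tan θ * Real.cos ρ) (ρ0 : 0 ≤ ρ) (hρ : ρ ≤ r1)
    (hr1 : r1 ≤ 7463 / 10000) (hc1 : c1 ≤ 1 - r1 ^ 2 / 2) (hc2 : 7345 / 10000 ≤ c1)
    (hT : T ≤ 4 / 5 * (62383 / 100000) * ((7463 / 10000 - r1) * (4472 / 10000 * (c1 - 7345 / 10000)))) :
    T ≤ b * (49 / 50 * (2 / Real.pi) * ((ρ - R) * (I - η))) := by
  have hpi := Real.pi_gt_d4
  have hpi2 := Real.pi_lt_d4
  have hsθ : 0 ≤ Real.sin θ := by linarith
  have ht : Real.tan θ * Real.cos θ = Real.sin θ := Real.tan_mul_cos hθ.ne'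
  have t0 : 0 ≤ Real.tan θ := by
    rw [Real.tan_eq_sin_div_cos]; positivity
  have e : Real.sinh I = Real.tan θ * Real.cos R := by
    rw [Real.tan_eq_sin_div_cos, div_mul_eq_mul_div, eq_div_iff hθ.ne']
    exact hC
  have hcR : Real.cos R ≤ 7345 / 10000 := by
    have a1 := Real.cos_le_cos_of_nonneg_of_le_pi (x := 7463 / 10000) (y := R) (by norm_num)
      (by linarith) R0
    have a2 := n_c4 (x := 7463 / 10000) (by norm_num)
    norm_num at a2 a1
    linarith
  have hcρ : c1 ≤ Real.cos ρ := by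
    have a1 := Real.one_sub_sq_div_two_le_cos (x := ρ)
    have a2 : ρ ^ 2 ≤ r1 ^ 2 := pow_le_pow_left₀ ρ0 hρ 2
    linarith
  have hηI : I ≤ η := Real.sinh_le_sinh.1 (by
    rw [hη, e]; exact mul_le_mul_of_nonneg_left (by linarith) t0)
  have k1 := sh_tan I0.le hηI
  rw [hη, e, ← mul_sub] at k1
  have hch : Real.cosh η * Real.cos θ ≤ 1 := by
    have a1 := Real.cosh_sq η
    have a2 : Real.sinh η * Real.cos θ = Real.sin θ * Real.cos ρ := by
      rw [hη, ← ht]; ring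
    have a3 := Real.sin_sq_add_cos_sq θ
    have a4 : (Real.cosh η * Real.cos θ) ^ 2 ≤ 1 := by
      rw [mul_pow, a1]
      have a5 : (Real.sinh η ^ 2 + 1) * Real.cos θ ^ 2 =
        (Real.sinh η * Real.cos θ) ^ 2 + Real.cos θ ^ 2 := by ring
      rw [a5, a2, mul_pow]
      have a6 : Real.cos ρ ^ 2 ≤ 1 := Real.cos_sq_le_one ρ
      nlinarith [mul_le_mul_of_nonneg_left a6 (sq_nonneg (Real.sin θ))]
    by_contra hc
    push Not at hc
    nlinarith
  have k2 : Real.sin θ * (Real.cos ρ - Real.cos R) ≤ η - I := by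
    have a1 := mul_le_mul_of_nonneg_right k1 hθ.le
    have a2 : Real.tan θ * (Real.cos ρ - Real.cos R) * Real.cos θ =
        Real.sin θ * (Real.cos ρ - Real.cos R) := by rw [← ht]; ring
    have a3 : Real.cosh η * (η - I) * Real.cos θ = Real.cosh η * Real.cos θ * (η - I) := by ring
    rw [a2, a3] at a1
    have a4 : Real.cosh η * Real.cos θ * (η - I) ≤ 1 * (η - I) :=
      mul_le_mul_of_nonneg_right hch (by linarith)
    linarith
  have k3 : 4472 / 10000 * (c1 - 7345 / 10000) ≤ η - I := by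
    have : 4472 / 10000 * (c1 - 7345 / 10000) ≤ Real.sin θ * (Real.cos ρ - Real.cos R) :=
      mul_le_mul hs (by linarith) (by linarith) hsθ
    linarith
  have k4 : 62383 / 100000 ≤ 49 / 50 * (2 / Real.pi) := by
    have : 62383 / 196000 ≤ 1 / Real.pi := by
      rw [le_div_iff₀ (by linarith)]; linarith
    have e1 : 2 / Real.pi = 2 * (1 / Real.pi) := by ring
    rw [e1]; linarith
  have k5 : (7463 / 10000 - r1) * (4472 / 10000 * (c1 - 7345 / 10000)) ≤ (R - ρ) * (η - I) :=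
    mul_le_mul (by linarith) k3 (by nlinarith) (by linarith)
  have n0 : 0 ≤ (7463 / 10000 - r1) * (4472 / 10000 * (c1 - 7345 / 10000)) :=
    mul_nonneg (by linarith) (by nlinarith)
  have k6 := mul_le_mul k4 k5 n0 (by linarith)
  have k7 := mul_le_mul hb k6 (by positivity) (by linarith)
  have e2 : b * (49 / 50 * (2 / Real.pi) * ((ρ - R) * (I - η))) =
      b * (49 / 50 * (2 / Real.pi) * ((R - ρ) * (η - I))) := by ring
  rw [e2]
  linarith

section

variable {ι : Type*} [Finite ι] {a : ι → ℝ} {nl nr : ι → Option ι} {z : ι → ℂ}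

/-- **(W2)** at an inner `2` between a closed end and an inner `2`; `b` is the weight towards the
inner `2`. -/
theorem w2_end2 (h : Zr a nl nr 1 z) (h3 : ∀ i, 3 ≤ a i → a i = 3 ∨ 4 ≤ a i) {i j k : ι}
    (hj : Zr.IsEnd2 a nl nr j i) (ha : a i = 2) (hin : In2 nl nr i)
    (hk : nl i = some k ∨ nr i = some k) (hkj : k ≠ j) (hk2 : a k = 2) (hkin : In2 nl nr k)
    {ρ η : ℝ} (hη : Real.sinh η = Real.tan (th (z i).re (z i).im) * Real.cos ρ) (ρ0 : 0 ≤ ρ) :
    (ρ ≤ Real.pi / 25 → 7 / 200 ≤ bw (z i) (z k) * (49 / 50 * (2 / Real.pi) *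
      ((ρ - (z i).re) * ((z i).im - η)))) ∧
    (ρ ≤ 2 * Real.pi / 25 → 1 / 40 ≤ bw (z i) (z k) * (49 / 50 * (2 / Real.pi) *
      ((ρ - (z i).re) * ((z i).im - η)))) ∧
    (ρ ≤ 3 * Real.pi / 25 → 3 / 200 ≤ bw (z i) (z k) * (49 / 50 * (2 / Real.pi) *
      ((ρ - (z i).re) * ((z i).im - η)))) := by
  have D := endDat h hj ha hk hkj (Or.inl ⟨hk2, hkin⟩)
  obtain ⟨t1, -, hb, R0, R1, -⟩ := two22_end2 h h3 hj ha hin hk hkj hk2 hkin
  have hpi := Real.pi_gt_d4
  have hpi2 := Real.pi_lt_d4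
  have hθ := D.cosθ_pos
  have hs : 4472 / 10000 ≤ Real.sin (th (z i).re (z i).im) := by
    have a1 := Real.sin_sq_add_cos_sq (th (z i).re (z i).im)
    rw [Real.tan_eq_sin_div_cos, le_div_iff₀ hθ] at t1
    by_contra hc
    push Not at hc
    nlinarith
  refine ⟨fun hr => ?_, fun hr => ?_, fun hr => ?_⟩
  · exact w2_num R0 (by linarith) hθ hs D.I0 D.hC hb hη ρ0 (r1 := 12567 / 100000)
      (c1 := 9921 / 10000) (by linarith) (by norm_num) (by norm_num) (by norm_num) (by norm_num)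
  · exact w2_num R0 (by linarith) hθ hs D.I0 D.hC hb hη ρ0 (r1 := 25134 / 100000)
      (c1 := 9684 / 10000) (by linarith) (by norm_num) (by norm_num) (by norm_num) (by norm_num)
  · exact w2_num R0 (by linarith) hθ hs D.I0 D.hC hb hη ρ0 (r1 := 37701 / 100000)
      (c1 := 9289 / 10000) (by linarith) (by norm_num) (by norm_num) (by norm_num) (by norm_num)

end

end Pool.Agent.S3.Cl
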