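import Pool.Agent.S3.Cl.BridgeR
import Pool.Agent.S3.Cl.Uni

/-!
# Stage 3: closed ends: the hypotheses of the flat at the critical point `yc u`
-/

namespace Pool.Agent.S3.Cl

open Complex Pool.Agent.S3
open Pool.Agent.H25.RK (gdv gdv_re_lt gdv_hasDerivAt)

theorem one_add_zz {u : ℂ} (h : |u.im| < Real.pi / 2) : 1 + zz (yc u) = 2 * I / cosh u := by
  rw [zz, exp_two_yc h]; ring

theorem zz_hz {u : ℂ} (h : |u.im| < Real.pi / 2) :
    (1 + zz (yc u)) ^ 2 = -4 * cos (Real.pi * gdv u) ^ 2 := by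
  rw [one_add_zz h, cos_pi_gdv h, div_pow, mul_pow, I_sq]
  ring

/-- components of `1 + zz = 2 i cos (π v)` -/
theorem w_parts {u : ℂ} (h : |u.im| < Real.pi / 2) :
    (1 + zz (yc u)).re = 2 * (Real.sin (Real.pi * (gdv u).re) * Real.sinh (Real.pi * (gdv u).im)) ∧
    (1 + zz (yc u)).im
      = 2 * (Real.cos (Real.pi * (gdv u).re) * Real.cosh (Real.pi * (gdv u).im)) := by
  have e1 : 1 + zz (yc u) = 2 * (I * cos (Real.pi * gdv u)) := by
    rw [one_add_zz h, cos_pi_gdv h]; ring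
  have e2 : (Real.pi : ℂ) * gdv u = ((Real.pi * (gdv u).re : ℝ) : ℂ)
      + ((Real.pi * (gdv u).im : ℝ) : ℂ) * I := by
    apply Complex.ext <;> simp
  have e3 : cos (Real.pi * gdv u)
      = ((Real.cos (Real.pi * (gdv u).re) * Real.cosh (Real.pi * (gdv u).im) : ℝ) : ℂ)
        - ((Real.sin (Real.pi * (gdv u).re) * Real.sinh (Real.pi * (gdv u).im) : ℝ) : ℂ) * I := by
    rw [e2, Complex.cos_add, Complex.cos_mul_I, Complex.sin_mul_I, ← ofReal_cosh, ← ofReal_sinh,
      ← ofReal_sin, ← ofReal_cos]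
    push_cast; ring
  rw [e1, e3]
  constructor
  · rw [show (2 : ℂ) = ((2 : ℝ) : ℂ) by norm_num, re_ofReal_mul, I_mul_re, sub_im, ofReal_im,
      im_ofReal_mul, I_im]
    ring
  · rw [show (2 : ℂ) = ((2 : ℝ) : ℂ) by norm_num, im_ofReal_mul, I_mul_im, sub_re, ofReal_re,
      re_ofReal_mul, I_re]
    ring

theorem sin_sq_le_half {t : ℝ} (ht : |t| ≤ Real.pi / 4) : Real.sin t ^ 2 ≤ 1 / 2 := by
  have hpi := Real.pi_pos
  have h0 := abs_nonneg t
  have h1 : Real.sin |t| ≤ Real.sin (Real.pi / 4) :=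
    Real.sin_le_sin_of_le_of_le_pi_div_two (by linarith) (by linarith) ht
  have h2 : 0 ≤ Real.sin |t| := Real.sin_nonneg_of_nonneg_of_le_pi h0 (by linarith)
  have h3 : Real.sin |t| ^ 2 = Real.sin t ^ 2 := by
    rcases abs_choice t with h | h
    · rw [h]
    · rw [h, Real.sin_neg]; ring
  rw [Real.sin_pi_div_four] at h1
  have h4 : Real.sqrt 2 ^ 2 = 2 := Real.sq_sqrt (by norm_num)
  have h5 : 0 ≤ Real.sqrt 2 := Real.sqrt_nonneg 2
  rw [← h3]
  nlinarith

theorem ysH {x t : ℝ} (ht : |t| ≤ Real.pi / 4)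
    (hs : Real.sin (Real.pi * (gdv (UU x t)).re) ^ 2 ≤ 885 / 1000) :
    YsH (gdv (UU x t)) (yc (UU x t)) := by
  have hpi := Real.pi_pos
  have ht2 : |t| < Real.pi / 2 := by linarith
  have h : |(UU x t).im| < Real.pi / 2 := by rwa [UU_im]
  obtain ⟨p1, p2⟩ := w_parts h
  refine ⟨yc_re_pos h, yc_re_lt h, zz_hz h, ?_, ?_, gdv_re_lt h⟩
  · -- `H1`
    have hc := cosh_ne h
    have n0 : 0 < normSq (cosh (UU x t)) := normSq_pos.2 hc
    have e0 : normSq (1 + zz (yc (UU x t))) = 4 / normSq (cosh (UU x t)) := by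
      rw [one_add_zz h, normSq_div, normSq_mul, normSq_I]
      norm_num
    have e1 : (1 + zz (yc (UU x t))).re = 2 * (cosh (UU x t)).im / normSq (cosh (UU x t)) := by
      rw [one_add_zz h, show 2 * I / cosh (UU x t) = 2 * (I * (cosh (UU x t))⁻¹) by
        rw [div_eq_mul_inv]; ring, show (2 : ℂ) = ((2 : ℝ) : ℂ) by norm_num, re_ofReal_mul,
        I_mul_re, inv_im]
      ring
    have e2 : (1 + zz (yc (UU x t))).im = 2 * (cosh (UU x t)).re / normSq (cosh (UU x t)) := by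
      rw [one_add_zz h, show 2 * I / cosh (UU x t) = 2 * (I * (cosh (UU x t))⁻¹) by
        rw [div_eq_mul_inv]; ring, show (2 : ℂ) = ((2 : ℝ) : ℂ) by norm_num, im_ofReal_mul,
        I_mul_im, inv_re]
      ring
    rw [e0, e1, e2]
    have key : 1 / 2 ≤ (cosh (UU x t)).re ^ 2 - (cosh (UU x t)).im ^ 2 := by
      rw [cosh_re', cosh_im', UU_re, UU_im, mul_pow, mul_pow]
      have h1 := Real.sin_sq_add_cos_sq t
      have h2 := Real.cosh_sq x
      have h3 := sin_sq_le_half ht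
      have h4 := sq_nonneg (Real.sinh x)
      have h5 : Real.cos t ^ 2 = 1 - Real.sin t ^ 2 := by linarith
      rw [h5, h2]
      nlinarith
    have e3 : 8 * ((2 * (cosh (UU x t)).re / normSq (cosh (UU x t))) ^ 2 -
        (2 * (cosh (UU x t)).im / normSq (cosh (UU x t))) ^ 2) - (4 / normSq (cosh (UU x t))) ^ 2
        = 32 * ((cosh (UU x t)).re ^ 2 - (cosh (UU x t)).im ^ 2 - 1 / 2)
          / normSq (cosh (UU x t)) ^ 2 := by
      field_simp
      ring
    have e4 : 0 ≤ 32 * ((cosh (UU x t)).re ^ 2 - (cosh (UU x t)).im ^ 2 - 1 / 2)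
          / normSq (cosh (UU x t)) ^ 2 := by
      apply div_nonneg _ (by positivity)
      linarith
    linarith
  · -- `H3`
    rw [normSq_apply, p1, p2]
    set a := Real.pi * (gdv (UU x t)).re
    set b := Real.pi * (gdv (UU x t)).im
    have h1 := Real.sin_sq_add_cos_sq a
    have h2 := Real.cosh_sq b
    have h4 := sq_nonneg (Real.sinh b)
    have h5 : Real.cos a ^ 2 = 1 - Real.sin a ^ 2 := by linarith
    have e1 : (2 * (Real.sin a * Real.sinh b)) ^ 2 = 4 * (Real.sin a ^ 2 * Real.sinh b ^ 2) := by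
      ring
    have e2 : 2 * (Real.sin a * Real.sinh b) * (2 * (Real.sin a * Real.sinh b)) +
        2 * (Real.cos a * Real.cosh b) * (2 * (Real.cos a * Real.cosh b))
        = 4 * (1 - Real.sin a ^ 2 + Real.sinh b ^ 2) := by
      have : 2 * (Real.sin a * Real.sinh b) * (2 * (Real.sin a * Real.sinh b)) +
        2 * (Real.cos a * Real.cosh b) * (2 * (Real.cos a * Real.cosh b))
        = 4 * (Real.sin a ^ 2 * Real.sinh b ^ 2 + Real.cos a ^ 2 * Real.cosh b ^ 2) := by ring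
      rw [this, h5, h2]
      ring
    rw [e1, e2]
    have h6 : Real.sin a ^ 2 * Real.sinh b ^ 2 ≤ 885 / 1000 * Real.sinh b ^ 2 :=
      mul_le_mul_of_nonneg_right hs h4
    nlinarith

/-! ### the height of the flat -/

theorem zz_normSq (y : ℂ) : normSq (zz y) = Real.exp (-(4 * Real.pi * y.im)) := by
  rw [normSq_eq_norm_sq, zz_norm, sq, ← Real.exp_add]
  congr 1
  ring

theorem zz_yc_normSq {x t : ℝ} (h : |t| < Real.pi / 2) : normSq (zz (yc (UU x t)))
    = 1 + 4 * (1 - Real.sinh x * Real.sin t) / normSq (cosh (UU x t)) := by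
  have h' : |(UU x t).im| < Real.pi / 2 := by rwa [UU_im]
  have n0 : 0 < normSq (cosh (UU x t)) := nc_pos' h'
  have e0 : normSq (1 + zz (yc (UU x t))) = 4 / normSq (cosh (UU x t)) := by
    rw [one_add_zz h', normSq_div, normSq_mul, normSq_I]
    norm_num
  have e1 : (1 + zz (yc (UU x t))).re = 2 * (cosh (UU x t)).im / normSq (cosh (UU x t)) := by
    rw [one_add_zz h', show 2 * I / cosh (UU x t) = 2 * (I * (cosh (UU x t))⁻¹) by
      rw [div_eq_mul_inv]; ring, show (2 : ℂ) = ((2 : ℝ) : ℂ) by norm_num, re_ofReal_mul,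
      I_mul_re, inv_im]
    ring
  rw [normSq_one_add] at e0
  rw [add_re, one_re] at e1
  have e2 : normSq (zz (yc (UU x t))) = 4 / normSq (cosh (UU x t)) - 1
      - 2 * (2 * (cosh (UU x t)).im / normSq (cosh (UU x t)) - 1) := by linarith
  rw [e2, cosh_im', UU_re, UU_im]
  field_simp
  ring
where
  nc_pos' {u : ℂ} (h : |u.im| < Real.pi / 2) : 0 < normSq (cosh u) := normSq_pos.2 (cosh_ne h)

theorem yc_im_nonpos {x t : ℝ} (h : |t| < Real.pi / 2) (h1 : Real.sinh x * Real.sin t ≤ 1) :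
    (yc (UU x t)).im ≤ 0 := by
  have h' : |(UU x t).im| < Real.pi / 2 := by rwa [UU_im]
  have n0 : 0 < normSq (cosh (UU x t)) := normSq_pos.2 (cosh_ne h')
  have e := zz_yc_normSq (x := x) h
  rw [zz_normSq] at e
  have h2 : 0 ≤ 4 * (1 - Real.sinh x * Real.sin t) / normSq (cosh (UU x t)) := by
    apply div_nonneg _ n0.le
    linarith
  have h3 : (0 : ℝ) ≤ -(4 * Real.pi * (yc (UU x t)).im) := by
    rw [← Real.one_le_exp_iff, e]
    linarith
  have hpi := Real.pi_pos
  nlinarith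

theorem yc_im_ge {x t : ℝ} (h : |t| ≤ Real.pi / 4) : -1 ≤ (yc (UU x t)).im := by
  have hpi := Real.pi_gt_three
  have h2 : |t| < Real.pi / 2 := by linarith
  have h' : |(UU x t).im| < Real.pi / 2 := by rwa [UU_im]
  have n0 : 0 < normSq (cosh (UU x t)) := normSq_pos.2 (cosh_ne h')
  have hn : normSq (zz (yc (UU x t))) ≤ 16 := by
    have e0 : normSq (1 + zz (yc (UU x t))) = 4 / normSq (cosh (UU x t)) := by
      rw [one_add_zz h', normSq_div, normSq_mul, normSq_I]
      norm_num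
    have h3 : 1 / 2 ≤ normSq (cosh (UU x t)) := by
      rw [normSq_c]
      have h4 := sin_sq_le_half h
      have h5 := Real.one_le_cosh x
      nlinarith
    have h6 : normSq (1 + zz (yc (UU x t))) ≤ 8 := by
      rw [e0, div_le_iff₀ n0]; linarith
    have h7 : normSq (zz (yc (UU x t))) ≤ 2 * normSq (1 + zz (yc (UU x t))) + 2 := by
      rw [normSq_apply, normSq_apply, add_re, add_im, one_re, one_im]
      nlinarith [sq_nonneg ((zz (yc (UU x t))).re + 2), sq_nonneg (zz (yc (UU x t))).im]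
    have h8 : ‖1 + zz (yc (UU x t))‖ ≤ 3 := by
      have := normSq_eq_norm_sq (1 + zz (yc (UU x t)))
      rw [this] at h6
      nlinarith [norm_nonneg (1 + zz (yc (UU x t)))]
    have h9 : ‖zz (yc (UU x t))‖ ≤ 4 := by
      have e : zz (yc (UU x t)) = (1 + zz (yc (UU x t))) - 1 := by ring
      calc ‖zz (yc (UU x t))‖ = ‖(1 + zz (yc (UU x t))) - 1‖ := by rw [← e]
        _ ≤ ‖1 + zz (yc (UU x t))‖ + ‖(1 : ℂ)‖ := norm_sub_le _ _
        _ ≤ 4 := by rw [norm_one]; linarith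
    rw [normSq_eq_norm_sq]
    nlinarith [norm_nonneg (zz (yc (UU x t)))]
  rw [zz_normSq] at hn
  by_contra hc
  push Not at hc
  have h3 : (12 : ℝ) ≤ -(4 * Real.pi * (yc (UU x t)).im) := by nlinarith
  have h4 := Real.add_one_le_exp (-(4 * Real.pi * (yc (UU x t)).im) / 2)
  have h5 : Real.exp (-(4 * Real.pi * (yc (UU x t)).im))
      = Real.exp (-(4 * Real.pi * (yc (UU x t)).im) / 2) ^ 2 := by
    rw [← Real.exp_nat_mul]; congr 1; push_cast; ring
  rw [h5] at hn
  nlinarith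

end Pool.Agent.S3.Cl
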