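import Pool.Agent.S3.FeL
import Pool.Agent.S3.Ys
import Pool.Agent.S3.Closed

/-!
# Stage 3: closed ends: the critical point in `y`

`yc u`: `exp (2 π i y) = -(cosh u - 2 i) / cosh u`, `tan (π y) = cosh u - i`, `0 < Re y < 1/2`. The
logarithms of `2 sin π (y ∓ v)`, `v = gdv u`, are `Mc u` and `Pc u`.
-/

namespace Pool.Agent.S3.Cl

open Complex Pool.Agent.S3
open Pool.Agent.H63.VC3 (hh ff ff_hasDerivAt ff_conj)
open Pool.Agent.H25.RK (gdv gdv_re_lt gdv_hasDerivAt)

/-- `log (cosh u - 2 i)` -/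
noncomputable def L2 (u : ℂ) : ℂ := log (cosh u - 2 * I)

/-- the critical point in `y` -/
noncomputable def yc (u : ℂ) : ℂ := 1 / 2 + (L2 u - Lc u) / (2 * Real.pi * I)

/-- `log cos (π y)` -/
noncomputable def lc (u : ℂ) : ℂ := -(Lc u + L2 u) / 2

theorem pi_ne : (Real.pi : ℂ) ≠ 0 := by exact_mod_cast Real.pi_ne_zero

theorem c2_re {u : ℂ} (h : |u.im| < Real.pi / 2) : 0 < (cosh u - 2 * I).re := by
  have : (cosh u - 2 * I).re = (cosh u).re := by simp
  rw [this]
  exact cosh_re_pos h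

theorem c2_mem {u : ℂ} (h : |u.im| < Real.pi / 2) : cosh u - 2 * I ∈ slitPlane :=
  mem_slitPlane_iff.2 (Or.inl (c2_re h))

theorem c2_ne {u : ℂ} (h : |u.im| < Real.pi / 2) : cosh u - 2 * I ≠ 0 :=
  slitPlane_ne_zero (c2_mem h)

theorem exp_L2 {u : ℂ} (h : |u.im| < Real.pi / 2) : exp (L2 u) = cosh u - 2 * I :=
  exp_log (c2_ne h)

theorem L2_im {u : ℂ} (h : |u.im| < Real.pi / 2) : |(L2 u).im| < Real.pi / 2 := by
  rw [L2, log_im]
  exact abs_arg_lt_pi_div_two_iff.2 (Or.inl (c2_re h))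

theorem Lc_im_lt {u : ℂ} (h : |u.im| < Real.pi / 2) : |(Lc u).im| < Real.pi / 2 :=
  lt_of_le_of_lt (Lc_im_abs h) h

theorem L2_sub_im {u : ℂ} (h : |u.im| < Real.pi / 2) :
    -Real.pi < (L2 u - Lc u).im ∧ (L2 u - Lc u).im < 0 := by
  have h1 := abs_lt.1 (L2_im h)
  have h2 := abs_lt.1 (Lc_im_lt h)
  have hc := cosh_ne h
  rw [sub_im]
  refine ⟨by linarith, ?_⟩
  by_contra hcon
  push Not at hcon
  have h3 : (exp (L2 u - Lc u)).im < 0 := by
    rw [exp_sub, exp_L2 h, exp_Lc h]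
    have e : (cosh u - 2 * I) / cosh u = 1 - 2 * (I * (cosh u)⁻¹) := by field_simp
    rw [e, sub_im, one_im, show (2 : ℂ) = ((2 : ℝ) : ℂ) by norm_num, im_ofReal_mul, I_mul_im,
      inv_re]
    have := div_pos (cosh_re_pos h) (normSq_pos.2 hc)
    linarith
  rw [exp_im, sub_im] at h3
  have h4 : 0 ≤ Real.sin ((L2 u).im - (Lc u).im) :=
    Real.sin_nonneg_of_nonneg_of_le_pi hcon (by linarith)
  have := mul_nonneg (Real.exp_pos (L2 u - Lc u).re).le h4
  linarith

theorem yc_re (u : ℂ) : (yc u).re = 1 / 2 + (L2 u - Lc u).im / (2 * Real.pi) := by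
  have e : (L2 u - Lc u) / (2 * (Real.pi : ℂ) * I)
      = ((1 / (2 * Real.pi) : ℝ) : ℂ) * (-I * (L2 u - Lc u)) := by
    have := pi_ne
    have hI := I_ne_zero
    push_cast
    field_simp
    linear_combination (L2 u - Lc u) * I_sq
  rw [yc, e, add_re, re_ofReal_mul, neg_mul, neg_re, I_mul_re]
  norm_num
  ring

theorem yc_im (u : ℂ) : (yc u).im = -(L2 u - Lc u).re / (2 * Real.pi) := by
  have e : (L2 u - Lc u) / (2 * (Real.pi : ℂ) * I)
      = ((1 / (2 * Real.pi) : ℝ) : ℂ) * (-I * (L2 u - Lc u)) := by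
    have := pi_ne
    have hI := I_ne_zero
    push_cast
    field_simp
    linear_combination (L2 u - Lc u) * I_sq
  rw [yc, e, add_im, im_ofReal_mul, neg_mul, neg_im, I_mul_im]
  norm_num
  ring

theorem yc_re_pos {u : ℂ} (h : |u.im| < Real.pi / 2) : 0 < (yc u).re := by
  have := (L2_sub_im h).1
  have hpi := Real.pi_pos
  rw [yc_re]
  have : -(1 / 2) < (L2 u - Lc u).im / (2 * Real.pi) := by
    rw [lt_div_iff₀ (by positivity)]
    linarith
  linarith

theorem yc_re_lt {u : ℂ} (h : |u.im| < Real.pi / 2) : (yc u).re < 1 / 2 := by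
  have := (L2_sub_im h).2
  have hpi := Real.pi_pos
  rw [yc_re]
  have : (L2 u - Lc u).im / (2 * Real.pi) < 0 := div_neg_of_neg_of_pos this (by positivity)
  linarith

theorem exp_yc {u : ℂ} (_h : |u.im| < Real.pi / 2) :
    exp (Real.pi * yc u * I) = I * exp ((L2 u - Lc u) / 2) := by
  have e : (Real.pi : ℂ) * yc u * I = Real.pi / 2 * I + (L2 u - Lc u) / 2 := by
    rw [yc]
    have := pi_ne
    have hI := I_ne_zero
    field_simp
  rw [e, exp_add, exp_pi_div_two_mul_I]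

theorem exp_two_yc {u : ℂ} (h : |u.im| < Real.pi / 2) :
    exp (2 * Real.pi * I * yc u) = -1 + 2 * I / cosh u := by
  have hc := cosh_ne h
  have e : 2 * (Real.pi : ℂ) * I * yc u = Real.pi * yc u * I + Real.pi * yc u * I := by ring
  have e2 : exp ((L2 u - Lc u) / 2) * exp ((L2 u - Lc u) / 2) = (cosh u - 2 * I) / cosh u := by
    rw [← exp_add, add_halves, exp_sub, exp_L2 h, exp_Lc h]
  rw [e, exp_add, exp_yc h]
  have : I * exp ((L2 u - Lc u) / 2) * (I * exp ((L2 u - Lc u) / 2))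
      = I ^ 2 * (exp ((L2 u - Lc u) / 2) * exp ((L2 u - Lc u) / 2)) := by ring
  rw [this, e2, I_sq]
  field_simp
  ring

/-- cosine and sine -/
theorem cs_yc {u : ℂ} (h : |u.im| < Real.pi / 2) : cos (Real.pi * yc u) = exp (lc u) ∧
    sin (Real.pi * yc u) = (cosh u - I) * exp (lc u) := by
  have hc := cosh_ne h
  have hr0 : exp ((L2 u - Lc u) / 2) ≠ 0 := exp_ne_zero _
  set r := exp ((L2 u - Lc u) / 2) with hr
  have e2 : r * r * cosh u = cosh u - 2 * I := by
    rw [hr, ← exp_add, add_halves, exp_sub, exp_L2 h, exp_Lc h]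
    field_simp
  have e1 : exp (Real.pi * yc u * I) = I * r := exp_yc h
  have e1' : exp (-(Real.pi * yc u * I)) = -I / r := by
    rw [exp_neg, e1, inv_eq_one_div, div_eq_div_iff (mul_ne_zero I_ne_zero hr0) hr0]
    linear_combination r * I_sq
  have e3 : exp (lc u) = 1 / (cosh u * r) := by
    have : lc u = -(Lc u + (L2 u - Lc u) / 2) := by rw [lc]; ring
    rw [this, exp_neg, exp_add, exp_Lc h, ← hr, one_div]
  have hcr : cosh u * r ≠ 0 := mul_ne_zero hc hr0
  constructor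
  · rw [Complex.cos, e3, e1, neg_mul, e1']
    field_simp
    linear_combination I * e2 - 2 * I_sq
  · rw [Complex.sin, e3, e1, neg_mul, e1']
    field_simp
    linear_combination (-I ^ 2) * e2 + (-2 * cosh u + 2 * I) * I_sq

/-- `log (2 sin π (y - v))` -/
noncomputable def Mc (u : ℂ) : ℂ := Real.log 2 + lc u - Lc u + log (exp (-u) - I)

/-- `log (2 sin π (y + v))` -/
noncomputable def Pc (u : ℂ) : ℂ := Real.log 2 + lc u - Lc u + log (exp u - I)

theorem eI_re {u : ℂ} (h : |u.im| < Real.pi / 2) : 0 < (exp u - I).re := by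
  rw [sub_re, I_re, sub_zero, exp_re]
  exact mul_pos (Real.exp_pos _) (cos_pos' h)

theorem eI_ne {u : ℂ} (h : |u.im| < Real.pi / 2) : exp u - I ≠ 0 := by
  intro h0
  have := eI_re h
  rw [h0] at this
  simp at this

theorem eI_im {u : ℂ} (h : |u.im| < Real.pi / 2) : |(log (exp u - I)).im| < Real.pi / 2 := by
  rw [log_im]
  exact abs_arg_lt_pi_div_two_iff.2 (Or.inl (eI_re h))

theorem exp_log2 : exp ((Real.log 2 : ℝ) : ℂ) = 2 := by
  rw [← ofReal_exp, Real.exp_log (by norm_num)]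
  norm_num

theorem exp_Pc {u : ℂ} (h : |u.im| < Real.pi / 2) :
    exp (Pc u) = 2 * sin (Real.pi * (yc u + gdv u)) := by
  have hc := cosh_ne h
  obtain ⟨h1, h2⟩ := cs_yc h
  have e := cosh_add_sinh u
  have hs : (Real.pi : ℂ) * (yc u + gdv u) = Real.pi * yc u + Real.pi * gdv u := by ring
  rw [Pc, exp_add, exp_sub, exp_add, exp_log2, exp_Lc h, exp_log (eI_ne h), hs,
    Complex.sin_add, h1, h2, cos_pi_gdv h, sin_pi_gdv h, tanh_eq_sinh_div_cosh]
  field_simp
  linear_combination -e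

theorem exp_Mc {u : ℂ} (h : |u.im| < Real.pi / 2) :
    exp (Mc u) = 2 * sin (Real.pi * (yc u - gdv u)) := by
  have hc := cosh_ne h
  have h' : |(-u).im| < Real.pi / 2 := by rwa [neg_im, abs_neg]
  obtain ⟨h1, h2⟩ := cs_yc h
  have e := cosh_sub_sinh u
  have hs : (Real.pi : ℂ) * (yc u - gdv u) = Real.pi * yc u - Real.pi * gdv u := by ring
  rw [Mc, exp_add, exp_sub, exp_add, exp_log2, exp_Lc h, exp_log (eI_ne h'), hs,
    Complex.sin_sub, h1, h2, cos_pi_gdv h, sin_pi_gdv h, tanh_eq_sinh_div_cosh]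
  field_simp
  linear_combination -e

theorem lc_im {u : ℂ} (h : |u.im| < Real.pi / 2) : |(lc u).im| < Real.pi / 2 := by
  have e : (lc u).im = -((Lc u).im + (L2 u).im) / 2 := by
    rw [lc, show (2 : ℂ) = ((2 : ℝ) : ℂ) by norm_num, div_ofReal_im, neg_im, add_im]
  have h1 := abs_lt.1 (Lc_im_lt h)
  have h2 := abs_lt.1 (L2_im h)
  rw [e, abs_lt]
  constructor <;> linarith

/-- `hh (y + 1/2) = log (2 cos (π y))` -/
theorem hh_half {u : ℂ} (h : |u.im| < Real.pi / 2) : hh (yc u + 1 / 2) = Real.log 2 + lc u := by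
  have hl := abs_lt.1 (lc_im h)
  have e : (2 : ℂ) * sin (Real.pi * (yc u + 1 / 2)) = exp (Real.log 2 + lc u) := by
    rw [exp_add, exp_log2, ← (cs_yc h).1, show (Real.pi : ℂ) * (yc u + 1 / 2)
      = Real.pi * yc u + Real.pi / 2 by ring, Complex.sin_add_pi_div_two]
  rw [hh, e, log_exp]
  · rw [add_im, ofReal_im, zero_add]
    linarith [Real.pi_pos]
  · rw [add_im, ofReal_im, zero_add]
    linarith [Real.pi_pos]

/-- `(exp u - i)(exp (-u) - i) = -2 i cosh u` on the level of logarithms -/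
theorem log_mul_eI {u : ℂ} (h : |u.im| < Real.pi / 2) :
    log (exp u - I) + log (exp (-u) - I) = Real.log 2 + Lc u - Real.pi / 2 * I := by
  have h' : |(-u).im| < Real.pi / 2 := by rwa [neg_im, abs_neg]
  have h1 := abs_lt.1 (eI_im h)
  have h2 := abs_lt.1 (eI_im h')
  have h3 := abs_lt.1 (Lc_im_lt h)
  have e4 : ((Real.log 2 : ℝ) + Lc u - Real.pi / 2 * I).im = (Lc u).im - Real.pi / 2 := by
    have : ((Real.pi : ℂ) / 2 * I) = ((Real.pi / 2 : ℝ) : ℂ) * I := by push_cast; ring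
    rw [this, sub_im, add_im, ofReal_im, im_ofReal_mul, I_im, mul_one, zero_add]
  apply log_unique
  · rw [exp_add, exp_sub, exp_add, exp_log2, exp_Lc h, exp_log (eI_ne h), exp_log (eI_ne h'),
      exp_pi_div_two_mul_I]
    have e1 : exp u * exp (-u) = 1 := by rw [← exp_add]; simp
    have e2 : 2 * cosh u = exp u + exp (-u) := by rw [Complex.cosh]; ring
    rw [eq_div_iff I_ne_zero]
    linear_combination I * e1 - e2 + (-exp u - exp (-u) + I) * I_sq
  · rw [add_im, e4, abs_lt]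
    constructor <;> linarith

/-- the equation of the critical point: `3 hh (y + 1/2) - Mc - Pc = π i (1 - y)` -/
theorem crit_eq {u : ℂ} (h : |u.im| < Real.pi / 2) :
    3 * (Real.log 2 + lc u) - Mc u - Pc u = Real.pi * I * (1 - yc u) := by
  have e := log_mul_eI h
  have hI := I_ne_zero
  have hpi := pi_ne
  have e2 : Real.pi * I * (1 - yc u) = Real.pi / 2 * I - (L2 u - Lc u) / 2 := by
    rw [yc]
    field_simp
    ring
  rw [e2, Mc, Pc, lc]
  linear_combination -e

/-- the derivative with respect to `v`: `Mc - Pc = - (u + i gd u)` -/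
theorem log_sub_eI {u : ℂ} (h : |u.im| < Real.pi / 2) : Mc u - Pc u = -2 * qcl u := by
  have h' : |(-u).im| < Real.pi / 2 := by rwa [neg_im, abs_neg]
  have h1 := abs_lt.1 (eI_im h)
  have h2 := abs_lt.1 (eI_im h')
  have h3 := abs_lt.1 h
  have h4 := abs_lt.1 (gd_re_lt h)
  have e0 : Mc u - Pc u = log (exp (-u) - I) - log (exp u - I) := by rw [Mc, Pc]; ring
  have e1 : (-2 * qcl u) = -u + -(I * gd u) := by rw [qcl]; ring
  have e4 : (-2 * qcl u).im = -u.im - (gd u).re := by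
    rw [e1, add_im, neg_im, neg_im, I_mul_im]
    ring
  rw [e0]
  apply log_unique
  · rw [exp_sub, exp_log (eI_ne h), exp_log (eI_ne h'), e1, exp_add, exp_neg_gd h]
    have hc := cosh_ne h
    have hE : exp u * exp (-u) = 1 := by rw [← exp_add]; simp
    have e2 : 2 * cosh u = exp u + exp (-u) := by rw [Complex.cosh]; ring
    have e3 : 2 * sinh u = exp u - exp (-u) := by rw [Complex.sinh]; ring
    rw [mul_div_assoc', div_eq_div_iff (eI_ne h) hc]
    linear_combination ((exp (-u) - I) / 2) * e2 + (I * exp (-u) * (exp u - I) / 2) * e3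
      + (I / 2 * (exp u - exp (-u))) * hE - ((exp u * exp (-u) - exp (-u) ^ 2) / 2) * I_sq
  · rw [sub_im, e4, abs_lt]
    constructor <;> linarith

end Pool.Agent.S3.Cl
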